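import Pool.Agent.W_b58c63_h68.ArB
import Pool.Agent.W_b58c63_h68.JPS

/-!
# Mertens estimates for the residue classes modulo 4 (helper36, MP_d33b62_nt)
-/

set_option autoImplicit false

noncomputable section

open Finset

namespace Pool.Agent.Wd33b62

open Pool.Agent.Wb58c63 (PI mem_PI VP below)

open Pool.Agent.Wb58c63 (arb_bb arb_A arb_ceil mertens_two)

theorem MM3_log (a b : ℝ) (ha : 1 < a) (hab : a ≤ b) (hb : b ≤ a + 1) :
    Real.log b - Real.log a ≤ 1 := by
  rw [← Real.log_div (by linarith) (by linarith)]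
  have h1 : b / a ≤ 1 + 1 / a := by
    rw [div_le_iff₀ (by linarith), add_mul, div_mul_cancel₀ _ (by linarith)]
    linarith
  have h2 : 1 / a ≤ 1 := by
    rw [div_le_one (by linarith)]
    linarith
  have h3 := Real.log_le_sub_one_of_pos (x := b / a) (div_pos (by linarith) (by linarith))
  linarith

theorem MM3_loglog (a b : ℝ) (ha : 1 < a) (hab : a ≤ b) (hb : b ≤ a + 1) :
    Real.log (Real.log b) ≤ Real.log (Real.log a) + 1 / Real.log a := by
  have h1 := MM3_log a b ha hab hb
  have hla : 0 < Real.log a := Real.log_pos ha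
  have hlb : 0 < Real.log b := Real.log_pos (by linarith)
  have h2 := Real.log_le_sub_one_of_pos (x := Real.log b / Real.log a) (by positivity)
  rw [Real.log_div hlb.ne' hla.ne'] at h2
  have h3 : Real.log b / Real.log a - 1 ≤ 1 / Real.log a := by
    rw [div_sub_one hla.ne']
    exact div_le_div_of_nonneg_right h1 hla.le
  linarith

/-- Partial summation over the integers, lower bound. -/
theorem MM3_abel {C : ℝ} (hC : ∀ N : ℕ, 1 ≤ N → |∑ n ∈ Icc 1 N, arb_bb n - Real.log N| ≤ C)
    (U : ℕ) (hU : 2 ≤ U) (N : ℕ) (hN : U ≤ N) :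
    (∑ n ∈ Icc 1 N, arb_bb n) / Real.log N - (∑ n ∈ Icc 1 (U - 1), arb_bb n) / Real.log U
      + Real.log (Real.log N) - Real.log (Real.log U) - (C + 1) * (1 / Real.log U - 1 / Real.log N) ≤
    ∑ n ∈ Icc U N, arb_bb n / Real.log n := by
  induction N, hN using Nat.le_induction with
  | base =>
    rw [Finset.Icc_self, Finset.sum_singleton]
    have h1 : ∑ n ∈ Icc 1 U, arb_bb n = ∑ n ∈ Icc 1 (U - 1), arb_bb n + arb_bb U := by
      obtain ⟨V, rfl⟩ : ∃ V, U = V + 1 := ⟨U - 1, by omega⟩
      rw [Finset.sum_Icc_succ_top (by omega)]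
      simp
    rw [h1, add_div]
    apply le_of_eq
    ring
  | succ N hN ih =>
    have hN2 : (2 : ℝ) ≤ N := by exact_mod_cast (hU.trans hN)
    rw [Finset.sum_Icc_succ_top (a := 1) (by omega), Finset.sum_Icc_succ_top (a := U) (by omega)]
    push_cast
    set A := ∑ n ∈ Icc 1 N, arb_bb n with hA
    have h1 := (abs_le.1 (hC N (by omega))).1
    rw [← hA] at h1
    have hstep := MM3_log (N : ℝ) ((N : ℝ) + 1) (by linarith) (by linarith) le_rfl
    set x := Real.log N with hx
    set y := Real.log ((N : ℝ) + 1) with hy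
    have hx0 : 0 < x := Real.log_pos (by linarith)
    have hxy : x < y := Real.log_lt_log (by linarith) (by linarith)
    have hy0 : 0 < y := hx0.trans hxy
    have h3 : 0 ≤ 1 / x - 1 / y := by
      have := one_div_le_one_div_of_le hx0 hxy.le
      linarith
    have h2 : Real.log y - Real.log x ≤ 1 - x / y + (1 / x - 1 / y) := by
      rw [← Real.log_div hy0.ne' hx0.ne']
      have h20 := Real.log_le_sub_one_of_pos (x := y / x) (by positivity)
      have h21 : y / x - 1 - (1 - x / y) = (y - x) * (1 / x - 1 / y) := by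
        field_simp
      have h22 : (y - x) * (1 / x - 1 / y) ≤ 1 * (1 / x - 1 / y) :=
        mul_le_mul_of_nonneg_right hstep h3
      linarith
    have h4 : (x - C) * (1 / x - 1 / y) ≤ A * (1 / x - 1 / y) :=
      mul_le_mul_of_nonneg_right (by linarith) h3
    have h5 : (x - C) * (1 / x - 1 / y) = 1 - x / y - C * (1 / x - 1 / y) := by
      field_simp
    have h6 : A * (1 / x - 1 / y) = A / x - A / y := by ring
    rw [add_div]
    nlinarith

/-- Two-sided Mertens (compare `Wb58c63.mertens_two`, which is the upper bound; `arb_A`). -/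
theorem mertens_all : ∃ C : ℝ, 0 < C ∧ ∀ u z : ℝ, 2 ≤ u → u ≤ z →
    |∑ p ∈ PI u z, (1 : ℝ) / p - Real.log (Real.log z / Real.log u)| ≤ C / Real.log u := by
  obtain ⟨C0, hC0, hup⟩ := mertens_two
  obtain ⟨C, hC, h⟩ := arb_A
  refine ⟨C0 + (3 * C + 4), by linarith, fun u z hu huz => ?_⟩
  have hz : 2 ≤ z := hu.trans huz
  have hlu : 0 < Real.log u := Real.log_pos (by linarith)
  have hlz : Real.log u ≤ Real.log z := Real.log_le_log (by linarith) huz
  have hup' := hup u z hu huz
  have hadd : (C0 + (3 * C + 4)) / Real.log u = C0 / Real.log u + (3 * C + 4) / Real.log u := by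
    rw [add_div]
  have hnn1 : 0 ≤ C0 / Real.log u := by positivity
  have hnn2 : 0 ≤ (3 * C + 4) / Real.log u := by positivity
  rw [abs_le, hadd]
  refine ⟨?_, by linarith⟩
  suffices hlow : Real.log (Real.log z / Real.log u) - (3 * C + 4) / Real.log u ≤
      ∑ p ∈ PI u z, (1 : ℝ) / p by linarith
  obtain ⟨N, hN, hc, hNz, hzN⟩ := arb_ceil hz
  have hN0 : (0 : ℝ) < N := by exact_mod_cast hN
  set U := ⌈u⌉₊ with hUdef
  have hU2 : 2 ≤ U := by
    have : (1 : ℝ) < u := by linarith
    exact Nat.lt_ceil.2 (by exact_mod_cast this)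
  have huU : u ≤ U := Nat.le_ceil u
  have hUu : (U : ℝ) ≤ u + 1 := (Nat.ceil_lt_add_one (by linarith)).le
  have h1 : ∑ p ∈ PI u z, (1 : ℝ) / p = ∑ n ∈ Icc U N, arb_bb n / Real.log n := by
    have h2 : ∀ n ∈ Icc U N, arb_bb n / Real.log n = if n.Prime then (1 : ℝ) / n else 0 := by
      intro n hn
      have hn2 : 2 ≤ n := hU2.trans (mem_Icc.1 hn).1
      have hl : Real.log n ≠ 0 := (Real.log_pos (by exact_mod_cast hn2)).ne'
      unfold arb_bb
      split_ifs with hp
      · field_simp
      · simp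
    rw [Finset.sum_congr rfl h2, ← Finset.sum_filter]
    apply Finset.sum_congr _ (fun _ _ => rfl)
    ext p
    unfold PI
    simp only [mem_filter, mem_range, mem_Icc, hc, hUdef, Nat.ceil_le]
    constructor
    · rintro ⟨h1, h2, h3⟩
      exact ⟨⟨h3, by omega⟩, h2⟩
    · rintro ⟨⟨h3, h1⟩, h2⟩
      exact ⟨by omega, h2, h3⟩
  rw [h1, Real.log_div (hlu.trans_le hlz).ne' hlu.ne']
  have hUl := MM3_loglog u U (by linarith) huU hUu
  by_cases hUN : U ≤ N
  · have h3 := MM3_abel h U hU2 N hUN
    have hN2 : (2 : ℝ) ≤ N := by exact_mod_cast (hU2.trans hUN)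
    have hUr : (2 : ℝ) ≤ U := by exact_mod_cast hU2
    have h4 := (abs_le.1 (h N hN)).1
    have h5 := (abs_le.1 (h (U - 1) (by omega))).2
    have hzl := MM3_loglog N z (by linarith) hNz.le hzN
    set A := ∑ n ∈ Icc 1 N, arb_bb n with hA
    set B := ∑ n ∈ Icc 1 (U - 1), arb_bb n with hB
    set x := Real.log N with hx
    set y := Real.log U with hy
    have hx0 : 0 < x := Real.log_pos (by linarith)
    have hy0 : 0 < y := Real.log_pos (by linarith)
    have huy : Real.log u ≤ y := Real.log_le_log (by linarith) huU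
    have hyx : y ≤ x := Real.log_le_log (by linarith) (by exact_mod_cast hUN)
    have h6 : Real.log ((U - 1 : ℕ) : ℝ) ≤ y := by
      apply Real.log_le_log
      · have : 1 ≤ U - 1 := by omega
        exact_mod_cast this
      · exact_mod_cast Nat.sub_le U 1
    have h7 : 1 - C / x ≤ A / x := by
      rw [le_div_iff₀ hx0, sub_mul, div_mul_cancel₀ _ hx0.ne']
      linarith
    have h8 : B / y ≤ 1 + C / y := by
      rw [div_le_iff₀ hy0, add_mul, div_mul_cancel₀ _ hy0.ne']
      linarith
    have i1 : 1 / y ≤ 1 / Real.log u := one_div_le_one_div_of_le hlu huy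
    have i2 : 1 / x ≤ 1 / Real.log u := one_div_le_one_div_of_le hlu (huy.trans hyx)
    have i3 : 0 ≤ 1 / x := by positivity
    have h9 : (C + 1) * (1 / y - 1 / x) ≤ (C + 1) * (1 / Real.log u) :=
      mul_le_mul_of_nonneg_left (by linarith) (by linarith)
    have h10 : C / x ≤ C * (1 / Real.log u) := by
      rw [div_eq_mul_one_div]
      exact mul_le_mul_of_nonneg_left i2 hC.le
    have h11 : C / y ≤ C * (1 / Real.log u) := by
      rw [div_eq_mul_one_div]
      exact mul_le_mul_of_nonneg_left i1 hC.le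
    have h12 : (3 * C + 4) / Real.log u = 3 * (C * (1 / Real.log u)) + 4 * (1 / Real.log u) := by
      ring
    have h13 : (C + 1) * (1 / Real.log u) = C * (1 / Real.log u) + 1 / Real.log u := by ring
    rw [h12]
    rw [h13] at h9
    linarith
  · rw [Finset.Icc_eq_empty hUN, Finset.sum_empty]
    have hzU : z ≤ U := by
      refine hzN.trans ?_
      have : N + 1 ≤ U := by omega
      exact_mod_cast this
    have h11 : Real.log (Real.log z) ≤ Real.log (Real.log U) :=
      Real.log_le_log (hlu.trans_le hlz) (Real.log_le_log (by linarith) hzU)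
    have h12 : (3 * C + 4) / Real.log u = 3 * (C * (1 / Real.log u)) + 4 * (1 / Real.log u) := by
      ring
    have h13 : 0 ≤ C * (1 / Real.log u) := by positivity
    have h14 : 0 ≤ 1 / Real.log u := by positivity
    rw [h12]
    linarith

end Pool.Agent.Wd33b62
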