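import Mathlib

/-!
# The arithmetic data of the sieve (helper36, MP_d33b62_nt): definitions
-/

set_option autoImplicit false

noncomputable section

open Finset

namespace Pool.Agent.Wd33b62

/-- The labels: `inl i` is the form `n + h i`, `inr (i, j)` the form `n + h i + a i j`. -/
abbrev VV (k : ℕ) : Type := Fin k ⊕ Fin k × Fin k

/-- **The data.** `n ≡ b mod W` is the progression; `W` has exactly the primes `≤ D0`. -/
structure AData (k : ℕ) where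
  h : Fin k → ℕ
  a : Fin k → Fin k → ℕ
  D : Fin k → Fin k → ℕ
  D0 : ℕ
  W : ℕ
  b : ℕ
  D0_ge : 2 ≤ D0
  W_pos : 0 < W
  W_primes : ∀ p : ℕ, p.Prime → (p ∣ W ↔ p ≤ D0)
  /-- the shifts are pairwise different -/
  sh_inj : Function.Injective (Sum.elim h fun ij : Fin k × Fin k => h ij.1 + a ij.1 ij.2)
  sh_le : ∀ v, Sum.elim h (fun ij : Fin k × Fin k => h ij.1 + a ij.1 ij.2) v ≤ D0
  D_pos : ∀ i j, 0 < D i j
  D_dvd : ∀ i j, D i j ∣ W
  cop : ∀ i, (b + h i).Coprime W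
  dvd : ∀ i j n, n ≡ b [MOD W] → 2 * D i j ∣ n + (h i + a i j)
  copM : ∀ i j n, n ≡ b [MOD W] → ((n + (h i + a i j)) / (2 * D i j)).Coprime W
  mod4 : ∀ i j n, n ≡ b [MOD W] → ((n + (h i + a i j)) / (2 * D i j)) % 4 = 1

/-- The shifts. -/
def AData.sh {k : ℕ} (d : AData k) : VV k → ℕ := Sum.elim d.h fun ij => d.h ij.1 + d.a ij.1 ij.2

/-- The number `M = (n + h i + a i j) / (2 D)` whose prime factors should all be `≡ 1 mod 4`. -/
def AData.M {k : ℕ} (d : AData k) (i j : Fin k) (n : ℕ) : ℕ := (n + (d.h i + d.a i j)) / (2 * d.D i j)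

/-- All prime factors are `≡ 1 mod 4`. -/
def GoodP (m : ℕ) : Prop := ∀ p : ℕ, p.Prime → p ∣ m → p % 4 = 1

/-- The modulus of the shifts. -/
def QQ (k : ℕ) : ℕ := 8 * (k + k ^ 2).factorial

/-- A set of odd primes which is closed under the representations of a circle. -/
def Clos (S : Set ℕ) : Prop :=
  (∀ a ∈ S, a.Prime ∧ a ≠ 2) ∧ ∀ a ∈ S, ∃ A₀ : ℤ, ¬ (a : ℤ) ∣ A₀ ∧ ∀ Z : ℕ, 0 < Z → a.Coprime Z →
    ∃ D : ℕ, 0 < D ∧ D.Coprime (2 * a * Z) ∧ D % 4 = 1 ∧ ∀ M : ℕ, 0 < M → GoodP M → M.Coprime D →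
      (∃ s : ℤ, ¬ (a : ℤ) ∣ s ∧ (a : ℤ) ∣ 2 * D * M * A₀ - s ^ 2) →
      ∀ q : ℕ, q.Prime → q ≠ 2 → q + a = 2 * D * M → q ∈ S

end Pool.Agent.Wd33b62
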