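import Pool.Agent.W_b58c63_h68.JPS

/-!
# The half-dimensional sieve: weights (helper36, MP_d33b62_nt)

Rosser's weights with exponent `1 + θ`. Compare `Pool.Agent.W_b58c63_h68.JLam` (linear sieve); the proofs are the same.
-/

set_option autoImplicit false

noncomputable section

open Finset MeasureTheory

namespace Pool.Agent.Wd33b62

open Pool.Agent.Wb58c63 (VP below VP_expand JLam_expand VP_pos)

open Classical in
/-- Rosser's weights with exponent `1 + θ` along a descending list of primes: `true` is the upper bound sieve,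
`false` the lower bound sieve. -/
def lamH (θ : ℝ) : Bool → ℝ → List ℕ → ℝ
  | _, _, [] => 1
  | true, D, p :: L => if (p : ℝ) ^ (2 + θ) < D then -lamH θ false (D / p) L else 0
  | false, D, p :: L => -lamH θ true (D / p) L

/-- The weights of a finite set of primes. -/
def lamHF (θ : ℝ) (b : Bool) (D : ℝ) (S : Finset ℕ) : ℝ := lamH θ b D (S.sort (· ≥ ·))

/-- The main term. -/
def GGh (g : ℕ → ℝ) (θ : ℝ) (b : Bool) (D : ℝ) (P : Finset ℕ) : ℝ :=
  ∑ S ∈ P.powerset, lamHF θ b D S * ∏ p ∈ S, g p

/-- The one-sided regularity condition of dimension `1 / 2`: `V(u) / V(z) ≤ K √(log z / log u)`. -/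
def RegH (g : ℕ → ℝ) (P : Finset ℕ) (K u₀ : ℝ) : Prop :=
  ∀ u z : ℝ, u₀ ≤ u → u ≤ z →
    VP g (below P u) * √(Real.log u) ≤ K * VP g (below P z) * √(Real.log z)

end Pool.Agent.Wd33b62
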