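import Mathlib

/-!
# Labelled product models (helper36, MP_d33b62_nt): definitions

`ι` is a finite set of places (primes), `V` a finite set of labels. A labeling is a function `c : ι → Option V`: every
place carries at most one label. All sieve weights of the project are functions of the labeling
`c p = some v` iff `p ∣ n + s v`.
-/

set_option autoImplicit false

noncomputable section

open Finset

namespace Pool.Agent.Wd33b62

variable {ι V : Type} [Fintype ι] [DecidableEq ι] [Fintype V] [DecidableEq V]

/-- The places which carry a label. -/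
def supp (c : ι → Option V) : Finset ι := univ.filter fun i => c i ≠ none

/-- `σ` is a sub-labeling of `c`. -/
def Sub (σ c : ι → Option V) : Prop := ∀ i, σ i = none ∨ σ i = c i

open Classical in
/-- The sub-labelings of `c`. -/
def dn (c : ι → Option V) : Finset (ι → Option V) := univ.filter fun σ => Sub σ c

open Classical in
/-- The labelings which extend `σ`. -/
def up (σ : ι → Option V) : Finset (ι → Option V) := univ.filter fun κ => Sub σ κ

/-- The empty labeling. -/
def nul : ι → Option V := fun _ => none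

/-- The places with the label `v`. -/
def fib (c : ι → Option V) (v : V) : Finset ι := univ.filter fun i => c i = some v

/-- Erase the labels of `U`. -/
def era (U : Finset V) (c : ι → Option V) : ι → Option V := fun i => (c i).filter fun v => decide (v ∉ U)

/-- Keep only the labels of `U`. -/
def kee (U : Finset V) (c : ι → Option V) : ι → Option V := fun i => (c i).filter fun v => decide (v ∈ U)

/-- Erase all labels at the places of `B`. -/
def off (B : Finset ι) (c : ι → Option V) : ι → Option V := fun i => if i ∈ B then none else c i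

/-- The value of `q` at an optional label (`1` for no label). -/
def qv (q : ι → V → ℝ) (i : ι) : Option V → ℝ
  | none => 1
  | some v => q i v

/-- The product of the probabilities of the labels of `σ`. -/
def qwt (q : ι → V → ℝ) (σ : ι → Option V) : ℝ := ∏ i, qv q i (σ i)

/-- The product of the `x i` over the labelled places. -/
def xwt (x : ι → ℝ) (σ : ι → Option V) : ℝ := ∏ i ∈ supp σ, x i

/-- One place: the label `v` has probability `q i v`. -/
def pv (q : ι → V → ℝ) (i : ι) : Option V → ℝ
  | none => 1 - ∑ v, q i v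
  | some v => q i v

/-- The probability of a labeling in the product model. -/
def prb (q : ι → V → ℝ) (c : ι → Option V) : ℝ := ∏ i, pv q i (c i)

/-- The expectation in the product model. -/
def Ex (q : ι → V → ℝ) (F : (ι → Option V) → ℝ) : ℝ := ∑ c, prb q c * F c

/-- The probabilities are probabilities. -/
def QOK (q : ι → V → ℝ) : Prop := (∀ i v, 0 ≤ q i v) ∧ ∀ i, ∑ v, q i v ≤ 1

/-- **The Selberg form** with the variables `y κ`: `∑_κ y κ ∏_{i ∈ κ} (x i - [c i = κ i])`. -/
def FF (x : ι → ℝ) (y : (ι → Option V) → ℝ) (c : ι → Option V) : ℝ :=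
  ∑ κ : ι → Option V, y κ * ∏ i ∈ supp κ, (x i - if c i = κ i then 1 else 0)

/-- The coefficients of the Selberg form: `FF x y c = ∑_{σ ≤ c} lam x y σ`. -/
def lam (x : ι → ℝ) (y : (ι → Option V) → ℝ) (σ : ι → Option V) : ℝ :=
  (-1) ^ (supp σ).card * ∑ κ ∈ up σ, y κ * ∏ i ∈ supp κ \ supp σ, x i

/-- The centred basis function of `τ`. -/
def phi (q : ι → V → ℝ) (τ c : ι → Option V) : ℝ :=
  ∏ i ∈ supp τ, ((if c i = τ i then 1 else 0) - qv q i (τ i))

/-- The coefficients in the basis `phi` (up to sign). -/
def zz (x : ι → ℝ) (y : (ι → Option V) → ℝ) (q : ι → V → ℝ) (τ : ι → Option V) : ℝ :=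
  ∑ κ ∈ up τ, y κ * ∏ i ∈ supp κ \ supp τ, (x i - qv q i (κ i))

/-- `∑_S g(S) ^ 2 x(S)`. -/
def AA (x : ι → ℝ) (g : Finset ι → ℝ) : ℝ := ∑ S : Finset ι, g S ^ 2 * ∏ i ∈ S, x i

/-- `∑_S g(S) x(S)`. -/
def BB (x : ι → ℝ) (g : Finset ι → ℝ) : ℝ := ∑ S : Finset ι, g S * ∏ i ∈ S, x i

/-- `∑ x i ^ 2`. -/
def SX (x : ι → ℝ) : ℝ := ∑ i, x i ^ 2

/-- The loss at the bad places. -/
def Th (V : Type) [Fintype V] (x : ι → ℝ) (B : Finset ι) : ℝ := ∏ i ∈ B, (1 + x i) ^ Fintype.card V

/-- The standing assumptions on the densities and on the one-variable functions. -/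
structure GH (x : ι → ℝ) (g : V → Finset ι → ℝ) : Prop where
  x_pos : ∀ i, 0 < x i
  x_le : ∀ i, x i ≤ 1
  g_nonneg : ∀ v S, 0 ≤ g v S
  g_anti : ∀ v S T, S ⊆ T → g v T ≤ g v S

/-- The standing assumptions on the model: labels of `U` and all labels at the places of `B` are impossible, the
other probabilities are near to `x i`. -/
structure QH (x : ι → ℝ) (q : ι → V → ℝ) (U : Finset V) (B : Finset ι) (C : ℝ) : Prop where
  q_nonneg : ∀ i v, 0 ≤ q i v
  q_sum : ∀ i, ∑ v, q i v ≤ 1
  q_zero : ∀ i v, (v ∈ U ∨ i ∈ B) → q i v = 0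
  q_near : ∀ i v, v ∉ U → i ∉ B → |q i v - x i| ≤ C * x i ^ 2

/-- The model with probabilities `x i` for the labels outside of `U`. -/
def qx (x : ι → ℝ) (U : Finset V) (i : ι) (v : V) : ℝ := if v ∈ U then 0 else x i

/-- The model with probabilities `x i` for all labels and the places outside of `B`. -/
def qB (V : Type) (x : ι → ℝ) (B : Finset ι) (i : ι) (_ : V) : ℝ := if i ∈ B then 0 else x i

/-- The main term `T_U`. -/
def TT0 (x : ι → ℝ) (y : (ι → Option V) → ℝ) (U : Finset V) : ℝ :=
  ∑ τ : ι → Option V, zz x y (qx x U) τ ^ 2 * qwt (qx x U) τ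

/-- The expansion `G c = ∑_{σ ≤ c} α σ`. -/
def HasExp (G α : (ι → Option V) → ℝ) : Prop := ∀ c, G c = ∑ σ ∈ dn c, α σ

/-- The coefficients of a product. -/
def conv (α β : (ι → Option V) → ℝ) (σ : ι → Option V) : ℝ :=
  ∑ σ₁ ∈ dn σ, ∑ σ₂ ∈ dn σ, if supp σ₁ ∪ supp σ₂ = supp σ then α σ₁ * β σ₂ else 0

/-- The model conditioned on the labels outside of `U`: at the places which are not labelled by `c` the labels of `U`
have their conditional probabilities. -/
def q1 (q : ι → V → ℝ) (U : Finset V) (i : ι) (v : V) : ℝ := if v ∈ U then 0 else q i v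

open Classical in
def q2 (q : ι → V → ℝ) (U : Finset V) (c : ι → Option V) (i : ι) (v : V) : ℝ :=
  if v ∈ U ∧ c i = none then q i v / (1 - ∑ u, q1 q U i u) else 0

/-- The tilted model. -/
def qt (q : ι → V → ℝ) (t : ι → ℝ) (i : ι) (v : V) : ℝ :=
  q i v * (1 + t i) / (1 + t i * ∑ u, q i u)

end Pool.Agent.Wd33b62
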