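import Pool.Agent.W_b58c63_h68.ArB
import Pool.Agent.W_d33b62_h36.AD
import Pool.Agent.W_d33b62_h36.HD0
import Pool.Agent.W_d33b62_h36.LDefs

/-!
# The sieve weights (helper36, MP_d33b62_nt): definitions
-/

set_option autoImplicit false

noncomputable section

open Finset

namespace Pool.Agent.Wd33b62

open Pool.Agent.Wb58c63 (PI mem_PI VP ap Pr XM)

/-- The primes `p` with `D0 < p < z`. -/
def PS (D0 : ℕ) (z : ℝ) : Finset ℕ := PI ((D0 : ℝ) + 1) z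

/-- The places. -/
abbrev Pl (D0 : ℕ) (z : ℝ) : Type := {p : ℕ // p ∈ PS D0 z}

variable {D0 : ℕ} {z : ℝ}

/-- The densities `1 / p`. -/
def xr (D0 : ℕ) (z : ℝ) (p : Pl D0 z) : ℝ := 1 / (p.1 : ℝ)

/-- The product of the primes of a set. -/
def nmS (S : Finset (Pl D0 z)) : ℕ := ∏ p ∈ S, p.1

/-- The product of the labelled primes. -/
def nm {V : Type} (σ : Pl D0 z → Option V) : ℕ := nmS (supp σ)

open Classical in
/-- The indicator of the sets with product at most `X`, for `t = true` only primes `≡ 3 mod 4` are allowed. -/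
def gX (t : Bool) (X : ℝ) (S : Finset (Pl D0 z)) : ℝ :=
  if (nmS S : ℝ) ≤ X ∧ ∀ p ∈ S, t = true → p.1 % 4 = 3 then 1 else 0

/-- The one-variable function of the labels `inl i`: a combination of the indicators of `∏ S ≤ R ^ (2 ^ l / 2 ^ (L + 1))`. -/
def gS (L : ℕ) (R : ℝ) (S : Finset (Pl D0 z)) : ℝ :=
  ∑ l ∈ range (L + 1), (if l = L then 2 else 2 ^ (L - l)) * gX false (R ^ ((2 : ℝ) ^ l / 2 ^ (L + 1))) S

/-- The one-variable functions. -/
def gw {k : ℕ} (L : ℕ) (R E : ℝ) : VV k → Finset (Pl D0 z) → ℝ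
  | Sum.inl _, S => gS L R S
  | Sum.inr _, S => gX true E S

/-- The cost of a label. -/
def cost {k : ℕ} (R : ℝ) : VV k → Finset (Pl D0 z) → ℝ
  | Sum.inl _, S => Real.log (nmS S) / Real.log R
  | Sum.inr _, _ => 0

open Classical in
/-- The Selberg variables. -/
def yw {k : ℕ} (L : ℕ) (R E : ℝ) (κ : Pl D0 z → Option (VV k)) : ℝ :=
  if ∑ v, cost R v (fib κ v) ≤ 1 then ∏ v, gw L R E v (fib κ v) else 0

open Classical in
/-- The labeling of `n`. -/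
def cc {k : ℕ} (d : AData k) (z : ℝ) (n : ℕ) (p : Pl d.D0 z) : Option (VV k) :=
  if h : ∃ v, p.1 ∣ n + d.sh v then some h.choose else none

/-- The levels. -/
def ZZ (η Y : ℝ) : ℝ := Y ^ ((1 / 2 - 6 * η) / (1 + η))
def DD (η Y : ℝ) : ℝ := Y ^ (1 / 2 - 6 * η)
def RR (η Y : ℝ) : ℝ := Y ^ η
def EE (η τ : ℝ) (k : ℕ) (Y : ℝ) : ℝ := Y ^ (η * τ ^ 2 / k ^ 2)
def ES (Y : ℝ) : ℝ := Y ^ (1 / 50 : ℝ)

/-- The densities, one-variable functions, Selberg variables and labelings for the parameter `Y`. -/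
abbrev PY {k : ℕ} (d : AData k) (η Y : ℝ) : Type := Pl d.D0 (ZZ η Y)

def xY {k : ℕ} (d : AData k) (η Y : ℝ) : PY d η Y → ℝ := xr d.D0 (ZZ η Y)

def gY {k : ℕ} (d : AData k) (η τ : ℝ) (L : ℕ) (Y : ℝ) : VV k → Finset (PY d η Y) → ℝ :=
  gw L (RR η Y) (EE η τ k Y)

def yY {k : ℕ} (d : AData k) (η τ : ℝ) (L : ℕ) (Y : ℝ) : (PY d η Y → Option (VV k)) → ℝ :=
  yw L (RR η Y) (EE η τ k Y)

def cY {k : ℕ} (d : AData k) (η Y : ℝ) (n : ℕ) : PY d η Y → Option (VV k) := cc d (ZZ η Y) n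

/-- The weight of `n`. -/
def wY {k : ℕ} (d : AData k) (η τ : ℝ) (L : ℕ) (Y : ℝ) (n : ℕ) : ℝ :=
  FF (xY d η Y) (yY d η τ L Y) (cY d η Y n) ^ 2

/-- The one-dimensional sums. -/
def A0 {k : ℕ} (d : AData k) (η : ℝ) (L : ℕ) (Y : ℝ) : ℝ := AA (xY d η Y) (gS L (RR η Y))
def B0 {k : ℕ} (d : AData k) (η : ℝ) (L : ℕ) (Y : ℝ) : ℝ := BB (xY d η Y) (gS L (RR η Y))
def G0 {k : ℕ} (d : AData k) (η τ : ℝ) (Y : ℝ) : ℝ := BB (xY d η Y) (gX true (EE η τ k Y))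

/-- The densities of the half-dimensional sieve. -/
def hK (k : ℕ) (p : ℕ) : ℝ := 1 / ((p : ℝ) - ((k + k ^ 2 - 1 : ℕ) : ℝ))

/-- The Euler product of the inert primes. -/
def V0 {k : ℕ} (d : AData k) (η Y : ℝ) : ℝ := VP (hK k) ((PS d.D0 (ZZ η Y)).filter fun p => p % 4 = 3)

/-- The lower bound sieve for the label `v`. -/
def Lm {V : Type} [DecidableEq V] (θ Dl : ℝ) (v : V) (c : Pl D0 z → Option V) : ℝ :=
  ∑ S ∈ ((fib c v).filter fun p => p.1 % 4 = 3).powerset, lamHF θ false Dl (S.image Subtype.val)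

open Classical in
/-- The majorant functions: `gX (t u) X` for the labels of `U`, `[S = ∅]` for the others. -/
def g2 {V : Type} (U : Finset V) (t : V → Bool) (X : ℝ) (v : V) (S : Finset (Pl D0 z)) : ℝ :=
  if v ∈ U then gX (t v) X S else if S = ∅ then 1 else 0

/-- The coefficients are bounded and supported on products up to `L`. -/
def Bd {V : Type} (α : (Pl D0 z → Option V) → ℝ) (L C b : ℝ) : Prop :=
  ∀ σ, |α σ| ≤ C * b ^ (supp σ).card ∧ (α σ ≠ 0 → (nm σ : ℝ) ≤ L)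

/-- The window for `n`. -/
def Wd {k : ℕ} (d : AData k) (Y : ℝ) : Finset ℕ := (Ico ⌊Y / 2⌋₊ ⌈2 * Y⌉₊).filter fun n => n ≡ d.b [MOD d.W]

/-- The primes `p = n + h i`. -/
def Pd {k : ℕ} (d : AData k) (i : Fin k) (Y : ℝ) : Finset ℕ := (Pr Y).filter fun p => p ≡ d.b + d.h i [MOD d.W]

end Pool.Agent.Wd33b62
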