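import Pool.Agent.W_d33b62_h36.AR0

/-!
# Basic facts on the weights (helper36, MP_d33b62_nt)
-/

set_option autoImplicit false

noncomputable section

open Finset

namespace Pool.Agent.Wd33b62

open Pool.Agent.Wb58c63 (PI mem_PI VP ap Pr XM)

variable {D0 : ℕ} {z : ℝ}

theorem mem_PS {p : ℕ} : p ∈ PS D0 z ↔ p.Prime ∧ D0 < p ∧ (p : ℝ) < z := by
  unfold PS
  rw [mem_PI]
  constructor
  · rintro ⟨h1, h2, h3⟩
    refine ⟨h1, ?_, h3⟩
    have h4 : ((D0 + 1 : ℕ) : ℝ) ≤ (p : ℝ) := by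
      push_cast
      exact h2
    exact_mod_cast h4
  · rintro ⟨h1, h2, h3⟩
    refine ⟨h1, ?_, h3⟩
    have h4 : D0 + 1 ≤ p := h2
    exact_mod_cast h4

/-- **The labeling of `n`.** The shifts are different and at most `D0 < p`, so `p` divides at most one of the
`n + sh v`. -/
theorem cc_iff {k : ℕ} (d : AData k) (z : ℝ) (n : ℕ) (p : Pl d.D0 z) (v : VV k) :
    cc d z n p = some v ↔ p.1 ∣ n + d.sh v := by
  classical
  have hp := mem_PS.1 p.2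
  unfold cc
  constructor
  · intro h
    split_ifs at h with h1
    have h2 : h1.choose = v := Option.some.inj h
    rw [← h2]
    exact h1.choose_spec
  · intro h
    have h1 : ∃ v, p.1 ∣ n + d.sh v := ⟨v, h⟩
    rw [dif_pos h1]
    congr 1
    have h2 : p.1 ∣ n + d.sh h1.choose := h1.choose_spec
    apply d.sh_inj
    show d.sh h1.choose = d.sh v
    have h3 : d.sh h1.choose ≤ d.D0 := d.sh_le _
    have h4 : d.sh v ≤ d.D0 := d.sh_le _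
    have h5 : n + d.sh h1.choose ≡ n + d.sh v [MOD p.1] :=
      ((Nat.modEq_zero_iff_dvd).2 h2).trans ((Nat.modEq_zero_iff_dvd).2 h).symm
    have h6 : d.sh h1.choose ≡ d.sh v [MOD p.1] := Nat.ModEq.add_left_cancel' n h5
    exact Nat.ModEq.eq_of_lt_of_lt h6 (lt_of_le_of_lt h3 hp.2.1) (lt_of_le_of_lt h4 hp.2.1)

theorem Sub_cc_iff {k : ℕ} (d : AData k) (z : ℝ) (n : ℕ) (σ : Pl d.D0 z → Option (VV k)) :
    Sub σ (cc d z n) ↔ ∀ p v, σ p = some v → p.1 ∣ n + d.sh v := by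
  constructor
  · intro h p v hv
    rcases h p with h1 | h1
    · rw [h1] at hv
      exact absurd hv (by simp)
    · rw [hv] at h1
      exact (cc_iff d z n p v).1 h1.symm
  · intro h p
    rcases hv : σ p with _ | v
    · exact Or.inl rfl
    · exact Or.inr ((cc_iff d z n p v).2 (h p v hv)).symm

theorem xr_pos (p : Pl D0 z) : 0 < xr D0 z p := by
  have hp := mem_PS.1 p.2
  unfold xr
  have : (0 : ℝ) < (p.1 : ℝ) := by exact_mod_cast hp.1.pos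
  positivity

theorem xr_le (hD : 1 ≤ D0) (p : Pl D0 z) : xr D0 z p ≤ 1 / (D0 : ℝ) := by
  have hp := mem_PS.1 p.2
  unfold xr
  have h1 : (0 : ℝ) < (D0 : ℝ) := by exact_mod_cast hD
  refine one_div_le_one_div_of_le h1 ?_
  exact_mod_cast hp.2.1.le

/-- `∑_{p > D0} 1 / p ^ 2 ≤ 1 / D0`. -/
theorem SX_xr_le (hD : 1 ≤ D0) : SX (xr D0 z) ≤ 1 / (D0 : ℝ) := by
  unfold SX xr
  have h1 : ∑ p : Pl D0 z, (1 / (p.1 : ℝ)) ^ 2 = ∑ p ∈ PS D0 z, (1 / (p : ℝ)) ^ 2 :=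
    Finset.sum_coe_sort (PS D0 z) (fun p => (1 / (p : ℝ)) ^ 2)
  rw [h1]
  have h2 : PS D0 z ⊆ Ioc D0 (D0 + ⌈z⌉₊) := by
    intro p hp
    obtain ⟨-, h3, h4⟩ := mem_PS.1 hp
    have h5 : p < ⌈z⌉₊ := Nat.lt_ceil.2 h4
    rw [mem_Ioc]
    omega
  calc ∑ p ∈ PS D0 z, (1 / (p : ℝ)) ^ 2 ≤ ∑ p ∈ Ioc D0 (D0 + ⌈z⌉₊), (1 / (p : ℝ)) ^ 2 :=
        Finset.sum_le_sum_of_subset_of_nonneg h2 (fun _ _ _ => by positivity)
    _ = ∑ p ∈ Ioc D0 (D0 + ⌈z⌉₊), ((p : ℝ) ^ 2)⁻¹ := by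
        refine Finset.sum_congr rfl fun p _ => ?_
        rw [one_div, inv_pow]
    _ ≤ (D0 : ℝ)⁻¹ - ((D0 + ⌈z⌉₊ : ℕ) : ℝ)⁻¹ := sum_Ioc_inv_sq_le_sub (by omega) (by omega)
    _ ≤ 1 / (D0 : ℝ) := by
        rw [one_div]
        have : (0 : ℝ) ≤ ((D0 + ⌈z⌉₊ : ℕ) : ℝ)⁻¹ := by positivity
        linarith

end Pool.Agent.Wd33b62
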