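import Pool.Agent.W_d33b62_h36.AR0

/-!
# Basic facts on the weights (helper36, MP_d33b62_nt)
-/

set_option autoImplicit false

noncomputable section

open Finset

namespace Pool.Agent.Wd33b62

open Pool.Agent.Wb58c63 (PI mem_PI VP ap Pr XM)

variable {D0 : ℕ} {z : ℝ}

theorem AR1b_pos (p : Pl D0 z) : 0 < p.1 := by
  have h := p.2
  unfold PS at h
  exact (mem_PI.1 h).1.pos

theorem AR1b_nmS_pos (S : Finset (Pl D0 z)) : 0 < nmS S :=
  Finset.prod_pos fun p _ => AR1b_pos p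

theorem AR1b_nmS_le (S T : Finset (Pl D0 z)) (h : S ⊆ T) : nmS S ≤ nmS T :=
  Nat.le_of_dvd (AR1b_nmS_pos T) (Finset.prod_dvd_prod_of_subset _ _ _ h)

/-- The coefficients of `gS`. -/
def AR1b_c (L l : ℕ) : ℝ := if l = L then 2 else 2 ^ (L - l)

theorem AR1b_c_nonneg (L l : ℕ) : 0 ≤ AR1b_c L l := by
  unfold AR1b_c
  split_ifs
  · norm_num
  · positivity

theorem AR1b_gS (L : ℕ) (R : ℝ) (S : Finset (Pl D0 z)) :
    gS L R S = ∑ l ∈ range (L + 1), AR1b_c L l * gX false (R ^ ((2 : ℝ) ^ l / 2 ^ (L + 1))) S := rfl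

theorem AR1b_tail (L : ℕ) : ∀ d : ℕ, d ≤ L → ∑ l ∈ Ico (L - d) (L + 1), AR1b_c L l = 2 ^ (d + 1) := by
  intro d
  induction d with
  | zero =>
    intro _
    rw [Nat.sub_zero, Nat.Ico_succ_singleton, Finset.sum_singleton]
    unfold AR1b_c
    rw [if_pos rfl]
    norm_num
  | succ d ih =>
    intro hd
    rw [Finset.sum_eq_sum_Ico_succ_bot (by omega)]
    have h1 : L - (d + 1) + 1 = L - d := by omega
    rw [h1, ih (by omega)]
    unfold AR1b_c
    rw [if_neg (by omega), show L - (L - (d + 1)) = d + 1 by omega]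
    ring

theorem AR1b_sum (L : ℕ) : ∑ l ∈ range (L + 1), AR1b_c L l = 2 ^ (L + 1) := by
  have h := AR1b_tail L L le_rfl
  rw [Nat.sub_self, Nat.Ico_zero_eq_range] at h
  exact h

theorem AR1b_gX_le (t : Bool) (X : ℝ) (S : Finset (Pl D0 z)) : gX t X S ≤ 1 := by
  unfold gX
  split_ifs
  · exact le_rfl
  · exact zero_le_one

theorem AR1b_gX_false (X : ℝ) (S : Finset (Pl D0 z)) (h : gX false X S ≠ 0) : (nmS S : ℝ) ≤ X := by
  unfold gX at h
  by_contra hc
  exact h (if_neg fun h1 => hc h1.1)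

theorem gX_nonneg (t : Bool) (X : ℝ) (S : Finset (Pl D0 z)) : 0 ≤ gX t X S := by
  unfold gX
  split_ifs
  · exact zero_le_one
  · exact le_rfl

theorem gX_sq (t : Bool) (X : ℝ) (S : Finset (Pl D0 z)) : gX t X S ^ 2 = gX t X S := by
  unfold gX
  split_ifs
  · norm_num
  · norm_num

theorem gX_anti (t : Bool) (X : ℝ) (S T : Finset (Pl D0 z)) (h : S ⊆ T) : gX t X T ≤ gX t X S := by
  by_cases hT : gX t X T = 0
  · rw [hT]
    exact gX_nonneg t X S
  · refine (AR1b_gX_le t X T).trans (le_of_eq ?_)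
    unfold gX at hT ⊢
    split_ifs at hT with h1
    · rw [if_pos]
      refine ⟨le_trans ?_ h1.1, fun p hp => h1.2 p (h hp)⟩
      exact_mod_cast AR1b_nmS_le S T h
    · exact absurd rfl hT

theorem gX_empty (t : Bool) (X : ℝ) (hX : 1 ≤ X) : gX t X (∅ : Finset (Pl D0 z)) = 1 := by
  unfold gX
  rw [if_pos]
  refine ⟨?_, fun p hp => absurd hp (Finset.notMem_empty p)⟩
  unfold nmS
  rw [Finset.prod_empty]
  exact_mod_cast hX

theorem gS_nonneg (L : ℕ) (R : ℝ) (S : Finset (Pl D0 z)) : 0 ≤ gS L R S := by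
  rw [AR1b_gS]
  exact Finset.sum_nonneg fun l _ => mul_nonneg (AR1b_c_nonneg L l) (gX_nonneg _ _ _)

theorem gS_anti (L : ℕ) (R : ℝ) (S T : Finset (Pl D0 z)) (h : S ⊆ T) : gS L R T ≤ gS L R S := by
  rw [AR1b_gS, AR1b_gS]
  exact Finset.sum_le_sum fun l _ =>
    mul_le_mul_of_nonneg_left (gX_anti _ _ _ _ h) (AR1b_c_nonneg L l)

/-- `∑_{l < L} 2 ^ (L - l) + 2 = 2 ^ (L + 1)`. -/
theorem gS_empty (L : ℕ) (R : ℝ) (hR : 1 ≤ R) : gS L R (∅ : Finset (Pl D0 z)) = 2 ^ (L + 1) := by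
  rw [AR1b_gS]
  refine Eq.trans (Finset.sum_congr rfl fun l _ => ?_) (AR1b_sum L)
  rw [gX_empty _ _ (Real.one_le_rpow hR (by positivity)), mul_one]

theorem gS_le (L : ℕ) (R : ℝ) (S : Finset (Pl D0 z)) : gS L R S ≤ 2 ^ (L + 1) := by
  rw [AR1b_gS]
  refine (Finset.sum_le_sum fun l _ => ?_).trans (le_of_eq (AR1b_sum L))
  have := mul_le_mul_of_nonneg_left (AR1b_gX_le false (R ^ ((2 : ℝ) ^ l / 2 ^ (L + 1))) S)
    (AR1b_c_nonneg L l)
  linarith

/-- `gS ≠ 0` implies `∏ S ≤ R ^ (1 / 2)`. -/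
theorem gS_ne_zero (L : ℕ) (R : ℝ) (hR : 1 ≤ R) (S : Finset (Pl D0 z)) (h : gS L R S ≠ 0) :
    (nmS S : ℝ) ≤ R ^ (1 / 2 : ℝ) := by
  rw [AR1b_gS] at h
  obtain ⟨l, hl, hne⟩ := Finset.exists_ne_zero_of_sum_ne_zero h
  refine (AR1b_gX_false _ _ (right_ne_zero_of_mul hne)).trans ?_
  refine Real.rpow_le_rpow_of_exponent_le hR ?_
  rw [Finset.mem_range] at hl
  rw [div_le_iff₀ (by positivity), pow_succ]
  have h1 : (2 : ℝ) ^ l ≤ 2 ^ L := pow_le_pow_right₀ (by norm_num) (by omega)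
  linarith

/-- **`gS * cost ≤ 1`**: if `l` is the smallest index with `∏ S ≤ R ^ (2 ^ l / 2 ^ (L + 1))` then
`gS = ∑_{l' ≥ l} = 2 ^ (L + 1) / 2 ^ l` and the cost `log ∏ S / log R` is at most `2 ^ l / 2 ^ (L + 1)`. -/
theorem gS_cost (L : ℕ) (R : ℝ) (hR : 1 < R) (S : Finset (Pl D0 z)) :
    Real.log (nmS S) / Real.log R * gS L R S ≤ 1 := by
  classical
  have hlR : 0 < Real.log R := Real.log_pos hR
  have hR0 : 0 < R := by linarith
  have hn1 : (1 : ℝ) ≤ nmS S := by exact_mod_cast AR1b_nmS_pos S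
  by_cases hex : ∃ l, l ≤ L ∧ (nmS S : ℝ) ≤ R ^ ((2 : ℝ) ^ l / 2 ^ (L + 1))
  · set l := Nat.find hex with hl
    obtain ⟨h1, h2⟩ := Nat.find_spec hex
    rw [← hl] at h1 h2
    have h3 : gS L R S ≤ 2 ^ (L - l + 1) := by
      rw [AR1b_gS, ← AR1b_tail L (L - l) (by omega), show L - (L - l) = l by omega,
        ← Nat.Ico_zero_eq_range, ← Finset.sum_Ico_consecutive _ (Nat.zero_le l) (by omega)]
      have h4 : ∑ i ∈ Ico 0 l, AR1b_c L i * gX false (R ^ ((2 : ℝ) ^ i / 2 ^ (L + 1))) S = 0 := by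
        refine Finset.sum_eq_zero fun i hi => ?_
        rw [Finset.mem_Ico] at hi
        have h5 : gX false (R ^ ((2 : ℝ) ^ i / 2 ^ (L + 1))) S = 0 := by
          by_contra hc
          exact Nat.find_min hex (hl ▸ hi.2) ⟨by omega, AR1b_gX_false _ _ hc⟩
        rw [h5, mul_zero]
      rw [h4, zero_add]
      refine Finset.sum_le_sum fun i _ => ?_
      have := mul_le_mul_of_nonneg_left (AR1b_gX_le false (R ^ ((2 : ℝ) ^ i / 2 ^ (L + 1))) S)
        (AR1b_c_nonneg L i)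
      linarith
    have h6 : Real.log (nmS S) ≤ 2 ^ l / 2 ^ (L + 1) * Real.log R := by
      rw [← Real.log_rpow hR0]
      exact Real.log_le_log (by linarith) h2
    have h7 : Real.log (nmS S) / Real.log R ≤ 2 ^ l / 2 ^ (L + 1) := by
      rw [div_le_iff₀ hlR]
      exact h6
    have h8 : 0 ≤ Real.log (nmS S) / Real.log R := div_nonneg (Real.log_nonneg hn1) hlR.le
    calc Real.log (nmS S) / Real.log R * gS L R S
        ≤ (2 ^ l / 2 ^ (L + 1)) * 2 ^ (L - l + 1) :=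
          mul_le_mul h7 h3 (gS_nonneg L R S) (by positivity)
      _ = 1 := by
          rw [div_mul_eq_mul_div, ← pow_add, show l + (L - l + 1) = L + 1 by omega]
          exact div_self (by positivity)
  · have h0 : gS L R S = 0 := by
      rw [AR1b_gS]
      refine Finset.sum_eq_zero fun i hi => ?_
      rw [Finset.mem_range] at hi
      have h5 : gX false (R ^ ((2 : ℝ) ^ i / 2 ^ (L + 1))) S = 0 := by
        by_contra hc
        exact hex ⟨i, by omega, AR1b_gX_false _ _ hc⟩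
      rw [h5, mul_zero]
    rw [h0, mul_zero]
    exact zero_le_one

end Pool.Agent.Wd33b62
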