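import Pool.Agent.W_d33b62_h36.AR1a
import Pool.Agent.W_d33b62_h36.AR1b

/-!
# Basic facts on the weights (helper36, MP_d33b62_nt)
-/

set_option autoImplicit false

noncomputable section

open Finset

namespace Pool.Agent.Wd33b62

open Pool.Agent.Wb58c63 (PI mem_PI VP ap Pr XM)

variable {D0 : ℕ} {z : ℝ}

theorem AR1c_gw_nonneg {k : ℕ} (L : ℕ) (R E : ℝ) (v : VV k) (S : Finset (Pl D0 z)) :
    0 ≤ gw L R E v S := by
  cases v with
  | inl i => exact gS_nonneg L R S
  | inr x => exact gX_nonneg true E S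

theorem AR1c_ne {k : ℕ} (L : ℕ) (R E : ℝ) (κ : Pl D0 z → Option (VV k)) (h : yw L R E κ ≠ 0) :
    (∑ v, cost R v (fib κ v) ≤ 1) ∧ ∀ v, gw L R E v (fib κ v) ≠ 0 := by
  unfold yw at h
  by_cases h1 : ∑ v, cost R v (fib κ v) ≤ 1
  · rw [if_pos h1] at h
    exact ⟨h1, fun v => Finset.prod_ne_zero_iff.1 h v (Finset.mem_univ v)⟩
  · rw [if_neg h1] at h
    exact absurd rfl h

theorem AR1c_gX {X : ℝ} {t : Bool} {S : Finset (Pl D0 z)} (h : gX t X S ≠ 0) :
    (nmS S : ℝ) ≤ X ∧ ∀ p ∈ S, t = true → p.1 % 4 = 3 := by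
  unfold gX at h
  by_contra hc
  exact h (if_neg hc)

theorem AR1c_nm {V : Type} [Fintype V] [DecidableEq V] (κ : Pl D0 z → Option V) :
    nm κ = ∏ v, nmS (fib κ v) := by
  unfold nm nmS supp fib
  simp_rw [Finset.prod_filter]
  rw [Finset.prod_comm]
  refine Finset.prod_congr rfl fun p _ => ?_
  cases hp : κ p with
  | none => simp
  | some u => simp [Finset.prod_ite_eq]

/-- The standing assumptions. -/
theorem GH_gw {k : ℕ} (hD : 1 ≤ D0) (L : ℕ) (R E : ℝ) : GH (xr D0 z) (gw (k := k) L R E) := by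
  have hD' : (1 : ℝ) ≤ D0 := by exact_mod_cast hD
  constructor
  · exact fun p => xr_pos p
  · intro p
    refine (xr_le hD p).trans ?_
    rw [div_le_one (by linarith)]
    exact hD'
  · exact fun v S => AR1c_gw_nonneg L R E v S
  · intro v S T h
    cases v with
    | inl i => exact gS_anti L R S T h
    | inr x => exact gX_anti true E S T h

theorem GH_g2 {V : Type} [Fintype V] [DecidableEq V] (hD : 1 ≤ D0) (U : Finset V) (t : V → Bool) (X : ℝ) :
    GH (xr D0 z) (g2 U t X) := by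
  have hD' : (1 : ℝ) ≤ D0 := by exact_mod_cast hD
  constructor
  · exact fun p => xr_pos p
  · intro p
    refine (xr_le hD p).trans ?_
    rw [div_le_one (by linarith)]
    exact hD'
  · intro v S
    unfold g2
    split_ifs
    · exact gX_nonneg _ _ _
    · exact zero_le_one
    · exact le_rfl
  · intro v S T h
    unfold g2
    by_cases hv : v ∈ U
    · rw [if_pos hv, if_pos hv]
      exact gX_anti _ _ _ _ h
    · rw [if_neg hv, if_neg hv]
      by_cases hT : T = ∅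
      · have hS : S = ∅ := by
          rw [hT] at h
          exact Finset.subset_empty.1 h
        rw [if_pos hT, if_pos hS]
      · rw [if_neg hT]
        split_ifs
        · exact zero_le_one
        · exact le_rfl

theorem cost_nonneg {k : ℕ} (R : ℝ) (hR : 1 < R) (v : VV k) (S : Finset (Pl D0 z)) : 0 ≤ cost R v S := by
  cases v with
  | inl i =>
    refine div_nonneg (Real.log_nonneg ?_) (Real.log_pos hR).le
    exact_mod_cast AR1b_nmS_pos S
  | inr x => exact le_rfl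

theorem yw_nonneg {k : ℕ} (L : ℕ) (R E : ℝ) (κ : Pl D0 z → Option (VV k)) : 0 ≤ yw L R E κ := by
  unfold yw
  split_ifs
  · exact Finset.prod_nonneg fun v _ => AR1c_gw_nonneg L R E v _
  · exact le_rfl

theorem yw_le {k : ℕ} (L : ℕ) (R E : ℝ) (κ : Pl D0 z → Option (VV k)) :
    yw L R E κ ≤ ∏ v, gw L R E v (fib κ v) := by
  unfold yw
  split_ifs
  · exact le_rfl
  · exact Finset.prod_nonneg fun v _ => AR1c_gw_nonneg L R E v _

/-- **The level of the Selberg variables**: `∏_i κ_i ≤ R` (cost), each of the `k ^ 2` other factors is at most `E`. -/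
theorem yw_level {k : ℕ} (L : ℕ) (R E : ℝ) (hR : 1 < R) (hE : 1 ≤ E) (κ : Pl D0 z → Option (VV k))
    (h : yw L R E κ ≠ 0) : (nm κ : ℝ) ≤ R * E ^ (k ^ 2) := by
  obtain ⟨h1, h2⟩ := AR1c_ne L R E κ h
  have hlR : 0 < Real.log R := Real.log_pos hR
  have hpos : ∀ S : Finset (Pl D0 z), (1 : ℝ) ≤ nmS S := fun S => by
    exact_mod_cast AR1b_nmS_pos S
  rw [AR1c_nm, Fintype.prod_sum_type]
  push_cast
  refine mul_le_mul ?_ ?_ (Finset.prod_nonneg fun x _ => Nat.cast_nonneg _) (by linarith)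
  · rw [Fintype.sum_sum_type] at h1
    have h3 : 0 ≤ ∑ x : Fin k × Fin k, cost R (Sum.inr x) (fib κ (Sum.inr x)) :=
      Finset.sum_nonneg fun x _ => cost_nonneg R hR _ _
    have h4 : ∑ i : Fin k, cost R (Sum.inl i) (fib κ (Sum.inl i)) ≤ 1 := by linarith
    have h5 : ∑ i : Fin k, cost R (Sum.inl i) (fib κ (Sum.inl i)) =
        Real.log (∏ i : Fin k, (nmS (fib κ (Sum.inl i : VV k)) : ℝ)) / Real.log R := by
      rw [Real.log_prod fun i _ => by
        have := hpos (fib κ (Sum.inl i : VV k))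
        positivity, Finset.sum_div]
      rfl
    rw [h5, div_le_one hlR] at h4
    have h6 : 0 < ∏ i : Fin k, (nmS (fib κ (Sum.inl i : VV k)) : ℝ) :=
      Finset.prod_pos fun i _ => by linarith [hpos (fib κ (Sum.inl i : VV k))]
    exact (Real.log_le_log_iff h6 (by linarith)).1 h4
  · calc ∏ x : Fin k × Fin k, (nmS (fib κ (Sum.inr x : VV k)) : ℝ)
        ≤ ∏ _x : Fin k × Fin k, E := by
          refine Finset.prod_le_prod (fun x _ => Nat.cast_nonneg _) fun x _ => ?_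
          exact (AR1c_gX (h2 (Sum.inr x))).1
      _ = E ^ (k ^ 2) := by
          rw [Finset.prod_const, Finset.card_univ, Fintype.card_prod, Fintype.card_fin, sq]

/-- A labelled place with a label `inr x` is a prime `≡ 3 mod 4` if `yw κ ≠ 0`. -/
theorem yw_inert {k : ℕ} (L : ℕ) (R E : ℝ) (κ : Pl D0 z → Option (VV k)) (h : yw L R E κ ≠ 0)
    (p : Pl D0 z) (x : Fin k × Fin k) (hp : κ p = some (Sum.inr x)) : p.1 % 4 = 3 := by
  have h1 := (AR1c_ne L R E κ h).2 (Sum.inr x)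
  refine (AR1c_gX h1).2 p ?_ rfl
  unfold fib
  rw [Finset.mem_filter]
  exact ⟨Finset.mem_univ _, hp⟩

/-- `AA, BB ≥ 1` if `g ∅ ≥ 1` (the term `S = ∅`). -/
theorem one_le_AA (hD : 1 ≤ D0) (g : Finset (Pl D0 z) → ℝ) (h : 1 ≤ g ∅) : 1 ≤ AA (xr D0 z) g := by
  unfold AA
  have h1 : g ∅ ^ 2 * ∏ i ∈ (∅ : Finset (Pl D0 z)), xr D0 z i ≤
      ∑ S : Finset (Pl D0 z), g S ^ 2 * ∏ i ∈ S, xr D0 z i :=
    Finset.single_le_sum (f := fun S : Finset (Pl D0 z) => g S ^ 2 * ∏ i ∈ S, xr D0 z i)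
      (fun S _ => mul_nonneg (sq_nonneg _) (Finset.prod_nonneg fun i _ => (xr_pos i).le))
      (Finset.mem_univ ∅)
  rw [Finset.prod_empty, mul_one] at h1
  nlinarith

theorem one_le_BB (hD : 1 ≤ D0) (g : Finset (Pl D0 z) → ℝ) (hg : ∀ S, 0 ≤ g S) (h : 1 ≤ g ∅) :
    1 ≤ BB (xr D0 z) g := by
  unfold BB
  have h1 : g ∅ * ∏ i ∈ (∅ : Finset (Pl D0 z)), xr D0 z i ≤
      ∑ S : Finset (Pl D0 z), g S * ∏ i ∈ S, xr D0 z i :=
    Finset.single_le_sum (f := fun S : Finset (Pl D0 z) => g S * ∏ i ∈ S, xr D0 z i)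
      (fun S _ => mul_nonneg (hg S) (Finset.prod_nonneg fun i _ => (xr_pos i).le))
      (Finset.mem_univ ∅)
  rw [Finset.prod_empty, mul_one] at h1
  linarith

end Pool.Agent.Wd33b62
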