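import Pool.Agent.W_d33b62_h36.AR1b

/-!
# Basic facts on the weights (helper36, MP_d33b62_nt)
-/

set_option autoImplicit false

noncomputable section

open Finset

namespace Pool.Agent.Wd33b62

open Pool.Agent.Wb58c63 (PI mem_PI VP ap Pr XM)

variable {D0 : ℕ} {z : ℝ}

private theorem AR1d_prod {k : ℕ} (a c : ℝ) (f : VV k → ℝ) (hl : ∀ i, f (Sum.inl i) = a)
    (hr : ∀ x, f (Sum.inr x) = c) (W : Finset (VV k)) :
    ∏ v ∈ W, f v = a ^ W.toLeft.card * c ^ W.toRight.card := by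
  rw [Finset.prod_sum_eq_prod_toLeft_mul_prod_toRight]
  rw [Finset.prod_congr rfl (fun i _ => hl i), Finset.prod_congr rfl (fun i _ => hr i),
    Finset.prod_const, Finset.prod_const]

private theorem AR1d_AA (x : Pl D0 z → ℝ) (E : ℝ) : AA x (gX true E) = BB x (gX true E) := by
  unfold AA BB
  exact Finset.sum_congr rfl fun S _ => by rw [gX_sq]

/-- The products for `U = {inl i, inr (i, j)}`: `AA = BB = G0` for the indicator `gX`. -/
theorem prodU2 {k : ℕ} (d : AData k) (η τ : ℝ) (L : ℕ) (Y : ℝ) (i j : Fin k) :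
    (∏ v ∈ ({Sum.inl i, Sum.inr (i, j)} : Finset (VV k))ᶜ, AA (xY d η Y) (gY d η τ L Y v)) *
      (∏ u ∈ ({Sum.inl i, Sum.inr (i, j)} : Finset (VV k)), BB (xY d η Y) (gY d η τ L Y u)) ^ 2 =
      A0 d η L Y ^ (k - 1) * B0 d η L Y ^ 2 * G0 d η τ Y ^ (k ^ 2 + 1) := by
  have hk : 1 ≤ k := Nat.one_le_iff_ne_zero.2 fun h0 => by subst h0; exact i.elim0
  rw [AR1d_prod (A0 d η L Y) (G0 d η τ Y) (fun v => AA (xY d η Y) (gY d η τ L Y v)) (fun _ => rfl)
    (fun _ => AR1d_AA _ _)]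
  rw [AR1d_prod (B0 d η L Y) (G0 d η τ Y) (fun v => BB (xY d η Y) (gY d η τ L Y v)) (fun _ => rfl)
    (fun _ => rfl)]
  have e1 : (({Sum.inl i, Sum.inr (i, j)} : Finset (VV k))ᶜ).toLeft = {i}ᶜ := by
    ext x
    simp
  have e2 : (({Sum.inl i, Sum.inr (i, j)} : Finset (VV k))ᶜ).toRight = {(i, j)}ᶜ := by
    ext x
    simp
  have e3 : ({Sum.inl i, Sum.inr (i, j)} : Finset (VV k)).toLeft = {i} := by
    ext x
    simp
  have e4 : ({Sum.inl i, Sum.inr (i, j)} : Finset (VV k)).toRight = {(i, j)} := by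
    ext x
    simp
  rw [e1, e2, e3, e4, Finset.card_compl, Finset.card_compl, Finset.card_singleton,
    Finset.card_singleton, Fintype.card_fin, Fintype.card_prod, Fintype.card_fin]
  have h1 : 1 ≤ k * k := Nat.mul_pos hk hk
  have h2 : k ^ 2 + 1 = (k * k - 1) + 2 := by
    rw [pow_two]
    omega
  rw [h2, pow_add]
  ring

theorem prodU3 {k : ℕ} (d : AData k) (η τ : ℝ) (L : ℕ) (Y : ℝ) (i j j' : Fin k) (h : j ≠ j') :
    (∏ v ∈ ({Sum.inl i, Sum.inr (i, j), Sum.inr (i, j')} : Finset (VV k))ᶜ, AA (xY d η Y) (gY d η τ L Y v)) *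
      (∏ u ∈ ({Sum.inl i, Sum.inr (i, j), Sum.inr (i, j')} : Finset (VV k)), BB (xY d η Y) (gY d η τ L Y u)) ^ 2 =
      A0 d η L Y ^ (k - 1) * B0 d η L Y ^ 2 * G0 d η τ Y ^ (k ^ 2 + 2) := by
  have hk : 1 ≤ k := Nat.one_le_iff_ne_zero.2 fun h0 => by subst h0; exact i.elim0
  have hk2 : 2 ≤ k := by
    by_contra hcon
    have h1 : k = 1 := by omega
    subst h1
    exact h (Subsingleton.elim j j')
  rw [AR1d_prod (A0 d η L Y) (G0 d η τ Y) (fun v => AA (xY d η Y) (gY d η τ L Y v)) (fun _ => rfl)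
    (fun _ => AR1d_AA _ _)]
  rw [AR1d_prod (B0 d η L Y) (G0 d η τ Y) (fun v => BB (xY d η Y) (gY d η τ L Y v)) (fun _ => rfl)
    (fun _ => rfl)]
  have e1 : (({Sum.inl i, Sum.inr (i, j), Sum.inr (i, j')} : Finset (VV k))ᶜ).toLeft = {i}ᶜ := by
    ext x
    simp
  have e2 : (({Sum.inl i, Sum.inr (i, j), Sum.inr (i, j')} : Finset (VV k))ᶜ).toRight =
      {(i, j), (i, j')}ᶜ := by
    ext x
    simp
  have e3 : ({Sum.inl i, Sum.inr (i, j), Sum.inr (i, j')} : Finset (VV k)).toLeft = {i} := by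
    ext x
    simp
  have e4 : ({Sum.inl i, Sum.inr (i, j), Sum.inr (i, j')} : Finset (VV k)).toRight =
      {(i, j), (i, j')} := by
    ext x
    simp
  have e5 : ({(i, j), (i, j')} : Finset (Fin k × Fin k)).card = 2 := Finset.card_pair (by simpa using h)
  rw [e1, e2, e3, e4, Finset.card_compl, Finset.card_compl, Finset.card_singleton,
    e5, Fintype.card_fin, Fintype.card_prod, Fintype.card_fin]
  have h1 : 2 * 2 ≤ k * k := Nat.mul_le_mul hk2 hk2
  have h2 : k ^ 2 + 2 = (k * k - 2) + 4 := by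
    rw [pow_two]
    omega
  rw [h2, pow_add]
  ring

theorem prodU0 {k : ℕ} (d : AData k) (η τ : ℝ) (L : ℕ) (Y : ℝ) :
    ∏ v : VV k, AA (xY d η Y) (gY d η τ L Y v) = A0 d η L Y ^ k * G0 d η τ Y ^ (k ^ 2) := by
  rw [AR1d_prod (A0 d η L Y) (G0 d η τ Y) (fun v => AA (xY d η Y) (gY d η τ L Y v)) (fun _ => rfl)
    (fun _ => AR1d_AA _ _)]
  have e1 : (univ : Finset (VV k)).toLeft = univ := by
    ext x
    simp
  have e2 : (univ : Finset (VV k)).toRight = univ := by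
    ext x
    simp
  rw [e1, e2, Finset.card_univ, Finset.card_univ, Fintype.card_fin, Fintype.card_prod,
    Fintype.card_fin, ← pow_two]

end Pool.Agent.Wd33b62
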