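import Pool.Agent.W_d33b62_h36.AR1a

/-!
# Transfer from the integers and the primes to the model (helper36, MP_d33b62_nt)
-/

set_option autoImplicit false

noncomputable section

open Finset

namespace Pool.Agent.Wd33b62

open Pool.Agent.Wb58c63 (PI mem_PI VP ap Pr XM TT prim Er Sd)

theorem AR2a_card (N1 N2 r v : ℕ) (hN : N1 ≤ N2) (hr : 0 < r) :
    |((((Ico N1 N2).filter (fun n => n ≡ v [MOD r])).card : ℕ) : ℝ) - ((N2 : ℝ) - N1) / r| ≤ 1 := by
  have h1 := Nat.Ico_filter_modEq_card N1 N2 hr v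
  have hrR : (0 : ℝ) < r := by exact_mod_cast hr
  have hrQ : (0 : ℚ) < r := by exact_mod_cast hr
  set x : ℚ := ((N2 : ℚ) - v) / r with hx
  set y : ℚ := ((N1 : ℚ) - v) / r with hy
  have hyx : y ≤ x := by
    rw [hx, hy]
    refine div_le_div_of_nonneg_right ?_ hrQ.le
    have : (N1 : ℚ) ≤ N2 := by exact_mod_cast hN
    linarith
  have h2 : ⌈y⌉ ≤ ⌈x⌉ := Int.ceil_mono hyx
  have h3 : (((Ico N1 N2).filter (fun n => n ≡ v [MOD r])).card : ℤ) = ⌈x⌉ - ⌈y⌉ := by
    rw [h1]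
    exact max_eq_left (by linarith)
  have h4 : ((((Ico N1 N2).filter (fun n => n ≡ v [MOD r])).card : ℕ) : ℝ) =
      (⌈x⌉ : ℝ) - (⌈y⌉ : ℝ) := by
    have : ((((Ico N1 N2).filter (fun n => n ≡ v [MOD r])).card : ℤ) : ℝ) =
      ((⌈x⌉ - ⌈y⌉ : ℤ) : ℝ) := by rw [h3]
    push_cast at this
    exact this
  have h5 : ((N2 : ℝ) - N1) / r = (x : ℝ) - (y : ℝ) := by
    rw [hx, hy]
    push_cast
    rw [← sub_div]
    congr 1
    ring
  have hxl : (x : ℝ) ≤ ⌈x⌉ := by exact_mod_cast Int.le_ceil x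
  have hxu : (⌈x⌉ : ℝ) < x + 1 := by exact_mod_cast Int.ceil_lt_add_one x
  have hyl : (y : ℝ) ≤ ⌈y⌉ := by exact_mod_cast Int.le_ceil y
  have hyu : (⌈y⌉ : ℝ) < y + 1 := by exact_mod_cast Int.ceil_lt_add_one y
  rw [h4, h5, abs_le]
  constructor <;> linarith

theorem AR2a_class {k : ℕ} (d : AData k) (z : ℝ) (q r : ℕ) (σ : Pl d.D0 z → Option (VV k))
    (hco : q.Coprime (nm σ)) :
    ∃ b : ℕ, ∀ n : ℕ, (n ≡ r [MOD q] ∧ Sub σ (cc d z n)) ↔ n ≡ b [MOD (q * nm σ)] := by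
  classical
  have hp : ∀ p : Pl d.D0 z, p.1.Prime := fun p => (mem_PS.1 p.2).1
  set a : Pl d.D0 z → ℕ := fun p => match σ p with
    | none => 0
    | some v => (p.1 - 1) * d.sh v with ha
  have hpp : Set.Pairwise (↑(supp σ) : Set (Pl d.D0 z)) (Function.onFun Nat.Coprime fun p => p.1) := by
    intro p _ p' _ hne
    exact (Nat.coprime_primes (hp p) (hp p')).2 fun h => hne (Subtype.ext h)
  obtain ⟨m, hm⟩ := Nat.chineseRemainderOfFinset a (fun p => p.1) (supp σ)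
    (fun p _ => (hp p).ne_zero) hpp
  obtain ⟨b, hb1, hb2⟩ := Nat.chineseRemainder hco r m
  refine ⟨b, fun n => ?_⟩
  have key : ∀ (p : Pl d.D0 z) (v : VV k), σ p = some v → ∀ n : ℕ,
      (p.1 ∣ n + d.sh v ↔ n ≡ a p [MOD p.1]) := by
    intro p v hv n
    have h1 : a p = (p.1 - 1) * d.sh v := by
      simp only [ha, hv]
    have h2 : a p + d.sh v = p.1 * d.sh v := by
      rw [h1]
      have := (hp p).one_le
      obtain ⟨t, ht⟩ := Nat.exists_eq_add_of_le this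
      rw [ht]
      simp only [Nat.add_sub_cancel_left]
      ring
    constructor
    · intro h
      have h3 : n + d.sh v ≡ a p + d.sh v [MOD p.1] := by
        rw [h2]
        exact ((Nat.modEq_zero_iff_dvd.2 h)).trans
          (Nat.modEq_zero_iff_dvd.2 (dvd_mul_right _ _)).symm
      exact Nat.ModEq.add_right_cancel' _ h3
    · intro h
      have h3 : n + d.sh v ≡ a p + d.sh v [MOD p.1] := h.add_right _
      rw [h2] at h3
      exact Nat.modEq_zero_iff_dvd.1 (h3.trans (Nat.modEq_zero_iff_dvd.2 (dvd_mul_right _ _)))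
  have hsub : ∀ n : ℕ, Sub σ (cc d z n) ↔ ∀ p ∈ supp σ, n ≡ a p [MOD p.1] := by
    intro n
    rw [Sub_cc_iff]
    constructor
    · intro h p hps
      have h1 : σ p ≠ none := (Finset.mem_filter.1 hps).2
      obtain ⟨v, hv⟩ := Option.ne_none_iff_exists'.1 h1
      exact (key p v hv n).1 (h p v hv)
    · intro h p v hv
      refine (key p v hv n).2 (h p ?_)
      unfold supp
      rw [Finset.mem_filter]
      exact ⟨Finset.mem_univ _, by rw [hv]; simp⟩
  rw [hsub n, ← Nat.modEq_and_modEq_iff_modEq_mul hco]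
  have hnm : nm σ = ∏ p ∈ supp σ, p.1 := rfl
  have hcr : (∀ p ∈ supp σ, n ≡ a p [MOD p.1]) ↔ n ≡ m [MOD nm σ] := by
    constructor
    · intro h
      rw [Nat.modEq_iff_dvd, hnm]
      push_cast
      refine Finset.prod_dvd_of_coprime ?_ ?_
      · intro p hps p' hps' hne
        have := (hpp hps hps' hne)
        simp only [Function.onFun] at this ⊢
        exact Nat.isCoprime_iff_coprime.2 this
      · intro p hps
        exact Nat.modEq_iff_dvd.1 ((h p hps).trans (hm p hps).symm)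
    · intro h p hps
      have h1 : p.1 ∣ nm σ := by
        rw [hnm]
        exact Finset.dvd_prod_of_mem (fun p : Pl d.D0 z => p.1) hps
      exact (h.of_dvd h1).trans (hm p hps)
  rw [hcr]
  constructor
  · rintro ⟨h1, h2⟩
    exact ⟨h1.trans hb1.symm, h2.trans hb2.symm⟩
  · rintro ⟨h1, h2⟩
    exact ⟨h1.trans hb1, h2.trans hb2⟩

theorem AR2a_nm_pos {D0 : ℕ} {z : ℝ} {V : Type} (σ : Pl D0 z → Option V) : 0 < nm σ := by
  have hnm : nm σ = ∏ p ∈ supp σ, p.1 := rfl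
  rw [hnm]
  exact Finset.prod_pos fun p _ => (mem_PS.1 p.2).1.pos

theorem AR2a_xwt {D0 : ℕ} {z : ℝ} {V : Type} [Fintype V] [DecidableEq V]
    (σ : Pl D0 z → Option V) : xwt (xr D0 z) σ = 1 / (nm σ : ℝ) := by
  have hnm : nm σ = ∏ p ∈ supp σ, p.1 := rfl
  unfold xwt xr
  rw [hnm]
  push_cast
  rw [Finset.prod_div_distrib]
  simp

/-- **Transfer for the integers.** Exchange the sums; `σ ≤ cc d z n` means `p ∣ n + sh (σ p)` for all `p ∈ supp σ`
(`Sub_cc_iff`), one residue class modulo `nm σ`, which is prime to `q`; so `n` runs over one residue class modulo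
`q nm σ` and the number of these `n` in an interval of length `N2 - N1` differs from `(N2 - N1) / (q nm σ)` by at most
`1`; `xwt (xr) σ = 1 / nm σ`. -/
theorem tr_int {k : ℕ} (d : AData k) (z : ℝ) (q r N1 N2 : ℕ) (hN : N1 ≤ N2) (hq : 0 < q)
    (α : (Pl d.D0 z → Option (VV k)) → ℝ) (hα : ∀ σ, α σ ≠ 0 → q.Coprime (nm σ)) :
    |∑ n ∈ (Ico N1 N2).filter (fun n => n ≡ r [MOD q]), ∑ σ ∈ dn (cc d z n), α σ -
      ((N2 : ℝ) - N1) / q * ∑ σ, α σ * xwt (xr d.D0 z) σ| ≤ ∑ σ, |α σ| := by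
  classical
  have hqR : (0 : ℝ) < q := by exact_mod_cast hq
  have h1 : ∑ n ∈ (Ico N1 N2).filter (fun n => n ≡ r [MOD q]), ∑ σ ∈ dn (cc d z n), α σ =
      ∑ σ, α σ * (((((Ico N1 N2).filter (fun n => n ≡ r [MOD q])).filter
        (fun n => Sub σ (cc d z n))).card : ℕ) : ℝ) := by
    have h2 : ∀ n, ∑ σ ∈ dn (cc d z n), α σ = ∑ σ, if Sub σ (cc d z n) then α σ else 0 := by
      intro n
      unfold dn
      rw [Finset.sum_filter]
    simp only [h2]
    rw [Finset.sum_comm]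
    refine Finset.sum_congr rfl fun σ _ => ?_
    rw [← Finset.sum_filter, Finset.sum_const, nsmul_eq_mul, mul_comm]
  rw [h1, Finset.mul_sum, ← Finset.sum_sub_distrib]
  refine (Finset.abs_sum_le_sum_abs _ _).trans (Finset.sum_le_sum fun σ _ => ?_)
  by_cases h0 : α σ = 0
  · simp [h0]
  obtain ⟨b, hb⟩ := AR2a_class d z q r σ (hα σ h0)
  have h3 : ((Ico N1 N2).filter (fun n => n ≡ r [MOD q])).filter (fun n => Sub σ (cc d z n)) =
      (Ico N1 N2).filter (fun n => n ≡ b [MOD (q * nm σ)]) := by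
    rw [Finset.filter_filter]
    refine Finset.filter_congr fun n _ => hb n
  rw [h3]
  have hnm := AR2a_nm_pos σ
  have hnmR : (0 : ℝ) < nm σ := by exact_mod_cast hnm
  have h4 := AR2a_card N1 N2 (q * nm σ) b hN (Nat.mul_pos hq hnm)
  have h5 : α σ * ((((Ico N1 N2).filter (fun n => n ≡ b [MOD (q * nm σ)])).card : ℕ) : ℝ) -
      ((N2 : ℝ) - N1) / q * (α σ * xwt (xr d.D0 z) σ) =
      α σ * (((((Ico N1 N2).filter (fun n => n ≡ b [MOD (q * nm σ)])).card : ℕ) : ℝ) -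
        ((N2 : ℝ) - N1) / ((q * nm σ : ℕ) : ℝ)) := by
    rw [AR2a_xwt]
    push_cast
    field_simp
  rw [h5, abs_mul]
  calc |α σ| * _ ≤ |α σ| * 1 := mul_le_mul_of_nonneg_left h4 (abs_nonneg _)
    _ = |α σ| := mul_one _

end Pool.Agent.Wd33b62
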