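import Pool.Agent.W_b58c63_h68.GdA

/-!
# Bombieri-Vinogradov with arbitrary savings and divisor weights (helper36, MP_d33b62_nt)
-/

set_option autoImplicit false

noncomputable section

open Finset

namespace Pool.Agent.Wd33b62

open Pool.Agent.Wb58c63 (TT prim Er Sd XM ap aw Pr)

/-- Bound for the remainder in the progressions modulo `d`. -/
def EB (k : ℕ) (Y : ℝ) (d : ℕ) : ℝ :=
  1 / (d.totient : ℝ) * ∑ r ∈ d.divisors.filter (fun r => 1 < r), ∑ χ ∈ prim r, ‖TT k Y χ‖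

/-- `er_eq` and the triangle inequality. -/
theorem Er_le_EB (k : ℕ) (Y : ℝ) (hY : 1 ≤ Y) (d N : ℕ) (hd : 1 ≤ d)
    (hp : ∀ p : ℕ, p.Prime → p ∣ d → (p : ℝ) ≤ Y) (hN : d.Coprime N) : |Er k Y N d| ≤ EB k Y d := by
  have h1 : ‖((Er k Y N d : ℝ) : ℂ)‖ = |Er k Y N d| := by
    rw [Complex.norm_real, Real.norm_eq_abs]
  rw [← h1, Wb58c63.er_eq k Y hY d N hd hp hN, norm_mul, norm_div, norm_one, Complex.norm_natCast]
  unfold EB
  refine mul_le_mul_of_nonneg_left ?_ (by positivity)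
  refine (norm_sum_le _ _).trans (Finset.sum_le_sum fun r _ => ?_)
  refine (norm_sum_le _ _).trans (Finset.sum_le_sum fun χ _ => ?_)
  rw [norm_mul, Complex.norm_conj]
  have h2 : ‖χ (N : ZMod r)‖ ≤ 1 := DirichletCharacter.norm_le_one χ _
  nlinarith [norm_nonneg (TT k Y χ)]

/-- `b ^ ω(r) ≤ C r ^ δ`. -/
theorem pow_omega_le (b : ℕ) (δ : ℝ) (hδ : 0 < δ) : ∃ C : ℝ, 0 < C ∧ ∀ r : ℕ, 1 ≤ r →
    (b : ℝ) ^ r.primeFactors.card ≤ C * (r : ℝ) ^ δ := by
  set B : ℝ := max (b : ℝ) 1 with hB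
  have hB1 : 1 ≤ B := le_max_right _ _
  set P0 : ℕ := ⌈B ^ (1 / δ)⌉₊ with hP0
  refine ⟨B ^ P0, by positivity, fun r hr => ?_⟩
  have hterm : ∀ p ∈ r.primeFactors, (b : ℝ) ≤ (if p < P0 then B else 1) * (p : ℝ) ^ δ := by
    intro p hp
    have hpp := Nat.prime_of_mem_primeFactors hp
    have hp1 : (1 : ℝ) ≤ p := by exact_mod_cast hpp.one_lt.le
    have hpd : (1 : ℝ) ≤ (p : ℝ) ^ δ := Real.one_le_rpow hp1 hδ.le
    by_cases hlt : p < P0
    · rw [if_pos hlt]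
      calc (b : ℝ) ≤ B * 1 := by rw [mul_one]; exact le_max_left _ _
        _ ≤ B * (p : ℝ) ^ δ := by gcongr
    · rw [if_neg hlt, one_mul]
      push Not at hlt
      have h1 : B ^ (1 / δ) ≤ p := (Nat.le_ceil _).trans (by exact_mod_cast hlt)
      have h2 : (B ^ (1 / δ)) ^ δ ≤ (p : ℝ) ^ δ :=
        Real.rpow_le_rpow (by positivity) h1 hδ.le
      rw [← Real.rpow_mul (by positivity), one_div_mul_cancel hδ.ne', Real.rpow_one] at h2
      exact (le_max_left _ _).trans h2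
  have h1 : (b : ℝ) ^ r.primeFactors.card ≤
      ∏ p ∈ r.primeFactors, ((if p < P0 then B else 1) * (p : ℝ) ^ δ) := by
    rw [← Finset.prod_const]
    exact Finset.prod_le_prod (fun _ _ => Nat.cast_nonneg _) hterm
  refine h1.trans ?_
  rw [Finset.prod_mul_distrib]
  have h2 : ∏ p ∈ r.primeFactors, (if p < P0 then B else 1) ≤ B ^ P0 := by
    rw [Finset.prod_ite, Finset.prod_const, Finset.prod_const_one, mul_one]
    refine pow_le_pow_right₀ hB1 ?_
    have h3 : r.primeFactors.filter (fun p => p < P0) ⊆ Finset.range P0 := by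
      intro p hp
      exact Finset.mem_range.2 (Finset.mem_filter.1 hp).2
    calc _ ≤ (Finset.range P0).card := Finset.card_le_card h3
      _ = P0 := Finset.card_range _
  have h4 : ∏ p ∈ r.primeFactors, (p : ℝ) ^ δ ≤ (r : ℝ) ^ δ := by
    rw [Real.finsetProd_rpow _ _ (fun _ _ => Nat.cast_nonneg _)]
    refine Real.rpow_le_rpow (Finset.prod_nonneg fun _ _ => Nat.cast_nonneg _) ?_ hδ.le
    have h5 : ∏ p ∈ r.primeFactors, p ≤ r := Nat.le_of_dvd hr (Nat.prod_primeFactors_dvd r)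
    have h6 : ((∏ p ∈ r.primeFactors, p : ℕ) : ℝ) ≤ r := by exact_mod_cast h5
    rwa [Nat.cast_prod] at h6
  have h7 : 0 ≤ ∏ p ∈ r.primeFactors, (p : ℝ) ^ δ := Finset.prod_nonneg fun _ _ => by positivity
  exact mul_le_mul h2 h4 h7 (by positivity)

end Pool.Agent.Wd33b62
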