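import Pool.Agent.W_d33b62_h36.AR1a
import Pool.Agent.W_d33b62_h36.BV1

/-!
# Transfer from the integers and the primes to the model (helper36, MP_d33b62_nt)
-/

set_option autoImplicit false

noncomputable section

open Finset

namespace Pool.Agent.Wd33b62

open Pool.Agent.Wb58c63 (PI mem_PI VP ap Pr XM TT prim Er Sd)

open Pool.Agent.Wb58c63 (aw)

private theorem AR2b_prime {D0 : ℕ} {z : ℝ} (p : Pl D0 z) : p.1.Prime := (mem_PS.1 p.2).1

private theorem AR2b_gt {D0 : ℕ} {z : ℝ} (p : Pl D0 z) : D0 < p.1 := (mem_PS.1 p.2).2.1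

private theorem AR2b_lt {D0 : ℕ} {z : ℝ} (p : Pl D0 z) : (p.1 : ℝ) < z := (mem_PS.1 p.2).2.2

private theorem AR2b_copS {D0 : ℕ} {z : ℝ} (S : Finset (Pl D0 z)) (a : Pl D0 z) (ha : a ∉ S) :
    a.1.Coprime (nmS S) := by
  unfold nmS
  refine Nat.Coprime.prod_right fun p hp => ?_
  rw [Nat.coprime_primes (AR2b_prime a) (AR2b_prime p)]
  intro h
  apply ha
  rwa [Subtype.ext h]

private theorem AR2b_ins {D0 : ℕ} {z : ℝ} (S : Finset (Pl D0 z)) (q : Pl D0 z) (hq : q ∉ S) :
    nmS (insert q S) = q.1 * nmS S := by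
  unfold nmS
  rw [Finset.prod_insert hq]

private theorem AR2b_modS {D0 : ℕ} {z : ℝ} (S : Finset (Pl D0 z)) (a b : ℕ) :
    a ≡ b [MOD nmS S] ↔ ∀ p ∈ S, a ≡ b [MOD p.1] := by
  classical
  induction S using Finset.induction_on with
  | empty => simp [nmS, Nat.modEq_one]
  | insert q S hq ih =>
    rw [AR2b_ins S q hq, ← Nat.modEq_and_modEq_iff_modEq_mul (AR2b_copS S q hq), ih]
    simp

private theorem AR2b_totS {D0 : ℕ} {z : ℝ} (S : Finset (Pl D0 z)) :
    ((nmS S).totient : ℝ) = ∏ p ∈ S, ((p.1 : ℝ) - 1) := by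
  classical
  induction S using Finset.induction_on with
  | empty => simp [nmS]
  | insert q S hq ih =>
    rw [AR2b_ins S q hq, Nat.totient_mul (AR2b_copS S q hq), Nat.totient_prime (AR2b_prime q), Nat.cast_mul,
      ih, Finset.prod_insert hq, Nat.cast_sub (AR2b_prime q).one_le, Nat.cast_one]

private theorem AR2b_copW {k : ℕ} (d : AData k) {z : ℝ} (S : Finset (Pl d.D0 z)) :
    d.W.Coprime (nmS S) := by
  unfold nmS
  refine Nat.Coprime.prod_right fun p hp => ?_
  refine Nat.Coprime.symm ((Nat.Prime.coprime_iff_not_dvd (AR2b_prime p)).2 fun h => ?_)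
  have h1 := (d.W_primes p.1 (AR2b_prime p)).1 h
  have h2 := AR2b_gt p
  omega

private theorem AR2b_exN {k : ℕ} (d : AData k) (z : ℝ) (i : Fin k) (σ : Pl d.D0 z → Option (VV k)) :
    ∃ N : ℕ, N ≡ d.b + d.h i [MOD d.W] ∧ ∀ p v, σ p = some v → N + d.sh v ≡ d.h i [MOD p.1] := by
  classical
  obtain ⟨N1, hN1⟩ := Nat.chineseRemainderOfFinset (ι := Pl d.D0 z)
    (fun p => match σ p with
      | none => 0
      | some v => d.h i + (p.1 * d.sh v - d.sh v)) (fun p => p.1) (supp σ)
    (fun p _ => (AR2b_prime p).ne_zero)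
    (fun p _ q _ hpq => by
      show Nat.Coprime p.1 q.1
      rw [Nat.coprime_primes (AR2b_prime p) (AR2b_prime q)]
      exact fun h => hpq (Subtype.ext h))
  obtain ⟨N, hN2, hN3⟩ := Nat.chineseRemainder (AR2b_copW d (supp σ)) (d.b + d.h i) N1
  refine ⟨N, hN2, fun p v hpv => ?_⟩
  have hp : p ∈ supp σ := by
    unfold supp
    simp [hpv]
  have h1 := (AR2b_modS (supp σ) N N1).1 hN3 p hp
  have h2 := hN1 p hp
  simp only [hpv] at h2
  have h3 : N + d.sh v ≡ d.h i + (p.1 * d.sh v - d.sh v) + d.sh v [MOD p.1] :=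
    (h1.trans h2).add_right _
  have h4 : d.sh v ≤ p.1 * d.sh v := Nat.le_mul_of_pos_left _ (AR2b_prime p).pos
  have h5 : d.h i + (p.1 * d.sh v - d.sh v) + d.sh v = d.h i + p.1 * d.sh v := by omega
  rw [h5] at h3
  refine h3.trans ?_
  have h6 : p.1 * d.sh v ≡ 0 [MOD p.1] := (Nat.modEq_zero_iff_dvd).2 (Dvd.intro _ rfl)
  simpa using h6.add_left (d.h i)

open Classical in
private theorem AR2b_one {k : ℕ} (d : AData k) (z : ℝ) (κ : ℕ) (Y : ℝ) (i : Fin k) (hY : 1 ≤ Y) (hz : z ≤ Y)
    (hD : (d.D0 : ℝ) ≤ Y) (σ : Pl d.D0 z → Option (VV k)) (hσ : ∀ p, σ p ≠ some (Sum.inl i)) :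
    |∑ p ∈ (Pd d i Y).filter (fun p => Sub σ (cc d z (p - d.h i))), ap κ Y p -
      XM κ Y / (d.W.totient : ℝ) * ∏ p ∈ supp σ, 1 / ((p.1 : ℝ) - 1)| ≤ EB κ Y (d.W * nm σ) := by
  obtain ⟨N, hN1, hN2⟩ := AR2b_exN d z i σ
  have hsh : d.sh (Sum.inl i) = d.h i := rfl
  have hhi : d.h i ≤ d.D0 := d.sh_le (Sum.inl i)
  -- the sum is the sum over a residue class
  have e1 : ∑ p ∈ (Pd d i Y).filter (fun p => Sub σ (cc d z (p - d.h i))), ap κ Y p =
      Sd κ Y N (d.W * nm σ) := by
    unfold Wb58c63.Sd Pd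
    rw [Finset.filter_filter, Finset.sum_filter, Finset.sum_filter]
    refine Finset.sum_congr rfl fun p _ => ?_
    by_cases h0 : ap κ Y p = 0
    · rw [h0]
      simp
    · have h1 : aw κ Y p ≠ 0 := by
        intro h1
        apply h0
        unfold Wb58c63.ap
        rw [h1, zero_mul]
      have h2 := (Wb58c63.aw_support κ Y hY p h1).1
      have h3 : d.h i ≤ p := by
        have h4 : (d.h i : ℝ) ≤ p := by
          have h5 : (d.h i : ℝ) ≤ d.D0 := by exact_mod_cast hhi
          linarith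
        exact_mod_cast h4
      have h4 : (p ≡ d.b + d.h i [MOD d.W] ∧ Sub σ (cc d z (p - d.h i))) ↔ p ≡ N [MOD d.W * nm σ] := by
        unfold nm
        rw [← Nat.modEq_and_modEq_iff_modEq_mul (AR2b_copW d (supp σ)), AR2b_modS, Sub_cc_iff]
        refine and_congr ⟨fun h => h.trans hN1.symm, fun h => h.trans hN1⟩ ?_
        have key : ∀ (q : Pl d.D0 z) (v : VV k), σ q = some v →
            (q.1 ∣ p - d.h i + d.sh v ↔ p ≡ N [MOD q.1]) := by
          intro q v hqv
          have a1 := hN2 q v hqv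
          have a2 : q.1 ∣ p - d.h i + d.sh v ↔ p + d.sh v ≡ d.h i [MOD q.1] := by
            rw [← Nat.modEq_zero_iff_dvd]
            constructor
            · intro h
              have h5 := h.add_right (d.h i)
              rw [zero_add] at h5
              rwa [show p - d.h i + d.sh v + d.h i = p + d.sh v by omega] at h5
            · intro h
              apply Nat.ModEq.add_right_cancel' (d.h i)
              rw [zero_add]
              rwa [show p - d.h i + d.sh v + d.h i = p + d.sh v by omega]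
          rw [a2]
          constructor
          · intro h
            exact Nat.ModEq.add_right_cancel' (d.sh v) (h.trans a1.symm)
          · intro h
            exact (h.add_right (d.sh v)).trans a1
        constructor
        · intro h q hq
          have hq' : σ q ≠ none := by
            unfold supp at hq
            simpa using hq
          obtain ⟨v, hv⟩ := Option.ne_none_iff_exists'.1 hq'
          exact (key q v hv).1 (h q v hv)
        · intro h q v hv
          have hq : q ∈ supp σ := by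
            unfold supp
            simp [hv]
          exact (key q v hv).2 (h q hq)
      simp only [h4]
  have hnm : 0 < nm σ := by
    unfold nm nmS
    exact Finset.prod_pos fun p _ => (AR2b_prime p).pos
  have e2 : XM κ Y / (d.W.totient : ℝ) * ∏ p ∈ supp σ, 1 / ((p.1 : ℝ) - 1) =
      XM κ Y / ((d.W * nm σ).totient : ℝ) := by
    unfold nm
    rw [Nat.totient_mul (AR2b_copW d (supp σ)), Nat.cast_mul, AR2b_totS, Finset.prod_div_distrib,
      Finset.prod_const_one, div_mul_div_comm, mul_one]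
  have hprimes : ∀ p : ℕ, p.Prime → p ∣ d.W * nm σ → p ≤ d.D0 ∨ ∃ q ∈ supp σ, q.1 = p := by
    intro p hp hdvd
    rcases (Nat.Prime.dvd_mul hp).1 hdvd with h | h
    · exact Or.inl ((d.W_primes p hp).1 h)
    · right
      unfold nm nmS at h
      obtain ⟨q, hq, hpq⟩ := (Prime.dvd_finsetProd_iff hp.prime _).1 h
      exact ⟨q, hq, ((Nat.prime_dvd_prime_iff_eq hp (AR2b_prime q)).1 hpq).symm⟩
  have e3 := Er_le_EB κ Y hY (d.W * nm σ) N (Nat.mul_pos d.W_pos hnm) (by
      intro p hp hdvd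
      rcases hprimes p hp hdvd with h | ⟨q, hq, h⟩
      · have h1 : (p : ℝ) ≤ d.D0 := by exact_mod_cast h
        linarith
      · have h1 := AR2b_lt q
        rw [h] at h1
        linarith) (by
      refine Nat.Coprime.symm (Nat.coprime_of_dvd fun p hp hpN hdvd => ?_)
      rcases (Nat.Prime.dvd_mul hp).1 hdvd with h | h
      · have h1 : N ≡ d.b + d.h i [MOD p] := hN1.of_dvd h
        have h2 : p ∣ d.b + d.h i := (Nat.modEq_zero_iff_dvd).1
          (h1.symm.trans ((Nat.modEq_zero_iff_dvd).2 hpN))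
        have h3 : p ∣ 1 := by
          rw [← d.cop i]
          exact Nat.dvd_gcd h2 h
        exact hp.one_lt.ne' (Nat.dvd_one.1 h3)
      · unfold nm nmS at h
        obtain ⟨q, hq, hpq⟩ := (Prime.dvd_finsetProd_iff hp.prime _).1 h
        have hqp : p = q.1 := (Nat.prime_dvd_prime_iff_eq hp (AR2b_prime q)).1 hpq
        have hq' : σ q ≠ none := by
          unfold supp at hq
          simpa using hq
        obtain ⟨v, hv⟩ := Option.ne_none_iff_exists'.1 hq'
        have h1 := hN2 q v hv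
        rw [← hqp] at h1
        have h2 : d.sh v ≡ d.h i [MOD p] := by
          have h3 := ((Nat.modEq_zero_iff_dvd).2 hpN).add_right (d.sh v)
          rw [zero_add] at h3
          exact h3.symm.trans h1
        have h3 := AR2b_gt q
        rw [← hqp] at h3
        have h4 : d.sh v < p := lt_of_le_of_lt (d.sh_le v) h3
        have h5 : d.h i < p := lt_of_le_of_lt hhi h3
        have h6 : d.sh v = d.sh (Sum.inl i) := by
          rw [hsh]
          exact Nat.ModEq.eq_of_lt_of_lt h2 h4 h5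
        have h7 : v = Sum.inl i := d.sh_inj h6
        rw [h7] at hv
        exact hσ q hv)
  rw [e1, e2]
  exact e3

/-- **Transfer for the primes.** `p ∈ Pd d i Y` with `ap ≠ 0` is `> Y ≥ D0 ≥ h i`; `σ ≤ cc d z (p - h i)` means
`p ≡ h i - sh (σ q) mod q` for all `q ∈ supp σ`; with `p ≡ b + h i mod W` this is one residue class `N_σ` modulo `W nm σ`, which is
coprime to the modulus (`σ q ≠ inl i`, the shifts differ by a number `≠ 0` of absolute value `≤ D0 < q`; `cop`). So the sum over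
`p` is `Sd κ Y N_σ (W nm σ) = XM / φ(W nm σ) + Er`, `φ(W nm σ) = φ(W) ∏ (q - 1)`, and `Er_le_EB` (the primes dividing `W nm σ` are
at most `Y`). Exchange the sums. -/
theorem tr_prime {k : ℕ} (d : AData k) (z : ℝ) (κ : ℕ) (Y : ℝ) (i : Fin k) (hY : 1 ≤ Y) (hz : z ≤ Y)
    (hD : (d.D0 : ℝ) ≤ Y) (α : (Pl d.D0 z → Option (VV k)) → ℝ)
    (hα : ∀ σ, α σ ≠ 0 → ∀ p, σ p ≠ some (Sum.inl i)) :
    |∑ p ∈ Pd d i Y, ap κ Y p * ∑ σ ∈ dn (cc d z (p - d.h i)), α σ -
      XM κ Y / (d.W.totient : ℝ) * ∑ σ, α σ * ∏ p ∈ supp σ, 1 / ((p.1 : ℝ) - 1)| ≤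
      ∑ σ, |α σ| * EB κ Y (d.W * nm σ) := by
  classical
  have e1 : ∑ p ∈ Pd d i Y, ap κ Y p * ∑ σ ∈ dn (cc d z (p - d.h i)), α σ =
      ∑ σ, α σ * ∑ p ∈ (Pd d i Y).filter (fun p => Sub σ (cc d z (p - d.h i))), ap κ Y p := by
    have h1 : ∀ p ∈ Pd d i Y, ap κ Y p * ∑ σ ∈ dn (cc d z (p - d.h i)), α σ =
        ∑ σ, if Sub σ (cc d z (p - d.h i)) then α σ * ap κ Y p else 0 := by
      intro p _
      unfold dn
      rw [Finset.mul_sum, Finset.sum_filter]
      refine Finset.sum_congr rfl fun σ _ => ?_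
      split_ifs
      · ring
      · rfl
    rw [Finset.sum_congr rfl h1, Finset.sum_comm]
    refine Finset.sum_congr rfl fun σ _ => ?_
    rw [Finset.sum_filter, Finset.mul_sum]
    refine Finset.sum_congr rfl fun p _ => ?_
    split_ifs
    · rfl
    · rw [mul_zero]
  rw [e1, Finset.mul_sum, ← Finset.sum_sub_distrib]
  refine (Finset.abs_sum_le_sum_abs _ _).trans (Finset.sum_le_sum fun σ _ => ?_)
  by_cases h0 : α σ = 0
  · rw [h0]
    simp
  · have h1 := AR2b_one d z κ Y i hY hz hD σ (hα σ h0)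
    have h2 : α σ * ∑ p ∈ (Pd d i Y).filter (fun p => Sub σ (cc d z (p - d.h i))), ap κ Y p -
        XM κ Y / (d.W.totient : ℝ) * (α σ * ∏ p ∈ supp σ, 1 / ((p.1 : ℝ) - 1)) =
        α σ * (∑ p ∈ (Pd d i Y).filter (fun p => Sub σ (cc d z (p - d.h i))), ap κ Y p -
          XM κ Y / (d.W.totient : ℝ) * ∏ p ∈ supp σ, 1 / ((p.1 : ℝ) - 1)) := by ring
    rw [h2, abs_mul]
    exact mul_le_mul_of_nonneg_left h1 (abs_nonneg _)

end Pool.Agent.Wd33b62
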