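import Pool.Agent.W_d33b62_h36.LDefs

/-!
# Labelings: sums of products, expectations, expansions (helper36, MP_d33b62_nt)
-/

set_option autoImplicit false

noncomputable section

open Finset

namespace Pool.Agent.Wd33b62

variable {ι V : Type} [Fintype ι] [DecidableEq ι] [Fintype V] [DecidableEq V]

theorem LA3_mem_dn {σ c : ι → Option V} : σ ∈ dn c ↔ Sub σ c := by
  simp only [dn, Finset.mem_filter, Finset.mem_univ, true_and]

theorem LA3_mem_up {σ κ : ι → Option V} : κ ∈ up σ ↔ Sub σ κ := by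
  simp only [up, Finset.mem_filter, Finset.mem_univ, true_and]

theorem LA3_mem_supp {κ : ι → Option V} {i : ι} : i ∈ supp κ ↔ κ i ≠ none := by
  simp only [supp, Finset.mem_filter, Finset.mem_univ, true_and]

/-- The restriction of a labeling. -/
def LA3_res (κ : ι → Option V) (S : Finset ι) : ι → Option V := fun i => if i ∈ S then κ i else none

theorem LA3_supp_res {κ : ι → Option V} {S : Finset ι} (hS : S ⊆ supp κ) :
    supp (LA3_res κ S) = S := by
  ext i
  unfold supp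
  rw [Finset.mem_filter]
  constructor
  · rintro ⟨_, h⟩
    by_contra hi
    apply h
    rw [LA3_res, if_neg hi]
  · intro hi
    refine ⟨Finset.mem_univ _, ?_⟩
    rw [LA3_res, if_pos hi]
    exact (Finset.mem_filter.1 (hS hi)).2

theorem LA3_sum_dn (κ : ι → Option V) (F : (ι → Option V) → ℝ) :
    ∑ σ ∈ dn κ, F σ = ∑ S ∈ (supp κ).powerset, F (LA3_res κ S) := by
  symm
  refine Finset.sum_nbij' (fun S => LA3_res κ S) (fun σ => supp σ) ?_ ?_ ?_ ?_ ?_
  · intro S hS
    rw [LA3_mem_dn]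
    intro i
    by_cases hi : i ∈ S
    · right
      rw [LA3_res, if_pos hi]
    · left
      rw [LA3_res, if_neg hi]
  · intro σ hσ
    rw [Finset.mem_powerset]
    intro i hi
    have h1 := (LA3_mem_dn.1 hσ) i
    have h2 := (Finset.mem_filter.1 hi).2
    rw [h1.resolve_left h2] at h2
    exact Finset.mem_filter.2 ⟨Finset.mem_univ _, h2⟩
  · intro S hS
    exact LA3_supp_res (Finset.mem_powerset.1 hS)
  · intro σ hσ
    funext i
    have h1 := (LA3_mem_dn.1 hσ) i
    show LA3_res κ (supp σ) i = σ i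
    by_cases hi : σ i = none
    · rw [LA3_res, if_neg (fun h => LA3_mem_supp.1 h hi), hi]
    · rw [LA3_res, if_pos (LA3_mem_supp.2 hi)]
      exact (h1.resolve_left hi).symm
  · intro S _
    rfl

theorem LA3_prod_fib (x : ι → ℝ) (κ : ι → Option V) (T : Finset ι) :
    ∏ v, ∏ i ∈ fib κ v \ T, x i = ∏ i ∈ supp κ \ T, x i := by
  have h1 : supp κ \ T = (Finset.univ : Finset V).biUnion fun v => fib κ v \ T := by
    ext i
    simp only [supp, fib, Finset.mem_sdiff, Finset.mem_filter, Finset.mem_univ, true_and,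
      Finset.mem_biUnion]
    constructor
    · rintro ⟨h, hT⟩
      obtain ⟨v, hv⟩ := Option.ne_none_iff_exists'.1 h
      exact ⟨v, hv, hT⟩
    · rintro ⟨v, hv, hT⟩
      refine ⟨?_, hT⟩
      rw [hv]
      exact Option.some_ne_none v
  rw [h1, Finset.prod_biUnion]
  intro v _ w _ hvw
  rw [Function.onFun, Finset.disjoint_left]
  intro i hi hi'
  simp only [fib, Finset.mem_sdiff, Finset.mem_filter, Finset.mem_univ, true_and] at hi hi'
  exact hvw (Option.some_injective _ (hi.1.symm.trans hi'.1))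

/-- **The coefficients of the Selberg form.** Expand the product: `∏_{i ∈ supp κ} (x i - [c i = κ i])
= ∑_{S ⊆ supp κ} (-1) ^ |S| ∏_{i ∈ S} [c i = κ i] ∏_{i ∈ supp κ \ S} x i`; the set `S` corresponds to the restriction `σ`
of `κ` to `S`, and the product of the indicators is `1` iff `σ ≤ c`. -/
theorem FF_hasExp (x : ι → ℝ) (y : (ι → Option V) → ℝ) : HasExp (FF x y) (lam x y) := by
  classical
  intro c
  unfold FF lam
  have h1 : ∀ σ ∈ dn c, (-1 : ℝ) ^ (supp σ).card * ∑ κ ∈ up σ, y κ * ∏ i ∈ supp κ \ supp σ, x i =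
      ∑ κ : ι → Option V, if Sub σ κ then
        (-1 : ℝ) ^ (supp σ).card * (y κ * ∏ i ∈ supp κ \ supp σ, x i) else 0 := by
    intro σ _
    rw [← Finset.sum_filter, Finset.mul_sum]
    refine Finset.sum_congr ?_ fun κ _ => rfl
    ext κ
    rw [LA3_mem_up, Finset.mem_filter]
    exact ⟨fun h => ⟨Finset.mem_univ _, h⟩, fun h => h.2⟩
  rw [Finset.sum_congr rfl h1, Finset.sum_comm]
  refine Finset.sum_congr rfl fun κ _ => ?_
  have h2 : ∑ σ ∈ dn c, (if Sub σ κ then
        (-1 : ℝ) ^ (supp σ).card * (y κ * ∏ i ∈ supp κ \ supp σ, x i) else 0) =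
      ∑ σ ∈ dn κ, (if Sub σ c then
        (-1 : ℝ) ^ (supp σ).card * (y κ * ∏ i ∈ supp κ \ supp σ, x i) else 0) := by
    rw [← Finset.sum_filter, ← Finset.sum_filter]
    refine Finset.sum_congr ?_ fun κ _ => rfl
    ext σ
    rw [Finset.mem_filter, Finset.mem_filter, LA3_mem_dn, LA3_mem_dn]
    exact ⟨fun h => ⟨h.2, h.1⟩, fun h => ⟨h.2, h.1⟩⟩
  rw [h2, LA3_sum_dn]
  have h3 : ∀ i ∈ supp κ, (x i - if c i = κ i then 1 else 0) =
      (-(if c i = κ i then (1 : ℝ) else 0)) + x i := fun i _ => by ring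
  rw [Finset.prod_congr rfl h3, Finset.prod_add, Finset.mul_sum]
  refine Finset.sum_congr rfl fun S hS => ?_
  have hS' : S ⊆ supp κ := Finset.mem_powerset.1 hS
  rw [LA3_supp_res hS']
  have h4 : Sub (LA3_res κ S) c ↔ ∀ i ∈ S, c i = κ i := by
    constructor
    · intro h i hi
      have h5 := h i
      rw [LA3_res, if_pos hi] at h5
      rcases h5 with h5 | h5
      · exact absurd h5 (Finset.mem_filter.1 (hS' hi)).2
      · exact h5.symm
    · intro h i
      by_cases hi : i ∈ S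
      · right
        rw [LA3_res, if_pos hi]
        exact (h i hi).symm
      · left
        rw [LA3_res, if_neg hi]
  by_cases h5 : ∀ i ∈ S, c i = κ i
  · rw [if_pos (h4.2 h5)]
    have h6 : ∏ i ∈ S, (-(if c i = κ i then (1 : ℝ) else 0)) = (-1) ^ S.card := by
      rw [Finset.prod_congr rfl (fun i hi => by rw [if_pos (h5 i hi)] : ∀ i ∈ S,
        (-(if c i = κ i then (1 : ℝ) else 0)) = -1), Finset.prod_const]
    rw [h6]
    ring
  · rw [if_neg (fun h => h5 (h4.1 h))]
    push Not at h5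
    obtain ⟨i, hi, h7⟩ := h5
    rw [Finset.prod_eq_zero hi (by rw [if_neg h7, neg_zero]), zero_mul, mul_zero]

/-- **Bound for the coefficients.** `|lam σ| ≤ ∑_{κ ≥ σ} y κ x(κ \ σ)`, `y κ ≤ ∏ g v (fib κ v)` and
`fib κ v = fib σ v ∪ S_v` with pairwise disjoint `S_v` outside of `supp σ`; `g v (fib κ v) ≤ g v (S_v)` (antitone), and the
sum over all tuples `(S_v)` is the product of the `BB`. -/
theorem abs_lam_le {x : ι → ℝ} {g : V → Finset ι → ℝ} (hG : GH x g) {y : (ι → Option V) → ℝ}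
    (hy0 : ∀ κ, 0 ≤ y κ) (hy : ∀ κ, y κ ≤ ∏ v, g v (fib κ v)) (σ : ι → Option V) :
    |lam x y σ| ≤ ∏ v, BB x (g v) := by
  classical
  have hx : ∀ i, 0 ≤ x i := fun i => (hG.x_pos i).le
  have hprod : ∀ S : Finset ι, 0 ≤ ∏ i ∈ S, x i := fun S => Finset.prod_nonneg fun i _ => hx i
  have h0 : |lam x y σ| ≤ ∑ κ ∈ up σ, y κ * ∏ i ∈ supp κ \ supp σ, x i := by
    unfold lam
    rw [abs_mul, abs_pow, abs_neg, abs_one, one_pow, one_mul, abs_of_nonneg]
    exact Finset.sum_nonneg fun κ _ => mul_nonneg (hy0 κ) (hprod _)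
  have hBB : ∏ v, BB x (g v) = ∑ S : V → Finset ι, ∏ v, (g v (S v) * ∏ i ∈ S v, x i) := by
    unfold BB
    rw [Finset.prod_univ_sum]
    rw [Fintype.piFinset_univ]
  have hnn : ∀ S : V → Finset ι, 0 ≤ ∏ v, (g v (S v) * ∏ i ∈ S v, x i) := fun S =>
    Finset.prod_nonneg fun v _ => mul_nonneg (hG.g_nonneg v _) (hprod _)
  have hterm : ∀ κ ∈ up σ, y κ * ∏ i ∈ supp κ \ supp σ, x i ≤
      ∏ v, (g v (fib κ v \ supp σ) * ∏ i ∈ fib κ v \ supp σ, x i) := by
    intro κ _
    rw [Finset.prod_mul_distrib, LA3_prod_fib]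
    refine mul_le_mul_of_nonneg_right ((hy κ).trans ?_) (hprod _)
    exact Finset.prod_le_prod (fun v _ => hG.g_nonneg v _) fun v _ =>
      hG.g_anti v _ _ Finset.sdiff_subset
  have hinj : Set.InjOn (fun κ : ι → Option V => fun v => fib κ v \ supp σ) (up σ) := by
    intro κ hκ κ' hκ' he
    have h1 := LA3_mem_up.1 (Finset.mem_coe.1 hκ)
    have h2 := LA3_mem_up.1 (Finset.mem_coe.1 hκ')
    funext i
    by_cases hi : σ i = none
    · have hi' : i ∉ supp σ := fun h => (Finset.mem_filter.1 h).2 hi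
      have h3 : ∀ v, κ i = some v ↔ κ' i = some v := by
        intro v
        have h4 := Finset.ext_iff.1 (congrFun he v) i
        simp only [fib, Finset.mem_sdiff, Finset.mem_filter, Finset.mem_univ, true_and] at h4
        exact ⟨fun h => (h4.1 ⟨h, hi'⟩).1, fun h => (h4.2 ⟨h, hi'⟩).1⟩
      exact Option.ext h3
    · rw [← (h1 i).resolve_left hi, ← (h2 i).resolve_left hi]
  calc |lam x y σ| ≤ ∑ κ ∈ up σ, y κ * ∏ i ∈ supp κ \ supp σ, x i := h0
    _ ≤ ∑ κ ∈ up σ, ∏ v, (g v (fib κ v \ supp σ) * ∏ i ∈ fib κ v \ supp σ, x i) :=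
        Finset.sum_le_sum hterm
    _ = ∑ S ∈ (up σ).image (fun κ : ι → Option V => fun v => fib κ v \ supp σ),
          ∏ v, (g v (S v) * ∏ i ∈ S v, x i) := by
        rw [Finset.sum_image hinj]
    _ ≤ ∑ S : V → Finset ι, ∏ v, (g v (S v) * ∏ i ∈ S v, x i) :=
        Finset.sum_le_sum_of_subset_of_nonneg (Finset.subset_univ _) fun S _ _ => hnn S
    _ = ∏ v, BB x (g v) := hBB.symm

/-- `lam σ ≠ 0` implies that some `κ ≥ σ` has `y κ ≠ 0`. -/
theorem lam_ne_zero {x : ι → ℝ} {y : (ι → Option V) → ℝ} {σ : ι → Option V} (h : lam x y σ ≠ 0) :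
    ∃ κ, Sub σ κ ∧ y κ ≠ 0 := by
  by_contra hcon
  push Not at hcon
  apply h
  unfold lam
  rw [Finset.sum_eq_zero, mul_zero]
  intro κ hκ
  rw [hcon κ (LA3_mem_up.1 hκ), zero_mul]

/-- `FF` only sees the labels of `c` which occur in the support of `y`: if for every `κ` with `y κ ≠ 0` and every
`i` with `κ i ≠ none`: `c i = κ i ↔ c' i = κ i`, then `FF x y c = FF x y c'`. -/
theorem FF_congr (x : ι → ℝ) (y : (ι → Option V) → ℝ) (c c' : ι → Option V)
    (h : ∀ κ, y κ ≠ 0 → ∀ i, κ i ≠ none → (c i = κ i ↔ c' i = κ i)) : FF x y c = FF x y c' := by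
  unfold FF
  refine Finset.sum_congr rfl fun κ _ => ?_
  by_cases hy : y κ = 0
  · rw [hy, zero_mul, zero_mul]
  · congr 1
    refine Finset.prod_congr rfl fun i hi => ?_
    have h1 := h κ hy i (Finset.mem_filter.1 hi).2
    by_cases h2 : c i = κ i
    · rw [if_pos h2, if_pos (h1.1 h2)]
    · rw [if_neg h2, if_neg (fun h3 => h2 (h1.2 h3))]

end Pool.Agent.Wd33b62
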