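import Pool.Agent.W_d33b62_h36.AR0
import Pool.Agent.W_d33b62_h36.LA3

/-!
# Bounded coefficients (helper36, MP_d33b62_nt)
-/

set_option autoImplicit false

noncomputable section

open Finset Filter

namespace Pool.Agent.Wd33b62

open Pool.Agent.Wb58c63 (PI mem_PI VP ap Pr XM TT prim Er Sd)

variable {D0 : ℕ} {z : ℝ} {V : Type} [Fintype V] [DecidableEq V]

private theorem AR3a_sum {α : (Pl D0 z → Option V) → ℝ} (σ : Pl D0 z → Option V) {C b : ℝ}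
    (h : ∀ τ, |α τ| ≤ C * b ^ (supp τ).card) :
    ∑ τ ∈ dn σ, |α τ| ≤ C * (1 + b) ^ (supp σ).card := by
  rw [LA3_sum_dn]
  have h1 : ∀ S ∈ (supp σ).powerset, |α (LA3_res σ S)| ≤ C * (b ^ S.card * 1 ^ ((supp σ).card - S.card)) := by
    intro S hS
    have h2 := h (LA3_res σ S)
    rw [LA3_supp_res (mem_powerset.1 hS)] at h2
    rw [one_pow, mul_one]
    exact h2
  refine (sum_le_sum h1).trans_eq ?_
  rw [← mul_sum, Finset.sum_pow_mul_eq_add_pow, add_comm]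

private theorem AR3a_nm (S T : Finset (Pl D0 z)) : nmS (S ∪ T) ≤ nmS S * nmS T := by
  unfold nmS
  rw [← prod_union_inter]
  apply Nat.le_mul_of_pos_right
  apply prod_pos
  intro p _
  have h1 := (mem_PI.1 p.2).1
  exact h1.pos

/-- **Products.** `|conv σ| ≤ C₁ C₂ ∑_{S₁ ∪ S₂ = supp σ} b₁ ^ |S₁| b₂ ^ |S₂| = C₁ C₂ (b₁ + b₂ + b₁ b₂) ^ |supp σ|`, and
`nm σ ≤ nm σ₁ nm σ₂`. -/
theorem conv_bd {α β : (Pl D0 z → Option V) → ℝ} {L₁ C₁ b₁ L₂ C₂ b₂ : ℝ} (h₁ : Bd α L₁ C₁ b₁) (h₂ : Bd β L₂ C₂ b₂)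
    (hL₁ : 0 ≤ L₁) (hC₁ : 0 ≤ C₁) (hb₁ : 0 ≤ b₁) (hC₂ : 0 ≤ C₂) (hb₂ : 0 ≤ b₂) :
    Bd (conv α β) (L₁ * L₂) (C₁ * C₂) ((1 + b₁) * (1 + b₂)) := by
  intro σ
  constructor
  · have hz : ∀ σ₁ σ₂ : Pl D0 z → Option V,
        |if supp σ₁ ∪ supp σ₂ = supp σ then α σ₁ * β σ₂ else 0| ≤ |α σ₁| * |β σ₂| := by
      intro σ₁ σ₂
      split_ifs
      · exact (abs_mul _ _).le
      · rw [abs_zero]
        positivity
    have h3 : |conv α β σ| ≤ ∑ σ₁ ∈ dn σ, ∑ σ₂ ∈ dn σ, |α σ₁| * |β σ₂| := by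
      unfold conv
      refine (abs_sum_le_sum_abs _ _).trans (sum_le_sum fun σ₁ _ => ?_)
      exact (abs_sum_le_sum_abs _ _).trans (sum_le_sum fun σ₂ _ => hz σ₁ σ₂)
    rw [← sum_mul_sum] at h3
    have h4 := AR3a_sum σ (fun τ => (h₁ τ).1)
    have h5 := AR3a_sum σ (fun τ => (h₂ τ).1)
    refine h3.trans ((mul_le_mul h4 h5 (sum_nonneg fun _ _ => abs_nonneg _) (by positivity)).trans_eq ?_)
    rw [mul_pow]
    ring
  · intro hne
    obtain ⟨σ₁, _, h3⟩ := exists_ne_zero_of_sum_ne_zero hne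
    obtain ⟨σ₂, _, h4⟩ := exists_ne_zero_of_sum_ne_zero h3
    split_ifs at h4 with hs
    · have h5 : α σ₁ ≠ 0 := left_ne_zero_of_mul h4
      have h6 : β σ₂ ≠ 0 := right_ne_zero_of_mul h4
      have h7 := (h₁ σ₁).2 h5
      have h8 := (h₂ σ₂).2 h6
      have h9 : (nm σ : ℝ) ≤ (nm σ₁ : ℝ) * nm σ₂ := by
        unfold nm
        rw [← hs]
        exact_mod_cast AR3a_nm _ _
      exact h9.trans (mul_le_mul h7 h8 (Nat.cast_nonneg _) hL₁)
    · exact absurd rfl h4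

open Classical in
/-- Restricting the support keeps the bounds. -/
theorem Bd.ite {α : (Pl D0 z → Option V) → ℝ} {L C b : ℝ} (h : Bd α L C b) (hC : 0 ≤ C) (hb : 0 ≤ b)
    (P : (Pl D0 z → Option V) → Prop) : Bd (fun σ => if P σ then α σ else 0) L C b := by
  intro σ
  by_cases hP : P σ
  · simp only [if_pos hP]
    exact h σ
  · simp only [if_neg hP]
    constructor
    · rw [abs_zero]
      positivity
    · intro h0
      exact absurd rfl h0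

end Pool.Agent.Wd33b62
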