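import Pool.Agent.W_d33b62_h36.AR0
import Pool.Agent.W_d33b62_h36.BV1

/-!
# Bounded coefficients (helper36, MP_d33b62_nt)
-/

set_option autoImplicit false

noncomputable section

open Finset Filter

namespace Pool.Agent.Wd33b62

open Pool.Agent.Wb58c63 (PI mem_PI VP ap Pr XM TT prim Er Sd)

variable {D0 : ℕ} {z : ℝ} {V : Type} [Fintype V] [DecidableEq V]

theorem AR3b_prime (p : Pl D0 z) : p.1.Prime := (mem_PI.1 p.2).1

theorem AR3b_gt (p : Pl D0 z) : D0 < p.1 := by
  have h := (mem_PI.1 p.2).2.1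
  have h1 : ((D0 + 1 : ℕ) : ℝ) ≤ (p.1 : ℝ) := by push_cast; exact h
  have h2 : D0 + 1 ≤ p.1 := by exact_mod_cast h1
  omega

theorem AR3b_nmS (S : Finset (Pl D0 z)) : nmS S = ∏ p ∈ S.image Subtype.val, p := by
  unfold nmS
  rw [Finset.prod_image fun x _ y _ h => Subtype.ext h]

theorem AR3b_pf (S : Finset (Pl D0 z)) : (nmS S).primeFactors = S.image Subtype.val := by
  rw [AR3b_nmS]
  refine Nat.primeFactors_prod fun p hp => ?_
  obtain ⟨q, _, rfl⟩ := Finset.mem_image.1 hp
  exact AR3b_prime q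

theorem AR3b_pf_card (S : Finset (Pl D0 z)) : (nmS S).primeFactors.card = S.card := by
  rw [AR3b_pf, Finset.card_image_of_injective _ Subtype.val_injective]

theorem AR3b_inj {S T : Finset (Pl D0 z)} (h : nmS S = nmS T) : S = T := by
  have h1 : S.image Subtype.val = T.image Subtype.val := by rw [← AR3b_pf, ← AR3b_pf, h]
  exact Finset.image_injective Subtype.val_injective h1

theorem AR3b_sqf (S : Finset (Pl D0 z)) : Squarefree (nmS S) := by
  unfold nmS
  refine Finset.squarefree_prod_of_pairwise_isCoprime ?_ fun p _ => (AR3b_prime p).squarefree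
  intro p _ q _ hpq
  exact Nat.coprime_iff_isRelPrime.1 ((Nat.coprime_primes (AR3b_prime p) (AR3b_prime q)).2
    fun h => hpq (Subtype.ext h))

theorem AR3b_pos (S : Finset (Pl D0 z)) : 1 ≤ nmS S :=
  Finset.prod_pos fun p _ => (AR3b_prime p).pos

omit [DecidableEq V] in
/-- The number of labelings with a given product. -/
theorem AR3b_count (m : ℕ) : ((univ : Finset (Pl D0 z → Option V)).filter fun σ => nm σ = m).card ≤
    Fintype.card V ^ m.primeFactors.card := by
  classical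
  rcases Finset.eq_empty_or_nonempty ((univ : Finset (Pl D0 z → Option V)).filter fun σ => nm σ = m)
    with h | ⟨σ₀, h₀⟩
  · rw [h, Finset.card_empty]
    exact Nat.zero_le _
  have h₀' : nm σ₀ = m := (Finset.mem_filter.1 h₀).2
  set t : Pl D0 z → Finset (Option V) := fun p =>
    if p ∈ supp σ₀ then (univ : Finset V).map Function.Embedding.some else {none} with ht
  have hsub : ((univ : Finset (Pl D0 z → Option V)).filter fun σ => nm σ = m) ⊆
      Fintype.piFinset t := by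
    intro σ hσ
    have hσ' : nm σ = m := (Finset.mem_filter.1 hσ).2
    have hs : supp σ = supp σ₀ := AR3b_inj (hσ'.trans h₀'.symm)
    rw [Fintype.mem_piFinset]
    intro p
    rw [ht]
    by_cases hp : p ∈ supp σ₀
    · simp only [hp, if_true]
      rw [← hs] at hp
      have hp' : σ p ≠ none := (Finset.mem_filter.1 hp).2
      obtain ⟨v, hv⟩ := Option.ne_none_iff_exists'.1 hp'
      rw [hv]
      exact Finset.mem_map.2 ⟨v, Finset.mem_univ _, rfl⟩
    · simp only [hp, if_false]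
      rw [← hs] at hp
      have hp' : σ p = none := by
        by_contra hc
        exact hp (Finset.mem_filter.2 ⟨Finset.mem_univ _, hc⟩)
      rw [hp']
      exact Finset.mem_singleton_self _
  refine (Finset.card_le_card hsub).trans ?_
  rw [Fintype.card_piFinset]
  have h1 : ∀ p, (t p).card = if p ∈ supp σ₀ then Fintype.card V else 1 := by
    intro p
    rw [ht]
    by_cases hp : p ∈ supp σ₀
    · simp [hp]
    · simp [hp]
  simp only [h1]
  rw [Finset.prod_ite, Finset.prod_const_one, mul_one, Finset.prod_const, Finset.filter_mem_eq_inter,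
    Finset.univ_inter, ← h₀']
  unfold nm
  rw [AR3b_pf_card]

omit [DecidableEq V] in
/-- The general bound. -/
theorem AR3b_gen (α : (Pl D0 z → Option V) → ℝ) (L C b : ℝ) (hb : 0 ≤ b) (hC : 0 ≤ C)
    (hα : Bd α L C b) (g : ℕ → ℝ) (hg : ∀ m, 0 ≤ g m) (F : Finset ℕ)
    (hF : ∀ m : ℕ, 1 ≤ m → (m : ℝ) ≤ L → Squarefree m → (∀ p : ℕ, p.Prime → p ∣ m → D0 < p) → m ∈ F) :
    ∑ σ, |α σ| * g (nm σ) ≤ C * ∑ m ∈ F, (b * Fintype.card V) ^ m.primeFactors.card * g m := by
  classical
  have h1 : ∑ σ, |α σ| * g (nm σ) ≤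
      ∑ σ ∈ (univ : Finset (Pl D0 z → Option V)).filter fun σ => nm σ ∈ F,
        C * b ^ (nm σ).primeFactors.card * g (nm σ) := by
    rw [Finset.sum_filter]
    refine Finset.sum_le_sum fun σ _ => ?_
    have hcard : (nm σ).primeFactors.card = (supp σ).card := AR3b_pf_card _
    by_cases h0 : α σ = 0
    · rw [h0, abs_zero, zero_mul]
      split_ifs
      · exact mul_nonneg (mul_nonneg hC (pow_nonneg hb _)) (hg _)
      · exact le_rfl
    · have hL := (hα σ).2 h0
      have hm : nm σ ∈ F := by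
        refine hF _ (AR3b_pos _) hL (AR3b_sqf _) fun p hp hpd => ?_
        have h2 : p ∈ (nm σ).primeFactors :=
          Nat.mem_primeFactors.2 ⟨hp, hpd, Nat.one_le_iff_ne_zero.1 (AR3b_pos (supp σ))⟩
        unfold nm at h2
        rw [AR3b_pf] at h2
        obtain ⟨q, _, rfl⟩ := Finset.mem_image.1 h2
        exact AR3b_gt q
      rw [if_pos hm, hcard]
      exact mul_le_mul_of_nonneg_right (hα σ).1 (hg _)
  refine h1.trans ?_
  rw [← Finset.sum_fiberwise_of_maps_to (g := fun σ => nm σ) (t := F)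
    fun σ hσ => (Finset.mem_filter.1 hσ).2, Finset.mul_sum]
  refine Finset.sum_le_sum fun m _ => ?_
  have h2 : ∑ σ ∈ ((univ : Finset (Pl D0 z → Option V)).filter fun σ => nm σ ∈ F).filter
      (fun σ => nm σ = m), C * b ^ (nm σ).primeFactors.card * g (nm σ) =
      ∑ σ ∈ ((univ : Finset (Pl D0 z → Option V)).filter fun σ => nm σ ∈ F).filter
      (fun σ => nm σ = m), C * b ^ m.primeFactors.card * g m :=
    Finset.sum_congr rfl fun σ hσ => by rw [(Finset.mem_filter.1 hσ).2]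
  rw [h2, Finset.sum_const, nsmul_eq_mul]
  have h3 : ((((univ : Finset (Pl D0 z → Option V)).filter fun σ => nm σ ∈ F).filter
      (fun σ => nm σ = m)).card : ℝ) ≤ (Fintype.card V : ℝ) ^ m.primeFactors.card := by
    have h4 : (((univ : Finset (Pl D0 z → Option V)).filter fun σ => nm σ ∈ F).filter
      (fun σ => nm σ = m)).card ≤ Fintype.card V ^ m.primeFactors.card :=
      (Finset.card_le_card (Finset.filter_subset_filter _ (Finset.filter_subset _ _))).trans
        (AR3b_count m)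
    exact_mod_cast h4
  calc _ ≤ (Fintype.card V : ℝ) ^ m.primeFactors.card * (C * b ^ m.primeFactors.card * g m) :=
        mul_le_mul_of_nonneg_right h3 (mul_nonneg (mul_nonneg hC (pow_nonneg hb _)) (hg _))
    _ = C * ((b * Fintype.card V) ^ m.primeFactors.card * g m) := by
        rw [mul_pow]
        ring

/-- **Sum of the coefficients.** For given `m` there are at most `|V| ^ ω(m)` labelings with `nm σ = m`, `m ≤ L` is squarefree;
`∑_{m ≤ L} (b |V|) ^ ω(m) ≤ C' L ^ 2` (`pow_omega_le` with `δ = 1`). -/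
theorem sum_abs_le (V : Type) [Fintype V] [DecidableEq V] (b : ℝ) (hb : 0 ≤ b) : ∃ C' : ℝ, 0 < C' ∧
    ∀ (D0 : ℕ) (z : ℝ) (α : (Pl D0 z → Option V) → ℝ) (L C : ℝ), 1 ≤ L → 0 ≤ C → Bd α L C b →
      ∑ σ, |α σ| ≤ C' * C * L ^ 2 := by
  obtain ⟨C1, hC1, h1⟩ := pow_omega_le ⌈b * Fintype.card V⌉₊ 1 one_pos
  refine ⟨C1, hC1, fun D0 z α L C hL hC hα => ?_⟩
  have h2 := AR3b_gen α L C b hb hC hα (fun _ => 1) (fun _ => zero_le_one) (Icc 1 ⌊L⌋₊)
    fun m hm1 hmL _ _ => Finset.mem_Icc.2 ⟨hm1, Nat.le_floor hmL⟩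
  simp only [mul_one] at h2
  refine h2.trans ?_
  have hcV : (0 : ℝ) ≤ b * Fintype.card V := mul_nonneg hb (Nat.cast_nonneg _)
  have h3 : ∀ m ∈ Icc 1 ⌊L⌋₊, (b * Fintype.card V) ^ m.primeFactors.card ≤ C1 * L := by
    intro m hm
    obtain ⟨hm1, hm2⟩ := Finset.mem_Icc.1 hm
    have h4 := h1 m hm1
    rw [Real.rpow_one] at h4
    have h5 : (m : ℝ) ≤ L := (Nat.cast_le.2 hm2).trans (Nat.floor_le (by linarith))
    calc (b * Fintype.card V) ^ m.primeFactors.card
        ≤ ((⌈b * Fintype.card V⌉₊ : ℕ) : ℝ) ^ m.primeFactors.card :=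
          pow_le_pow_left₀ hcV (Nat.le_ceil _) _
      _ ≤ C1 * m := h4
      _ ≤ C1 * L := mul_le_mul_of_nonneg_left h5 hC1.le
  have h6 : ∑ m ∈ Icc 1 ⌊L⌋₊, (b * (Fintype.card V : ℝ)) ^ m.primeFactors.card ≤ L * (C1 * L) := by
    refine (Finset.sum_le_sum h3).trans ?_
    rw [Finset.sum_const, Nat.card_Icc, nsmul_eq_mul, Nat.add_sub_cancel]
    exact mul_le_mul_of_nonneg_right (Nat.floor_le (by linarith)) (mul_nonneg hC1.le (by linarith))
  calc C * ∑ m ∈ Icc 1 ⌊L⌋₊, (b * (Fintype.card V : ℝ)) ^ m.primeFactors.card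
      ≤ C * (L * (C1 * L)) := mul_le_mul_of_nonneg_left h6 hC
    _ = C1 * C * L ^ 2 := by ring

/-- **The sum of the remainders.** `nm σ` is squarefree and prime to `W`; at most `|V| ^ ω(m)` labelings have
`nm σ = m`; `EB ≥ 0`. -/
theorem sum_EB_le (α : (Pl D0 z → Option V) → ℝ) (L C : ℝ) (b : ℕ) (hb : 1 ≤ b) (hC : 0 ≤ C) (hα : Bd α L C b)
    (W : ℕ) (hW : ∀ p : ℕ, p.Prime → p ∣ W → p ≤ D0) (κ : ℕ) (Y : ℝ) :
    ∑ σ, |α σ| * EB κ Y (W * nm σ) ≤ C * ∑ m ∈ (Icc 1 ⌊L⌋₊).filter (fun m => Squarefree m ∧ m.Coprime W),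
      ((b * Fintype.card V : ℕ) : ℝ) ^ m.primeFactors.card * EB κ Y (W * m) := by
  have h := AR3b_gen α L C b (Nat.cast_nonneg _) hC hα (fun m => EB κ Y (W * m))
    (fun m => by
      unfold EB
      exact mul_nonneg (by positivity) (Finset.sum_nonneg fun _ _ => Finset.sum_nonneg fun _ _ =>
        norm_nonneg _))
    ((Icc 1 ⌊L⌋₊).filter (fun m => Squarefree m ∧ m.Coprime W)) ?_
  · push_cast
    exact h
  · intro m hm1 hmL hsq hp
    refine Finset.mem_filter.2 ⟨Finset.mem_Icc.2 ⟨hm1, Nat.le_floor hmL⟩, hsq, ?_⟩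
    refine Nat.Coprime.symm (Nat.coprime_of_dvd ?_)
    intro p hpp hpW hpm
    exact absurd (hp p hpp hpm) (not_lt.2 (hW p hpp hpW))

end Pool.Agent.Wd33b62
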