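import Pool.Agent.W_d33b62_h36.AR1c
import Pool.Agent.W_d33b62_h36.LA3

/-!
# Bounded coefficients (helper36, MP_d33b62_nt)
-/

set_option autoImplicit false

noncomputable section

open Finset Filter

namespace Pool.Agent.Wd33b62

open Pool.Agent.Wb58c63 (PI mem_PI VP ap Pr XM TT prim Er Sd)

variable {D0 : ℕ} {z : ℝ} {V : Type} [Fintype V] [DecidableEq V]

theorem AR3c_prime (p : Pl D0 z) : p.1.Prime := (mem_PI.1 p.2).1

theorem AR3c_nmS_pos (S : Finset (Pl D0 z)) : 1 ≤ nmS S := by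
  unfold nmS
  exact Nat.one_le_iff_ne_zero.2 (Finset.prod_ne_zero_iff.2 fun p _ => (AR3c_prime p).ne_zero)

theorem AR3c_nmS_inj : Function.Injective (nmS : Finset (Pl D0 z) → ℕ) := by
  have key : ∀ (S : Finset (Pl D0 z)) (p : Pl D0 z), p ∈ S ↔ p.1 ∣ nmS S := by
    intro S p
    unfold nmS
    constructor
    · intro h
      exact Finset.dvd_prod_of_mem (fun q : Pl D0 z => q.1) h
    · intro h
      obtain ⟨q, hq, hpq⟩ := ((AR3c_prime p).prime.dvd_finsetProd_iff _).1 h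
      have h1 : p.1 = q.1 := (Nat.prime_dvd_prime_iff_eq (AR3c_prime p) (AR3c_prime q)).1 hpq
      have h2 : p = q := Subtype.ext h1
      rw [h2]
      exact hq
  intro S T h
  ext p
  rw [key S p, key T p, h]

theorem AR3c_nmS_mono {S T : Finset (Pl D0 z)} (h : S ⊆ T) : nmS S ≤ nmS T := by
  unfold nmS
  exact Nat.le_of_dvd (AR3c_nmS_pos T) (Finset.prod_dvd_prod_of_subset _ _ _ h)

theorem AR3c_BB (g : Finset (Pl D0 z) → ℝ) (M X : ℝ) (hM : 0 ≤ M) (hX : 1 ≤ X) (hg : ∀ S, g S ≤ M)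
    (hg0 : ∀ S, X < nmS S → g S ≤ 0) : BB (xr D0 z) g ≤ M * (1 + Real.log X) := by
  classical
  have hprod : ∀ S : Finset (Pl D0 z), ∏ i ∈ S, xr D0 z i = ((nmS S : ℕ) : ℝ)⁻¹ := by
    intro S
    unfold xr nmS
    rw [Nat.cast_prod, ← Finset.prod_inv_distrib]
    exact Finset.prod_congr rfl fun p _ => one_div _
  have h1 : BB (xr D0 z) g ≤ ∑ S : Finset (Pl D0 z), if (nmS S : ℝ) ≤ X then M * ((nmS S : ℕ) : ℝ)⁻¹ else 0 := by
    unfold BB
    refine Finset.sum_le_sum fun S _ => ?_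
    rw [hprod S]
    have h2 : (0 : ℝ) ≤ ((nmS S : ℕ) : ℝ)⁻¹ := by positivity
    split_ifs with h
    · exact mul_le_mul_of_nonneg_right (hg S) h2
    · exact mul_nonpos_of_nonpos_of_nonneg (hg0 S (not_le.1 h)) h2
  refine h1.trans ?_
  rw [← Finset.sum_filter, ← Finset.mul_sum]
  refine mul_le_mul_of_nonneg_left ?_ hM
  have h2 : ∑ S ∈ (univ : Finset (Finset (Pl D0 z))).filter (fun S => (nmS S : ℝ) ≤ X), ((nmS S : ℕ) : ℝ)⁻¹ =
      ∑ n ∈ ((univ : Finset (Finset (Pl D0 z))).filter (fun S => (nmS S : ℝ) ≤ X)).image nmS, ((n : ℕ) : ℝ)⁻¹ := by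
    rw [Finset.sum_image]
    intro a _ b _ hab
    exact AR3c_nmS_inj hab
  rw [h2]
  have h3 : ((univ : Finset (Finset (Pl D0 z))).filter (fun S => (nmS S : ℝ) ≤ X)).image nmS ⊆ Icc 1 ⌊X⌋₊ := by
    intro n hn
    rw [Finset.mem_image] at hn
    obtain ⟨S, hS, rfl⟩ := hn
    rw [Finset.mem_filter] at hS
    rw [Finset.mem_Icc]
    exact ⟨AR3c_nmS_pos S, Nat.le_floor hS.2⟩
  refine (Finset.sum_le_sum_of_subset_of_nonneg h3 fun n _ _ => by positivity).trans ?_
  have h4 := harmonic_floor_le_one_add_log X hX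
  rw [harmonic_eq_sum_Icc] at h4
  push_cast at h4
  exact h4

theorem AR3c_supp {V : Type} {σ κ : Pl D0 z → Option V} (h : Sub σ κ) : (nm σ : ℝ) ≤ nm κ := by
  have h1 : supp σ ⊆ supp κ := by
    intro p hp
    unfold supp at hp ⊢
    rw [Finset.mem_filter] at hp ⊢
    refine ⟨hp.1, ?_⟩
    rcases h p with h2 | h2
    · exact absurd h2 hp.2
    · rw [← h2]
      exact hp.2
  exact_mod_cast AR3c_nmS_mono h1

theorem AR3c_card (k : ℕ) : Fintype.card (VV k) = k + k ^ 2 := by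
  rw [Fintype.card_sum, Fintype.card_prod, Fintype.card_fin, pow_two]

theorem AR3c_log : ∀ᶠ Y : ℝ in atTop, 1 ≤ Y ∧ 1 + Real.log Y ≤ Real.log Y ^ 2 := by
  have h1 : ∀ᶠ x : ℝ in atTop, 1 + x ≤ x ^ 2 := by
    filter_upwards [eventually_ge_atTop (2 : ℝ)] with x hx
    nlinarith
  filter_upwards [eventually_ge_atTop (1 : ℝ), Real.tendsto_log_atTop.eventually h1] with Y hY h
  exact ⟨hY, h⟩

theorem AR3c_logL (L : ℕ) : ∀ᶠ Y : ℝ in atTop, 2 ^ (L + 1) * (1 + Real.log Y) ≤ Real.log Y ^ 2 := by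
  have h1 : ∀ᶠ x : ℝ in atTop, (2 : ℝ) ^ (L + 1) * (1 + x) ≤ x ^ 2 := by
    filter_upwards [eventually_ge_atTop ((2 : ℝ) ^ (L + 1) * 2), eventually_ge_atTop (1 : ℝ)] with x hx hx1
    have h2 : (2 : ℝ) ^ (L + 1) * (1 + x) ≤ (2 : ℝ) ^ (L + 1) * 2 * x := by
      have h3 : 0 < (2 : ℝ) ^ (L + 1) := by positivity
      nlinarith
    refine h2.trans ?_
    rw [pow_two]
    exact mul_le_mul_of_nonneg_right hx (by linarith)
  exact Real.tendsto_log_atTop.eventually h1

theorem AR3c_gX_le (t : Bool) (X : ℝ) (S : Finset (Pl D0 z)) : gX t X S ≤ 1 := by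
  unfold gX
  split_ifs <;> norm_num

theorem AR3c_gX_zero (t : Bool) (X : ℝ) (S : Finset (Pl D0 z)) (h : X < nmS S) : gX t X S = 0 := by
  unfold gX
  rw [if_neg]
  rintro ⟨h1, -⟩
  linarith

omit [Fintype V] [DecidableEq V] in
theorem AR3c_BBnn {x : Pl D0 z → ℝ} {g : V → Finset (Pl D0 z) → ℝ} (h : GH x g) (v : V) :
    0 ≤ BB x (g v) := by
  unfold BB
  exact Finset.sum_nonneg fun S _ => mul_nonneg (h.g_nonneg v S)
    (Finset.prod_nonneg fun i _ => (h.x_pos i).le)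

theorem AR3c_nm (κ : Pl D0 z → Option V) : (nm κ : ℝ) = ∏ v, (nmS (fib κ v) : ℝ) := by
  have h := LA3_prod_fib (fun p : Pl D0 z => ((p.1 : ℕ) : ℝ)) κ ∅
  simp only [Finset.sdiff_empty] at h
  unfold nm nmS
  push_cast
  exact h.symm

/-- **The coefficients of the Selberg weights.** `|lam σ| ≤ ∏ BB` (`abs_lam_le`), every `BB` is at most
`2 ^ (L + 1) ∑_{n ≤ Y} 1 / n ≤ (log Y) ^ 2` for large `Y`; the level is `R E ^ (k ^ 2) = Y ^ (η + η τ ^ 2) ≤ Y ^ (2 η)`
(`lam_ne_zero`, `yw_level`, `nm σ ≤ nm κ` for `σ ≤ κ`). -/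
theorem Bd_lam {k : ℕ} (hk : 0 < k) (L : ℕ) (η τ : ℝ) (hη : 0 < η) (hη1 : η ≤ 1 / 200) (hτ : 0 < τ) (hτ1 : τ ≤ 1)
    (d : AData k) :
    ∀ᶠ Y : ℝ in atTop, Bd (lam (xY d η Y) (yY d η τ L Y)) (Y ^ (2 * η)) (Real.log Y ^ (2 * (k + k ^ 2))) 1 := by
  filter_upwards [AR3c_log, AR3c_logL L, eventually_gt_atTop (1 : ℝ)] with Y hY hYL hY1
  obtain ⟨-, hYl⟩ := hY
  have hY0 : 0 < Y := by linarith
  have hlY : 0 < Real.log Y := Real.log_pos hY1
  have hD : 1 ≤ d.D0 := by
    have := d.D0_ge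
    omega
  have hk1 : (1 : ℝ) ≤ (k : ℝ) ^ 2 := by
    have : (1 : ℝ) ≤ k := by exact_mod_cast hk
    exact one_le_pow₀ this
  have hτ2 : τ ^ 2 ≤ 1 := pow_le_one₀ hτ.le hτ1
  have he0 : 0 ≤ η * τ ^ 2 / k ^ 2 := by positivity
  have he1 : η * τ ^ 2 ≤ η := by nlinarith
  have he2 : η * τ ^ 2 / k ^ 2 ≤ η * τ ^ 2 := div_le_self (by positivity) hk1
  have hR : 1 < RR η Y := Real.one_lt_rpow hY1 hη
  have hE : 1 ≤ EE η τ k Y := Real.one_le_rpow hY1.le he0
  have hlR : Real.log (RR η Y) = η * Real.log Y := Real.log_rpow hY0 _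
  have hlE : Real.log (EE η τ k Y) = η * τ ^ 2 / k ^ 2 * Real.log Y := Real.log_rpow hY0 _
  have hGH : GH (xr d.D0 (ZZ η Y)) (gw (k := k) L (RR η Y) (EE η τ k Y)) := GH_gw hD L _ _
  intro σ
  constructor
  · rw [one_pow, mul_one]
    have h1 := abs_lam_le hGH (yw_nonneg L (RR η Y) (EE η τ k Y)) (yw_le L (RR η Y) (EE η τ k Y)) σ
    refine h1.trans ?_
    have h2 : ∀ v ∈ (univ : Finset (VV k)), BB (xr d.D0 (ZZ η Y)) (gw L (RR η Y) (EE η τ k Y) v) ≤
        Real.log Y ^ 2 := by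
      intro v _
      rcases v with i | ij
      · have h3 : (1 : ℝ) ≤ (RR η Y) ^ (1 / 2 : ℝ) := Real.one_le_rpow hR.le (by norm_num)
        have h4 := AR3c_BB (D0 := d.D0) (z := ZZ η Y) (gS L (RR η Y)) (2 ^ (L + 1))
          ((RR η Y) ^ (1 / 2 : ℝ)) (by positivity) h3 (gS_le L (RR η Y)) (by
            intro S hS
            by_contra hcon
            have h5 := gS_ne_zero L (RR η Y) hR.le S (by linarith)
            linarith)
        have h5 : Real.log ((RR η Y) ^ (1 / 2 : ℝ)) ≤ Real.log Y := by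
          rw [Real.log_rpow (by linarith), hlR]
          nlinarith
        have h6 : (2 : ℝ) ^ (L + 1) * (1 + Real.log ((RR η Y) ^ (1 / 2 : ℝ))) ≤
            2 ^ (L + 1) * (1 + Real.log Y) := mul_le_mul_of_nonneg_left (by linarith) (by positivity)
        exact h4.trans (h6.trans hYL)
      · have h4 := AR3c_BB (D0 := d.D0) (z := ZZ η Y) (gX true (EE η τ k Y)) 1
          (EE η τ k Y) zero_le_one hE (AR3c_gX_le true _) (fun S hS => (AR3c_gX_zero true _ S hS).le)
        have h5 : Real.log (EE η τ k Y) ≤ Real.log Y := by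
          rw [hlE]
          have h6 : η * τ ^ 2 / k ^ 2 ≤ 1 := by linarith
          nlinarith
        rw [one_mul] at h4
        exact h4.trans (le_trans (by linarith) hYl)
    refine (Finset.prod_le_prod (fun v _ => AR3c_BBnn hGH v) h2).trans (le_of_eq ?_)
    rw [Finset.prod_const, Finset.card_univ, AR3c_card, ← pow_mul]
  · intro h
    obtain ⟨κ, hκ, hy⟩ := lam_ne_zero h
    have h1 := yw_level L (RR η Y) (EE η τ k Y) hR hE κ hy
    refine (AR3c_supp hκ).trans (h1.trans ?_)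
    have h2 : (EE η τ k Y) ^ (k ^ 2) = Y ^ (η * τ ^ 2) := by
      unfold EE
      rw [← Real.rpow_natCast, ← Real.rpow_mul hY0.le]
      congr 1
      have hk0 : (k : ℝ) ≠ 0 := by exact_mod_cast hk.ne'
      push_cast
      field_simp
    rw [h2]
    unfold RR
    rw [← Real.rpow_add hY0]
    exact Real.rpow_le_rpow_of_exponent_le hY1.le (by linarith)

/-- The coefficients of the majorant: `∏_{v ∈ U} BB (gX) ≤ (log Y) ^ (2 |V|)`, level `ES ^ |U|`. -/
theorem Bd_lam2 {k : ℕ} (η : ℝ) (hη : 0 < η) (hη1 : η ≤ 1 / 200) (d : AData k) :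
    ∀ᶠ Y : ℝ in atTop, ∀ (U : Finset (VV k)) (t : VV k → Bool), U.card ≤ 3 →
      Bd (lam (xY d η Y) (fun κ => ∏ v, g2 U t (ES Y) v (fib κ v))) (Y ^ (3 / 50 : ℝ))
        (Real.log Y ^ (2 * (k + k ^ 2))) 1 := by
  filter_upwards [AR3c_log, eventually_gt_atTop (1 : ℝ)] with Y hY hY1
  obtain ⟨-, hYl⟩ := hY
  intro U t hU
  have hY0 : 0 < Y := by linarith
  have hlY : 0 < Real.log Y := Real.log_pos hY1
  have hD : 1 ≤ d.D0 := by
    have := d.D0_ge
    omega
  have hX : 1 ≤ ES Y := Real.one_le_rpow hY1.le (by norm_num)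
  have hlX : Real.log (ES Y) = 1 / 50 * Real.log Y := Real.log_rpow hY0 _
  have hGH : GH (xr d.D0 (ZZ η Y)) (g2 U t (ES Y)) := GH_g2 hD U t (ES Y)
  intro σ
  constructor
  · rw [one_pow, mul_one]
    have h1 := abs_lam_le hGH (y := fun κ => ∏ v, g2 U t (ES Y) v (fib κ v))
      (fun κ => Finset.prod_nonneg fun v _ => hGH.g_nonneg v _) (fun κ => le_rfl) σ
    refine h1.trans ?_
    have h2 : ∀ v ∈ (univ : Finset (VV k)), BB (xr d.D0 (ZZ η Y)) (g2 U t (ES Y) v) ≤
        Real.log Y ^ 2 := by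
      intro v _
      have h4 := AR3c_BB (D0 := d.D0) (z := ZZ η Y) (g2 U t (ES Y) v) 1
          (ES Y) zero_le_one hX (fun S => by
            unfold g2
            split_ifs
            · exact AR3c_gX_le _ _ S
            · exact le_rfl
            · norm_num) (fun S hS => by
            unfold g2
            split_ifs with h5 h6
            · exact (AR3c_gX_zero _ _ S hS).le
            · exfalso
              rw [h6] at hS
              have h7 : nmS (∅ : Finset (Pl d.D0 (ZZ η Y))) = 1 := Finset.prod_empty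
              rw [h7, Nat.cast_one] at hS
              linarith
            · exact le_rfl)
      rw [one_mul, hlX] at h4
      exact h4.trans (le_trans (by linarith) hYl)
    refine (Finset.prod_le_prod (fun v _ => AR3c_BBnn hGH v) h2).trans (le_of_eq ?_)
    rw [Finset.prod_const, Finset.card_univ, AR3c_card, ← pow_mul]
  · intro h
    obtain ⟨κ, hκ, hy⟩ := lam_ne_zero h
    refine (AR3c_supp hκ).trans ?_
    rw [AR3c_nm κ]
    have h1 : ∀ v ∈ (univ : Finset (VV k)), (nmS (fib κ v) : ℝ) ≤ if v ∈ U then ES Y else 1 := by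
      intro v _
      have h2 : g2 U t (ES Y) v (fib κ v) ≠ 0 := (Finset.prod_ne_zero_iff.1 hy) v (Finset.mem_univ v)
      split_ifs with hv
      · by_contra hcon
        apply h2
        unfold g2
        rw [if_pos hv]
        exact AR3c_gX_zero _ _ _ (not_le.1 hcon)
      · unfold g2 at h2
        rw [if_neg hv] at h2
        have h3 : fib κ v = ∅ := by
          by_contra h4
          rw [if_neg h4] at h2
          exact h2 rfl
        rw [h3]
        have h7 : nmS (∅ : Finset (Pl d.D0 (ZZ η Y))) = 1 := Finset.prod_empty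
        rw [h7, Nat.cast_one]
    refine (Finset.prod_le_prod (fun v _ => Nat.cast_nonneg _) h1).trans ?_
    have h2 : ∏ v : VV k, (if v ∈ U then ES Y else 1) = ES Y ^ U.card := by
      rw [Finset.prod_ite_mem, Finset.univ_inter, Finset.prod_const]
    rw [h2]
    have h3 : ES Y ^ U.card ≤ ES Y ^ 3 := pow_le_pow_right₀ hX hU
    refine h3.trans (le_of_eq ?_)
    unfold ES
    rw [← Real.rpow_natCast, ← Real.rpow_mul hY0.le]
    norm_num

end Pool.Agent.Wd33b62
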