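import Pool.Agent.W_d33b62_h36.HD1

/-!
# The half-dimensional sieve: weights (helper36, MP_d33b62_nt)

Rosser's weights with exponent `1 + θ`. Compare `Pool.Agent.W_b58c63_h68.JLam` (linear sieve); the proofs are the same.
-/

set_option autoImplicit false

noncomputable section

open Finset MeasureTheory

namespace Pool.Agent.Wd33b62

open Pool.Agent.Wb58c63 (VP below VP_expand JLam_expand VP_pos)

theorem HD2_GG_one (θ : ℝ) (b : Bool) (D : ℝ) (P : Finset ℕ) :
    ∑ S ∈ P.powerset, lamHF θ b D S = GGh (fun _ => 1) θ b D P := by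
  unfold GGh
  simp

/-- **The sieve inequalities** (compare `Wb58c63.sieve_ineq`). -/
theorem sieve_ineqH (θ : ℝ) (P : Finset ℕ) : ∀ D : ℝ,
    (if P = ∅ then (1 : ℝ) else 0) ≤ ∑ S ∈ P.powerset, lamHF θ true D S ∧
      ∑ S ∈ P.powerset, lamHF θ false D S ≤ (if P = ∅ then (1 : ℝ) else 0) := by
  classical
  induction P using Finset.strongInduction with
  | H P ih =>
    intro D
    rcases P.eq_empty_or_nonempty with rfl | hne
    · simp [lamHF_empty]
    have hP : P ≠ ∅ := hne.ne_empty
    rw [if_neg hP, HD2_GG_one, HD2_GG_one, GGh_true, GGh_false]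
    have hss : ∀ p ∈ P, (P.filter fun q => q < p) ⊂ P := fun p hp =>
      Finset.filter_ssubset.2 ⟨p, hp, lt_irrefl p⟩
    obtain ⟨p₀, hp₀, hmin⟩ : ∃ p₀ ∈ P, ∀ q ∈ P, p₀ ≤ q :=
      ⟨P.min' hne, P.min'_mem hne, fun q hq => P.min'_le q hq⟩
    have hemp : (P.filter fun q => q < p₀) = ∅ :=
      Finset.filter_false_of_mem fun q hq => not_lt.2 (hmin q hq)
    have hnem : ∀ p ∈ P, p ≠ p₀ → (P.filter fun q => q < p) ≠ ∅ := by
      intro p hp hne' h
      have h1 : p₀ ∈ P.filter fun q => q < p :=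
        Finset.mem_filter.2 ⟨hp₀, lt_of_le_of_ne (hmin p hp) hne'.symm⟩
      rw [h] at h1
      simp at h1
    constructor
    · have h1 : ∑ p ∈ P.filter (fun p : ℕ => (p : ℝ) ^ (2 + θ) < D),
          (1 : ℝ) * GGh (fun _ => 1) θ false (D / p) (P.filter fun q => q < p) ≤
          ∑ p ∈ P.filter (fun p : ℕ => (p : ℝ) ^ (2 + θ) < D), if p = p₀ then (1 : ℝ) else 0 := by
        refine Finset.sum_le_sum fun p hp => ?_
        have hpP := (Finset.mem_filter.1 hp).1
        have h2 := (ih _ (hss p hpP) (D / p)).2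
        rw [HD2_GG_one] at h2
        rw [one_mul]
        refine h2.trans ?_
        by_cases hpp : p = p₀
        · rw [if_pos hpp]
          split_ifs <;> norm_num
        · rw [if_neg hpp, if_neg (hnem p hpP hpp)]
      have h2 : (∑ p ∈ P.filter (fun p : ℕ => (p : ℝ) ^ (2 + θ) < D),
          if p = p₀ then (1 : ℝ) else 0) ≤ 1 := by
        rw [Finset.sum_ite_eq']
        split_ifs <;> norm_num
      linarith
    · have h1 : (1 : ℝ) ≤ ∑ p ∈ P, (1 : ℝ) * GGh (fun _ => 1) θ true (D / p)
          (P.filter fun q => q < p) := by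
        have h3 : ∀ p ∈ P, (0 : ℝ) ≤ (1 : ℝ) * GGh (fun _ => 1) θ true (D / p)
            (P.filter fun q => q < p) := by
          intro p hp
          have h2 := (ih _ (hss p hp) (D / p)).1
          rw [HD2_GG_one] at h2
          rw [one_mul]
          refine le_trans ?_ h2
          split_ifs <;> norm_num
        have h4 := Finset.single_le_sum h3 hp₀
        have h5 := (ih _ (hss p₀ hp₀) (D / p₀)).1
        rw [HD2_GG_one, if_pos hemp] at h5
        linarith
      linarith

/-- **Support of the weights.** Simultaneous induction on the list: upper bound: `1 < D` and `lamH true D L ≠ 0` give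
`∏ L < D`; lower bound: `1 < D`, all elements of `L` are `< D` and `lamH false D L ≠ 0` give `∏ L < D`. In the upper case
`p ^ (2 + θ) < D`, so `q < p ≤ p ^ (1 + θ) < D / p` for `q ∈ L`. -/
theorem lamH_support (θ : ℝ) (hθ : 0 ≤ θ) (L : List ℕ) (hL : L.Pairwise (· > ·)) (h1 : ∀ p ∈ L, 1 ≤ p) :
    (∀ D : ℝ, 1 < D → lamH θ true D L ≠ 0 → ((L.prod : ℕ) : ℝ) < D) ∧
      (∀ D : ℝ, 1 < D → (∀ p ∈ L, (p : ℝ) < D) → lamH θ false D L ≠ 0 → ((L.prod : ℕ) : ℝ) < D) := by
  induction L with
  | nil =>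
    refine ⟨fun D hD _ => ?_, fun D hD _ _ => ?_⟩
    · simpa using hD
    · simpa using hD
  | cons p L ih =>
    have hL' := List.pairwise_cons.1 hL
    obtain ⟨ihT, ihF⟩ := ih hL'.2 fun q hq => h1 q (List.mem_cons_of_mem _ hq)
    have hp1 : (1 : ℝ) ≤ p := by exact_mod_cast h1 p List.mem_cons_self
    have hp0 : (0 : ℝ) < p := by linarith
    have hprod : ∀ D : ℝ, ((L.prod : ℕ) : ℝ) < D / p → (((p :: L).prod : ℕ) : ℝ) < D := by
      intro D h
      rw [lt_div_iff₀ hp0] at h
      rw [List.prod_cons]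
      push_cast at h ⊢
      linarith
    constructor
    · intro D hD hne
      rw [lamH] at hne
      split_ifs at hne with hpD
      · have h2 : lamH θ false (D / p) L ≠ 0 := fun h => hne (by rw [h, neg_zero])
        have h3 : (p : ℝ) ^ 2 < D := by
          refine lt_of_le_of_lt ?_ hpD
          rw [← Real.rpow_two]
          exact Real.rpow_le_rpow_of_exponent_le hp1 (by linarith)
        refine hprod D (ihF (D / p) ?_ ?_ h2)
        · rw [lt_div_iff₀ hp0, one_mul]
          nlinarith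
        · intro q hq
          have hqp : (q : ℝ) < p := by exact_mod_cast hL'.1 q hq
          rw [lt_div_iff₀ hp0]
          nlinarith
      · exact absurd rfl hne
    · intro D hD hz hne
      rw [lamH] at hne
      have h2 : lamH θ true (D / p) L ≠ 0 := fun h => hne (by rw [h, neg_zero])
      refine hprod D (ihT (D / p) ?_ h2)
      rw [lt_div_iff₀ hp0, one_mul]
      exact hz p List.mem_cons_self

theorem lamHF_false_support (θ : ℝ) (hθ : 0 ≤ θ) (D : ℝ) (hD : 1 < D) (S : Finset ℕ)
    (h1 : ∀ p ∈ S, 1 ≤ p) (h2 : ∀ p ∈ S, (p : ℝ) < D) (h : lamHF θ false D S ≠ 0) :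
    ((∏ p ∈ S, p : ℕ) : ℝ) < D := by
  have h3 := (lamH_support θ hθ (S.sort (· ≥ ·)) (Finset.sortedGT_sort S).pairwise
    (fun p hp => h1 p ((Finset.mem_sort _).1 hp))).2 D hD
    (fun p hp => h2 p ((Finset.mem_sort _).1 hp)) h
  rwa [Pool.Agent.Wb58c63.JLam_prod] at h3

end Pool.Agent.Wd33b62
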