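import Pool.Agent.W_d33b62_h36.AR3b
import Pool.Agent.W_d33b62_h36.HD2

/-!
# Bounded coefficients (helper36, MP_d33b62_nt)
-/

set_option autoImplicit false

noncomputable section

open Finset Filter

namespace Pool.Agent.Wd33b62

open Pool.Agent.Wb58c63 (PI mem_PI VP ap Pr XM TT prim Er Sd)

variable {D0 : ℕ} {z : ℝ} {V : Type} [Fintype V] [DecidableEq V]

open Classical in
/-- The coefficients of the lower bound sieve. -/
def aLm {V : Type} (θ Dl : ℝ) (v : V) (σ : Pl D0 z → Option V) : ℝ :=
  if (∀ p w, σ p = some w → w = v) ∧ ∀ p ∈ supp σ, p.1 % 4 = 3 then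
    lamHF θ false Dl ((supp σ).image Subtype.val) else 0

/-- The labeling with label `v` on `S`. -/
def AR3d_lab {V : Type} (v : V) (S : Finset (Pl D0 z)) (p : Pl D0 z) : Option V :=
  if p ∈ S then some v else none

theorem AR3d_supp {V : Type} (v : V) (S : Finset (Pl D0 z)) : supp (AR3d_lab v S) = S := by
  ext p
  unfold supp AR3d_lab
  by_cases hp : p ∈ S
  · simp [hp]
  · simp [hp]

/-- The subsets `S` of the inert places with label `v` correspond to the `σ ≤ c` with labels `v` at inert places. -/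
theorem Lm_hasExp (θ Dl : ℝ) (v : V) : HasExp (Lm (D0 := D0) (z := z) θ Dl v) (aLm θ Dl v) := by
  classical
  intro c
  have hR : ∑ σ ∈ dn c, aLm θ Dl v σ =
      ∑ σ ∈ (dn c).filter fun σ => (∀ p w, σ p = some w → w = v) ∧ ∀ p ∈ supp σ, p.1 % 4 = 3,
        lamHF θ false Dl ((supp σ).image Subtype.val) := by
    rw [Finset.sum_filter]
    refine Finset.sum_congr rfl fun σ _ => ?_
    unfold aLm
    congr 1
  rw [hR]
  unfold Lm
  refine Finset.sum_bij' (fun S _ => AR3d_lab v S) (fun σ _ => supp σ) ?_ ?_ ?_ ?_ ?_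
  · intro S hS
    rw [Finset.mem_powerset] at hS
    rw [Finset.mem_filter, AR3d_supp]
    refine ⟨?_, ?_, ?_⟩
    · refine Finset.mem_filter.2 ⟨Finset.mem_univ _, fun p => ?_⟩
      by_cases hp : p ∈ S
      · right
        have h1 := (Finset.mem_filter.1 (Finset.mem_filter.1 (hS hp)).1).2
        rw [h1]
        simp [AR3d_lab, hp]
      · left
        simp [AR3d_lab, hp]
    · intro p w hw
      by_cases hp : p ∈ S
      · simp only [AR3d_lab, hp, if_true, Option.some.injEq] at hw
        exact hw.symm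
      · simp [AR3d_lab, hp] at hw
    · intro p hp
      exact (Finset.mem_filter.1 (hS hp)).2
  · intro σ hσ
    obtain ⟨h1, h2, h3⟩ := Finset.mem_filter.1 hσ
    have h1' : Sub σ c := (Finset.mem_filter.1 h1).2
    rw [Finset.mem_powerset]
    intro p hp
    have hp' : σ p ≠ none := (Finset.mem_filter.1 hp).2
    obtain ⟨w, hw⟩ := Option.ne_none_iff_exists'.1 hp'
    have hwv := h2 p w hw
    rw [hwv] at hw
    have h4 : c p = some v := by
      rcases h1' p with h | h
      · exact absurd h hp'
      · rw [← h, hw]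
    exact Finset.mem_filter.2 ⟨Finset.mem_filter.2 ⟨Finset.mem_univ _, h4⟩, h3 p hp⟩
  · intro S _
    exact AR3d_supp v S
  · intro σ hσ
    obtain ⟨_, h2, _⟩ := Finset.mem_filter.1 hσ
    funext p
    by_cases hp : p ∈ supp σ
    · have hp' : σ p ≠ none := (Finset.mem_filter.1 hp).2
      obtain ⟨w, hw⟩ := Option.ne_none_iff_exists'.1 hp'
      have hwv := h2 p w hw
      simp only [AR3d_lab, hp, if_true]
      rw [hw, hwv]
    · have hp' : σ p = none := by
        by_contra hc
        exact hp (Finset.mem_filter.2 ⟨Finset.mem_univ _, hc⟩)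
      simp only [AR3d_lab, hp, if_false]
      exact hp'.symm
  · intro S _
    rw [AR3d_supp]

/-- `abs_lamHF_le`, `lamHF_false_support`. -/
theorem Bd_aLm (θ Dl : ℝ) (hθ : 0 ≤ θ) (hD : 1 < Dl) (hz : z ≤ Dl) (v : V) :
    Bd (aLm (D0 := D0) (z := z) θ Dl v) Dl 1 1 := by
  classical
  intro σ
  refine ⟨?_, fun h => ?_⟩
  · rw [one_pow, mul_one]
    unfold aLm
    split_ifs
    · exact abs_lamHF_le _ _ _ _
    · rw [abs_zero]
      exact zero_le_one
  · unfold aLm at h
    split_ifs at h with hc
    · have h1 := lamHF_false_support θ hθ Dl hD ((supp σ).image Subtype.val) ?_ ?_ h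
      · unfold nm
        rw [AR3b_nmS]
        exact h1.le
      · intro p hp
        obtain ⟨q, _, rfl⟩ := Finset.mem_image.1 hp
        exact (AR3b_prime q).one_le
      · intro p hp
        obtain ⟨q, _, rfl⟩ := Finset.mem_image.1 hp
        exact lt_of_lt_of_le (mem_PI.1 q.2).2.2 hz
    · exact absurd rfl h

end Pool.Agent.Wd33b62
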