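import Pool.Agent.W_d33b62_h36.MM4

/-!
# Mertens estimates for the residue classes modulo 4 (helper36, MP_d33b62_nt)
-/

set_option autoImplicit false

noncomputable section

open Finset

namespace Pool.Agent.Wd33b62

open Pool.Agent.Wb58c63 (PI mem_PI VP below)

/-- The products `∏_{u ≤ p < z} (1 + 1 / p)`, over the primes `≡ 3 mod 4` for `t = true`, over all primes for `t = false`. -/
def PR (t : Bool) (u z : ℝ) : ℝ := ∏ p ∈ (PI u z).filter (fun p => t = true → p % 4 = 3), (1 + 1 / (p : ℝ))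

theorem PR_pos (t : Bool) (u z : ℝ) : 0 < PR t u z := by
  unfold PR
  apply prod_pos
  intro p _
  positivity

theorem MM6_lower (x : ℝ) (hx : 0 ≤ x) : Real.exp (x - x ^ 2) ≤ 1 + x := by
  have h1 : 0 < 1 + x := by linarith
  rw [← Real.le_log_iff_exp_le h1]
  have h2 := Real.one_sub_inv_le_log_of_pos h1
  refine le_trans ?_ h2
  have h3 : 1 - (1 + x)⁻¹ = x / (1 + x) := by
    field_simp
    ring
  rw [h3, le_div_iff₀ h1]
  have h4 : 0 ≤ x ^ 3 := by positivity
  nlinarith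

theorem MM6_sq (u z : ℝ) (hu : 2 ≤ u) (P : ℕ → Prop) [DecidablePred P] :
    ∑ p ∈ (PI u z).filter P, (1 / (p : ℝ)) ^ 2 ≤ 1 := by
  have h1 := Pool.Agent.Wb58c63.arb_tail 2 le_rfl ⌈z⌉₊
  have h2 : ∑ p ∈ (PI u z).filter P, (1 / (p : ℝ)) ^ 2 ≤ ∑ n ∈ Icc 2 ⌈z⌉₊, (1 : ℝ) / (n * (n - 1)) := by
    calc ∑ p ∈ (PI u z).filter P, (1 / (p : ℝ)) ^ 2 ≤ ∑ p ∈ (PI u z).filter P, (1 : ℝ) / (p * (p - 1)) := by
          apply sum_le_sum
          intro p hp
          have hp2 : (2 : ℝ) ≤ p := by exact_mod_cast (mem_PI.1 (mem_filter.1 hp).1).1.two_le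
          rw [div_pow, one_pow]
          apply one_div_le_one_div_of_le
          · apply mul_pos <;> linarith
          · nlinarith
      _ ≤ _ := by
          apply sum_le_sum_of_subset_of_nonneg
          · intro p hp
            obtain ⟨h1, h2, h3⟩ := mem_PI.1 (mem_filter.1 hp).1
            rw [mem_Icc]
            refine ⟨h1.two_le, ?_⟩
            have h4 : (p : ℝ) < ⌈z⌉₊ := lt_of_lt_of_le h3 (Nat.le_ceil z)
            have h5 : p < ⌈z⌉₊ := by exact_mod_cast h4
            omega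
          · intro n hn _
            have hn2 : (2 : ℝ) ≤ n := by exact_mod_cast (mem_Icc.1 hn).1
            apply div_nonneg (by norm_num)
            apply mul_nonneg <;> linarith
  refine h2.trans (h1.trans ?_)
  norm_num

theorem MM6_gen (C : ℝ) (hC : 0 ≤ C) (θ u z : ℝ) (hu : 2 ≤ u) (huz : u ≤ z) (P : ℕ → Prop) [DecidablePred P]
    (h : |∑ p ∈ (PI u z).filter P, (1 : ℝ) / p - θ * Real.log (Real.log z / Real.log u)| ≤ C / Real.log u) :
    Real.exp (-(C / Real.log 2) - 1) * Real.exp (θ * Real.log (Real.log z / Real.log u)) ≤ ∏ p ∈ (PI u z).filter P, (1 + 1 / (p : ℝ)) ∧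
    ∏ p ∈ (PI u z).filter P, (1 + 1 / (p : ℝ)) ≤ Real.exp (C / Real.log 2) * Real.exp (θ * Real.log (Real.log z / Real.log u)) := by
  have hl2 : 0 < Real.log 2 := Real.log_pos (by norm_num)
  have hlu : Real.log 2 ≤ Real.log u := Real.log_le_log (by norm_num) hu
  have h1 : C / Real.log u ≤ C / Real.log 2 := div_le_div_of_nonneg_left hC hl2 hlu
  have h2 := abs_le.1 (h.trans h1)
  constructor
  · have h3 : Real.exp (∑ p ∈ (PI u z).filter P, (1 / (p : ℝ) - (1 / (p : ℝ)) ^ 2)) ≤ ∏ p ∈ (PI u z).filter P, (1 + 1 / (p : ℝ)) := by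
      rw [Real.exp_sum]
      apply prod_le_prod
      · intro p _
        positivity
      · intro p _
        exact MM6_lower _ (by positivity)
    refine le_trans ?_ h3
    rw [← Real.exp_add, Real.exp_le_exp, sum_sub_distrib]
    have h4 := MM6_sq u z hu P
    linarith [h2.1]
  · have h3 : ∏ p ∈ (PI u z).filter P, (1 + 1 / (p : ℝ)) ≤ Real.exp (∑ p ∈ (PI u z).filter P, 1 / (p : ℝ)) := by
      rw [Real.exp_sum]
      apply prod_le_prod
      · intro p _
        positivity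
      · intro p _
        have := Real.add_one_le_exp (1 / (p : ℝ))
        linarith
    refine h3.trans ?_
    rw [← Real.exp_add, Real.exp_le_exp]
    linarith [h2.2]

theorem MM6_pos (u z : ℝ) (hu : 2 ≤ u) (huz : u ≤ z) : 0 < Real.log z / Real.log u :=
  div_pos (Real.log_pos (by linarith)) (Real.log_pos (by linarith))

theorem MM6_half (u z : ℝ) (hu : 2 ≤ u) (huz : u ≤ z) :
    Real.exp (1 / 2 * Real.log (Real.log z / Real.log u)) = √(Real.log z / Real.log u) := by
  have h1 : 1 / 2 * Real.log (Real.log z / Real.log u) = Real.log (Real.log z / Real.log u) / 2 := by ring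
  rw [h1, Real.exp_half, Real.exp_log (MM6_pos u z hu huz)]

/-- `log (1 + 1 / p) = 1 / p + O(1 / p ^ 2)` and `mertens_inert`. -/
theorem PR_inert : ∃ c C : ℝ, 0 < c ∧ 0 < C ∧ ∀ u z : ℝ, 2 ≤ u → u ≤ z →
    c * √(Real.log z / Real.log u) ≤ PR true u z ∧ PR true u z ≤ C * √(Real.log z / Real.log u) := by
  obtain ⟨C, hC, h⟩ := mertens_inert
  refine ⟨Real.exp (-(C / Real.log 2) - 1), Real.exp (C / Real.log 2), Real.exp_pos _, Real.exp_pos _, fun u z hu huz => ?_⟩
  have e : PR true u z = ∏ p ∈ (PI u z).filter (fun p => p % 4 = 3), (1 + 1 / (p : ℝ)) := by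
    unfold PR
    apply prod_congr _ fun _ _ => rfl
    apply filter_congr
    intro p _
    simp
  have h1 := MM6_gen C hC.le (1 / 2) u z hu huz (fun p => p % 4 = 3) (h u z hu huz)
  rw [e, ← MM6_half _ _ hu huz]
  exact h1

theorem PR_all : ∃ c C : ℝ, 0 < c ∧ 0 < C ∧ ∀ u z : ℝ, 2 ≤ u → u ≤ z →
    c * (Real.log z / Real.log u) ≤ PR false u z ∧ PR false u z ≤ C * (Real.log z / Real.log u) := by
  obtain ⟨C, hC, h⟩ := mertens_all
  refine ⟨Real.exp (-(C / Real.log 2) - 1), Real.exp (C / Real.log 2), Real.exp_pos _, Real.exp_pos _, fun u z hu huz => ?_⟩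
  have e : PR false u z = ∏ p ∈ (PI u z).filter (fun _ => True), (1 + 1 / (p : ℝ)) := by
    unfold PR
    apply prod_congr _ fun _ _ => rfl
    apply filter_congr
    intro p _
    simp
  have h2 := h u z hu huz
  have h1 := MM6_gen C hC.le 1 u z hu huz (fun _ => True) (by
    rw [filter_true_of_mem fun _ _ => trivial, one_mul]
    exact h2)
  rw [one_mul, Real.exp_log (MM6_pos u z hu huz)] at h1
  rw [e]
  exact h1

/-- The product over the primes `≡ 1 mod 4`. -/
def PQ (u z : ℝ) : ℝ := ∏ p ∈ (PI u z).filter (fun p => p % 4 = 1), (1 + 1 / (p : ℝ))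

theorem PQ_split : ∃ c C : ℝ, 0 < c ∧ 0 < C ∧ ∀ u z : ℝ, 2 ≤ u → u ≤ z →
    c * √(Real.log z / Real.log u) ≤ PQ u z ∧ PQ u z ≤ C * √(Real.log z / Real.log u) := by
  obtain ⟨C, hC, h⟩ := mertens_split
  refine ⟨Real.exp (-(C / Real.log 2) - 1), Real.exp (C / Real.log 2), Real.exp_pos _, Real.exp_pos _, fun u z hu huz => ?_⟩
  have h1 := MM6_gen C hC.le (1 / 2) u z hu huz (fun p => p % 4 = 1) (h u z hu huz)
  unfold PQ
  rw [← MM6_half _ _ hu huz]
  exact h1

/-- `mul`: `PR t u z * PR t z v = PR t u v` (disjoint ranges), for `u ≤ z ≤ v`. -/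
theorem PR_mul (t : Bool) (u z v : ℝ) (h1 : u ≤ z) (h2 : z ≤ v) : PR t u z * PR t z v = PR t u v := by
  unfold PR
  have h3 : PI u v = PI u z ∪ PI z v := by
    ext p
    rw [mem_union, mem_PI, mem_PI, mem_PI]
    constructor
    · rintro ⟨a, b, c⟩
      rcases lt_or_ge (p : ℝ) z with h | h
      · exact Or.inl ⟨a, b, h⟩
      · exact Or.inr ⟨a, h, c⟩
    · rintro (⟨a, b, c⟩ | ⟨a, b, c⟩)
      · exact ⟨a, b, lt_of_lt_of_le c h2⟩
      · exact ⟨a, h1.trans b, c⟩
  rw [h3, filter_union, prod_union]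
  rw [disjoint_left]
  intro p hp hp2
  have a := (mem_PI.1 (mem_filter.1 hp).1).2.2
  have b := (mem_PI.1 (mem_filter.1 hp2).1).2.1
  linarith

end Pool.Agent.Wd33b62
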