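import Pool.Agent.W_d33b62_h36.AR1a
import Pool.Agent.W_d33b62_h36.MM6

/-!
# One-dimensional sums (helper36, MP_d33b62_nt)
-/

set_option autoImplicit false

noncomputable section

open Finset Filter

namespace Pool.Agent.Wd33b62

open Pool.Agent.Wb58c63 (PI mem_PI VP ap Pr XM)

theorem AR4a_prod (x : ℕ → ℝ) (hx : ∀ p, 0 ≤ x p) (A B : Finset ℕ) (q : ℕ) (hq : x q ≤ 1)
    (h : ∀ p ∈ A, p ∈ B ∨ p = q) : ∏ p ∈ A, (1 + x p) ≤ 2 * ∏ p ∈ B, (1 + x p) := by
  have h1 : A ⊆ insert q B := by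
    intro p hp
    rw [mem_insert]
    exact (h p hp).symm
  have h2 : ∏ p ∈ A, (1 + x p) ≤ ∏ p ∈ insert q B, (1 + x p) :=
    Finset.prod_le_prod_of_subset_of_one_le h1 (fun p _ => by linarith [hx p]) (fun p _ _ => by linarith [hx p])
  refine h2.trans ?_
  have h3 : 0 ≤ ∏ p ∈ B, (1 + x p) := Finset.prod_nonneg fun p _ => by linarith [hx p]
  by_cases hqB : q ∈ B
  · rw [Finset.insert_eq_of_mem hqB]
    linarith
  · rw [Finset.prod_insert hqB]
    exact mul_le_mul_of_nonneg_right (by linarith) h3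

/-- **Upper bound**: expand the product over the primes `D0 < p ≤ X` of the class; `PR` has the primes `< X`, a further factor is
at most `3 / 2`. -/
theorem bb_up (t : Bool) (D0 : ℕ) (z X : ℝ) (hD : 1 ≤ D0) (hX : 1 ≤ X) :
    BB (xr D0 z) (gX t X) ≤ 2 * PR t ((D0 : ℝ) + 1) X := by
  classical
  obtain ⟨A, hA⟩ : ∃ A : Finset (Pl D0 z), A = univ.filter (fun p => (p.1 : ℝ) ≤ X ∧ (t = true → p.1 % 4 = 3)) := ⟨_, rfl⟩
  have h1 : BB (xr D0 z) (gX t X) ≤ ∑ S ∈ A.powerset, ∏ p ∈ S, xr D0 z p := by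
    unfold BB
    rw [← Finset.sum_subset (Finset.subset_univ A.powerset)]
    · refine Finset.sum_le_sum fun S _ => ?_
      have h2 : gX t X S ≤ 1 := by
        unfold gX
        split_ifs <;> norm_num
      calc gX t X S * ∏ p ∈ S, xr D0 z p ≤ 1 * ∏ p ∈ S, xr D0 z p :=
            mul_le_mul_of_nonneg_right h2 (Finset.prod_nonneg fun p _ => (xr_pos p).le)
        _ = _ := one_mul _
    · intro S _ hS
      have h2 : gX t X S = 0 := by
        unfold gX
        rw [if_neg]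
        intro hc
        apply hS
        rw [Finset.mem_powerset]
        intro p hp
        rw [hA, mem_filter]
        refine ⟨mem_univ _, le_trans ?_ hc.1, hc.2 p hp⟩
        have h3 : p.1 ≤ nmS S := by
          unfold nmS
          refine Nat.le_of_dvd (Finset.prod_pos fun r _ => (mem_PS.1 r.2).1.pos) (Finset.dvd_prod_of_mem _ hp)
        exact_mod_cast h3
      rw [h2, zero_mul]
  have h4 : ∑ S ∈ A.powerset, ∏ p ∈ S, xr D0 z p = ∏ p ∈ A.image Subtype.val, (1 + 1 / ((p : ℕ) : ℝ)) := by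
    rw [← Finset.prod_one_add, Finset.prod_image (fun a _ b _ h => Subtype.ext h)]
    rfl
  rw [h4] at h1
  refine h1.trans ?_
  unfold PR
  refine AR4a_prod (fun p => 1 / (p : ℝ)) (fun p => by positivity) _ _ ⌊X⌋₊ ?_ ?_
  · have h5 : 1 ≤ ⌊X⌋₊ := Nat.le_floor (by exact_mod_cast hX)
    have h6 : (1 : ℝ) ≤ (⌊X⌋₊ : ℝ) := by exact_mod_cast h5
    change 1 / (⌊X⌋₊ : ℝ) ≤ 1
    rw [div_le_one (by linarith)]
    exact h6
  · intro p hp
    rw [mem_image] at hp
    obtain ⟨r, hr, rfl⟩ := hp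
    rw [hA, mem_filter] at hr
    obtain ⟨h7, h8, h9⟩ := mem_PS.1 r.2
    by_cases h10 : (r.1 : ℝ) < X
    · left
      rw [mem_filter, mem_PI]
      refine ⟨⟨h7, ?_, h10⟩, hr.2.2⟩
      exact_mod_cast (by omega : D0 + 1 ≤ r.1)
    · right
      have h11 : X = (r.1 : ℝ) := le_antisymm (not_lt.1 h10) hr.2.1
      rw [h11, Nat.floor_natCast]

end Pool.Agent.Wd33b62
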