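import Pool.Agent.W_d33b62_h36.AR0
import Pool.Agent.W_d33b62_h36.MM6

/-!
# One-dimensional sums (helper36, MP_d33b62_nt)
-/

set_option autoImplicit false

noncomputable section

open Finset Filter

namespace Pool.Agent.Wd33b62

open Pool.Agent.Wb58c63 (PI mem_PI VP ap Pr XM)

/-- The product splits at `x₁`. -/
private theorem AR4b_split (t : Bool) (u x X : ℝ) (hxX : x ≤ X) :
    PR t u X ≤ PR t u x * PR false x X := by
  classical
  unfold PR
  rw [← Finset.prod_filter_mul_prod_filter_not ((PI u X).filter fun p => t = true → p % 4 = 3) (fun p : ℕ => (p : ℝ) < x)]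
  have h1 : ((PI u X).filter fun p => t = true → p % 4 = 3).filter (fun p : ℕ => (p : ℝ) < x) =
      (PI u x).filter fun p => t = true → p % 4 = 3 := by
    ext p
    rw [mem_filter, mem_filter, mem_filter, mem_PI, mem_PI]
    constructor
    · rintro ⟨⟨⟨a, b, c⟩, d⟩, e⟩
      exact ⟨⟨a, b, e⟩, d⟩
    · rintro ⟨⟨a, b, c⟩, d⟩
      exact ⟨⟨⟨a, b, lt_of_lt_of_le c hxX⟩, d⟩, c⟩
  rw [h1]
  apply mul_le_mul_of_nonneg_left
  · apply Finset.prod_le_prod_of_subset_of_one_le
    · intro p hp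
      rw [mem_filter, mem_filter, mem_PI] at hp
      rw [mem_filter, mem_PI]
      exact ⟨⟨hp.1.1.1, not_lt.1 hp.2, hp.1.1.2.2⟩, fun h => absurd h (by decide)⟩
    · intro p _
      positivity
    · intro p _ _
      have : (0 : ℝ) ≤ 1 / (p : ℝ) := by positivity
      linarith
  · apply prod_nonneg
    intro p _
    positivity

/-- Convexity. -/
private theorem AR4b_conv (l L : ℝ) (hl : 0 ≤ l) (hL : 0 < L) (hlL : l ≤ L) :
    Real.exp (l / L) ≤ 1 + (Real.exp 1 - 1) * (l / L) := by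
  have ha : (0 : ℝ) ≤ 1 - l / L := by
    rw [sub_nonneg, div_le_one hL]
    exact hlL
  have h := convexOn_exp.2 (Set.mem_univ (0 : ℝ)) (Set.mem_univ (1 : ℝ)) ha (div_nonneg hl hL.le)
    (sub_add_cancel 1 (l / L))
  simp only [smul_eq_mul, mul_zero, mul_one, zero_add, Real.exp_zero] at h
  linarith

/-- **Lower bound (Rankin)**, with absolute constants.

Proof. `x₁ = X ^ (1 / 5)`, `α = 1 / log x₁`, primes of the class in `(D0, x₁)`: the sum over all sets of such primes is
`P₁ = PR t (D0 + 1) x₁`; the sum over the sets with product `> X` is at most `X ^ (-α) ∏ (1 + p ^ α / p)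
≤ e ^ (-5) P₁ exp (∑ (p ^ α - 1) / p) ≤ e ^ (-5) P₁ exp ((e - 1) ∑_{p < x₁} log p / (p log x₁)) ≤ P₁ / 2` for `X ≥ X₀`
(`mertens_one`; `p ^ α - 1 ≤ (e - 1) log p / log x₁`). So the sum is at least `P₁ / 2`, and `PR t (D0 + 1) X ≤ C P₁` since
`∏_{x₁ ≤ p < X} (1 + 1 / p) ≤ C` (`PR_all`). For `D0 + 1 > x₁` the product `P₁` is `1`, the same argument works. -/
theorem bb_low : ∃ c X₀ : ℝ, 0 < c ∧ 1 ≤ X₀ ∧ ∀ (t : Bool) (D0 : ℕ) (z X : ℝ), 1 ≤ D0 → X₀ ≤ X → X ≤ z →
    c * PR t ((D0 : ℝ) + 1) X ≤ BB (xr D0 z) (gX t X) := by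
  classical
  obtain ⟨C, hC, hm⟩ := Pool.Agent.Wb58c63.mertens_one
  obtain ⟨c1, C1, hc1, hC1, hall⟩ := PR_all
  refine ⟨1 / (10 * C1), Real.exp (5 * (C + 1)), by positivity, Real.one_le_exp (by positivity), fun t D0 z X hD hX hz => ?_⟩
  have hX0 : 0 < X := lt_of_lt_of_le (Real.exp_pos _) hX
  have hlX : 5 * (C + 1) ≤ Real.log X := by
    rw [Real.le_log_iff_exp_le hX0]
    exact hX
  -- the point `x`
  set L : ℝ := Real.log X / 5 with hL
  have hL1 : C + 1 ≤ L := by rw [hL]; linarith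
  have hL0 : 0 < L := by linarith
  set x : ℝ := Real.exp L with hx
  have hlx : Real.log x = L := Real.log_exp L
  have hx0 : 0 < x := Real.exp_pos _
  have hx2 : 2 ≤ x := by
    have := Real.add_one_le_exp L
    linarith
  have hxX : x ≤ X := by
    rw [hx, ← Real.le_log_iff_exp_le hX0, hL]
    linarith
  -- the places
  set T : Finset (Pl D0 z) := univ.filter fun p => (p.1 : ℝ) < x ∧ (t = true → p.1 % 4 = 3) with hT
  have hp2 : ∀ p : Pl D0 z, (2 : ℝ) ≤ p.1 := fun p => by
    exact_mod_cast (mem_PI.1 p.2).1.two_le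
  have hprod : ∏ p ∈ T, (1 + xr D0 z p) = PR t ((D0 : ℝ) + 1) x := by
    unfold PR
    have h1 : T.map ⟨Subtype.val, Subtype.val_injective⟩ =
        (PI ((D0 : ℝ) + 1) x).filter (fun p => t = true → p % 4 = 3) := by
      ext p
      rw [Finset.mem_map, mem_filter, mem_PI]
      constructor
      · rintro ⟨q, hq, rfl⟩
        have h2 := (mem_filter.1 hq).2
        have h3 := mem_PI.1 q.2
        exact ⟨⟨h3.1, h3.2.1, h2.1⟩, h2.2⟩
      · rintro ⟨⟨h1, h2, h3⟩, h4⟩
        refine ⟨⟨p, mem_PI.2 ⟨h1, h2, lt_of_lt_of_le h3 (hxX.trans hz)⟩⟩, ?_, rfl⟩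
        exact mem_filter.2 ⟨mem_univ _, h3, h4⟩
    rw [← h1, prod_map]
    rfl
  -- the lower bound
  have hstep1 : ∑ S ∈ T.powerset, (1 - X ^ (-(1 / L)) * ∏ p ∈ S, (p.1 : ℝ) ^ (1 / L)) * ∏ p ∈ S, xr D0 z p ≤
      BB (xr D0 z) (gX t X) := by
    unfold BB
    have hxr : ∀ S : Finset (Pl D0 z), 0 ≤ ∏ p ∈ S, xr D0 z p := fun S => prod_nonneg fun p _ => by
      unfold xr
      positivity
    calc _ ≤ ∑ S ∈ T.powerset, gX t X S * ∏ p ∈ S, xr D0 z p := by
          apply sum_le_sum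
          intro S hS
          apply mul_le_mul_of_nonneg_right _ (hxr S)
          have hpr : 0 ≤ X ^ (-(1 / L)) * ∏ p ∈ S, (p.1 : ℝ) ^ (1 / L) := by
            apply mul_nonneg (Real.rpow_nonneg hX0.le _)
            apply prod_nonneg
            intro p _
            positivity
          unfold gX
          by_cases hb : (nmS S : ℝ) ≤ X
          · rw [if_pos]
            · linarith
            · refine ⟨hb, fun p hp => ?_⟩
              exact (mem_filter.1 (mem_powerset.1 hS hp)).2.2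
          · rw [if_neg (fun h => hb h.1)]
            have h1 : ∏ p ∈ S, (p.1 : ℝ) ^ (1 / L) = (nmS S : ℝ) ^ (1 / L) := by
              unfold nmS
              push_cast
              rw [Real.finsetProd_rpow]
              intro p _
              positivity
            rw [h1, Real.rpow_neg hX0.le, sub_nonpos]
            have h2 : X ^ (1 / L) ≤ (nmS S : ℝ) ^ (1 / L) :=
              Real.rpow_le_rpow hX0.le (not_le.1 hb).le (by positivity)
            have h3 : 0 < X ^ (1 / L) := Real.rpow_pos_of_pos hX0 _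
            rw [inv_mul_eq_div, le_div_iff₀ h3]
            linarith
      _ ≤ _ := by
          apply sum_le_sum_of_subset_of_nonneg (subset_univ _)
          intro S _ _
          apply mul_nonneg _ (hxr S)
          unfold gX
          split_ifs <;> norm_num
  refine le_trans ?_ hstep1
  have hexp : ∑ S ∈ T.powerset, (1 - X ^ (-(1 / L)) * ∏ p ∈ S, (p.1 : ℝ) ^ (1 / L)) * ∏ p ∈ S, xr D0 z p =
      ∏ p ∈ T, (1 + xr D0 z p) - X ^ (-(1 / L)) * ∏ p ∈ T, (1 + (p.1 : ℝ) ^ (1 / L) * xr D0 z p) := by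
    rw [Finset.prod_one_add, Finset.prod_one_add, mul_sum, ← sum_sub_distrib]
    apply sum_congr rfl
    intro S _
    rw [prod_mul_distrib]
    ring
  rw [hexp]
  have hXL : X ^ (-(1 / L)) = Real.exp (-5) := by
    rw [Real.rpow_def_of_pos hX0]
    congr 1
    rw [hL]
    have : Real.log X ≠ 0 := by linarith
    field_simp
  have hrp : ∀ p : Pl D0 z, (p.1 : ℝ) ^ (1 / L) = Real.exp (Real.log p.1 / L) := fun p => by
    rw [Real.rpow_def_of_pos (by linarith [hp2 p])]
    congr 1
    ring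
  have hlp : ∀ p : Pl D0 z, 0 ≤ Real.log p.1 := fun p => Real.log_nonneg (by linarith [hp2 p])
  have hup : ∏ p ∈ T, (1 + (p.1 : ℝ) ^ (1 / L) * xr D0 z p) ≤ Real.exp 4 * ∏ p ∈ T, (1 + xr D0 z p) := by
    have h1 : ∏ p ∈ T, (1 + (p.1 : ℝ) ^ (1 / L) * xr D0 z p) ≤
        ∏ p ∈ T, (Real.exp (((p.1 : ℝ) ^ (1 / L) - 1) / p.1) * (1 + xr D0 z p)) := by
      apply Finset.prod_le_prod
      · intro p _
        unfold xr
        positivity
      · intro p _
        have hp0 : (0 : ℝ) < p.1 := by linarith [hp2 p]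
        have h2 := Real.add_one_le_exp (((p.1 : ℝ) ^ (1 / L) - 1) / p.1)
        have h3 : 1 ≤ (p.1 : ℝ) ^ (1 / L) := by
          rw [hrp p]
          exact Real.one_le_exp (div_nonneg (hlp p) hL0.le)
        have h4 : 0 ≤ ((p.1 : ℝ) ^ (1 / L) - 1) / p.1 := div_nonneg (by linarith) hp0.le
        have h5 : (p.1 : ℝ) ^ (1 / L) * xr D0 z p = ((p.1 : ℝ) ^ (1 / L) - 1) / p.1 + xr D0 z p := by
          unfold xr
          field_simp
          ring
        have h6 : 0 ≤ xr D0 z p := by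
          unfold xr
          positivity
        rw [h5]
        nlinarith
    refine h1.trans ?_
    rw [prod_mul_distrib, ← Real.exp_sum]
    apply mul_le_mul_of_nonneg_right
    · rw [Real.exp_le_exp]
      have h2 : ∀ p ∈ T, ((p.1 : ℝ) ^ (1 / L) - 1) / p.1 ≤ 2 / L * (Real.log p.1 / p.1) := by
        intro p hp
        have hp0 : (0 : ℝ) < p.1 := by linarith [hp2 p]
        have hpx := (mem_filter.1 hp).2.1
        have h3 : Real.log p.1 ≤ L := by
          rw [← hlx]
          exact Real.log_le_log hp0 hpx.le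
        have h4 := AR4b_conv (Real.log p.1) L (hlp p) hL0 h3
        have h5 : Real.exp 1 - 1 ≤ 2 := by
          have := Real.exp_one_lt_d9
          linarith
        have h6 : 0 ≤ Real.log p.1 / L := div_nonneg (hlp p) hL0.le
        rw [hrp p]
        have h7 : Real.exp (Real.log p.1 / L) - 1 ≤ 2 * (Real.log p.1 / L) := by nlinarith
        calc (Real.exp (Real.log p.1 / L) - 1) / p.1 ≤ 2 * (Real.log p.1 / L) / p.1 :=
              div_le_div_of_nonneg_right h7 hp0.le
          _ = _ := by ring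
      refine (sum_le_sum h2).trans ?_
      rw [← mul_sum]
      have h3 : ∑ p ∈ T, Real.log p.1 / (p.1 : ℝ) ≤ ∑ p ∈ PI 0 x, Real.log p / (p : ℝ) := by
        have h4 : ∑ p ∈ T, Real.log p.1 / (p.1 : ℝ) =
            ∑ p ∈ T.map ⟨Subtype.val, Subtype.val_injective⟩, Real.log p / (p : ℝ) := by
          rw [sum_map]
          rfl
        rw [h4]
        apply sum_le_sum_of_subset_of_nonneg
        · intro p hp
          obtain ⟨q, hq, rfl⟩ := Finset.mem_map.1 hp
          have h5 := mem_PI.1 q.2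
          exact mem_PI.2 ⟨h5.1, by positivity, (mem_filter.1 hq).2.1⟩
        · intro p hp _
          exact div_nonneg (Real.log_natCast_nonneg p) (Nat.cast_nonneg p)
      have h4 := (abs_le.1 (hm x hx2)).2
      rw [hlx] at h4
      have h5 : ∑ p ∈ T, Real.log p.1 / (p.1 : ℝ) ≤ 2 * L := by linarith
      calc 2 / L * ∑ p ∈ T, Real.log p.1 / (p.1 : ℝ) ≤ 2 / L * (2 * L) :=
            mul_le_mul_of_nonneg_left h5 (by positivity)
        _ = 4 := by field_simp; norm_num
    · apply prod_nonneg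
      intro p _
      unfold xr
      positivity
  rw [hXL]
  rw [hprod] at hup ⊢
  have hP1 : 0 < PR t ((D0 : ℝ) + 1) x := PR_pos _ _ _
  have h1 : Real.exp (-5) * ∏ p ∈ T, (1 + (p.1 : ℝ) ^ (1 / L) * xr D0 z p) ≤ 1 / 2 * PR t ((D0 : ℝ) + 1) x := by
    calc _ ≤ Real.exp (-5) * (Real.exp 4 * PR t ((D0 : ℝ) + 1) x) := mul_le_mul_of_nonneg_left hup (Real.exp_pos _).le
      _ = Real.exp (-1) * PR t ((D0 : ℝ) + 1) x := by
          rw [← mul_assoc, ← Real.exp_add]
          norm_num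
      _ ≤ _ := by
          apply mul_le_mul_of_nonneg_right _ hP1.le
          rw [Real.exp_neg, one_div]
          apply inv_anti₀ (by norm_num)
          have := Real.add_one_le_exp (1 : ℝ)
          linarith
  have h2 := AR4b_split t ((D0 : ℝ) + 1) x X hxX
  have h3 : PR false x X ≤ C1 * 5 := by
    refine ((hall x X hx2 hxX).2).trans (le_of_eq ?_)
    rw [hlx, hL]
    have : Real.log X ≠ 0 := by linarith
    field_simp
  have h4 : PR t ((D0 : ℝ) + 1) X ≤ PR t ((D0 : ℝ) + 1) x * (C1 * 5) :=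
    h2.trans (mul_le_mul_of_nonneg_left h3 hP1.le)
  have h5 : 1 / (10 * C1) * PR t ((D0 : ℝ) + 1) X ≤ 1 / 2 * PR t ((D0 : ℝ) + 1) x := by
    calc _ ≤ 1 / (10 * C1) * (PR t ((D0 : ℝ) + 1) x * (C1 * 5)) := mul_le_mul_of_nonneg_left h4 (by positivity)
      _ = _ := by field_simp; norm_num
  linarith

end Pool.Agent.Wd33b62
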