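import Pool.Agent.W_d33b62_h36.AR0
import Pool.Agent.W_d33b62_h36.MM6

/-!
# One-dimensional sums (helper36, MP_d33b62_nt)
-/

set_option autoImplicit false

noncomputable section

open Finset Filter

namespace Pool.Agent.Wd33b62

open Pool.Agent.Wb58c63 (PI mem_PI VP ap Pr XM)

theorem AR4c_prod (S : Finset ℕ) (a : ℕ → ℝ) (h0 : ∀ p ∈ S, 0 ≤ a p) (h1 : ∀ p ∈ S, a p ≤ 1) :
    1 - ∑ p ∈ S, a p ≤ ∏ p ∈ S, (1 - a p) ∧ ∏ p ∈ S, (1 - a p) ≤ 1 := by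
  classical
  induction S using Finset.induction_on with
  | empty => simp
  | insert p S hp ih =>
    obtain ⟨i1, i2⟩ := ih (fun q hq => h0 q (mem_insert_of_mem hq)) fun q hq => h1 q (mem_insert_of_mem hq)
    have e0 := h0 p (mem_insert_self p S)
    have e1 := h1 p (mem_insert_self p S)
    have e2 : 0 ≤ ∏ q ∈ S, (1 - a q) :=
      prod_nonneg fun q hq => by linarith [h1 q (mem_insert_of_mem hq)]
    rw [prod_insert hp, sum_insert hp]
    constructor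
    · nlinarith
    · nlinarith

/-- **The Euler product of the half-dimensional sieve**: `(1 - 1 / (p - K)) (1 + 1 / p) = 1 + O_K (1 / p ^ 2)` and the primes are
larger than `D0 ≥ D1(k)`. -/
theorem v0_bounds : ∃ c C : ℝ, 0 < c ∧ 0 < C ∧ ∀ k : ℕ, ∃ D1 : ℕ, ∀ d : AData k, D1 ≤ d.D0 → ∀ η Y : ℝ,
    c ≤ V0 d η Y * PR true ((d.D0 : ℝ) + 1) (ZZ η Y) ∧ V0 d η Y * PR true ((d.D0 : ℝ) + 1) (ZZ η Y) ≤ C ∧
      0 < V0 d η Y := by
  refine ⟨1 / 2, 1, by norm_num, one_pos, fun k => ?_⟩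
  obtain ⟨K, eK⟩ : ∃ K : ℕ, K = k + k ^ 2 - 1 := ⟨_, rfl⟩
  refine ⟨4 * (K + 1), fun d hd η Y => ?_⟩
  set z := ZZ η Y with hz
  set S : Finset ℕ := (PS d.D0 z).filter fun p => p % 4 = 3 with hS
  have hKn : (0 : ℝ) ≤ K := Nat.cast_nonneg K
  have hp : ∀ p ∈ S, 4 * (K : ℝ) + 5 ≤ p := by
    intro p hp
    have h1 := (mem_PI.1 (mem_filter.1 hp).1).2.1
    have h2 : ((4 * (K + 1) : ℕ) : ℝ) ≤ d.D0 := by exact_mod_cast hd
    push_cast at h2
    linarith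
  have e1 : V0 d η Y = ∏ p ∈ S, (1 - 1 / ((p : ℝ) - K)) := by
    unfold V0 VP hK
    rw [← eK]
  have e2 : PR true ((d.D0 : ℝ) + 1) z = ∏ p ∈ S, (1 + 1 / (p : ℝ)) := by
    unfold PR
    apply prod_congr _ fun _ _ => rfl
    rw [hS]
    unfold PS
    apply filter_congr
    intro p _
    simp
  have e3 : V0 d η Y * PR true ((d.D0 : ℝ) + 1) z =
      ∏ p ∈ S, (1 - ((K : ℝ) + 1) / (((p : ℝ) - K) * p)) := by
    rw [e1, e2, ← prod_mul_distrib]
    apply prod_congr rfl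
    intro p hp'
    have h1 := hp p hp'
    have h2 : (0 : ℝ) < p := by linarith
    have h3 : (0 : ℝ) < (p : ℝ) - K := by linarith
    field_simp
    ring
  have h0 : ∀ p ∈ S, 0 ≤ ((K : ℝ) + 1) / (((p : ℝ) - K) * p) := by
    intro p hp'
    have h1 := hp p hp'
    apply div_nonneg (by linarith)
    apply mul_nonneg <;> linarith
  have h1 : ∀ p ∈ S, ((K : ℝ) + 1) / (((p : ℝ) - K) * p) ≤ 2 * (K + 1) * (1 / ((p : ℝ) * (p - 1))) := by
    intro p hp'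
    have h1 := hp p hp'
    have h2 : (0 : ℝ) < p := by linarith
    have h3 : (0 : ℝ) < (p : ℝ) - K := by linarith
    have h4 : (0 : ℝ) < (p : ℝ) - 1 := by linarith
    rw [div_eq_mul_one_div, mul_comm (2 : ℝ), mul_assoc]
    apply mul_le_mul_of_nonneg_left _ (by linarith)
    rw [mul_one_div, div_le_div_iff₀ (by positivity) (by positivity)]
    nlinarith
  have h2 : ∑ p ∈ S, ((K : ℝ) + 1) / (((p : ℝ) - K) * p) ≤ 1 / 2 := by
    have hD2 : 2 ≤ d.D0 + 1 := by have := d.D0_ge; omega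
    have h3 := Pool.Agent.Wb58c63.arb_tail (d.D0 + 1) hD2 ⌈z⌉₊
    have h4 : ∑ p ∈ S, (1 : ℝ) / ((p : ℝ) * (p - 1)) ≤ ∑ n ∈ Icc (d.D0 + 1) ⌈z⌉₊, (1 : ℝ) / (n * (n - 1)) := by
      apply sum_le_sum_of_subset_of_nonneg
      · intro p hp'
        obtain ⟨a1, a2, a3⟩ := mem_PI.1 (mem_filter.1 hp').1
        rw [mem_Icc]
        have a4 : (p : ℝ) < ⌈z⌉₊ := lt_of_lt_of_le a3 (Nat.le_ceil z)
        have a5 : p < ⌈z⌉₊ := by exact_mod_cast a4
        have a6 : d.D0 + 1 ≤ p := by exact_mod_cast a2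
        exact ⟨a6, a5.le⟩
      · intro n hn _
        have hn2 : ((d.D0 + 1 : ℕ) : ℝ) ≤ n := by exact_mod_cast (mem_Icc.1 hn).1
        have hn3 : ((2 : ℕ) : ℝ) ≤ ((d.D0 + 1 : ℕ) : ℝ) := by exact_mod_cast hD2
        push_cast at hn3
        apply div_nonneg (by norm_num)
        apply mul_nonneg <;> push_cast at hn2 <;> linarith
    have h5 := h4.trans h3
    have hD : (4 : ℝ) * (K + 1) ≤ d.D0 := by exact_mod_cast hd
    have hDp : (0 : ℝ) < d.D0 := by linarith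
    have h6 : ∑ p ∈ S, (1 : ℝ) / ((p : ℝ) * (p - 1)) ≤ 1 / d.D0 := by
      refine h5.trans (le_of_eq ?_)
      push_cast
      congr 1
      ring
    calc ∑ p ∈ S, ((K : ℝ) + 1) / (((p : ℝ) - K) * p) ≤ ∑ p ∈ S, 2 * ((K : ℝ) + 1) * (1 / ((p : ℝ) * (p - 1))) :=
          sum_le_sum h1
      _ = 2 * ((K : ℝ) + 1) * ∑ p ∈ S, (1 / ((p : ℝ) * (p - 1))) := by rw [mul_sum]
      _ ≤ 2 * ((K : ℝ) + 1) * (1 / d.D0) := mul_le_mul_of_nonneg_left h6 (by linarith)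
      _ ≤ 1 / 2 := by
          rw [mul_one_div, div_le_iff₀ hDp]
          linarith
  have h3 : ∀ p ∈ S, ((K : ℝ) + 1) / (((p : ℝ) - K) * p) ≤ 1 := fun p hp' =>
    (single_le_sum h0 hp').trans (h2.trans (by norm_num))
  obtain ⟨i1, i2⟩ := AR4c_prod S (fun p => ((K : ℝ) + 1) / (((p : ℝ) - K) * p)) h0 h3
  refine ⟨?_, ?_, ?_⟩
  · rw [e3]
    linarith
  · rw [e3]
    exact i2
  · rw [e1]
    apply prod_pos
    intro p hp'
    have h4 := hp p hp'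
    have h5 : (1 : ℝ) < (p : ℝ) - K := by linarith
    have h6 : 1 / ((p : ℝ) - K) < 1 := by
      rw [div_lt_one (by linarith)]
      exact h5
    linarith

/-- A weak lower bound which absorbs error terms: for fixed data `V0 ≥ c / log Y`. -/
theorem V0_weak {k : ℕ} : ∃ D1 : ℕ, ∀ d : AData k, D1 ≤ d.D0 → ∀ η : ℝ, 0 < η → η ≤ 1 / 200 → ∀ᶠ Y : ℝ in atTop,
    1 / Real.log Y ≤ V0 d η Y := by
  obtain ⟨c, C', hc, _, h⟩ := v0_bounds
  obtain ⟨c', C, hc', hC, hP⟩ := PR_inert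
  obtain ⟨D1, hD1⟩ := h k
  refine ⟨D1, fun d hd η hη hη' => ?_⟩
  have hexp : 0 < (1 / 2 - 6 * η) / (1 + η) := div_pos (by linarith) (by linarith)
  have hexp1 : (1 / 2 - 6 * η) / (1 + η) ≤ 1 := by
    rw [div_le_one (by linarith)]
    linarith
  have hl2 : 0 < Real.log 2 := Real.log_pos (by norm_num)
  have t1 : ∀ᶠ Y : ℝ in atTop, (d.D0 : ℝ) + 1 ≤ ZZ η Y :=
    (tendsto_rpow_atTop hexp).eventually_ge_atTop _
  have t2 : ∀ᶠ Y : ℝ in atTop, C ^ 2 / (c ^ 2 * Real.log 2) + 1 ≤ Real.log Y :=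
    Real.tendsto_log_atTop.eventually_ge_atTop _
  filter_upwards [t1, t2, eventually_ge_atTop (2 : ℝ)] with Y h1 h2 h3
  obtain ⟨g1, g2, g3⟩ := hD1 d hd η Y
  have hu : (2 : ℝ) ≤ (d.D0 : ℝ) + 1 := by
    have : (2 : ℝ) ≤ d.D0 := by exact_mod_cast d.D0_ge
    linarith
  obtain ⟨_, p2⟩ := hP ((d.D0 : ℝ) + 1) (ZZ η Y) hu h1
  have hPpos : 0 < PR true ((d.D0 : ℝ) + 1) (ZZ η Y) := PR_pos _ _ _
  have hL : 0 < Real.log Y := Real.log_pos (by linarith)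
  have hz : Real.log (ZZ η Y) ≤ Real.log Y := by
    unfold ZZ
    rw [Real.log_rpow (by linarith)]
    nlinarith
  have hlu : Real.log 2 ≤ Real.log ((d.D0 : ℝ) + 1) := Real.log_le_log (by norm_num) hu
  have h4 : Real.log (ZZ η Y) / Real.log ((d.D0 : ℝ) + 1) ≤ Real.log Y / Real.log 2 :=
    div_le_div₀ hL.le hz hl2 hlu
  have h5 : √(Real.log (ZZ η Y) / Real.log ((d.D0 : ℝ) + 1)) ≤ c * Real.log Y / C := by
    refine (Real.sqrt_le_sqrt h4).trans ?_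
    rw [Real.sqrt_le_left (by positivity)]
    rw [div_pow, mul_pow, div_le_div_iff₀ hl2 (by positivity)]
    have h6 : C ^ 2 / (c ^ 2 * Real.log 2) ≤ Real.log Y := by linarith
    rw [div_le_iff₀ (by positivity)] at h6
    nlinarith
  have h6 : PR true ((d.D0 : ℝ) + 1) (ZZ η Y) ≤ c * Real.log Y := by
    refine p2.trans ?_
    calc C * √(Real.log (ZZ η Y) / Real.log ((d.D0 : ℝ) + 1)) ≤ C * (c * Real.log Y / C) :=
          mul_le_mul_of_nonneg_left h5 hC.le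
      _ = c * Real.log Y := by field_simp
  rw [div_le_iff₀ hL]
  have h7 : PR true ((d.D0 : ℝ) + 1) (ZZ η Y) ≤ V0 d η Y * PR true ((d.D0 : ℝ) + 1) (ZZ η Y) * Real.log Y :=
    h6.trans (mul_le_mul_of_nonneg_right g1 hL.le)
  have h8 : PR true ((d.D0 : ℝ) + 1) (ZZ η Y) * 1 ≤
      PR true ((d.D0 : ℝ) + 1) (ZZ η Y) * (V0 d η Y * Real.log Y) := by
    rw [mul_one]
    calc _ ≤ _ := h7
      _ = _ := by ring
  exact le_of_mul_le_mul_left h8 hPpos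

end Pool.Agent.Wd33b62
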