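import Pool.Agent.W_d33b62_h36.AR4a
import Pool.Agent.W_d33b62_h36.AR4b
import Pool.Agent.W_d33b62_h36.AR4c

/-!
# One-dimensional sums (helper36, MP_d33b62_nt)
-/

set_option autoImplicit false

noncomputable section

open Finset Filter

namespace Pool.Agent.Wd33b62

open Pool.Agent.Wb58c63 (PI mem_PI VP ap Pr XM)

theorem AR4d_tend (a : ℝ) (ha : 0 < a) (b : ℝ) : ∀ᶠ Y : ℝ in atTop, b ≤ Y ^ a :=
  (tendsto_rpow_atTop ha).eventually_ge_atTop b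

theorem AR4d_rho (η : ℝ) (h0 : 0 < η) (h1 : η ≤ 1 / 200) :
    1 / 4 ≤ (1 / 2 - 6 * η) / (1 + η) ∧ (1 / 2 - 6 * η) / (1 + η) ≤ 1 / 2 := by
  constructor
  · rw [le_div_iff₀ (by linarith)]
    linarith
  · rw [div_le_iff₀ (by linarith)]
    linarith

/-- **The quantity `X = V0 G0`**: `G0` is of the order `PR true (D0 + 1) E` (`bb_up`, `bb_low`), `V0` of the order
`1 / PR true (D0 + 1) z`; the quotient is `1 / PR true E z` (`PR_mul`), of the order `√(log E / log z)` (`PR_inert`), and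
`log E / log z = η τ ^ 2 / k ^ 2 * (1 + η) / (1 / 2 - 6 η)`, where the last factor is between `2` and `3`. -/
theorem X_bounds : ∃ c C : ℝ, 0 < c ∧ 0 < C ∧ ∀ k : ℕ, 0 < k → ∃ D1 : ℕ, ∀ d : AData k, D1 ≤ d.D0 →
    ∀ η τ : ℝ, 0 < η → η ≤ 1 / 200 → 0 < τ → τ ≤ 1 → ∀ᶠ Y : ℝ in atTop,
      c * (τ * √η / k) ≤ V0 d η Y * G0 d η τ Y ∧ V0 d η Y * G0 d η τ Y ≤ C * (τ * √η / k) := by
  obtain ⟨c1, X0, hc1, hX0, h1⟩ := bb_low
  obtain ⟨c2, C2, hc2, hC2, h2⟩ := v0_bounds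
  obtain ⟨c3, C3, hc3, hC3, h3⟩ := PR_inert
  refine ⟨c1 * c2 / C3, 4 * C2 / c3, by positivity, by positivity, fun k hk => ?_⟩
  obtain ⟨D1, hD1⟩ := h2 k
  refine ⟨D1, fun d hd η τ hη hη1 hτ hτ1 => ?_⟩
  have hk0 : (0 : ℝ) < k := by exact_mod_cast hk
  have hk1 : (1 : ℝ) ≤ k := by exact_mod_cast hk
  have hs0 : 0 < √η := Real.sqrt_pos.2 hη
  have hss : √η * √η = η := Real.mul_self_sqrt hη.le
  have he0 : 0 < η * τ ^ 2 / (k : ℝ) ^ 2 := by positivity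
  obtain ⟨r1, r2⟩ := AR4d_rho η hη hη1
  have he1 : η * τ ^ 2 / (k : ℝ) ^ 2 ≤ 1 / 200 := by
    rw [div_le_iff₀ (by positivity)]
    have a1 : τ ^ 2 ≤ 1 := by nlinarith
    have a2 : 1 ≤ (k : ℝ) ^ 2 := one_le_pow₀ hk1
    have a3 : η * τ ^ 2 ≤ 1 / 200 * 1 := mul_le_mul hη1 a1 (by positivity) (by norm_num)
    linarith
  filter_upwards [AR4d_tend _ he0 (max X0 ((d.D0 : ℝ) + 1)), eventually_ge_atTop (2 : ℝ)] with Y hY hY2
  have hE0 : X0 ≤ EE η τ k Y := (le_max_left _ _).trans hY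
  have hE1 : (d.D0 : ℝ) + 1 ≤ EE η τ k Y := (le_max_right _ _).trans hY
  have hD2 : (2 : ℝ) ≤ d.D0 := by exact_mod_cast d.D0_ge
  have hY1 : (1 : ℝ) ≤ Y := by linarith
  have hEz : EE η τ k Y ≤ ZZ η Y := Real.rpow_le_rpow_of_exponent_le hY1 (by linarith)
  have hE2 : 2 ≤ EE η τ k Y := by linarith
  have hlY : 0 < Real.log Y := Real.log_pos (by linarith)
  obtain ⟨v1, v2, v3⟩ := hD1 d hd η Y
  have g1 := h1 true d.D0 (ZZ η Y) (EE η τ k Y) (by linarith [d.D0_ge]) hE0 hEz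
  have g2 := bb_up true d.D0 (ZZ η Y) (EE η τ k Y) (by linarith [d.D0_ge]) (by linarith)
  have hm := PR_mul true ((d.D0 : ℝ) + 1) (EE η τ k Y) (ZZ η Y) hE1 hEz
  obtain ⟨p1, p2⟩ := h3 (EE η τ k Y) (ZZ η Y) hE2 hEz
  have hP1 := PR_pos true ((d.D0 : ℝ) + 1) (EE η τ k Y)
  have hP2 := PR_pos true (EE η τ k Y) (ZZ η Y)
  rw [← hm] at v1 v2
  have hG : G0 d η τ Y = BB (xr d.D0 (ZZ η Y)) (gX true (EE η τ k Y)) := rfl
  obtain ⟨q, hq⟩ : ∃ q, q = √(Real.log (ZZ η Y) / Real.log (EE η τ k Y)) := ⟨_, rfl⟩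
  rw [← hq] at p1 p2
  obtain ⟨w, hw⟩ : ∃ w, w = (k : ℝ) / (τ * √η) := ⟨_, rfl⟩
  have hw0 : 0 < w := by rw [hw]; positivity
  have hlq : Real.log (ZZ η Y) / Real.log (EE η τ k Y) = (1 / 2 - 6 * η) / (1 + η) * w ^ 2 := by
    unfold ZZ EE
    rw [Real.log_rpow (by linarith), Real.log_rpow (by linarith), hw]
    have hsq : (τ * √η) ^ 2 = η * τ ^ 2 := by
      rw [mul_pow, sq (√η), hss]
      ring
    rw [div_pow, hsq]
    field_simp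
  have hq1 : 1 / 2 * w ≤ q := by
    rw [hq]
    apply Real.le_sqrt_of_sq_le
    rw [hlq, mul_pow]
    apply mul_le_mul_of_nonneg_right _ (by positivity)
    linarith
  have hq2 : q ≤ w := by
    rw [hq, hlq]
    apply Real.sqrt_le_iff.2
    refine ⟨hw0.le, ?_⟩
    have : 0 ≤ w ^ 2 := by positivity
    nlinarith
  have hw' : τ * √η / k = 1 / w := by
    rw [hw, one_div_div]
  rw [hw', hG]
  obtain ⟨V, hV⟩ : ∃ V, V = V0 d η Y := ⟨_, rfl⟩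
  obtain ⟨B, hB⟩ : ∃ B, B = BB (xr d.D0 (ZZ η Y)) (gX true (EE η τ k Y)) := ⟨_, rfl⟩
  rw [← hV] at v1 v2 v3 ⊢
  rw [← hB] at g1 g2 ⊢
  set P := PR true ((d.D0 : ℝ) + 1) (EE η τ k Y) with hPdef
  set Q := PR true (EE η τ k Y) (ZZ η Y) with hQdef
  have hQ1 : c3 * (1 / 2 * w) ≤ Q := (mul_le_mul_of_nonneg_left hq1 hc3.le).trans p1
  have hQ2 : Q ≤ C3 * w := p2.trans (mul_le_mul_of_nonneg_left hq2 hC3.le)
  constructor
  · -- lower bound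
    have a1 : c2 / Q ≤ V * P := by
      rw [div_le_iff₀ hP2]
      linarith
    have a2 : c2 / (C3 * w) ≤ c2 / Q := div_le_div_of_nonneg_left hc2.le hP2 hQ2
    calc c1 * c2 / C3 * (1 / w) = c1 * (c2 / (C3 * w)) := by field_simp
      _ ≤ c1 * (V * P) := mul_le_mul_of_nonneg_left (a2.trans a1) hc1.le
      _ = V * (c1 * P) := by ring
      _ ≤ V * B := mul_le_mul_of_nonneg_left g1 v3.le
  · have a1 : V * P ≤ C2 / Q := by
      rw [le_div_iff₀ hP2]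
      linarith
    have a2 : C2 / Q ≤ C2 / (c3 * (1 / 2 * w)) := div_le_div_of_nonneg_left hC2.le (by positivity) hQ1
    calc V * B ≤ V * (2 * P) := mul_le_mul_of_nonneg_left g2 v3.le
      _ = 2 * (V * P) := by ring
      _ ≤ 2 * (C2 / (c3 * (1 / 2 * w))) := mul_le_mul_of_nonneg_left (a1.trans a2) (by norm_num)
      _ = 4 * C2 / c3 * (1 / w) := by
        field_simp
        norm_num

/-- The inert majorant sum: `bb_low`, `v0_bounds`, `PR true (ES) (ZZ) ≤ C`. -/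
theorem GI_low : ∃ c : ℝ, 0 < c ∧ ∀ k : ℕ, ∃ D1 : ℕ, ∀ d : AData k, D1 ≤ d.D0 → ∀ η : ℝ, 0 < η → η ≤ 1 / 200 →
    ∀ᶠ Y : ℝ in atTop, c ≤ V0 d η Y * BB (xY d η Y) (gX true (ES Y)) := by
  obtain ⟨c1, X0, hc1, hX0, h1⟩ := bb_low
  obtain ⟨c2, C2, hc2, hC2, h2⟩ := v0_bounds
  obtain ⟨c3, C3, hc3, hC3, h3⟩ := PR_inert
  refine ⟨c1 * (c2 / (C3 * 5)), by positivity, fun k => ?_⟩
  obtain ⟨D1, hD1⟩ := h2 k
  refine ⟨D1, fun d hd η hη hη1 => ?_⟩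
  obtain ⟨r1, r2⟩ := AR4d_rho η hη hη1
  filter_upwards [AR4d_tend (1 / 50) (by norm_num) (max X0 ((d.D0 : ℝ) + 1)), eventually_ge_atTop (2 : ℝ)] with Y hY hY2
  have hE0 : X0 ≤ ES Y := (le_max_left _ _).trans hY
  have hE1 : (d.D0 : ℝ) + 1 ≤ ES Y := (le_max_right _ _).trans hY
  have hD2 : (2 : ℝ) ≤ d.D0 := by exact_mod_cast d.D0_ge
  have hY1 : (1 : ℝ) ≤ Y := by linarith
  have hEz : ES Y ≤ ZZ η Y := Real.rpow_le_rpow_of_exponent_le hY1 (by linarith)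
  have hE2 : 2 ≤ ES Y := by linarith
  have hlY : 0 < Real.log Y := Real.log_pos (by linarith)
  obtain ⟨v1, v2, v3⟩ := hD1 d hd η Y
  have g1 := h1 true d.D0 (ZZ η Y) (ES Y) (by linarith [d.D0_ge]) hE0 hEz
  have hm := PR_mul true ((d.D0 : ℝ) + 1) (ES Y) (ZZ η Y) hE1 hEz
  obtain ⟨p1, p2⟩ := h3 (ES Y) (ZZ η Y) hE2 hEz
  have hP2 := PR_pos true (ES Y) (ZZ η Y)
  rw [← hm] at v1 v2
  have hq : √(Real.log (ZZ η Y) / Real.log (ES Y)) ≤ 5 := by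
    apply Real.sqrt_le_iff.2
    refine ⟨by norm_num, ?_⟩
    unfold ZZ ES
    rw [Real.log_rpow (by linarith), Real.log_rpow (by linarith), mul_div_mul_right _ _ hlY.ne',
      div_le_iff₀ (by norm_num)]
    linarith
  have hQ2 : PR true (ES Y) (ZZ η Y) ≤ C3 * 5 := p2.trans (mul_le_mul_of_nonneg_left hq hC3.le)
  have a1 : c2 / PR true (ES Y) (ZZ η Y) ≤ V0 d η Y * PR true ((d.D0 : ℝ) + 1) (ES Y) := by
    rw [div_le_iff₀ hP2]
    linarith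
  have a2 : c2 / (C3 * 5) ≤ c2 / PR true (ES Y) (ZZ η Y) := div_le_div_of_nonneg_left hc2.le hP2 hQ2
  calc c1 * (c2 / (C3 * 5)) ≤ c1 * (V0 d η Y * PR true ((d.D0 : ℝ) + 1) (ES Y)) :=
        mul_le_mul_of_nonneg_left (a2.trans a1) hc1.le
    _ = V0 d η Y * (c1 * PR true ((d.D0 : ℝ) + 1) (ES Y)) := by ring
    _ ≤ V0 d η Y * BB (xY d η Y) (gX true (ES Y)) := mul_le_mul_of_nonneg_left g1 v3.le

end Pool.Agent.Wd33b62
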