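import Pool.Agent.W_d33b62_h36.MM6

/-!
# Mertens estimates for the residue classes modulo 4 (helper36, MP_d33b62_nt)
-/

set_option autoImplicit false

noncomputable section

open Finset

namespace Pool.Agent.Wd33b62

open Pool.Agent.Wb58c63 (PI mem_PI VP below)

/-- `∏ (1 - 1 / p ^ 2) ≥ 1 / 2`. -/
private theorem MM7_aux (N : ℕ) (hN : 1 ≤ N) : ∀ S : Finset ℕ, S ⊆ Icc 2 N →
    ((N : ℝ) + 1) / (2 * N) ≤ ∏ p ∈ S, (1 - 1 / (p : ℝ) ^ 2) := by
  induction N, hN using Nat.le_induction with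
  | base =>
    intro S hS
    have h1 : S = ∅ := by
      rw [Finset.eq_empty_iff_forall_notMem]
      intro p hp
      have := mem_Icc.1 (hS hp)
      omega
    rw [h1, prod_empty]
    norm_num
  | succ N hN ih =>
    intro S hS
    have hN0 : (0 : ℝ) < N := by exact_mod_cast hN
    push_cast
    by_cases hm : N + 1 ∈ S
    · have h1 := ih (S.erase (N + 1)) (by
        intro p hp
        have h2 := mem_erase.1 hp
        have h3 := mem_Icc.1 (hS h2.2)
        have h4 := h2.1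
        exact mem_Icc.2 ⟨h3.1, by omega⟩)
      rw [← mul_prod_erase S _ hm]
      push_cast
      have h5 : (0 : ℝ) ≤ 1 - 1 / ((N : ℝ) + 1) ^ 2 := by
        rw [sub_nonneg, div_le_one (by positivity)]
        nlinarith
      refine le_trans (le_of_eq ?_) (mul_le_mul_of_nonneg_left h1 h5)
      field_simp
      ring
    · have h1 := ih S (by
        intro p hp
        have h3 := mem_Icc.1 (hS hp)
        have h4 : p ≠ N + 1 := fun h => hm (h ▸ hp)
        exact mem_Icc.2 ⟨h3.1, by omega⟩)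
      refine le_trans ?_ h1
      rw [div_le_div_iff₀ (by positivity) (by positivity)]
      nlinarith

private theorem MM7_half (N : ℕ) (hN : 1 ≤ N) (S : Finset ℕ) (hS : S ⊆ Icc 2 N) :
    1 / 2 ≤ ∏ p ∈ S, (1 - 1 / (p : ℝ) ^ 2) := by
  refine le_trans ?_ (MM7_aux N hN S hS)
  have hN0 : (0 : ℝ) < N := by exact_mod_cast hN
  rw [div_le_div_iff₀ (by positivity) (by positivity)]
  nlinarith

/-- **Mertens for `φ(W) / W`**: if the prime divisors of `W` are exactly the primes `≤ D₀`, then `φ(W) / W = ∏_{p ≤ D₀} (1 - 1 / p)`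
is of the order `1 / log D₀`. -/
theorem phi_W : ∃ c C : ℝ, 0 < c ∧ 0 < C ∧ ∀ D0 W : ℕ, 2 ≤ D0 → 0 < W → (∀ p : ℕ, p.Prime → (p ∣ W ↔ p ≤ D0)) →
    c / Real.log D0 ≤ (W.totient : ℝ) / W ∧ (W.totient : ℝ) / W ≤ C / Real.log D0 := by
  obtain ⟨c, C, hc, hC, h⟩ := PR_all
  have hl2 : 0 < Real.log 2 := Real.log_pos (by norm_num)
  refine ⟨Real.log 2 / (4 * C), Real.log 2 / c, by positivity, by positivity, fun D0 W hD hW hp => ?_⟩
  have hD0 : (2 : ℝ) ≤ D0 := by exact_mod_cast hD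
  have hlD : 0 < Real.log D0 := Real.log_pos (by linarith)
  have hWr : (W : ℝ) ≠ 0 := by exact_mod_cast hW.ne'
  -- the totient
  have hset : W.primeFactors = PI 2 ((D0 : ℝ) + 1) := by
    ext p
    rw [Nat.mem_primeFactors, mem_PI]
    constructor
    · rintro ⟨h1, h2, _⟩
      refine ⟨h1, by exact_mod_cast h1.two_le, ?_⟩
      have := (hp p h1).1 h2
      have : (p : ℝ) ≤ D0 := by exact_mod_cast this
      linarith
    · rintro ⟨h1, _, h3⟩
      refine ⟨h1, (hp p h1).2 ?_, hW.ne'⟩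
      have : p < D0 + 1 := by exact_mod_cast h3
      omega
  have htot : (W.totient : ℝ) / W = ∏ p ∈ PI 2 ((D0 : ℝ) + 1), (1 - 1 / (p : ℝ)) := by
    have h1 := Nat.totient_eq_mul_prod_factors W
    have h2 : (W.totient : ℝ) = W * ∏ p ∈ W.primeFactors, (1 - (p : ℝ)⁻¹) := by
      have h3 := congrArg (Rat.cast : ℚ → ℝ) h1
      push_cast at h3
      exact h3
    rw [h2, mul_div_cancel_left₀ _ hWr, hset]
    exact prod_congr rfl fun p _ => by rw [one_div]
  set S := PI 2 ((D0 : ℝ) + 1) with hS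
  have hPR : PR false 2 ((D0 : ℝ) + 1) = ∏ p ∈ S, (1 + 1 / (p : ℝ)) := by
    unfold PR
    rw [Finset.filter_true_of_mem]
    intro p _ hf
    exact absurd hf (by decide)
  have hSp : ∀ p ∈ S, (2 : ℝ) ≤ p := fun p hp' => (mem_PI.1 hp').2.1
  have hsplit : (∏ p ∈ S, (1 - 1 / (p : ℝ))) * (∏ p ∈ S, (1 + 1 / (p : ℝ))) =
      ∏ p ∈ S, (1 - 1 / (p : ℝ) ^ 2) := by
    rw [← prod_mul_distrib]
    exact prod_congr rfl fun p _ => by ring
  have hup : ∏ p ∈ S, (1 - 1 / (p : ℝ) ^ 2) ≤ 1 := by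
    apply prod_le_one
    · intro p hp'
      have := hSp p hp'
      rw [sub_nonneg, div_le_one (by positivity)]
      nlinarith
    · intro p hp'
      have := hSp p hp'
      have : 0 ≤ 1 / (p : ℝ) ^ 2 := by positivity
      linarith
  have hlow : 1 / 2 ≤ ∏ p ∈ S, (1 - 1 / (p : ℝ) ^ 2) := by
    apply MM7_half D0 (by omega) S
    intro p hp'
    have h1 := mem_PI.1 hp'
    refine mem_Icc.2 ⟨h1.1.two_le, ?_⟩
    have : p < D0 + 1 := by exact_mod_cast h1.2.2
    omega
  obtain ⟨hb1, hb2⟩ := h 2 ((D0 : ℝ) + 1) le_rfl (by linarith)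
  rw [hPR] at hb1 hb2
  have hlz1 : Real.log D0 ≤ Real.log ((D0 : ℝ) + 1) := Real.log_le_log (by linarith) (by linarith)
  have hlz2 : Real.log ((D0 : ℝ) + 1) ≤ 2 * Real.log D0 := by
    have h1 : 2 * Real.log D0 = Real.log ((D0 : ℝ) ^ 2) := by
      rw [Real.log_pow]
      norm_num
    rw [h1]
    exact Real.log_le_log (by linarith) (by nlinarith)
  set Q := ∏ p ∈ S, (1 + 1 / (p : ℝ)) with hQ
  set R := ∏ p ∈ S, (1 - 1 / (p : ℝ)) with hR
  have hlz : 0 < Real.log ((D0 : ℝ) + 1) := by linarith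
  have hQ0 : 0 < Q := lt_of_lt_of_le (by positivity) hb1
  have hR1 : R ≤ 1 / Q := by
    rw [le_div_iff₀ hQ0]
    linarith
  have hR2 : 1 / (2 * Q) ≤ R := by
    rw [div_le_iff₀ (by positivity)]
    nlinarith
  rw [htot]
  constructor
  · refine le_trans ?_ hR2
    have h1 : Q ≤ C * (2 * Real.log D0 / Real.log 2) := by
      refine hb2.trans (mul_le_mul_of_nonneg_left ?_ hC.le)
      exact div_le_div_of_nonneg_right hlz2 hl2.le
    have h2 : Real.log 2 / (4 * C) / Real.log D0 = 1 / (2 * (C * (2 * Real.log D0 / Real.log 2))) := by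
      field_simp
      norm_num
    rw [h2]
    exact one_div_le_one_div_of_le (by positivity) (by linarith)
  · refine hR1.trans ?_
    have h1 : c * (Real.log D0 / Real.log 2) ≤ Q := by
      refine le_trans (mul_le_mul_of_nonneg_left ?_ hc.le) hb1
      exact div_le_div_of_nonneg_right hlz1 hl2.le
    have h2 : Real.log 2 / c / Real.log D0 = 1 / (c * (Real.log D0 / Real.log 2)) := by
      field_simp
    rw [h2]
    exact one_div_le_one_div_of_le (by positivity) h1

end Pool.Agent.Wd33b62
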