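import Pool.Agent.W_d33b62_h36.AR4d
import Pool.Agent.W_d33b62_h36.MM7

/-!
# One-dimensional sums (helper36, MP_d33b62_nt)
-/

set_option autoImplicit false

noncomputable section

open Finset Filter

namespace Pool.Agent.Wd33b62

open Pool.Agent.Wb58c63 (PI mem_PI VP ap Pr XM)

/-- The full majorant sum: `bb_low`, `PR_all`, `phi_W` (`φ(W) / W ≤ C / log D0`). -/
theorem GA_low : ∃ c : ℝ, 0 < c ∧ ∀ (k : ℕ) (d : AData k) (η : ℝ), 0 < η → η ≤ 1 / 200 → ∀ᶠ Y : ℝ in atTop,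
    c * ((d.W.totient : ℝ) / d.W * Real.log Y) ≤ BB (xY d η Y) (gX false (ES Y)) := by
  obtain ⟨c1, X0, hc1, hX0, h1⟩ := bb_low
  obtain ⟨c4, C4, hc4, hC4, h4⟩ := PR_all
  obtain ⟨c5, C5, hc5, hC5, h5⟩ := phi_W
  refine ⟨c1 * c4 / (100 * C5), by positivity, fun k d η hη hη1 => ?_⟩
  obtain ⟨r1, r2⟩ := AR4d_rho η hη hη1
  filter_upwards [AR4d_tend (1 / 50) (by norm_num) (max X0 ((d.D0 : ℝ) + 1)), eventually_ge_atTop (2 : ℝ)] with Y hY hY2
  have hE0 : X0 ≤ ES Y := (le_max_left _ _).trans hY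
  have hE1 : (d.D0 : ℝ) + 1 ≤ ES Y := (le_max_right _ _).trans hY
  have hD2 : (2 : ℝ) ≤ d.D0 := by exact_mod_cast d.D0_ge
  have hY1 : (1 : ℝ) ≤ Y := by linarith
  have hEz : ES Y ≤ ZZ η Y := Real.rpow_le_rpow_of_exponent_le hY1 (by linarith)
  have hlY : 0 < Real.log Y := Real.log_pos (by linarith)
  have hlD : 0 < Real.log d.D0 := Real.log_pos (by linarith)
  have hlD1 : 0 < Real.log ((d.D0 : ℝ) + 1) := Real.log_pos (by linarith)
  have g1 := h1 false d.D0 (ZZ η Y) (ES Y) (by linarith [d.D0_ge]) hE0 hEz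
  have p1 := (h4 ((d.D0 : ℝ) + 1) (ES Y) (by linarith) hE1).1
  have w2 := (h5 d.D0 d.W d.D0_ge d.W_pos d.W_primes).2
  have hlog : Real.log ((d.D0 : ℝ) + 1) ≤ 2 * Real.log d.D0 := by
    have e : 2 * Real.log (d.D0 : ℝ) = Real.log ((d.D0 : ℝ) ^ 2) := by
      rw [Real.log_pow]
      norm_num
    rw [e]
    apply Real.log_le_log (by linarith)
    nlinarith
  have hES : Real.log (ES Y) = 1 / 50 * Real.log Y := by
    unfold ES
    rw [Real.log_rpow (by linarith)]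
  rw [hES] at p1
  calc c1 * c4 / (100 * C5) * ((d.W.totient : ℝ) / d.W * Real.log Y)
      ≤ c1 * c4 / (100 * C5) * (C5 / Real.log d.D0 * Real.log Y) := by
        apply mul_le_mul_of_nonneg_left _ (by positivity)
        exact mul_le_mul_of_nonneg_right w2 hlY.le
    _ = c1 * (c4 * (1 / 50 * Real.log Y / (2 * Real.log d.D0))) := by
        field_simp
        norm_num
    _ ≤ c1 * (c4 * (1 / 50 * Real.log Y / Real.log ((d.D0 : ℝ) + 1))) := by
        apply mul_le_mul_of_nonneg_left _ hc1.le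
        apply mul_le_mul_of_nonneg_left _ hc4.le
        exact div_le_div_of_nonneg_left (by positivity) hlD1 hlog
    _ ≤ c1 * PR false ((d.D0 : ℝ) + 1) (ES Y) := mul_le_mul_of_nonneg_left p1 hc1.le
    _ ≤ BB (xY d η Y) (gX false (ES Y)) := g1

end Pool.Agent.Wd33b62
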