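import Pool.Agent.W_d33b62_h36.AR1b
import Pool.Agent.W_d33b62_h36.AR4a
import Pool.Agent.W_d33b62_h36.AR4b
import Pool.Agent.W_d33b62_h36.MM7

/-!
# One-dimensional sums (helper36, MP_d33b62_nt)
-/

set_option autoImplicit false

noncomputable section

open Finset Filter

namespace Pool.Agent.Wd33b62

open Pool.Agent.Wb58c63 (PI mem_PI VP ap Pr XM)

/-- The weights of the scales. -/
def AR4f_c (j : ℕ) : ℝ := if j = 0 then 2 else 2 ^ j

theorem AR4f_c_nonneg (j : ℕ) : 0 ≤ AR4f_c j := by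
  unfold AR4f_c
  split_ifs <;> positivity

theorem AR4f_c_sum (L : ℕ) : ∑ j ∈ range (L + 1), AR4f_c j = 2 ^ (L + 1) := by
  induction L with
  | zero => simp [AR4f_c]
  | succ L ih =>
    rw [Finset.sum_range_succ, ih]
    unfold AR4f_c
    rw [if_neg (Nat.succ_ne_zero L)]
    ring

theorem AR4f_c_dl (L : ℕ) : ∑ j ∈ range (L + 1), AR4f_c j * (1 / 2 ^ (j + 1)) = ((L : ℝ) + 2) / 2 := by
  induction L with
  | zero => simp [AR4f_c]
  | succ L ih =>
    rw [Finset.sum_range_succ, ih]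
    unfold AR4f_c
    rw [if_neg (Nat.succ_ne_zero L)]
    have : (2 : ℝ) ^ (L + 1) * (1 / 2 ^ (L + 1 + 1)) = 1 / 2 := by
      rw [pow_succ (2 : ℝ) (L + 1)]
      field_simp
    rw [this]
    push_cast
    ring

theorem AR4f_four (L : ℕ) : ∑ j ∈ range (L + 1), (4 : ℝ) ^ (j + 1) * (1 / 2 ^ (j + 1)) ≤ 2 ^ (L + 2) := by
  have h : ∀ L : ℕ, ∑ j ∈ range (L + 1), (4 : ℝ) ^ (j + 1) * (1 / 2 ^ (j + 1)) = 2 ^ (L + 2) - 2 := by
    intro L
    have e : ∀ j : ℕ, (4 : ℝ) ^ (j + 1) * (1 / 2 ^ (j + 1)) = 2 ^ (j + 1) := by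
      intro j
      rw [show (4 : ℝ) = 2 * 2 by norm_num, mul_pow]
      field_simp
    induction L with
    | zero => norm_num
    | succ L ih =>
      rw [Finset.sum_range_succ, ih, e]
      ring
  rw [h]
  linarith

/-- Zero-one sequences. -/
theorem AR4f_seq (a : ℕ → ℝ) (ha : ∀ j, a j = 0 ∨ a j = 1) (m : ℕ) :
    0 ≤ ∑ j ∈ range (m + 1), AR4f_c j * a j ∧
    ∑ j ∈ range (m + 1), AR4f_c j * a j ≤ 2 ^ (m + 1) ∧
    (∑ j ∈ range (m + 1), AR4f_c j * a j) ^ 2 ≤ ∑ j ∈ range (m + 1), (4 : ℝ) ^ (j + 1) * a j := by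
  induction m with
  | zero =>
    rcases ha 0 with h | h
    · simp [h, AR4f_c]
    · simp only [zero_add, Finset.range_one, Finset.sum_singleton, h, AR4f_c, if_true, mul_one]
      norm_num
  | succ m ih =>
    obtain ⟨h0, h1, h2⟩ := ih
    rw [Finset.sum_range_succ, Finset.sum_range_succ (fun j => (4 : ℝ) ^ (j + 1) * a j)]
    have hc : AR4f_c (m + 1) = 2 ^ (m + 1) := by
      unfold AR4f_c
      rw [if_neg (Nat.succ_ne_zero m)]
    rw [hc]
    rcases ha (m + 1) with h | h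
    · rw [h]
      simp only [mul_zero, add_zero]
      refine ⟨h0, ?_, h2⟩
      exact h1.trans (pow_le_pow_right₀ (by norm_num) (by omega))
    · rw [h]
      simp only [mul_one]
      have e1 : (2 : ℝ) ^ (m + 1 + 1) = 2 ^ (m + 1) + 2 ^ (m + 1) := by ring
      have e2 : (4 : ℝ) ^ (m + 1 + 1) = (2 ^ (m + 1 + 1)) ^ 2 := by
        rw [← pow_mul, mul_comm, pow_mul]
        norm_num
      have h3 : 0 ≤ ∑ j ∈ range (m + 1), (4 : ℝ) ^ (j + 1) * a j := le_trans (sq_nonneg _) h2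
      have h4 : (0 : ℝ) < 2 ^ (m + 1) := by positivity
      refine ⟨by linarith, by linarith, ?_⟩
      rw [e2]
      have h5 := pow_le_pow_left₀ (by linarith) (show ∑ j ∈ range (m + 1), AR4f_c j * a j + 2 ^ (m + 1) ≤
        2 ^ (m + 1 + 1) by linarith) 2
      linarith

theorem AR4f_zo {D0 : ℕ} {z : ℝ} (X : ℝ) (S : Finset (Pl D0 z)) :
    gX false X S = 0 ∨ gX false X S = 1 := by
  unfold gX
  by_cases h : (nmS S : ℝ) ≤ X ∧ ∀ p ∈ S, false = true → p.1 % 4 = 3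
  · rw [if_pos h]
    exact Or.inr rfl
  · rw [if_neg h]
    exact Or.inl rfl

theorem AR4f_mono {D0 : ℕ} {z : ℝ} {X X' : ℝ} (h : X ≤ X') (S : Finset (Pl D0 z)) (h1 : gX false X S = 1) :
    gX false X' S = 1 := by
  unfold gX at h1 ⊢
  by_cases h2 : (nmS S : ℝ) ≤ X ∧ ∀ p ∈ S, false = true → p.1 % 4 = 3
  · rw [if_pos ⟨h2.1.trans h, h2.2⟩]
  · rw [if_neg h2] at h1
    exact absurd h1 (by norm_num)

/-- The scales. -/
def AR4f_X (R : ℝ) (j : ℕ) : ℝ := R ^ ((1 : ℝ) / 2 ^ (j + 1))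

theorem AR4f_gS {D0 : ℕ} {z : ℝ} (L : ℕ) (R : ℝ) (S : Finset (Pl D0 z)) :
    gS L R S = ∑ j ∈ range (L + 1), AR4f_c j * gX false (AR4f_X R j) S := by
  unfold gS
  rw [← Finset.sum_flip]
  refine Finset.sum_congr rfl fun j hj => ?_
  have hj' := Finset.mem_range.1 hj
  have e1 : (2 : ℝ) ^ (L - j) / 2 ^ (L + 1) = 1 / 2 ^ (j + 1) := by
    have : (2 : ℝ) ^ (L + 1) = 2 ^ (L - j) * 2 ^ (j + 1) := by
      rw [← pow_add]
      congr 1
      omega
    rw [this]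
    field_simp
  rw [e1]
  unfold AR4f_c AR4f_X
  by_cases h : j = 0
  · subst h
    simp
  · rw [if_neg h, if_neg (by omega)]
    have : L - (L - j) = j := by omega
    rw [this]

/-- The number of the scale. -/
def AR4f_N {k : ℕ} (d : AData k) (η Y : ℝ) (j : ℕ) : ℝ := BB (xY d η Y) (gX false (AR4f_X (RR η Y) j))

theorem AR4f_sum {k : ℕ} (d : AData k) (η Y : ℝ) (L : ℕ) (w : ℕ → ℝ) :
    ∑ S : Finset (PY d η Y), (∑ j ∈ range (L + 1), w j * gX false (AR4f_X (RR η Y) j) S) * ∏ p ∈ S, xY d η Y p =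
      ∑ j ∈ range (L + 1), w j * AR4f_N d η Y j := by
  unfold AR4f_N BB
  simp only [Finset.sum_mul, Finset.mul_sum]
  rw [Finset.sum_comm]
  refine Finset.sum_congr rfl fun j _ => Finset.sum_congr rfl fun S _ => ?_
  ring

theorem AR4f_B {k : ℕ} (d : AData k) (η Y : ℝ) (L : ℕ) :
    B0 d η L Y = ∑ j ∈ range (L + 1), AR4f_c j * AR4f_N d η Y j := by
  rw [← AR4f_sum]
  unfold B0 BB
  refine Finset.sum_congr rfl fun S _ => ?_
  rw [AR4f_gS]

theorem AR4f_x_nonneg {k : ℕ} (d : AData k) (η Y : ℝ) (S : Finset (PY d η Y)) : 0 ≤ ∏ p ∈ S, xY d η Y p :=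
  Finset.prod_nonneg fun p _ => (xr_pos p).le

theorem AR4f_Aup {k : ℕ} (d : AData k) (η Y : ℝ) (L : ℕ) :
    A0 d η L Y ≤ ∑ j ∈ range (L + 1), (4 : ℝ) ^ (j + 1) * AR4f_N d η Y j := by
  rw [← AR4f_sum]
  unfold A0 AA
  refine Finset.sum_le_sum fun S _ => mul_le_mul_of_nonneg_right ?_ (AR4f_x_nonneg d η Y S)
  rw [AR4f_gS]
  exact (AR4f_seq _ (fun j => AR4f_zo _ _) L).2.2

theorem AR4f_Alow {k : ℕ} (d : AData k) (η Y : ℝ) (L : ℕ) (hR : 1 ≤ RR η Y) :
    (4 : ℝ) ^ (L + 1) * AR4f_N d η Y L ≤ A0 d η L Y := by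
  unfold A0 AA AR4f_N BB
  rw [Finset.mul_sum]
  refine Finset.sum_le_sum fun S _ => ?_
  rw [← mul_assoc]
  refine mul_le_mul_of_nonneg_right ?_ (AR4f_x_nonneg d η Y S)
  rcases AR4f_zo (AR4f_X (RR η Y) L) S with h | h
  · rw [h, mul_zero]
    positivity
  · have h1 : ∀ j ∈ range (L + 1), AR4f_c j * gX false (AR4f_X (RR η Y) j) S = AR4f_c j := by
      intro j hj
      have hj' := Finset.mem_range.1 hj
      have h2 : AR4f_X (RR η Y) L ≤ AR4f_X (RR η Y) j := by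
        unfold AR4f_X
        refine Real.rpow_le_rpow_of_exponent_le hR ?_
        exact one_div_le_one_div_of_le (by positivity) (pow_le_pow_right₀ (by norm_num) (by omega))
      rw [AR4f_mono h2 S h, mul_one]
    rw [AR4f_gS, Finset.sum_congr rfl h1, AR4f_c_sum, h, mul_one]
    rw [← pow_mul, mul_comm, pow_mul]
    norm_num

theorem AR4f_first {k : ℕ} (d : AData k) (η Y : ℝ) (L : ℕ) (hR : 1 < RR η Y) :
    (∑ S : Finset (PY d η Y), Real.log (nmS S) / Real.log (RR η Y) * gS L (RR η Y) S ^ 2 * ∏ p ∈ S, xY d η Y p) ≤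
      B0 d η L Y := by
  unfold B0 BB
  refine Finset.sum_le_sum fun S _ => mul_le_mul_of_nonneg_right ?_ (AR4f_x_nonneg d η Y S)
  have h1 := gS_cost L (RR η Y) hR S
  have h2 := gS_nonneg L (RR η Y) S
  calc Real.log (nmS S) / Real.log (RR η Y) * gS L (RR η Y) S ^ 2 =
      (Real.log (nmS S) / Real.log (RR η Y) * gS L (RR η Y) S) * gS L (RR η Y) S := by ring
    _ ≤ 1 * gS L (RR η Y) S := mul_le_mul_of_nonneg_right h1 h2
    _ = gS L (RR η Y) S := one_mul _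

/-- The order of the numbers. -/
theorem AR4f_order : ∃ c C : ℝ, 0 < c ∧ 0 < C ∧ ∀ (k L : ℕ) (d : AData k) (η : ℝ), 0 < η → η ≤ 1 / 200 →
    ∀ᶠ Y : ℝ in atTop, ∀ j ∈ range (L + 1),
      c * (η * Real.log Y / Real.log ((d.D0 : ℝ) + 1)) * (1 / 2 ^ (j + 1)) ≤ AR4f_N d η Y j ∧
      AR4f_N d η Y j ≤ C * (η * Real.log Y / Real.log ((d.D0 : ℝ) + 1)) * (1 / 2 ^ (j + 1)) := by
  obtain ⟨c₁, X₀, hc₁, hX₀, hlow⟩ := bb_low
  obtain ⟨c₂, C₂, hc₂, hC₂, hPR⟩ := PR_all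
  refine ⟨c₁ * c₂, 2 * C₂, by positivity, by positivity, fun k L d η hη hη1 => ?_⟩
  rw [Filter.eventually_all_finset]
  intro j _
  have hD2 := d.D0_ge
  have hD : (2 : ℝ) ≤ d.D0 := by exact_mod_cast hD2
  have he : 0 < η * (1 / 2 ^ (j + 1)) := by positivity
  have ht := tendsto_rpow_atTop he
  filter_upwards [eventually_ge_atTop 1, ht.eventually_ge_atTop (max X₀ ((d.D0 : ℝ) + 1))] with Y hY1 hY2
  have hY0 : 0 < Y := by linarith
  have eX : AR4f_X (RR η Y) j = Y ^ (η * (1 / 2 ^ (j + 1))) := by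
    unfold AR4f_X RR
    rw [← Real.rpow_mul hY0.le]
  have hXa : X₀ ≤ AR4f_X (RR η Y) j := by
    rw [eX]
    exact (le_max_left _ _).trans hY2
  have hXb : (d.D0 : ℝ) + 1 ≤ AR4f_X (RR η Y) j := by
    rw [eX]
    exact (le_max_right _ _).trans hY2
  have hXz : AR4f_X (RR η Y) j ≤ ZZ η Y := by
    rw [eX]
    unfold ZZ
    refine Real.rpow_le_rpow_of_exponent_le hY1 ?_
    have h1 : (1 : ℝ) / 2 ^ (j + 1) ≤ 1 := by
      rw [div_le_one (by positivity)]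
      exact one_le_pow₀ (by norm_num)
    rw [le_div_iff₀ (by linarith)]
    have h2 : η * (1 / 2 ^ (j + 1)) ≤ η := by nlinarith
    nlinarith
  have hlogX : Real.log (AR4f_X (RR η Y) j) = η * Real.log Y * (1 / 2 ^ (j + 1)) := by
    rw [eX, Real.log_rpow hY0]
    ring
  obtain ⟨g1, g2⟩ := hPR ((d.D0 : ℝ) + 1) (AR4f_X (RR η Y) j) (by linarith) hXb
  rw [hlogX] at g1 g2
  have g3 := hlow false d.D0 (ZZ η Y) (AR4f_X (RR η Y) j) (by omega) hXa hXz
  have g4 := bb_up false d.D0 (ZZ η Y) (AR4f_X (RR η Y) j) (by omega) (hX₀.trans hXa)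
  have e5 : AR4f_N d η Y j = BB (xr d.D0 (ZZ η Y)) (gX false (AR4f_X (RR η Y) j)) := rfl
  rw [e5]
  constructor
  · refine le_trans ?_ g3
    have := mul_le_mul_of_nonneg_left g1 hc₁.le
    refine le_trans (le_of_eq ?_) this
    ring
  · refine g4.trans ?_
    refine le_trans (mul_le_mul_of_nonneg_left g2 (by norm_num)) (le_of_eq ?_)
    ring

/-- **The sums of the labels `inl i`.** `δ_l = 2 ^ l / 2 ^ (L + 1)`, `c_l = 2 ^ (L - l)` (`l < L`), `c_L = 2`,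
`N(X) = BB (gX false X)`, of the order `log X / log D0` for `X ≥ X₀ + D0 + 1` (`bb_up`, `bb_low`, `PR_all`).
`B0 = ∑ c_l N(R ^ δ_l)`: of the order `∑ c_l δ_l (log R / log D0) = (1 + L / 2) log R / log D0`. `A0 = ∑_{l, l'} c_l c_l' N(R ^ min(δ_l, δ_l'))`:
at most `C 2 ^ L log R / log D0` (`∑_{l, l'} c_l c_l' min(δ_l, δ_l') ≤ (3 / 2) 2 ^ (L + 1)`), at least `2 ^ (2 L + 2) N(R ^ δ_0)
≥ c 2 ^ L log R / log D0` (`gS = 2 ^ (L + 1)` for `∏ S ≤ R ^ δ_0`). First claim: `cost * gS ≤ 1` (`gS_cost`), so the sum is at most `B0`. Second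
claim: `log R = η log Y`, `φ(W) / W ≤ C / log D0` (`phi_W`). -/
theorem sums_AB : ∃ C7 c8 : ℝ, 1 ≤ C7 ∧ 0 < c8 ∧ ∀ (k L : ℕ) (d : AData k) (η : ℝ), 0 < η → η ≤ 1 / 200 →
    ∀ᶠ Y : ℝ in atTop,
      (∑ S : Finset (PY d η Y), Real.log (nmS S) / Real.log (RR η Y) * gS L (RR η Y) S ^ 2 * ∏ p ∈ S, xY d η Y p) ≤
        C7 * ((L : ℝ) + 2) / 2 ^ L * A0 d η L Y ∧
      c8 * ((L : ℝ) + 2) ^ 2 / 2 ^ L * η * ((d.W.totient : ℝ) / d.W * Real.log Y) ≤
        B0 d η L Y ^ 2 / A0 d η L Y := by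
  obtain ⟨c, C, hc, hC, hN⟩ := AR4f_order
  obtain ⟨c', C', hc', hC', hphi⟩ := phi_W
  refine ⟨max 1 (C / c), c ^ 2 / (32 * C * C'), le_max_left _ _, by positivity, fun k L d η hη hη1 => ?_⟩
  have hD2 := d.D0_ge
  have hD : (2 : ℝ) ≤ d.D0 := by exact_mod_cast hD2
  have hlD : 0 < Real.log d.D0 := Real.log_pos (by linarith)
  have hlD1 : 0 < Real.log ((d.D0 : ℝ) + 1) := Real.log_pos (by linarith)
  filter_upwards [hN k L d η hη hη1, eventually_gt_atTop 1] with Y hY hY1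
  have hY0 : 0 < Y := by linarith
  have hlY : 0 < Real.log Y := Real.log_pos hY1
  have hR : 1 < RR η Y := Real.one_lt_rpow hY1 hη
  obtain ⟨l, hl⟩ : ∃ l : ℝ, l = η * Real.log Y / Real.log ((d.D0 : ℝ) + 1) := ⟨_, rfl⟩
  rw [← hl] at hY
  have hl0 : 0 < l := by rw [hl]; positivity
  have hL2 : 0 < (L : ℝ) + 2 := by positivity
  -- the bounds of `B0`
  have hBlow : c * l * (((L : ℝ) + 2) / 2) ≤ B0 d η L Y := by
    rw [AR4f_B, ← AR4f_c_dl, Finset.mul_sum]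
    refine Finset.sum_le_sum fun j hj => ?_
    calc c * l * (AR4f_c j * (1 / 2 ^ (j + 1))) = AR4f_c j * (c * l * (1 / 2 ^ (j + 1))) := by ring
      _ ≤ AR4f_c j * AR4f_N d η Y j := mul_le_mul_of_nonneg_left (hY j hj).1 (AR4f_c_nonneg j)
  have hBup : B0 d η L Y ≤ C * l * (((L : ℝ) + 2) / 2) := by
    rw [AR4f_B, ← AR4f_c_dl, Finset.mul_sum]
    refine Finset.sum_le_sum fun j hj => ?_
    calc AR4f_c j * AR4f_N d η Y j ≤ AR4f_c j * (C * l * (1 / 2 ^ (j + 1))) :=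
          mul_le_mul_of_nonneg_left (hY j hj).2 (AR4f_c_nonneg j)
      _ = C * l * (AR4f_c j * (1 / 2 ^ (j + 1))) := by ring
  -- the bounds of `A0`
  have hAup : A0 d η L Y ≤ C * l * 2 ^ (L + 2) := by
    refine (AR4f_Aup d η Y L).trans ?_
    refine le_trans ?_ (mul_le_mul_of_nonneg_left (AR4f_four L) (by positivity))
    rw [Finset.mul_sum]
    refine Finset.sum_le_sum fun j hj => ?_
    calc (4 : ℝ) ^ (j + 1) * AR4f_N d η Y j ≤ (4 : ℝ) ^ (j + 1) * (C * l * (1 / 2 ^ (j + 1))) :=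
          mul_le_mul_of_nonneg_left (hY j hj).2 (by positivity)
      _ = C * l * ((4 : ℝ) ^ (j + 1) * (1 / 2 ^ (j + 1))) := by ring
  have hAlow : c * l * 2 ^ (L + 1) ≤ A0 d η L Y := by
    refine le_trans ?_ (AR4f_Alow d η Y L hR.le)
    refine le_trans (le_of_eq ?_) (mul_le_mul_of_nonneg_left (hY L (Finset.self_mem_range_succ L)).1
      (by positivity : (0 : ℝ) ≤ 4 ^ (L + 1)))
    rw [show (4 : ℝ) = 2 * 2 by norm_num, mul_pow]
    field_simp
  have hA0 : 0 < A0 d η L Y := lt_of_lt_of_le (by positivity) hAlow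
  constructor
  · refine (AR4f_first d η Y L hR).trans (hBup.trans ?_)
    calc C * l * (((L : ℝ) + 2) / 2) ≤ C / c * ((L : ℝ) + 2) / 2 ^ L * (c * l * 2 ^ (L + 1)) := by
          have : C / c * ((L : ℝ) + 2) / 2 ^ L * (c * l * 2 ^ (L + 1)) = C * l * ((L : ℝ) + 2) * 2 := by
            rw [pow_succ]
            field_simp
          rw [this]
          have : 0 < C * l * ((L : ℝ) + 2) := by positivity
          linarith
      _ ≤ max 1 (C / c) * ((L : ℝ) + 2) / 2 ^ L * A0 d η L Y := by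
          refine mul_le_mul ?_ hAlow (by positivity) (by positivity)
          refine div_le_div_of_nonneg_right ?_ (by positivity)
          exact mul_le_mul_of_nonneg_right (le_max_right _ _) hL2.le
  · rw [le_div_iff₀ hA0]
    obtain ⟨f, hf⟩ : ∃ f : ℝ, f = (d.W.totient : ℝ) / d.W := ⟨_, rfl⟩
    rw [← hf]
    have hf0 : 0 ≤ f := by rw [hf]; positivity
    have hfl : η * (f * Real.log Y) ≤ 2 * C' * l := by
      have h1 := (hphi d.D0 d.W hD2 d.W_pos d.W_primes).2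
      rw [← hf] at h1
      have h2 : Real.log ((d.D0 : ℝ) + 1) ≤ 2 * Real.log d.D0 := by
        have h3 : Real.log ((d.D0 : ℝ) + 1) ≤ Real.log ((d.D0 : ℝ) ^ 2) :=
          Real.log_le_log (by linarith) (by nlinarith)
        rw [Real.log_pow] at h3
        exact_mod_cast h3
      have h4 : C' / Real.log d.D0 ≤ 2 * C' / Real.log ((d.D0 : ℝ) + 1) := by
        rw [div_le_div_iff₀ hlD hlD1]
        nlinarith
      calc η * (f * Real.log Y) ≤ η * (2 * C' / Real.log ((d.D0 : ℝ) + 1) * Real.log Y) := by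
            refine mul_le_mul_of_nonneg_left (mul_le_mul_of_nonneg_right (h1.trans h4) hlY.le) hη.le
        _ = 2 * C' * l := by
            rw [hl]
            ring
    calc c ^ 2 / (32 * C * C') * ((L : ℝ) + 2) ^ 2 / 2 ^ L * η * (f * Real.log Y) * A0 d η L Y =
          c ^ 2 / (32 * C * C') * ((L : ℝ) + 2) ^ 2 / 2 ^ L * (η * (f * Real.log Y)) * A0 d η L Y := by ring
      _ ≤ c ^ 2 / (32 * C * C') * ((L : ℝ) + 2) ^ 2 / 2 ^ L * (2 * C' * l) * (C * l * 2 ^ (L + 2)) := by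
          refine mul_le_mul (mul_le_mul_of_nonneg_left hfl (by positivity)) hAup hA0.le (by positivity)
      _ = (c * l * (((L : ℝ) + 2) / 2)) ^ 2 := by
          rw [pow_add]
          field_simp
          ring
      _ ≤ B0 d η L Y ^ 2 := pow_le_pow_left₀ (by positivity) hBlow 2

end Pool.Agent.Wd33b62
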