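import Pool.Agent.W_d33b62_h36.AR4c
import Pool.Agent.W_d33b62_h36.MM7

/-!
# One-dimensional sums (helper36, MP_d33b62_nt)
-/

set_option autoImplicit false

noncomputable section

open Finset Filter

namespace Pool.Agent.Wd33b62

open Pool.Agent.Wb58c63 (PI mem_PI VP ap Pr XM)

/-- The cofactors `e` in the switching. -/
def EQ {k : ℕ} (d : AData k) (η Y : ℝ) : Finset ℕ := by
  classical exact (Icc 1 ⌊Y ^ (14 * η)⌋₊).filter fun e => GoodP e ∧ e.Coprime d.W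

/-- The smaller inert prime in the switching. -/
def RQ (η Y : ℝ) : Finset ℕ := by
  classical exact (range (⌊√(2 * Y)⌋₊ + 1)).filter fun r => r.Prime ∧ r % 4 = 3 ∧ ZZ η Y ≤ r

/-- The multiplicative function of `sum_e`. -/
private def AR4g_f (m n : ℕ) : ℝ := (1 / (n : ℝ)) * (∏ p ∈ n.primeFactors, (1 + 1 / (p : ℝ))) ^ m

private theorem AR4g_one (m : ℕ) : AR4g_f m 1 = 1 := by simp [AR4g_f]

private theorem AR4g_nonneg (m n : ℕ) : 0 ≤ AR4g_f m n := by
  unfold AR4g_f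
  positivity

private theorem AR4g_mul (m : ℕ) {a b : ℕ} (h : a.Coprime b) :
    AR4g_f m (a * b) = AR4g_f m a * AR4g_f m b := by
  unfold AR4g_f
  rw [Nat.Coprime.primeFactors_mul h, Finset.prod_union h.disjoint_primeFactors, mul_pow]
  push_cast
  ring

private theorem AR4g_pp (m : ℕ) {p : ℕ} (hp : p.Prime) :
    HasSum (fun n : ℕ => AR4g_f m (p ^ n)) (1 + (1 + 1 / (p : ℝ)) ^ m / ((p : ℝ) - 1)) := by
  have hp2 : (2 : ℝ) ≤ p := by exact_mod_cast hp.two_le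
  have h0 : (0 : ℝ) ≤ 1 / (p : ℝ) := by positivity
  have h1 : 1 / (p : ℝ) < 1 := by
    rw [div_lt_one (by linarith)]
    linarith
  have hg := (hasSum_geometric_of_lt_one h0 h1).mul_left ((1 + 1 / (p : ℝ)) ^ m)
  have hs : HasSum (fun n : ℕ => if n = 0 then ((1 + 1 / (p : ℝ)) ^ m - 1) else 0)
      ((1 + 1 / (p : ℝ)) ^ m - 1) := by
    have := hasSum_ite_eq (0 : ℕ) ((1 + 1 / (p : ℝ)) ^ m - 1)
    exact this
  have h2 := hg.sub hs
  have e1 : (fun n : ℕ => AR4g_f m (p ^ n)) =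
      fun n : ℕ => (1 + 1 / (p : ℝ)) ^ m * (1 / (p : ℝ)) ^ n -
        (if n = 0 then ((1 + 1 / (p : ℝ)) ^ m - 1) else 0) := by
    funext n
    unfold AR4g_f
    rcases Nat.eq_zero_or_pos n with h | h
    · subst h
      simp
    · rw [Nat.primeFactors_prime_pow h.ne' hp, Finset.prod_singleton, if_neg h.ne']
      push_cast
      rw [one_div_pow]
      ring
  have e2 : 1 + (1 + 1 / (p : ℝ)) ^ m / ((p : ℝ) - 1) =
      (1 + 1 / (p : ℝ)) ^ m * (1 - 1 / (p : ℝ))⁻¹ - ((1 + 1 / (p : ℝ)) ^ m - 1) := by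
    have h3 : (p : ℝ) - 1 ≠ 0 := by linarith
    have h4 : (p : ℝ) ≠ 0 := by linarith
    have h5 : (1 - 1 / (p : ℝ))⁻¹ = 1 + 1 / ((p : ℝ) - 1) := by
      rw [one_sub_div h4, inv_div]
      field_simp
      ring
    rw [h5]
    ring
  rw [e1, e2]
  exact h2

/-- The Euler product bound. -/
private theorem AR4g_euler (m : ℕ) (P E : Finset ℕ) (hP : ∀ p ∈ P, p.Prime)
    (hE : ∀ e ∈ E, e ≠ 0 ∧ ∀ p : ℕ, p.Prime → p ∣ e → p ∈ P) :
    ∑ e ∈ E, AR4g_f m e ≤ ∏ p ∈ P, (1 + (1 + 1 / (p : ℝ)) ^ m / ((p : ℝ) - 1)) := by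
  have h1 := EulerProduct.summable_and_hasSum_factoredNumbers_prod_filter_prime_tsum (f := AR4g_f m)
    (AR4g_one m) (fun {a b} h => AR4g_mul m h) (fun {p} hp => by
      have := (AR4g_pp m hp).summable
      refine this.congr fun n => ?_
      rw [Real.norm_of_nonneg (AR4g_nonneg m _)]) P
  have h2 : ∏ p ∈ P with p.Prime, ∑' n : ℕ, AR4g_f m (p ^ n) =
      ∏ p ∈ P, (1 + (1 + 1 / (p : ℝ)) ^ m / ((p : ℝ) - 1)) := by
    rw [Finset.filter_true_of_mem hP]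
    exact Finset.prod_congr rfl fun p hp => (AR4g_pp m (hP p hp)).tsum_eq
  rw [h2] at h1
  have h3 := (hasSum_subtype_iff_indicator (s := Nat.factoredNumbers P) (f := AR4g_f m)).1 h1.2
  refine le_trans (le_of_eq ?_) (sum_le_hasSum E (fun n _ => ?_) h3)
  · refine Finset.sum_congr rfl fun e he => ?_
    rw [Set.indicator_of_mem]
    rw [Nat.mem_factoredNumbers']
    exact (hE e he).2
  · exact Set.indicator_nonneg (fun x _ => AR4g_nonneg m x) n

/-- The factor of one prime. -/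
private theorem AR4g_factor (K : ℕ) (p : ℝ) (hp : 2 ≤ p) (hK : 4 * (K : ℝ) ≤ p) :
    1 + (1 + 1 / p) ^ (4 * K) / (p - 1) ≤
      (1 + 1 / p) * Real.exp ((8 * K + 1) * (1 / (p * (p - 1)))) := by
  have hp0 : 0 < p := by linarith
  have hp1 : 0 < p - 1 := by linarith
  have hK0 : (0 : ℝ) ≤ K := Nat.cast_nonneg K
  have h1 : (1 + 1 / p) ^ (4 * K) ≤ 1 + 8 * K / p := by
    have h2 : (1 + 1 / p) ^ (4 * K) ≤ Real.exp (4 * K / p) := by
      have h3 : 1 + 1 / p ≤ Real.exp (1 / p) := by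
        have := Real.add_one_le_exp (1 / p)
        linarith
      calc (1 + 1 / p) ^ (4 * K) ≤ Real.exp (1 / p) ^ (4 * K) :=
            pow_le_pow_left₀ (by positivity) h3 _
        _ = Real.exp (4 * K / p) := by
            rw [← Real.exp_nat_mul]
            congr 1
            push_cast
            ring
    have h4 : 4 * K / p ≤ 1 := by
      rw [div_le_one hp0]
      exact hK
    have h5 : 0 ≤ 4 * K / p := by positivity
    have h6 := Real.abs_exp_sub_one_le (x := 4 * K / p) (by rw [abs_of_nonneg h5]; exact h4)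
    rw [abs_of_nonneg h5] at h6
    have h7 := (abs_le.1 h6).2
    have h8 : 2 * (4 * K / p) = 8 * K / p := by ring
    rw [h8] at h7
    linarith
  have h2 : (1 + 1 / p) ^ (4 * K) / (p - 1) ≤ 1 / p + (8 * K + 1) * (1 / (p * (p - 1))) := by
    calc (1 + 1 / p) ^ (4 * K) / (p - 1) ≤ (1 + 8 * K / p) / (p - 1) :=
          div_le_div_of_nonneg_right h1 hp1.le
      _ = 1 / p + (8 * K + 1) * (1 / (p * (p - 1))) := by
          have := hp1.ne'
          field_simp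
          ring
  set X := (8 * (K : ℝ) + 1) * (1 / (p * (p - 1))) with hX
  have hX0 : 0 ≤ X := by positivity
  have h3 := Real.add_one_le_exp X
  have h4 : 0 ≤ 1 / p := by positivity
  calc 1 + (1 + 1 / p) ^ (4 * K) / (p - 1) ≤ 1 + (1 / p + X) := by linarith
    _ ≤ (1 + 1 / p) * (X + 1) := by nlinarith
    _ ≤ _ := mul_le_mul_of_nonneg_left h3 (by positivity)

/-- The product over the primes `D0 < p < X`, `p ≡ 1 mod 4`. -/
private theorem AR4g_prod (K D0 : ℕ) (hD0 : 2 ≤ D0) (hD : 8 * K + 1 ≤ D0) (X : ℝ) :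
    ∏ p ∈ (PI ((D0 : ℝ) + 1) X).filter (fun p => p % 4 = 1),
      (1 + (1 + 1 / (p : ℝ)) ^ (4 * K) / ((p : ℝ) - 1)) ≤ PQ ((D0 : ℝ) + 1) X * Real.exp 1 := by
  have hD2 : (2 : ℝ) ≤ D0 := by exact_mod_cast hD0
  have hDK : 8 * (K : ℝ) + 1 ≤ D0 := by exact_mod_cast hD
  have hK0 : (0 : ℝ) ≤ K := Nat.cast_nonneg K
  have h1 : ∏ p ∈ (PI ((D0 : ℝ) + 1) X).filter (fun p => p % 4 = 1),
      (1 + (1 + 1 / (p : ℝ)) ^ (4 * K) / ((p : ℝ) - 1)) ≤
      ∏ p ∈ (PI ((D0 : ℝ) + 1) X).filter (fun p => p % 4 = 1),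
        ((1 + 1 / (p : ℝ)) * Real.exp ((8 * K + 1) * (1 / ((p : ℝ) * ((p : ℝ) - 1))))) := by
    refine Finset.prod_le_prod (fun p hp => ?_) fun p hp => ?_
    · have h2 := (mem_PI.1 (mem_filter.1 hp).1).2.1
      have h3 : 0 < (p : ℝ) - 1 := by linarith
      positivity
    · have h2 := (mem_PI.1 (mem_filter.1 hp).1).2.1
      exact AR4g_factor K p (by linarith) (by linarith)
  refine h1.trans ?_
  rw [Finset.prod_mul_distrib, ← Real.exp_sum, ← Finset.mul_sum]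
  unfold PQ
  refine mul_le_mul_of_nonneg_left ?_ (by positivity)
  rw [Real.exp_le_exp]
  have h4 := Pool.Agent.Wb58c63.arb_tail (D0 + 1) (by omega) ⌈X⌉₊
  have h5 : ∑ p ∈ (PI ((D0 : ℝ) + 1) X).filter (fun p => p % 4 = 1), 1 / ((p : ℝ) * ((p : ℝ) - 1)) ≤
      ∑ n ∈ Icc (D0 + 1) ⌈X⌉₊, 1 / ((n : ℝ) * ((n : ℝ) - 1)) := by
    apply sum_le_sum_of_subset_of_nonneg
    · intro p hp
      obtain ⟨h1, h2, h3⟩ := mem_PI.1 (mem_filter.1 hp).1
      rw [mem_Icc]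
      constructor
      · exact_mod_cast h2
      · have h4 : (p : ℝ) < ⌈X⌉₊ := lt_of_lt_of_le h3 (Nat.le_ceil X)
        have h5 : p < ⌈X⌉₊ := by exact_mod_cast h4
        omega
    · intro n hn _
      have hn2 : ((D0 + 1 : ℕ) : ℝ) ≤ n := by exact_mod_cast (mem_Icc.1 hn).1
      push_cast at hn2
      have : 0 < (n : ℝ) - 1 := by linarith
      have : 0 < (n : ℝ) := by linarith
      positivity
  have h6 := h5.trans h4
  push_cast at h6
  rw [add_sub_cancel_right] at h6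
  calc (8 * (K : ℝ) + 1) * _ ≤ (8 * (K : ℝ) + 1) * (1 / D0) :=
        mul_le_mul_of_nonneg_left h6 (by positivity)
    _ ≤ 1 := by
        rw [mul_one_div, div_le_one (by linarith)]
        exact hDK

/-- **Sum over the cofactors.** All prime factors of `e` are `≡ 1 mod 4` and `> D0`, `≤ Y ^ (14 η)`:
the sum is at most `∏ (1 + ∑_{a ≥ 1} p ^ (-a) (1 + 1 / p) ^ (4 K)) ≤ 2 PQ (D0 + 1) (Y ^ (14 η) + 1)` for `D0 ≥ D1(k)`
(`(1 + 1 / p) ^ (4 K) / (p - 1) ≤ 1 / p + C_K / p ^ 2`), and `PQ ≤ C √(14 η log Y / log D0)` (`PQ_split`). On the right side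
`V0 ≥ c / PR true (D0 + 1) z ≥ c √(log D0 / log Y)` and `φ(W) / W ≥ c / log D0` (`phi_W`). -/
theorem sum_e : ∃ C : ℝ, 0 < C ∧ ∀ k : ℕ, ∃ D1 : ℕ, ∀ d : AData k, D1 ≤ d.D0 → ∀ η : ℝ, 0 < η → η ≤ 1 / 200 →
    ∀ᶠ Y : ℝ in atTop,
      ∑ e ∈ EQ d η Y, (1 / (e : ℝ)) * (∏ p ∈ e.primeFactors, (1 + 1 / (p : ℝ))) ^ (4 * (k + k ^ 2)) ≤
        C * √η * V0 d η Y * ((d.W.totient : ℝ) / d.W * Real.log Y) := by
  obtain ⟨c1, C1, hc1, hC1, hV⟩ := v0_bounds
  obtain ⟨c2, C2, hc2, hC2, hPR⟩ := PR_inert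
  obtain ⟨c3, C3, hc3, hC3, hPQ⟩ := PQ_split
  obtain ⟨c4, C4, hc4, hC4, hW⟩ := phi_W
  refine ⟨Real.exp 1 * C3 * √28 * C2 / (c1 * c4), by positivity, fun k => ?_⟩
  obtain ⟨D1, hD1⟩ := hV k
  refine ⟨max D1 (8 * (k + k ^ 2) + 1), fun d hd η hη hη2 => ?_⟩
  have hdD1 : D1 ≤ d.D0 := le_trans (le_max_left _ _) hd
  have hdK : 8 * (k + k ^ 2) + 1 ≤ d.D0 := le_trans (le_max_right _ _) hd
  have hD2 := d.D0_ge
  have hD2r : (2 : ℝ) ≤ d.D0 := by exact_mod_cast hD2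
  have he1 : 0 < (1 / 2 - 6 * η) / (1 + η) := by
    apply div_pos <;> linarith
  have ev1 : ∀ᶠ Y : ℝ in atTop, (d.D0 : ℝ) + 1 ≤ Y ^ (14 * η) :=
    (tendsto_rpow_atTop (by positivity)).eventually_ge_atTop _
  have ev2 : ∀ᶠ Y : ℝ in atTop, (d.D0 : ℝ) + 1 ≤ ZZ η Y :=
    (tendsto_rpow_atTop he1).eventually_ge_atTop _
  filter_upwards [ev1, ev2, eventually_ge_atTop 2] with Y h1 h2 h3
  have hY0 : 0 < Y := by linarith
  have hlY : 0 < Real.log Y := Real.log_pos (by linarith)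
  have hlD : 0 < Real.log d.D0 := Real.log_pos (by linarith)
  have hlD1 : Real.log d.D0 ≤ Real.log ((d.D0 : ℝ) + 1) := Real.log_le_log (by linarith) (by linarith)
  set s := √(Real.log Y / Real.log d.D0) with hs
  have hs0 : 0 < s := Real.sqrt_pos.2 (by positivity)
  have hs2 : s ^ 2 = Real.log Y / Real.log d.D0 := Real.sq_sqrt (by positivity)
  set X := Y ^ (14 * η) with hX
  -- the Euler product
  have hsum : ∑ e ∈ EQ d η Y, AR4g_f (4 * (k + k ^ 2)) e ≤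
      ∏ p ∈ (PI ((d.D0 : ℝ) + 1) (X + 1)).filter (fun p => p % 4 = 1),
        (1 + (1 + 1 / (p : ℝ)) ^ (4 * (k + k ^ 2)) / ((p : ℝ) - 1)) := by
    apply AR4g_euler
    · intro p hp
      exact (mem_PI.1 (mem_filter.1 hp).1).1
    · intro e he
      unfold EQ at he
      simp only [mem_filter, mem_Icc] at he
      obtain ⟨⟨he1, he2⟩, he3, he4⟩ := he
      refine ⟨by omega, fun p hp hpe => ?_⟩
      rw [mem_filter, mem_PI]
      refine ⟨⟨hp, ?_, ?_⟩, he3 p hp hpe⟩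
      · have h5 : ¬ p ≤ d.D0 := by
          intro h6
          have h7 := (d.W_primes p hp).2 h6
          exact Nat.Prime.not_coprime_iff_dvd.2 ⟨p, hp, hpe, h7⟩ he4
        have h6 : d.D0 + 1 ≤ p := by omega
        exact_mod_cast h6
      · have h5 : p ≤ ⌊X⌋₊ := le_trans (Nat.le_of_dvd (by omega) hpe) he2
        have h6 : (p : ℝ) ≤ X := by
          refine le_trans (by exact_mod_cast h5) (Nat.floor_le ?_)
          rw [hX]
          positivity
        linarith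
  have hA := hsum.trans (AR4g_prod (k + k ^ 2) d.D0 hD2 hdK (X + 1))
  -- `PQ`
  have hlX : Real.log (X + 1) ≤ 28 * η * Real.log Y := by
    have h4 : X + 1 ≤ X ^ 2 := by nlinarith
    have h5 : Real.log (X + 1) ≤ Real.log (X ^ 2) := Real.log_le_log (by linarith) h4
    rw [Real.log_pow, hX, Real.log_rpow hY0] at h5
    push_cast at h5
    linarith
  have hB : PQ ((d.D0 : ℝ) + 1) (X + 1) ≤ C3 * (√28 * √η * s) := by
    refine (hPQ _ _ (by linarith) (by linarith)).2.trans (mul_le_mul_of_nonneg_left ?_ hC3.le)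
    rw [hs, ← Real.sqrt_mul (by norm_num), ← Real.sqrt_mul (by positivity)]
    apply Real.sqrt_le_sqrt
    rw [← mul_div_assoc]
    exact div_le_div₀ (by positivity) hlX hlD hlD1
  -- `V0`
  obtain ⟨hV1, -, hV0⟩ := hD1 d hdD1 η Y
  have hlz : Real.log (ZZ η Y) ≤ Real.log Y := by
    unfold ZZ
    rw [Real.log_rpow hY0]
    have h5 : (1 / 2 - 6 * η) / (1 + η) ≤ 1 := by
      rw [div_le_one (by linarith)]
      linarith
    nlinarith
  have hC : PR true ((d.D0 : ℝ) + 1) (ZZ η Y) ≤ C2 * s := by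
    refine (hPR _ _ (by linarith) h2).2.trans (mul_le_mul_of_nonneg_left ?_ hC2.le)
    rw [hs]
    apply Real.sqrt_le_sqrt
    exact div_le_div₀ hlY.le hlz hlD hlD1
  have hD : c1 ≤ V0 d η Y * (C2 * s) := hV1.trans (mul_le_mul_of_nonneg_left hC hV0.le)
  -- `φ(W) / W`
  have hE := (hW d.D0 d.W hD2 d.W_pos d.W_primes).1
  have hF : c4 * s ^ 2 ≤ (d.W.totient : ℝ) / d.W * Real.log Y := by
    rw [hs2]
    calc c4 * (Real.log Y / Real.log d.D0) = c4 / Real.log d.D0 * Real.log Y := by ring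
      _ ≤ _ := mul_le_mul_of_nonneg_right hE hlY.le
  have hG : Real.exp 1 * C3 * √28 * C2 / (c1 * c4) * √η * V0 d η Y * (c4 * s ^ 2) ≤
      Real.exp 1 * C3 * √28 * C2 / (c1 * c4) * √η * V0 d η Y * ((d.W.totient : ℝ) / d.W * Real.log Y) :=
    mul_le_mul_of_nonneg_left hF (by positivity)
  refine le_trans ?_ hG
  change ∑ e ∈ EQ d η Y, AR4g_f (4 * (k + k ^ 2)) e ≤ _
  refine hA.trans ?_
  calc PQ ((d.D0 : ℝ) + 1) (X + 1) * Real.exp 1 ≤ C3 * (√28 * √η * s) * Real.exp 1 :=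
        mul_le_mul_of_nonneg_right hB (Real.exp_pos _).le
    _ = Real.exp 1 * C3 * √28 * √η * s / c1 * c1 := by
        field_simp
    _ ≤ Real.exp 1 * C3 * √28 * √η * s / c1 * (V0 d η Y * (C2 * s)) :=
        mul_le_mul_of_nonneg_left hD (by positivity)
    _ = _ := by
        field_simp

end Pool.Agent.Wd33b62
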