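import Pool.Agent.W_d33b62_h36.AR4g

/-!
# One-dimensional sums (helper36, MP_d33b62_nt)
-/

set_option autoImplicit false

noncomputable section

open Finset Filter

namespace Pool.Agent.Wd33b62

open Pool.Agent.Wb58c63 (PI mem_PI VP ap Pr XM)

/-- **Sum over the smaller inert prime**: `mertens_inert` for the range `[ZZ, √(2 Y) + 1)`:
`(1 / 2) log (log (√(2 Y) + 1) / log ZZ) + C / log ZZ`, the quotient of the logarithms tends to
`(1 / 2) (1 + η) / (1 / 2 - 6 η) = (1 + η) / (1 - 12 η) ≤ 1 + 14 η`. -/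
theorem sum_r : ∃ C : ℝ, 0 < C ∧ ∀ η : ℝ, 0 < η → η ≤ 1 / 200 → ∀ᶠ Y : ℝ in atTop,
    ∑ r ∈ RQ η Y, 1 / (r : ℝ) ≤ C * η := by
  obtain ⟨C1, hC1, H1⟩ := mertens_inert
  refine ⟨20, by norm_num, fun η hη hη2 => ?_⟩
  have h1η : 0 < 1 + η := by linarith
  have hθ : 2 / 5 ≤ (1 / 2 - 6 * η) / (1 + η) := by
    rw [le_div_iff₀ h1η]
    linarith
  have hθ2 : (1 / 2 - 6 * η) / (1 + η) ≤ 1 / 2 := by
    rw [div_le_iff₀ h1η]
    linarith
  have hθ3 : 1 / 2 ≤ (1 + 14 * η) * ((1 / 2 - 6 * η) / (1 + η)) := by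
    rw [← mul_div_assoc, le_div_iff₀ h1η]
    nlinarith
  have hlog3 : Real.log 3 ≤ 2 := by
    have := Real.log_le_sub_one_of_pos (show (0 : ℝ) < 3 by norm_num)
    linarith
  have hlog2 : Real.log 2 ≤ 1 := by
    have := Real.log_two_lt_d9
    linarith
  filter_upwards [eventually_ge_atTop (1 : ℝ),
    Real.tendsto_log_atTop.eventually_ge_atTop (10 * (C1 + 2) / η + 10)] with Y hY hlY
  have hY0 : 0 < Y := by linarith
  have hL0 : 0 < Real.log Y := by
    have : 0 < 10 * (C1 + 2) / η := by positivity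
    linarith
  have hLη : 10 * (C1 + 2) ≤ η * Real.log Y := by
    have h1 : 10 * (C1 + 2) / η ≤ Real.log Y := by linarith
    rw [div_le_iff₀ hη] at h1
    linarith
  have hL10 : 10 ≤ Real.log Y := by
    have : 0 < 10 * (C1 + 2) / η := by positivity
    linarith
  have hlu : Real.log (ZZ η Y) = (1 / 2 - 6 * η) / (1 + η) * Real.log Y := by
    unfold ZZ
    rw [Real.log_rpow hY0]
  have hu0 : 0 < ZZ η Y := Real.rpow_pos_of_pos hY0 _
  have hu2 : 2 ≤ ZZ η Y := by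
    rw [← Real.log_le_log_iff (by norm_num) hu0, hlu]
    nlinarith
  have hsq : √Y ≤ √(2 * Y) := Real.sqrt_le_sqrt (by linarith)
  have huz : ZZ η Y ≤ √(2 * Y) + 1 := by
    have h1 : ZZ η Y ≤ √Y := by
      unfold ZZ
      rw [Real.sqrt_eq_rpow]
      exact Real.rpow_le_rpow_of_exponent_le hY hθ2
    linarith
  have hs1 : 1 ≤ √Y := by
    rw [Real.one_le_sqrt]
    exact hY
  have hz3 : √(2 * Y) + 1 ≤ 3 * √Y := by
    have h1 : √(2 * Y) ≤ 2 * √Y := by
      rw [Real.sqrt_le_left (by positivity), mul_pow, Real.sq_sqrt hY0.le]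
      linarith
    linarith
  have hlz : Real.log (√(2 * Y) + 1) ≤ Real.log 3 + 1 / 2 * Real.log Y := by
    have hz0 : 0 < √(2 * Y) + 1 := by positivity
    refine (Real.log_le_log hz0 hz3).trans ?_
    rw [Real.log_mul (by norm_num) (by positivity), Real.log_sqrt hY0.le]
    linarith
  have hlu0 : 0 < Real.log (ZZ η Y) := by
    rw [hlu]
    positivity
  have hlz0 : 0 < Real.log (√(2 * Y) + 1) := lt_of_lt_of_le hlu0 (Real.log_le_log hu0 huz)
  have hsub : RQ η Y ⊆ (PI (ZZ η Y) (√(2 * Y) + 1)).filter (fun p => p % 4 = 3) := by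
    intro r hr
    unfold RQ at hr
    rw [Finset.mem_filter, Finset.mem_range] at hr
    rw [Finset.mem_filter, mem_PI]
    refine ⟨⟨hr.2.1, hr.2.2.2, ?_⟩, hr.2.2.1⟩
    have h1 : r ≤ ⌊√(2 * Y)⌋₊ := by omega
    have h2 : (r : ℝ) ≤ √(2 * Y) := (Nat.cast_le.2 h1).trans (Nat.floor_le (Real.sqrt_nonneg _))
    linarith
  have hle : ∑ r ∈ RQ η Y, 1 / (r : ℝ) ≤
      ∑ p ∈ (PI (ZZ η Y) (√(2 * Y) + 1)).filter (fun p => p % 4 = 3), (1 : ℝ) / p :=
    Finset.sum_le_sum_of_subset_of_nonneg hsub fun i _ _ => by positivity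
  have hM := (abs_le.1 (H1 (ZZ η Y) (√(2 * Y) + 1) hu2 huz)).2
  have hq : Real.log (Real.log (√(2 * Y) + 1) / Real.log (ZZ η Y)) ≤ 15 * η := by
    have h1 := Real.log_le_sub_one_of_pos (div_pos hlz0 hlu0)
    have h2 : Real.log (√(2 * Y) + 1) / Real.log (ZZ η Y) ≤ 1 + 15 * η := by
      rw [div_le_iff₀ hlu0, hlu]
      refine hlz.trans ?_
      have h3 : 1 / 2 * Real.log Y ≤ (1 + 14 * η) * ((1 / 2 - 6 * η) / (1 + η)) * Real.log Y :=
        mul_le_mul_of_nonneg_right hθ3 hL0.le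
      have h4 : 2 ≤ η * ((1 / 2 - 6 * η) / (1 + η)) * Real.log Y := by
        have h5 : 2 / 5 * (η * Real.log Y) ≤ (1 / 2 - 6 * η) / (1 + η) * (η * Real.log Y) :=
          mul_le_mul_of_nonneg_right hθ (by positivity)
        nlinarith
      nlinarith
    linarith
  have hC : C1 / Real.log (ZZ η Y) ≤ η := by
    rw [div_le_iff₀ hlu0, hlu]
    have h5 : 2 / 5 * (η * Real.log Y) ≤ (1 / 2 - 6 * η) / (1 + η) * (η * Real.log Y) :=
      mul_le_mul_of_nonneg_right hθ (by positivity)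
    nlinarith
  linarith

end Pool.Agent.Wd33b62
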