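import Pool.Agent.W_d33b62_h36.LDefs

/-!
# Labelings: sums of products, expectations, expansions (helper36, MP_d33b62_nt)
-/

set_option autoImplicit false

noncomputable section

open Finset

namespace Pool.Agent.Wd33b62

variable {ι V : Type} [Fintype ι] [DecidableEq ι] [Fintype V] [DecidableEq V]

/-- **Product formula.** `Finset.prod_univ_sum` and `Fintype.sum_option`. -/
theorem sum_prod (f : ι → Option V → ℝ) :
    ∑ c : ι → Option V, ∏ i, f i (c i) = ∏ i, (f i none + ∑ v, f i (some v)) := by
  have h := Finset.prod_univ_sum (fun _ : ι => (univ : Finset (Option V))) f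
  rw [Fintype.piFinset_univ] at h
  rw [← h]
  refine Finset.prod_congr rfl fun i _ => ?_
  exact Fintype.sum_option _

/-- `sum_prod` with `f = pv q`: every factor is `1`. -/
theorem Ex_one (q : ι → V → ℝ) : Ex q (fun _ => 1) = 1 := by
  unfold Ex prb
  simp only [mul_one]
  rw [sum_prod (fun i a => pv q i a)]
  refine Finset.prod_eq_one fun i _ => ?_
  simp [pv]

/-- All `prb q c` are nonnegative. -/
theorem prb_nonneg {q : ι → V → ℝ} (hq : QOK q) (c : ι → Option V) : 0 ≤ prb q c := by
  unfold prb
  refine Finset.prod_nonneg fun i _ => ?_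
  cases c i with
  | none => exact sub_nonneg.mpr (hq.2 i)
  | some v => exact hq.1 i v

theorem Ex_mono {q : ι → V → ℝ} (hq : QOK q) {F G : (ι → Option V) → ℝ} (h : ∀ c, F c ≤ G c) :
    Ex q F ≤ Ex q G := by
  unfold Ex
  exact Finset.sum_le_sum fun c _ => mul_le_mul_of_nonneg_left (h c) (prb_nonneg hq c)

/-- If `prb q c ≠ 0` implies `F c = G c` the expectations agree. -/
theorem Ex_congr {q : ι → V → ℝ} {F G : (ι → Option V) → ℝ} (h : ∀ c, prb q c ≠ 0 → F c = G c) :
    Ex q F = Ex q G := by
  unfold Ex
  refine Finset.sum_congr rfl fun c _ => ?_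
  by_cases hc : prb q c = 0
  · rw [hc, zero_mul, zero_mul]
  · rw [h c hc]

/-- If `q i v = 0` for all `v ∈ U` and all `i`, then labelings with positive probability have no label in `U`,
so `era U c = c`. -/
theorem era_of_prb {q : ι → V → ℝ} {U : Finset V} (hU : ∀ i, ∀ v ∈ U, q i v = 0) (c : ι → Option V)
    (hc : prb q c ≠ 0) : era U c = c := by
  funext i
  unfold era
  cases hi : c i with
  | none => rfl
  | some v =>
    have hv : v ∉ U := by
      intro hv
      refine hc ?_
      unfold prb
      refine Finset.prod_eq_zero (Finset.mem_univ i) ?_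
      rw [hi]
      exact hU i v hv
    simp [Option.filter, hv]

/-- If `q i v = 0` for all `i ∈ B` and all `v`, then labelings with positive probability have no label in `B`. -/
theorem off_of_prb {q : ι → V → ℝ} {B : Finset ι} (hB : ∀ i ∈ B, ∀ v, q i v = 0) (c : ι → Option V)
    (hc : prb q c ≠ 0) : off B c = c := by
  funext i
  unfold off
  split_ifs with hi
  · cases hci : c i with
    | none => rfl
    | some v =>
      refine absurd ?_ hc
      unfold prb
      refine Finset.prod_eq_zero (Finset.mem_univ i) ?_
      rw [hci]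
      exact hB i hi v
  · rfl

open Classical in
/-- **The probability that `σ` is a sub-labeling** is the product of the probabilities of its labels: `sum_prod` with
`f i a = pv q i a * [σ i = none ∨ σ i = a]`. -/
theorem Ex_sub (q : ι → V → ℝ) (σ : ι → Option V) :
    Ex q (fun c => if Sub σ c then 1 else 0) = qwt q σ := by
  have h1 : ∀ c : ι → Option V, prb q c * (if Sub σ c then 1 else 0) =
      ∏ i, (pv q i (c i) * if σ i = none ∨ σ i = c i then 1 else 0) := by
    intro c
    rw [Finset.prod_mul_distrib, Finset.prod_ite_zero]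
    have h2 : (∀ i ∈ (univ : Finset ι), σ i = none ∨ σ i = c i) ↔ Sub σ c :=
      ⟨fun h i => h i (Finset.mem_univ i), fun h i _ => h i⟩
    by_cases hs : Sub σ c
    · rw [if_pos hs, if_pos (h2.mpr hs), Finset.prod_const_one]
      rfl
    · rw [if_neg hs, if_neg (fun h => hs (h2.mp h)), mul_zero, mul_zero]
  unfold Ex qwt
  simp only [h1]
  rw [sum_prod (fun i a => pv q i a * if σ i = none ∨ σ i = a then 1 else 0)]
  refine Finset.prod_congr rfl fun i _ => ?_
  cases hi : σ i with
  | none => simp [pv, qv]
  | some w => simp [pv, qv, Finset.sum_ite_eq]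

/-- `HasExp` and `Ex_sub`, exchanging the sums. -/
theorem Ex_of_hasExp (q : ι → V → ℝ) {G α : (ι → Option V) → ℝ} (h : HasExp G α) :
    Ex q G = ∑ σ, α σ * qwt q σ := by
  classical
  have h1 : ∀ c : ι → Option V, prb q c * G c =
      ∑ σ, α σ * (prb q c * if Sub σ c then 1 else 0) := by
    intro c
    rw [h c, dn, Finset.sum_filter, Finset.mul_sum]
    refine Finset.sum_congr rfl fun σ _ => ?_
    split_ifs
    · ring
    · ring
  unfold Ex
  simp only [h1]
  rw [Finset.sum_comm]
  refine Finset.sum_congr rfl fun σ _ => ?_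
  rw [← Finset.mul_sum, ← Ex_sub q σ]
  rfl

end Pool.Agent.Wd33b62
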