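import Pool.Agent.W_d33b62_h36.LDefs

/-!
# Labelings: sums of products, expectations, expansions (helper36, MP_d33b62_nt)
-/

set_option autoImplicit false

noncomputable section

open Finset

namespace Pool.Agent.Wd33b62

variable {ι V : Type} [Fintype ι] [DecidableEq ι] [Fintype V] [DecidableEq V]

omit [Fintype ι] [DecidableEq ι] [Fintype V] [DecidableEq V] in
theorem LA2_trans {a b c : ι → Option V} (h : Sub a b) (h' : Sub b c) : Sub a c := by
  intro i
  rcases h i with h1 | h1
  · exact Or.inl h1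
  · rcases h' i with h2 | h2
    · exact Or.inl (h1.trans h2)
    · exact Or.inr (h1.trans h2)

open Classical in
theorem LA2_mem_dn {σ c : ι → Option V} : σ ∈ dn c ↔ Sub σ c := by
  unfold dn
  constructor
  · intro h
    exact (Finset.mem_filter.1 h).2
  · intro h
    exact Finset.mem_filter.2 ⟨Finset.mem_univ _, h⟩

theorem LA2_mem_supp {σ : ι → Option V} {i : ι} : i ∈ supp σ ↔ σ i ≠ none := by
  unfold supp
  rw [Finset.mem_filter]
  exact ⟨fun h => h.2, fun h => ⟨Finset.mem_univ _, h⟩⟩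

open Classical in
theorem LA2_dn {σ c : ι → Option V} (h : Sub σ c) : dn σ = (dn c).filter fun τ => Sub τ σ := by
  ext τ
  rw [Finset.mem_filter, LA2_mem_dn, LA2_mem_dn]
  exact ⟨fun h1 => ⟨LA2_trans h1 h, h1⟩, fun h1 => h1.2⟩

/-- The restriction of a labeling to a set of places. -/
def LA2_J (c : ι → Option V) (S : Finset ι) : ι → Option V := fun i => if i ∈ S then c i else none

theorem LA2_J_sub (c : ι → Option V) (S : Finset ι) : Sub (LA2_J c S) c := by
  intro i
  unfold LA2_J
  split_ifs with h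
  · exact Or.inr rfl
  · exact Or.inl rfl

theorem LA2_sub_J {σ c : ι → Option V} {S : Finset ι} (h : Sub σ c) (hS : supp σ ⊆ S) :
    Sub σ (LA2_J c S) := by
  intro i
  unfold LA2_J
  split_ifs with hi
  · exact h i
  · left
    by_contra hne
    exact hi (hS (LA2_mem_supp.2 hne))

theorem LA2_supp_sub {σ c : ι → Option V} (h : Sub σ c) : supp σ ⊆ supp c := by
  intro i hi
  rw [LA2_mem_supp] at hi ⊢
  rcases h i with h1 | h1
  · exact absurd h1 hi
  · rw [← h1]
    exact hi

theorem LA2_supp_J {c : ι → Option V} {S : Finset ι} (hS : S ⊆ supp c) : supp (LA2_J c S) = S := by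
  ext i
  rw [LA2_mem_supp]
  unfold LA2_J
  split_ifs with hi
  · exact ⟨fun _ => hi, fun _ => LA2_mem_supp.1 (hS hi)⟩
  · exact ⟨fun h => absurd rfl h, fun h => absurd h hi⟩

theorem LA2_eq_J {σ c : ι → Option V} {S : Finset ι} (h : Sub σ c) (hS : supp σ = S) :
    σ = LA2_J c S := by
  funext i
  unfold LA2_J
  split_ifs with hi
  · rw [← hS, LA2_mem_supp] at hi
    rcases h i with h1 | h1
    · exact absurd h1 hi
    · exact h1
  · rw [← hS, LA2_mem_supp, not_not] at hi
    exact hi

omit [Fintype ι] [DecidableEq ι] [Fintype V] in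
theorem LA2_filter (P : V → Prop) [DecidablePred P] (σ c : ι → Option V) :
    Sub σ (fun i => (c i).filter fun v => decide (P v)) ↔
      Sub σ c ∧ ∀ i v, σ i = some v → P v := by
  constructor
  · intro h
    constructor
    · intro i
      rcases h i with h1 | h1
      · exact Or.inl h1
      · cases hs : σ i with
        | none => exact Or.inl rfl
        | some v =>
          rw [hs] at h1
          have h2 := (Option.filter_eq_some_iff.1 h1.symm).1
          exact Or.inr h2.symm
    · intro i v hv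
      rcases h i with h1 | h1
      · rw [h1] at hv
        exact absurd hv (by simp)
      · rw [hv] at h1
        have h2 := (Option.filter_eq_some_iff.1 h1.symm).2
        exact of_decide_eq_true h2
  · rintro ⟨h1, h2⟩ i
    rcases h1 i with h3 | h3
    · exact Or.inl h3
    · cases hs : σ i with
      | none => exact Or.inl rfl
      | some v =>
        refine Or.inr (Option.filter_eq_some_iff.2 ⟨?_, ?_⟩).symm
        · rw [← h3, hs]
        · exact decide_eq_true (h2 i v hs)

/-- **Product of expansions.** `(∑_{σ₁ ≤ c} α σ₁)(∑_{σ₂ ≤ c} β σ₂)`; a pair of sub-labelings of `c` has a join `σ ≤ c`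
with `supp σ = supp σ₁ ∪ supp σ₂`, `σ₁, σ₂ ≤ σ`, and this `σ` is unique. -/
theorem HasExp.mul {G H α β : (ι → Option V) → ℝ} (hG : HasExp G α) (hH : HasExp H β) :
    HasExp (fun c => G c * H c) (conv α β) := by
  classical
  intro c
  show G c * H c = ∑ σ ∈ dn c, conv α β σ
  rw [hG c, hH c, Finset.sum_mul_sum]
  have h1 : ∀ σ ∈ dn c, conv α β σ = ∑ σ₁ ∈ dn c, ∑ σ₂ ∈ dn c,
      if (Sub σ₁ σ ∧ Sub σ₂ σ) ∧ supp σ₁ ∪ supp σ₂ = supp σ then α σ₁ * β σ₂ else 0 := by
    intro σ hσ
    unfold conv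
    rw [LA2_dn (LA2_mem_dn.1 hσ), Finset.sum_filter]
    refine Finset.sum_congr rfl fun σ₁ _ => ?_
    by_cases e1 : Sub σ₁ σ
    · rw [if_pos e1, Finset.sum_filter]
      refine Finset.sum_congr rfl fun σ₂ _ => ?_
      by_cases e2 : Sub σ₂ σ
      · rw [if_pos e2]
        by_cases e3 : supp σ₁ ∪ supp σ₂ = supp σ
        · rw [if_pos e3, if_pos ⟨⟨e1, e2⟩, e3⟩]
        · rw [if_neg e3, if_neg (fun h => e3 h.2)]
      · rw [if_neg e2, if_neg (fun h => e2 h.1.2)]
    · rw [if_neg e1]
      symm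
      refine Finset.sum_eq_zero fun σ₂ _ => ?_
      rw [if_neg (fun h => e1 h.1.1)]
  have h2 : ∑ σ ∈ dn c, conv α β σ = ∑ σ₁ ∈ dn c, ∑ σ₂ ∈ dn c, ∑ σ ∈ dn c,
      if (Sub σ₁ σ ∧ Sub σ₂ σ) ∧ supp σ₁ ∪ supp σ₂ = supp σ then α σ₁ * β σ₂ else 0 := by
    rw [Finset.sum_congr rfl h1, Finset.sum_comm]
    exact Finset.sum_congr rfl fun σ₁ _ => Finset.sum_comm
  rw [h2]
  refine Finset.sum_congr rfl fun σ₁ hσ₁ => Finset.sum_congr rfl fun σ₂ hσ₂ => ?_
  rw [LA2_mem_dn] at hσ₁ hσ₂
  have hS : supp σ₁ ∪ supp σ₂ ⊆ supp c :=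
    Finset.union_subset (LA2_supp_sub hσ₁) (LA2_supp_sub hσ₂)
  rw [Finset.sum_eq_single (LA2_J c (supp σ₁ ∪ supp σ₂))]
  · rw [if_pos]
    exact ⟨⟨LA2_sub_J hσ₁ Finset.subset_union_left, LA2_sub_J hσ₂ Finset.subset_union_right⟩,
      (LA2_supp_J hS).symm⟩
  · intro σ hσ hne
    rw [if_neg]
    rintro ⟨_, h3⟩
    exact hne (LA2_eq_J (LA2_mem_dn.1 hσ) h3.symm)
  · intro h
    exact absurd (LA2_mem_dn.2 (LA2_J_sub c _)) h

open Classical in
/-- `σ ≤ era U c` iff `σ ≤ c` and `σ` has no label in `U`. -/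
theorem HasExp.era {G α : (ι → Option V) → ℝ} (hG : HasExp G α) (U : Finset V) :
    HasExp (fun c => G (Pool.Agent.Wd33b62.era U c)) (fun σ => if ∀ i v, σ i = some v → v ∉ U then α σ else 0) := by
  intro c
  show G (Pool.Agent.Wd33b62.era U c) = _
  rw [hG, ← Finset.sum_filter]
  congr 1
  ext σ
  rw [Finset.mem_filter, LA2_mem_dn, LA2_mem_dn]
  exact LA2_filter (fun v => v ∉ U) σ c

open Classical in
theorem HasExp.kee {G α : (ι → Option V) → ℝ} (hG : HasExp G α) (U : Finset V) :
    HasExp (fun c => G (Pool.Agent.Wd33b62.kee U c)) (fun σ => if ∀ i v, σ i = some v → v ∈ U then α σ else 0) := by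
  intro c
  show G (Pool.Agent.Wd33b62.kee U c) = _
  rw [hG, ← Finset.sum_filter]
  congr 1
  ext σ
  rw [Finset.mem_filter, LA2_mem_dn, LA2_mem_dn]
  exact LA2_filter (fun v => v ∈ U) σ c

open Classical in
theorem HasExp.off {G α : (ι → Option V) → ℝ} (hG : HasExp G α) (B : Finset ι) :
    HasExp (fun c => G (Pool.Agent.Wd33b62.off B c)) (fun σ => if ∀ i ∈ B, σ i = none then α σ else 0) := by
  intro c
  show G (Pool.Agent.Wd33b62.off B c) = _
  rw [hG, ← Finset.sum_filter]
  congr 1
  ext σ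
  rw [Finset.mem_filter, LA2_mem_dn, LA2_mem_dn]
  constructor
  · intro h
    refine ⟨fun i => ?_, fun i hi => ?_⟩
    · rcases h i with h1 | h1
      · exact Or.inl h1
      · have h2 : Pool.Agent.Wd33b62.off B c i = if i ∈ B then none else c i := rfl
        rw [h2] at h1
        by_cases hi : i ∈ B
        · rw [if_pos hi] at h1
          exact Or.inl h1
        · rw [if_neg hi] at h1
          exact Or.inr h1
    · rcases h i with h1 | h1
      · exact h1
      · have h2 : Pool.Agent.Wd33b62.off B c i = if i ∈ B then none else c i := rfl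
        rw [h2, if_pos hi] at h1
        exact h1
  · rintro ⟨h1, h2⟩ i
    have h3 : Pool.Agent.Wd33b62.off B c i = if i ∈ B then none else c i := rfl
    by_cases hi : i ∈ B
    · exact Or.inl (h2 i hi)
    · rw [h3, if_neg hi]
      exact h1 i

end Pool.Agent.Wd33b62
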