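import Pool.Agent.W_d33b62_h36.LDefs

/-!
# Sums over labelings and products of one-variable sums (helper36, MP_d33b62_nt)
-/

set_option autoImplicit false

noncomputable section

open Finset

namespace Pool.Agent.Wd33b62

variable {ι V : Type} [Fintype ι] [DecidableEq ι] [Fintype V] [DecidableEq V]

/-- Removing a place: for antitone `h ≥ 0`, `∑_{S ∋ i} h(S) x(S) ≤ x i * ∑_S h(S) x(S)` (`S ↦ S \ {i}`). -/
theorem sum_mem_le (x : ι → ℝ) (hx : ∀ i, 0 ≤ x i) (h : Finset ι → ℝ) (hh : ∀ S, 0 ≤ h S)
    (ha : ∀ S T, S ⊆ T → h T ≤ h S) (i : ι) :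
    ∑ S ∈ univ.filter (fun S : Finset ι => i ∈ S), h S * ∏ j ∈ S, x j ≤ x i * BB x h := by
  have h1 : ∑ S ∈ univ.filter (fun S : Finset ι => i ∈ S), h S * ∏ j ∈ S, x j =
      ∑ S ∈ univ.filter (fun S : Finset ι => i ∉ S), h (insert i S) * (x i * ∏ j ∈ S, x j) := by
    refine Finset.sum_nbij' (fun S => S.erase i) (fun S => insert i S) ?_ ?_ ?_ ?_ ?_
    · intro S _
      exact Finset.mem_filter.2 ⟨Finset.mem_univ _, Finset.notMem_erase i S⟩
    · intro S _
      exact Finset.mem_filter.2 ⟨Finset.mem_univ _, Finset.mem_insert_self i S⟩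
    · intro S hS
      exact Finset.insert_erase (Finset.mem_filter.1 hS).2
    · intro S hS
      exact Finset.erase_insert (Finset.mem_filter.1 hS).2
    · intro S hS
      have hi := (Finset.mem_filter.1 hS).2
      show _ = h (insert i (S.erase i)) * (x i * ∏ j ∈ S.erase i, x j)
      rw [Finset.insert_erase hi, Finset.mul_prod_erase S x hi]
  rw [h1]
  unfold BB
  calc ∑ S ∈ univ.filter (fun S : Finset ι => i ∉ S), h (insert i S) * (x i * ∏ j ∈ S, x j)
      ≤ ∑ S ∈ univ.filter (fun S : Finset ι => i ∉ S), x i * (h S * ∏ j ∈ S, x j) := by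
        refine Finset.sum_le_sum fun S _ => ?_
        have h2 : 0 ≤ x i * ∏ j ∈ S, x j :=
          mul_nonneg (hx i) (Finset.prod_nonneg fun j _ => hx j)
        calc h (insert i S) * (x i * ∏ j ∈ S, x j) ≤ h S * (x i * ∏ j ∈ S, x j) :=
              mul_le_mul_of_nonneg_right (ha _ _ (Finset.subset_insert i S)) h2
          _ = x i * (h S * ∏ j ∈ S, x j) := by ring
    _ ≤ ∑ S : Finset ι, x i * (h S * ∏ j ∈ S, x j) := by
        refine Finset.sum_le_sum_of_subset_of_nonneg (Finset.filter_subset _ _) fun S _ _ => ?_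
        exact mul_nonneg (hx i) (mul_nonneg (hh S) (Finset.prod_nonneg fun j _ => hx j))
    _ = x i * ∑ S : Finset ι, h S * ∏ j ∈ S, x j := by rw [Finset.mul_sum]

theorem LC2_tilt (x : ι → ℝ) (hx : ∀ i, 0 ≤ x i) (C : ℝ) (hC : 0 ≤ C) (h : Finset ι → ℝ) (hh : ∀ S, 0 ≤ h S)
    (ha : ∀ S T, S ⊆ T → h T ≤ h S) (A : Finset ι) :
    BB (fun i => if i ∈ A then x i * (1 + C * x i) else x i) h ≤
      (∏ i ∈ A, (1 + C * x i ^ 2)) * BB x h := by
  induction A using Finset.induction_on with
  | empty => simp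
  | insert a A haA ih =>
    set x' : ι → ℝ := fun i => if i ∈ A then x i * (1 + C * x i) else x i with hx'
    have hx'0 : ∀ i, 0 ≤ x' i := by
      intro i
      rw [hx']
      show 0 ≤ if i ∈ A then x i * (1 + C * x i) else x i
      split_ifs
      · have := hx i
        positivity
      · exact hx i
    have hxa : x' a = x a := by
      rw [hx']
      exact if_neg haA
    have hp : ∀ S : Finset ι, ∏ i ∈ S, (if i ∈ insert a A then x i * (1 + C * x i) else x i) =
        ∏ i ∈ S, x' i + if a ∈ S then C * x a * ∏ i ∈ S, x' i else 0 := by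
      intro S
      by_cases haS : a ∈ S
      · rw [if_pos haS, ← Finset.mul_prod_erase S _ haS, ← Finset.mul_prod_erase S x' haS,
          if_pos (Finset.mem_insert_self a A), hxa]
        have h1 : ∏ i ∈ S.erase a, (if i ∈ insert a A then x i * (1 + C * x i) else x i) =
            ∏ i ∈ S.erase a, x' i := by
          refine Finset.prod_congr rfl fun i hi => ?_
          have hia : i ≠ a := (Finset.mem_erase.1 hi).1
          rw [hx']
          show _ = if i ∈ A then x i * (1 + C * x i) else x i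
          by_cases hA : i ∈ A
          · rw [if_pos hA, if_pos (Finset.mem_insert_of_mem hA)]
          · rw [if_neg hA, if_neg (fun h => (Finset.mem_insert.1 h).elim hia hA)]
        rw [h1]
        ring
      · rw [if_neg haS, add_zero]
        refine Finset.prod_congr rfl fun i hi => ?_
        have hia : i ≠ a := fun h => haS (h ▸ hi)
        rw [hx']
        show _ = if i ∈ A then x i * (1 + C * x i) else x i
        by_cases hA : i ∈ A
        · rw [if_pos hA, if_pos (Finset.mem_insert_of_mem hA)]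
        · rw [if_neg hA, if_neg (fun h => (Finset.mem_insert.1 h).elim hia hA)]
    have h2 : BB (fun i => if i ∈ insert a A then x i * (1 + C * x i) else x i) h =
        BB x' h + C * x a * ∑ S ∈ univ.filter (fun S : Finset ι => a ∈ S), h S * ∏ j ∈ S, x' j := by
      unfold BB
      rw [Finset.sum_filter, Finset.mul_sum, ← Finset.sum_add_distrib]
      refine Finset.sum_congr rfl fun S _ => ?_
      rw [hp S]
      split_ifs
      · ring
      · ring
    have h3 := sum_mem_le x' hx'0 h hh ha a
    have h4 : 0 ≤ C * x a := mul_nonneg hC (hx a)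
    rw [h2, Finset.prod_insert haA]
    calc BB x' h + C * x a * ∑ S ∈ univ.filter (fun S : Finset ι => a ∈ S), h S * ∏ j ∈ S, x' j
        ≤ BB x' h + C * x a * (x' a * BB x' h) := by
          have := mul_le_mul_of_nonneg_left h3 h4
          linarith
      _ = (1 + C * x a ^ 2) * BB x' h := by
          rw [hxa]
          ring
      _ ≤ (1 + C * x a ^ 2) * ((∏ i ∈ A, (1 + C * x i ^ 2)) * BB x h) := by
          refine mul_le_mul_of_nonneg_left ih ?_
          positivity
      _ = _ := by ring

/-- **Perturbed weights.** `∏_{i ∈ S} (1 + C x i) = ∑_{T ⊆ S} ∏_{i ∈ T} C x i`, `h(S) ≤ h(S \ T)`, so the sum is at most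
`BB x h * ∑_T ∏_{i ∈ T} C x i ^ 2 = BB x h * ∏ (1 + C x i ^ 2) ≤ BB x h * exp (C SX)`. -/
theorem sum_tilt_le (x : ι → ℝ) (hx : ∀ i, 0 ≤ x i) (C : ℝ) (hC : 0 ≤ C) (h : Finset ι → ℝ) (hh : ∀ S, 0 ≤ h S)
    (ha : ∀ S T, S ⊆ T → h T ≤ h S) :
    ∑ S : Finset ι, h S * ∏ i ∈ S, (x i * (1 + C * x i)) ≤ Real.exp (C * SX x) * BB x h := by
  have h1 := LC2_tilt x hx C hC h hh ha univ
  have h2 : BB (fun i => if i ∈ (univ : Finset ι) then x i * (1 + C * x i) else x i) h =
      ∑ S : Finset ι, h S * ∏ i ∈ S, (x i * (1 + C * x i)) := by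
    unfold BB
    refine Finset.sum_congr rfl fun S _ => ?_
    congr 1
    refine Finset.prod_congr rfl fun i _ => ?_
    exact if_pos (Finset.mem_univ i)
  rw [← h2]
  refine h1.trans (mul_le_mul_of_nonneg_right ?_ ?_)
  · calc ∏ i, (1 + C * x i ^ 2) ≤ ∏ i, Real.exp (C * x i ^ 2) := by
          refine Finset.prod_le_prod (fun i _ => ?_) (fun i _ => ?_)
          · positivity
          · have := Real.add_one_le_exp (C * x i ^ 2)
            linarith
      _ = Real.exp (C * SX x) := by
          rw [← Real.exp_sum]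
          unfold SX
          rw [Finset.mul_sum]
  · unfold BB
    exact Finset.sum_nonneg fun S _ => mul_nonneg (hh S) (Finset.prod_nonneg fun j _ => hx j)

end Pool.Agent.Wd33b62
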