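import Pool.Agent.W_d33b62_h36.LC1
import Pool.Agent.W_d33b62_h36.LC2

/-!
# Sums over labelings and products of one-variable sums (helper36, MP_d33b62_nt)
-/

set_option autoImplicit false

noncomputable section

open Finset

namespace Pool.Agent.Wd33b62

variable {ι V : Type} [Fintype ι] [DecidableEq ι] [Fintype V] [DecidableEq V]

/-- The weights extended by the indicator of the empty set outside of `U`. -/
def LC3_h (U : Finset V) (h : V → Finset ι → ℝ) (v : V) (S : Finset ι) : ℝ :=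
  if v ∈ U then h v S else if S = ∅ then 1 else 0

theorem LC3_h_nonneg (U : Finset V) (h : V → Finset ι → ℝ) (hh : ∀ v S, 0 ≤ h v S) (v : V)
    (S : Finset ι) : 0 ≤ LC3_h U h v S := by
  unfold LC3_h
  split_ifs
  · exact hh v S
  · exact zero_le_one
  · exact le_rfl

theorem LC3_h_anti (U : Finset V) (h : V → Finset ι → ℝ)
    (ha : ∀ v S T, S ⊆ T → h v T ≤ h v S) (v : V) (S T : Finset ι) (hST : S ⊆ T) :
    LC3_h U h v T ≤ LC3_h U h v S := by
  unfold LC3_h
  by_cases hv : v ∈ U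
  · rw [if_pos hv, if_pos hv]
    exact ha v S T hST
  · rw [if_neg hv, if_neg hv]
    by_cases hT : T = ∅
    · have hS : S = ∅ := Finset.subset_empty.1 (hT ▸ hST)
      rw [if_pos hT, if_pos hS]
    · rw [if_neg hT]
      split_ifs
      · exact zero_le_one
      · exact le_rfl

theorem LC3_BB (x : ι → ℝ) (U : Finset V) (h : V → Finset ι → ℝ) :
    ∏ v, BB x (LC3_h U h v) = ∏ u ∈ U, BB x (h u) := by
  rw [← Finset.prod_mul_prod_compl U]
  have h1 : ∏ v ∈ Uᶜ, BB x (LC3_h U h v) = 1 := by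
    refine Finset.prod_eq_one fun v hv => ?_
    rw [Finset.mem_compl] at hv
    unfold BB LC3_h
    simp only [if_neg hv]
    rw [Finset.sum_eq_single ∅]
    · rw [if_pos rfl, Finset.prod_empty, one_mul]
    · intro S _ hS
      rw [if_neg hS, zero_mul]
    · intro hc
      exact absurd (Finset.mem_univ _) hc
  rw [h1, mul_one]
  refine Finset.prod_congr rfl fun v hv => ?_
  unfold BB LC3_h
  simp only [if_pos hv]

/-- The tuples with `i ∈ S u` for all `u ∈ W`. -/
theorem LC3_mem (x : ι → ℝ) (hx : ∀ i, 0 ≤ x i) (g : V → Finset ι → ℝ) (hg : ∀ v S, 0 ≤ g v S)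
    (ga : ∀ v S T, S ⊆ T → g v T ≤ g v S) (i : ι) (W : Finset V) :
    ∑ S ∈ univ.filter (fun S : V → Finset ι => ∀ u ∈ W, i ∈ S u), LC1_P (fun i _ => x i) g S ≤
      x i ^ W.card * ∏ v, BB x (g v) := by
  have h1 : univ.filter (fun S : V → Finset ι => ∀ u ∈ W, i ∈ S u) =
      Fintype.piFinset (fun v => if v ∈ W then univ.filter (fun S : Finset ι => i ∈ S) else univ) := by
    ext S
    rw [Finset.mem_filter, Fintype.mem_piFinset]
    constructor
    · rintro ⟨-, h⟩ v
      split_ifs with hv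
      · rw [Finset.mem_filter]
        exact ⟨Finset.mem_univ _, h v hv⟩
      · exact Finset.mem_univ _
    · intro h
      refine ⟨Finset.mem_univ _, fun u hu => ?_⟩
      have h2 := h u
      rw [if_pos hu, Finset.mem_filter] at h2
      exact h2.2
  rw [h1, LC1_pi]
  have hBB : ∀ v, 0 ≤ BB x (g v) := fun v =>
    Finset.sum_nonneg fun S _ => mul_nonneg (hg v S) (Finset.prod_nonneg fun j _ => hx j)
  have h2 : x i ^ W.card * ∏ v, BB x (g v) = ∏ v, ((if v ∈ W then x i else 1) * BB x (g v)) := by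
    rw [Finset.prod_mul_distrib]
    congr 1
    rw [Finset.prod_ite_mem, Finset.univ_inter, Finset.prod_const]
  rw [h2]
  refine Finset.prod_le_prod (fun v _ => Finset.sum_nonneg fun S _ =>
    mul_nonneg (hg v S) (Finset.prod_nonneg fun j _ => hx j)) fun v _ => ?_
  by_cases hv : v ∈ W
  · rw [if_pos hv, if_pos hv]
    exact sum_mem_le x hx (g v) (hg v) (ga v) i
  · rw [if_neg hv, if_neg hv, one_mul]
    exact le_rfl

theorem LC3_xwt (x : ι → ℝ) (κ : ι → Option V) : xwt x κ = qwt (fun i _ => x i) κ := by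
  unfold xwt qwt supp
  rw [Finset.prod_filter]
  refine Finset.prod_congr rfl fun i _ => ?_
  cases hi : κ i with
  | none => simp [qv]
  | some u => simp [qv]

/-- The number of the coincidences. -/
def LC3_N (T : Finset ι) (S : V → Finset ι) : ℝ :=
  (∑ u : V, ∑ i ∈ T, if i ∈ S u then 1 else 0) +
    ∑ p ∈ (univ : Finset V).offDiag, ∑ i : ι, if i ∈ S p.1 ∧ i ∈ S p.2 then 1 else 0

theorem LC3_N_nonneg (T : Finset ι) (S : V → Finset ι) : 0 ≤ LC3_N T S := by
  unfold LC3_N
  refine add_nonneg (Finset.sum_nonneg fun u _ => Finset.sum_nonneg fun i _ => ?_)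
    (Finset.sum_nonneg fun p _ => Finset.sum_nonneg fun i _ => ?_)
  · split_ifs <;> norm_num
  · split_ifs <;> norm_num

theorem LC3_N_one {T : Finset ι} {S : V → Finset ι}
    (h : (∃ u, ∃ i ∈ T, i ∈ S u) ∨ ∃ u u', u ≠ u' ∧ ∃ i, i ∈ S u ∧ i ∈ S u') :
    1 ≤ LC3_N T S := by
  unfold LC3_N
  have h1 : 0 ≤ ∑ u : V, ∑ i ∈ T, (if i ∈ S u then 1 else 0 : ℝ) :=
    Finset.sum_nonneg fun u _ => Finset.sum_nonneg fun i _ => by split_ifs <;> norm_num
  have h2 : 0 ≤ ∑ p ∈ (univ : Finset V).offDiag, ∑ i : ι,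
      (if i ∈ S p.1 ∧ i ∈ S p.2 then 1 else 0 : ℝ) :=
    Finset.sum_nonneg fun u _ => Finset.sum_nonneg fun i _ => by split_ifs <;> norm_num
  rcases h with ⟨u, i, hi, hu⟩ | ⟨u, u', huu, i, h3, h4⟩
  · have h3 : (1 : ℝ) ≤ ∑ u : V, ∑ i ∈ T, (if i ∈ S u then 1 else 0 : ℝ) := by
      calc (1 : ℝ) = if i ∈ S u then 1 else 0 := by rw [if_pos hu]
        _ ≤ ∑ i ∈ T, (if i ∈ S u then 1 else 0 : ℝ) :=
          Finset.single_le_sum (f := fun i => (if i ∈ S u then 1 else 0 : ℝ))
            (fun j _ => by beta_reduce; split_ifs <;> norm_num) hi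
        _ ≤ ∑ u : V, ∑ i ∈ T, (if i ∈ S u then 1 else 0 : ℝ) :=
          Finset.single_le_sum (f := fun u => ∑ i ∈ T, (if i ∈ S u then 1 else 0 : ℝ))
            (fun j _ => Finset.sum_nonneg fun i _ => by split_ifs <;> norm_num) (Finset.mem_univ u)
    linarith
  · have h5 : (1 : ℝ) ≤ ∑ p ∈ (univ : Finset V).offDiag, ∑ i : ι,
        (if i ∈ S p.1 ∧ i ∈ S p.2 then 1 else 0 : ℝ) := by
      calc (1 : ℝ) = if i ∈ S u ∧ i ∈ S u' then 1 else 0 := by rw [if_pos ⟨h3, h4⟩]
        _ ≤ ∑ i : ι, (if i ∈ S u ∧ i ∈ S u' then 1 else 0 : ℝ) :=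
          Finset.single_le_sum (f := fun i => (if i ∈ S u ∧ i ∈ S u' then 1 else 0 : ℝ))
            (fun j _ => by beta_reduce; split_ifs <;> norm_num) (Finset.mem_univ i)
        _ ≤ ∑ p ∈ (univ : Finset V).offDiag, ∑ i : ι,
            (if i ∈ S p.1 ∧ i ∈ S p.2 then 1 else 0 : ℝ) :=
          Finset.single_le_sum (f := fun p : V × V => ∑ i : ι,
            (if i ∈ S p.1 ∧ i ∈ S p.2 then 1 else 0 : ℝ)) (a := (u, u'))
            (fun j _ => Finset.sum_nonneg fun i _ => by split_ifs <;> norm_num)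
            (Finset.mem_offDiag.2 ⟨Finset.mem_univ u, Finset.mem_univ u', huu⟩)
    linarith

theorem LC3_N_sum (x : ι → ℝ) (hx : ∀ i, 0 ≤ x i) (g : V → Finset ι → ℝ) (hg : ∀ v S, 0 ≤ g v S)
    (ga : ∀ v S T, S ⊆ T → g v T ≤ g v S) (T : Finset ι) :
    ∑ S : V → Finset ι, LC3_N T S * LC1_P (fun i _ => x i) g S ≤
      (Fintype.card V * ∑ i ∈ T, x i + Fintype.card V ^ 2 * SX x) * ∏ v, BB x (g v) := by
  have hBB : 0 ≤ ∏ v, BB x (g v) := Finset.prod_nonneg fun v _ =>
    Finset.sum_nonneg fun S _ => mul_nonneg (hg v S) (Finset.prod_nonneg fun j _ => hx j)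
  have h0 : ∀ S : V → Finset ι, LC3_N T S * LC1_P (fun i _ => x i) g S =
      (∑ u : V, ∑ i ∈ T, if i ∈ S u then LC1_P (fun i _ => x i) g S else 0) +
      ∑ p ∈ (univ : Finset V).offDiag, ∑ i : ι,
        if i ∈ S p.1 ∧ i ∈ S p.2 then LC1_P (fun i _ => x i) g S else 0 := by
    intro S
    unfold LC3_N
    rw [add_mul, Finset.sum_mul, Finset.sum_mul]
    simp only [Finset.sum_mul, ite_mul, one_mul, zero_mul]
  simp only [h0, Finset.sum_add_distrib]
  rw [add_mul]
  refine add_le_add ?_ ?_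
  · rw [Finset.sum_comm]
    have h1 : ∀ u : V, ∑ S : V → Finset ι, ∑ i ∈ T,
        (if i ∈ S u then LC1_P (fun i _ => x i) g S else 0) ≤
        (∑ i ∈ T, x i) * ∏ v, BB x (g v) := by
      intro u
      rw [Finset.sum_comm, Finset.sum_mul]
      refine Finset.sum_le_sum fun i _ => ?_
      rw [← Finset.sum_filter]
      have h2 := LC3_mem x hx g hg ga i {u}
      rw [Finset.card_singleton, pow_one] at h2
      simpa using h2
    refine (Finset.sum_le_sum fun u _ => h1 u).trans (le_of_eq ?_)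
    rw [Finset.sum_const, Finset.card_univ, nsmul_eq_mul, mul_assoc]
  · rw [Finset.sum_comm]
    have h1 : ∀ p ∈ (univ : Finset V).offDiag, ∑ S : V → Finset ι, ∑ i : ι,
        (if i ∈ S p.1 ∧ i ∈ S p.2 then LC1_P (fun i _ => x i) g S else 0) ≤
        SX x * ∏ v, BB x (g v) := by
      intro p hp
      rw [Finset.mem_offDiag] at hp
      rw [Finset.sum_comm, SX, Finset.sum_mul]
      refine Finset.sum_le_sum fun i _ => ?_
      rw [← Finset.sum_filter]
      have h2 := LC3_mem x hx g hg ga i {p.1, p.2}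
      rw [Finset.card_pair hp.2.2] at h2
      simpa using h2
    refine (Finset.sum_le_sum h1).trans ?_
    rw [Finset.sum_const, nsmul_eq_mul, mul_assoc]
    refine mul_le_mul_of_nonneg_right ?_ (mul_nonneg (Finset.sum_nonneg fun i _ => sq_nonneg _) hBB)
    have h2 : (univ : Finset V).offDiag.card ≤ Fintype.card V ^ 2 := by
      rw [Finset.offDiag_card, Finset.card_univ, sq]
      exact Nat.sub_le _ _
    exact_mod_cast h2

/-- A tuple without coincidences comes from a labeling. -/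
theorem LC3_exists {T : Finset ι} {U : Finset V} {S : V → Finset ι} (hU : ∀ v, v ∉ U → S v = ∅)
    (hT : ∀ u, ∀ i ∈ T, i ∉ S u) (hd : ∀ u u' i, i ∈ S u → i ∈ S u' → u = u') :
    ∃ κ : ι → Option V, ((∀ i ∈ T, κ i = none) ∧ ∀ i v, κ i = some v → v ∈ U) ∧
      (fun v => fib κ v) = S := by
  classical
  refine ⟨fun i => if h : ∃ u, i ∈ S u then some h.choose else none, ⟨?_, ?_⟩, ?_⟩
  · intro i hi
    beta_reduce
    rw [dif_neg]
    rintro ⟨u, hu⟩
    exact hT u i hi hu
  · intro i v hv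
    beta_reduce at hv
    split_ifs at hv with h
    by_contra hvU
    have h1 := h.choose_spec
    rw [Option.some.injEq] at hv
    rw [hv, hU v hvU] at h1
    exact Finset.notMem_empty i h1
  · funext v
    ext i
    unfold fib
    rw [Finset.mem_filter]
    constructor
    · rintro ⟨-, h2⟩
      beta_reduce at h2
      split_ifs at h2 with h
      rw [Option.some.injEq] at h2
      have h1 := h.choose_spec
      rwa [h2] at h1
    · intro hi
      refine ⟨Finset.mem_univ _, ?_⟩
      have h : ∃ u, i ∈ S u := ⟨v, hi⟩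
      beta_reduce
      rw [dif_pos h, Option.some.injEq]
      exact hd _ _ i h.choose_spec hi

/-- **Lower bound with disjointness.** Tuples `(S_u)_{u ∈ U}` of subsets which are pairwise disjoint and disjoint from
`T` correspond to the labelings on the left. The tuples with `i ∈ S_u` for an `i ∈ T` contribute at most
`|U| x i ∏ BB` (`sum_mem_le`), those with `i ∈ S_u ∩ S_u'`, `u ≠ u'`, at most `x i ^ 2 ∏ BB` each. (If the first factor of the
left side is negative there is nothing to prove, but no case distinction is needed.) -/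
theorem disj_lower (x : ι → ℝ) (hx : ∀ i, 0 ≤ x i) (h : V → Finset ι → ℝ) (hh : ∀ v S, 0 ≤ h v S)
    (ha : ∀ v S T, S ⊆ T → h v T ≤ h v S) (T : Finset ι) (U : Finset V) :
    (1 - Fintype.card V * ∑ i ∈ T, x i - Fintype.card V ^ 2 * SX x) * ∏ u ∈ U, BB x (h u) ≤
      ∑ κ ∈ univ.filter (fun κ : ι → Option V => (∀ i ∈ T, κ i = none) ∧ ∀ i v, κ i = some v → v ∈ U),
        (∏ u ∈ U, h u (fib κ u)) * xwt x κ := by
  classical
  obtain ⟨F, hF⟩ : ∃ F : Finset (ι → Option V), F = univ.filter (fun κ : ι → Option V =>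
    (∀ i ∈ T, κ i = none) ∧ ∀ i v, κ i = some v → v ∈ U) := ⟨_, rfl⟩
  have hg := LC3_h_nonneg U h hh
  have ga := LC3_h_anti U h ha
  have hP : ∀ S, 0 ≤ LC1_P (fun i _ => x i) (LC3_h U h) S :=
    LC1_nonneg _ (fun i _ => hx i) _ hg
  have h1 : ∑ κ ∈ F, (∏ u ∈ U, h u (fib κ u)) * xwt x κ =
      ∑ S ∈ F.image (fun κ v => fib κ v), LC1_P (fun i _ => x i) (LC3_h U h) S := by
    rw [Finset.sum_image (fun a _ b _ hab => LC1_inj hab)]
    refine Finset.sum_congr rfl fun κ hκ => ?_
    rw [← LC1_term, LC3_xwt]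
    congr 1
    rw [← Finset.prod_mul_prod_compl U]
    have h2 : ∏ v ∈ Uᶜ, LC3_h U h v (fib κ v) = 1 := by
      refine Finset.prod_eq_one fun v hv => ?_
      rw [Finset.mem_compl] at hv
      unfold LC3_h
      rw [if_neg hv, if_pos]
      rw [hF, Finset.mem_filter] at hκ
      refine Finset.eq_empty_of_forall_notMem fun i hi => hv ?_
      unfold fib at hi
      rw [Finset.mem_filter] at hi
      exact hκ.2.2 i v hi.2
    rw [h2, mul_one]
    refine Finset.prod_congr rfl fun v hv => ?_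
    unfold LC3_h
    rw [if_pos hv]
  rw [← hF, h1, ← LC3_BB x U h]
  have h3 : ∑ S : V → Finset ι, LC1_P (fun i _ => x i) (LC3_h U h) S =
      ∏ v, BB x (LC3_h U h v) := by
    rw [← Fintype.piFinset_univ, LC1_pi]
    rfl
  have h4 : ∑ S : V → Finset ι, LC1_P (fun i _ => x i) (LC3_h U h) S ≤
      ∑ S ∈ F.image (fun κ v => fib κ v), LC1_P (fun i _ => x i) (LC3_h U h) S +
      ∑ S : V → Finset ι, LC3_N T S * LC1_P (fun i _ => x i) (LC3_h U h) S := by
    rw [← Finset.sum_add_sum_compl (F.image (fun κ v => fib κ v))]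
    refine add_le_add le_rfl ?_
    refine le_trans ?_ (Finset.sum_le_sum_of_subset_of_nonneg (Finset.subset_univ
      (F.image (fun κ v => fib κ v))ᶜ) fun S _ _ => mul_nonneg (LC3_N_nonneg T S) (hP S))
    refine Finset.sum_le_sum fun S hS => ?_
    rw [Finset.mem_compl] at hS
    by_cases hPS : LC1_P (fun i _ => x i) (LC3_h U h) S = 0
    · rw [hPS, mul_zero]
    · have hU : ∀ v, v ∉ U → S v = ∅ := by
        intro v hv
        by_contra hne
        apply hPS
        unfold LC1_P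
        refine Finset.prod_eq_zero (Finset.mem_univ v) ?_
        unfold LC3_h
        rw [if_neg hv, if_neg hne, zero_mul]
      have hN : 1 ≤ LC3_N T S := by
        apply LC3_N_one
        by_contra hcon
        rw [not_or] at hcon
        obtain ⟨hc1, hc2⟩ := hcon
        push Not at hc1 hc2
        obtain ⟨κ, hκ, hfib⟩ := LC3_exists (T := T) (U := U) (S := S) hU hc1
          (fun u u' i hi hi' => by
            by_contra huu
            exact hc2 u u' huu i hi hi')
        apply hS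
        rw [Finset.mem_image]
        refine ⟨κ, ?_, hfib⟩
        rw [hF, Finset.mem_filter]
        exact ⟨Finset.mem_univ _, hκ⟩
      have := mul_le_mul_of_nonneg_right hN (hP S)
      rwa [one_mul] at this
  have h5 := LC3_N_sum x hx (LC3_h U h) hg ga T
  rw [h3] at h4
  have h6 : (1 - Fintype.card V * ∑ i ∈ T, x i - Fintype.card V ^ 2 * SX x) *
      ∏ v, BB x (LC3_h U h v) = ∏ v, BB x (LC3_h U h v) -
      (Fintype.card V * ∑ i ∈ T, x i + Fintype.card V ^ 2 * SX x) * ∏ v, BB x (LC3_h U h v) := by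
    ring
  rw [h6]
  linarith

end Pool.Agent.Wd33b62
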