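import Pool.Agent.W_d33b62_h36.LA3
import Pool.Agent.W_d33b62_h36.LC3

/-!
# Upper and lower bounds for the Selberg form in a perturbed model (helper36, MP_d33b62_nt)
-/

set_option autoImplicit false

noncomputable section

open Finset

namespace Pool.Agent.Wd33b62

variable {ι V : Type} [Fintype ι] [DecidableEq ι] [Fintype V] [DecidableEq V]

theorem LG1_prod_fib (w : ι → V → ℝ) (κ : ι → Option V) (T : Finset ι) :
    ∏ v, ∏ i ∈ fib κ v \ T, w i v = ∏ i ∈ supp κ \ T, qv w i (κ i) := by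
  have h1 : ∀ v, fib κ v \ T = (univ \ T).filter fun i => κ i = some v := by
    intro v
    ext i
    simp only [fib, Finset.mem_sdiff, Finset.mem_filter, Finset.mem_univ, true_and]
    tauto
  simp_rw [h1, Finset.prod_filter]
  rw [Finset.prod_comm]
  have h2 : ∀ i, (∏ v, if κ i = some v then w i v else 1) = qv w i (κ i) := by
    intro i
    cases hi : κ i with
    | none => simp [qv]
    | some u => simp [qv, Finset.prod_ite_eq]
  simp_rw [h2]
  symm
  refine Finset.prod_subset (Finset.sdiff_subset_sdiff (Finset.subset_univ _) le_rfl) fun i hi hi2 => ?_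
  have h3 : κ i = none := by
    by_contra hne
    refine hi2 (Finset.mem_sdiff.mpr ⟨?_, (Finset.mem_sdiff.mp hi).2⟩)
    exact LA3_mem_supp.mpr hne
  rw [h3]
  rfl

theorem LG1_inj (τ : ι → Option V) :
    Set.InjOn (fun κ : ι → Option V => fun v => fib κ v \ supp τ) (up τ) := by
  intro κ hκ κ' hκ' he
  have h1 := LA3_mem_up.1 (Finset.mem_coe.1 hκ)
  have h2 := LA3_mem_up.1 (Finset.mem_coe.1 hκ')
  funext i
  by_cases hi : τ i = none
  · have hi' : i ∉ supp τ := fun h => (Finset.mem_filter.1 h).2 hi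
    have h3 : ∀ v, κ i = some v ↔ κ' i = some v := by
      intro v
      have h4 := Finset.ext_iff.1 (congrFun he v) i
      simp only [fib, Finset.mem_sdiff, Finset.mem_filter, Finset.mem_univ, true_and] at h4
      exact ⟨fun h => (h4.1 ⟨h, hi'⟩).1, fun h => (h4.2 ⟨h, hi'⟩).1⟩
    exact Option.ext h3
  · rw [← (h1 i).resolve_left hi, ← (h2 i).resolve_left hi]

theorem LG1_bad {x : ι → ℝ} {C : ℝ} (hC : 0 ≤ C) (hx : ∀ i, 0 < x i) (B : Finset ι) :
    ∏ i, (1 + if i ∈ B then x i else C * x i ^ 2) ≤ (∏ i ∈ B, (1 + x i)) * Real.exp (C * SX x) := by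
  have h1 : (∏ i ∈ B, (1 + x i)) * Real.exp (C * SX x) =
      ∏ i, ((if i ∈ B then 1 + x i else 1) * Real.exp (C * x i ^ 2)) := by
    rw [Finset.prod_mul_distrib, Finset.prod_ite_mem, Finset.univ_inter, ← Real.exp_sum, SX, Finset.mul_sum]
  rw [h1]
  refine Finset.prod_le_prod (fun i _ => ?_) fun i _ => ?_
  · have := (hx i).le
    split_ifs
    · positivity
    · positivity
  · have h2 : 0 ≤ C * x i ^ 2 := by positivity
    have h3 := (hx i).le
    have h4 := Real.add_one_le_exp (C * x i ^ 2)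
    split_ifs
    · have h5 : 1 ≤ Real.exp (C * x i ^ 2) := Real.one_le_exp h2
      nlinarith
    · linarith

/-- **Bound for the coefficients in the centred basis.**

Proof. `qwt q τ ≠ 0`: no label of `τ` is in `U` and no place of `B` is labelled. For `κ ≥ τ` let `κ'` be the part of `κ`
outside of `supp τ`. `y κ ≤ ∏_v g v (fib κ v) ≤ ∏_{v ∉ U} g v (fib τ v) * ∏_{u ∈ U} g u (fib κ' u)` (antitone;
`fib κ u = fib κ' u` for `u ∈ U`). The factor at a place `i` of `κ'` is `x i` if `κ i ∈ U` or `i ∈ B` (there `q = 0`) and at most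
`C x i ^ 2` else. Sum over all labelings `κ'` with `prod_upper` (`h u = g u` for `u ∈ U`, `h v = 1` for `v ∉ U`,
`w i u = x i` for `u ∈ U`, `w i v = x i` for `v ∉ U`, `i ∈ B`, `w i v = C x i ^ 2` else):
`∏_{v ∉ U} ∏_i (1 + w i v) ≤ ∏_{i ∈ B} (1 + x i) ^ K * ∏_i (1 + C x i ^ 2) ^ K ≤ Th * exp (K C SX)`. -/
theorem zz_abs_le {x : ι → ℝ} {g : V → Finset ι → ℝ} (hG : GH x g) {q : ι → V → ℝ} {U : Finset V} {B : Finset ι}
    {C : ℝ} (hC : 0 ≤ C) (hQ : QH x q U B C) {y : (ι → Option V) → ℝ} (hy0 : ∀ κ, 0 ≤ y κ)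
    (hy : ∀ κ, y κ ≤ ∏ v, g v (fib κ v)) (τ : ι → Option V) (hτ : qwt q τ ≠ 0) :
    |zz x y q τ| ≤ (∏ v ∈ Uᶜ, g v (fib τ v)) * (∏ u ∈ U, BB x (g u)) * Th V x B *
      Real.exp (Fintype.card V * C * SX x) := by
  classical
  have hx : ∀ i, 0 ≤ x i := fun i => (hG.x_pos i).le
  obtain ⟨w, hw⟩ : ∃ w : ι → V → ℝ, w = fun i v => if v ∈ U ∨ i ∈ B then x i else C * x i ^ 2 := ⟨_, rfl⟩
  obtain ⟨h, hh⟩ : ∃ h : V → Finset ι → ℝ, h = fun v S => if v ∈ U then g v S else g v (fib τ v) := ⟨_, rfl⟩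
  have hw0 : ∀ i v, 0 ≤ w i v := by
    intro i v
    rw [hw]
    simp only
    split_ifs
    · exact hx i
    · have := hx i
      positivity
  have hh0 : ∀ v S, 0 ≤ h v S := by
    intro v S
    rw [hh]
    simp only
    split_ifs <;> exact hG.g_nonneg _ _
  -- the bound of a single term
  have hterm : ∀ κ ∈ up τ, |y κ * ∏ i ∈ supp κ \ supp τ, (x i - qv q i (κ i))| ≤
      LC1_P w h (fun v => fib κ v \ supp τ) := by
    intro κ hκ
    have hκ' := LA3_mem_up.1 hκ
    unfold LC1_P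
    rw [abs_mul, abs_of_nonneg (hy0 κ), Finset.prod_mul_distrib, LG1_prod_fib, Finset.abs_prod]
    refine mul_le_mul ((hy κ).trans ?_) ?_ (Finset.prod_nonneg fun i _ => abs_nonneg _)
      (Finset.prod_nonneg fun v _ => hh0 v _)
    · refine Finset.prod_le_prod (fun v _ => hG.g_nonneg v _) fun v _ => ?_
      rw [hh]
      simp only
      split_ifs with hv
      · exact hG.g_anti v _ _ Finset.sdiff_subset
      · refine hG.g_anti v _ _ fun i hi => ?_
        have hi' : τ i = some v := (Finset.mem_filter.1 hi).2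
        refine Finset.mem_filter.2 ⟨Finset.mem_univ _, ?_⟩
        rw [← (hκ' i).resolve_left (by rw [hi']; exact Option.some_ne_none v)]
        exact hi'
    · refine Finset.prod_le_prod (fun i _ => abs_nonneg _) fun i hi => ?_
      have hne := LA3_mem_supp.1 (Finset.mem_sdiff.1 hi).1
      obtain ⟨v, hv⟩ := Option.ne_none_iff_exists'.1 hne
      rw [hv]
      change |x i - q i v| ≤ w i v
      rw [hw]
      simp only
      split_ifs with hc
      · rw [hQ.q_zero i v hc, sub_zero, abs_of_nonneg (hx i)]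
      · push Not at hc
        rw [abs_sub_comm]
        exact hQ.q_near i v hc.1 hc.2
  have hsum : |zz x y q τ| ≤ ∏ v, ∑ S : Finset ι, h v S * ∏ i ∈ S, w i v := by
    unfold zz
    calc _ ≤ ∑ κ ∈ up τ, |y κ * ∏ i ∈ supp κ \ supp τ, (x i - qv q i (κ i))| := Finset.abs_sum_le_sum_abs _ _
      _ ≤ ∑ κ ∈ up τ, LC1_P w h (fun v => fib κ v \ supp τ) := Finset.sum_le_sum hterm
      _ = ∑ S ∈ (up τ).image (fun κ : ι → Option V => fun v => fib κ v \ supp τ), LC1_P w h S := by
          rw [Finset.sum_image (LG1_inj τ)]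
      _ ≤ ∑ S : V → Finset ι, LC1_P w h S :=
          Finset.sum_le_sum_of_subset_of_nonneg (Finset.subset_univ _) fun S _ _ => LC1_nonneg w hw0 h hh0 S
      _ = _ := by
          rw [← Fintype.piFinset_univ, LC1_pi]
  refine hsum.trans ?_
  rw [← Finset.prod_compl_mul_prod U]
  -- the factors of `U`
  have hU : ∏ v ∈ U, ∑ S : Finset ι, h v S * ∏ i ∈ S, w i v = ∏ u ∈ U, BB x (g u) := by
    refine Finset.prod_congr rfl fun v hv => ?_
    unfold BB
    refine Finset.sum_congr rfl fun S _ => ?_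
    rw [hh, hw]
    simp only [hv, if_true, true_or]
  -- the factors outside of `U`
  have hBB0 : 0 ≤ ∏ u ∈ U, BB x (g u) := by
    refine Finset.prod_nonneg fun u _ => ?_
    unfold BB
    exact Finset.sum_nonneg fun S _ => mul_nonneg (hG.g_nonneg u S) (Finset.prod_nonneg fun i _ => hx i)
  obtain ⟨P, hP⟩ : ∃ P : ℝ, P = ∏ i ∈ B, (1 + x i) := ⟨_, rfl⟩
  have hP1 : 1 ≤ P := by
    rw [hP]
    have h0 := Finset.prod_le_prod (s := B) (f := fun _ => (1 : ℝ)) (g := fun i => 1 + x i)
      (fun _ _ => zero_le_one) (fun i _ => by linarith [hx i])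
    rwa [Finset.prod_const_one] at h0
  have hSX : 0 ≤ SX x := Finset.sum_nonneg fun i _ => sq_nonneg _
  have hE1 : 1 ≤ Real.exp (C * SX x) := Real.one_le_exp (by positivity)
  have hc : ∏ v ∈ Uᶜ, ∑ S : Finset ι, h v S * ∏ i ∈ S, w i v ≤
      (∏ v ∈ Uᶜ, g v (fib τ v)) * (Th V x B * Real.exp (Fintype.card V * C * SX x)) := by
    calc ∏ v ∈ Uᶜ, ∑ S : Finset ι, h v S * ∏ i ∈ S, w i v
        ≤ ∏ v ∈ Uᶜ, (g v (fib τ v) * (P * Real.exp (C * SX x))) := by
          refine Finset.prod_le_prod (fun v _ => Finset.sum_nonneg fun S _ =>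
            mul_nonneg (hh0 v S) (Finset.prod_nonneg fun i _ => hw0 i v)) fun v hv => ?_
          have hv' : v ∉ U := Finset.mem_compl.1 hv
          have h1 : ∑ S : Finset ι, h v S * ∏ i ∈ S, w i v = g v (fib τ v) * ∏ i, (1 + w i v) := by
            rw [Finset.prod_one_add, Finset.powerset_univ, Finset.mul_sum]
            refine Finset.sum_congr rfl fun S _ => ?_
            rw [hh]
            simp only [hv', if_false]
          rw [h1]
          refine mul_le_mul_of_nonneg_left ?_ (hG.g_nonneg _ _)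
          rw [hP, hw]
          simp only [hv', false_or]
          exact LG1_bad hC hG.x_pos B
      _ = (∏ v ∈ Uᶜ, g v (fib τ v)) * (P * Real.exp (C * SX x)) ^ (Uᶜ).card := by
          rw [Finset.prod_mul_distrib, Finset.prod_const]
      _ ≤ _ := by
          refine mul_le_mul_of_nonneg_left ?_ (Finset.prod_nonneg fun v _ => hG.g_nonneg _ _)
          have h2 : 1 ≤ P * Real.exp (C * SX x) := by nlinarith
          refine (pow_le_pow_right₀ h2 (Finset.card_le_univ (Uᶜ))).trans (le_of_eq ?_)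
          rw [mul_pow, hP, ← Finset.prod_pow, ← Real.exp_nat_mul, Th]
          congr 2
          ring
  rw [hU]
  calc _ ≤ ((∏ v ∈ Uᶜ, g v (fib τ v)) * (Th V x B * Real.exp (Fintype.card V * C * SX x))) *
        ∏ u ∈ U, BB x (g u) := mul_le_mul_of_nonneg_right hc hBB0
    _ = _ := by ring

end Pool.Agent.Wd33b62
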