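import Pool.Agent.W_d33b62_h36.LB4
import Pool.Agent.W_d33b62_h36.LG1

/-!
# Upper and lower bounds for the Selberg form in a perturbed model (helper36, MP_d33b62_nt)
-/

set_option autoImplicit false

noncomputable section

open Finset

namespace Pool.Agent.Wd33b62

variable {ι V : Type} [Fintype ι] [DecidableEq ι] [Fintype V] [DecidableEq V]

/-- **Upper bound.**

Proof. `Ex_FF_le` and `zz_abs_le` (terms with `qwt q τ = 0` vanish): the sum is at most
`(∏ BB * Th * exp (K C SX)) ^ 2 * ∑_τ (∏_{v ∉ U} g v (fib τ v)) ^ 2 * qwt q τ`; the last sum is at most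
`∏_{v ∉ U} ∑_S g v S ^ 2 ∏_{i ∈ S} q i v` (`prod_upper` with `h v = (g v) ^ 2` for `v ∉ U`, `h u = 1` for `u ∈ U`, where `q = 0`),
`q i v ≤ x i (1 + C x i)`, and `sum_tilt_le` with `h = (g v) ^ 2`, `AA = BB x ((g v) ^ 2)`. -/
theorem GW_up {x : ι → ℝ} {g : V → Finset ι → ℝ} (hG : GH x g) {q : ι → V → ℝ} {U : Finset V} {B : Finset ι}
    {C : ℝ} (hC : 0 ≤ C) (hQ : QH x q U B C) {y : (ι → Option V) → ℝ} (hy0 : ∀ κ, 0 ≤ y κ)
    (hy : ∀ κ, y κ ≤ ∏ v, g v (fib κ v)) :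
    Ex q (fun c => FF x y c ^ 2) ≤ Th V x B ^ 2 * Real.exp (3 * Fintype.card V * C * SX x) *
      (∏ v ∈ Uᶜ, AA x (g v)) * (∏ u ∈ U, BB x (g u)) ^ 2 := by
  classical
  have hx : ∀ i, 0 ≤ x i := fun i => (hG.x_pos i).le
  have hSX : 0 ≤ SX x := Finset.sum_nonneg fun i _ => sq_nonneg _
  have hCS : 0 ≤ C * SX x := mul_nonneg hC hSX
  have hprod : ∀ S : Finset ι, 0 ≤ ∏ i ∈ S, x i := fun S => Finset.prod_nonneg fun i _ => hx i
  have hBB : ∀ v, 0 ≤ BB x (g v) := fun v =>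
    Finset.sum_nonneg fun S _ => mul_nonneg (hG.g_nonneg v S) (hprod S)
  have hAA : ∀ v, 0 ≤ AA x (g v) := fun v =>
    Finset.sum_nonneg fun S _ => mul_nonneg (sq_nonneg _) (hprod S)
  have hTh : 0 ≤ Th V x B := Finset.prod_nonneg fun i _ => pow_nonneg (by linarith [hx i]) _
  have hqw : ∀ τ : ι → Option V, 0 ≤ qwt q τ := by
    intro τ
    refine Finset.prod_nonneg fun i _ => ?_
    cases τ i with
    | none => exact zero_le_one
    | some v => exact hQ.q_nonneg i v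
  set E : ℝ := Real.exp (Fintype.card V * C * SX x) with hE
  set D : ℝ := (∏ u ∈ U, BB x (g u)) * Th V x B * E with hD
  have hB0 : 0 ≤ ∏ u ∈ U, BB x (g u) := Finset.prod_nonneg fun u _ => hBB u
  have h1 : ∀ τ : ι → Option V, zz x y q τ ^ 2 * qwt q τ ≤
      D ^ 2 * ((∏ v ∈ Uᶜ, g v (fib τ v)) ^ 2 * qwt q τ) := by
    intro τ
    by_cases hτ : qwt q τ = 0
    · rw [hτ]
      simp
    · have h2 := zz_abs_le hG hC hQ hy0 hy τ hτ
      have h3 : |zz x y q τ| ≤ D * ∏ v ∈ Uᶜ, g v (fib τ v) := by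
        refine h2.trans (le_of_eq ?_)
        rw [hD, hE]
        ring
      have h4 : zz x y q τ ^ 2 ≤ (D * ∏ v ∈ Uᶜ, g v (fib τ v)) ^ 2 := by
        rw [← sq_abs (zz x y q τ)]
        exact pow_le_pow_left₀ (abs_nonneg _) h3 2
      calc zz x y q τ ^ 2 * qwt q τ ≤ (D * ∏ v ∈ Uᶜ, g v (fib τ v)) ^ 2 * qwt q τ :=
            mul_le_mul_of_nonneg_right h4 (hqw τ)
        _ = D ^ 2 * ((∏ v ∈ Uᶜ, g v (fib τ v)) ^ 2 * qwt q τ) := by ring
  have h5 : ∑ τ : ι → Option V, (∏ v ∈ Uᶜ, g v (fib τ v)) ^ 2 * qwt q τ ≤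
      ∏ v ∈ Uᶜ, (Real.exp (C * SX x) * AA x (g v)) := by
    have h6 := prod_upper q hQ.q_nonneg (fun v S => if v ∈ U then 1 else g v S ^ 2) (by
      intro v S
      by_cases hv : v ∈ U
      · simp [hv]
      · simp only [if_neg hv]
        exact sq_nonneg _)
    have h7 : ∀ τ : ι → Option V, (∏ v, if v ∈ U then (1 : ℝ) else g v (fib τ v) ^ 2) =
        (∏ v ∈ Uᶜ, g v (fib τ v)) ^ 2 := by
      intro τ
      rw [← Finset.prod_mul_prod_compl U, Finset.prod_congr rfl (fun v hv => if_pos hv),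
        Finset.prod_const_one, one_mul, ← Finset.prod_pow]
      exact Finset.prod_congr rfl fun v hv => if_neg (Finset.mem_compl.1 hv)
    have h8 : ∑ τ : ι → Option V, (∏ v ∈ Uᶜ, g v (fib τ v)) ^ 2 * qwt q τ =
        ∑ τ : ι → Option V, (∏ v, if v ∈ U then (1 : ℝ) else g v (fib τ v) ^ 2) * qwt q τ :=
      Finset.sum_congr rfl fun τ _ => by rw [h7 τ]
    rw [h8]
    refine h6.trans ?_
    rw [← Finset.prod_mul_prod_compl U]
    have h9 : ∏ v ∈ U, ∑ S : Finset ι, (if v ∈ U then (1 : ℝ) else g v S ^ 2) * ∏ i ∈ S, q i v = 1 := by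
      refine Finset.prod_eq_one fun v hv => ?_
      rw [Finset.sum_eq_single (∅ : Finset ι)]
      · rw [if_pos hv, Finset.prod_empty, mul_one]
      · intro S _ hS
        obtain ⟨i, hi⟩ := Finset.nonempty_iff_ne_empty.2 hS
        rw [Finset.prod_eq_zero hi (hQ.q_zero i v (Or.inl hv)), mul_zero]
      · intro h
        exact absurd (Finset.mem_univ _) h
    rw [h9, one_mul]
    refine Finset.prod_le_prod (fun v _ => ?_) fun v hv => ?_
    · refine Finset.sum_nonneg fun S _ => mul_nonneg ?_ (Finset.prod_nonneg fun i _ => hQ.q_nonneg i v)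
      by_cases hv : v ∈ U
      · simp [hv]
      · simp only [if_neg hv]
        exact sq_nonneg _
    · have hv' := Finset.mem_compl.1 hv
      have hq1 : ∀ i, q i v ≤ x i * (1 + C * x i) := by
        intro i
        by_cases hi : i ∈ B
        · rw [hQ.q_zero i v (Or.inr hi)]
          have := hx i
          positivity
        · have h10 := (abs_le.1 (hQ.q_near i v hv' hi)).2
          nlinarith
      refine le_trans ?_ (sum_tilt_le x hx C hC (fun S => g v S ^ 2) (fun S => sq_nonneg _)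
        (fun S T hST => pow_le_pow_left₀ (hG.g_nonneg v T) (hG.g_anti v S T hST) 2))
      refine Finset.sum_le_sum fun S _ => ?_
      rw [if_neg hv']
      exact mul_le_mul_of_nonneg_left
        (Finset.prod_le_prod (fun i _ => hQ.q_nonneg i v) fun i _ => hq1 i) (sq_nonneg _)
  have h11 : ∏ v ∈ Uᶜ, (Real.exp (C * SX x) * AA x (g v)) ≤ E * ∏ v ∈ Uᶜ, AA x (g v) := by
    rw [Finset.prod_mul_distrib, Finset.prod_const]
    refine mul_le_mul_of_nonneg_right ?_ (Finset.prod_nonneg fun v _ => hAA v)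
    rw [hE, ← Real.exp_nat_mul]
    refine Real.exp_le_exp.2 ?_
    have h12 : ((Uᶜ).card : ℝ) ≤ Fintype.card V := by
      exact_mod_cast Finset.card_le_univ _
    calc ((Uᶜ).card : ℝ) * (C * SX x) ≤ Fintype.card V * (C * SX x) :=
          mul_le_mul_of_nonneg_right h12 hCS
      _ = Fintype.card V * C * SX x := by ring
  calc Ex q (fun c => FF x y c ^ 2) ≤ ∑ τ : ι → Option V, zz x y q τ ^ 2 * qwt q τ :=
        Ex_FF_le x y q ⟨hQ.q_nonneg, hQ.q_sum⟩
    _ ≤ ∑ τ : ι → Option V, D ^ 2 * ((∏ v ∈ Uᶜ, g v (fib τ v)) ^ 2 * qwt q τ) :=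
        Finset.sum_le_sum fun τ _ => h1 τ
    _ = D ^ 2 * ∑ τ : ι → Option V, (∏ v ∈ Uᶜ, g v (fib τ v)) ^ 2 * qwt q τ := by
        rw [Finset.mul_sum]
    _ ≤ D ^ 2 * (E * ∏ v ∈ Uᶜ, AA x (g v)) :=
        mul_le_mul_of_nonneg_left (h5.trans h11) (sq_nonneg _)
    _ = Th V x B ^ 2 * Real.exp (3 * Fintype.card V * C * SX x) *
      (∏ v ∈ Uᶜ, AA x (g v)) * (∏ u ∈ U, BB x (g u)) ^ 2 := by
        have h13 : Real.exp (3 * Fintype.card V * C * SX x) = E ^ 3 := by
          rw [hE, ← Real.exp_nat_mul]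
          congr 1
          push_cast
          ring
        rw [h13, hD]
        ring

end Pool.Agent.Wd33b62
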