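import Pool.Agent.W_d33b62_h36.AR1d
import Pool.Agent.W_d33b62_h36.AR2a
import Pool.Agent.W_d33b62_h36.AR3a
import Pool.Agent.W_d33b62_h36.AR3b
import Pool.Agent.W_d33b62_h36.AR3c
import Pool.Agent.W_d33b62_h36.LA1
import Pool.Agent.W_d33b62_h36.LA2
import Pool.Agent.W_d33b62_h36.LG2

/-!
# The sum over the integers (helper36, MP_d33b62_nt)
-/

set_option autoImplicit false

noncomputable section

open Finset Filter

namespace Pool.Agent.Wd33b62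

open Pool.Agent.Wb58c63 (PI mem_PI VP ap Pr XM)

theorem AR5_cop {k : ℕ} (d : AData k) {z : ℝ} {V : Type} (σ : Pl d.D0 z → Option V) :
    d.W.Coprime (nm σ) := by
  unfold nm nmS
  refine Nat.Coprime.prod_right fun p _ => ?_
  have hp := (mem_PS (D0 := d.D0) (z := z)).1 p.2
  rw [Nat.coprime_comm, Nat.Prime.coprime_iff_not_dvd hp.1]
  intro h
  have := (d.W_primes p.1 hp.1).1 h
  omega

theorem AR5_qwt {ι V : Type} [Fintype ι] [DecidableEq ι] [Fintype V] [DecidableEq V] (x : ι → ℝ)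
    (σ : ι → Option V) : qwt (qB V x ∅) σ = xwt x σ := by
  unfold qwt xwt supp
  rw [Finset.prod_filter]
  refine Finset.prod_congr rfl fun i _ => ?_
  rcases h : σ i with _ | v
  · simp [qv]
  · simp [qv, qB]

theorem AR5_card (k : ℕ) : Fintype.card (VV k) = k + k ^ 2 := by
  simp [VV, pow_two]

/-- The model expectation of the square. -/
theorem AR5_Ex {k : ℕ} (d : AData k) (z : ℝ) (hD : k + k ^ 2 ≤ d.D0) (g : VV k → Finset (Pl d.D0 z) → ℝ)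
    (hG : GH (xr d.D0 z) g) (y : (Pl d.D0 z → Option (VV k)) → ℝ) (hy0 : ∀ κ, 0 ≤ y κ)
    (hy : ∀ κ, y κ ≤ ∏ v, g v (fib κ v)) :
    Ex (qB (VV k) (xr d.D0 z) ∅) (fun c => FF (xr d.D0 z) y c ^ 2) ≤ ∏ v, AA (xr d.D0 z) (g v) := by
  have hD0 : 1 ≤ d.D0 := le_trans (by norm_num) d.D0_ge
  have hQ : QH (xr d.D0 z) (qB (VV k) (xr d.D0 z) ∅) ∅ ∅ 0 := by
    refine ⟨fun i v => ?_, fun i => ?_, fun i v h => ?_, fun i v _ _ => ?_⟩
    · simp only [qB, Finset.notMem_empty, if_false]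
      exact (xr_pos i).le
    · simp only [qB, Finset.notMem_empty, if_false, Finset.sum_const, Finset.card_univ, nsmul_eq_mul]
      rw [AR5_card]
      have h1 := xr_le hD0 i
      have h2 : (0 : ℝ) < d.D0 := by exact_mod_cast hD0
      have h3 : ((k + k ^ 2 : ℕ) : ℝ) ≤ d.D0 := by exact_mod_cast hD
      calc ((k + k ^ 2 : ℕ) : ℝ) * xr d.D0 z i ≤ d.D0 * (1 / d.D0) :=
            mul_le_mul h3 h1 (xr_pos i).le h2.le
        _ = 1 := by field_simp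
    · simp at h
    · simp [qB]
  have h := GW_up hG le_rfl hQ hy0 hy
  refine h.trans (le_of_eq ?_)
  simp [Th]

/-- The asymptotic inequality. -/
theorem AR5_asymp (n : ℕ) (C W : ℝ) (hC : 0 < C) (hW : 0 < W) :
    ∀ᶠ Y : ℝ in atTop, W * (C * Real.log Y ^ n * Y ^ (1 / 25 : ℝ)) + 2 ≤ Y / 2 := by
  have h1 := (isLittleO_log_rpow_rpow_atTop (n : ℝ) (show (0 : ℝ) < 1 / 2 by norm_num)).def
    (show (0 : ℝ) < 1 / (4 * (W * C)) by positivity)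
  filter_upwards [h1, eventually_ge_atTop (8 : ℝ)] with Y hY hY8
  have hY1 : (1 : ℝ) ≤ Y := by linarith
  have hY0 : (0 : ℝ) < Y := by linarith
  have hlog : 0 ≤ Real.log Y := Real.log_nonneg hY1
  rw [Real.norm_of_nonneg (Real.rpow_nonneg hlog _), Real.norm_of_nonneg (Real.rpow_nonneg hY0.le _),
    Real.rpow_natCast] at hY
  have h2 : Y ^ (1 / 2 : ℝ) * Y ^ (1 / 25 : ℝ) ≤ Y := by
    rw [← Real.rpow_add hY0]
    calc Y ^ (1 / 2 + 1 / 25 : ℝ) ≤ Y ^ (1 : ℝ) := Real.rpow_le_rpow_of_exponent_le hY1 (by norm_num)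
      _ = Y := Real.rpow_one Y
  have h3 : W * (C * Real.log Y ^ n * Y ^ (1 / 25 : ℝ)) ≤ Y / 4 := by
    calc W * (C * Real.log Y ^ n * Y ^ (1 / 25 : ℝ)) = (W * C) * Real.log Y ^ n * Y ^ (1 / 25 : ℝ) := by ring
      _ ≤ (W * C) * (1 / (4 * (W * C)) * Y ^ (1 / 2 : ℝ)) * Y ^ (1 / 25 : ℝ) := by
          gcongr
      _ = (Y ^ (1 / 2 : ℝ) * Y ^ (1 / 25 : ℝ)) / 4 := by field_simp
      _ ≤ Y / 4 := by linarith
  linarith

/-- **Upper bound for the sum of the weights.**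

Proof. `wY n = ∑_{σ ≤ cY n} conv lam lam σ` (`FF_hasExp`, `HasExp.mul`). `tr_int` with `q = W` (prime to all `nm σ`): main term
`(N2 - N1) / W * Ex (qB ∅) (FF ^ 2)` (`Ex_of_hasExp`, `qwt (qB V x ∅) σ = xwt x σ`), at most `(N2 - N1) / W * ∏ AA` by `GW_up` with
`U = ∅`, `B = ∅`, `C = 0` (`QH`: `∑_v x p = K / p ≤ 1` for `D0 ≥ K = k + k ^ 2`), `∏ AA = A0 ^ k G0 ^ (k ^ 2)` (`prodU0`),
`N2 - N1 ≤ 3 Y / 2 + 2`. The error is at most `∑ |conv| ≤ C' (log Y) ^ (4 K) (Y ^ (4 η)) ^ 2` (`Bd_lam`, `conv_bd`, `sum_abs_le`),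
`8 η ≤ 1 / 25`, and `∏ AA ≥ 1` (`one_le_AA`). -/
theorem S1_le (k : ℕ) (hk : 0 < k) (L : ℕ) (η τ : ℝ) (hη : 0 < η) (hη1 : η ≤ 1 / 200) (hτ : 0 < τ) (hτ1 : τ ≤ 1) :
    ∃ D1 : ℕ, ∀ d : AData k, D1 ≤ d.D0 → ∀ᶠ Y : ℝ in atTop,
      ∑ n ∈ Wd d Y, wY d η τ L Y n ≤ 2 * Y / d.W * (A0 d η L Y ^ k * G0 d η τ Y ^ (k ^ 2)) := by
  refine ⟨k + k ^ 2, fun d hd => ?_⟩
  obtain ⟨C', hC', hsum⟩ := sum_abs_le (VV k) ((1 + 1) * (1 + 1)) (by norm_num)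
  have hW : (0 : ℝ) < d.W := by exact_mod_cast d.W_pos
  have hD0 : 1 ≤ d.D0 := le_trans (by norm_num) d.D0_ge
  filter_upwards [Bd_lam hk L η τ hη hη1 hτ hτ1 d, eventually_ge_atTop (1 : ℝ),
    AR5_asymp (4 * (k + k ^ 2)) C' d.W hC' hW] with Y hBd hY1 hY2
  have hY0 : (0 : ℝ) < Y := by linarith
  have hlog : 0 ≤ Real.log Y := Real.log_nonneg hY1
  set z := ZZ η Y with hz
  set x := xr d.D0 z with hx
  set y := yY d η τ L Y with hy
  have hxY : xY d η Y = x := rfl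
  have hBd' : Bd (lam x y) (Y ^ (2 * η)) (Real.log Y ^ (2 * (k + k ^ 2))) 1 := hBd
  have hexp : HasExp (fun c => FF x y c * FF x y c) (conv (lam x y) (lam x y)) :=
    (FF_hasExp x y).mul (FF_hasExp x y)
  -- the sum
  have h1 : ∑ n ∈ Wd d Y, wY d η τ L Y n =
      ∑ n ∈ (Ico ⌊Y / 2⌋₊ ⌈2 * Y⌉₊).filter (fun n => n ≡ d.b [MOD d.W]),
        ∑ σ ∈ dn (cc d z n), conv (lam x y) (lam x y) σ := by
    unfold Wd
    refine Finset.sum_congr rfl fun n _ => ?_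
    have := hexp (cc d z n)
    rw [← this]
    unfold wY cY
    rw [hxY, pow_two]
  have hN : ⌊Y / 2⌋₊ ≤ ⌈2 * Y⌉₊ := by
    have h2 : (⌊Y / 2⌋₊ : ℝ) ≤ Y / 2 := Nat.floor_le (by positivity)
    have h3 : 2 * Y ≤ (⌈2 * Y⌉₊ : ℝ) := Nat.le_ceil _
    have h4 : (⌊Y / 2⌋₊ : ℝ) ≤ (⌈2 * Y⌉₊ : ℝ) := by linarith
    exact_mod_cast h4
  have h2 := tr_int d z d.W d.b ⌊Y / 2⌋₊ ⌈2 * Y⌉₊ hN d.W_pos (conv (lam x y) (lam x y))
    (fun σ _ => AR5_cop d σ)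
  rw [← h1, ← hx] at h2
  -- the main term
  have h3 : ∑ σ, conv (lam x y) (lam x y) σ * xwt x σ =
      Ex (qB (VV k) x ∅) (fun c => FF x y c ^ 2) := by
    have h4 := Ex_of_hasExp (qB (VV k) x ∅) hexp
    have h5 : (fun c => FF x y c ^ 2) = fun c => FF x y c * FF x y c := by
      funext c
      exact pow_two _
    rw [h5, h4]
    exact Finset.sum_congr rfl fun σ _ => by rw [AR5_qwt]
  have h4 : Ex (qB (VV k) x ∅) (fun c => FF x y c ^ 2) ≤ ∏ v, AA x (gY d η τ L Y v) :=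
    AR5_Ex d z hd (gY d η τ L Y) (GH_gw hD0 L _ _) y (fun κ => yw_nonneg L _ _ κ)
      (fun κ => yw_le L _ _ κ)
  have h5 : ∏ v, AA x (gY d η τ L Y v) = A0 d η L Y ^ k * G0 d η τ Y ^ (k ^ 2) := prodU0 d η τ L Y
  rw [h5] at h4
  set P := A0 d η L Y ^ k * G0 d η τ Y ^ (k ^ 2) with hP
  have hR : 1 ≤ RR η Y := Real.one_le_rpow hY1 hη.le
  have hE : 1 ≤ EE η τ k Y := Real.one_le_rpow hY1 (by positivity)
  have hA : 1 ≤ A0 d η L Y := by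
    unfold A0
    refine one_le_AA hD0 _ ?_
    rw [gS_empty L _ hR]
    exact one_le_pow₀ (by norm_num)
  have hG : 1 ≤ G0 d η τ Y := by
    unfold G0
    refine one_le_BB hD0 _ (fun S => gX_nonneg _ _ _) ?_
    rw [gX_empty _ _ hE]
  have hP1 : 1 ≤ P := by
    rw [hP]
    exact one_le_mul_of_one_le_of_one_le (one_le_pow₀ hA) (one_le_pow₀ hG)
  -- the error
  have h6 : ∑ σ, |conv (lam x y) (lam x y) σ| ≤
      C' * Real.log Y ^ (4 * (k + k ^ 2)) * Y ^ (1 / 25 : ℝ) := by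
    have h7 := conv_bd hBd' hBd' (by positivity) (by positivity) (by norm_num) (by positivity)
      (by norm_num)
    have hL1 : 1 ≤ Y ^ (2 * η) * Y ^ (2 * η) := by
      have : 1 ≤ Y ^ (2 * η) := Real.one_le_rpow hY1 (by positivity)
      exact one_le_mul_of_one_le_of_one_le this this
    have h8 := hsum d.D0 z (conv (lam x y) (lam x y)) _ _ hL1 (by positivity) h7
    refine h8.trans ?_
    have h9 : Real.log Y ^ (2 * (k + k ^ 2)) * Real.log Y ^ (2 * (k + k ^ 2)) =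
        Real.log Y ^ (4 * (k + k ^ 2)) := by
      rw [← pow_add]
      congr 1
      ring
    rw [h9]
    have h10 : (Y ^ (2 * η) * Y ^ (2 * η)) ^ 2 ≤ Y ^ (1 / 25 : ℝ) := by
      rw [← Real.rpow_add hY0, ← Real.rpow_natCast, ← Real.rpow_mul hY0.le]
      refine Real.rpow_le_rpow_of_exponent_le hY1 ?_
      push_cast
      linarith
    gcongr
  -- the interval
  have hlen : (⌈2 * Y⌉₊ : ℝ) - ⌊Y / 2⌋₊ ≤ 3 * Y / 2 + 2 := by
    have h7 : (⌈2 * Y⌉₊ : ℝ) < 2 * Y + 1 := Nat.ceil_lt_add_one (by positivity)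
    have h8 : Y / 2 < (⌊Y / 2⌋₊ : ℝ) + 1 := Nat.lt_floor_add_one _
    linarith
  have hlen0 : 0 ≤ (⌈2 * Y⌉₊ : ℝ) - ⌊Y / 2⌋₊ := by
    have : (⌊Y / 2⌋₊ : ℝ) ≤ (⌈2 * Y⌉₊ : ℝ) := by exact_mod_cast hN
    linarith
  rw [h3] at h2
  have h7 := (abs_le.1 h2).2
  have h8 : ((⌈2 * Y⌉₊ : ℝ) - ⌊Y / 2⌋₊) / d.W * Ex (qB (VV k) x ∅) (fun c => FF x y c ^ 2) ≤
      (3 * Y / 2 + 2) / d.W * P := by
    refine (mul_le_mul_of_nonneg_left h4 (by positivity)).trans ?_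
    gcongr
  have h9 : C' * Real.log Y ^ (4 * (k + k ^ 2)) * Y ^ (1 / 25 : ℝ) ≤ (Y / 2 - 2) / d.W * P := by
    rw [div_mul_eq_mul_div, le_div_iff₀ hW]
    have h10 : d.W * (C' * Real.log Y ^ (4 * (k + k ^ 2)) * Y ^ (1 / 25 : ℝ)) ≤ Y / 2 - 2 := by linarith
    have h11 : 0 ≤ Y / 2 - 2 := by
      have : 0 ≤ d.W * (C' * Real.log Y ^ (4 * (k + k ^ 2)) * Y ^ (1 / 25 : ℝ)) := by positivity
      linarith
    calc C' * Real.log Y ^ (4 * (k + k ^ 2)) * Y ^ (1 / 25 : ℝ) * d.W ≤ Y / 2 - 2 := by linarith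
      _ ≤ (Y / 2 - 2) * P := le_mul_of_one_le_right h11 hP1
  have h10 : (3 * Y / 2 + 2) / d.W * P + (Y / 2 - 2) / d.W * P = 2 * Y / d.W * P := by
    field_simp
    ring
  linarith

end Pool.Agent.Wd33b62
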