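import Pool.Agent.W_d33b62_h36.AR3d
import Pool.Agent.W_d33b62_h36.LA1

/-!
# The sum over the primes with the lower bound sieve (helper36, MP_d33b62_nt)
-/

set_option autoImplicit false

noncomputable section

open Finset Filter

namespace Pool.Agent.Wd33b62

open Pool.Agent.Wb58c63 (PI mem_PI VP ap Pr XM)

/-- The model of the primes `n + h i`: the label `inl i` is impossible, the others have probability `1 / (p - 1)`. -/
def qP {k : ℕ} (d : AData k) (z : ℝ) (i : Fin k) (p : Pl d.D0 z) (v : VV k) : ℝ :=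
  if v = Sum.inl i then 0 else 1 / ((p.1 : ℝ) - 1)

/-- The places are at least `k + k ^ 2 + 2`. -/
theorem AR6a_place {k : ℕ} (d : AData k) (z : ℝ) (hD : k + k ^ 2 + 1 ≤ d.D0) (p : Pl d.D0 z) :
    ((k : ℝ) + (k : ℝ) ^ 2) + 2 ≤ (p.1 : ℝ) := by
  have h1 := (mem_PI.1 p.2).2.1
  have h2 : ((k + k ^ 2 + 1 : ℕ) : ℝ) ≤ (d.D0 : ℝ) := by exact_mod_cast hD
  push_cast at h2
  linarith

theorem AR6a_card (k : ℕ) : (Fintype.card (VV k) : ℝ) = (k : ℝ) + (k : ℝ) ^ 2 := by
  simp only [VV, Fintype.card_sum, Fintype.card_fin, Fintype.card_prod]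
  push_cast
  ring

theorem AR6a_qP_nonneg {k : ℕ} (d : AData k) (z : ℝ) (i : Fin k) (hD : k + k ^ 2 + 1 ≤ d.D0)
    (p : Pl d.D0 z) (v : VV k) : 0 ≤ qP d z i p v := by
  have h := AR6a_place d z hD p
  have hk : (0 : ℝ) ≤ (k : ℝ) + (k : ℝ) ^ 2 := by positivity
  unfold qP
  split_ifs
  · exact le_rfl
  · exact div_nonneg zero_le_one (by linarith)

theorem AR6a_qP_le {k : ℕ} (d : AData k) (z : ℝ) (i : Fin k) (hD : k + k ^ 2 + 1 ≤ d.D0)
    (p : Pl d.D0 z) (v : VV k) : qP d z i p v ≤ 1 / ((p.1 : ℝ) - 1) := by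
  have h := AR6a_place d z hD p
  have hk : (0 : ℝ) ≤ (k : ℝ) + (k : ℝ) ^ 2 := by positivity
  unfold qP
  split_ifs
  · exact div_nonneg zero_le_one (by linarith)
  · exact le_rfl

theorem AR6a_sum_lt {k : ℕ} (d : AData k) (z : ℝ) (hD : k + k ^ 2 + 1 ≤ d.D0)
    (p : Pl d.D0 z) {f : VV k → ℝ} (hf : ∀ v, f v ≤ 1 / ((p.1 : ℝ) - 1)) : ∑ v, f v < 1 := by
  have h := AR6a_place d z hD p
  have hk : (0 : ℝ) ≤ (k : ℝ) + (k : ℝ) ^ 2 := by positivity
  calc ∑ v, f v ≤ ∑ _v : VV k, 1 / ((p.1 : ℝ) - 1) := Finset.sum_le_sum fun v _ => hf v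
    _ = ((k : ℝ) + (k : ℝ) ^ 2) * (1 / ((p.1 : ℝ) - 1)) := by
        rw [Finset.sum_const, Finset.card_univ, nsmul_eq_mul, AR6a_card]
    _ < 1 := by
        rw [mul_one_div, div_lt_one (by linarith)]
        linarith

theorem AR6a_q1_nonneg {k : ℕ} (d : AData k) (z : ℝ) (i : Fin k) (U : Finset (VV k))
    (hD : k + k ^ 2 + 1 ≤ d.D0) (p : Pl d.D0 z) (v : VV k) : 0 ≤ q1 (qP d z i) U p v := by
  unfold q1
  split_ifs
  · exact le_rfl
  · exact AR6a_qP_nonneg d z i hD p v

theorem AR6a_q1_le {k : ℕ} (d : AData k) (z : ℝ) (i : Fin k) (U : Finset (VV k))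
    (hD : k + k ^ 2 + 1 ≤ d.D0) (p : Pl d.D0 z) (v : VV k) :
    q1 (qP d z i) U p v ≤ 1 / ((p.1 : ℝ) - 1) := by
  have h := AR6a_place d z hD p
  have hk : (0 : ℝ) ≤ (k : ℝ) + (k : ℝ) ^ 2 := by positivity
  unfold q1
  split_ifs
  · exact div_nonneg zero_le_one (by linarith)
  · exact AR6a_qP_le d z i hD p v

/-- The exact sum of the probabilities of the labels different from `inl i` and `inr x`. -/
theorem AR6a_q1_sum {k : ℕ} (d : AData k) (z : ℝ) (i : Fin k) (x : Fin k × Fin k)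
    (p : Pl d.D0 z) :
    ∑ u, q1 (qP d z i) {Sum.inr x} p u = ((k : ℝ) + (k : ℝ) ^ 2 - 2) * (1 / ((p.1 : ℝ) - 1)) := by
  have h1 : ∀ u : VV k, q1 (qP d z i) {Sum.inr x} p u =
      1 / ((p.1 : ℝ) - 1) - (if u = Sum.inl i then 1 / ((p.1 : ℝ) - 1) else 0) -
        (if u = Sum.inr x then 1 / ((p.1 : ℝ) - 1) else 0) := by
    intro u
    unfold q1 qP
    by_cases hx : u = Sum.inr x
    · have h2 : u ≠ Sum.inl i := by rw [hx]; exact fun h => by cases h
      rw [if_pos (Finset.mem_singleton.2 hx), if_neg h2, if_pos hx]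
      ring
    · rw [if_neg (fun h => hx (Finset.mem_singleton.1 h)), if_neg hx]
      by_cases hi : u = Sum.inl i
      · rw [if_pos hi, if_pos hi]
        ring
      · rw [if_neg hi, if_neg hi]
        ring
  rw [Finset.sum_congr rfl fun u _ => h1 u, Finset.sum_sub_distrib, Finset.sum_sub_distrib,
    Finset.sum_ite_eq' univ (Sum.inl i : VV k), Finset.sum_ite_eq' univ (Sum.inr x : VV k),
    if_pos (Finset.mem_univ _), if_pos (Finset.mem_univ _), Finset.sum_const, Finset.card_univ,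
    nsmul_eq_mul, AR6a_card]
  ring

/-- `|1 / (p - 1) - 1 / p| ≤ 2 / p ^ 2`; the sum of the probabilities is at most `K / (p - 1) ≤ 1`. After removing
the label `v₁` as well. -/
theorem qP_QH {k : ℕ} (d : AData k) (z : ℝ) (i : Fin k) (x : Fin k × Fin k) (hD : k + k ^ 2 + 1 ≤ d.D0) :
    QOK (qP d z i) ∧ (∀ p, ∑ u, q1 (qP d z i) {Sum.inr x} p u < 1) ∧
      QH (xr d.D0 z) (q1 (qP d z i) {Sum.inr x}) {Sum.inl i, Sum.inr x} ∅ 2 := by
  refine ⟨⟨fun p v => AR6a_qP_nonneg d z i hD p v,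
    fun p => (AR6a_sum_lt d z hD p fun v => AR6a_qP_le d z i hD p v).le⟩,
    fun p => AR6a_sum_lt d z hD p fun v => AR6a_q1_le d z i _ hD p v, ?_⟩
  refine ⟨fun p v => AR6a_q1_nonneg d z i _ hD p v,
    fun p => (AR6a_sum_lt d z hD p fun v => AR6a_q1_le d z i _ hD p v).le, ?_, ?_⟩
  · intro p v hv
    rcases hv with hv | hv
    · rw [Finset.mem_insert, Finset.mem_singleton] at hv
      unfold q1
      rcases hv with hv | hv
      · split_ifs
        · rfl
        · unfold qP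
          rw [if_pos hv]
      · rw [if_pos (Finset.mem_singleton.2 hv)]
    · exact absurd hv (Finset.notMem_empty p)
  · intro p v hv _
    rw [Finset.mem_insert, Finset.mem_singleton, not_or] at hv
    have h := AR6a_place d z hD p
    have hk : (0 : ℝ) ≤ (k : ℝ) + (k : ℝ) ^ 2 := by positivity
    unfold q1
    rw [if_neg (fun h' => hv.2 (Finset.mem_singleton.1 h'))]
    unfold qP xr
    rw [if_neg hv.1]
    have hp2 : (2 : ℝ) ≤ (p.1 : ℝ) := by linarith
    have hp0 : (0 : ℝ) < (p.1 : ℝ) := by linarith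
    have hp1 : (0 : ℝ) < (p.1 : ℝ) - 1 := by linarith
    have e : 1 / ((p.1 : ℝ) - 1) - 1 / (p.1 : ℝ) = 1 / (((p.1 : ℝ) - 1) * p.1) := by
      field_simp
      ring
    rw [e, abs_of_nonneg (by positivity)]
    have e2 : 2 * (1 / (p.1 : ℝ)) ^ 2 = 2 / (p.1 : ℝ) ^ 2 := by
      rw [div_pow]
      ring
    rw [e2, div_le_div_iff₀ (by positivity) (by positivity)]
    nlinarith

/-- The labeling with the label `v` at the places of `S`. -/
def AR6a_e {ι V : Type} [DecidableEq ι] (v : V) (S : Finset ι) : ι → Option V :=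
  fun p => if p ∈ S then some v else none

theorem AR6a_supp_e {ι V : Type} [Fintype ι] [DecidableEq ι] [DecidableEq V] (v : V)
    (S : Finset ι) : supp (AR6a_e v S) = S := by
  ext p
  unfold supp AR6a_e
  rw [Finset.mem_filter]
  by_cases hp : p ∈ S
  · simp [hp]
  · simp [hp]

theorem AR6a_qwt_e {ι V : Type} [Fintype ι] [DecidableEq ι] [DecidableEq V] (q : ι → V → ℝ)
    (v : V) (S : Finset ι) : qwt q (AR6a_e v S) = ∏ p ∈ S, q p v := by
  unfold qwt
  have h1 : ∀ p : ι, qv q p (AR6a_e v S p) = if p ∈ S then q p v else 1 := by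
    intro p
    unfold AR6a_e
    by_cases hp : p ∈ S
    · rw [if_pos hp, if_pos hp]
      rfl
    · rw [if_neg hp, if_neg hp]
      rfl
  rw [Finset.prod_congr rfl fun p _ => h1 p, Finset.prod_ite_mem, Finset.univ_inter]

/-- The conditional probability of the label `inr x` at a free place. -/
theorem AR6a_q2 {k : ℕ} (d : AData k) (z : ℝ) (i : Fin k) (x : Fin k × Fin k)
    (hD : k + k ^ 2 + 1 ≤ d.D0) (c : Pl d.D0 z → Option (VV k)) {p : Pl d.D0 z}
    (hp : c p = none) : q2 (qP d z i) {Sum.inr x} c p (Sum.inr x) = hK k p.1 := by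
  have h := AR6a_place d z hD p
  have hk : (0 : ℝ) ≤ (k : ℝ) + (k : ℝ) ^ 2 := by positivity
  have hk1 : 1 ≤ k + k ^ 2 := by
    have : 0 < k := i.pos
    omega
  unfold q2
  rw [if_pos ⟨Finset.mem_singleton_self _, hp⟩, AR6a_q1_sum]
  unfold qP hK
  rw [if_neg (fun h => by cases h), Nat.cast_sub hk1]
  push_cast
  have hp1 : (p.1 : ℝ) - 1 ≠ 0 := by
    have : (0 : ℝ) < (p.1 : ℝ) - 1 := by linarith
    exact this.ne'
  have hp2 : (p.1 : ℝ) - ((k : ℝ) + (k : ℝ) ^ 2 - 1) ≠ 0 := by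
    have : (0 : ℝ) < (p.1 : ℝ) - ((k : ℝ) + (k : ℝ) ^ 2 - 1) := by linarith
    exact this.ne'
  have e1 : 1 - ((k : ℝ) + (k : ℝ) ^ 2 - 2) * (1 / ((p.1 : ℝ) - 1)) =
      ((p.1 : ℝ) - ((k : ℝ) + (k : ℝ) ^ 2 - 1)) / ((p.1 : ℝ) - 1) := by
    field_simp
    ring
  rw [e1]
  field_simp

/-- **The inner expectation is the main term of the half-dimensional sieve.** `Lm_hasExp`, `Ex_of_hasExp`; the
conditional probability of the label `inr x` at a place outside of `supp c` is
`(1 / (p - 1)) / (1 - (K - 2) / (p - 1)) = 1 / (p - (K - 1)) = hK k p`, `K = k + k ^ 2` (there are `K - 2` labels different from `inl i` and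
`inr x`). -/
theorem Ex_Lm {k : ℕ} (d : AData k) (z : ℝ) (i : Fin k) (x : Fin k × Fin k) (hD : k + k ^ 2 + 1 ≤ d.D0) (θ Dl : ℝ)
    (c : Pl d.D0 z → Option (VV k)) :
    Ex (q2 (qP d z i) {Sum.inr x} c) (Lm θ Dl (Sum.inr x)) =
      GGh (hK k) θ false Dl ((univ.filter fun p : Pl d.D0 z => c p = none ∧ p.1 % 4 = 3).image Subtype.val) := by
  classical
  rw [Ex_of_hasExp _ (Lm_hasExp θ Dl (Sum.inr x : VV k))]
  set q := q2 (qP d z i) {Sum.inr x} c with hq
  set F : Finset (Pl d.D0 z) := univ.filter fun p : Pl d.D0 z => c p = none ∧ p.1 % 4 = 3 with hF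
  have hinj : Set.InjOn (AR6a_e (Sum.inr x : VV k)) (F.powerset : Set (Finset (Pl d.D0 z))) := by
    intro S _ S' _ h
    have h1 := congrArg supp h
    rwa [AR6a_supp_e, AR6a_supp_e] at h1
  -- the left side
  have hL : ∑ σ, aLm θ Dl (Sum.inr x : VV k) σ * qwt q σ =
      ∑ S ∈ F.powerset, aLm θ Dl (Sum.inr x : VV k) (AR6a_e (Sum.inr x) S) *
        qwt q (AR6a_e (Sum.inr x) S) := by
    rw [← Finset.sum_image (f := fun σ => aLm θ Dl (Sum.inr x : VV k) σ * qwt q σ) hinj]
    symm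
    refine Finset.sum_subset (Finset.subset_univ _) fun σ _ hσ => ?_
    by_contra hne
    apply hσ
    have h1 : aLm θ Dl (Sum.inr x : VV k) σ ≠ 0 := left_ne_zero_of_mul hne
    have h2 : qwt q σ ≠ 0 := right_ne_zero_of_mul hne
    unfold aLm at h1
    have h3 : (∀ p w, σ p = some w → w = Sum.inr x) ∧ ∀ p ∈ supp σ, p.1 % 4 = 3 := by
      by_contra hcon
      rw [if_neg hcon] at h1
      exact h1 rfl
    have h4 : σ = AR6a_e (Sum.inr x) (supp σ) := by
      funext p
      unfold AR6a_e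
      cases hp : σ p with
      | none =>
        have : p ∉ supp σ := by
          unfold supp
          rw [Finset.mem_filter]
          exact fun h => h.2 hp
        rw [if_neg this]
      | some w =>
        have : p ∈ supp σ := by
          unfold supp
          rw [Finset.mem_filter]
          exact ⟨Finset.mem_univ _, by rw [hp]; exact Option.some_ne_none w⟩
        rw [if_pos this, h3.1 p w hp]
    have h5 : ∏ p ∈ supp σ, q p (Sum.inr x) ≠ 0 := by
      rw [← AR6a_qwt_e q (Sum.inr x) (supp σ), ← h4]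
      exact h2
    rw [Finset.mem_image]
    refine ⟨supp σ, ?_, h4.symm⟩
    rw [Finset.mem_powerset]
    intro p hp
    rw [hF, Finset.mem_filter]
    refine ⟨Finset.mem_univ _, ?_, h3.2 p hp⟩
    have h6 := Finset.prod_ne_zero_iff.1 h5 p hp
    by_contra hcon
    apply h6
    rw [hq]
    unfold q2
    rw [if_neg (fun h => hcon h.2)]
  rw [hL]
  unfold GGh
  have hP : (F.image Subtype.val).powerset =
      F.powerset.image fun S => S.image Subtype.val := by
    ext S
    rw [Finset.mem_powerset, Finset.mem_image, Finset.subset_image_iff]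
    constructor
    · rintro ⟨S', h1, h2⟩
      exact ⟨S', Finset.mem_powerset.2 (by exact_mod_cast h1), h2⟩
    · rintro ⟨S', h1, h2⟩
      exact ⟨S', by exact_mod_cast Finset.mem_powerset.1 h1, h2⟩
  rw [hP, Finset.sum_image (fun S _ S' _ h => Finset.image_injective Subtype.val_injective h)]
  refine Finset.sum_congr rfl fun S hS => ?_
  rw [Finset.mem_powerset] at hS
  have h1 : aLm θ Dl (Sum.inr x : VV k) (AR6a_e (Sum.inr x) S) =
      lamHF θ false Dl (S.image Subtype.val) := by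
    unfold aLm
    rw [AR6a_supp_e, if_pos]
    constructor
    · intro p w hw
      unfold AR6a_e at hw
      split_ifs at hw
      exact (Option.some_injective _ hw).symm
    · intro p hp
      exact (Finset.mem_filter.1 (hS hp)).2.2
  rw [h1, AR6a_qwt_e, Finset.prod_image (fun a _ b _ h => Subtype.val_injective h)]
  congr 1
  refine Finset.prod_congr rfl fun p hp => ?_
  exact AR6a_q2 d z i x hD c (Finset.mem_filter.1 (hS hp)).2.1

end Pool.Agent.Wd33b62
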