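import Pool.Agent.W_d33b62_h36.HS2

/-!
# The half-dimensional sieve: the induction (helper36, MP_d33b62_nt)

Compare `Pool.Agent.W_b58c63_h68.JStA`, `JStB`, `JMain`.
-/

set_option autoImplicit false

noncomputable section

open Finset MeasureTheory

namespace Pool.Agent.Wd33b62

open Pool.Agent.Wb58c63 (VP below VP_expand JLam_expand VP_pos)

variable {u w : ℝ → ℝ} {C : ℝ}

/-- **Upper bound sieve for `0 < s = log D / log z < 2 + θ`** (compare `J_true_small`). With `z' = D ^ (1 / (2 + θ)) < z`: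
`GGh_true_filter`, only `P' = below P z'` matters. If `z' ≥ u₀`: `H_true_mid` for `P'`, `z'`, `s = 2 + θ` and `RegH`:
`VP g P' ≤ K √(log z / log z') VP g P = K √((2 + θ) / s) VP g P`. If `z' < u₀` then `P' = ∅`, `GGh = 1`, and `RegH` with `u = u₀`:
`1 ≤ K VP g P √(log z / log u₀) ≤ K √((2 + θ) / s) VP g P`. -/
theorem H_true_small (h : UWH u w C) (θ e K : ℝ) (hθ : 0 < θ) (hθ1 : θ ≤ 1 / 100) (he : 0 < e) (he1 : e ≤ 1)
    (hK1 : 1 ≤ K)
    (g : ℕ → ℝ) (P : Finset ℕ) (u₀ z D : ℝ) (hu : 2 ≤ u₀) (hz : u₀ ≤ z) (hD : 1 < D)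
    (hg : ∀ p ∈ P, 0 ≤ g p ∧ g p < 1) (hP : ∀ p ∈ P, u₀ ≤ (p : ℝ) ∧ (p : ℝ) < z) (hR : RegH g P K u₀)
    (hs : Real.log D / Real.log z < 2 + θ)
    (hind : ∀ p ∈ P, (p : ℝ) ^ (2 + θ) < D → VP g (P.filter fun q => q < p) *
      (1 - w (Real.log D / Real.log p - 1) - e * hf (Real.log D / Real.log p - 1)) ≤
        GGh g θ false (D / p) (P.filter fun q => q < p)) :
    GGh g θ true D P ≤ VP g P * (K * √((2 + θ) / (Real.log D / Real.log z)) * (1 + K / √(2 + θ) *
      (∫ t in Set.Ioi (2 + θ), (w (t - 1) + e * hf (t - 1)) * (1 / (2 * √t))) +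
        (K - 1) * (w (2 + θ - 1) + e * hf (2 + θ - 1)))) := by
  classical
  obtain ⟨a, haθ⟩ : ∃ a : ℝ, a = 2 + θ := ⟨_, rfl⟩
  have ha0 : 0 < a := by linarith
  have hlD : 0 < Real.log D := Real.log_pos hD
  have hz1 : 1 < z := by linarith
  have hlz : 0 < Real.log z := Real.log_pos hz1
  rw [← haθ] at hs ⊢
  simp only [← haθ] at hind
  rw [div_lt_iff₀ hlz] at hs
  obtain ⟨z', hz'def⟩ : ∃ z' : ℝ, z' = Real.exp (Real.log D / a) := ⟨_, rfl⟩
  have hlz' : Real.log z' = Real.log D / a := by rw [hz'def, Real.log_exp]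
  have hz'0 : 0 < z' := by
    rw [hz'def]
    exact Real.exp_pos _
  have hP0 : ∀ p ∈ P, (0 : ℝ) < p := fun p hp => by linarith [(hP p hp).1]
  have hiff : ∀ p ∈ P, ((p : ℝ) ^ a < D ↔ (p : ℝ) < z') := by
    intro p hp
    rw [← Real.log_lt_log_iff (Real.rpow_pos_of_pos (hP0 p hp) a) (by linarith),
      Real.log_rpow (hP0 p hp), ← Real.log_lt_log_iff (hP0 p hp) hz'0, hlz', lt_div_iff₀ ha0,
      mul_comm]
  have hF : GGh g θ true D P = GGh g θ true D (below P z') := by
    rw [GGh_true_filter g θ hθ.le]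
    congr 1
    ext p
    unfold below
    rw [mem_filter, mem_filter, ← haθ]
    exact and_congr_right fun hp => hiff p hp
  have hPz : below P z = P := by
    unfold below
    rw [filter_true_of_mem]
    exact fun p hp => (hP p hp).2
  have hI0 : 0 ≤ ∫ t in Set.Ioi a, (w (t - 1) + e * hf (t - 1)) * (1 / (2 * √t)) := by
    refine setIntegral_nonneg measurableSet_Ioi fun t _ => ?_
    have h1 := h.w_nonneg (t - 1)
    have h2 := (hf_pos (t - 1)).le
    positivity
  have hB : 1 ≤ 1 + K / √a *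
      (∫ t in Set.Ioi a, (w (t - 1) + e * hf (t - 1)) * (1 / (2 * √t))) +
        (K - 1) * (w (a - 1) + e * hf (a - 1)) := by
    have h1 := h.w_nonneg (a - 1)
    have h2 := (hf_pos (a - 1)).le
    have h3 : 0 ≤ K / √a *
        (∫ t in Set.Ioi a, (w (t - 1) + e * hf (t - 1)) * (1 / (2 * √t))) :=
      mul_nonneg (by positivity) hI0
    have h4 : 0 ≤ (K - 1) * (w (a - 1) + e * hf (a - 1)) :=
      mul_nonneg (by linarith) (by positivity)
    linarith
  obtain ⟨B, hBdef⟩ : ∃ B : ℝ, B = 1 + K / √a *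
      (∫ t in Set.Ioi a, (w (t - 1) + e * hf (t - 1)) * (1 / (2 * √t))) +
        (K - 1) * (w (a - 1) + e * hf (a - 1)) := ⟨_, rfl⟩
  rw [← hBdef] at hB ⊢
  have hVP : 0 < VP g P := VP_pos hg
  have hla : 0 < Real.log D / a := div_pos hlD ha0
  have hsq : 0 < √(Real.log D / a) := Real.sqrt_pos.2 hla
  obtain ⟨R, hRdef⟩ : ∃ R : ℝ, R = √(a / (Real.log D / Real.log z)) := ⟨_, rfl⟩
  have hR0 : 0 ≤ R := by
    rw [hRdef]
    exact Real.sqrt_nonneg _
  have hRz : √(Real.log z) = R * √(Real.log D / a) := by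
    rw [hRdef, ← Real.sqrt_mul (by positivity)]
    congr 1
    field_simp
  rw [← hRdef]
  rcases le_or_gt u₀ z' with hc | hc
  · have hsub : ∀ p ∈ below P z', p ∈ P ∧ (p : ℝ) < z' := by
      intro p hp
      unfold below at hp
      rw [mem_filter] at hp
      exact hp
    have hz'z : z' ≤ z := by
      rw [← Real.log_le_log_iff hz'0 (by linarith), hlz', div_le_iff₀ ha0]
      linarith
    have hin : ∀ p ∈ below P z', (below P z').filter (fun q => q < p) =
          P.filter (fun q => q < p) := by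
      intro p hp
      ext q
      unfold below
      rw [mem_filter, mem_filter, mem_filter]
      constructor
      · rintro ⟨⟨h1, _⟩, h3⟩
        exact ⟨h1, h3⟩
      · rintro ⟨h1, h3⟩
        refine ⟨⟨h1, ?_⟩, h3⟩
        have h4 : (q : ℝ) < p := by exact_mod_cast h3
        exact h4.trans (hsub p hp).2
    have hs3 : Real.log D / Real.log z' = a := by
      rw [hlz']
      field_simp
    have hmid := H_true_mid h θ e K hθ hθ1 he he1 hK1 g (below P z') u₀ z' D hu hc hD
      (fun p hp => hg p (hsub p hp).1)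
      (fun p hp => ⟨(hP p (hsub p hp).1).1, (hsub p hp).2⟩)
      (RegH.sub hR (by linarith) hK1 hg _ hc)
      (by rw [hs3, haθ]) (by
        intro p hp
        rw [hin p hp]
        exact hind p (hsub p hp).1 ((hiff p (hsub p hp).1).2 (hsub p hp).2))
    rw [hs3, ← hBdef] at hmid
    rw [hF]
    refine hmid.trans ?_
    have hreg := hR z' z hc hz'z
    rw [hPz, hlz', hRz] at hreg
    have hV : VP g (below P z') ≤ K * VP g P * R := by
      have h1 : VP g (below P z') * √(Real.log D / a) ≤ (K * VP g P * R) * √(Real.log D / a) := by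
        linarith
      exact le_of_mul_le_mul_right h1 hsq
    calc VP g (below P z') * B ≤ K * VP g P * R * B :=
          mul_le_mul_of_nonneg_right hV (by linarith)
      _ = VP g P * (K * R * B) := by ring
  · have hempty : below P z' = ∅ := by
      unfold below
      rw [filter_eq_empty_iff]
      intro p hp
      have := (hP p hp).1
      push Not
      linarith
    have hempty0 : below P u₀ = ∅ := by
      unfold below
      rw [filter_eq_empty_iff]
      intro p hp
      have := (hP p hp).1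
      push Not
      linarith
    have hG : GGh g θ true D P = 1 := by
      rw [hF, hempty, GGh_true]
      simp
    rw [hG]
    have hreg := hR u₀ z le_rfl hz
    rw [hPz, hempty0, hRz] at hreg
    have hV0 : VP g ∅ = 1 := by
      unfold VP
      rw [prod_empty]
    rw [hV0, one_mul] at hreg
    have hlu : √(Real.log D / a) ≤ √(Real.log u₀) := by
      rw [← hlz']
      exact Real.sqrt_le_sqrt (Real.log_le_log hz'0 hc.le)
    have h1 : 1 ≤ K * VP g P * R := by
      have h2 : 1 * √(Real.log D / a) ≤ (K * VP g P * R) * √(Real.log D / a) := by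
        linarith
      exact le_of_mul_le_mul_right h2 hsq
    calc (1 : ℝ) = 1 * 1 := (one_mul 1).symm
      _ ≤ K * VP g P * R * B := mul_le_mul h1 hB zero_le_one (by linarith)
      _ = VP g P * (K * R * B) := by ring

end Pool.Agent.Wd33b62
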