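import Pool.Agent.W_d33b62_h36.HU1

/-!
# The functions of the half-dimensional sieve (helper36, MP_d33b62_nt)

`u = F - 1`, `w = 1 - f` in the usual notation (dimension `1 / 2`, sieving limit `1`).
-/

set_option autoImplicit false

noncomputable section

open MeasureTheory

namespace Pool.Agent.Wd33b62

variable {u w : ℝ → ℝ} {C : ℝ}

theorem HU2_exp (f : ℝ → ℝ) (c s : ℝ) (hs : 0 < s) (hc : 0 ≤ c) (hf : IntegrableOn f (Set.Ioi s))
    (h : ∀ t ∈ Set.Ioi s, f t ≤ c * Real.exp (-t) * (1 / (2 * √t))) :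
    ∫ t in Set.Ioi s, f t ≤ c * Real.exp (-s) * (1 / (2 * √s)) := by
  have h1 : ∫ t in Set.Ioi s, f t ≤ ∫ t in Set.Ioi s, (c * (1 / (2 * √s))) * Real.exp (-t) := by
    refine setIntegral_mono_on hf ((integrableOn_exp_neg_Ioi s).const_mul _) measurableSet_Ioi
      fun t ht => ?_
    have hst : s < t := ht
    have h2 : √s ≤ √t := Real.sqrt_le_sqrt hst.le
    have h3 : 0 < √s := Real.sqrt_pos.2 hs
    have h4 : 1 / (2 * √t) ≤ 1 / (2 * √s) :=
      one_div_le_one_div_of_le (by linarith) (by linarith)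
    calc f t ≤ c * Real.exp (-t) * (1 / (2 * √t)) := h t ht
      _ ≤ c * Real.exp (-t) * (1 / (2 * √s)) :=
          mul_le_mul_of_nonneg_left h4 (mul_nonneg hc (Real.exp_pos _).le)
      _ = (c * (1 / (2 * √s))) * Real.exp (-t) := by ring
  refine h1.trans (le_of_eq ?_)
  rw [integral_const_mul, integral_exp_neg_Ioi]
  ring

theorem HU2_hF_large (x : ℝ) (hx : 2 ≤ x) : hF x = 4 / 5 * Real.exp (-x) := by
  unfold hF
  rw [max_eq_left hx, min_eq_right hx, div_self (by norm_num), Real.sqrt_one, mul_one]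

theorem HU2_hF_small (x : ℝ) (hx0 : 0 < x) (hx : x ≤ 2) :
    hF x = 4 / 5 * Real.exp (-2) * (√2 * x ^ (-(1 / 2) : ℝ)) := by
  unfold hF
  rw [max_eq_right hx, min_eq_left hx, Real.sqrt_div (by norm_num), Real.rpow_neg hx0.le,
    ← Real.sqrt_eq_rpow, div_eq_mul_inv √2 √x]

/-- The integral over `(s, ∞)` for `s ≥ 3`. -/
theorem HU2_A (s : ℝ) (hs : 3 ≤ s) :
    ∫ t in Set.Ioi s, hF (t - 1) * (1 / (2 * √t)) ≤
      (4 / 5 * Real.exp 1) * Real.exp (-s) * (1 / (2 * √s)) := by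
  refine HU2_exp _ _ s (by linarith) (by positivity) (hF_int s (by linarith)) fun t ht => ?_
  have hst : s < t := ht
  rw [HU2_hF_large (t - 1) (by linarith)]
  have e1 : Real.exp (-(t - 1)) = Real.exp 1 * Real.exp (-t) := by
    rw [← Real.exp_add]
    congr 1
    ring
  rw [e1]
  refine le_of_eq ?_
  ring

/-- The integral over `(s, 3]`. -/
theorem HU2_B (s : ℝ) (hs : 1 ≤ s) (hs3 : s ≤ 3) :
    ∫ t in Set.Ioc s 3, hF (t - 1) * (1 / (2 * √t)) ≤
      4 / 5 * Real.exp (-2) * (√2 * (√2 - √(s - 1))) * (1 / √s) := by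
  have hint : IntervalIntegrable (fun t : ℝ => (t - 1) ^ (-(1 / 2) : ℝ)) volume s 3 := by
    have h := (intervalIntegral.intervalIntegrable_rpow' (a := s - 1) (b := 2)
      (r := -(1 / 2)) (by norm_num)).comp_sub_right 1
    have e1 : s - 1 + 1 = s := by ring
    have e2 : (2 : ℝ) + 1 = 3 := by norm_num
    rw [e1, e2] at h
    exact h
  have hval : ∫ t in s..3, (t - 1) ^ (-(1 / 2) : ℝ) = 2 * (√2 - √(s - 1)) := by
    rw [intervalIntegral.integral_comp_sub_right (fun x => x ^ (-(1 / 2) : ℝ)) 1,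
      integral_rpow (Or.inl (by norm_num))]
    have e1 : (-(1 / 2) : ℝ) + 1 = 1 / 2 := by norm_num
    have e2 : (3 : ℝ) - 1 = 2 := by norm_num
    rw [e1, e2, ← Real.sqrt_eq_rpow, ← Real.sqrt_eq_rpow]
    ring
  have h1 : ∫ t in Set.Ioc s 3, hF (t - 1) * (1 / (2 * √t)) ≤
      ∫ t in Set.Ioc s 3, (4 / 5 * Real.exp (-2) * √2 * (1 / (2 * √s))) *
        (t - 1) ^ (-(1 / 2) : ℝ) := by
    refine setIntegral_mono_on ((hF_int s hs).mono_set Set.Ioc_subset_Ioi_self)
      (((intervalIntegrable_iff_integrableOn_Ioc_of_le hs3).1 hint).const_mul _)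
      measurableSet_Ioc fun t ht => ?_
    have hst : s < t := ht.1
    have ht3 : t ≤ 3 := ht.2
    rw [HU2_hF_small (t - 1) (by linarith) (by linarith)]
    have h2 : √s ≤ √t := Real.sqrt_le_sqrt hst.le
    have h3 : 0 < √s := Real.sqrt_pos.2 (by linarith)
    have h4 : 1 / (2 * √t) ≤ 1 / (2 * √s) :=
      one_div_le_one_div_of_le (by linarith) (by linarith)
    have h5 : 0 ≤ 4 / 5 * Real.exp (-2) * (√2 * (t - 1) ^ (-(1 / 2) : ℝ)) := by
      have : 0 ≤ (t - 1) ^ (-(1 / 2) : ℝ) := Real.rpow_nonneg (by linarith) _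
      positivity
    calc 4 / 5 * Real.exp (-2) * (√2 * (t - 1) ^ (-(1 / 2) : ℝ)) * (1 / (2 * √t)) ≤
        4 / 5 * Real.exp (-2) * (√2 * (t - 1) ^ (-(1 / 2) : ℝ)) * (1 / (2 * √s)) :=
          mul_le_mul_of_nonneg_left h4 h5
      _ = (4 / 5 * Real.exp (-2) * √2 * (1 / (2 * √s))) * (t - 1) ^ (-(1 / 2) : ℝ) := by ring
  refine h1.trans (le_of_eq ?_)
  rw [integral_const_mul, ← intervalIntegral.integral_of_le hs3, hval]
  have h3 : √s ≠ 0 := (Real.sqrt_pos.2 (by linarith)).ne'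
  field_simp

/-- The elementary inequality. -/
theorem HU2_num (s : ℝ) (hs : 1 ≤ s) (hs3 : s ≤ 3) :
    4 / 5 * (5 / 2 - √2 * √(s - 1)) ≤ 9 / 10 * (s * Real.exp (2 - s)) := by
  have hsq : √2 * √(s - 1) = √(2 * (s - 1)) := (Real.sqrt_mul (by norm_num) _).symm
  rw [hsq]
  rcases le_total s 2 with h2 | h2
  · -- `1 ≤ s ≤ 2`
    have hx : 0 ≤ 2 - s := by linarith
    have he : 1 + (2 - s) + (2 - s) ^ 2 / 2 ≤ Real.exp (2 - s) := Real.quadratic_le_exp_of_nonneg hx
    have h3 : s * (1 + (2 - s) + (2 - s) ^ 2 / 2) ≤ s * Real.exp (2 - s) :=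
      mul_le_mul_of_nonneg_left he (by linarith)
    rcases le_total s (3 / 2) with h4 | h4
    · have h5 : 0 ≤ √(2 * (s - 1)) := Real.sqrt_nonneg _
      have h6 : (9 : ℝ) / 4 ≤ s * (1 + (2 - s) + (2 - s) ^ 2 / 2) := by
        nlinarith [mul_nonneg (sub_nonneg.2 hs) (sub_nonneg.2 h4),
          mul_nonneg (mul_nonneg (sub_nonneg.2 hs) (sub_nonneg.2 h4)) hx]
      linarith
    · have h5 : 1 ≤ √(2 * (s - 1)) := by
        rw [Real.one_le_sqrt]
        linarith
      have h6 : (2 : ℝ) ≤ s * (1 + (2 - s) + (2 - s) ^ 2 / 2) := by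
        nlinarith [mul_nonneg (sub_nonneg.2 h4) hx, mul_nonneg (mul_nonneg (sub_nonneg.2 h4) hx) hx]
      linarith
  · -- `2 ≤ s ≤ 3`
    have h5 : (1.414 : ℝ) ≤ √(2 * (s - 1)) := by
      refine Real.le_sqrt_of_sq_le ?_
      norm_num
      linarith
    have he : 1 + (3 - s) ≤ Real.exp (3 - s) := by
      have := Real.add_one_le_exp (3 - s)
      linarith
    have h6 : Real.exp (2 - s) = Real.exp (-1) * Real.exp (3 - s) := by
      rw [← Real.exp_add]
      congr 1
      ring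
    have h7 : (0.367 : ℝ) ≤ Real.exp (-1) := by
      rw [Real.exp_neg, ← one_div, le_div_iff₀ (Real.exp_pos 1)]
      have := Real.exp_one_lt_d9
      linarith
    have h8 : (3 : ℝ) ≤ s * Real.exp (3 - s) := by
      have h9 : s * (1 + (3 - s)) ≤ s * Real.exp (3 - s) :=
        mul_le_mul_of_nonneg_left he (by linarith)
      nlinarith
    have h10 : (0.367 : ℝ) * 3 ≤ Real.exp (-1) * (s * Real.exp (3 - s)) :=
      mul_le_mul h7 h8 (by norm_num) (Real.exp_pos _).le
    rw [h6]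
    have h11 : s * (Real.exp (-1) * Real.exp (3 - s)) =
        Real.exp (-1) * (s * Real.exp (3 - s)) := by ring
    rw [h11]
    linarith

/-- **First supersolution inequality.** For `s ≥ 3` the integral is at most `(4 / 5) e exp (-s) / (2 √s) ≤ (9 / 10) √s exp (-s)`
(`e ≤ 2.7183`, `s ≥ 1.21` suffices). For `1 ≤ s ≤ 3`: on `[s, 3]` the integrand is
`(4 / 5) e ^ (-2) √2 / √(t - 1) / (2 √t) ≤ (4 / 5) e ^ (-2) √2 / (2 √s √(t - 1))`, integral
`≤ (4 / 5) e ^ (-2) √2 (√2 - √(s - 1)) / √s`, plus the integral over `[3, ∞)`, at most `(4 / 5) e ^ (-2) / (2 √3)`. The quotient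
of the sum and `√s exp (-s)` is at most `0.8`: multiply by `exp s / √s`; at `s = 1` it is about `0.67`; split `[1, 3]` into
small intervals or use monotonicity (all values are below `0.8`). -/
theorem hF_super (s : ℝ) (hs : 1 ≤ s) :
    ∫ t in Set.Ioi s, hF (t - 1) * (1 / (2 * √t)) ≤ 9 / 10 * (√s * hf s) := by
  have hs0 : 0 < s := by linarith
  have hsq : 0 < √s := Real.sqrt_pos.2 hs0
  have hss : √s * √s = s := Real.mul_self_sqrt hs0.le
  rcases le_total 3 s with h3 | h3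
  · refine (HU2_A s h3).trans ?_
    unfold hf
    have he := Real.exp_one_lt_d9
    have h1 : (4 / 5 * Real.exp 1) * (1 / (2 * √s)) ≤ 9 / 10 * √s := by
      rw [← div_eq_mul_one_div, div_le_iff₀ (by positivity)]
      nlinarith
    calc (4 / 5 * Real.exp 1) * Real.exp (-s) * (1 / (2 * √s)) =
        ((4 / 5 * Real.exp 1) * (1 / (2 * √s))) * Real.exp (-s) := by ring
      _ ≤ (9 / 10 * √s) * Real.exp (-s) :=
          mul_le_mul_of_nonneg_right h1 (Real.exp_pos _).le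
      _ = 9 / 10 * (√s * Real.exp (-s)) := by ring
  · have hint := hF_int s hs
    have hsplit : ∫ t in Set.Ioi s, hF (t - 1) * (1 / (2 * √t)) =
        (∫ t in Set.Ioc s 3, hF (t - 1) * (1 / (2 * √t))) +
        ∫ t in Set.Ioi 3, hF (t - 1) * (1 / (2 * √t)) := by
      rw [← setIntegral_union (Set.Ioc_disjoint_Ioi le_rfl) measurableSet_Ioi
        (hint.mono_set Set.Ioc_subset_Ioi_self) (hF_int 3 (by norm_num)),
        Set.Ioc_union_Ioi_eq_Ioi h3]
    rw [hsplit]
    have hA := HU2_A 3 le_rfl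
    have hB := HU2_B s hs h3
    have hn := HU2_num s hs h3
    have hsqrt3 : 0 < √(3 : ℝ) := Real.sqrt_pos.2 (by norm_num)
    have hle : √s ≤ √3 := Real.sqrt_le_sqrt h3
    have e1 : Real.exp 1 * Real.exp (-3) = Real.exp (-2) := by
      rw [← Real.exp_add]
      norm_num
    have hA' : (4 / 5 * Real.exp 1) * Real.exp (-3) * (1 / (2 * √3)) ≤
        4 / 5 * Real.exp (-2) * (1 / 2) * (1 / √s) := by
      have h4 : 1 / √3 ≤ 1 / √s := one_div_le_one_div_of_le hsq hle
      calc (4 / 5 * Real.exp 1) * Real.exp (-3) * (1 / (2 * √3)) =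
          4 / 5 * (Real.exp 1 * Real.exp (-3)) * (1 / 2) * (1 / √3) := by
            field_simp
        _ = 4 / 5 * Real.exp (-2) * (1 / 2) * (1 / √3) := by rw [e1]
        _ ≤ 4 / 5 * Real.exp (-2) * (1 / 2) * (1 / √s) :=
            mul_le_mul_of_nonneg_left h4 (by positivity)
    have h22 : √2 * √2 = (2 : ℝ) := Real.mul_self_sqrt (by norm_num)
    unfold hf
    have e2 : Real.exp (-s) = Real.exp (-2) * Real.exp (2 - s) := by
      rw [← Real.exp_add]
      congr 1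
      ring
    calc (∫ t in Set.Ioc s 3, hF (t - 1) * (1 / (2 * √t))) +
        (∫ t in Set.Ioi 3, hF (t - 1) * (1 / (2 * √t))) ≤
        4 / 5 * Real.exp (-2) * (√2 * (√2 - √(s - 1))) * (1 / √s) +
        4 / 5 * Real.exp (-2) * (1 / 2) * (1 / √s) := add_le_add hB (hA.trans hA')
      _ = (Real.exp (-2) * (1 / √s)) * (4 / 5 * (5 / 2 - √2 * √(s - 1))) := by
          rw [mul_sub, h22]
          ring
      _ ≤ (Real.exp (-2) * (1 / √s)) * (9 / 10 * (s * Real.exp (2 - s))) :=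
          mul_le_mul_of_nonneg_left hn (by positivity)
      _ = 9 / 10 * ((s / √s) * (Real.exp (-2) * Real.exp (2 - s))) := by ring
      _ = 9 / 10 * (√s * Real.exp (-s)) := by rw [Real.div_sqrt, ← e2]

/-- **Second supersolution inequality**: the integral is at most `e exp (-s) / (2 √s)`, and `e / (2 s) ≤ 0.68 ≤ 0.72`. -/
theorem hf_super (s : ℝ) (hs : 2 ≤ s) :
    ∫ t in Set.Ioi s, hf (t - 1) * (1 / (2 * √t)) ≤ 9 / 10 * (√s * hF s) := by
  have hs0 : 0 < s := by linarith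
  have hsq : 0 < √s := Real.sqrt_pos.2 hs0
  have hss : √s * √s = s := Real.mul_self_sqrt hs0.le
  have h1 : ∫ t in Set.Ioi s, hf (t - 1) * (1 / (2 * √t)) ≤
      Real.exp 1 * Real.exp (-s) * (1 / (2 * √s)) := by
    refine HU2_exp _ _ s hs0 (Real.exp_pos 1).le (hf_int s (by linarith)) fun t _ => ?_
    unfold hf
    have e1 : Real.exp (-(t - 1)) = Real.exp 1 * Real.exp (-t) := by
      rw [← Real.exp_add]
      congr 1
      ring
    rw [e1]
  refine h1.trans ?_
  rw [HU2_hF_large s hs]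
  have he := Real.exp_one_lt_d9
  have h2 : Real.exp 1 * (1 / (2 * √s)) ≤ 9 / 10 * √s * (4 / 5) := by
    rw [← div_eq_mul_one_div, div_le_iff₀ (by positivity)]
    nlinarith
  calc Real.exp 1 * Real.exp (-s) * (1 / (2 * √s)) =
      (Real.exp 1 * (1 / (2 * √s))) * Real.exp (-s) := by ring
    _ ≤ (9 / 10 * √s * (4 / 5)) * Real.exp (-s) :=
        mul_le_mul_of_nonneg_right h2 (Real.exp_pos _).le
    _ = 9 / 10 * (√s * (4 / 5 * Real.exp (-s))) := by ring

end Pool.Agent.Wd33b62
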