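import Pool.Agent.W_d33b62_h36.HU1

/-!
# The functions of the half-dimensional sieve (helper36, MP_d33b62_nt)

`u = F - 1`, `w = 1 - f` in the usual notation (dimension `1 / 2`, sieving limit `1`).
-/

set_option autoImplicit false

noncomputable section

open MeasureTheory

namespace Pool.Agent.Wd33b62

variable {u w : ℝ → ℝ} {C : ℝ}

theorem UWH.u_int (h : UWH u w C) (s : ℝ) (hs : 1 ≤ s) :
    IntegrableOn (fun t => u (t - 1) * (1 / (2 * √t))) (Set.Ioi s) := by
  refine ((hF_int s hs).const_mul C).mono' ?_ ?_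
  · have h1 := h.u_meas
    have h2 : Measurable fun t : ℝ => u (t - 1) * (1 / (2 * √t)) := by fun_prop
    exact h2.aestronglyMeasurable
  · refine (ae_restrict_iff' measurableSet_Ioi).2 (Filter.Eventually.of_forall fun t ht => ?_)
    have ht' : s < t := ht
    have h3 := h.u_le (t - 1) (by linarith)
    rw [norm_mul, Real.norm_of_nonneg (h.u_nonneg _), Real.norm_of_nonneg (by positivity),
      ← mul_assoc]
    exact mul_le_mul_of_nonneg_right h3 (by positivity)

theorem UWH.w_int (h : UWH u w C) (s : ℝ) (hs : 2 ≤ s) :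
    IntegrableOn (fun t => w (t - 1) * (1 / (2 * √t))) (Set.Ioi s) := by
  refine ((hf_int s (by linarith)).const_mul C).mono' ?_ ?_
  · have h1 := h.w_anti.measurable
    have h2 : Measurable fun t : ℝ => w (t - 1) * (1 / (2 * √t)) := by fun_prop
    exact h2.aestronglyMeasurable
  · refine (ae_restrict_iff' measurableSet_Ioi).2 (Filter.Eventually.of_forall fun t ht => ?_)
    have ht' : s < t := ht
    have h3 := h.w_le (t - 1) (by linarith)
    rw [norm_mul, Real.norm_of_nonneg (h.w_nonneg _), Real.norm_of_nonneg (by positivity),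
      ← mul_assoc]
    exact mul_le_mul_of_nonneg_right h3 (by positivity)

/-- `√s (1 + u s) = √2 (1 + u 2)` on `(0, 2]` (from `u_eq`). -/
theorem UWH.F_eq (h : UWH u w C) (s : ℝ) (h0 : 0 < s) (h2 : s ≤ 2) : √s * (1 + u s) = √2 * (1 + u 2) := by
  have h3 := h.u_eq s h0
  have h4 := h.u_eq 2 two_pos
  rw [max_eq_right h2, max_eq_left (sub_nonneg.2 (Real.sqrt_le_sqrt h2))] at h3
  rw [max_self, sub_self, max_self, zero_add] at h4
  rw [mul_add, mul_add, h3, h4]
  ring

/-- **`w` on `[1, 2]` in terms of `w 1`**, `A = √2 (1 + u 2)`: `√s w(s) = w(1) - ∫_1^s (A / √(t - 1) - 1) / (2 √t) dt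
= w(1) - A log (√s + √(s - 1)) + √s - 1`; the derivative of `log (√s + √(s - 1))` is `1 / (2 √s √(s - 1))`. -/
theorem UWH.w_formula (h : UWH u w C) (s : ℝ) (h1 : 1 ≤ s) (h2 : s ≤ 2) :
    √s * w s = w 1 - √2 * (1 + u 2) * Real.log (√s + √(s - 1)) + √s - 1 := by
  set A : ℝ := √2 * (1 + u 2) with hA
  have hi := h.u_int 1 le_rfl
  have e1 : Set.Ioi (1 : ℝ) = Set.Ioc 1 s ∪ Set.Ioi s := (Set.Ioc_union_Ioi_eq_Ioi h1).symm
  have w1 := h.w_eq 1 le_rfl
  rw [Real.sqrt_one, one_mul, e1, setIntegral_union (Set.Ioc_disjoint_Ioi le_rfl)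
    measurableSet_Ioi (hi.mono_set Set.Ioc_subset_Ioi_self) (hi.mono_set (Set.Ioi_subset_Ioi h1)),
    ← h.w_eq s h1, ← intervalIntegral.integral_of_le h1] at w1
  have hcont : ContinuousOn (fun t : ℝ => A * Real.log (√t + √(t - 1)) - √t) (Set.Icc 1 s) := by
    refine ContinuousOn.sub (continuousOn_const.mul (ContinuousOn.log ?_ fun t ht => ?_)) ?_
    · fun_prop
    · have h3 : 0 < √t := Real.sqrt_pos.2 (by linarith [ht.1])
      have h4 := Real.sqrt_nonneg (t - 1)
      linarith
    · fun_prop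
  have hder : ∀ t ∈ Set.Ioo 1 s, HasDerivAt (fun t : ℝ => A * Real.log (√t + √(t - 1)) - √t)
      (u (t - 1) * (1 / (2 * √t))) t := by
    rintro t ⟨ht1, ht2⟩
    have h3 : 0 < √t := Real.sqrt_pos.2 (by linarith)
    have h4 : 0 < √(t - 1) := Real.sqrt_pos.2 (by linarith)
    have d1 : HasDerivAt (fun t : ℝ => √t) (1 / (2 * √t)) t :=
      (hasDerivAt_id t).sqrt (by linarith : t ≠ 0)
    have d2 : HasDerivAt (fun t : ℝ => √(t - 1)) (1 / (2 * √(t - 1))) t :=
      ((hasDerivAt_id t).sub_const 1).sqrt (by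
        show t - 1 ≠ 0
        linarith)
    have d3 := (((d1.add d2).log (by
      show √t + √(t - 1) ≠ 0
      positivity)).const_mul A).sub d1
    refine d3.congr_deriv ?_
    have h5 := h.F_eq (t - 1) (by linarith) (by linarith)
    rw [← hA] at h5
    show A * ((1 / (2 * √t) + 1 / (2 * √(t - 1))) / (√t + √(t - 1))) - 1 / (2 * √t) =
      u (t - 1) * (1 / (2 * √t))
    rw [← h5]
    field_simp
    ring
  have hint : IntervalIntegrable (fun t => u (t - 1) * (1 / (2 * √t))) volume 1 s :=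
    (intervalIntegrable_iff_integrableOn_Ioc_of_le h1).2 (hi.mono_set Set.Ioc_subset_Ioi_self)
  rw [intervalIntegral.integral_eq_sub_of_hasDerivAt_of_le h1 hcont hder hint] at w1
  rw [sub_self, Real.sqrt_one, Real.sqrt_zero, add_zero, Real.log_one, mul_zero] at w1
  linarith

end Pool.Agent.Wd33b62
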