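import Pool.Agent.W_b58c63_h68.JPS
import Pool.Agent.W_d33b62_h36.HU2
import Pool.Agent.W_d33b62_h36.HU4

/-!
# The half-dimensional sieve: the induction (helper36, MP_d33b62_nt)

Compare `Pool.Agent.W_b58c63_h68.JStA`, `JStB`, `JMain`.
-/

set_option autoImplicit false

noncomputable section

open Finset MeasureTheory

namespace Pool.Agent.Wd33b62

open Pool.Agent.Wb58c63 (VP below VP_expand JLam_expand VP_pos)

variable {u w : ℝ → ℝ} {C : ℝ}

/-- The value of `hF` beyond `2`. -/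
private theorem HS4_hF (s : ℝ) (hs : 2 ≤ s) : hF s = 4 / 5 * Real.exp (-s) := by
  unfold hF
  rw [max_eq_left hs, min_eq_right hs]
  norm_num

private theorem HS4_shift (θ : ℝ) (hθ : 0 < θ) : hf (2 + θ - 1) ≤ 34 / 10 * hF (2 + θ) := by
  rw [HS4_hF _ (by linarith)]
  unfold hf
  have h1 : Real.exp (-(2 + θ - 1)) = Real.exp 1 * Real.exp (-(2 + θ)) := by
    rw [← Real.exp_add]
    congr 1
    ring
  rw [h1]
  have h2 := Real.exp_one_lt_d9
  have h3 := Real.exp_pos (-(2 + θ))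
  nlinarith

private theorem HS4_lower (θ : ℝ) (hθ : 0 < θ) (hθ1 : θ ≤ 1 / 100) :
    1 / 8 ≤ √(2 + θ) * hF (2 + θ) := by
  rw [HS4_hF _ (by linarith)]
  have h1 : Real.exp (-(2 + θ)) = (Real.exp 1 * Real.exp 1)⁻¹ * Real.exp (-θ) := by
    rw [← Real.exp_add, ← Real.exp_neg, ← Real.exp_add]
    congr 1
    ring
  have h2 : (1 : ℝ) - θ ≤ Real.exp (-θ) := by
    have := Real.add_one_le_exp (-θ)
    linarith
  have h3 := Real.exp_one_lt_d9
  have h3' := Real.exp_pos 1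
  have h4 : Real.exp 1 * Real.exp 1 ≤ 7.4 := by nlinarith
  have h5 : (1 / 7.4 : ℝ) ≤ (Real.exp 1 * Real.exp 1)⁻¹ := by
    rw [← one_div]
    exact one_div_le_one_div_of_le (by positivity) h4
  have h6 : (1.4 : ℝ) ≤ √(2 + θ) := by
    apply Real.le_sqrt_of_sq_le
    norm_num
    linarith
  have h7 : (0.13 : ℝ) ≤ Real.exp (-(2 + θ)) := by
    rw [h1]
    have : (1 / 7.4 : ℝ) * (99 / 100) ≤ (Real.exp 1 * Real.exp 1)⁻¹ * Real.exp (-θ) :=
      mul_le_mul h5 (by linarith) (by norm_num) (by positivity)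
    norm_num at this ⊢
    linarith
  nlinarith

private theorem HS4_sqrt (θ : ℝ) (hθ : 0 < θ) : √(2 + θ) ≤ √2 + θ := by
  rw [Real.sqrt_le_left (by positivity)]
  have h1 : √2 ^ 2 = 2 := Real.sq_sqrt (by norm_num)
  have h2 : (1 : ℝ) ≤ √2 := by
    rw [← Real.sqrt_one]
    exact Real.sqrt_le_sqrt (by norm_num)
  nlinarith

/-- The comparison of `√s (1 + u s)`. -/
private theorem HS4_F (h : UWH u w C) (θ : ℝ) (hθ : 0 < θ) (s : ℝ) (hs0 : 0 < s) (hs : s ≤ 2 + θ) :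
    √(2 + θ) * (1 + u (2 + θ)) ≤ √s * (1 + u s) + θ := by
  have e1 := h.u_eq (2 + θ) (by linarith)
  have e2 := h.u_eq s hs0
  have h3 : max (√2 - √(2 + θ)) 0 = 0 := by
    apply max_eq_right
    have := Real.sqrt_le_sqrt (show (2 : ℝ) ≤ 2 + θ by linarith)
    linarith
  have h4 : max (2 + θ) 2 = 2 + θ := max_eq_left (by linarith)
  rw [h3, h4, zero_add] at e1
  have h5 : ∫ t in Set.Ioi (2 + θ), w (t - 1) * (1 / (2 * √t)) ≤
      ∫ t in Set.Ioi (max s 2), w (t - 1) * (1 / (2 * √t)) := by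
    apply setIntegral_mono_set (h.w_int (max s 2) (le_max_right _ _))
    · exact Filter.Eventually.of_forall fun t => mul_nonneg (h.w_nonneg _) (by positivity)
    · apply LE.le.eventuallyLE
      intro t ht
      have ht' : 2 + θ < t := ht
      exact (max_le hs (by linarith : (2 : ℝ) ≤ 2 + θ)).trans_lt ht'
  have h6 := HS4_sqrt θ hθ
  have h7 : √2 ≤ √s + max (√2 - √s) 0 := by
    have := le_max_left (√2 - √s) 0
    linarith
  have e3 : √(2 + θ) * (1 + u (2 + θ)) = √(2 + θ) + √(2 + θ) * u (2 + θ) := by ring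
  have e4 : √s * (1 + u s) = √s + √s * u s := by ring
  rw [e3, e4, e1, e2]
  linarith

/-- The numerical inequality. -/
private theorem HS4_num (C θ e K : ℝ) (hC : 0 < C) (hθ : 0 < θ) (hθ1 : θ ≤ 1 / 100) (he : 0 < e)
    (he1 : e ≤ 1) (hθ2 : 200 * θ ≤ e) (hK1 : 1 ≤ K) (hK : 50 * (K - 1) * (C + 1) ≤ e * √θ) :
    8 * θ + 12 * (K - 1) + (K ^ 2 - 1) * C + K ^ 2 * (9 / 10) * e +
      34 / 10 * K * (K - 1) * (C + 1) ≤ e := by
  have h1 : √θ ≤ 1 / 10 := by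
    rw [Real.sqrt_le_left (by norm_num)]
    norm_num
    linarith
  have h2 : 500 * ((K - 1) * (C + 1)) ≤ e := by
    have : e * √θ ≤ e * (1 / 10) := mul_le_mul_of_nonneg_left h1 he.le
    nlinarith
  have h3 : 500 * (K - 1) ≤ e := by
    have : 0 ≤ (K - 1) * C := mul_nonneg (by linarith) hC.le
    nlinarith
  have h4 : K ≤ 1 + 1 / 500 := by linarith
  have h5 : 0 ≤ (K - 1) * (C + 1) := mul_nonneg (by linarith) (by linarith)
  have h6 : (K ^ 2 - 1) * C ≤ 3 * ((K - 1) * (C + 1)) := by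
    have h7 : (K ^ 2 - 1) * C = (K + 1) * ((K - 1) * C) := by ring
    have h8 : (K - 1) * C ≤ (K - 1) * (C + 1) :=
      mul_le_mul_of_nonneg_left (by linarith) (by linarith)
    have h9 : 0 ≤ (K - 1) * C := mul_nonneg (by linarith) hC.le
    rw [h7]
    nlinarith
  have h7 : 34 / 10 * K * (K - 1) * (C + 1) ≤ 4 * ((K - 1) * (C + 1)) := by
    have : 34 / 10 * K * (K - 1) * (C + 1) = 34 / 10 * K * ((K - 1) * (C + 1)) := by ring
    rw [this]
    nlinarith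
  have h8 : K ^ 2 ≤ 1.005 := by nlinarith
  have h9 : K ^ 2 * (9 / 10) * e ≤ 1.005 * (9 / 10) * e := by
    apply mul_le_mul_of_nonneg_right _ he.le
    linarith
  norm_num at h9
  linarith

/-- **Numbers for small `s`.** `s₁ = 2 + θ`, `0 < s ≤ s₁`.

Proof. `∫_{s₁}^∞ w(t - 1) / (2 √t) = √s₁ u(s₁)`, `hf_super`, `hf (s₁ - 1) ≤ 3.4 hF s₁`: the bracket is at most
`1 + K (u s₁ + (9 / 10) e hF s₁) + 3.4 (K - 1) (C + 1) hF s₁`. Multiply by `√s₁`: `√s₁ (1 + u s₁) ≤ √s (1 + u s) + θ` (`√s₁ u s₁ ≤ ∫_{max s 2}^∞`,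
`u_eq`: `√s u s = max (√2 - √s) 0 + ∫_{max s 2}^∞`, `√s₁ - √2 ≤ θ`), `√s₁ hF s₁ ≤ √s hF s` (`sqrt_hF_anti`), `u ≤ C hF`,
`√s hF s ≥ √s₁ hF s₁ ≥ 1 / 8`. The claim, multiplied by `√s`, follows from
`(K - 1) (14 + C) + 8 K θ + K (K - 1) C + (9 / 10) K ^ 2 e + 3.4 K (K - 1) (C + 1) ≤ e`, which holds by `hK` and `hθ2`
(`K - 1 ≤ e √θ / (50 (C + 1)) ≤ 1 / 500`). -/
theorem H_true_const (h : UWH u w C) (θ e K : ℝ) (hθ : 0 < θ) (hθ1 : θ ≤ 1 / 100) (he : 0 < e) (he1 : e ≤ 1)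
    (hθ2 : 200 * θ ≤ e) (hK1 : 1 ≤ K) (hK : 50 * (K - 1) * (C + 1) ≤ e * √θ) (s : ℝ) (hs0 : 0 < s)
    (hs : s ≤ 2 + θ) :
    K * √((2 + θ) / s) * (1 + K / √(2 + θ) *
      (∫ t in Set.Ioi (2 + θ), (w (t - 1) + e * hf (t - 1)) * (1 / (2 * √t))) +
        (K - 1) * (w (2 + θ - 1) + e * hf (2 + θ - 1))) ≤ 1 + u s + e * hF s := by
  have hC := h.C_pos
  set s₁ : ℝ := 2 + θ with hs₁
  have hs12 : 2 ≤ s₁ := by rw [hs₁]; linarith
  have hs1pos : 0 < s₁ := by linarith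
  have hr1 : 0 < √s₁ := Real.sqrt_pos.2 hs1pos
  have hr : 0 < √s := Real.sqrt_pos.2 hs0
  -- the integral
  have hint : ∫ t in Set.Ioi s₁, (w (t - 1) + e * hf (t - 1)) * (1 / (2 * √t)) =
      (∫ t in Set.Ioi s₁, w (t - 1) * (1 / (2 * √t))) +
        e * ∫ t in Set.Ioi s₁, hf (t - 1) * (1 / (2 * √t)) := by
    rw [← integral_const_mul, ← integral_add (h.w_int s₁ hs12)
      ((hf_int s₁ (by linarith)).const_mul e)]
    apply integral_congr_ae
    exact Filter.Eventually.of_forall fun t => by simp only; ring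
  have hueq : √s₁ * u s₁ = ∫ t in Set.Ioi s₁, w (t - 1) * (1 / (2 * √t)) := by
    have e1 := h.u_eq s₁ hs1pos
    have h3 : max (√2 - √s₁) 0 = 0 := by
      apply max_eq_right
      have := Real.sqrt_le_sqrt hs12
      linarith
    have h4 : max s₁ 2 = s₁ := max_eq_left hs12
    rw [h3, h4, zero_add] at e1
    exact e1
  have hH := hf_super s₁ hs12
  set H : ℝ := ∫ t in Set.Ioi s₁, hf (t - 1) * (1 / (2 * √t)) with hHdef
  rw [hint, ← hueq]
  -- the last term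
  have hw1 : w (s₁ - 1) ≤ C * hf (s₁ - 1) := h.w_le _ (by linarith)
  have hshift : hf (s₁ - 1) ≤ 34 / 10 * hF s₁ := HS4_shift θ hθ
  have hlow : 1 / 8 ≤ √s₁ * hF s₁ := HS4_lower θ hθ hθ1
  have hanti : √s₁ * hF s₁ ≤ √s * hF s := sqrt_hF_anti (Set.mem_Ioi.2 hs0) (Set.mem_Ioi.2 hs1pos) hs
  have hF1 := hF_pos s₁ hs1pos
  have hu1 : u s₁ ≤ C * hF s₁ := h.u_le s₁ hs1pos
  have hfpos := hf_pos (s₁ - 1)
  have hlast : w (s₁ - 1) + e * hf (s₁ - 1) ≤ 34 / 10 * (C + 1) * hF s₁ := by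
    have h1 : w (s₁ - 1) + e * hf (s₁ - 1) ≤ (C + 1) * hf (s₁ - 1) := by nlinarith
    refine h1.trans ?_
    have := mul_le_mul_of_nonneg_left hshift (show 0 ≤ C + 1 by linarith)
    linarith
  set G : ℝ := √s₁ * hF s₁ with hG
  set a : ℝ := √s₁ * u s₁ with ha
  have ha0 : 0 ≤ a := mul_nonneg hr1.le (h.u_nonneg _)
  have haG : a ≤ C * G := by
    have := mul_le_mul_of_nonneg_left hu1 hr1.le
    rw [ha, hG]
    linarith
  have hFF : √s₁ * (1 + u s₁) ≤ √s * (1 + u s) + θ := HS4_F h θ hθ s hs0 hs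
  have hG0 : 0 < G := by linarith
  -- the bracket times `√s₁`
  have hB : √s₁ * (1 + K / √s₁ * (a + e * H) + (K - 1) * (w (s₁ - 1) + e * hf (s₁ - 1))) ≤
      √s₁ + K * (a + e * (9 / 10 * G)) + (K - 1) * (34 / 10 * (C + 1) * G) := by
    have h1 : √s₁ * (1 + K / √s₁ * (a + e * H) + (K - 1) * (w (s₁ - 1) + e * hf (s₁ - 1))) =
        √s₁ + K * (a + e * H) + (K - 1) * (√s₁ * (w (s₁ - 1) + e * hf (s₁ - 1))) := by
      field_simp
    rw [h1]
    have h2 : √s₁ * (w (s₁ - 1) + e * hf (s₁ - 1)) ≤ 34 / 10 * (C + 1) * G := by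
      have := mul_le_mul_of_nonneg_left hlast hr1.le
      rw [hG]
      linarith
    have h3 : K * (a + e * H) ≤ K * (a + e * (9 / 10 * G)) := by
      apply mul_le_mul_of_nonneg_left _ (by linarith)
      have := mul_le_mul_of_nonneg_left hH he.le
      linarith
    have h4 := mul_le_mul_of_nonneg_left h2 (show 0 ≤ K - 1 by linarith)
    linarith
  have hnum := HS4_num C θ e K hC hθ hθ1 he he1 hθ2 hK1 hK
  have hsq : √s₁ ≤ 12 * G := by
    have : √s₁ ≤ 1.5 := by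
      rw [Real.sqrt_le_left (by norm_num)]
      norm_num
      rw [hs₁]
      linarith
    norm_num at this
    linarith
  -- the claim multiplied by `√s`
  have hmain : K * (√s₁ * (1 + K / √s₁ * (a + e * H) + (K - 1) * (w (s₁ - 1) + e * hf (s₁ - 1)))) ≤
      √s * (1 + u s + e * hF s) := by
    have h1 := mul_le_mul_of_nonneg_left hB (show 0 ≤ K by linarith)
    refine h1.trans ?_
    have h2 : √s₁ * (1 + u s₁) = √s₁ + a := by rw [ha]; ring
    rw [h2] at hFF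
    have h3 : √s * (1 + u s + e * hF s) = √s * (1 + u s) + e * (√s * hF s) := by ring
    rw [h3]
    have h4 : e * G ≤ e * (√s * hF s) := mul_le_mul_of_nonneg_left hanti he.le
    have h5 := mul_le_mul_of_nonneg_right hnum hG0.le
    have h6 : (K ^ 2 - 1) * a ≤ (K ^ 2 - 1) * (C * G) :=
      mul_le_mul_of_nonneg_left haG (by nlinarith)
    have h7 : (K - 1) * √s₁ ≤ (K - 1) * (12 * G) :=
      mul_le_mul_of_nonneg_left hsq (by linarith)
    have h8 : θ ≤ 8 * θ * G := by nlinarith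
    have h9 : K * (√s₁ + K * (a + e * (9 / 10 * G)) + (K - 1) * (34 / 10 * (C + 1) * G)) =
        (√s₁ + a) + (K - 1) * √s₁ + (K ^ 2 - 1) * a + K ^ 2 * (9 / 10) * e * G +
          34 / 10 * K * (K - 1) * (C + 1) * G := by ring
    rw [h9]
    nlinarith
  have hq : √(s₁ / s) = √s₁ / √s := Real.sqrt_div hs1pos.le s
  rw [hq]
  have h10 : K * (√s₁ / √s) * (1 + K / √s₁ * (a + e * H) + (K - 1) * (w (s₁ - 1) + e * hf (s₁ - 1))) =
      K * (√s₁ * (1 + K / √s₁ * (a + e * H) + (K - 1) * (w (s₁ - 1) + e * hf (s₁ - 1)))) / √s := by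
    ring
  rw [h10, div_le_iff₀ hr]
  linarith

end Pool.Agent.Wd33b62
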