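import Pool.Agent.W_d33b62_h36.HU2

/-!
# The functions of the half-dimensional sieve (helper36, MP_d33b62_nt)

`u = F - 1`, `w = 1 - f` in the usual notation (dimension `1 / 2`, sieving limit `1`).
-/

set_option autoImplicit false

noncomputable section

open MeasureTheory

namespace Pool.Agent.Wd33b62

variable {u w : ℝ → ℝ} {C : ℝ}

open scoped ENNReal

/-- The monotone operator whose least fixed point is the pair `(u, w)`. -/
def hu3_Phi : ((ℝ → ℝ≥0∞) × (ℝ → ℝ≥0∞)) →o ((ℝ → ℝ≥0∞) × (ℝ → ℝ≥0∞)) where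
  toFun p := (fun s => (ENNReal.ofReal (√s))⁻¹ *
      (ENNReal.ofReal (√2 - √s) +
        ∫⁻ t in Set.Ioi (max s 2), p.2 (t - 1) * ENNReal.ofReal (1 / (2 * √t))),
    fun s => (ENNReal.ofReal (√(max s 1)))⁻¹ *
      ∫⁻ t in Set.Ioi (max s 1), p.1 (t - 1) * ENNReal.ofReal (1 / (2 * √t)))
  monotone' := by
    intro p q h
    refine ⟨fun s => ?_, fun s => ?_⟩
    · refine mul_le_mul_right (add_le_add_right (lintegral_mono fun t => ?_) _) _
      exact mul_le_mul_left (h.2 (t - 1)) _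
    · refine mul_le_mul_right (lintegral_mono fun t => ?_) _
      exact mul_le_mul_left (h.1 (t - 1)) _

lemma hu3_anti1 (p : (ℝ → ℝ≥0∞) × (ℝ → ℝ≥0∞)) : Antitone (hu3_Phi p).1 := by
  intro s t h
  refine mul_le_mul' ?_ (add_le_add ?_ ?_)
  · exact ENNReal.inv_le_inv.2 (ENNReal.ofReal_le_ofReal (Real.sqrt_le_sqrt h))
  · exact ENNReal.ofReal_le_ofReal (by have := Real.sqrt_le_sqrt h; linarith)
  · exact lintegral_mono_set (Set.Ioi_subset_Ioi (max_le_max h le_rfl))

lemma hu3_anti2 (p : (ℝ → ℝ≥0∞) × (ℝ → ℝ≥0∞)) : Antitone (hu3_Phi p).2 := by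
  intro s t h
  refine mul_le_mul' ?_ ?_
  · exact ENNReal.inv_le_inv.2 (ENNReal.ofReal_le_ofReal (Real.sqrt_le_sqrt (max_le_max h le_rfl)))
  · exact lintegral_mono_set (Set.Ioi_subset_Ioi (max_le_max h le_rfl))

lemma hu3_lint_f (s : ℝ) (hs : 1 ≤ s) :
    ∫⁻ t in Set.Ioi s, ENNReal.ofReal (100 * hf (t - 1)) * ENNReal.ofReal (1 / (2 * √t)) =
    ENNReal.ofReal (100 * ∫ t in Set.Ioi s, hf (t - 1) * (1 / (2 * √t))) := by
  rw [← integral_const_mul, ofReal_integral_eq_lintegral_ofReal]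
  · refine lintegral_congr fun t => ?_
    rw [← ENNReal.ofReal_mul (mul_nonneg (by norm_num) (hf_pos _).le), mul_assoc]
  · exact (hf_int s hs).const_mul _
  · exact Filter.Eventually.of_forall fun t => by
      have := (hf_pos (t - 1)).le
      positivity

lemma hu3_lint_F (s : ℝ) (hs : 1 ≤ s) :
    ∫⁻ t in Set.Ioi s, ENNReal.ofReal (100 * hF (t - 1)) * ENNReal.ofReal (1 / (2 * √t)) =
    ENNReal.ofReal (100 * ∫ t in Set.Ioi s, hF (t - 1) * (1 / (2 * √t))) := by
  rw [← integral_const_mul, ofReal_integral_eq_lintegral_ofReal]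
  · refine setLIntegral_congr_fun measurableSet_Ioi fun t ht => ?_
    have ht' : 0 < t - 1 := by have : s < t := ht; linarith
    show ENNReal.ofReal (100 * hF (t - 1)) * ENNReal.ofReal (1 / (2 * √t)) = _
    rw [← ENNReal.ofReal_mul (mul_nonneg (by norm_num) (hF_pos _ ht').le), mul_assoc]
  · exact (hF_int s hs).const_mul _
  · refine (ae_restrict_iff' measurableSet_Ioi).2 (Filter.Eventually.of_forall fun t ht => ?_)
    have ht' : 0 < t - 1 := by have : s < t := ht; linarith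
    have := (hF_pos (t - 1) ht').le
    show 0 ≤ 100 * (hF (t - 1) * (1 / (2 * √t)))
    positivity

lemma hu3_sqrt_hF {s : ℝ} (h0 : 0 < s) (h2 : s ≤ 2) :
    √s * hF s = 4 / 5 * Real.exp (-2) * √2 := by
  unfold hF
  rw [max_eq_right h2, min_eq_left h2]
  have : √(2 / s) = √2 / √s := Real.sqrt_div (by norm_num) s
  rw [this]
  have hs : √s ≠ 0 := (Real.sqrt_pos.2 h0).ne'
  field_simp

lemma hu3_small : √2 ≤ 10 * (4 / 5 * Real.exp (-2) * √2) := by
  have h5 := Real.exp_one_lt_d9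
  have h6 : Real.exp 2 = Real.exp 1 ^ 2 := by
    rw [← Real.exp_nat_mul]; norm_num
  have h7 : Real.exp 2 ≤ 8 := by
    rw [h6]
    calc Real.exp 1 ^ 2 ≤ 2.72 ^ 2 := pow_le_pow_left₀ (Real.exp_pos _).le (by linarith) 2
      _ ≤ 8 := by norm_num
  have h8 : 1 / 8 ≤ Real.exp (-2) := by
    rw [Real.exp_neg, one_div]
    exact inv_anti₀ (Real.exp_pos _) h7
  have h9 : 0 ≤ √2 := Real.sqrt_nonneg _
  nlinarith

/-- The pre-fixed point. -/
def hu3_Q : (ℝ → ℝ≥0∞) × (ℝ → ℝ≥0∞) :=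
  (fun s => if 0 < s then ENNReal.ofReal (100 * hF s) else ∞,
    fun s => ENNReal.ofReal (100 * hf (max s 1)))

lemma hu3_pre : hu3_Phi hu3_Q ≤ hu3_Q := by
  refine ⟨fun s => ?_, fun s => ?_⟩
  · show (ENNReal.ofReal (√s))⁻¹ * (ENNReal.ofReal (√2 - √s) +
      ∫⁻ t in Set.Ioi (max s 2), ENNReal.ofReal (100 * hf (max (t - 1) 1)) *
        ENNReal.ofReal (1 / (2 * √t))) ≤ if 0 < s then ENNReal.ofReal (100 * hF s) else ∞
    split_ifs with h0
    swap
    · exact le_top
    have hc : ∫⁻ t in Set.Ioi (max s 2), ENNReal.ofReal (100 * hf (max (t - 1) 1)) *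
        ENNReal.ofReal (1 / (2 * √t)) = ∫⁻ t in Set.Ioi (max s 2),
        ENNReal.ofReal (100 * hf (t - 1)) * ENNReal.ofReal (1 / (2 * √t)) := by
      refine setLIntegral_congr_fun measurableSet_Ioi fun t ht => ?_
      have ht' : max s 2 < t := ht
      have h2 : (2 : ℝ) ≤ max s 2 := le_max_right _ _
      show ENNReal.ofReal (100 * hf (max (t - 1) 1)) * _ = _
      rw [max_eq_left (by linarith : (1 : ℝ) ≤ t - 1)]
    rw [hc, hu3_lint_f _ (le_trans (by norm_num) (le_max_right s 2))]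
    have hsq : 0 < √s := Real.sqrt_pos.2 h0
    have hI : 0 ≤ ∫ t in Set.Ioi (max s 2), hf (t - 1) * (1 / (2 * √t)) :=
      integral_nonneg fun t => by
        have := (hf_pos (t - 1)).le
        show 0 ≤ hf (t - 1) * (1 / (2 * √t))
        positivity
    have e3 : ENNReal.ofReal (√2 - √s) = ENNReal.ofReal (max (√2 - √s) 0) := by
      rw [ENNReal.ofReal_max, ENNReal.ofReal_zero, max_eq_left (zero_le)]
    rw [e3, ← ENNReal.ofReal_add (le_max_right _ _) (by positivity), mul_comm, ← div_eq_mul_inv,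
      ← ENNReal.ofReal_div_of_pos hsq]
    apply ENNReal.ofReal_le_ofReal
    rw [div_le_iff₀ hsq]
    rcases le_total 2 s with h2 | h2
    · rw [max_eq_left h2]
      have h1 := hf_super s h2
      have h3 : max (√2 - √s) 0 = 0 := max_eq_right (by
        have := Real.sqrt_le_sqrt h2; linarith)
      rw [h3]
      have h4 : 0 ≤ √s * hF s := mul_nonneg hsq.le (hF_pos s h0).le
      nlinarith
    · rw [max_eq_right h2]
      have h1 := hf_super 2 le_rfl
      rw [hu3_sqrt_hF (by norm_num) le_rfl] at h1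
      have h3 : max (√2 - √s) 0 ≤ √2 := max_le (by linarith) (Real.sqrt_nonneg _)
      have h4 := hu3_sqrt_hF h0 h2
      have h5 := hu3_small
      nlinarith
  · show (ENNReal.ofReal (√(max s 1)))⁻¹ *
      ∫⁻ t in Set.Ioi (max s 1), (if 0 < t - 1 then ENNReal.ofReal (100 * hF (t - 1)) else ∞) *
        ENNReal.ofReal (1 / (2 * √t)) ≤ ENNReal.ofReal (100 * hf (max s 1))
    have hs1 : (1 : ℝ) ≤ max s 1 := le_max_right _ _
    have hc : ∫⁻ t in Set.Ioi (max s 1), (if 0 < t - 1 then ENNReal.ofReal (100 * hF (t - 1))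
        else ∞) * ENNReal.ofReal (1 / (2 * √t)) = ∫⁻ t in Set.Ioi (max s 1),
        ENNReal.ofReal (100 * hF (t - 1)) * ENNReal.ofReal (1 / (2 * √t)) := by
      refine setLIntegral_congr_fun measurableSet_Ioi fun t ht => ?_
      have ht' : max s 1 < t := ht
      show (if 0 < t - 1 then ENNReal.ofReal (100 * hF (t - 1)) else ∞) * _ = _
      rw [if_pos (by linarith)]
    rw [hc, hu3_lint_F _ hs1]
    have hs0 : (0 : ℝ) < √(max s 1) := Real.sqrt_pos.2 (by linarith)
    rw [mul_comm, ← div_eq_mul_inv, ← ENNReal.ofReal_div_of_pos hs0]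
    apply ENNReal.ofReal_le_ofReal
    rw [div_le_iff₀ hs0]
    have h1 := hF_super (max s 1) hs1
    have h3 : 0 ≤ √(max s 1) * hf (max s 1) := mul_nonneg hs0.le (hf_pos _).le
    nlinarith

/-- **Existence** (compare `Pool.Agent.W_b58c63_h68.JEx`, `exists_uw`).

Proof. Least fixed point in `ℝ≥0∞`-valued functions of the monotone operator
`(p₁, p₂) ↦ ((ofReal √s)⁻¹ (ofReal (√2 - √s) + ∫_{max s 2}^∞ p₂(t - 1) ofReal (1 / (2 √t))),
(ofReal √s')⁻¹ ∫_{s'}^∞ p₁(t - 1) ofReal (1 / (2 √t)))` with `s' = max s 1`. `(100 hF, 100 hf (max s 1))` is a pre-fixed point on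
`s > 0` (put `∞` for the first component at `s ≤ 0`): `hF_super`, `hf_super`, and
`√2 ≤ 100 * (1 / 10) * (4 / 5) exp (-2) √2 = 1.53` for `s < 2`; for `s ≥ 2` the inhomogeneous term vanishes. -/
theorem exists_uwh : ∃ (u w : ℝ → ℝ) (C : ℝ), UWH u w C := by
  set P := OrderHom.lfp hu3_Phi with hPdef
  have hP : hu3_Phi P = P := OrderHom.map_lfp hu3_Phi
  have hle : P ≤ hu3_Q := OrderHom.lfp_le hu3_Phi hu3_pre
  have hle1 : ∀ s, 0 < s → P.1 s ≤ ENNReal.ofReal (100 * hF s) := fun s hs => by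
    have := hle.1 s
    simp only [hu3_Q, if_pos hs] at this
    exact this
  have hle2 : ∀ s, P.2 s ≤ ENNReal.ofReal (100 * hf (max s 1)) := fun s => hle.2 s
  have hf1 : ∀ s, 0 < s → P.1 s ≠ ∞ := fun s hs =>
    ne_top_of_le_ne_top ENNReal.ofReal_ne_top (hle1 s hs)
  have hf2 : ∀ s, P.2 s ≠ ∞ := fun s => ne_top_of_le_ne_top ENNReal.ofReal_ne_top (hle2 s)
  have ha1 : Antitone P.1 := by rw [← hP]; exact hu3_anti1 P
  have ha2 : Antitone P.2 := by rw [← hP]; exact hu3_anti2 P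
  have hms : Measurable fun t : ℝ => ENNReal.ofReal (1 / (2 * √t)) := by fun_prop
  have hm1 : Measurable fun t : ℝ => P.1 (t - 1) * ENNReal.ofReal (1 / (2 * √t)) :=
    (ha1.measurable.comp (measurable_id.sub_const 1)).mul hms
  have hm2 : Measurable fun t : ℝ => P.2 (t - 1) * ENNReal.ofReal (1 / (2 * √t)) :=
    (ha2.measurable.comp (measurable_id.sub_const 1)).mul hms
  have e1 : ∀ s, P.1 s = (ENNReal.ofReal (√s))⁻¹ *
      (ENNReal.ofReal (√2 - √s) +
        ∫⁻ t in Set.Ioi (max s 2), P.2 (t - 1) * ENNReal.ofReal (1 / (2 * √t))) := fun s =>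
    (congrFun (congrArg Prod.fst hP) s).symm
  have e2 : ∀ s, P.2 s = (ENNReal.ofReal (√(max s 1)))⁻¹ *
      ∫⁻ t in Set.Ioi (max s 1), P.1 (t - 1) * ENNReal.ofReal (1 / (2 * √t)) :=
    fun s => (congrFun (congrArg Prod.snd hP) s).symm
  refine ⟨fun s => (P.1 s).toReal, fun s => (P.2 s).toReal, 100, ?_⟩
  refine
    { C_pos := by norm_num
      u_meas := ha1.measurable.ennreal_toReal
      u_anti := fun s hs t _ h => ENNReal.toReal_mono (hf1 s hs) (ha1 h)
      w_anti := fun s t h => ENNReal.toReal_mono (hf2 s) (ha2 h)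
      u_nonneg := fun s => ENNReal.toReal_nonneg
      w_nonneg := fun s => ENNReal.toReal_nonneg
      u_le := fun s hs => ENNReal.toReal_le_of_le_ofReal
        (mul_nonneg (by norm_num) (hF_pos s hs).le) (hle1 s hs)
      w_le := fun s hs => ENNReal.toReal_le_of_le_ofReal
        (mul_nonneg (by norm_num) (hf_pos s).le) (by
          have := hle2 s
          rwa [max_eq_left hs] at this)
      w_eq := ?_
      u_eq := ?_ }
  · intro s hs
    have h1 := e2 s
    rw [max_eq_left hs] at h1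
    have hsq : 0 < √s := Real.sqrt_pos.2 (by linarith)
    have hs0 : ENNReal.ofReal (√s) ≠ 0 := by
      rw [Ne, ENNReal.ofReal_eq_zero, not_le]; exact hsq
    have h2 : ENNReal.ofReal (√s) * P.2 s =
        ∫⁻ t in Set.Ioi s, P.1 (t - 1) * ENNReal.ofReal (1 / (2 * √t)) := by
      rw [h1, ← mul_assoc, ENNReal.mul_inv_cancel hs0 ENNReal.ofReal_ne_top, one_mul]
    have h3 := congrArg ENNReal.toReal h2
    rw [ENNReal.toReal_mul, ENNReal.toReal_ofReal hsq.le] at h3
    show √s * (P.2 s).toReal = ∫ t in Set.Ioi s, (P.1 (t - 1)).toReal * (1 / (2 * √t))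
    rw [h3, ← integral_toReal hm1.aemeasurable]
    · refine setIntegral_congr_fun measurableSet_Ioi fun t ht => ?_
      show (P.1 (t - 1) * ENNReal.ofReal (1 / (2 * √t))).toReal = _
      rw [ENNReal.toReal_mul, ENNReal.toReal_ofReal (by positivity)]
    · refine (ae_restrict_iff' measurableSet_Ioi).2 (Filter.Eventually.of_forall fun t ht => ?_)
      have ht' : s < t := ht
      exact ENNReal.mul_lt_top (hf1 (t - 1) (by linarith)).lt_top ENNReal.ofReal_lt_top
  · intro s hs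
    have h1 := e1 s
    have hsq : 0 < √s := Real.sqrt_pos.2 hs
    have hs0 : ENNReal.ofReal (√s) ≠ 0 := by
      rw [Ne, ENNReal.ofReal_eq_zero, not_le]; exact hsq
    have h2 : ENNReal.ofReal (√s) * P.1 s = ENNReal.ofReal (√2 - √s) +
        ∫⁻ t in Set.Ioi (max s 2), P.2 (t - 1) * ENNReal.ofReal (1 / (2 * √t)) := by
      rw [h1, ← mul_assoc, ENNReal.mul_inv_cancel hs0 ENNReal.ofReal_ne_top, one_mul]
    have hfin : ENNReal.ofReal (√s) * P.1 s ≠ ∞ :=
      ENNReal.mul_ne_top ENNReal.ofReal_ne_top (hf1 s hs)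
    have hfin2 : ∫⁻ t in Set.Ioi (max s 2), P.2 (t - 1) * ENNReal.ofReal (1 / (2 * √t)) ≠ ∞ := by
      rw [h2] at hfin
      exact (ENNReal.add_ne_top.1 hfin).2
    have h3 := congrArg ENNReal.toReal h2
    rw [ENNReal.toReal_mul, ENNReal.toReal_ofReal hsq.le,
      ENNReal.toReal_add ENNReal.ofReal_ne_top hfin2, ENNReal.toReal_ofReal'] at h3
    show √s * (P.1 s).toReal = max (√2 - √s) 0 +
      ∫ t in Set.Ioi (max s 2), (P.2 (t - 1)).toReal * (1 / (2 * √t))
    rw [h3, ← integral_toReal hm2.aemeasurable]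
    · congr 1
      refine setIntegral_congr_fun measurableSet_Ioi fun t ht => ?_
      show (P.2 (t - 1) * ENNReal.ofReal (1 / (2 * √t))).toReal = _
      rw [ENNReal.toReal_mul, ENNReal.toReal_ofReal (by positivity)]
    · refine Filter.Eventually.of_forall fun t => ?_
      exact ENNReal.mul_lt_top (hf2 (t - 1)).lt_top ENNReal.ofReal_lt_top

end Pool.Agent.Wd33b62
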