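import Pool.Agent.W_d33b62_h36.HU5

/-!
# The functions of the half-dimensional sieve (helper36, MP_d33b62_nt)

`u = F - 1`, `w = 1 - f` in the usual notation (dimension `1 / 2`, sieving limit `1`).
-/

set_option autoImplicit false

noncomputable section

open MeasureTheory

namespace Pool.Agent.Wd33b62

variable {u w : ℝ → ℝ} {C : ℝ}

private theorem HU6_deriv {s : ℝ} (hs : 1 < s) :
    HasDerivAt (fun s : ℝ => Real.log (√s + √(s - 1))) (1 / (2 * √s * √(s - 1))) s := by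
  have h0 : 0 < √s := Real.sqrt_pos.2 (by linarith)
  have h1 : 0 < √(s - 1) := Real.sqrt_pos.2 (by linarith)
  have h2 : HasDerivAt (fun s : ℝ => √s) (1 / (2 * √s)) s := Real.hasDerivAt_sqrt (by linarith)
  have h3 : HasDerivAt (fun s : ℝ => √(s - 1)) (1 / (2 * √(s - 1))) s :=
    ((hasDerivAt_id s).sub_const 1).sqrt (by simp only [id]; linarith)
  have h4 := (h2.add h3).log (by simp only [Pi.add_apply]; positivity)
  refine h4.congr_deriv ?_
  simp only [Pi.add_apply]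
  field_simp
  ring

private theorem HU6_Phi {B A s : ℝ} (hs : 1 < s) :
    HasDerivAt (fun s : ℝ => 2 * B * √s - A * (2 * √s * Real.log (√s + √(s - 1)) - 2 * √(s - 1)))
      ((B - A * Real.log (√s + √(s - 1))) / √s) s := by
  have h0 : 0 < √s := Real.sqrt_pos.2 (by linarith)
  have h1 : 0 < √(s - 1) := Real.sqrt_pos.2 (by linarith)
  have h2 : HasDerivAt (fun s : ℝ => √s) (1 / (2 * √s)) s := Real.hasDerivAt_sqrt (by linarith)
  have h3 : HasDerivAt (fun s : ℝ => √(s - 1)) (1 / (2 * √(s - 1))) s :=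
    ((hasDerivAt_id s).sub_const 1).sqrt (by simp only [id]; linarith)
  have h4 := HU6_deriv hs
  have h5 := (h2.const_mul (2 * B)).sub
    ((((h2.const_mul 2).mul h4).sub (h3.const_mul 2)).const_mul A)
  refine h5.congr_deriv ?_
  field_simp
  ring

private theorem HU6_cont : ContinuousOn (fun s : ℝ => Real.log (√s + √(s - 1))) (Set.Icc 1 2) := by
  refine ContinuousOn.log ?_ ?_
  · exact (Real.continuous_sqrt.add (Real.continuous_sqrt.comp (continuous_sub_right 1))).continuousOn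
  · intro s hs
    have h0 : 0 < √s := Real.sqrt_pos.2 (by linarith [hs.1])
    have h1 : 0 ≤ √(s - 1) := Real.sqrt_nonneg _
    exact (by linarith : (0 : ℝ) < √s + √(s - 1)).ne'

private theorem HU6_integral (B A : ℝ) :
    ∫ s in (1 : ℝ)..2, (B - A * Real.log (√s + √(s - 1))) / √s =
      B * (2 * √2 - 2) - A * (2 * √2 * Real.log (√2 + √(2 - 1)) - 2) := by
  have hc : ContinuousOn (fun s : ℝ => √s) (Set.Icc 1 2) := Real.continuous_sqrt.continuousOn
  have hc1 : ContinuousOn (fun s : ℝ => √(s - 1)) (Set.Icc 1 2) :=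
    (Real.continuous_sqrt.comp (continuous_sub_right 1)).continuousOn
  have h1 := intervalIntegral.integral_eq_sub_of_hasDerivAt_of_le (a := (1 : ℝ)) (b := 2)
    (f := fun s : ℝ => 2 * B * √s - A * (2 * √s * Real.log (√s + √(s - 1)) - 2 * √(s - 1)))
    (f' := fun s : ℝ => (B - A * Real.log (√s + √(s - 1))) / √s) (by norm_num)
    ((hc.const_smul (2 * B)).sub ((((hc.const_smul (2 : ℝ)).mul HU6_cont).sub
      (hc1.const_smul (2 : ℝ))).const_smul A))
    (fun s hs => HU6_Phi hs.1) ?_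
  · rw [h1]
    have h2 : √((1 : ℝ) - 1) = 0 := by rw [sub_self, Real.sqrt_zero]
    have h3 : √((2 : ℝ) - 1) = 1 := by norm_num
    rw [h2, Real.sqrt_one, add_zero, Real.log_one, h3]
    ring
  · refine ContinuousOn.intervalIntegrable ?_
    rw [Set.uIcc_of_le (by norm_num : (1 : ℝ) ≤ 2)]
    refine ContinuousOn.div (continuousOn_const.sub (HU6_cont.const_smul A)) hc (fun s hs => ?_)
    exact (Real.sqrt_pos.2 (by linarith [hs.1])).ne'

private theorem HU6_log {s : ℝ} (hs : 1 ≤ s) : √(s - 1) / √s ≤ Real.log (√s + √(s - 1)) := by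
  set a := √s with ha
  set b := √(s - 1) with hb
  have h0 : 0 < a := Real.sqrt_pos.2 (by linarith)
  have h1 : 0 ≤ b := Real.sqrt_nonneg _
  have h2 : a ^ 2 = s := Real.sq_sqrt (by linarith)
  have h3 : b ^ 2 = s - 1 := Real.sq_sqrt (by linarith)
  have h4 : b < a := by
    by_contra h
    have : a ≤ b := not_lt.1 h
    nlinarith
  have h5 : 0 ≤ b / a := div_nonneg h1 h0.le
  have h6 : b / a < 1 := (div_lt_one h0).2 h4
  have h7 := Real.hasSum_log_sub_log_of_abs_lt_one (x := b / a) (by rw [abs_of_nonneg h5]; exact h6)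
  have h8 := le_hasSum h7 0 (fun k _ => by positivity)
  have h9 : Real.log (1 + b / a) - Real.log (1 - b / a) = 2 * Real.log (a + b) := by
    have e1 : 1 + b / a = (a + b) / a := by field_simp
    have e2 : 1 - b / a = (a - b) / a := by field_simp
    have e3 : a - b = (a + b)⁻¹ := by
      refine eq_inv_of_mul_eq_one_left ?_
      nlinarith
    rw [e1, e2, Real.log_div (by positivity) h0.ne', e3, Real.log_div (by positivity) h0.ne',
      Real.log_inv]
    ring
  rw [h9] at h8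
  simp only [Nat.cast_zero, mul_zero, zero_add, div_one, mul_one, pow_one] at h8
  linarith

/-- **`f (1) = 0`.**

Proof. `A = √2 (1 + u 2)`, `ℓ(s) = log (√s + √(s - 1))`. On `[1, 2]`: `u s = A / √s - 1` (`F_eq`), `w s` by `w_formula`, so
`u s + w s = (A + w 1 - 1 - A ℓ(s)) / √s`. `∫_1^2 ds / √s = 2 √2 - 2`,
`∫_1^2 ℓ(s) / √s ds = 2 √2 ℓ(2) - ∫_1^2 ds / √(s - 1) = 2 √2 ℓ(2) - 2` (integration by parts). `adjoint`:
`(A + w 1 - 1) (2 √2 - 2) - A (2 √2 ℓ(2) - 2) = 2 √2 (A + w 1 - 1 - A ℓ(2))`, hence `w 1 = 1`. -/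
theorem UWH.w_one (h : UWH u w C) : w 1 = 1 := by
  have h1 : ∀ s : ℝ, 1 ≤ s → s ≤ 2 → u s + w s =
      ((√2 * (1 + u 2) + w 1 - 1) - √2 * (1 + u 2) * Real.log (√s + √(s - 1))) / √s := by
    intro s hs1 hs2
    have h0 : 0 < √s := Real.sqrt_pos.2 (by linarith)
    have e1 := h.F_eq s (by linarith) hs2
    have e2 := h.w_formula s hs1 hs2
    rw [eq_div_iff h0.ne']
    linear_combination e1 + e2
  have h2 := h.adjoint
  have h3 : ∫ s in (1 : ℝ)..2, (u s + w s) = ∫ s in (1 : ℝ)..2,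
      ((√2 * (1 + u 2) + w 1 - 1) - √2 * (1 + u 2) * Real.log (√s + √(s - 1))) / √s := by
    refine intervalIntegral.integral_congr (fun s hs => ?_)
    rw [Set.uIcc_of_le (by norm_num : (1 : ℝ) ≤ 2)] at hs
    exact h1 s hs.1 hs.2
  rw [h3, HU6_integral, h1 2 (by norm_num) le_rfl] at h2
  have h4 : √(2 : ℝ) * √2 = 2 := Real.mul_self_sqrt (by norm_num)
  have h5 : 0 < √(2 : ℝ) := Real.sqrt_pos.2 (by norm_num)
  have h6 : 4 * (((√2 * (1 + u 2) + w 1 - 1) - √2 * (1 + u 2) * Real.log (√2 + √(2 - 1))) / √2) =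
      2 * √2 * ((√2 * (1 + u 2) + w 1 - 1) - √2 * (1 + u 2) * Real.log (√2 + √(2 - 1))) := by
    field_simp
    rw [pow_two, h4]
    ring
  rw [h6] at h2
  linear_combination (-1 / 2 : ℝ) * h2

/-- **Positivity**: `√s (1 - w s) = A log (√s + √(s - 1)) ≥ √2 √(s - 1) / √s` for `1 ≤ s ≤ 2`
(`log (√s + √(s - 1)) = ∫_1^s dt / (2 √t √(t - 1)) ≥ √(s - 1) / √s`; or `log y ≥ ...`), `A ≥ √2`. -/
theorem UWH.w_lt (h : UWH u w C) (s : ℝ) (h1 : 1 ≤ s) (h2 : s ≤ 2) : √2 * √(s - 1) / s ≤ 1 - w s := by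
  have h0 : 0 < √s := Real.sqrt_pos.2 (by linarith)
  have e1 := h.w_formula s h1 h2
  rw [h.w_one] at e1
  have e2 : √s * (1 - w s) = √2 * (1 + u 2) * Real.log (√s + √(s - 1)) := by
    linear_combination -e1
  have e3 := HU6_log h1
  have e4 : 0 ≤ √(s - 1) / √s := div_nonneg (Real.sqrt_nonneg _) h0.le
  have e5 : √2 * (√(s - 1) / √s) ≤ √2 * (1 + u 2) * Real.log (√s + √(s - 1)) := by
    have h5 : 0 ≤ √(2 : ℝ) := Real.sqrt_nonneg _
    have h6 := h.u_nonneg 2
    have h7 : √2 * (√(s - 1) / √s) ≤ √2 * Real.log (√s + √(s - 1)) :=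
      mul_le_mul_of_nonneg_left e3 h5
    have h8 : 0 ≤ √2 * u 2 * Real.log (√s + √(s - 1)) :=
      mul_nonneg (mul_nonneg h5 h6) (le_trans e4 e3)
    nlinarith
  have e6 : √2 * √(s - 1) / s = √2 * (√(s - 1) / √s) / √s := by
    have h5 : √s * √s = s := Real.mul_self_sqrt (by linarith)
    rw [← mul_div_assoc, div_div, h5]
  rw [e6, div_le_iff₀ h0]
  linarith

end Pool.Agent.Wd33b62
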