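import Pool.Agent.W_d33b62_h36.HS1
import Pool.Agent.W_d33b62_h36.HS3
import Pool.Agent.W_d33b62_h36.HS4
import Pool.Agent.W_d33b62_h36.HU3
import Pool.Agent.W_d33b62_h36.HU6

/-!
# The half-dimensional sieve: the induction (helper36, MP_d33b62_nt)

Compare `Pool.Agent.W_b58c63_h68.JStA`, `JStB`, `JMain`.
-/

set_option autoImplicit false

noncomputable section

open Finset MeasureTheory

namespace Pool.Agent.Wd33b62

open Pool.Agent.Wb58c63 (VP below VP_expand JLam_expand VP_pos)

variable {u w : ℝ → ℝ} {C : ℝ}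

/-- the two definitions of the set of the elements below `p` agree -/
theorem HS5_below (P : Finset ℕ) (p : ℕ) : (P.filter fun q => q < p) = below P (p : ℝ) := by
  classical
  unfold below
  exact Finset.filter_congr fun q _ => Nat.cast_lt.symm

/-- arithmetic of `D / p` -/
theorem HS5_div {p : ℕ} {D : ℝ} (hp : 2 ≤ (p : ℝ)) (hD1 : 1 < D) (k : ℝ) (hk0 : 0 < k)
    (hk : (k + 1) * Real.log p ≤ Real.log D) :
    1 < D / p ∧ k ≤ Real.log (D / p) / Real.log p ∧
      Real.log (D / p) / Real.log p = Real.log D / Real.log p - 1 := by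
  have hp0 : (0 : ℝ) < p := by linarith
  have hlp : 0 < Real.log p := Real.log_pos (by linarith)
  have hD0 : 0 < D := by linarith
  have hlog : Real.log (D / p) = Real.log D - Real.log p := Real.log_div hD0.ne' hp0.ne'
  have h0 : 0 < k * Real.log p := mul_pos hk0 hlp
  have h1 : 0 < Real.log (D / p) := by
    rw [hlog]
    nlinarith
  refine ⟨?_, ?_, ?_⟩
  · by_contra hcon
    push Not at hcon
    have h2 := Real.log_nonpos (div_pos hD0 hp0).le hcon
    linarith
  · rw [le_div_iff₀ hlp, hlog]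
    linarith
  · rw [hlog, sub_div, div_self hlp.ne']

/-- **Main theorem on the main terms.** Strong induction on the cardinality of `P`, for all `z`, `D` (compare
`Wb58c63.J_main`). For the lower bound `log D / log p - 1 > θ > 0` for `p ∈ P`, `D / p > 1`; for the upper bound with
`s ≥ 2 + θ`: `log D / log p - 1 ≥ 1 + θ`; for `s < 2 + θ` and `p ^ (2 + θ) < D` the same. -/
theorem H_main (h : UWH u w C) (θ e K : ℝ) (hθ : 0 < θ) (hθ1 : θ ≤ 1 / 100) (he : 0 < e) (he1 : e ≤ 1)
    (hθ2 : 200 * θ ≤ e) (hK1 : 1 ≤ K) (hK : 50 * (K - 1) * (C + 1) ≤ e * √θ)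
    (g : ℕ → ℝ) (u₀ : ℝ) (hu : 2 ≤ u₀) (P : Finset ℕ)
    (hg : ∀ p ∈ P, 0 ≤ g p ∧ g p < 1) (hR : RegH g P K u₀) :
    ∀ z D : ℝ, u₀ ≤ z → 1 < D → (∀ p ∈ P, u₀ ≤ (p : ℝ) ∧ (p : ℝ) < z) →
      (1 + θ ≤ Real.log D / Real.log z →
        VP g P * (1 - w (Real.log D / Real.log z) - e * hf (Real.log D / Real.log z)) ≤ GGh g θ false D P) ∧
      GGh g θ true D P ≤ VP g P * (1 + u (Real.log D / Real.log z) + e * hF (Real.log D / Real.log z)) := by
  have hu1 : 1 < u₀ := by linarith
  revert hg hR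
  induction P using Finset.strongInduction with
  | H P ih =>
    intro hg hR z D hz hD1 hP
    have key : ∀ p ∈ P, ∀ k : ℝ, 0 < k → (k + 1) * Real.log p ≤ Real.log D →
        (1 + θ ≤ k → VP g (P.filter fun q => q < p) *
          (1 - w (Real.log D / Real.log p - 1) - e * hf (Real.log D / Real.log p - 1)) ≤
            GGh g θ false (D / p) (P.filter fun q => q < p)) ∧
        GGh g θ true (D / p) (P.filter fun q => q < p) ≤ VP g (P.filter fun q => q < p) *
          (1 + u (Real.log D / Real.log p - 1) + e * hF (Real.log D / Real.log p - 1)) := by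
      intro p hp k hk0 hk
      have hp2 : 2 ≤ (p : ℝ) := le_trans hu (hP p hp).1
      obtain ⟨h1, h2, h3⟩ := HS5_div hp2 hD1 k hk0 hk
      have hss : (P.filter fun q => q < p) ⊂ P :=
        Finset.filter_ssubset.2 ⟨p, hp, lt_irrefl p⟩
      have hR' : RegH g (P.filter fun q => q < p) K u₀ := by
        rw [HS5_below]
        exact hR.sub hu1 hK1 hg (p : ℝ) (hP p hp).1
      have h4 := ih _ hss (fun q hq => hg q (Finset.mem_filter.1 hq).1) hR' (p : ℝ) (D / p)
        (hP p hp).1 h1 (fun q hq => ⟨(hP q (Finset.mem_filter.1 hq).1).1,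
          Nat.cast_lt.2 (Finset.mem_filter.1 hq).2⟩)
      rw [h3] at h4 h2
      exact ⟨fun hk2 => h4.1 (le_trans hk2 h2), h4.2⟩
    have hz1 : 1 < z := by linarith
    have hlz : 0 < Real.log z := Real.log_pos hz1
    have hlD : 0 < Real.log D := Real.log_pos hD1
    have hlog : ∀ p ∈ P, Real.log p ≤ Real.log z := fun p hp =>
      Real.log_le_log (by linarith [(hP p hp).1]) (hP p hp).2.le
    have htrue : ∀ p ∈ P, (2 + θ) * Real.log p ≤ Real.log D → VP g (P.filter fun q => q < p) *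
        (1 - w (Real.log D / Real.log p - 1) - e * hf (Real.log D / Real.log p - 1)) ≤
          GGh g θ false (D / p) (P.filter fun q => q < p) := fun p hp h3 =>
      (key p hp (1 + θ) (by linarith) (by linarith)).1 le_rfl
    refine ⟨fun hD => ?_, ?_⟩
    · refine H_false_step h θ e K hθ hθ1 he he1 hK1 hK g P u₀ z D hu hz hg hP hR hD fun p hp => ?_
      refine (key p hp θ hθ ?_).2
      rw [le_div_iff₀ hlz] at hD
      have := hlog p hp
      nlinarith
    · rcases le_or_gt (2 + θ) (Real.log D / Real.log z) with h3 | h3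
      · refine (H_true_mid h θ e K hθ hθ1 he he1 hK1 g P u₀ z D hu hz hD1 hg hP hR h3 fun p hp => ?_).trans ?_
        · refine htrue p hp ?_
          rw [le_div_iff₀ hlz] at h3
          have := hlog p hp
          nlinarith
        · exact mul_le_mul_of_nonneg_left (H_true_const_big h θ e K hθ hθ1 he he1 hK1 hK _ h3)
            (VP_pos hg).le
      · refine (H_true_small h θ e K hθ hθ1 he he1 hK1 g P u₀ z D hu hz hD1 hg hP hR h3
          fun p hp hp3 => htrue p hp ?_).trans ?_
        · have hp0 : (0 : ℝ) < p := by linarith [(hP p hp).1]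
          have h4 : Real.log ((p : ℝ) ^ (2 + θ)) ≤ Real.log D :=
            Real.log_le_log (Real.rpow_pos_of_pos hp0 _) hp3.le
          rwa [Real.log_rpow hp0] at h4
        · exact mul_le_mul_of_nonneg_left (H_true_const h θ e K hθ hθ1 he he1 hθ2 hK1 hK _
            (div_pos hlD hlz) h3.le) (VP_pos hg).le

/-- **The lower bound near the sieving limit.** `exists_uwh`; `e = √η / 4`, `θ = min (η / 100) (e / 200)` (so `θ ≤ 1 / 100`),
`K = 1 + e √θ / (50 (C + 1))`; `H_main` with `s = 1 + η`: `1 - w (1 + η) - e hf (1 + η) ≥ √2 √η / (1 + η) - √η / 4 ≥ √η / 2`. -/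
theorem half_sieve (η : ℝ) (hη : 0 < η) (hη1 : η ≤ 1 / 10) :
    ∃ θ K : ℝ, 0 < θ ∧ θ ≤ η ∧ 1 < K ∧ ∀ (g : ℕ → ℝ) (P : Finset ℕ) (u₀ z D : ℝ), 2 ≤ u₀ → u₀ ≤ z →
      (∀ p ∈ P, 0 ≤ g p ∧ g p < 1) → (∀ p ∈ P, u₀ ≤ (p : ℝ) ∧ (p : ℝ) < z) → RegH g P K u₀ →
      Real.log D = (1 + η) * Real.log z → 1 < D → √η / 2 * VP g P ≤ GGh g θ false D P := by
  obtain ⟨u, w, C, h⟩ := exists_uwh
  have hC := h.C_pos
  have hsη : 0 < √η := Real.sqrt_pos.2 hη
  have hsη2 : √η * √η = η := Real.mul_self_sqrt hη.le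
  have hsη1 : √η ≤ 1 := by
    refine Real.sqrt_le_one.2 ?_
    linarith
  have he : 0 < √η / 4 := by positivity
  have hθ : 0 < min (η / 100) (√η / 4 / 200) := lt_min (by positivity) (by positivity)
  set θ := min (η / 100) (√η / 4 / 200) with hθdef
  have hθa : θ ≤ η / 100 := min_le_left _ _
  have hθb : θ ≤ √η / 4 / 200 := min_le_right _ _
  have hsθ : 0 < √θ := Real.sqrt_pos.2 hθ
  have hK0 : 0 < √η / 4 * √θ / (50 * (C + 1)) := by positivity
  refine ⟨θ, 1 + √η / 4 * √θ / (50 * (C + 1)), hθ, by linarith, by linarith, ?_⟩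
  intro g P u₀ z D hu hz hg hP hR hlog hD
  have hlz : 0 < Real.log z := Real.log_pos (by linarith)
  have hs : Real.log D / Real.log z = 1 + η := by
    rw [hlog, mul_div_assoc, div_self hlz.ne', mul_one]
  have hK : 50 * (1 + √η / 4 * √θ / (50 * (C + 1)) - 1) * (C + 1) ≤ √η / 4 * √θ := by
    have : 50 * (1 + √η / 4 * √θ / (50 * (C + 1)) - 1) * (C + 1) = √η / 4 * √θ := by
      field_simp
      ring
    exact this.le
  have hmain := (H_main h θ (√η / 4) _ hθ (by linarith) he (by linarith) (by linarith) (by linarith)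
    hK g u₀ hu P hg hR z D hz hD hP).1 (by rw [hs]; linarith)
  rw [hs] at hmain
  refine le_trans ?_ hmain
  rw [mul_comm]
  refine mul_le_mul_of_nonneg_left ?_ (VP_pos hg).le
  have hw := h.w_lt (1 + η) (by linarith) (by linarith)
  rw [show 1 + η - 1 = η by ring] at hw
  have hf1 : hf (1 + η) ≤ 1 := by
    unfold hf
    exact Real.exp_le_one_iff.2 (by linarith)
  have h2 : (1.4 : ℝ) ≤ √2 := by
    refine Real.le_sqrt_of_sq_le ?_
    norm_num
  have h3 : √η ≤ √2 * √η / (1 + η) := by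
    rw [le_div_iff₀ (by linarith)]
    nlinarith
  nlinarith

end Pool.Agent.Wd33b62
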