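import Pool.Agent.W_d33b62_h36.MM2
import Pool.Agent.W_d33b62_h36.MM3

/-!
# Mertens estimates for the residue classes modulo 4 (helper36, MP_d33b62_nt)
-/

set_option autoImplicit false

noncomputable section

open Finset

namespace Pool.Agent.Wd33b62

open Pool.Agent.Wb58c63 (PI mem_PI VP below)

/-- the contribution of the prime `2` -/
private theorem MM4_two (u z : ℝ) (hu : 2 ≤ u) :
    0 ≤ ∑ p ∈ PI u z, (if p = 2 then (1 / 4 : ℝ) else 0) ∧
      ∑ p ∈ PI u z, (if p = 2 then (1 / 4 : ℝ) else 0) ≤ 1 / Real.log u := by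
  have hlog : 0 < Real.log u := Real.log_pos (by linarith)
  rw [Finset.sum_ite_eq']
  split_ifs with h
  · have h1 := (mem_PI.1 h).2.1
    have h2 : u = 2 := le_antisymm (by exact_mod_cast h1) hu
    refine ⟨by norm_num, ?_⟩
    rw [le_div_iff₀ hlog, h2]
    have h3 := Real.log_two_lt_d9
    linarith
  · exact ⟨le_rfl, by positivity⟩

private theorem MM4_mod {p : ℕ} (hp : p.Prime) : p = 2 ∨ p % 4 = 1 ∨ p % 4 = 3 := by
  rcases hp.eq_two_or_odd with h | h
  · exact Or.inl h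
  · right
    omega

private theorem MM4_inert {p : ℕ} (hp : p.Prime) : (if p % 4 = 3 then (1 : ℝ) / p else 0) =
    1 / 2 * (1 / p) - 1 / 2 * (ch4 p / p) - (if p = 2 then (1 / 4 : ℝ) else 0) := by
  unfold ch4
  rcases MM4_mod hp with h | h | h
  · subst h
    norm_num
  · have h2 : p ≠ 2 := by rintro rfl; norm_num at h
    rw [if_neg (by omega), if_pos h, if_neg h2]
    ring
  · have h2 : p ≠ 2 := by rintro rfl; norm_num at h
    rw [if_pos h, if_neg (by omega), if_pos h, if_neg h2]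
    ring

private theorem MM4_split {p : ℕ} (hp : p.Prime) : (if p % 4 = 1 then (1 : ℝ) / p else 0) =
    1 / 2 * (1 / p) + 1 / 2 * (ch4 p / p) - (if p = 2 then (1 / 4 : ℝ) else 0) := by
  unfold ch4
  rcases MM4_mod hp with h | h | h
  · subst h
    norm_num
  · have h2 : p ≠ 2 := by rintro rfl; norm_num at h
    rw [if_pos h, if_pos h, if_neg h2]
    ring
  · have h2 : p ≠ 2 := by rintro rfl; norm_num at h
    rw [if_neg (by omega), if_neg (by omega), if_pos h, if_neg h2]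
    ring

/-- `mertens_all` and `ch4_sum`: `[p % 4 = 3] = (1 - ch4 p) / 2` for odd primes. -/
theorem mertens_inert : ∃ C : ℝ, 0 < C ∧ ∀ u z : ℝ, 2 ≤ u → u ≤ z →
    |∑ p ∈ (PI u z).filter (fun p => p % 4 = 3), (1 : ℝ) / p - 1 / 2 * Real.log (Real.log z / Real.log u)| ≤
      C / Real.log u := by
  obtain ⟨C1, hC1, H1⟩ := mertens_all
  obtain ⟨C2, hC2, H2⟩ := ch4_sum
  refine ⟨C1 + C2 + 1, by positivity, fun u z hu huz => ?_⟩
  have h1 := H1 u z hu huz
  have h2 := H2 u z hu huz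
  obtain ⟨h3, h4⟩ := MM4_two u z hu
  have h5 : ∑ p ∈ (PI u z).filter (fun p => p % 4 = 3), (1 : ℝ) / p =
      1 / 2 * ∑ p ∈ PI u z, (1 : ℝ) / p - 1 / 2 * ∑ p ∈ PI u z, ch4 p / p -
        ∑ p ∈ PI u z, (if p = 2 then (1 / 4 : ℝ) else 0) := by
    rw [Finset.sum_filter, Finset.mul_sum, Finset.mul_sum, ← Finset.sum_sub_distrib,
      ← Finset.sum_sub_distrib]
    exact Finset.sum_congr rfl fun p hp => MM4_inert (mem_PI.1 hp).1
  have hlog : 0 < Real.log u := Real.log_pos (by linarith)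
  have h6 : (C1 + C2 + 1) / Real.log u = C1 / Real.log u + C2 / Real.log u + 1 / Real.log u := by
    ring
  rw [h5, h6]
  rw [abs_le] at h1 h2 ⊢
  constructor
  · linarith [h1.1, h1.2, h2.1, h2.2]
  · linarith [h1.1, h1.2, h2.1, h2.2]

theorem mertens_split : ∃ C : ℝ, 0 < C ∧ ∀ u z : ℝ, 2 ≤ u → u ≤ z →
    |∑ p ∈ (PI u z).filter (fun p => p % 4 = 1), (1 : ℝ) / p - 1 / 2 * Real.log (Real.log z / Real.log u)| ≤
      C / Real.log u := by
  obtain ⟨C1, hC1, H1⟩ := mertens_all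
  obtain ⟨C2, hC2, H2⟩ := ch4_sum
  refine ⟨C1 + C2 + 1, by positivity, fun u z hu huz => ?_⟩
  have h1 := H1 u z hu huz
  have h2 := H2 u z hu huz
  obtain ⟨h3, h4⟩ := MM4_two u z hu
  have h5 : ∑ p ∈ (PI u z).filter (fun p => p % 4 = 1), (1 : ℝ) / p =
      1 / 2 * ∑ p ∈ PI u z, (1 : ℝ) / p + 1 / 2 * ∑ p ∈ PI u z, ch4 p / p -
        ∑ p ∈ PI u z, (if p = 2 then (1 / 4 : ℝ) else 0) := by
    rw [Finset.sum_filter, Finset.mul_sum, Finset.mul_sum, ← Finset.sum_add_distrib,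
      ← Finset.sum_sub_distrib]
    exact Finset.sum_congr rfl fun p hp => MM4_split (mem_PI.1 hp).1
  have hlog : 0 < Real.log u := Real.log_pos (by linarith)
  have h6 : (C1 + C2 + 1) / Real.log u = C1 / Real.log u + C2 / Real.log u + 1 / Real.log u := by
    ring
  rw [h5, h6]
  rw [abs_le] at h1 h2 ⊢
  constructor
  · linarith [h1.1, h1.2, h2.1, h2.2]
  · linarith [h1.1, h1.2, h2.1, h2.2]

end Pool.Agent.Wd33b62
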