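import Pool.Agent.W_b58c63_h68.ArD
import Pool.Agent.W_d33b62_h36.HD0
import Pool.Agent.W_d33b62_h36.MM4

/-!
# Mertens estimates for the residue classes modulo 4 (helper36, MP_d33b62_nt)
-/

set_option autoImplicit false

noncomputable section

open Finset

namespace Pool.Agent.Wd33b62

open Pool.Agent.Wb58c63 (PI mem_PI VP below)

/-- **The regularity condition for the inert primes** and the density `1 / (p - K)`, for every set of primes `≡ 3 mod 4`
above a suitable bound (compare `Wb58c63.reg_primes`, `Wb58c63.prod_cond`): the missing primes only help, and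
`-log (1 - 1 / (p - K)) ≤ 1 / p + (K + 3) / (p - K) ^ 2` etc., `mertens_inert`. -/
theorem RegH_inert (K₁ : ℝ) (hK₁ : 1 < K₁) (K : ℕ) : ∃ u₀ : ℝ, 2 * K + 4 ≤ u₀ ∧ ∀ (u₁ : ℝ) (P : Finset ℕ), u₀ ≤ u₁ →
    (∀ p ∈ P, p.Prime ∧ p % 4 = 3 ∧ u₁ ≤ (p : ℝ)) → RegH (fun p => 1 / ((p : ℝ) - K)) P K₁ u₁ := by
  obtain ⟨C, hC, h⟩ := mertens_inert
  have hl : 0 < Real.log K₁ := Real.log_pos hK₁
  refine ⟨max (2 * K + 4) (Real.exp ((C + (8 * K + 32)) / Real.log K₁)), le_max_left _ _,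
    fun u₁ P hu₁ hP u z hu huz => ?_⟩
  have huK : 2 * (K : ℝ) + 4 ≤ u := ((le_max_left _ _).trans hu₁).trans hu
  have hue : Real.exp ((C + (8 * K + 32)) / Real.log K₁) ≤ u :=
    ((le_max_right _ _).trans hu₁).trans hu
  have hK0 : (0 : ℝ) ≤ K := Nat.cast_nonneg K
  have hu0 : 0 < u := by linarith
  have hlu : 0 < Real.log u := Real.log_pos (by linarith)
  have hlz : Real.log u ≤ Real.log z := Real.log_le_log hu0 huz
  have hlz0 : 0 < Real.log z := hlu.trans_le hlz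
  -- the values of `g`
  have hg : ∀ p : ℕ, 2 * (K : ℝ) + 4 ≤ p → 0 < (p : ℝ) - K ∧ 0 ≤ 1 / ((p : ℝ) - K) ∧
      1 / ((p : ℝ) - K) ≤ 1 / 2 := by
    intro p hp
    have h0 : 0 < (p : ℝ) - K := by linarith
    refine ⟨h0, by positivity, ?_⟩
    rw [div_le_div_iff₀ h0 (by norm_num)]
    linarith
  have hgP : ∀ p ∈ P, 2 * (K : ℝ) + 4 ≤ p := by
    intro p hp
    exact ((le_max_left _ _).trans hu₁).trans (hP p hp).2.2
  set g : ℕ → ℝ := fun p => 1 / ((p : ℝ) - K) with hgdef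
  set S : Finset ℕ := (PI u z).filter (fun p => p % 4 = 3) with hS
  have hSK : ∀ p ∈ S, 2 * (K : ℝ) + 4 ≤ p := by
    intro p hp
    exact huK.trans (mem_PI.1 (Finset.mem_filter.1 hp).1).2.1
  -- the product over `S`
  have hA : Real.exp (-(∑ p ∈ S, g p + 2 * ∑ p ∈ S, (g p) ^ 2)) ≤ ∏ p ∈ S, (1 - g p) := by
    rw [Finset.mul_sum, ← Finset.sum_add_distrib, ← Finset.sum_neg_distrib, Real.exp_sum]
    refine Finset.prod_le_prod (fun p _ => (Real.exp_pos _).le) fun p hp => ?_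
    obtain ⟨_, h1, h2⟩ := hg p (hSK p hp)
    exact Pool.Agent.Wb58c63.ArD_log _ h1 h2
  have hB : ∑ p ∈ S, g p + 2 * ∑ p ∈ S, (g p) ^ 2 ≤
      ∑ p ∈ S, (1 : ℝ) / p + (2 * K + 8) * ∑ p ∈ S, ((1 : ℝ) / ((p : ℝ) - 1)) ^ 2 := by
    rw [Finset.mul_sum, Finset.mul_sum, ← Finset.sum_add_distrib, ← Finset.sum_add_distrib]
    refine Finset.sum_le_sum fun p hp => ?_
    have hpK := hSK p hp
    obtain ⟨h0, _, _⟩ := hg p hpK
    have hp0 : (0 : ℝ) < p := by linarith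
    have hp1 : (0 : ℝ) < (p : ℝ) - 1 := by linarith
    have e1 : 1 / ((p : ℝ) - K) = 1 / p + K * (1 / (p * ((p : ℝ) - K))) := by
      field_simp
      ring
    have e2 : 1 / (p * ((p : ℝ) - K)) ≤ 2 * (1 / ((p : ℝ) - 1)) ^ 2 := by
      rw [div_pow, one_pow, mul_one_div, div_le_div_iff₀ (by positivity) (by positivity)]
      nlinarith
    have e3 : (1 / ((p : ℝ) - K)) ^ 2 ≤ 4 * (1 / ((p : ℝ) - 1)) ^ 2 := by
      rw [div_pow, div_pow, one_pow, mul_one_div, div_le_div_iff₀ (by positivity) (by positivity)]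
      nlinarith
    have e4 : (K : ℝ) * (1 / (p * ((p : ℝ) - K))) ≤ K * (2 * (1 / ((p : ℝ) - 1)) ^ 2) :=
      mul_le_mul_of_nonneg_left e2 hK0
    simp only [hgdef]
    rw [e1] at *
    linarith
  have hC2 : ∑ p ∈ S, ((1 : ℝ) / ((p : ℝ) - 1)) ^ 2 ≤ 4 / Real.log u := by
    refine le_trans ?_ (Pool.Agent.Wb58c63.ArD_sq u z (by linarith) huz)
    exact Finset.sum_le_sum_of_subset_of_nonneg (Finset.filter_subset _ _)
      fun p _ _ => sq_nonneg _
  have hM := (abs_le.1 (h u z (by linarith) huz)).2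
  have h3 : (C + (8 * K + 32)) / Real.log u ≤ Real.log K₁ := by
    have h4 : (C + (8 * K + 32)) / Real.log K₁ ≤ Real.log u := (Real.le_log_iff_exp_le hu0).2 hue
    rw [div_le_iff₀ hl] at h4
    rw [div_le_iff₀ hlu]
    linarith
  have hD : ∑ p ∈ S, g p + 2 * ∑ p ∈ S, (g p) ^ 2 ≤
      Real.log √(Real.log z / Real.log u) + Real.log K₁ := by
    rw [Real.log_sqrt (by positivity)]
    have h5 : (2 * (K : ℝ) + 8) * ∑ p ∈ S, ((1 : ℝ) / ((p : ℝ) - 1)) ^ 2 ≤
        (2 * K + 8) * (4 / Real.log u) := mul_le_mul_of_nonneg_left hC2 (by linarith)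
    have h6 : (C + (8 * K + 32)) / Real.log u = C / Real.log u + (2 * K + 8) * (4 / Real.log u) := by
      ring
    linarith
  have hE : (√(Real.log z) / √(Real.log u))⁻¹ * K₁⁻¹ ≤ ∏ p ∈ S, (1 - g p) := by
    refine le_trans (le_of_eq ?_) ((Real.exp_le_exp.2 (neg_le_neg hD)).trans hA)
    have hK1 : 0 < K₁ := by linarith
    rw [neg_add, Real.exp_add, Real.exp_neg, Real.exp_neg, Real.exp_log hK1,
      Real.exp_log (Real.sqrt_pos.2 (by positivity)), Real.sqrt_div hlz0.le]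
  -- the split of the product
  set T : Finset ℕ := (below P z).filter fun p : ℕ => ¬ (p : ℝ) < u with hT
  have hTS : T ⊆ S := by
    intro p hp
    rw [hT, Finset.mem_filter, below, Finset.mem_filter] at hp
    rw [hS, Finset.mem_filter, mem_PI]
    exact ⟨⟨(hP p hp.1.1).1, not_lt.1 hp.2, hp.1.2⟩, (hP p hp.1.1).2.1⟩
  have hsplit : VP g (below P z) = VP g (below P u) * ∏ p ∈ T, (1 - g p) := by
    unfold VP
    rw [← Finset.prod_filter_mul_prod_filter_not (below P z) (fun p : ℕ => (p : ℝ) < u)]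
    congr 1
    refine Finset.prod_congr ?_ fun _ _ => rfl
    ext p
    simp only [below, Finset.mem_filter]
    constructor
    · rintro ⟨⟨h1, _⟩, h3⟩
      exact ⟨h1, h3⟩
    · rintro ⟨h1, h2⟩
      exact ⟨⟨h1, h2.trans_le huz⟩, h2⟩
  have hfac : ∀ p : ℕ, 2 * (K : ℝ) + 4 ≤ p → 0 ≤ 1 - g p ∧ 1 - g p ≤ 1 := by
    intro p hp
    obtain ⟨_, h1, h2⟩ := hg p hp
    simp only [hgdef]
    constructor
    · linarith
    · linarith
  have hST : ∏ p ∈ S, (1 - g p) ≤ ∏ p ∈ T, (1 - g p) := by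
    rw [← Finset.prod_sdiff hTS]
    have h1 : ∏ p ∈ S \ T, (1 - g p) ≤ 1 := Finset.prod_le_one
      (fun p hp => (hfac p (hSK p (Finset.mem_sdiff.1 hp).1)).1)
      (fun p hp => (hfac p (hSK p (Finset.mem_sdiff.1 hp).1)).2)
    have h2 : 0 ≤ ∏ p ∈ T, (1 - g p) :=
      Finset.prod_nonneg fun p hp => (hfac p (hSK p (hTS hp))).1
    calc (∏ p ∈ S \ T, (1 - g p)) * ∏ p ∈ T, (1 - g p) ≤ 1 * ∏ p ∈ T, (1 - g p) :=
          mul_le_mul_of_nonneg_right h1 h2
      _ = _ := one_mul _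
  have hVu : 0 ≤ VP g (below P u) := by
    unfold VP
    refine Finset.prod_nonneg fun p hp => ?_
    rw [below, Finset.mem_filter] at hp
    exact (hfac p (hgP p hp.1)).1
  have hfin : √(Real.log u) ≤ K₁ * (∏ p ∈ T, (1 - g p)) * √(Real.log z) := by
    have hK1 : 0 < K₁ := by linarith
    have s1 : 0 < √(Real.log u) := Real.sqrt_pos.2 hlu
    have s2 : 0 < √(Real.log z) := Real.sqrt_pos.2 hlz0
    have h1 := hE.trans hST
    calc √(Real.log u) = K₁ * ((√(Real.log z) / √(Real.log u))⁻¹ * K₁⁻¹) * √(Real.log z) := by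
          field_simp
      _ ≤ _ := mul_le_mul_of_nonneg_right (mul_le_mul_of_nonneg_left h1 hK1.le) s2.le
  rw [hsplit]
  calc VP g (below P u) * √(Real.log u)
      ≤ VP g (below P u) * (K₁ * (∏ p ∈ T, (1 - g p)) * √(Real.log z)) :=
        mul_le_mul_of_nonneg_left hfin hVu
    _ = _ := by ring

end Pool.Agent.Wd33b62
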