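import Pool.Agent.W_d33b62_h36.AR6a
import Pool.Agent.W_d33b62_h36.HS5
import Pool.Agent.W_d33b62_h36.MM5

/-!
# The sum over the primes with the lower bound sieve (helper36, MP_d33b62_nt)
-/

set_option autoImplicit false

noncomputable section

open Finset Filter

namespace Pool.Agent.Wd33b62

open Pool.Agent.Wb58c63 (PI mem_PI VP ap Pr XM)

/-- **Lower bound for the inner expectation**: `half_sieve η` gives `θ, K`; `RegH_inert` with this `K` and `k + k ^ 2 - 1`; for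
`D0 ≥ D1`: `GGh ≥ √η / 2 * VP (hK) (subset) ≥ √η / 2 * V0` (a product over fewer primes is larger; all factors are in
`(0, 1]`). `log DD = (1 + η) log ZZ`. -/
theorem Ex_Lm_ge (k : ℕ) (η : ℝ) (hη : 0 < η) (hη1 : η ≤ 1 / 200) : ∃ θ : ℝ, 0 < θ ∧ ∃ D1 : ℕ, ∀ d : AData k,
    D1 ≤ d.D0 → ∀ᶠ Y : ℝ in atTop, ∀ (i : Fin k) (x : Fin k × Fin k) (c : PY d η Y → Option (VV k)),
      √η / 2 * V0 d η Y ≤ Ex (q2 (qP d (ZZ η Y) i) {Sum.inr x} c) (Lm θ (DD η Y) (Sum.inr x)) := by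
  classical
  obtain ⟨θ, K₁, hθ, _, hK₁, hs⟩ := half_sieve η hη (by linarith)
  obtain ⟨u₀, hu₀, hR⟩ := RegH_inert K₁ hK₁ (k + k ^ 2 - 1)
  refine ⟨θ, hθ, max ⌈u₀⌉₊ (k + k ^ 2 + 1), fun d hd => ?_⟩
  have hd1 : u₀ ≤ (d.D0 : ℝ) := by
    refine (Nat.le_ceil u₀).trans ?_
    exact_mod_cast (le_max_left _ _).trans hd
  have hd2 : k + k ^ 2 + 1 ≤ d.D0 := (le_max_right _ _).trans hd
  have ha1 : 0 < 1 / 2 - 6 * η := by linarith
  have ha2 : 0 < (1 / 2 - 6 * η) / (1 + η) := div_pos ha1 (by linarith)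
  have e1 : ∀ᶠ Y : ℝ in atTop, (d.D0 : ℝ) + 1 ≤ ZZ η Y :=
    (tendsto_rpow_atTop ha2).eventually_ge_atTop _
  have e2 : ∀ᶠ Y : ℝ in atTop, 1 < DD η Y := (tendsto_rpow_atTop ha1).eventually_gt_atTop _
  filter_upwards [e1, e2, eventually_gt_atTop 0] with Y h1 h2 h3
  intro i x c
  rw [Ex_Lm d (ZZ η Y) i x hd2 θ (DD η Y) c]
  set P : Finset ℕ := (univ.filter fun p : Pl d.D0 (ZZ η Y) => c p = none ∧ p.1 % 4 = 3).image
    Subtype.val with hP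
  have hPmem : ∀ p ∈ P, p ∈ PS d.D0 (ZZ η Y) ∧ p % 4 = 3 := by
    intro p hp
    obtain ⟨q, hq, rfl⟩ := Finset.mem_image.1 hp
    exact ⟨q.2, (Finset.mem_filter.1 hq).2.2⟩
  have hPS : ∀ p ∈ PS d.D0 (ZZ η Y), p.Prime ∧ (d.D0 : ℝ) + 1 ≤ p ∧ (p : ℝ) < ZZ η Y :=
    fun p hp => mem_PI.1 hp
  have hg : ∀ p ∈ PS d.D0 (ZZ η Y), 0 ≤ hK k p ∧ hK k p < 1 := by
    intro p hp
    have h4 := (hPS p hp).2.1
    have hc : (0 : ℝ) ≤ ((k + k ^ 2 - 1 : ℕ) : ℝ) := Nat.cast_nonneg _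
    have h5 : 1 < (p : ℝ) - ((k + k ^ 2 - 1 : ℕ) : ℝ) := by linarith
    unfold hK
    refine ⟨by positivity, ?_⟩
    rw [div_lt_one (by linarith)]
    exact h5
  have hgP : ∀ p ∈ P, 0 ≤ hK k p ∧ hK k p < 1 := fun p hp => hg p (hPmem p hp).1
  have hReg : RegH (hK k) P K₁ ((d.D0 : ℝ) + 1) := by
    refine hR ((d.D0 : ℝ) + 1) P (by linarith) fun p hp => ?_
    exact ⟨(hPS p (hPmem p hp).1).1, (hPmem p hp).2, (hPS p (hPmem p hp).1).2.1⟩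
  have hlog : Real.log (DD η Y) = (1 + η) * Real.log (ZZ η Y) := by
    unfold DD ZZ
    rw [Real.log_rpow h3, Real.log_rpow h3]
    have : (1 + η) ≠ 0 := by linarith
    field_simp
  have hc : (0 : ℝ) ≤ ((k + k ^ 2 - 1 : ℕ) : ℝ) := Nat.cast_nonneg _
  have hmain := hs (hK k) P ((d.D0 : ℝ) + 1) (ZZ η Y) (DD η Y) (by linarith) h1 hgP
    (fun p hp => (hPS p (hPmem p hp).1).2) hReg hlog h2
  refine le_trans (mul_le_mul_of_nonneg_left ?_ (by positivity)) hmain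
  unfold V0
  have hsub : P ⊆ (PS d.D0 (ZZ η Y)).filter fun p => p % 4 = 3 := fun p hp =>
    Finset.mem_filter.2 (hPmem p hp)
  have hprod : VP (hK k) ((PS d.D0 (ZZ η Y)).filter fun p => p % 4 = 3) =
      VP (hK k) (((PS d.D0 (ZZ η Y)).filter fun p => p % 4 = 3) \ P) * VP (hK k) P := by
    unfold VP
    exact (Finset.prod_sdiff hsub).symm
  rw [hprod]
  have h6 : VP (hK k) (((PS d.D0 (ZZ η Y)).filter fun p => p % 4 = 3) \ P) ≤ 1 :=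
    Pool.Agent.Wb58c63.VP_le_one fun p hp =>
      hg p (Finset.mem_filter.1 (Finset.mem_sdiff.1 hp).1).1
  have h7 : 0 < VP (hK k) P := Pool.Agent.Wb58c63.VP_pos hgP
  nlinarith

end Pool.Agent.Wd33b62
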