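import Pool.Agent.W_d33b62_h36.LC1
import Pool.Agent.W_d33b62_h36.LC2

/-!
# Sums over labelings and products of one-variable sums (helper36, MP_d33b62_nt)
-/

set_option autoImplicit false

noncomputable section

open Finset

namespace Pool.Agent.Wd33b62

variable {ι V : Type} [Fintype ι] [DecidableEq ι] [Fintype V] [DecidableEq V]

theorem LC4_qwt (x : ι → ℝ) (κ : ι → Option V) : qwt (fun i (_ : V) => x i) κ = xwt x κ := by
  unfold qwt xwt supp
  rw [Finset.prod_filter]
  refine Finset.prod_congr rfl fun i _ => ?_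
  cases hi : κ i with
  | none => simp [qv]
  | some u => simp [qv]

theorem LC4_BB_nonneg (x : ι → ℝ) (hx : ∀ i, 0 ≤ x i) (h : Finset ι → ℝ) (hh : ∀ S, 0 ≤ h S) :
    0 ≤ BB x h :=
  Finset.sum_nonneg fun S _ => mul_nonneg (hh S) (Finset.prod_nonneg fun i _ => hx i)

theorem LC4_one (x : ι → ℝ) (hx : ∀ i, 0 ≤ x i) (h : V → Finset ι → ℝ) (hh : ∀ v S, 0 ≤ h v S)
    (ha : ∀ v S T, S ⊆ T → h v T ≤ h v S) (U : Finset V) (i : ι) (v : V) (hv : v ∈ Uᶜ) :
    ∑ κ ∈ (univ.filter (fun κ : ι → Option V => ∀ i v, κ i = some v → v ∉ U)).filter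
        (fun κ => κ i = some v), (∏ v ∈ Uᶜ, h v (fib κ v)) * xwt x κ ≤
      x i * ∏ v ∈ Uᶜ, BB x (h v) := by
  set h' : V → Finset ι → ℝ := fun u S => if u ∈ U then 1 else h u S with hh'
  have hvU : v ∉ U := Finset.mem_compl.mp hv
  have hh'0 : ∀ u S, 0 ≤ h' u S := by
    intro u S
    simp only [hh']
    split_ifs
    · exact zero_le_one
    · exact hh u S
  have e1 : ∀ κ : ι → Option V, (∏ v, h' v (fib κ v)) = ∏ v ∈ Uᶜ, h v (fib κ v) := by
    intro κ
    rw [← Finset.prod_mul_prod_compl U]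
    have : ∏ v ∈ U, h' v (fib κ v) = 1 := Finset.prod_eq_one fun u hu => by simp [hh', hu]
    rw [this, one_mul]
    refine Finset.prod_congr rfl fun u hu => ?_
    simp only [hh']
    rw [if_neg (Finset.mem_compl.mp hu)]
  set t : V → Finset (Finset ι) := fun u => if u ∈ U then {∅} else
    if u = v then univ.filter (fun S : Finset ι => i ∈ S) else univ with ht
  have h1 := LC1_sum (fun i (_ : V) => x i) (fun i _ => hx i) h' hh'0
    ((univ.filter (fun κ : ι → Option V => ∀ i v, κ i = some v → v ∉ U)).filter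
        (fun κ => κ i = some v)) (Fintype.piFinset t) (by
      intro κ hκ
      rw [Finset.mem_filter, Finset.mem_filter] at hκ
      obtain ⟨⟨_, hκ1⟩, hκ2⟩ := hκ
      rw [Fintype.mem_piFinset]
      intro u
      simp only [ht]
      split_ifs with c1 c2
      · rw [Finset.mem_singleton, Finset.eq_empty_iff_forall_notMem]
        intro j hj
        simp only [fib, Finset.mem_filter, Finset.mem_univ, true_and] at hj
        exact hκ1 j u hj c1
      · rw [Finset.mem_filter]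
        refine ⟨Finset.mem_univ _, ?_⟩
        rw [c2]
        simp [fib, hκ2]
      · exact Finset.mem_univ _)
  rw [LC1_pi] at h1
  have e2 : ∑ κ ∈ (univ.filter (fun κ : ι → Option V => ∀ i v, κ i = some v → v ∉ U)).filter
        (fun κ => κ i = some v), (∏ v ∈ Uᶜ, h v (fib κ v)) * xwt x κ =
      ∑ κ ∈ (univ.filter (fun κ : ι → Option V => ∀ i v, κ i = some v → v ∉ U)).filter
        (fun κ => κ i = some v), (∏ v, h' v (fib κ v)) * qwt (fun i (_ : V) => x i) κ :=
    Finset.sum_congr rfl fun κ _ => by rw [e1, LC4_qwt]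
  rw [e2]
  refine h1.trans ?_
  rw [← Finset.prod_mul_prod_compl U]
  have e3 : ∏ u ∈ U, ∑ S ∈ t u, h' u S * ∏ i ∈ S, x i = 1 := by
    refine Finset.prod_eq_one fun u hu => ?_
    simp [ht, hh', hu]
  rw [e3, one_mul, ← Finset.mul_prod_erase _ _ hv,
    ← Finset.mul_prod_erase Uᶜ (fun v => BB x (h v)) hv, ← mul_assoc]
  have e4 : ∏ u ∈ Uᶜ.erase v, ∑ S ∈ t u, h' u S * ∏ i ∈ S, x i =
      ∏ u ∈ Uᶜ.erase v, BB x (h u) := by
    refine Finset.prod_congr rfl fun u hu => ?_
    rw [Finset.mem_erase, Finset.mem_compl] at hu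
    simp only [ht, hh', BB]
    rw [if_neg hu.2, if_neg hu.1]
    refine Finset.sum_congr rfl fun S _ => ?_
    rw [if_neg hu.2]
  rw [e4]
  refine mul_le_mul_of_nonneg_right ?_
    (Finset.prod_nonneg fun u _ => LC4_BB_nonneg x hx (h u) (hh u))
  have e5 : ∑ S ∈ t v, h' v S * ∏ i ∈ S, x i =
      ∑ S ∈ univ.filter (fun S : Finset ι => i ∈ S), h v S * ∏ j ∈ S, x j := by
    simp only [ht, hh']
    rw [if_neg hvU, if_pos True.intro]
    refine Finset.sum_congr rfl fun S _ => ?_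
    rw [if_neg hvU]
  rw [e5]
  exact sum_mem_le x hx (h v) (hh v) (ha v) i

/-- `∑_τ F(τ) x(τ) ∑_{i ∈ supp τ} x i ≤ K SX ∏ BB` for `F τ = ∏_v h v (fib τ v)`: every `i ∈ supp τ` has exactly one label
`v`, drop it from `S_v` (antitone) as in `sum_mem_le`. -/
theorem sum_supp_le (x : ι → ℝ) (hx : ∀ i, 0 ≤ x i) (h : V → Finset ι → ℝ) (hh : ∀ v S, 0 ≤ h v S)
    (ha : ∀ v S T, S ⊆ T → h v T ≤ h v S) (U : Finset V) :
    ∑ κ ∈ univ.filter (fun κ : ι → Option V => ∀ i v, κ i = some v → v ∉ U),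
        (∏ v ∈ Uᶜ, h v (fib κ v)) * xwt x κ * ∑ i ∈ supp κ, x i ≤
      Fintype.card V * SX x * ∏ v ∈ Uᶜ, BB x (h v) := by
  set A : (ι → Option V) → ℝ := fun κ => (∏ v ∈ Uᶜ, h v (fib κ v)) * xwt x κ with hA
  set W : Finset (ι → Option V) :=
    univ.filter (fun κ : ι → Option V => ∀ i v, κ i = some v → v ∉ U) with hW
  have hprod : 0 ≤ ∏ v ∈ Uᶜ, BB x (h v) :=
    Finset.prod_nonneg fun u _ => LC4_BB_nonneg x hx (h u) (hh u)
  have e1 : ∑ κ ∈ W, A κ * ∑ i ∈ supp κ, x i =
      ∑ i, ∑ v ∈ Uᶜ, x i * ∑ κ ∈ W.filter (fun κ => κ i = some v), A κ := by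
    have e2 : ∀ κ ∈ W, A κ * ∑ i ∈ supp κ, x i =
        ∑ i, ∑ v ∈ Uᶜ, x i * (if κ i = some v then A κ else 0) := by
      intro κ hκ
      rw [hW, Finset.mem_filter] at hκ
      unfold supp
      rw [Finset.sum_filter, Finset.mul_sum]
      refine Finset.sum_congr rfl fun i _ => ?_
      cases hi : κ i with
      | none => simp
      | some u =>
        have hu : u ∈ Uᶜ := Finset.mem_compl.mpr (hκ.2 i u hi)
        rw [Finset.sum_eq_single u]
        · simp [mul_comm]
        · intro b _ hb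
          rw [if_neg (fun hc => hb (Option.some_injective _ hc).symm), mul_zero]
        · intro hc
          exact absurd hu hc
    rw [Finset.sum_congr rfl e2, Finset.sum_comm]
    refine Finset.sum_congr rfl fun i _ => ?_
    rw [Finset.sum_comm]
    refine Finset.sum_congr rfl fun v _ => ?_
    rw [← Finset.mul_sum]
    congr 1
    exact (Finset.sum_filter (fun κ : ι → Option V => κ i = some v) A).symm
  rw [e1]
  calc ∑ i, ∑ v ∈ Uᶜ, x i * ∑ κ ∈ W.filter (fun κ => κ i = some v), A κ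
      ≤ ∑ i, ∑ _v ∈ Uᶜ, x i * (x i * ∏ v ∈ Uᶜ, BB x (h v)) := by
        refine Finset.sum_le_sum fun i _ => Finset.sum_le_sum fun v hv => ?_
        exact mul_le_mul_of_nonneg_left (LC4_one x hx h hh ha U i v hv) (hx i)
    _ = (Uᶜ.card : ℝ) * SX x * ∏ v ∈ Uᶜ, BB x (h v) := by
        simp only [Finset.sum_const, nsmul_eq_mul]
        unfold SX
        rw [Finset.mul_sum, Finset.sum_mul]
        refine Finset.sum_congr rfl fun i _ => ?_
        ring
    _ ≤ Fintype.card V * SX x * ∏ v ∈ Uᶜ, BB x (h v) := by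
        refine mul_le_mul_of_nonneg_right ?_ hprod
        refine mul_le_mul_of_nonneg_right ?_ (Finset.sum_nonneg fun i _ => sq_nonneg _)
        exact_mod_cast Finset.card_le_univ _

end Pool.Agent.Wd33b62
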