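import Pool.Agent.W_d33b62_h36.LC1

/-!
# Upper and lower bounds for the Selberg form in a perturbed model (helper36, MP_d33b62_nt)
-/

set_option autoImplicit false

noncomputable section

open Finset

namespace Pool.Agent.Wd33b62

variable {ι V : Type} [Fintype ι] [DecidableEq ι] [Fintype V] [DecidableEq V]

open Classical in
theorem LG3_mem_up {σ κ : ι → Option V} : κ ∈ up σ ↔ Sub σ κ := by
  unfold up
  exact ⟨fun h => (Finset.mem_filter.1 h).2, fun h => Finset.mem_filter.2 ⟨Finset.mem_univ _, h⟩⟩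

theorem LG3_mem_supp {σ : ι → Option V} {i : ι} : i ∈ supp σ ↔ σ i ≠ none := by
  unfold supp
  rw [Finset.mem_filter]
  exact ⟨fun h => h.2, fun h => ⟨Finset.mem_univ _, h⟩⟩

theorem LG3_mem_fib {σ : ι → Option V} {i : ι} {v : V} : i ∈ fib σ v ↔ σ i = some v := by
  unfold fib
  rw [Finset.mem_filter]
  exact ⟨fun h => h.2, fun h => ⟨Finset.mem_univ _, h⟩⟩

theorem LG3_qwt (w : ι → V → ℝ) (τ κ : ι → Option V) :
    qwt w (off (supp τ) κ) = ∏ i ∈ supp κ \ supp τ, qv w i (κ i) := by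
  unfold qwt
  rw [← Finset.prod_subset (Finset.subset_univ (supp κ \ supp τ))]
  · refine Finset.prod_congr rfl fun i hi => ?_
    rw [Finset.mem_sdiff] at hi
    unfold off
    rw [if_neg hi.2]
  · intro i _ hi
    rw [Finset.mem_sdiff, not_and_or, not_not] at hi
    unfold off
    by_cases h : i ∈ supp τ
    · rw [if_pos h]
      rfl
    · rw [if_neg h]
      have h1 : κ i = none := by
        by_contra h2
        rcases hi with h3 | h3
        · exact h3 (LG3_mem_supp.2 h2)
        · exact h h3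
      rw [h1]
      rfl

theorem LG3_off_inj {τ κ κ' : ι → Option V} (h : Sub τ κ) (h' : Sub τ κ')
    (he : off (supp τ) κ = off (supp τ) κ') : κ = κ' := by
  funext i
  by_cases hi : i ∈ supp τ
  · rw [LG3_mem_supp] at hi
    rcases h i with h1 | h1
    · exact absurd h1 hi
    · rcases h' i with h2 | h2
      · exact absurd h2 hi
      · rw [← h1, h2]
  · have h1 := congrFun he i
    unfold off at h1
    rw [if_neg hi, if_neg hi] at h1
    exact h1

/-- the one-variable factors -/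
def LG3_h (g : V → Finset ι → ℝ) (U : Finset V) (v : V) (S : Finset ι) : ℝ :=
  if v ∈ U then g v S else 1

theorem LG3_sum {x : ι → ℝ} {g : V → Finset ι → ℝ} (hG : GH x g) {U : Finset V}
    {y : (ι → Option V) → ℝ} (hy : ∀ κ, y κ ≤ ∏ v, g v (fib κ v)) (τ : ι → Option V)
    (w : ι → V → ℝ) (hw : ∀ i v, 0 ≤ w i v) (s t : Finset (ι → Option V)) (hs : ∀ κ ∈ s, Sub τ κ)
    (hst : ∀ κ ∈ s, off (supp τ) κ ∈ t) :
    ∑ κ ∈ s, y κ * qwt w (off (supp τ) κ) ≤ (∏ v ∈ Uᶜ, g v (fib τ v)) *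
      ∑ κ ∈ t, (∏ v, LG3_h g U v (fib κ v)) * qwt w κ := by
  have hqwt : ∀ κ : ι → Option V, 0 ≤ qwt w κ := by
    intro κ
    unfold qwt
    refine Finset.prod_nonneg fun i _ => ?_
    cases κ i with
    | none => exact zero_le_one
    | some v => exact hw i v
  have hh : ∀ v S, 0 ≤ LG3_h g U v S := by
    intro v S
    unfold LG3_h
    split_ifs
    · exact hG.g_nonneg v S
    · exact zero_le_one
  have hG0 : 0 ≤ ∏ v ∈ Uᶜ, g v (fib τ v) := Finset.prod_nonneg fun v _ => hG.g_nonneg v _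
  have h1 : ∀ κ ∈ s, y κ * qwt w (off (supp τ) κ) ≤ (∏ v ∈ Uᶜ, g v (fib τ v)) *
      ((∏ v, LG3_h g U v (fib (off (supp τ) κ) v)) * qwt w (off (supp τ) κ)) := by
    intro κ hκ
    rw [← mul_assoc]
    refine mul_le_mul_of_nonneg_right ((hy κ).trans ?_) (hqwt _)
    rw [← Finset.prod_mul_prod_compl U (fun v => g v (fib κ v)),
      ← Finset.prod_mul_prod_compl U (fun v => LG3_h g U v (fib (off (supp τ) κ) v))]
    have e1 : ∏ v ∈ Uᶜ, LG3_h g U v (fib (off (supp τ) κ) v) = 1 := by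
      refine Finset.prod_eq_one fun v hv => ?_
      unfold LG3_h
      rw [if_neg (Finset.mem_compl.1 hv)]
    have e2 : ∏ v ∈ U, LG3_h g U v (fib (off (supp τ) κ) v) =
        ∏ v ∈ U, g v (fib (off (supp τ) κ) v) := by
      refine Finset.prod_congr rfl fun v hv => ?_
      unfold LG3_h
      rw [if_pos hv]
    rw [e1, e2, mul_one, mul_comm (∏ v ∈ Uᶜ, g v (fib τ v))]
    refine mul_le_mul ?_ ?_ (Finset.prod_nonneg fun v _ => hG.g_nonneg v _)
      (Finset.prod_nonneg fun v _ => hG.g_nonneg v _)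
    · refine Finset.prod_le_prod (fun v _ => hG.g_nonneg v _) fun v _ => ?_
      refine hG.g_anti v _ _ fun i hi => ?_
      rw [LG3_mem_fib] at hi ⊢
      unfold off at hi
      split_ifs at hi with h2
      exact hi
    · refine Finset.prod_le_prod (fun v _ => hG.g_nonneg v _) fun v _ => ?_
      refine hG.g_anti v _ _ fun i hi => ?_
      rw [LG3_mem_fib] at hi ⊢
      rcases hs κ hκ i with h2 | h2
      · rw [hi] at h2
        exact absurd h2 (by simp)
      · rw [← h2, hi]
  refine (Finset.sum_le_sum h1).trans ?_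
  rw [← Finset.mul_sum]
  refine mul_le_mul_of_nonneg_left ?_ hG0
  rw [← Finset.sum_image (f := fun κ => (∏ v, LG3_h g U v (fib κ v)) * qwt w κ)
    (g := fun κ => off (supp τ) κ)
    (fun a ha b hb hab => LG3_off_inj (hs a ha) (hs b hb) hab)]
  refine Finset.sum_le_sum_of_subset_of_nonneg ?_ fun κ _ _ =>
    mul_nonneg (Finset.prod_nonneg fun v _ => hh v _) (hqwt κ)
  intro κ' hκ'
  obtain ⟨κ, hκ, rfl⟩ := Finset.mem_image.1 hκ'
  exact hst κ hκ

theorem LG3_BB_nonneg {x : ι → ℝ} {g : V → Finset ι → ℝ} (hG : GH x g) (u : V) : 0 ≤ BB x (g u) := by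
  unfold BB
  exact Finset.sum_nonneg fun S _ => mul_nonneg (hG.g_nonneg u S)
    (Finset.prod_nonneg fun i _ => (hG.x_pos i).le)

theorem LG3_exp (x : ι → ℝ) (C : ℝ) (hC : 0 ≤ C) (U : Finset V) :
    ∏ _v ∈ Uᶜ, ∏ i, (1 + C * x i ^ 2) ≤ Real.exp (Fintype.card V * C * SX x) := by
  have h1 : ∏ i, (1 + C * x i ^ 2) ≤ Real.exp (C * SX x) := by
    unfold SX
    rw [Finset.mul_sum, Real.exp_sum]
    refine Finset.prod_le_prod (fun i _ => by positivity) fun i _ => ?_
    rw [add_comm]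
    exact Real.add_one_le_exp _
  have h0 : 0 ≤ ∏ i, (1 + C * x i ^ 2) := Finset.prod_nonneg fun i _ => by positivity
  have hSX : 0 ≤ SX x := Finset.sum_nonneg fun i _ => sq_nonneg _
  rw [Finset.prod_const]
  refine (pow_le_pow_left₀ h0 h1 _).trans ?_
  rw [← Real.exp_nat_mul]
  apply Real.exp_le_exp.2
  have h2 : ((Uᶜ).card : ℝ) ≤ Fintype.card V := by exact_mod_cast Finset.card_le_univ _
  have h3 := mul_le_mul_of_nonneg_right h2 (mul_nonneg hC hSX)
  linarith

/-- **Comparison of the coefficients.** For `κ ≥ τ` such that all labels of `κ` outside of `supp τ` are in `U` the two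
products agree (`q i u = 0 = qx x U i u` for `u ∈ U`). For the other `κ` the product with `qx` vanishes and the product with `q` is
bounded as in `zz_abs_le`; use `prod_upper'` in place of `prod_upper`:
`∏_{v ∉ U} ∏_i (1 + C x i ^ 2) - 1 ≤ exp (K C SX) - 1`. -/
theorem zz_sub_le {x : ι → ℝ} {g : V → Finset ι → ℝ} (hG : GH x g) {q : ι → V → ℝ} {U : Finset V}
    {C : ℝ} (hC : 0 ≤ C) (hQ : QH x q U ∅ C) {y : (ι → Option V) → ℝ} (hy0 : ∀ κ, 0 ≤ y κ)
    (hy : ∀ κ, y κ ≤ ∏ v, g v (fib κ v)) (τ : ι → Option V) (hτ : ∀ i v, τ i = some v → v ∉ U) :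
    |zz x y q τ - zz x y (qx x U) τ| ≤ (∏ v ∈ Uᶜ, g v (fib τ v)) * (∏ u ∈ U, BB x (g u)) *
      (Real.exp (Fintype.card V * C * SX x) - 1) := by
  classical
  obtain ⟨w, hwdef⟩ : ∃ w : ι → V → ℝ, ∀ i v, w i v = if v ∈ U then x i else C * x i ^ 2 :=
    ⟨_, fun _ _ => rfl⟩
  have hw : ∀ i v, 0 ≤ w i v := by
    intro i v
    rw [hwdef]
    split_ifs
    · exact (hG.x_pos i).le
    · positivity
  -- the pointwise bound
  have hpt : ∀ κ ∈ up τ, |y κ * ∏ i ∈ supp κ \ supp τ, (x i - qv q i (κ i)) -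
      y κ * ∏ i ∈ supp κ \ supp τ, (x i - qv (qx x U) i (κ i))| ≤
      if ¬ ∀ i v, off (supp τ) κ i = some v → v ∈ U then y κ * qwt w (off (supp τ) κ) else 0 := by
    intro κ hκ
    by_cases hgood : ∀ i v, off (supp τ) κ i = some v → v ∈ U
    · rw [if_neg (not_not.2 hgood)]
      have e1 : ∏ i ∈ supp κ \ supp τ, (x i - qv q i (κ i)) =
          ∏ i ∈ supp κ \ supp τ, (x i - qv (qx x U) i (κ i)) := by
        refine Finset.prod_congr rfl fun i hi => ?_
        rw [Finset.mem_sdiff] at hi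
        cases hκi : κ i with
        | none => exact absurd hκi (LG3_mem_supp.1 hi.1)
        | some v =>
          have hv : v ∈ U := hgood i v (by
            unfold off
            rw [if_neg hi.2, hκi])
          change x i - q i v = x i - qx x U i v
          unfold qx
          rw [if_pos hv, hQ.q_zero i v (Or.inl hv)]
      rw [e1, sub_self, abs_zero]
    · rw [if_pos hgood]
      push Not at hgood
      obtain ⟨i₀, v₀, hi₀, hv₀⟩ := hgood
      unfold off at hi₀
      split_ifs at hi₀ with hi₀τ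
      have hmem : i₀ ∈ supp κ \ supp τ := by
        rw [Finset.mem_sdiff, LG3_mem_supp]
        exact ⟨by rw [hi₀]; simp, hi₀τ⟩
      have e2 : ∏ i ∈ supp κ \ supp τ, (x i - qv (qx x U) i (κ i)) = 0 := by
        refine Finset.prod_eq_zero hmem ?_
        rw [hi₀]
        change x i₀ - qx x U i₀ v₀ = 0
        unfold qx
        rw [if_neg hv₀, sub_self]
      rw [e2, mul_zero, sub_zero, abs_mul, abs_of_nonneg (hy0 κ), LG3_qwt]
      refine mul_le_mul_of_nonneg_left ?_ (hy0 κ)
      rw [Finset.abs_prod]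
      refine Finset.prod_le_prod (fun i _ => abs_nonneg _) fun i hi => ?_
      rw [Finset.mem_sdiff] at hi
      cases hκi : κ i with
      | none => exact absurd hκi (LG3_mem_supp.1 hi.1)
      | some v =>
        change |x i - q i v| ≤ w i v
        rw [hwdef]
        by_cases hv : v ∈ U
        · rw [if_pos hv, hQ.q_zero i v (Or.inl hv), sub_zero, abs_of_pos (hG.x_pos i)]
        · rw [if_neg hv, abs_sub_comm]
          exact hQ.q_near i v hv (Finset.notMem_empty i)
  have h1 : |zz x y q τ - zz x y (qx x U) τ| ≤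
      ∑ κ ∈ (up τ).filter (fun κ => ¬ ∀ i v, off (supp τ) κ i = some v → v ∈ U),
        y κ * qwt w (off (supp τ) κ) := by
    unfold zz
    rw [← Finset.sum_sub_distrib, Finset.sum_filter]
    exact (Finset.abs_sum_le_sum_abs _ _).trans (Finset.sum_le_sum hpt)
  refine h1.trans ?_
  refine (LG3_sum hG (U := U) hy τ w hw _
    (univ.filter (fun κ : ι → Option V => ¬ ∀ i v, κ i = some v → v ∈ U))
    (fun κ hκ => LG3_mem_up.1 (Finset.mem_filter.1 hκ).1)
    (fun κ hκ => Finset.mem_filter.2 ⟨Finset.mem_univ _, (Finset.mem_filter.1 hκ).2⟩)).trans ?_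
  rw [mul_assoc]
  refine mul_le_mul_of_nonneg_left ?_ (Finset.prod_nonneg fun v _ => hG.g_nonneg v _)
  have hh : ∀ v S, 0 ≤ LG3_h g U v S := by
    intro v S
    unfold LG3_h
    split_ifs
    · exact hG.g_nonneg v S
    · exact zero_le_one
  refine (prod_upper' w hw (LG3_h g U) hh U).trans ?_
  have e1 : ∏ v ∈ U, ∑ S : Finset ι, LG3_h g U v S * ∏ i ∈ S, w i v = ∏ u ∈ U, BB x (g u) := by
    refine Finset.prod_congr rfl fun v hv => ?_
    unfold BB
    refine Finset.sum_congr rfl fun S _ => ?_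
    unfold LG3_h
    rw [if_pos hv]
    congr 1
    refine Finset.prod_congr rfl fun i _ => ?_
    rw [hwdef, if_pos hv]
  have e2 : ∏ v ∈ Uᶜ, ∑ S : Finset ι, LG3_h g U v S * ∏ i ∈ S, w i v =
      ∏ _v ∈ Uᶜ, ∏ i, (1 + C * x i ^ 2) := by
    refine Finset.prod_congr rfl fun v hv => ?_
    have hv' := Finset.mem_compl.1 hv
    rw [Finset.prod_one_add]
    refine Finset.sum_congr ?_ fun S _ => ?_
    · rw [Finset.powerset_univ]
    · unfold LG3_h
      rw [if_neg hv', one_mul]
      refine Finset.prod_congr rfl fun i _ => ?_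
      rw [hwdef, if_neg hv']
  have e3 : ∏ v ∈ Uᶜ, LG3_h g U v ∅ = 1 := by
    refine Finset.prod_eq_one fun v hv => ?_
    unfold LG3_h
    rw [if_neg (Finset.mem_compl.1 hv)]
  rw [e1, e2, e3]
  refine mul_le_mul_of_nonneg_left ?_ (Finset.prod_nonneg fun u _ => LG3_BB_nonneg hG u)
  linarith [LG3_exp x C hC U]

/-- **Bound for the main coefficient** (`zz_abs_le` for `q = qx x U`, `C = 0`, `B = ∅`; here `qx` is not required to satisfy
`q_sum`, so argue directly): only `κ` with all new labels in `U` contribute, `prod_upper` or `abs` of the sum. -/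
theorem zz_main_le {x : ι → ℝ} {g : V → Finset ι → ℝ} (hG : GH x g) {U : Finset V}
    {y : (ι → Option V) → ℝ} (hy0 : ∀ κ, 0 ≤ y κ)
    (hy : ∀ κ, y κ ≤ ∏ v, g v (fib κ v)) (τ : ι → Option V) (hτ : ∀ i v, τ i = some v → v ∉ U) :
    0 ≤ zz x y (qx x U) τ ∧
      zz x y (qx x U) τ ≤ (∏ v ∈ Uᶜ, g v (fib τ v)) * (∏ u ∈ U, BB x (g u)) := by
  classical
  obtain ⟨w, hwdef⟩ : ∃ w : ι → V → ℝ, ∀ i v, w i v = if v ∈ U then x i else 0 :=
    ⟨_, fun _ _ => rfl⟩
  have hw : ∀ i v, 0 ≤ w i v := by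
    intro i v
    rw [hwdef]
    split_ifs
    · exact (hG.x_pos i).le
    · exact le_rfl
  have hfac : ∀ (κ : ι → Option V), ∏ i ∈ supp κ \ supp τ, (x i - qv (qx x U) i (κ i)) =
      qwt w (off (supp τ) κ) := by
    intro κ
    rw [LG3_qwt]
    refine Finset.prod_congr rfl fun i hi => ?_
    rw [Finset.mem_sdiff] at hi
    cases hκi : κ i with
    | none => exact absurd hκi (LG3_mem_supp.1 hi.1)
    | some v =>
      change x i - qx x U i v = w i v
      rw [hwdef]
      unfold qx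
      split_ifs
      · rw [sub_zero]
      · rw [sub_self]
  have hzz : zz x y (qx x U) τ = ∑ κ ∈ up τ, y κ * qwt w (off (supp τ) κ) := by
    unfold zz
    refine Finset.sum_congr rfl fun κ _ => ?_
    rw [hfac]
  have hqwt : ∀ κ : ι → Option V, 0 ≤ qwt w κ := by
    intro κ
    unfold qwt
    refine Finset.prod_nonneg fun i _ => ?_
    cases κ i with
    | none => exact zero_le_one
    | some v => exact hw i v
  rw [hzz]
  refine ⟨Finset.sum_nonneg fun κ _ => mul_nonneg (hy0 κ) (hqwt _), ?_⟩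
  refine (LG3_sum hG (U := U) hy τ w hw _ univ (fun κ hκ => LG3_mem_up.1 hκ)
    (fun κ _ => Finset.mem_univ _)).trans ?_
  refine mul_le_mul_of_nonneg_left ?_ (Finset.prod_nonneg fun v _ => hG.g_nonneg v _)
  have hh : ∀ v S, 0 ≤ LG3_h g U v S := by
    intro v S
    unfold LG3_h
    split_ifs
    · exact hG.g_nonneg v S
    · exact zero_le_one
  refine (prod_upper w hw (LG3_h g U) hh).trans (le_of_eq ?_)
  rw [← Finset.prod_mul_prod_compl U]
  have e1 : ∏ v ∈ U, ∑ S : Finset ι, LG3_h g U v S * ∏ i ∈ S, w i v = ∏ u ∈ U, BB x (g u) := by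
    refine Finset.prod_congr rfl fun v hv => ?_
    unfold BB
    refine Finset.sum_congr rfl fun S _ => ?_
    unfold LG3_h
    rw [if_pos hv]
    congr 1
    refine Finset.prod_congr rfl fun i _ => ?_
    rw [hwdef, if_pos hv]
  have e2 : ∏ v ∈ Uᶜ, ∑ S : Finset ι, LG3_h g U v S * ∏ i ∈ S, w i v = 1 := by
    refine Finset.prod_eq_one fun v hv => ?_
    have hv' := Finset.mem_compl.1 hv
    rw [Finset.sum_eq_single (∅ : Finset ι)]
    · unfold LG3_h
      rw [if_neg hv', Finset.prod_empty, mul_one]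
    · intro S _ hS
      obtain ⟨i, hi⟩ := Finset.nonempty_iff_ne_empty.2 hS
      rw [Finset.prod_eq_zero hi (by rw [hwdef, if_neg hv']), mul_zero]
    · intro h
      exact absurd (Finset.mem_univ _) h
  rw [e1, e2, mul_one]

end Pool.Agent.Wd33b62
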