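import Pool.Agent.W_d33b62_h36.LB4
import Pool.Agent.W_d33b62_h36.LC4
import Pool.Agent.W_d33b62_h36.LG3

/-!
# Upper and lower bounds for the Selberg form in a perturbed model (helper36, MP_d33b62_nt)
-/

set_option autoImplicit false

noncomputable section

open Finset

namespace Pool.Agent.Wd33b62

variable {ι V : Type} [Fintype ι] [DecidableEq ι] [Fintype V] [DecidableEq V]

theorem LG4_weier (a : ι → ℝ) (s : Finset ι) (h0 : ∀ i ∈ s, 0 ≤ a i) (h1 : ∀ i ∈ s, a i ≤ 1) :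
    0 ≤ ∏ i ∈ s, (1 - a i) ∧ ∏ i ∈ s, (1 - a i) ≤ 1 ∧ 1 - ∑ i ∈ s, a i ≤ ∏ i ∈ s, (1 - a i) := by
  induction s using Finset.induction_on with
  | empty => simp
  | insert i s hi ih =>
    obtain ⟨i1, i2, i3⟩ := ih (fun j hj => h0 j (Finset.mem_insert_of_mem hj))
      (fun j hj => h1 j (Finset.mem_insert_of_mem hj))
    have a0 := h0 i (Finset.mem_insert_self i s)
    have a1 := h1 i (Finset.mem_insert_self i s)
    rw [Finset.prod_insert hi, Finset.sum_insert hi]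
    obtain ⟨P, hP⟩ : ∃ P, P = ∏ i ∈ s, (1 - a i) := ⟨_, rfl⟩
    rw [← hP] at i1 i2 i3 ⊢
    have b1 : 0 ≤ 1 - a i := by linarith
    refine ⟨mul_nonneg b1 i1, ?_, ?_⟩
    · calc (1 - a i) * P ≤ 1 * 1 := mul_le_mul (by linarith) i2 i1 zero_le_one
        _ = 1 := one_mul 1
    · have b2 : a i * P ≤ a i * 1 := mul_le_mul_of_nonneg_left i2 a0
      have b3 : (1 - a i) * P = P - a i * P := by ring
      rw [b3]
      linarith

theorem LG4_qwt_supp (w : ι → V → ℝ) (τ : ι → Option V) : qwt w τ = ∏ i ∈ supp τ, qv w i (τ i) := by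
  unfold qwt
  symm
  refine Finset.prod_subset (Finset.subset_univ _) fun i _ hi => ?_
  have h1 : τ i = none := by
    by_contra h2
    exact hi (LG3_mem_supp.2 h2)
  rw [h1]
  rfl

theorem LG4_qwt_bad (x : ι → ℝ) (U : Finset V) (τ : ι → Option V)
    (h : ¬ ∀ i v, τ i = some v → v ∉ U) : qwt (qx x U) τ = 0 := by
  push Not at h
  obtain ⟨i, v, h1, h2⟩ := h
  unfold qwt
  refine Finset.prod_eq_zero (Finset.mem_univ i) ?_
  rw [h1]
  change qx x U i v = 0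
  unfold qx
  rw [if_pos h2]

theorem LG4_qwt_good (x : ι → ℝ) (U : Finset V) (τ : ι → Option V)
    (h : ∀ i v, τ i = some v → v ∉ U) : qwt (qx x U) τ = xwt x τ := by
  rw [LG4_qwt_supp]
  unfold xwt
  refine Finset.prod_congr rfl fun i hi => ?_
  cases h1 : τ i with
  | none => exact absurd h1 (LG3_mem_supp.1 hi)
  | some v =>
    change qx x U i v = x i
    unfold qx
    rw [if_neg (h i v h1)]

/-- The main term is a sum over the labelings without labels in `U`. -/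
theorem LG4_TT0 (x : ι → ℝ) (y : (ι → Option V) → ℝ) (U : Finset V) :
    TT0 x y U = ∑ τ ∈ univ.filter (fun τ : ι → Option V => ∀ i v, τ i = some v → v ∉ U),
      zz x y (qx x U) τ ^ 2 * xwt x τ := by
  unfold TT0
  rw [← Finset.sum_filter_add_sum_filter_not univ
    (fun τ : ι → Option V => ∀ i v, τ i = some v → v ∉ U)]
  have h2 : ∑ τ ∈ univ.filter (fun τ : ι → Option V => ¬ ∀ i v, τ i = some v → v ∉ U),
      zz x y (qx x U) τ ^ 2 * qwt (qx x U) τ = 0 := by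
    refine Finset.sum_eq_zero fun τ hτ => ?_
    rw [LG4_qwt_bad x U τ (Finset.mem_filter.1 hτ).2, mul_zero]
  rw [h2, add_zero]
  refine Finset.sum_congr rfl fun τ hτ => ?_
  rw [LG4_qwt_good x U τ (Finset.mem_filter.1 hτ).2]

/-- `prod_upper` for functions of the labels outside of `U`. -/
theorem LG4_upper (x : ι → ℝ) (hx : ∀ i, 0 ≤ x i) (h : V → Finset ι → ℝ) (hh : ∀ v S, 0 ≤ h v S)
    (U : Finset V) :
    ∑ τ ∈ univ.filter (fun τ : ι → Option V => ∀ i v, τ i = some v → v ∉ U),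
      (∏ v ∈ Uᶜ, h v (fib τ v)) * xwt x τ ≤ ∏ v ∈ Uᶜ, BB x (h v) := by
  classical
  obtain ⟨k, hk⟩ : ∃ k : V → Finset ι → ℝ, ∀ v S, k v S = if v ∈ U then 1 else h v S :=
    ⟨_, fun _ _ => rfl⟩
  have hk0 : ∀ v S, 0 ≤ k v S := by
    intro v S
    rw [hk]
    split_ifs
    · exact zero_le_one
    · exact hh v S
  have hw : ∀ i v, 0 ≤ qx x U i v := by
    intro i v
    unfold qx
    split_ifs
    · exact le_rfl
    · exact hx i
  have h1 := prod_upper (qx x U) hw k hk0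
  have hprod : ∀ S : V → Finset ι, ∏ v, k v (S v) = ∏ v ∈ Uᶜ, h v (S v) := by
    intro S
    rw [← Finset.prod_mul_prod_compl U]
    have e1 : ∏ v ∈ U, k v (S v) = 1 := Finset.prod_eq_one fun v hv => by rw [hk, if_pos hv]
    rw [e1, one_mul]
    exact Finset.prod_congr rfl fun v hv => by rw [hk, if_neg (Finset.mem_compl.1 hv)]
  have hq0 : ∀ τ : ι → Option V, 0 ≤ qwt (qx x U) τ := by
    intro τ
    unfold qwt
    refine Finset.prod_nonneg fun i _ => ?_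
    cases τ i with
    | none => exact zero_le_one
    | some v => exact hw i v
  have h2 : ∑ τ ∈ univ.filter (fun τ : ι → Option V => ∀ i v, τ i = some v → v ∉ U),
      (∏ v ∈ Uᶜ, h v (fib τ v)) * xwt x τ ≤
      ∑ κ : ι → Option V, (∏ v, k v (fib κ v)) * qwt (qx x U) κ := by
    have e3 : ∑ τ ∈ univ.filter (fun τ : ι → Option V => ∀ i v, τ i = some v → v ∉ U),
      (∏ v ∈ Uᶜ, h v (fib τ v)) * xwt x τ =
      ∑ τ ∈ univ.filter (fun τ : ι → Option V => ∀ i v, τ i = some v → v ∉ U),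
      (∏ v, k v (fib τ v)) * qwt (qx x U) τ := by
      refine Finset.sum_congr rfl fun τ hτ => ?_
      rw [hprod (fun v => fib τ v), LG4_qwt_good x U τ (Finset.mem_filter.1 hτ).2]
    rw [e3]
    exact Finset.sum_le_sum_of_subset_of_nonneg (Finset.filter_subset _ _) fun κ _ _ =>
      mul_nonneg (Finset.prod_nonneg fun v _ => hk0 v _) (hq0 κ)
  refine (h2.trans h1).trans (le_of_eq ?_)
  rw [← Finset.prod_mul_prod_compl U]
  have e1 : ∏ v ∈ U, ∑ S : Finset ι, k v S * ∏ i ∈ S, qx x U i v = 1 := by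
    refine Finset.prod_eq_one fun v hv => ?_
    rw [Finset.sum_eq_single (∅ : Finset ι)]
    · rw [hk, if_pos hv, Finset.prod_empty, mul_one]
    · intro S _ hS
      obtain ⟨i, hi⟩ := Finset.nonempty_iff_ne_empty.2 hS
      rw [Finset.prod_eq_zero hi (by unfold qx; rw [if_pos hv]), mul_zero]
    · intro h
      exact absurd (Finset.mem_univ _) h
  rw [e1, one_mul]
  refine Finset.prod_congr rfl fun v hv => ?_
  have hv' := Finset.mem_compl.1 hv
  unfold BB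
  refine Finset.sum_congr rfl fun S _ => ?_
  rw [hk, if_neg hv']
  congr 1
  refine Finset.prod_congr rfl fun i _ => ?_
  unfold qx
  rw [if_neg hv']

/-- the elementary inequality -/
theorem LG4_elem {Z Y G e W X c : ℝ} (hZ : |Z - Y| ≤ G * e) (hY0 : 0 ≤ Y) (hYG : Y ≤ G) (he : 0 ≤ e)
    (hW0 : 0 ≤ W) (hX : 0 ≤ X) (hc : 0 ≤ c) (hW : X * (1 - c) ≤ W) :
    Y ^ 2 * X - 2 * e * (G ^ 2 * X) - c * (G ^ 2 * X) ≤ Z ^ 2 * W := by
  have hG : 0 ≤ G := hY0.trans hYG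
  have hYG2 : Y ^ 2 ≤ G ^ 2 := pow_le_pow_left₀ hY0 hYG 2
  have hG2X : 0 ≤ G ^ 2 * X := mul_nonneg (sq_nonneg _) hX
  have hZ2 : Y ^ 2 - 2 * e * G ^ 2 ≤ Z ^ 2 := by
    have h1 : Y - G * e ≤ Z := by
      have := (abs_le.1 hZ).1
      linarith
    have h2 : Y * (G * e) ≤ G * (G * e) := mul_le_mul_of_nonneg_right hYG (mul_nonneg hG he)
    have h3 : Y * (Y - G * e) ≤ Y * Z := mul_le_mul_of_nonneg_left h1 hY0
    have h4 : 0 ≤ (Z - Y) ^ 2 := sq_nonneg _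
    nlinarith
  have hZW : 0 ≤ Z ^ 2 * W := mul_nonneg (sq_nonneg _) hW0
  have hcG : 0 ≤ c * (G ^ 2 * X) := mul_nonneg hc hG2X
  have heG : 0 ≤ 2 * e * (G ^ 2 * X) := mul_nonneg (by linarith) hG2X
  by_cases h1 : Y ^ 2 - 2 * e * G ^ 2 ≤ 0
  · have h2 : (Y ^ 2 - 2 * e * G ^ 2) * X ≤ 0 := mul_nonpos_of_nonpos_of_nonneg h1 hX
    have h3 : (Y ^ 2 - 2 * e * G ^ 2) * X = Y ^ 2 * X - 2 * e * (G ^ 2 * X) := by ring
    linarith
  · push Not at h1
    by_cases h2 : 1 ≤ c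
    · have h3 : Y ^ 2 * X ≤ G ^ 2 * X := mul_le_mul_of_nonneg_right hYG2 hX
      have h4 : 1 * (G ^ 2 * X) ≤ c * (G ^ 2 * X) := mul_le_mul_of_nonneg_right h2 hG2X
      linarith
    · push Not at h2
      have h3 : (Y ^ 2 - 2 * e * G ^ 2) * (X * (1 - c)) ≤ Z ^ 2 * W :=
        mul_le_mul hZ2 hW (mul_nonneg hX (by linarith)) (sq_nonneg _)
      have h4 : (Y ^ 2 - 2 * e * G ^ 2) ≤ G ^ 2 := by
        have : 0 ≤ 2 * e * G ^ 2 := mul_nonneg (by linarith) (sq_nonneg _)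
        linarith
      have h5 : c * X * (Y ^ 2 - 2 * e * G ^ 2) ≤ c * X * G ^ 2 :=
        mul_le_mul_of_nonneg_left h4 (mul_nonneg hc hX)
      have h6 : (Y ^ 2 - 2 * e * G ^ 2) * (X * (1 - c)) =
        Y ^ 2 * X - 2 * e * (G ^ 2 * X) - c * X * (Y ^ 2 - 2 * e * G ^ 2) := by ring
      have h7 : c * X * G ^ 2 = c * (G ^ 2 * X) := by ring
      linarith

/-- the weights -/
theorem LG4_weight {x : ι → ℝ} {g : V → Finset ι → ℝ} (hG : GH x g) {q : ι → V → ℝ} {U : Finset V}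
    {C : ℝ} (hC : 0 ≤ C) (hQ : QH x q U ∅ C)
    (hs : ∀ i, (C + Fintype.card V * (1 + C)) * x i ≤ 1) (τ : ι → Option V)
    (hτ : ∀ i v, τ i = some v → v ∉ U) :
    xwt x τ * (1 - (C + Fintype.card V * (1 + C)) * ∑ i ∈ supp τ, x i) ≤
      qwt q τ * ∏ i ∈ supp τ, (1 - ∑ v, q i v) := by
  have hK : (0 : ℝ) ≤ Fintype.card V := Nat.cast_nonneg _
  have hKC : 0 ≤ Fintype.card V * (1 + C) := mul_nonneg hK (by linarith)
  rw [LG4_qwt_supp, ← Finset.prod_mul_distrib]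
  obtain ⟨C', hC'⟩ : ∃ C', C' = C + Fintype.card V * (1 + C) := ⟨_, rfl⟩
  have hC'0 : 0 ≤ C' := by rw [hC']; linarith
  have h1 := (LG4_weier (fun i => C' * x i) (supp τ)
    (fun i _ => mul_nonneg hC'0 (hG.x_pos i).le) (fun i _ => by rw [hC']; exact hs i)).2.2
  have hx0 : 0 ≤ xwt x τ := Finset.prod_nonneg fun i _ => (hG.x_pos i).le
  have h2 := mul_le_mul_of_nonneg_left h1 hx0
  rw [← hC', Finset.mul_sum]
  refine h2.trans ?_
  unfold xwt
  rw [← Finset.prod_mul_distrib]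
  refine Finset.prod_le_prod (fun i _ => ?_) fun i hi => ?_
  · refine mul_nonneg (hG.x_pos i).le ?_
    have := hs i
    rw [← hC'] at this
    linarith
  · cases hτi : τ i with
    | none => exact absurd hτi (LG3_mem_supp.1 hi)
    | some v =>
      change x i * (1 - C' * x i) ≤ q i v * (1 - ∑ v, q i v)
      have hx := hG.x_pos i
      have hx1 := hG.x_le i
      have hv := hτ i v hτi
      have hxs := hs i
      have hxx : x i ^ 2 ≤ x i := by
        have := mul_le_mul_of_nonneg_left hx1 hx.le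
        rw [mul_one] at this
        rw [sq]
        exact this
      have h3 : x i * (1 - C * x i) ≤ q i v := by
        have h4 := (abs_le.1 (hQ.q_near i v hv (Finset.notMem_empty i))).1
        have h5 : x i * (1 - C * x i) = x i - C * x i ^ 2 := by ring
        linarith
      have h6 : ∀ v, q i v ≤ (1 + C) * x i := by
        intro v
        by_cases hvU : v ∈ U
        · rw [hQ.q_zero i v (Or.inl hvU)]
          exact mul_nonneg (by linarith) hx.le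
        · have h4 := (abs_le.1 (hQ.q_near i v hvU (Finset.notMem_empty i))).2
          have h7 : C * x i ^ 2 ≤ C * x i := mul_le_mul_of_nonneg_left hxx hC
          linarith
      have h8 : ∑ v, q i v ≤ Fintype.card V * (1 + C) * x i := by
        refine (Finset.sum_le_sum fun v _ => h6 v).trans (le_of_eq ?_)
        rw [Finset.sum_const, Finset.card_univ, nsmul_eq_mul]
        ring
      have a0 : 0 ≤ C * x i := mul_nonneg hC hx.le
      have b0 : 0 ≤ Fintype.card V * (1 + C) * x i := mul_nonneg hKC hx.le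
      have hxs' : C * x i + Fintype.card V * (1 + C) * x i ≤ 1 := by
        rw [add_mul] at hxs
        exact hxs
      have h9 : x i * (1 - C * x i) * (1 - Fintype.card V * (1 + C) * x i) ≤
          q i v * (1 - ∑ v, q i v) :=
        mul_le_mul h3 (by linarith) (by linarith) (hQ.q_nonneg i v)
      refine le_trans ?_ h9
      rw [mul_assoc]
      refine mul_le_mul_of_nonneg_left ?_ hx.le
      rw [hC', add_mul]
      have := mul_nonneg a0 b0
      obtain ⟨a, ha⟩ : ∃ a, a = C * x i := ⟨_, rfl⟩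
      obtain ⟨b, hb⟩ : ∃ b, b = Fintype.card V * (1 + C) * x i := ⟨_, rfl⟩
      rw [← ha, ← hb] at this ⊢
      nlinarith

/-- **Lower bound.** `K = card V`, `C' = C + K (1 + C)`, `e = exp (K C SX) - 1`.

Proof. `Ex_FF_ge`; drop the `τ` with a label in `U`. For the others let `G = ∏_{v ∉ U} g v (fib τ v) * ∏_{u ∈ U} BB`,
`Y = zz x y (qx x U) τ ∈ [0, G]`; `zz_sub_le`: `|zz x y q τ - Y| ≤ e G`, so `(zz x y q τ) ^ 2 ≥ (Y ^ 2 - 2 e G ^ 2)⁺`.
`qwt q τ ∏_{i ∈ supp τ} (1 - ∑ q) ≥ x(τ) ∏_{i ∈ supp τ} (1 - C x i) (1 - K (1 + C) x i) ≥ x(τ) (1 - C' ∑_{i ∈ supp τ} x i)⁺`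
(`∑_v q i v ≤ K x i (1 + C x i) ≤ K (1 + C) x i`, all factors are nonnegative by `hs`). Hence every term is at least
`Y ^ 2 x(τ) - 2 e G ^ 2 x(τ) - C' (∑_{i ∈ supp τ} x i) G ^ 2 x(τ)` (`(a - b)⁺ (1 - c)⁺ ≥ a - b - c a` for `a, b, c ≥ 0`). Sum
over `τ`: the first part is `TT0` (`qwt (qx x U) τ = x(τ)` for these `τ` and `0` for the others), `∑ G ^ 2 x(τ) ≤ ∏ AA (∏ BB) ^ 2`
(`prod_upper`), `∑ (∑_{i ∈ supp τ} x i) G ^ 2 x(τ) ≤ K SX ∏ AA (∏ BB) ^ 2` (`sum_supp_le` with `h v = (g v) ^ 2`). -/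
theorem GW_low {x : ι → ℝ} {g : V → Finset ι → ℝ} (hG : GH x g) {q : ι → V → ℝ} {U : Finset V}
    {C : ℝ} (hC : 0 ≤ C) (hQ : QH x q U ∅ C) {y : (ι → Option V) → ℝ} (hy0 : ∀ κ, 0 ≤ y κ)
    (hy : ∀ κ, y κ ≤ ∏ v, g v (fib κ v))
    (hs : ∀ i, (C + Fintype.card V * (1 + C)) * x i ≤ 1) :
    TT0 x y U - (2 * (Real.exp (Fintype.card V * C * SX x) - 1) +
      (C + Fintype.card V * (1 + C)) * (Fintype.card V * SX x)) *
        ((∏ v ∈ Uᶜ, AA x (g v)) * (∏ u ∈ U, BB x (g u)) ^ 2) ≤ Ex q (fun c => FF x y c ^ 2) := by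
  classical
  obtain ⟨e, he⟩ : ∃ e, e = Real.exp (Fintype.card V * C * SX x) - 1 := ⟨_, rfl⟩
  obtain ⟨C', hC'⟩ : ∃ C', C' = C + Fintype.card V * (1 + C) := ⟨_, rfl⟩
  obtain ⟨B, hB⟩ : ∃ B, B = ∏ u ∈ U, BB x (g u) := ⟨_, rfl⟩
  have hx0 : ∀ i, 0 ≤ x i := fun i => (hG.x_pos i).le
  have hK : (0 : ℝ) ≤ Fintype.card V := Nat.cast_nonneg _
  have hC'0 : 0 ≤ C' := by
    have := mul_nonneg hK (show (0 : ℝ) ≤ 1 + C by linarith)
    rw [hC']
    linarith
  have hSX : 0 ≤ SX x := Finset.sum_nonneg fun i _ => sq_nonneg _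
  have he0 : 0 ≤ e := by
    have := Real.one_le_exp (mul_nonneg (mul_nonneg hK hC) hSX)
    rw [he]
    linarith
  rw [← he, ← hC', ← hB]
  have hq : QOK q := ⟨hQ.q_nonneg, hQ.q_sum⟩
  refine le_trans ?_ (Ex_FF_ge x y q hq)
  have hq0 : ∀ τ : ι → Option V, 0 ≤ qwt q τ := by
    intro τ
    unfold qwt
    refine Finset.prod_nonneg fun i _ => ?_
    cases τ i with
    | none => exact zero_le_one
    | some v => exact hQ.q_nonneg i v
  have hW0 : ∀ τ : ι → Option V, 0 ≤ qwt q τ * ∏ i ∈ supp τ, (1 - ∑ v, q i v) := by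
    intro τ
    exact mul_nonneg (hq0 τ) (Finset.prod_nonneg fun i _ => by linarith [hQ.q_sum i])
  -- restrict to the good labelings
  refine le_trans ?_ (Finset.sum_le_sum_of_subset_of_nonneg
    (Finset.filter_subset (fun τ : ι → Option V => ∀ i v, τ i = some v → v ∉ U) univ)
    (fun τ _ _ => mul_nonneg (sq_nonneg _) (hW0 τ)))
  -- the three sums
  obtain ⟨P, hP⟩ : ∃ P : (ι → Option V) → ℝ, ∀ τ, P τ = ∏ v ∈ Uᶜ, g v (fib τ v) := ⟨_, fun _ => rfl⟩
  have hterm : ∀ τ ∈ univ.filter (fun τ : ι → Option V => ∀ i v, τ i = some v → v ∉ U),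
      zz x y (qx x U) τ ^ 2 * xwt x τ - 2 * e * B ^ 2 * (P τ ^ 2 * xwt x τ) -
        C' * B ^ 2 * (P τ ^ 2 * xwt x τ * ∑ i ∈ supp τ, x i) ≤
      zz x y q τ ^ 2 * (qwt q τ * ∏ i ∈ supp τ, (1 - ∑ v, q i v)) := by
    intro τ hτ
    have hτ' := (Finset.mem_filter.1 hτ).2
    have h1 := zz_sub_le hG hC hQ hy0 hy τ hτ'
    have h2 := zz_main_le hG (U := U) hy0 hy τ hτ'
    rw [← he, ← hB, ← hP] at h1
    rw [← hB, ← hP] at h2
    have hX : (0 : ℝ) ≤ xwt x τ := Finset.prod_nonneg fun i _ => hx0 i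
    have hc : 0 ≤ C' * ∑ i ∈ supp τ, x i := mul_nonneg hC'0 (Finset.sum_nonneg fun i _ => hx0 i)
    have h3 := LG4_elem (X := xwt x τ) (c := C' * ∑ i ∈ supp τ, x i) h1 h2.1 h2.2 he0 (hW0 τ) hX hc
      (by rw [hC']; exact LG4_weight hG hC hQ hs τ hτ')
    refine le_trans (le_of_eq ?_) h3
    ring
  refine le_trans ?_ (Finset.sum_le_sum hterm)
  rw [Finset.sum_sub_distrib, Finset.sum_sub_distrib, ← Finset.mul_sum, ← Finset.mul_sum, ← LG4_TT0]
  have hg2 : ∀ v S, 0 ≤ (fun v S => g v S ^ 2) v S := fun v S => sq_nonneg _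
  have hg2a : ∀ v S T, S ⊆ T → (fun v S => g v S ^ 2) v T ≤ (fun v S => g v S ^ 2) v S :=
    fun v S T hST => pow_le_pow_left₀ (hG.g_nonneg v T) (hG.g_anti v S T hST) 2
  have hPP : ∀ τ : ι → Option V, P τ ^ 2 = ∏ v ∈ Uᶜ, (fun v S => g v S ^ 2) v (fib τ v) := by
    intro τ
    rw [hP, ← Finset.prod_pow]
  have hAA : ∏ v ∈ Uᶜ, AA x (g v) = ∏ v ∈ Uᶜ, BB x ((fun v S => g v S ^ 2) v) := rfl
  have h1 : ∑ τ ∈ univ.filter (fun τ : ι → Option V => ∀ i v, τ i = some v → v ∉ U),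
      P τ ^ 2 * xwt x τ ≤ ∏ v ∈ Uᶜ, AA x (g v) := by
    have := LG4_upper x hx0 (fun v S => g v S ^ 2) hg2 U
    rw [hAA]
    refine le_trans (le_of_eq ?_) this
    exact Finset.sum_congr rfl fun τ _ => by rw [hPP]
  have h2 : ∑ τ ∈ univ.filter (fun τ : ι → Option V => ∀ i v, τ i = some v → v ∉ U),
      P τ ^ 2 * xwt x τ * ∑ i ∈ supp τ, x i ≤ Fintype.card V * SX x * ∏ v ∈ Uᶜ, AA x (g v) := by
    have := sum_supp_le x hx0 (fun v S => g v S ^ 2) hg2 hg2a U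
    rw [hAA]
    refine le_trans (le_of_eq ?_) this
    exact Finset.sum_congr rfl fun τ _ => by rw [hPP]
  have h3 := mul_le_mul_of_nonneg_left h1
    (mul_nonneg (mul_nonneg zero_le_two he0) (sq_nonneg B) : 0 ≤ 2 * e * B ^ 2)
  have h4 := mul_le_mul_of_nonneg_left h2 (mul_nonneg hC'0 (sq_nonneg B) : 0 ≤ C' * B ^ 2)
  have h5 : (2 * e + C' * (Fintype.card V * SX x)) * ((∏ v ∈ Uᶜ, AA x (g v)) * B ^ 2) =
      2 * e * B ^ 2 * (∏ v ∈ Uᶜ, AA x (g v)) +
        C' * B ^ 2 * (Fintype.card V * SX x * ∏ v ∈ Uᶜ, AA x (g v)) := by ring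
  rw [h5]
  linarith

end Pool.Agent.Wd33b62
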