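import Pool.Agent.W_d33b62_h36.LC3
import Pool.Agent.W_d33b62_h36.LG4

/-!
# Upper and lower bounds for the Selberg form in a perturbed model (helper36, MP_d33b62_nt)
-/

set_option autoImplicit false

noncomputable section

open Finset

namespace Pool.Agent.Wd33b62

variable {ι V : Type} [Fintype ι] [DecidableEq ι] [Fintype V] [DecidableEq V]

/-- The union of two labelings. -/
def LG5_mrg (τ κ : ι → Option V) : ι → Option V := fun i => if τ i = none then κ i else τ i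

theorem LG5_sub (τ κ : ι → Option V) : Sub τ (LG5_mrg τ κ) := by
  intro i
  by_cases h : τ i = none
  · exact Or.inl h
  · right
    unfold LG5_mrg
    rw [if_neg h]

theorem LG5_off (τ κ : ι → Option V) (h : ∀ i ∈ supp τ, κ i = none) :
    off (supp τ) (LG5_mrg τ κ) = κ := by
  funext i
  unfold off LG5_mrg
  by_cases hi : i ∈ supp τ
  · rw [if_pos hi, h i hi]
  · rw [if_neg hi]
    have h1 : τ i = none := by
      by_contra h2
      exact hi (LG3_mem_supp.2 h2)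
    rw [if_pos h1]

theorem LG5_supp (τ κ : ι → Option V) (h : ∀ i ∈ supp τ, κ i = none) :
    supp (LG5_mrg τ κ) \ supp τ = supp κ := by
  ext i
  rw [Finset.mem_sdiff]
  constructor
  · rintro ⟨h1, h2⟩
    have h3 : τ i = none := by
      by_contra h4
      exact h2 (LG3_mem_supp.2 h4)
    rw [LG3_mem_supp] at h1 ⊢
    unfold LG5_mrg at h1
    rw [if_pos h3] at h1
    exact h1
  · intro h1
    rw [LG3_mem_supp] at h1
    have h2 : i ∉ supp τ := fun h3 => h1 (h i h3)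
    refine ⟨?_, h2⟩
    have h3 : τ i = none := by
      by_contra h4
      exact h2 (LG3_mem_supp.2 h4)
    rw [LG3_mem_supp]
    unfold LG5_mrg
    rw [if_pos h3]
    exact h1

theorem LG5_fib_in (U : Finset V) (τ κ : ι → Option V) (hτ : ∀ i v, τ i = some v → v ∉ U)
    (h : ∀ i ∈ supp τ, κ i = none) (u : V) (hu : u ∈ U) :
    fib (LG5_mrg τ κ) u = fib κ u := by
  ext i
  rw [LG3_mem_fib, LG3_mem_fib]
  unfold LG5_mrg
  by_cases h1 : τ i = none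
  · rw [if_pos h1]
  · rw [if_neg h1]
    constructor
    · intro h2
      exact absurd hu (hτ i u h2)
    · intro h2
      rw [h i (LG3_mem_supp.2 h1)] at h2
      exact absurd h2 (by simp)

theorem LG5_fib_out (U : Finset V) (τ κ : ι → Option V)
    (h : ∀ i v, κ i = some v → v ∈ U) (v : V) (hv : v ∉ U) :
    fib (LG5_mrg τ κ) v = fib τ v := by
  ext i
  rw [LG3_mem_fib, LG3_mem_fib]
  unfold LG5_mrg
  by_cases h1 : τ i = none
  · rw [if_pos h1]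
    constructor
    · intro h2
      exact absurd (h i v h2) hv
    · intro h2
      rw [h1] at h2
      exact absurd h2 (by simp)
  · rw [if_neg h1]

theorem LG5_term (x : ι → ℝ) (U : Finset V) (τ κ : ι → Option V)
    (h : ∀ i ∈ supp τ, κ i = none) (h' : ∀ i v, κ i = some v → v ∈ U) :
    ∏ i ∈ supp (LG5_mrg τ κ) \ supp τ, (x i - qv (qx x U) i (LG5_mrg τ κ i)) = xwt x κ := by
  rw [LG5_supp τ κ h]
  unfold xwt
  refine Finset.prod_congr rfl fun i hi => ?_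
  have h2 : i ∉ supp τ := fun h3 => (LG3_mem_supp.1 hi) (h i h3)
  have h3 : τ i = none := by
    by_contra h4
    exact h2 (LG3_mem_supp.2 h4)
  have h4 : LG5_mrg τ κ i = κ i := by
    unfold LG5_mrg
    rw [if_pos h3]
  rw [h4]
  cases h5 : κ i with
  | none => exact absurd h5 (LG3_mem_supp.1 hi)
  | some v =>
    change x i - qx x U i v = x i
    unfold qx
    rw [if_pos (h' i v h5), sub_zero]

/-- The lower bound for the coefficient. -/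
theorem LG5_Y {x : ι → ℝ} {g : V → Finset ι → ℝ} (hG : GH x g) {U : Finset V}
    {y : (ι → Option V) → ℝ} (hy0 : ∀ κ, 0 ≤ y κ) (ℓ : V → Finset ι → ℝ)
    (hyg : ∀ κ, ∑ v, ℓ v (fib κ v) ≤ 1 → ∏ v, g v (fib κ v) ≤ y κ)
    (hU : ∀ S : V → Finset ι, (∀ u ∈ U, g u (S u) ≠ 0) → ∑ u ∈ U, ℓ u (S u) ≤ 1 / 2)
    (τ : ι → Option V) (hτ : ∀ i v, τ i = some v → v ∉ U)
    (hc : ∑ v ∈ Uᶜ, ℓ v (fib τ v) ≤ 1 / 2) :
    (∏ v ∈ Uᶜ, g v (fib τ v)) * ((1 - Fintype.card V * ∑ i ∈ supp τ, x i -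
      Fintype.card V ^ 2 * SX x) * ∏ u ∈ U, BB x (g u)) ≤ zz x y (qx x U) τ := by
  classical
  have hx0 : ∀ i, 0 ≤ x i := fun i => (hG.x_pos i).le
  have hP0 : 0 ≤ ∏ v ∈ Uᶜ, g v (fib τ v) := Finset.prod_nonneg fun v _ => hG.g_nonneg v _
  have h1 := mul_le_mul_of_nonneg_left
    (disj_lower x hx0 g hG.g_nonneg hG.g_anti (supp τ) U) hP0
  refine h1.trans ?_
  rw [Finset.mul_sum]
  unfold zz
  obtain ⟨F, hF⟩ : ∃ F, F = univ.filter (fun κ : ι → Option V => (∀ i ∈ supp τ, κ i = none) ∧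
    ∀ i v, κ i = some v → v ∈ U) := ⟨_, rfl⟩
  rw [← hF]
  have hFm : ∀ κ ∈ F, (∀ i ∈ supp τ, κ i = none) ∧ ∀ i v, κ i = some v → v ∈ U := by
    intro κ hκ
    rw [hF] at hκ
    exact (Finset.mem_filter.1 hκ).2
  have hinj : ∀ a ∈ F, ∀ b ∈ F, LG5_mrg τ a = LG5_mrg τ b → a = b := by
    intro a ha b hb hab
    rw [← LG5_off τ a (hFm a ha).1, ← LG5_off τ b (hFm b hb).1, hab]
  have h2 : ∑ κ ∈ F.image (LG5_mrg τ), y κ * ∏ i ∈ supp κ \ supp τ, (x i - qv (qx x U) i (κ i)) ≤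
      ∑ κ ∈ up τ, y κ * ∏ i ∈ supp κ \ supp τ, (x i - qv (qx x U) i (κ i)) := by
    refine Finset.sum_le_sum_of_subset_of_nonneg ?_ fun κ _ _ => ?_
    · intro κ hκ
      obtain ⟨κ', _, rfl⟩ := Finset.mem_image.1 hκ
      exact LG3_mem_up.2 (LG5_sub τ κ')
    · refine mul_nonneg (hy0 κ) (Finset.prod_nonneg fun i hi => ?_)
      rw [Finset.mem_sdiff] at hi
      cases h5 : κ i with
      | none => exact absurd h5 (LG3_mem_supp.1 hi.1)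
      | some v =>
        change 0 ≤ x i - qx x U i v
        unfold qx
        split_ifs
        · rw [sub_zero]
          exact hx0 i
        · rw [sub_self]
  refine le_trans ?_ h2
  rw [Finset.sum_image hinj]
  refine Finset.sum_le_sum fun κ hκ => ?_
  obtain ⟨hκ1, hκ2⟩ := hFm κ hκ
  rw [LG5_term x U τ κ hκ1 hκ2, ← mul_assoc]
  refine mul_le_mul_of_nonneg_right ?_ (Finset.prod_nonneg fun i _ => hx0 i)
  by_cases h6 : ∀ u ∈ U, g u (fib κ u) ≠ 0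
  · have h7 := hU (fun u => fib κ u) h6
    have e1 : ∑ v ∈ U, ℓ v (fib (LG5_mrg τ κ) v) = ∑ v ∈ U, ℓ v (fib κ v) :=
      Finset.sum_congr rfl fun v hv => by rw [LG5_fib_in U τ κ hτ hκ1 v hv]
    have e2 : ∑ v ∈ Uᶜ, ℓ v (fib (LG5_mrg τ κ) v) = ∑ v ∈ Uᶜ, ℓ v (fib τ v) :=
      Finset.sum_congr rfl fun v hv => by rw [LG5_fib_out U τ κ hκ2 v (Finset.mem_compl.1 hv)]
    have e3 : ∏ v ∈ U, g v (fib (LG5_mrg τ κ) v) = ∏ v ∈ U, g v (fib κ v) :=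
      Finset.prod_congr rfl fun v hv => by rw [LG5_fib_in U τ κ hτ hκ1 v hv]
    have e4 : ∏ v ∈ Uᶜ, g v (fib (LG5_mrg τ κ) v) = ∏ v ∈ Uᶜ, g v (fib τ v) :=
      Finset.prod_congr rfl fun v hv => by rw [LG5_fib_out U τ κ hκ2 v (Finset.mem_compl.1 hv)]
    have h8 : ∑ v, ℓ v (fib (LG5_mrg τ κ) v) ≤ 1 := by
      rw [← Finset.sum_add_sum_compl U, e1, e2]
      linarith
    have h9 := hyg _ h8
    rw [← Finset.prod_mul_prod_compl U, e3, e4, mul_comm] at h9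
    exact h9
  · push Not at h6
    obtain ⟨u, hu, h7⟩ := h6
    rw [Finset.prod_eq_zero hu h7, mul_zero]
    exact hy0 _

theorem LG5_sq {P B Y s t K : ℝ} (hP : 0 ≤ P) (hB : 0 ≤ B) (hY : P * ((1 - K * s - K ^ 2 * t) * B) ≤ Y) :
    P ^ 2 * B ^ 2 * (1 - 2 * K * s - 2 * K ^ 2 * t) ≤ Y ^ 2 := by
  obtain ⟨a, ha⟩ : ∃ a, a = K * s + K ^ 2 * t := ⟨_, rfl⟩
  have e1 : 1 - K * s - K ^ 2 * t = 1 - a := by rw [ha]; ring
  have e2 : 1 - 2 * K * s - 2 * K ^ 2 * t = 1 - 2 * a := by rw [ha]; ring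
  rw [e1] at hY
  rw [e2]
  have hPB : 0 ≤ P ^ 2 * B ^ 2 := mul_nonneg (sq_nonneg _) (sq_nonneg _)
  by_cases h : 1 - a < 0
  · have h1 : 1 - 2 * a ≤ 0 := by linarith
    exact (mul_nonpos_of_nonneg_of_nonpos hPB h1).trans (sq_nonneg _)
  · push Not at h
    have h1 : 0 ≤ P * ((1 - a) * B) := mul_nonneg hP (mul_nonneg h hB)
    have h2 := pow_le_pow_left₀ h1 hY 2
    refine le_trans ?_ h2
    have h3 : (P * ((1 - a) * B)) ^ 2 = P ^ 2 * B ^ 2 * (1 - 2 * a) + P ^ 2 * B ^ 2 * a ^ 2 := by ring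
    rw [h3]
    have : 0 ≤ P ^ 2 * B ^ 2 * a ^ 2 := mul_nonneg hPB (sq_nonneg _)
    linarith

/-- The labelings of large cost. -/
theorem LG5_cost {x : ι → ℝ} {g : V → Finset ι → ℝ} (hG : GH x g) (U : Finset V)
    (ℓ : V → Finset ι → ℝ) (hℓ : ∀ v S, 0 ≤ ℓ v S) (hA : ∀ v, 0 < AA x (g v))
    (hM : ∑ v ∈ Uᶜ, (∑ S : Finset ι, ℓ v S * g v S ^ 2 * ∏ i ∈ S, x i) / AA x (g v) ≤ 1 / 16) :
    ∑ τ ∈ univ.filter (fun τ : ι → Option V => ∀ i v, τ i = some v → v ∉ U),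
      (∑ v ∈ Uᶜ, ℓ v (fib τ v)) * ((∏ v ∈ Uᶜ, g v (fib τ v) ^ 2) * xwt x τ) ≤
      1 / 16 * ∏ v ∈ Uᶜ, AA x (g v) := by
  classical
  have hx0 : ∀ i, 0 ≤ x i := fun i => (hG.x_pos i).le
  have hAA0 : 0 ≤ ∏ v ∈ Uᶜ, AA x (g v) := Finset.prod_nonneg fun v _ => (hA v).le
  have h0 : ∀ v₀ ∈ Uᶜ, ∑ τ ∈ univ.filter (fun τ : ι → Option V => ∀ i v, τ i = some v → v ∉ U),
      ℓ v₀ (fib τ v₀) * ((∏ v ∈ Uᶜ, g v (fib τ v) ^ 2) * xwt x τ) ≤
      (∑ S : Finset ι, ℓ v₀ S * g v₀ S ^ 2 * ∏ i ∈ S, x i) / AA x (g v₀) *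
        ∏ v ∈ Uᶜ, AA x (g v) := by
    intro v₀ hv₀
    obtain ⟨k, hk⟩ : ∃ k : V → Finset ι → ℝ, ∀ v S, k v S =
      (if v = v₀ then ℓ v S else 1) * g v S ^ 2 := ⟨_, fun _ _ => rfl⟩
    have hk0 : ∀ v S, 0 ≤ k v S := by
      intro v S
      rw [hk]
      refine mul_nonneg ?_ (sq_nonneg _)
      split_ifs
      · exact hℓ v S
      · exact zero_le_one
    have h1 := LG4_upper x hx0 k hk0 U
    have e1 : ∀ S : V → Finset ι, ∏ v ∈ Uᶜ, k v (S v) =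
        ℓ v₀ (S v₀) * ∏ v ∈ Uᶜ, g v (S v) ^ 2 := by
      intro S
      have : ∀ v ∈ Uᶜ, k v (S v) = (if v = v₀ then ℓ v (S v) else 1) * g v (S v) ^ 2 :=
        fun v _ => hk v (S v)
      rw [Finset.prod_congr rfl this, Finset.prod_mul_distrib, Finset.prod_ite_eq' Uᶜ v₀
        (fun v => ℓ v (S v)), if_pos hv₀]
    have e2 : ∏ v ∈ Uᶜ, BB x (k v) =
        (∑ S : Finset ι, ℓ v₀ S * g v₀ S ^ 2 * ∏ i ∈ S, x i) / AA x (g v₀) *
        ∏ v ∈ Uᶜ, AA x (g v) := by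
      rw [← Finset.mul_prod_erase Uᶜ _ hv₀, ← Finset.mul_prod_erase Uᶜ (fun v => AA x (g v)) hv₀]
      have e3 : ∏ v ∈ Uᶜ.erase v₀, BB x (k v) = ∏ v ∈ Uᶜ.erase v₀, AA x (g v) := by
        refine Finset.prod_congr rfl fun v hv => ?_
        unfold BB AA
        refine Finset.sum_congr rfl fun S _ => ?_
        rw [hk, if_neg (Finset.ne_of_mem_erase hv), one_mul]
      have e4 : BB x (k v₀) = ∑ S : Finset ι, ℓ v₀ S * g v₀ S ^ 2 * ∏ i ∈ S, x i := by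
        unfold BB
        refine Finset.sum_congr rfl fun S _ => ?_
        rw [hk, if_pos rfl]
      rw [e3, e4, ← mul_assoc, div_mul_cancel₀ _ (hA v₀).ne']
    rw [← e2]
    refine le_trans (le_of_eq ?_) h1
    refine Finset.sum_congr rfl fun τ _ => ?_
    rw [e1 (fun v => fib τ v), mul_assoc]
  have h1 : ∑ τ ∈ univ.filter (fun τ : ι → Option V => ∀ i v, τ i = some v → v ∉ U),
      (∑ v ∈ Uᶜ, ℓ v (fib τ v)) * ((∏ v ∈ Uᶜ, g v (fib τ v) ^ 2) * xwt x τ) =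
      ∑ v₀ ∈ Uᶜ, ∑ τ ∈ univ.filter (fun τ : ι → Option V => ∀ i v, τ i = some v → v ∉ U),
      ℓ v₀ (fib τ v₀) * ((∏ v ∈ Uᶜ, g v (fib τ v) ^ 2) * xwt x τ) := by
    rw [Finset.sum_comm]
    exact Finset.sum_congr rfl fun τ _ => by rw [Finset.sum_mul]
  rw [h1]
  refine (Finset.sum_le_sum h0).trans ?_
  rw [← Finset.sum_mul]
  exact mul_le_mul_of_nonneg_right hM hAA0

/-- **Lower bound for the main term with a truncation condition.** `ℓ` is the cost, `y` is the full product whenever the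
total cost is at most `1`; `K = card V`.

Proof. `τ` without labels in `U` and with `∑_{v ∉ U} ℓ v (fib τ v) ≤ 1 / 2`. For `κ ≥ τ` whose new labels are in `U`:
`∏_{v} g v (fib κ v) ≤ y κ` (if some `g u (fib κ u) = 0` with `u ∈ U` the left side is `0`, else the cost of `κ` is at most `1` by `hU`,
`fib κ v = fib τ v` for `v ∉ U`). So `zz x y (qx x U) τ ≥ ∏_{v ∉ U} g v (fib τ v) * ∏ BB * (1 - K ∑_{i ∈ supp τ} x i - K ^ 2 SX)`
(`disj_lower` with `T = supp τ`), and its square is at least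
`(∏_{v ∉ U} g v (fib τ v)) ^ 2 (∏ BB) ^ 2 (1 - 2 K ∑_{i ∈ supp τ} x i - 2 K ^ 2 SX)`. Sum over these `τ` with the weight `x(τ)`:
the sum of `(∏ g v (fib τ v)) ^ 2 x(τ)` over all `τ` without labels in `U` is at least `(1 - K ^ 2 SX) ∏ AA` (`disj_lower` with
`U := Uᶜ`, `T = ∅`, `h v = (g v) ^ 2`); the `τ` of cost more than `1 / 2` contribute at most
`2 ∑_τ (∑_v ℓ v (fib τ v)) (∏ g v (fib τ v)) ^ 2 x(τ) ≤ 2 * (1 / 16) ∏ AA` (`prod_upper` with the factor `ℓ v` at one `v`, `hM`);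
and `∑_τ (∑_{i ∈ supp τ} x i) (∏ g) ^ 2 x(τ) ≤ K SX ∏ AA` (`sum_supp_le`). Total
`(1 - K ^ 2 SX - 1 / 8 - 2 K ^ 2 SX - 2 K ^ 2 SX) ∏ AA (∏ BB) ^ 2`. -/
theorem TLow {x : ι → ℝ} {g : V → Finset ι → ℝ} (hG : GH x g) {U : Finset V}
    {y : (ι → Option V) → ℝ} (hy0 : ∀ κ, 0 ≤ y κ) (ℓ : V → Finset ι → ℝ) (hℓ : ∀ v S, 0 ≤ ℓ v S)
    (hyg : ∀ κ, ∑ v, ℓ v (fib κ v) ≤ 1 → ∏ v, g v (fib κ v) ≤ y κ)
    (hU : ∀ S : V → Finset ι, (∀ u ∈ U, g u (S u) ≠ 0) → ∑ u ∈ U, ℓ u (S u) ≤ 1 / 2)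
    (hA : ∀ v, 0 < AA x (g v))
    (hM : ∑ v ∈ Uᶜ, (∑ S : Finset ι, ℓ v S * g v S ^ 2 * ∏ i ∈ S, x i) / AA x (g v) ≤ 1 / 16) :
    (7 / 8 - 5 * (Fintype.card V : ℝ) ^ 2 * SX x) *
      ((∏ v ∈ Uᶜ, AA x (g v)) * (∏ u ∈ U, BB x (g u)) ^ 2) ≤ TT0 x y U := by
  classical
  have hx0 : ∀ i, 0 ≤ x i := fun i => (hG.x_pos i).le
  obtain ⟨K, hK⟩ : ∃ K : ℝ, K = Fintype.card V := ⟨_, rfl⟩
  obtain ⟨B, hB⟩ : ∃ B, B = ∏ u ∈ U, BB x (g u) := ⟨_, rfl⟩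
  obtain ⟨A, hAd⟩ : ∃ A, A = ∏ v ∈ Uᶜ, AA x (g v) := ⟨_, rfl⟩
  have hK0 : 0 ≤ K := by rw [hK]; exact Nat.cast_nonneg _
  have hB0 : 0 ≤ B := by rw [hB]; exact Finset.prod_nonneg fun u _ => LG3_BB_nonneg hG u
  have hA0 : 0 ≤ A := by rw [hAd]; exact Finset.prod_nonneg fun v _ => (hA v).le
  have hSX : 0 ≤ SX x := Finset.sum_nonneg fun i _ => sq_nonneg _
  rw [← hK, ← hB, ← hAd, LG4_TT0]
  obtain ⟨good, hgood⟩ : ∃ s, s = univ.filter (fun τ : ι → Option V => ∀ i v, τ i = some v → v ∉ U) :=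
    ⟨_, rfl⟩
  obtain ⟨Q, hQ⟩ : ∃ Q : (ι → Option V) → ℝ, ∀ τ, Q τ = (∏ v ∈ Uᶜ, g v (fib τ v) ^ 2) * xwt x τ :=
    ⟨_, fun _ => rfl⟩
  have hX0 : ∀ τ : ι → Option V, 0 ≤ xwt x τ := fun τ => Finset.prod_nonneg fun i _ => hx0 i
  have hQ0 : ∀ τ, 0 ≤ Q τ := by
    intro τ
    rw [hQ]
    exact mul_nonneg (Finset.prod_nonneg fun v _ => sq_nonneg _) (hX0 τ)
  have hc0 : ∀ τ : ι → Option V, 0 ≤ ∑ v ∈ Uᶜ, ℓ v (fib τ v) := fun τ =>
    Finset.sum_nonneg fun v _ => hℓ v _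
  have hs0 : ∀ τ : ι → Option V, 0 ≤ ∑ i ∈ supp τ, x i := fun τ =>
    Finset.sum_nonneg fun i _ => hx0 i
  have hg2 : ∀ v S, 0 ≤ (fun v S => g v S ^ 2) v S := fun v S => sq_nonneg _
  have hg2a : ∀ v S T, S ⊆ T → (fun v S => g v S ^ 2) v T ≤ (fun v S => g v S ^ 2) v S :=
    fun v S T hST => pow_le_pow_left₀ (hG.g_nonneg v T) (hG.g_anti v S T hST) 2
  -- the sums of `Q`
  have q1 : ∑ τ ∈ good, Q τ ≤ A := by
    have := LG4_upper x hx0 (fun v S => g v S ^ 2) hg2 U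
    rw [← hgood] at this
    rw [hAd]
    refine le_trans (le_of_eq ?_) this
    exact Finset.sum_congr rfl fun τ _ => hQ τ
  have q2 : (1 - K ^ 2 * SX x) * A ≤ ∑ τ ∈ good, Q τ := by
    have := disj_lower x hx0 (fun v S => g v S ^ 2) hg2 hg2a ∅ Uᶜ
    rw [Finset.sum_empty, mul_zero, sub_zero, ← hK] at this
    rw [hAd]
    refine le_trans this (le_of_eq ?_)
    rw [hgood]
    refine Finset.sum_congr ?_ fun τ _ => (hQ τ).symm
    ext τ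
    rw [Finset.mem_filter, Finset.mem_filter]
    constructor
    · rintro ⟨h1, _, h2⟩
      exact ⟨h1, fun i v h3 => Finset.mem_compl.1 (h2 i v h3)⟩
    · rintro ⟨h1, h2⟩
      exact ⟨h1, fun i hi => absurd hi (Finset.notMem_empty i),
        fun i v h3 => Finset.mem_compl.2 (h2 i v h3)⟩
  have q3 : ∑ τ ∈ good, (∑ v ∈ Uᶜ, ℓ v (fib τ v)) * Q τ ≤ 1 / 16 * A := by
    have := LG5_cost hG U ℓ hℓ hA hM
    rw [← hgood, ← hAd] at this
    refine le_trans (le_of_eq ?_) this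
    exact Finset.sum_congr rfl fun τ _ => by rw [hQ]
  have q4 : ∑ τ ∈ good, Q τ * ∑ i ∈ supp τ, x i ≤ K * SX x * A := by
    have := sum_supp_le x hx0 (fun v S => g v S ^ 2) hg2 hg2a U
    rw [← hgood, ← hK] at this
    rw [hAd]
    refine le_trans (le_of_eq ?_) this
    exact Finset.sum_congr rfl fun τ _ => by rw [hQ]
  -- the labelings of small cost
  obtain ⟨G2, hG2⟩ : ∃ s, s = good.filter (fun τ => ∑ v ∈ Uᶜ, ℓ v (fib τ v) ≤ 1 / 2) := ⟨_, rfl⟩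
  have hG2s : G2 ⊆ good := by rw [hG2]; exact Finset.filter_subset _ _
  have r1 : ∑ τ ∈ G2, Q τ ≤ A :=
    (Finset.sum_le_sum_of_subset_of_nonneg hG2s fun τ _ _ => hQ0 τ).trans q1
  have r2 : (7 / 8 - K ^ 2 * SX x) * A ≤ ∑ τ ∈ G2, Q τ := by
    have h1 : ∑ τ ∈ good, Q τ - ∑ τ ∈ good, 2 * ((∑ v ∈ Uᶜ, ℓ v (fib τ v)) * Q τ) ≤
        ∑ τ ∈ G2, Q τ := by
      rw [← Finset.sum_sub_distrib, hG2, Finset.sum_filter]
      refine Finset.sum_le_sum fun τ _ => ?_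
      have h2 := mul_nonneg (hc0 τ) (hQ0 τ)
      split_ifs with h3
      · linarith
      · push Not at h3
        have h4 : 1 / 2 * Q τ ≤ (∑ v ∈ Uᶜ, ℓ v (fib τ v)) * Q τ :=
          mul_le_mul_of_nonneg_right h3.le (hQ0 τ)
        linarith
    rw [← Finset.mul_sum] at h1
    have h5 : (7 / 8 - K ^ 2 * SX x) * A = (1 - K ^ 2 * SX x) * A - 2 * (1 / 16 * A) := by ring
    rw [h5]
    linarith
  have r3 : ∑ τ ∈ G2, Q τ * ∑ i ∈ supp τ, x i ≤ K * SX x * A :=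
    (Finset.sum_le_sum_of_subset_of_nonneg hG2s fun τ _ _ => mul_nonneg (hQ0 τ) (hs0 τ)).trans q4
  rw [← hgood]
  have t1 : ∑ τ ∈ G2, (B ^ 2 * (1 - 2 * K ^ 2 * SX x) * Q τ -
      2 * K * B ^ 2 * (Q τ * ∑ i ∈ supp τ, x i)) ≤
      ∑ τ ∈ good, zz x y (qx x U) τ ^ 2 * xwt x τ := by
    refine le_trans (Finset.sum_le_sum fun τ hτ => ?_)
      (Finset.sum_le_sum_of_subset_of_nonneg hG2s fun τ _ _ => mul_nonneg (sq_nonneg _) (hX0 τ))
    rw [hG2] at hτ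
    obtain ⟨h1, h2⟩ := Finset.mem_filter.1 hτ
    rw [hgood] at h1
    have h3 := LG5_Y hG hy0 ℓ hyg hU τ (Finset.mem_filter.1 h1).2 h2
    rw [← hB, ← hK] at h3
    have h4 := LG5_sq (Finset.prod_nonneg fun v _ => hG.g_nonneg v _) hB0 h3
    have h5 := mul_le_mul_of_nonneg_right h4 (hX0 τ)
    refine le_trans (le_of_eq ?_) h5
    rw [hQ, ← Finset.prod_pow]
    ring
  refine le_trans ?_ t1
  rw [Finset.sum_sub_distrib, ← Finset.mul_sum, ← Finset.mul_sum]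
  have hB2 : 0 ≤ B ^ 2 := sq_nonneg _
  have hKS : 0 ≤ 2 * K ^ 2 * SX x := mul_nonneg (mul_nonneg zero_le_two (sq_nonneg _)) hSX
  have u1 := mul_le_mul_of_nonneg_left r2 hB2
  have u2 := mul_le_mul_of_nonneg_left r1 (mul_nonneg hB2 hKS)
  have u3 := mul_le_mul_of_nonneg_left r3 (mul_nonneg (mul_nonneg zero_le_two hK0) hB2)
  have e5 : (7 / 8 - 5 * K ^ 2 * SX x) * (A * B ^ 2) =
      B ^ 2 * ((7 / 8 - K ^ 2 * SX x) * A) - B ^ 2 * (2 * K ^ 2 * SX x) * A -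
        2 * K * B ^ 2 * (K * SX x * A) := by ring
  have e6 : B ^ 2 * (1 - 2 * K ^ 2 * SX x) * ∑ τ ∈ G2, Q τ =
      B ^ 2 * ∑ τ ∈ G2, Q τ - B ^ 2 * (2 * K ^ 2 * SX x) * ∑ τ ∈ G2, Q τ := by ring
  rw [e5, e6]
  linarith

end Pool.Agent.Wd33b62
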