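import Pool.Agent.W_d33b62_h36.LDefs

/-!
# The Gram inequalities (helper36, MP_d33b62_nt)
-/

set_option autoImplicit false

noncomputable section

open Finset

namespace Pool.Agent.Wd33b62

variable {ι V : Type} [Fintype ι] [DecidableEq ι] [Fintype V] [DecidableEq V]

omit [Fintype ι] [Fintype V] [DecidableEq V] in
/-- The restriction of a labeling to a set of places. -/
def LB1_res (κ : ι → Option V) (S : Finset ι) : ι → Option V := fun i => if i ∈ S then κ i else none

omit [Fintype V] [DecidableEq V] in
theorem LB1_supp_res (κ : ι → Option V) {S : Finset ι} (hS : S ⊆ supp κ) :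
    supp (LB1_res κ S) = S := by
  ext i
  have h0 : i ∈ supp (LB1_res κ S) ↔ LB1_res κ S i ≠ none := by simp [supp]
  rw [h0]
  unfold LB1_res
  constructor
  · intro h
    by_contra hi
    rw [if_neg hi] at h
    exact h rfl
  · intro h
    rw [if_pos h]
    have h1 := hS h
    simpa [supp] using h1

theorem LB1_sum_dn (κ : ι → Option V) (F : (ι → Option V) → ℝ) :
    ∑ τ ∈ dn κ, F τ = ∑ S ∈ (supp κ).powerset, F (LB1_res κ S) := by
  classical
  symm
  refine Finset.sum_bij' (fun S _ => LB1_res κ S) (fun τ _ => supp τ) ?_ ?_ ?_ ?_ ?_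
  · intro S _
    simp only [dn, Finset.mem_filter, Finset.mem_univ, true_and]
    intro i
    unfold LB1_res
    split_ifs
    · exact Or.inr rfl
    · exact Or.inl rfl
  · intro τ hτ
    simp only [dn, Finset.mem_filter, Finset.mem_univ, true_and] at hτ
    rw [Finset.mem_powerset]
    intro i hi
    simp only [supp, Finset.mem_filter, Finset.mem_univ, true_and] at hi ⊢
    rcases hτ i with h | h
    · exact absurd h hi
    · rwa [← h]
  · intro S hS
    exact LB1_supp_res κ (Finset.mem_powerset.1 hS)
  · intro τ hτ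
    simp only [dn, Finset.mem_filter, Finset.mem_univ, true_and] at hτ
    funext i
    unfold LB1_res
    by_cases hi : τ i = none
    · rw [if_neg, hi]
      simp [supp, hi]
    · rw [if_pos (by simp [supp, hi])]
      rcases hτ i with h | h
      · exact absurd h hi
      · exact h.symm
  · intro S _
    rfl

/-- **Expansion in the centred basis.** For `i ∈ supp κ`:
`x i - [c i = κ i] = (x i - q i (κ i)) - ([c i = κ i] - q i (κ i))`; expand the product over subsets `S` of `supp κ`
(`Finset.prod_sub` type identity); `S` corresponds to the restriction `τ` of `κ` to `S`. -/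
theorem FF_expand (x : ι → ℝ) (y : (ι → Option V) → ℝ) (q : ι → V → ℝ) (c : ι → Option V) :
    FF x y c = ∑ τ : ι → Option V, (-1) ^ (supp τ).card * zz x y q τ * phi q τ c := by
  classical
  have h1 : ∀ τ : ι → Option V, (-1) ^ (supp τ).card * zz x y q τ * phi q τ c =
      ∑ κ : ι → Option V, if Sub τ κ then (-1) ^ (supp τ).card *
        (y κ * ∏ i ∈ supp κ \ supp τ, (x i - qv q i (κ i))) * phi q τ c else 0 := by
    intro τ
    unfold zz up
    rw [Finset.mul_sum, Finset.sum_mul, Finset.sum_filter]
  simp only [h1]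
  rw [Finset.sum_comm]
  unfold FF
  refine Finset.sum_congr rfl fun κ _ => ?_
  have h2 : (∑ τ : ι → Option V, if Sub τ κ then (-1) ^ (supp τ).card *
        (y κ * ∏ i ∈ supp κ \ supp τ, (x i - qv q i (κ i))) * phi q τ c else 0) =
      ∑ τ ∈ dn κ, (-1) ^ (supp τ).card *
        (y κ * ∏ i ∈ supp κ \ supp τ, (x i - qv q i (κ i))) * phi q τ c := by
    unfold dn
    rw [Finset.sum_filter]
  rw [h2, LB1_sum_dn]
  have h3 : ∏ i ∈ supp κ, (x i - if c i = κ i then (1 : ℝ) else 0) =
      ∏ i ∈ supp κ, ((x i - qv q i (κ i)) - ((if c i = κ i then 1 else 0) - qv q i (κ i))) :=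
    Finset.prod_congr rfl fun i _ => by ring
  rw [h3, Finset.prod_sub, Finset.mul_sum]
  refine Finset.sum_congr rfl fun S hS => ?_
  rw [LB1_supp_res κ (Finset.mem_powerset.1 hS)]
  have h4 : phi q (LB1_res κ S) c = ∏ i ∈ S, ((if c i = κ i then 1 else 0) - qv q i (κ i)) := by
    unfold phi
    rw [LB1_supp_res κ (Finset.mem_powerset.1 hS)]
    refine Finset.prod_congr rfl fun i hi => ?_
    unfold LB1_res
    rw [if_pos hi]
  rw [h4]
  ring

end Pool.Agent.Wd33b62
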