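import Pool.Agent.W_d33b62_h36.LDefs

/-!
# Conditioning, tilting, and the sieve majorants (helper36, MP_d33b62_nt)
-/

set_option autoImplicit false

noncomputable section

open Finset

namespace Pool.Agent.Wd33b62

variable {ι V : Type} [Fintype ι] [DecidableEq ι] [Fintype V] [DecidableEq V]

omit [Fintype ι] [DecidableEq ι] in
private theorem LH1_q2none (q : ι → V → ℝ) (U : Finset V) (c : ι → Option V) (i : ι)
    (hc : c i = none) (hs : ∑ u, q1 q U i u < 1) :
    (1 - ∑ u, q1 q U i u) * (1 - ∑ v, q2 q U c i v) = 1 - ∑ v, q i v := by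
  have h1 : (1 - ∑ u, q1 q U i u) ≠ 0 := by
    have : 0 < 1 - ∑ u, q1 q U i u := by linarith
    exact this.ne'
  have h2 : ∑ v, q2 q U c i v = (∑ v, if v ∈ U then q i v else 0) / (1 - ∑ u, q1 q U i u) := by
    rw [Finset.sum_div]
    refine Finset.sum_congr rfl fun v _ => ?_
    unfold q2
    by_cases hv : v ∈ U
    · rw [if_pos ⟨hv, hc⟩, if_pos hv]
    · rw [if_neg (fun h => hv h.1), if_neg hv, zero_div]
  have h3 : ∑ v, q i v = ∑ u, q1 q U i u + ∑ v, (if v ∈ U then q i v else 0) := by
    rw [← Finset.sum_add_distrib]
    refine Finset.sum_congr rfl fun v _ => ?_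
    unfold q1
    by_cases hv : v ∈ U
    · rw [if_pos hv, if_pos hv, zero_add]
    · rw [if_neg hv, if_neg hv, add_zero]
  rw [h2, h3]
  field_simp
  ring

omit [Fintype ι] [DecidableEq ι] in
private theorem LH1_q2some (q : ι → V → ℝ) (U : Finset V) (c : ι → Option V) (i : ι)
    (hc : c i ≠ none) (v : V) : q2 q U c i v = 0 := by
  unfold q2
  rw [if_neg (fun h => hc h.2)]

private theorem LH1_pv (q : ι → V → ℝ) (U : Finset V) (c : ι → Option V) (i : ι)
    (hs : ∑ u, q1 q U i u < 1) :
    pv q i (c i) = pv (q1 q U) i (era U c i) * pv (q2 q U (era U c)) i (kee U c i) := by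
  rcases hci : c i with _ | v
  · have h1 : era U c i = none := by
      unfold era
      rw [hci]
      rfl
    have h2 : kee U c i = none := by
      unfold kee
      rw [hci]
      rfl
    rw [h1, h2]
    show 1 - ∑ v, q i v = (1 - ∑ u, q1 q U i u) * (1 - ∑ v, q2 q U (era U c) i v)
    rw [LH1_q2none q U (era U c) i h1 hs]
  · by_cases hv : v ∈ U
    · have h1 : era U c i = none := by
        unfold era
        rw [hci]
        simp [Option.filter, hv]
      have h2 : kee U c i = some v := by
        unfold kee
        rw [hci]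
        simp [Option.filter, hv]
      rw [h1, h2]
      show q i v = (1 - ∑ u, q1 q U i u) * q2 q U (era U c) i v
      unfold q2
      rw [if_pos ⟨hv, h1⟩]
      have h3 : (1 - ∑ u, q1 q U i u) ≠ 0 := by
        have : 0 < 1 - ∑ u, q1 q U i u := by linarith
        exact this.ne'
      field_simp
    · have h1 : era U c i = some v := by
        unfold era
        rw [hci]
        simp [Option.filter, hv]
      have h2 : kee U c i = none := by
        unfold kee
        rw [hci]
        simp [Option.filter, hv]
      rw [h1, h2]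
      show q i v = q1 q U i v * (1 - ∑ v, q2 q U (era U c) i v)
      have h3 : ∑ v, q2 q U (era U c) i v = 0 :=
        Finset.sum_eq_zero fun w _ => LH1_q2some q U (era U c) i (by rw [h1]; simp) w
      rw [h3]
      unfold q1
      rw [if_neg hv]
      ring

omit [Fintype ι] [DecidableEq ι] [Fintype V] in
private theorem LH1_inj (U : Finset V) :
    Function.Injective fun c : ι → Option V => (era U c, kee U c) := by
  intro c d h
  have h1 := congrArg Prod.fst h
  have h2 := congrArg Prod.snd h
  funext i
  have h3 := congrFun h1 i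
  have h4 := congrFun h2 i
  simp only [era, kee] at h3 h4
  rcases hc : c i with _ | v <;> rcases hd : d i with _ | w
  · rfl
  · rw [hc, hd] at h3 h4
    by_cases hw : w ∈ U <;> simp [Option.filter, hw] at h3 h4
  · rw [hc, hd] at h3 h4
    by_cases hv : v ∈ U <;> simp [Option.filter, hv] at h3 h4
  · rw [hc, hd] at h3 h4
    by_cases hv : v ∈ U <;> by_cases hw : w ∈ U <;> simp [Option.filter, hv, hw] at h3 h4
    · rw [h4]
    · rw [h3]

private theorem LH1_zero (q : ι → V → ℝ) (U : Finset V) (c d : ι → Option V)
    (h : (c, d) ∉ Set.range fun c : ι → Option V => (era U c, kee U c)) :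
    prb (q1 q U) c * prb (q2 q U c) d = 0 := by
  by_contra hne
  apply h
  have h1 : prb (q1 q U) c ≠ 0 := left_ne_zero_of_mul hne
  have h2 : prb (q2 q U c) d ≠ 0 := right_ne_zero_of_mul hne
  have h1' : ∀ i, pv (q1 q U) i (c i) ≠ 0 := fun i => Finset.prod_ne_zero_iff.1 h1 i (mem_univ i)
  have h2' : ∀ i, pv (q2 q U c) i (d i) ≠ 0 := fun i => Finset.prod_ne_zero_iff.1 h2 i (mem_univ i)
  refine ⟨fun i => (c i).or (d i), ?_⟩
  have key : ∀ i, era U (fun i => (c i).or (d i)) i = c i ∧ kee U (fun i => (c i).or (d i)) i = d i := by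
    intro i
    have a := h1' i
    have b := h2' i
    rcases hc : c i with _ | v <;> rcases hd : d i with _ | w
    · constructor <;> simp [era, kee, hc, hd]
    · rw [hd] at b
      have hw : w ∈ U := by
        by_contra hw
        apply b
        show q2 q U c i w = 0
        unfold q2
        rw [if_neg (fun h => hw h.1)]
      constructor <;> simp [era, kee, hc, hd, Option.filter, hw]
    · rw [hc] at a
      have hv : v ∉ U := by
        intro hv
        apply a
        show q1 q U i v = 0
        unfold q1
        rw [if_pos hv]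
      constructor <;> simp [era, kee, hc, hd, Option.filter, hv]
    · exfalso
      rw [hd] at b
      apply b
      show q2 q U c i w = 0
      exact LH1_q2some q U c i (by rw [hc]; simp) w
  exact Prod.ext (funext fun i => (key i).1) (funext fun i => (key i).2)

/-- **Conditioning on the labels outside of `U`.**

Proof. A labeling `c` corresponds to the pair `(c₁, c₂) = (era U c, kee U c)`: labelings with labels outside of `U` resp. in
`U` with disjoint supports. `prb q c = prb (q1 q U) c₁ * prb (q2 q U c₁) c₂`: at a place with label `v ∉ U`: `q i v * 1`; with a label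
`u ∈ U`: `(1 - s) * (q i u / (1 - s))`, `s = ∑_{v ∉ U} q i v`; with no label: `(1 - s) * (1 - ∑_{u ∈ U} q i u / (1 - s))`. Pairs
`(c₁, c₂)` with overlapping supports or with labels of the wrong kind have probability `0` on the right. -/
theorem cond (q : ι → V → ℝ) (U : Finset V) (hs : ∀ i, ∑ u, q1 q U i u < 1)
    (G H : (ι → Option V) → ℝ) :
    Ex q (fun c => G (era U c) * H (kee U c)) = Ex (q1 q U) (fun c => G c * Ex (q2 q U c) H) := by
  have hR : Ex (q1 q U) (fun c => G c * Ex (q2 q U c) H) =
      ∑ p : (ι → Option V) × (ι → Option V),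
        prb (q1 q U) p.1 * prb (q2 q U p.1) p.2 * (G p.1 * H p.2) := by
    unfold Ex
    rw [Fintype.sum_prod_type]
    refine Finset.sum_congr rfl fun c _ => ?_
    show prb (q1 q U) c * (G c * ∑ d, prb (q2 q U c) d * H d) =
      ∑ d, prb (q1 q U) c * prb (q2 q U c) d * (G c * H d)
    rw [Finset.mul_sum, Finset.mul_sum]
    refine Finset.sum_congr rfl fun d _ => ?_
    ring
  rw [hR]
  unfold Ex
  refine Fintype.sum_of_injective (fun c : ι → Option V => (era U c, kee U c)) (LH1_inj U) _ _ ?_ ?_
  · rintro ⟨c, d⟩ h
    show prb (q1 q U) c * prb (q2 q U c) d * (G c * H d) = 0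
    rw [LH1_zero q U c d h, zero_mul]
  · intro c
    show prb q c * (G (era U c) * H (kee U c)) =
      prb (q1 q U) (era U c) * prb (q2 q U (era U c)) (kee U c) * (G (era U c) * H (kee U c))
    congr 1
    unfold prb
    rw [← Finset.prod_mul_distrib]
    exact Finset.prod_congr rfl fun i _ => LH1_pv q U c i (hs i)

end Pool.Agent.Wd33b62
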