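import Pool.Agent.W_d33b62_h36.LA1
import Pool.Agent.W_d33b62_h36.LB1
import Pool.Agent.W_d33b62_h36.LH1

/-!
# Conditioning, tilting, and the sieve majorants (helper36, MP_d33b62_nt)
-/

set_option autoImplicit false

noncomputable section

open Finset

namespace Pool.Agent.Wd33b62

variable {ι V : Type} [Fintype ι] [DecidableEq ι] [Fintype V] [DecidableEq V]

/-- **The abstract lower bound.** `v₁` is the label of the combinatorial sieve, `v₀` a label of probability `0`.
`cond` with `U = {v₁}`; `era {v₀, v₁} c = era {v₀} (era {v₁} c)`; the inner expectation is at least `β`, the other factor is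
`≥ 0` and under `q1 q {v₁}` the label `v₀` does not occur (`era_of_prb`, `Ex_congr`). -/
theorem low_cond (x : ι → ℝ) (y : (ι → Option V) → ℝ) (q : ι → V → ℝ) (hq : QOK q) (v₀ v₁ : V)
    (h0 : ∀ i, q i v₀ = 0) (hs : ∀ i, ∑ u, q1 q {v₁} i u < 1) (H : (ι → Option V) → ℝ) (β : ℝ)
    (hβ : ∀ c, β ≤ Ex (q2 q {v₁} c) H) :
    β * Ex (q1 q {v₁}) (fun c => FF x y c ^ 2) ≤
      Ex q (fun c => FF x y (era {v₀, v₁} c) ^ 2 * H (kee {v₁} c)) := by
  have hera : ∀ c : ι → Option V, era {v₀, v₁} c = era {v₀} (era {v₁} c) := by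
    intro c
    funext i
    unfold era
    cases hi : c i with
    | none => rfl
    | some v =>
      by_cases h1 : v = v₁
      · simp [Option.filter, h1]
      · by_cases h2 : v = v₀
        · subst h2
          simp [Option.filter, h1]
        · simp [Option.filter, h1, h2]
  have hq1 : QOK (q1 q {v₁}) := by
    refine ⟨fun i v => ?_, fun i => (hs i).le⟩
    unfold q1
    split_ifs
    · exact le_rfl
    · exact hq.1 i v
  have h1 : Ex q (fun c => FF x y (era {v₀, v₁} c) ^ 2 * H (kee {v₁} c)) =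
      Ex (q1 q {v₁}) (fun c => FF x y (era {v₀} c) ^ 2 * Ex (q2 q {v₁} c) H) := by
    rw [← cond q {v₁} hs (fun c => FF x y (era {v₀} c) ^ 2) H]
    unfold Ex
    refine Finset.sum_congr rfl fun c _ => ?_
    simp only [hera]
  have h2 : β * Ex (q1 q {v₁}) (fun c => FF x y c ^ 2) =
      Ex (q1 q {v₁}) (fun c => FF x y (era {v₀} c) ^ 2 * β) := by
    have h3 : Ex (q1 q {v₁}) (fun c => FF x y (era {v₀} c) ^ 2 * β) =
        Ex (q1 q {v₁}) (fun c => FF x y c ^ 2 * β) := by
      refine Ex_congr fun c hc => ?_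
      rw [era_of_prb (U := {v₀}) (fun i v hv => ?_) c hc]
      rw [Finset.mem_singleton] at hv
      subst hv
      unfold q1
      split_ifs
      · rfl
      · exact h0 i
    rw [h3]
    unfold Ex
    rw [Finset.mul_sum]
    refine Finset.sum_congr rfl fun c _ => ?_
    ring
  rw [h1, h2]
  exact Ex_mono hq1 fun c => mul_le_mul_of_nonneg_left (hβ c) (sq_nonneg _)

end Pool.Agent.Wd33b62
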