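import Pool.Agent.W_d33b62_h36.AR1c
import Pool.Agent.W_d33b62_h36.AR4c
import Pool.Agent.W_d33b62_h36.AR6b
import Pool.Agent.W_d33b62_h36.LG5
import Pool.Agent.W_d33b62_h36.LH7

/-!
# The sum over the primes with the lower bound sieve (helper36, MP_d33b62_nt)
-/

set_option autoImplicit false

noncomputable section

open Finset Filter

namespace Pool.Agent.Wd33b62

open Pool.Agent.Wb58c63 (PI mem_PI VP ap Pr XM)

variable {D0 : ℕ} {z : ℝ}

private theorem AR6c_prod {k : ℕ} (a c : ℝ) (f : VV k → ℝ) (hl : ∀ i, f (Sum.inl i) = a)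
    (hr : ∀ x, f (Sum.inr x) = c) (W : Finset (VV k)) :
    ∏ v ∈ W, f v = a ^ W.toLeft.card * c ^ W.toRight.card := by
  rw [Finset.prod_sum_eq_prod_toLeft_mul_prod_toRight]
  rw [Finset.prod_congr rfl (fun i _ => hl i), Finset.prod_congr rfl (fun i _ => hr i),
    Finset.prod_const, Finset.prod_const]

private theorem AR6c_AA (x : Pl D0 z → ℝ) (E : ℝ) : AA x (gX true E) = BB x (gX true E) := by
  unfold AA BB
  exact Finset.sum_congr rfl fun S _ => by rw [gX_sq]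

/-- The products for `U = {inl i, inr x}`. -/
theorem AR6c_U2 {k : ℕ} (d : AData k) (η τ : ℝ) (L : ℕ) (Y : ℝ) (i : Fin k) (w : Fin k × Fin k) :
    (∏ v ∈ ({Sum.inl i, Sum.inr w} : Finset (VV k))ᶜ, AA (xY d η Y) (gY d η τ L Y v)) *
      (∏ u ∈ ({Sum.inl i, Sum.inr w} : Finset (VV k)), BB (xY d η Y) (gY d η τ L Y u)) ^ 2 =
      A0 d η L Y ^ (k - 1) * B0 d η L Y ^ 2 * G0 d η τ Y ^ (k ^ 2 + 1) := by
  have hk : 1 ≤ k := Nat.one_le_iff_ne_zero.2 fun h0 => by subst h0; exact i.elim0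
  rw [AR6c_prod (A0 d η L Y) (G0 d η τ Y) (fun v => AA (xY d η Y) (gY d η τ L Y v)) (fun _ => rfl)
    (fun _ => AR6c_AA _ _)]
  rw [AR6c_prod (B0 d η L Y) (G0 d η τ Y) (fun v => BB (xY d η Y) (gY d η τ L Y v)) (fun _ => rfl)
    (fun _ => rfl)]
  have e1 : (({Sum.inl i, Sum.inr w} : Finset (VV k))ᶜ).toLeft = {i}ᶜ := by
    ext x
    simp
  have e2 : (({Sum.inl i, Sum.inr w} : Finset (VV k))ᶜ).toRight = {w}ᶜ := by
    ext x
    simp
  have e3 : ({Sum.inl i, Sum.inr w} : Finset (VV k)).toLeft = {i} := by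
    ext x
    simp
  have e4 : ({Sum.inl i, Sum.inr w} : Finset (VV k)).toRight = {w} := by
    ext x
    simp
  rw [e1, e2, e3, e4, Finset.card_compl, Finset.card_compl, Finset.card_singleton,
    Finset.card_singleton, Fintype.card_fin, Fintype.card_prod, Fintype.card_fin]
  have h1 : 1 ≤ k * k := Nat.mul_pos hk hk
  have h2 : k ^ 2 + 1 = (k * k - 1) + 2 := by
    rw [pow_two]
    omega
  rw [h2, pow_add]
  ring

private theorem AR6c_fib {ι V : Type} [Fintype ι] [DecidableEq ι] [DecidableEq V] (c : ι → Option V) (v : V) :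
    fib (kee {v} c) v = fib c v := by
  ext i
  unfold fib kee
  simp only [Finset.mem_filter, Finset.mem_univ, true_and]
  cases c i with
  | none => simp
  | some w =>
    simp only [Option.filter_some, Finset.mem_singleton]
    by_cases h : w = v
    · simp [h]
    · simp [h]

/-- **The main term of the expectation.** -/
theorem AR6c_core (k : ℕ) (hk : 0 < k) (L : ℕ) (η τ : ℝ) (d : AData k) (Y : ℝ)
    (hD : 48 * Fintype.card (VV k) ^ 2 ≤ d.D0) (hR : 1 < RR η Y) (hE : 1 ≤ EE η τ k Y)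
    (hM : (k - 1 : ℝ) * ∑ S : Finset (PY d η Y), Real.log (nmS S) / Real.log (RR η Y) *
        gS L (RR η Y) S ^ 2 * ∏ p ∈ S, xY d η Y p ≤ 1 / 16 * A0 d η L Y) (i : Fin k) (x : Fin k × Fin k) :
    1 / 2 * (A0 d η L Y ^ (k - 1) * B0 d η L Y ^ 2 * G0 d η τ Y ^ (k ^ 2 + 1)) ≤
      Ex (q1 (qP d (ZZ η Y) i) {Sum.inr x}) (fun c => FF (xY d η Y) (yY d η τ L Y) c ^ 2) := by
  classical
  obtain ⟨K, hK⟩ : ∃ K : ℕ, K = Fintype.card (VV k) := ⟨_, rfl⟩
  have hKk : K = k + k ^ 2 := by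
    rw [hK]
    simp only [VV, Fintype.card_sum, Fintype.card_fin, Fintype.card_prod]
    ring
  have hK1 : 1 ≤ K := by
    have : 1 ≤ k ^ 2 := Nat.one_le_iff_ne_zero.2 (by positivity)
    omega
  have hKR : (1 : ℝ) ≤ K := by exact_mod_cast hK1
  rw [← hK] at hD
  have hD1 : 1 ≤ d.D0 := le_trans (by norm_num) d.D0_ge
  have hDK : k + k ^ 2 + 1 ≤ d.D0 := by
    rw [← hKk]
    nlinarith
  have hD0 : (0 : ℝ) < d.D0 := by exact_mod_cast hD1
  have hDR : 48 * (K : ℝ) ^ 2 ≤ d.D0 := by exact_mod_cast hD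
  have hG : GH (xY d η Y) (gY d η τ L Y) := GH_gw hD1 L (RR η Y) (EE η τ k Y)
  have hSX : SX (xY d η Y) ≤ 1 / (d.D0 : ℝ) := SX_xr_le hD1
  have hSX0 : 0 ≤ SX (xY d η Y) := Finset.sum_nonneg fun p _ => sq_nonneg _
  have hxle : ∀ p, xY d η Y p ≤ 1 / (d.D0 : ℝ) := fun p => xr_le hD1 p
  obtain ⟨s, hs⟩ : ∃ s, s = SX (xY d η Y) := ⟨_, rfl⟩
  have hKs : (K : ℝ) ^ 2 * s ≤ 1 / 48 := by
    rw [hs]
    have h1 : (K : ℝ) ^ 2 * SX (xY d η Y) ≤ (K : ℝ) ^ 2 * (1 / (d.D0 : ℝ)) :=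
      mul_le_mul_of_nonneg_left hSX (sq_nonneg _)
    refine h1.trans ?_
    rw [mul_one_div, div_le_div_iff₀ hD0 (by norm_num)]
    linarith
  have hs0 : 0 ≤ s := by rw [hs]; exact hSX0
  have hKs1 : (K : ℝ) * s ≤ 1 / 48 := by
    have : (K : ℝ) * s ≤ (K : ℝ) ^ 2 * s :=
      mul_le_mul_of_nonneg_right (by nlinarith) hs0
    linarith
  have hq := qP_QH d (ZZ η Y) i x hDK
  have hy0 : ∀ κ, 0 ≤ yY d η τ L Y κ := fun κ => yw_nonneg L (RR η Y) (EE η τ k Y) κ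
  have hy : ∀ κ, yY d η τ L Y κ ≤ ∏ v, gY d η τ L Y v (fib κ v) := fun κ => yw_le L (RR η Y) (EE η τ k Y) κ
  have h1 := GW_low hG (by norm_num : (0 : ℝ) ≤ 2) hq.2.2 hy0 hy (by
    intro p
    have h2 := hxle p
    have h3 : 0 < xY d η Y p := hG.x_pos p
    rw [← hK]
    have h4 : (2 + (K : ℝ) * (1 + 2)) * xY d η Y p ≤ (2 + (K : ℝ) * (1 + 2)) * (1 / (d.D0 : ℝ)) :=
      mul_le_mul_of_nonneg_left h2 (by positivity)
    refine h4.trans ?_
    rw [mul_one_div, div_le_one hD0]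
    nlinarith)
  have hA1 : ∀ v, 1 ≤ AA (xY d η Y) (gY d η τ L Y v) := by
    intro v
    refine one_le_AA hD1 _ ?_
    cases v with
    | inl j => exact (one_le_pow₀ (by norm_num)).trans (gS_empty L (RR η Y) hR.le).ge
    | inr j => exact (gX_empty _ _ hE).ge
  have h2 := TLow (U := ({Sum.inl i, Sum.inr x} : Finset (VV k))) hG hy0
    (fun v S => cost (RR η Y) v S) (fun v S => cost_nonneg (RR η Y) hR v S) (by
      intro κ hκ
      show _ ≤ yw L (RR η Y) (EE η τ k Y) κ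
      unfold yw
      rw [if_pos hκ]
      exact le_rfl) (by
      intro S hS
      have h3 : ∑ u ∈ ({Sum.inl i, Sum.inr x} : Finset (VV k)), cost (RR η Y) u (S u) =
          cost (RR η Y) (Sum.inl i : VV k) (S (Sum.inl i)) + cost (RR η Y) (Sum.inr x : VV k) (S (Sum.inr x)) :=
        Finset.sum_pair (by simp)
      rw [h3]
      have h4 : cost (RR η Y) (Sum.inr x : VV k) (S (Sum.inr x)) = 0 := rfl
      rw [h4, add_zero]
      have h5 := hS (Sum.inl i) (by simp)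
      have h6 := gS_ne_zero L (RR η Y) hR.le (S (Sum.inl i)) h5
      show Real.log (nmS (S (Sum.inl i))) / Real.log (RR η Y) ≤ 1 / 2
      have h7 : 0 < Real.log (RR η Y) := Real.log_pos hR
      rw [div_le_iff₀ h7]
      have h8 : 0 < nmS (S (Sum.inl i)) := Finset.prod_pos fun p _ => (mem_PS.1 p.2).1.pos
      have h9 : Real.log (nmS (S (Sum.inl i))) ≤ Real.log ((RR η Y) ^ (1 / 2 : ℝ)) :=
        Real.log_le_log (by exact_mod_cast h8) h6
      rw [Real.log_rpow (by linarith)] at h9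
      exact h9) (fun v => lt_of_lt_of_le one_pos (hA1 v)) (by
      have hA0 : 0 < A0 d η L Y := lt_of_lt_of_le one_pos (hA1 (Sum.inl i))
      obtain ⟨B, hB⟩ : ∃ B, B = ∑ S : Finset (PY d η Y), Real.log (nmS S) / Real.log (RR η Y) *
        gS L (RR η Y) S ^ 2 * ∏ p ∈ S, xY d η Y p := ⟨_, rfl⟩
      rw [← hB] at hM
      have e1 : ∀ v : VV k, (∑ S : Finset (PY d η Y), cost (RR η Y) v S * gY d η τ L Y v S ^ 2 *
          ∏ p ∈ S, xY d η Y p) / AA (xY d η Y) (gY d η τ L Y v) =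
          if v.isLeft then B / A0 d η L Y else 0 := by
        intro v
        cases v with
        | inl j =>
          rw [if_pos (by simp), hB]
          rfl
        | inr j =>
          rw [if_neg (by simp)]
          have : ∑ S : Finset (PY d η Y), cost (RR η Y) (Sum.inr j : VV k) S *
              gY d η τ L Y (Sum.inr j) S ^ 2 * ∏ p ∈ S, xY d η Y p = 0 :=
            Finset.sum_eq_zero fun S _ => by
              have : cost (RR η Y) (Sum.inr j : VV k) S = 0 := rfl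
              rw [this]
              ring
          rw [this, zero_div]
      rw [Finset.sum_congr rfl fun v _ => e1 v]
      rw [← Finset.sum_filter, Finset.sum_const, nsmul_eq_mul]
      have e2 : ((({Sum.inl i, Sum.inr x} : Finset (VV k))ᶜ).filter fun v => v.isLeft = true).card = k - 1 := by
        have e3 : (({Sum.inl i, Sum.inr x} : Finset (VV k))ᶜ).filter (fun v => v.isLeft = true) =
            ({i}ᶜ : Finset (Fin k)).image Sum.inl := by
          ext v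
          cases v with
          | inl j => simp
          | inr j => simp
        rw [e3, Finset.card_image_of_injective _ Sum.inl_injective, Finset.card_compl, Finset.card_singleton,
          Fintype.card_fin]
      rw [e2, Nat.cast_sub hk, Nat.cast_one, ← mul_div_assoc, div_le_iff₀ hA0]
      exact hM)
  rw [AR6c_U2 d η τ L Y i x] at h1 h2
  obtain ⟨P, hP⟩ : ∃ P, P = A0 d η L Y ^ (k - 1) * B0 d η L Y ^ 2 * G0 d η τ Y ^ (k ^ 2 + 1) := ⟨_, rfl⟩
  rw [← hP] at h1 h2 ⊢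
  have hP0 : 0 ≤ P := by
    rw [hP]
    have a1 : 0 ≤ A0 d η L Y := le_trans zero_le_one (hA1 (Sum.inl i))
    have a3 : 0 ≤ G0 d η τ Y :=
      le_trans zero_le_one (one_le_BB hD1 _ (gX_nonneg _ _) (gX_empty _ _ hE).ge)
    positivity
  refine le_trans ?_ h1
  rw [← hK, ← hs] at h2 ⊢
  have h3 : Real.exp ((K : ℝ) * 2 * s) - 1 ≤ 2 * ((K : ℝ) * 2 * s) := by
    have h4 : |(K : ℝ) * 2 * s| ≤ 1 := by
      rw [abs_of_nonneg (by positivity)]
      linarith
    have h5 := Real.abs_exp_sub_one_le h4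
    rw [abs_of_nonneg (show 0 ≤ (K : ℝ) * 2 * s by positivity)] at h5
    exact (le_abs_self _).trans h5
  have h6 : 2 * (Real.exp ((K : ℝ) * 2 * s) - 1) + (2 + (K : ℝ) * (1 + 2)) * ((K : ℝ) * s) +
      5 * (K : ℝ) ^ 2 * s ≤ 3 / 8 := by
    have h7 : (2 + (K : ℝ) * (1 + 2)) * ((K : ℝ) * s) = 2 * ((K : ℝ) * s) + 3 * ((K : ℝ) ^ 2 * s) := by ring
    have h8 : 5 * (K : ℝ) ^ 2 * s = 5 * ((K : ℝ) ^ 2 * s) := by ring
    have h9 : (K : ℝ) * 2 * s = 2 * ((K : ℝ) * s) := by ring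
    rw [h9] at h3
    rw [h7, h8, h9]
    linarith
  nlinarith [mul_le_mul_of_nonneg_right h6 hP0]

/-- **The model expectation.** `low_cond` with `v₀ = inl i`, `v₁ = inr x`, `β = √η / 2 V0` (`Ex_Lm_ge`; `Lm (kee {v₁} c) = Lm c`);
`GW_low` for `q1 (qP) {inr x}` (`C = 2`) and `TLow` with the cost `cost`: `hU` since `gS ≠ 0` implies cost `≤ 1 / 2` (`gS_ne_zero`), `hM`: the sum
over `v ∈ Uᶜ` is `(k - 1)` times the quotient of `hM` (the labels `inr` have cost `0`). For `D0 ≥ D1`: `SX ≤ 1 / D0`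
(`SX_xr_le`) makes all error factors small: `7 / 8 - small ≥ 1 / 2`. `prodU2`. -/
theorem Ex_S2_ge (k : ℕ) (hk : 0 < k) (L : ℕ) (η τ : ℝ) (hη : 0 < η) (hη1 : η ≤ 1 / 200) (hτ : 0 < τ) (hτ1 : τ ≤ 1) :
    ∃ θ : ℝ, 0 < θ ∧ ∃ D1 : ℕ, ∀ d : AData k, D1 ≤ d.D0 →
      (∀ᶠ Y : ℝ in atTop, (k - 1 : ℝ) * ∑ S : Finset (PY d η Y), Real.log (nmS S) / Real.log (RR η Y) *
        gS L (RR η Y) S ^ 2 * ∏ p ∈ S, xY d η Y p ≤ 1 / 16 * A0 d η L Y) →
      ∀ᶠ Y : ℝ in atTop, ∀ (i : Fin k) (x : Fin k × Fin k),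
        √η / 4 * V0 d η Y * (A0 d η L Y ^ (k - 1) * B0 d η L Y ^ 2 * G0 d η τ Y ^ (k ^ 2 + 1)) ≤
          Ex (qP d (ZZ η Y) i) (fun c => FF (xY d η Y) (yY d η τ L Y) (era {Sum.inl i, Sum.inr x} c) ^ 2 *
            Lm θ (DD η Y) (Sum.inr x) c) := by
  classical
  obtain ⟨θ, hθ, D1, h1⟩ := Ex_Lm_ge k η hη hη1
  obtain ⟨c0, C0, hc0, hC0, h2⟩ := v0_bounds
  obtain ⟨D2, h2⟩ := h2 k
  refine ⟨θ, hθ, max (max D1 D2) (max (48 * Fintype.card (VV k) ^ 2) (k + k ^ 2 + 1)), fun d hd hM => ?_⟩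
  have hd1 : D1 ≤ d.D0 := le_trans (le_trans (le_max_left _ _) (le_max_left _ _)) hd
  have hd2 : D2 ≤ d.D0 := le_trans (le_trans (le_max_right _ _) (le_max_left _ _)) hd
  have hd3 : 48 * Fintype.card (VV k) ^ 2 ≤ d.D0 := le_trans (le_trans (le_max_left _ _) (le_max_right _ _)) hd
  have hd4 : k + k ^ 2 + 1 ≤ d.D0 := le_trans (le_trans (le_max_right _ _) (le_max_right _ _)) hd
  filter_upwards [h1 d hd1, hM, (tendsto_rpow_atTop hη).eventually_gt_atTop 1,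
    (tendsto_rpow_atTop (y := η * τ ^ 2 / (k : ℝ) ^ 2) (by positivity)).eventually_ge_atTop 1] with Y m1 m2 m3 m4 i x
  have hV : 0 < V0 d η Y := (h2 d hd2 η Y).2.2
  have hq := qP_QH d (ZZ η Y) i x hd4
  have h3 := low_cond (xY d η Y) (yY d η τ L Y) (qP d (ZZ η Y) i) hq.1 (Sum.inl i) (Sum.inr x)
    (by
      intro p
      unfold qP
      rw [if_pos rfl]) hq.2.1 (Lm θ (DD η Y) (Sum.inr x)) (√η / 2 * V0 d η Y) (fun c => m1 i x c)
  have h4 : ∀ c : PY d η Y → Option (VV k), Lm θ (DD η Y) (Sum.inr x : VV k) (kee {Sum.inr x} c) =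
      Lm θ (DD η Y) (Sum.inr x) c := by
    intro c
    unfold Lm
    rw [AR6c_fib]
  simp only [h4] at h3
  refine le_trans ?_ h3
  have h5 := AR6c_core k hk L η τ d Y hd3 m3 m4 m2 i x
  have h6 := mul_le_mul_of_nonneg_left h5 (show 0 ≤ √η / 2 * V0 d η Y by positivity)
  refine le_trans (le_of_eq ?_) h6
  ring

end Pool.Agent.Wd33b62
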