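import Pool.Agent.W_d33b62_h36.BV2

/-!
# Bombieri-Vinogradov with arbitrary savings and divisor weights (helper36, MP_d33b62_nt)
-/

set_option autoImplicit false

noncomputable section

open Finset

namespace Pool.Agent.Wd33b62

open Pool.Agent.Wb58c63 (TT prim Er Sd XM ap aw Pr)

private theorem BV3_finite (b M : ℕ) :
    ∑ m ∈ (Icc 1 M).filter Squarefree, (b : ℝ) ^ m.primeFactors.card / (m.totient : ℝ) ≤
      ∏ p ∈ (range (M + 1)).filter Nat.Prime, (1 + (b : ℝ) / ((p : ℝ) - 1)) := by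
  classical
  have hg : ∀ m ∈ (Icc 1 M).filter Squarefree,
      (b : ℝ) ^ m.primeFactors.card / (m.totient : ℝ) =
        ∏ p ∈ m.primeFactors, (b : ℝ) / ((p : ℝ) - 1) := by
    intro m hm
    obtain ⟨hm1, hm2⟩ := mem_filter.1 hm
    have h1 : (m.totient : ℝ) = ∏ p ∈ m.primeFactors, ((p : ℝ) - 1) := by
      have h2 : m.totient = ∏ p ∈ m.primeFactors, (p - 1) := by
        conv_lhs => rw [← Nat.prod_primeFactors_of_squarefree hm2]
        have key : ∀ s : Finset ℕ, (∀ p ∈ s, p.Prime) →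
            (∏ p ∈ s, p).totient = ∏ p ∈ s, (p - 1) := by
          intro s
          induction s using Finset.induction_on with
          | empty => simp
          | insert a s ha ih =>
            intro hs
            rw [Finset.prod_insert ha, Finset.prod_insert ha, Nat.totient_mul,
              Nat.totient_prime (hs a (Finset.mem_insert_self _ _)),
              ih (fun p hp => hs p (Finset.mem_insert_of_mem hp))]
            apply Nat.Coprime.prod_right
            intro p hp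
            rw [Nat.coprime_primes (hs a (Finset.mem_insert_self _ _))
              (hs p (Finset.mem_insert_of_mem hp))]
            rintro rfl
            exact ha hp
        exact key _ (fun p hp => Nat.prime_of_mem_primeFactors hp)
      rw [h2, Nat.cast_prod]
      refine Finset.prod_congr rfl fun p hp => ?_
      have := (Nat.prime_of_mem_primeFactors hp).one_le
      rw [Nat.cast_sub this, Nat.cast_one]
    rw [h1, ← Finset.prod_const, ← Finset.prod_div_distrib]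
  rw [Finset.sum_congr rfl hg]
  have hinj : ∀ m ∈ (Icc 1 M).filter Squarefree, ∀ n ∈ (Icc 1 M).filter Squarefree,
      m.primeFactors = n.primeFactors → m = n := by
    intro m hm n hn h
    rw [← Nat.prod_primeFactors_of_squarefree (mem_filter.1 hm).2,
      ← Nat.prod_primeFactors_of_squarefree (mem_filter.1 hn).2, h]
  rw [← Finset.sum_image (f := fun s : Finset ℕ => ∏ p ∈ s, (b : ℝ) / ((p : ℝ) - 1))
    (g := Nat.primeFactors) hinj, Finset.prod_one_add]
  apply Finset.sum_le_sum_of_subset_of_nonneg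
  · intro s hs
    obtain ⟨m, hm, rfl⟩ := Finset.mem_image.1 hs
    rw [Finset.mem_powerset]
    intro p hp
    have h1 := Nat.le_of_mem_primeFactors hp
    have h2 := (Finset.mem_Icc.1 (mem_filter.1 hm).1).2
    exact mem_filter.2 ⟨Finset.mem_range.2 (by omega), Nat.prime_of_mem_primeFactors hp⟩
  · intro s hs _
    apply Finset.prod_nonneg
    intro p hp
    have h1 := (mem_filter.1 ((Finset.mem_powerset.1 hs) hp)).2.one_le
    have h2 : (1 : ℝ) ≤ p := by exact_mod_cast h1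
    exact div_nonneg (Nat.cast_nonneg b) (by linarith)

/-- `∑_{m ≤ M, squarefree} b ^ ω(m) / φ(m) ≤ ∏_{p ≤ M} (1 + b / (p - 1)) ≤ C (log Y) ^ b` for `M ≤ Y`, `Y ≥ 3` (`mertens_two'`). -/
theorem sum_pow_omega_phi (b : ℕ) : ∃ C : ℝ, 0 < C ∧ ∀ (Y : ℝ) (M : ℕ), 3 ≤ Y → (M : ℝ) ≤ Y →
    ∑ m ∈ (Icc 1 M).filter Squarefree, (b : ℝ) ^ m.primeFactors.card / (m.totient : ℝ) ≤ C * Real.log Y ^ b := by
  obtain ⟨C, hC, h⟩ := Pool.Agent.Wb58c63.mertens_two'
  have hl2 : 0 < Real.log 2 := Real.log_pos one_lt_two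
  refine ⟨(2 / Real.log 2) ^ b * Real.exp (b * (C / Real.log 2)), by positivity, fun Y M hY hM => ?_⟩
  refine (BV3_finite b M).trans ?_
  have hlY : 0 < Real.log Y := Real.log_pos (by linarith)
  have h1 : ∏ p ∈ (range (M + 1)).filter Nat.Prime, (1 + (b : ℝ) / ((p : ℝ) - 1)) ≤
      Real.exp (∑ p ∈ (range (M + 1)).filter Nat.Prime, (b : ℝ) / ((p : ℝ) - 1)) := by
    rw [Real.exp_sum]
    apply Finset.prod_le_prod
    · intro p hp
      have h2 : (1 : ℝ) ≤ p := by exact_mod_cast (mem_filter.1 hp).2.one_le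
      have h3 : 0 ≤ (b : ℝ) / ((p : ℝ) - 1) := div_nonneg (Nat.cast_nonneg b) (by linarith)
      linarith
    · intro p hp
      have := Real.add_one_le_exp ((b : ℝ) / ((p : ℝ) - 1))
      linarith
  refine h1.trans ?_
  have h2 : ∑ p ∈ (range (M + 1)).filter Nat.Prime, (b : ℝ) / ((p : ℝ) - 1) ≤
      b * (Real.log (Real.log (Y + 1) / Real.log 2) + C / Real.log 2) := by
    have h3 := h 2 (Y + 1) le_rfl (by linarith)
    calc ∑ p ∈ (range (M + 1)).filter Nat.Prime, (b : ℝ) / ((p : ℝ) - 1)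
        = b * ∑ p ∈ (range (M + 1)).filter Nat.Prime, 1 / ((p : ℝ) - 1) := by
          rw [Finset.mul_sum]
          refine Finset.sum_congr rfl fun p _ => ?_
          ring
      _ ≤ b * ∑ p ∈ Pool.Agent.Wb58c63.PI 2 (Y + 1), 1 / ((p : ℝ) - 1) := by
          apply mul_le_mul_of_nonneg_left _ (Nat.cast_nonneg b)
          apply Finset.sum_le_sum_of_subset_of_nonneg
          · intro p hp
            obtain ⟨hp1, hp2⟩ := mem_filter.1 hp
            rw [Pool.Agent.Wb58c63.mem_PI]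
            refine ⟨hp2, by exact_mod_cast hp2.two_le, ?_⟩
            have h4 : (p : ℝ) ≤ M := by
              have := Finset.mem_range.1 hp1
              exact_mod_cast (by omega : p ≤ M)
            linarith
          · intro p hp _
            have h2 := ((Pool.Agent.Wb58c63.mem_PI).1 hp).2.1
            exact div_nonneg zero_le_one (by linarith)
      _ ≤ _ := mul_le_mul_of_nonneg_left h3 (Nat.cast_nonneg b)
  refine (Real.exp_le_exp.2 h2).trans ?_
  have h4 : 0 < Real.log (Y + 1) := Real.log_pos (by linarith)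
  have h5 : Real.log (Y + 1) ≤ 2 * Real.log Y := by
    have h6 : Real.log (Y ^ 2) = 2 * Real.log Y := by rw [Real.log_pow]; norm_num
    rw [← h6]
    exact Real.log_le_log (by linarith) (by nlinarith)
  rw [mul_add, Real.exp_add]
  have h6 : Real.exp (b * Real.log (Real.log (Y + 1) / Real.log 2)) = (Real.log (Y + 1) / Real.log 2) ^ b := by
    rw [mul_comm, Real.exp_mul, Real.exp_log (by positivity), Real.rpow_natCast]
  rw [h6]
  have h7 : (Real.log (Y + 1) / Real.log 2) ^ b ≤ (2 / Real.log 2) ^ b * Real.log Y ^ b := by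
    rw [← mul_pow]
    apply pow_le_pow_left₀ (by positivity)
    rw [div_mul_eq_mul_div]
    exact div_le_div_of_nonneg_right h5 hl2.le
  calc (Real.log (Y + 1) / Real.log 2) ^ b * Real.exp (b * (C / Real.log 2)) ≤
      ((2 / Real.log 2) ^ b * Real.log Y ^ b) * Real.exp (b * (C / Real.log 2)) :=
        mul_le_mul_of_nonneg_right h7 (Real.exp_pos _).le
    _ = _ := by ring

/-- `φ (a b) ≤ (a + 1) φ (b)` -/
private theorem BV3_tot (a c : ℕ) (hc : 0 < c) : (a * c).totient ≤ (a + 1) * c.totient := by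
  have h1 := Nat.Ico_filter_coprime_le (a := c) 0 (a * c) hc.ne'
  have h2 : (a * c).totient ≤ (((Ico 0 (0 + a * c)).filter (Nat.Coprime c)).card) := by
    rw [Nat.totient_eq_card_coprime, Nat.zero_add]
    apply Finset.card_le_card
    intro x hx
    obtain ⟨hx1, hx2⟩ := mem_filter.1 hx
    refine mem_filter.2 ⟨?_, ?_⟩
    · rw [Finset.mem_Ico]
      exact ⟨Nat.zero_le _, Finset.mem_range.1 hx1⟩
    · exact Nat.Coprime.coprime_mul_left hx2
  have h3 : a * c / c = a := Nat.mul_div_cancel _ hc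
  rw [h3] at h1
  calc (a * c).totient ≤ _ := h2
    _ ≤ _ := h1
    _ = _ := by ring

/-- one term -/
private theorem BV3_term (b : ℕ) (hb : 1 ≤ b) (W : ℕ) (hW : 0 < W) (r m : ℕ) (hr : 0 < r)
    (hm : 0 < m) (hsq : Squarefree m) (hcop : m.Coprime W) (hdvd : r ∣ W * m) :
    (r / r.gcd W) ∣ m ∧ Squarefree (m / (r / r.gcd W)) ∧
    (b : ℝ) ^ m.primeFactors.card * (1 / ((W * m).totient : ℝ)) ≤
      ((W : ℝ) + 1) * ((b : ℝ) ^ r.primeFactors.card / (r.totient : ℝ)) *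
        ((b : ℝ) ^ (m / (r / r.gcd W)).primeFactors.card / ((m / (r / r.gcd W)).totient : ℝ)) := by
  obtain ⟨g, hg⟩ : ∃ g, g = r.gcd W := ⟨_, rfl⟩
  rw [← hg]
  have hg0 : 0 < g := by rw [hg]; exact Nat.gcd_pos_of_pos_left _ hr
  have hgr : g ∣ r := by rw [hg]; exact Nat.gcd_dvd_left _ _
  have hgW : g ∣ W := by rw [hg]; exact Nat.gcd_dvd_right _ _
  obtain ⟨r', hr'⟩ := hgr
  obtain ⟨W', hW'⟩ := hgW
  have hrg : r / g = r' := by rw [hr']; exact Nat.mul_div_cancel_left _ hg0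
  have hWg : W / g = W' := by rw [hW']; exact Nat.mul_div_cancel_left _ hg0
  rw [hrg]
  have hr'0 : 0 < r' := by
    rcases Nat.eq_zero_or_pos r' with h | h
    · rw [h, Nat.mul_zero] at hr'; omega
    · exact h
  have hc : r'.Coprime W' := by
    have := Nat.coprime_div_gcd_div_gcd (m := r) (n := W) (by rw [← hg]; exact hg0)
    rw [← hg, hrg, hWg] at this
    exact this
  have h1 : r' ∣ m := by
    have h2 : g * r' ∣ g * (W' * m) := by
      rw [← hr', ← mul_assoc, ← hW']; exact hdvd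
    have h3 : r' ∣ W' * m := Nat.dvd_of_mul_dvd_mul_left hg0 h2
    exact hc.dvd_of_dvd_mul_left h3
  obtain ⟨m', hm'⟩ := h1
  have hmr : m / r' = m' := by rw [hm']; exact Nat.mul_div_cancel_left _ hr'0
  rw [hmr]
  have hm'0 : 0 < m' := by
    rcases Nat.eq_zero_or_pos m' with h | h
    · rw [h, Nat.mul_zero] at hm'; omega
    · exact h
  have hsq' := hsq
  rw [hm', Nat.squarefree_mul_iff] at hsq'
  obtain ⟨hco, hsr, hsm⟩ := hsq'
  refine ⟨⟨m', hm'⟩, hsm, ?_⟩
  have hφW : (W * m).totient = W.totient * (r'.totient * m'.totient) := by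
    rw [Nat.totient_mul hcop.symm, hm', Nat.totient_mul hco]
  have hWt : 1 ≤ W.totient := Nat.totient_pos.2 hW
  have hr't : 0 < r'.totient := Nat.totient_pos.2 hr'0
  have hm't : 0 < m'.totient := Nat.totient_pos.2 hm'0
  have hrt : 0 < r.totient := Nat.totient_pos.2 hr
  have hφr : r.totient ≤ (W + 1) * r'.totient := by
    calc r.totient = (g * r').totient := by rw [hr']
      _ ≤ (g + 1) * r'.totient := BV3_tot g r' hr'0
      _ ≤ (W + 1) * r'.totient := by
        apply Nat.mul_le_mul_right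
        have : g ≤ W := Nat.le_of_dvd hW (by rw [hg]; exact Nat.gcd_dvd_right _ _)
        omega
  have hω : m.primeFactors.card = r'.primeFactors.card + m'.primeFactors.card := by
    rw [hm', hco.primeFactors_mul, Finset.card_union_of_disjoint hco.disjoint_primeFactors]
  have hωr : r'.primeFactors.card ≤ r.primeFactors.card := by
    apply Finset.card_le_card
    apply Nat.primeFactors_mono ⟨g, by rw [hr']; ring⟩ hr.ne'
  have hb1 : (1 : ℝ) ≤ b := by exact_mod_cast hb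
  have e1 : (b : ℝ) ^ m.primeFactors.card ≤ (b : ℝ) ^ r.primeFactors.card * (b : ℝ) ^ m'.primeFactors.card := by
    rw [hω, pow_add]
    apply mul_le_mul_of_nonneg_right _ (by positivity)
    exact pow_le_pow_right₀ hb1 hωr
  have e2 : 1 / ((W * m).totient : ℝ) ≤ ((W : ℝ) + 1) / ((r.totient : ℝ) * (m'.totient : ℝ)) := by
    have hposr : (0 : ℝ) < r.totient := by exact_mod_cast hrt
    have hposm : (0 : ℝ) < m'.totient := by exact_mod_cast hm't
    have hposr' : (0 : ℝ) < r'.totient := by exact_mod_cast hr't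
    have hposW : (1 : ℝ) ≤ W.totient := by exact_mod_cast hWt
    rw [hφW, div_le_div_iff₀ (by push_cast; positivity) (by positivity), one_mul]
    push_cast
    have h5 : (r.totient : ℝ) ≤ ((W : ℝ) + 1) * r'.totient := by exact_mod_cast hφr
    calc (r.totient : ℝ) * (m'.totient : ℝ) ≤ (((W : ℝ) + 1) * r'.totient) * (m'.totient : ℝ) :=
          mul_le_mul_of_nonneg_right h5 hposm.le
      _ = 1 * (((W : ℝ) + 1) * (r'.totient * (m'.totient : ℝ))) := by ring
      _ ≤ (W.totient : ℝ) * (((W : ℝ) + 1) * (r'.totient * (m'.totient : ℝ))) :=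
          mul_le_mul_of_nonneg_right hposW (by positivity)
      _ = _ := by ring
  calc (b : ℝ) ^ m.primeFactors.card * (1 / ((W * m).totient : ℝ)) ≤
      ((b : ℝ) ^ r.primeFactors.card * (b : ℝ) ^ m'.primeFactors.card) *
        (((W : ℝ) + 1) / ((r.totient : ℝ) * (m'.totient : ℝ))) := by
        apply mul_le_mul e1 e2 (by positivity) (by positivity)
    _ = _ := by
        have hposr : (r.totient : ℝ) ≠ 0 := by exact_mod_cast hrt.ne'
        have hposm : (m'.totient : ℝ) ≠ 0 := by exact_mod_cast hm't.ne'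
        field_simp

/-- the sum over `m` for given `r` -/
private theorem BV3_inner (b : ℕ) (hb : 1 ≤ b) (W : ℕ) (hW : 0 < W) (M r : ℕ) (hr : 0 < r) :
    ∑ m ∈ ((Icc 1 M).filter (fun m => Squarefree m ∧ m.Coprime W)).filter (fun m => r ∣ W * m),
      (b : ℝ) ^ m.primeFactors.card * (1 / ((W * m).totient : ℝ)) ≤
    ((W : ℝ) + 1) * ((b : ℝ) ^ r.primeFactors.card / (r.totient : ℝ)) *
      ∑ m ∈ (Icc 1 M).filter Squarefree, (b : ℝ) ^ m.primeFactors.card / (m.totient : ℝ) := by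
  classical
  obtain ⟨q, hq⟩ : ∃ q, q = r / r.gcd W := ⟨_, rfl⟩
  obtain ⟨F, hF⟩ : ∃ F, F = ((Icc 1 M).filter (fun m => Squarefree m ∧ m.Coprime W)).filter
      (fun m => r ∣ W * m) := ⟨_, rfl⟩
  rw [← hF]
  have hmem : ∀ m ∈ F, 0 < m ∧ m ≤ M ∧ Squarefree m ∧ m.Coprime W ∧ r ∣ W * m := by
    intro m hm
    rw [hF, mem_filter, mem_filter, mem_Icc] at hm
    exact ⟨by omega, hm.1.1.2, hm.1.2.1, hm.1.2.2, hm.2⟩
  have hterm : ∀ m ∈ F, (b : ℝ) ^ m.primeFactors.card * (1 / ((W * m).totient : ℝ)) ≤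
      ((W : ℝ) + 1) * ((b : ℝ) ^ r.primeFactors.card / (r.totient : ℝ)) *
        ((b : ℝ) ^ (m / q).primeFactors.card / ((m / q).totient : ℝ)) := by
    intro m hm
    obtain ⟨h0, h1, h2, h3, h4⟩ := hmem m hm
    rw [hq]
    exact (BV3_term b hb W hW r m hr h0 h2 h3 h4).2.2
  refine (Finset.sum_le_sum hterm).trans ?_
  rw [← Finset.mul_sum]
  apply mul_le_mul_of_nonneg_left _ (by positivity)
  have hinj : ∀ m ∈ F, ∀ n ∈ F, m / q = n / q → m = n := by
    intro m hm n hn h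
    obtain ⟨h0, h1, h2, h3, h4⟩ := hmem m hm
    obtain ⟨k0, k1, k2, k3, k4⟩ := hmem n hn
    have e1 : q ∣ m := by rw [hq]; exact (BV3_term b hb W hW r m hr h0 h2 h3 h4).1
    have e2 : q ∣ n := by rw [hq]; exact (BV3_term b hb W hW r n hr k0 k2 k3 k4).1
    rw [← Nat.div_mul_cancel e1, ← Nat.div_mul_cancel e2, h]
  rw [← Finset.sum_image (f := fun n : ℕ => (b : ℝ) ^ n.primeFactors.card / (n.totient : ℝ))
    (g := fun m => m / q) hinj]
  apply Finset.sum_le_sum_of_subset_of_nonneg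
  · intro n hn
    obtain ⟨m, hm, rfl⟩ := Finset.mem_image.1 hn
    obtain ⟨h0, h1, h2, h3, h4⟩ := hmem m hm
    have e1 : q ∣ m := by rw [hq]; exact (BV3_term b hb W hW r m hr h0 h2 h3 h4).1
    have e2 : Squarefree (m / q) := by rw [hq]; exact (BV3_term b hb W hW r m hr h0 h2 h3 h4).2.1
    have e3 : 0 < m / q := Nat.div_pos (Nat.le_of_dvd h0 e1) (Nat.pos_of_dvd_of_pos e1 h0)
    have e4 : m / q ≤ m := Nat.div_le_self _ _
    exact mem_filter.2 ⟨mem_Icc.2 ⟨e3, by omega⟩, e2⟩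
  · intro n _ _
    positivity

/-- `T(r)` -/
private def BV3T (k : ℕ) (Y : ℝ) (r : ℕ) : ℝ := ∑ χ ∈ prim r, ‖TT k Y χ‖

private theorem BV3T_nonneg (k : ℕ) (Y : ℝ) (r : ℕ) : 0 ≤ BV3T k Y r :=
  Finset.sum_nonneg fun _ _ => norm_nonneg _

private theorem BV3_TT_le (k : ℕ) (Y : ℝ) (hY : 1 ≤ Y) (r : ℕ) (χ : DirichletCharacter ℂ r) :
    ‖TT k Y χ‖ ≤ XM k Y := by
  unfold TT XM
  refine (norm_sum_le _ _).trans (Finset.sum_le_sum fun p _ => ?_)
  rw [norm_mul, Complex.norm_real, Real.norm_of_nonneg (Pool.Agent.Wb58c63.ap_nonneg k Y hY p)]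
  have h1 := DirichletCharacter.norm_le_one χ (p : ZMod r)
  have h2 := Pool.Agent.Wb58c63.ap_nonneg k Y hY p
  nlinarith

private theorem BV3_exchange (b : ℕ) (hb : 1 ≤ b) (W : ℕ) (hW : 0 < W) (k : ℕ) (Y : ℝ) (M : ℕ) :
    ∑ m ∈ (Icc 1 M).filter (fun m => Squarefree m ∧ m.Coprime W),
        (b : ℝ) ^ m.primeFactors.card * EB k Y (W * m) ≤
    ((W : ℝ) + 1) * (∑ m ∈ (Icc 1 M).filter Squarefree, (b : ℝ) ^ m.primeFactors.card / (m.totient : ℝ)) *
      ∑ r ∈ Icc 2 (W * M), (b : ℝ) ^ r.primeFactors.card / (r.totient : ℝ) * ∑ χ ∈ prim r, ‖TT k Y χ‖ := by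
  classical
  obtain ⟨F, hF⟩ : ∃ F, F = ((Icc 1 M).filter (fun m => Squarefree m ∧ m.Coprime W)) := ⟨_, rfl⟩
  rw [← hF]
  have hmem : ∀ m ∈ F, 0 < m ∧ m ≤ M := by
    intro m hm
    rw [hF, mem_filter, mem_Icc] at hm
    exact ⟨by omega, hm.1.2⟩
  have h1 : ∀ m ∈ F, (b : ℝ) ^ m.primeFactors.card * EB k Y (W * m) =
      ∑ r ∈ Icc 2 (W * M), if r ∣ W * m then
        ((b : ℝ) ^ m.primeFactors.card * (1 / ((W * m).totient : ℝ))) * BV3T k Y r else 0 := by
    intro m hm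
    obtain ⟨h0, h2⟩ := hmem m hm
    unfold EB
    rw [← mul_assoc, Finset.mul_sum, ← Finset.sum_filter]
    apply Finset.sum_congr
    · ext r
      rw [mem_filter, Nat.mem_divisors, mem_filter, mem_Icc]
      constructor
      · rintro ⟨⟨h3, h4⟩, h5⟩
        refine ⟨⟨h5, ?_⟩, h3⟩
        exact (Nat.le_of_dvd (Nat.pos_of_ne_zero h4) h3).trans (Nat.mul_le_mul_left _ h2)
      · rintro ⟨⟨h5, _⟩, h3⟩
        exact ⟨⟨h3, (Nat.mul_pos hW h0).ne'⟩, h5⟩
    · intro r _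
      rfl
  rw [Finset.sum_congr rfl h1, Finset.sum_comm, Finset.mul_sum]
  apply Finset.sum_le_sum
  intro r hr
  have hr0 : 0 < r := by have := (mem_Icc.1 hr).1; omega
  rw [← Finset.sum_filter, ← Finset.sum_mul]
  have h2 := BV3_inner b hb W hW M r hr0
  rw [← hF] at h2
  calc (∑ m ∈ F.filter (fun m => r ∣ W * m),
        (b : ℝ) ^ m.primeFactors.card * (1 / ((W * m).totient : ℝ))) * BV3T k Y r ≤
      (((W : ℝ) + 1) * ((b : ℝ) ^ r.primeFactors.card / (r.totient : ℝ)) *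
      ∑ m ∈ (Icc 1 M).filter Squarefree, (b : ℝ) ^ m.primeFactors.card / (m.totient : ℝ)) * BV3T k Y r :=
        mul_le_mul_of_nonneg_right h2 (BV3T_nonneg k Y r)
    _ = _ := by
        unfold BV3T
        ring

/-- **The form used in the sieve.**

Proof. Exchange the sums: `∑_m b ^ ω(m) / φ(W m) ∑_{r ∣ W m, r > 1} T(r)`, `T(r) = ∑_{χ ∈ prim r} ‖TT‖`. For given `r` put
`g = gcd(r, W)`, `r' = r / g`; `r ∣ W m` implies `r' ∣ m` (as `gcd(r', W / g) = 1`), `m = r' m'`; `φ(W m) = φ(W) φ(m)`,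
`φ(m) = φ(r') φ(m')`, `φ(r) ≤ g φ(r') ≤ W φ(r')`, `b ^ ω(m) ≤ b ^ ω(r) b ^ ω(m')` (`b ≥ 1`). So the sum over `m` is at most
`W / φ(r) b ^ ω(r) ∑_{m'} b ^ ω(m') / φ(m') ≤ C W (log Y) ^ b b ^ ω(r) / φ(r)` (`sum_pow_omega_phi`). `r ≤ W M ≤ Y ^ (1 / 2 - ε / 2)` for
large `Y`; `bv_strong` with `A + b` and `ε / 2`. For bounded `Y` the left side is bounded. -/
theorem BVC (A b : ℕ) (hb : 1 ≤ b) (ε : ℝ) (hε : 0 < ε) (hε1 : ε < 1 / 2) (W : ℕ) (hW : 0 < W) :
    ∃ k₀ : ℕ, ∀ k ≥ k₀, ∃ C : ℝ, 0 < C ∧ ∀ (Y : ℝ) (M : ℕ), 3 ≤ Y → (M : ℝ) ≤ Y ^ (1 / 2 - ε) →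
      ∑ m ∈ (Icc 1 M).filter (fun m => Squarefree m ∧ m.Coprime W),
        (b : ℝ) ^ m.primeFactors.card * EB k Y (W * m) ≤ C * Y / Real.log Y ^ A := by
  obtain ⟨k₀, hk₀⟩ := bv_strong (A + b) b (ε / 2) (by linarith) (by linarith)
  refine ⟨k₀, fun k hk => ?_⟩
  obtain ⟨C₁, hC₁, h1⟩ := hk₀ k hk
  obtain ⟨C₂, hC₂, h2⟩ := sum_pow_omega_phi b
  obtain ⟨C₃, hC₃, h3⟩ := Pool.Agent.Wb58c63.XM_le k
  obtain ⟨Y₁, hY₁⟩ : ∃ Y₁ : ℝ, Y₁ = max 3 ((W : ℝ) ^ (2 / ε)) := ⟨_, rfl⟩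
  have hY₁3 : 3 ≤ Y₁ := by rw [hY₁]; exact le_max_left _ _
  obtain ⟨M₁, hM₁⟩ : ∃ M₁ : ℕ, M₁ = ⌈Y₁⌉₊ := ⟨_, rfl⟩
  have hlY₁ : 0 < Real.log Y₁ := Real.log_pos (by linarith)
  have hW1 : (1 : ℝ) ≤ W := by exact_mod_cast hW
  have hb1 : (1 : ℝ) ≤ b := by exact_mod_cast hb
  -- the total count for bounded Y
  obtain ⟨K, hK⟩ : ∃ K : ℝ, K = ((W : ℝ) + 1) * C₂ * Real.log Y₁ ^ b *
      ((W * M₁ : ℕ) * ((b : ℝ) ^ (W * M₁) * C₃)) := ⟨_, rfl⟩
  have hK0 : 0 ≤ K := by rw [hK]; positivity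
  refine ⟨((W : ℝ) + 1) * C₂ * C₁ + K * Real.log Y₁ ^ A, by positivity, fun Y M hY hM => ?_⟩
  have hY0 : 0 < Y := by linarith
  have hlY : 0 < Real.log Y := Real.log_pos (by linarith)
  have hYpow : Y ^ (1 / 2 - ε) ≤ Y := by
    calc Y ^ (1 / 2 - ε) ≤ Y ^ (1 : ℝ) := Real.rpow_le_rpow_of_exponent_le (by linarith) (by linarith)
      _ = Y := Real.rpow_one Y
  have hMY : (M : ℝ) ≤ Y := hM.trans hYpow
  have hex := BV3_exchange b hb W hW k Y M
  have hs := h2 Y M hY hMY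
  have hsum0 : 0 ≤ ∑ r ∈ Icc 2 (W * M), (b : ℝ) ^ r.primeFactors.card / (r.totient : ℝ) * ∑ χ ∈ prim r, ‖TT k Y χ‖ := by
    apply Finset.sum_nonneg
    intro r _
    exact mul_nonneg (by positivity) (Finset.sum_nonneg fun _ _ => norm_nonneg _)
  have hex2 : ∑ m ∈ (Icc 1 M).filter (fun m => Squarefree m ∧ m.Coprime W),
        (b : ℝ) ^ m.primeFactors.card * EB k Y (W * m) ≤
      ((W : ℝ) + 1) * (C₂ * Real.log Y ^ b) * ∑ r ∈ Icc 2 (W * M), (b : ℝ) ^ r.primeFactors.card / (r.totient : ℝ) * ∑ χ ∈ prim r, ‖TT k Y χ‖ := by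
    refine hex.trans ?_
    apply mul_le_mul_of_nonneg_right _ hsum0
    exact mul_le_mul_of_nonneg_left hs (by positivity)
  by_cases hc : (W : ℝ) ≤ Y ^ (ε / 2)
  · have hQ : ((W * M : ℕ) : ℝ) ≤ Y ^ (1 / 2 - ε / 2) := by
      push_cast
      calc (W : ℝ) * M ≤ Y ^ (ε / 2) * Y ^ (1 / 2 - ε) :=
            mul_le_mul hc hM (Nat.cast_nonneg _) (by positivity)
        _ = Y ^ (1 / 2 - ε / 2) := by
            rw [← Real.rpow_add hY0]
            congr 1
            ring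
    have h4 := h1 Y (W * M) hY hQ
    have h5 : ((W : ℝ) + 1) * (C₂ * Real.log Y ^ b) * ∑ r ∈ Icc 2 (W * M), (b : ℝ) ^ r.primeFactors.card / (r.totient : ℝ) * ∑ χ ∈ prim r, ‖TT k Y χ‖ ≤
        ((W : ℝ) + 1) * (C₂ * Real.log Y ^ b) * (C₁ * Y / Real.log Y ^ (A + b)) :=
      mul_le_mul_of_nonneg_left h4 (by positivity)
    refine (hex2.trans h5).trans ?_
    have h6 : ((W : ℝ) + 1) * (C₂ * Real.log Y ^ b) * (C₁ * Y / Real.log Y ^ (A + b)) =
        ((W : ℝ) + 1) * C₂ * C₁ * Y / Real.log Y ^ A := by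
      rw [pow_add]
      have h7 : Real.log Y ^ b ≠ 0 := (pow_pos hlY b).ne'
      have h8 : Real.log Y ^ A ≠ 0 := (pow_pos hlY A).ne'
      field_simp
    rw [h6]
    apply div_le_div_of_nonneg_right _ (by positivity)
    apply mul_le_mul_of_nonneg_right _ hY0.le
    have : 0 ≤ K * Real.log Y₁ ^ A := by positivity
    linarith
  · push Not at hc
    have hYY₁ : Y ≤ Y₁ := by
      have h4 : (Y ^ (ε / 2)) ^ (2 / ε) ≤ (W : ℝ) ^ (2 / ε) :=
        Real.rpow_le_rpow (by positivity) hc.le (by positivity)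
      rw [← Real.rpow_mul hY0.le] at h4
      have h5 : ε / 2 * (2 / ε) = 1 := by field_simp
      rw [h5, Real.rpow_one] at h4
      rw [hY₁]
      exact h4.trans (le_max_right _ _)
    have hMM₁ : M ≤ M₁ := by
      rw [hM₁]
      have h4 : (M : ℝ) ≤ (⌈Y₁⌉₊ : ℝ) := (hMY.trans hYY₁).trans (Nat.le_ceil _)
      exact_mod_cast h4
    have h5 : ∑ r ∈ Icc 2 (W * M), (b : ℝ) ^ r.primeFactors.card / (r.totient : ℝ) * ∑ χ ∈ prim r, ‖TT k Y χ‖ ≤
        (W * M₁ : ℕ) * ((b : ℝ) ^ (W * M₁) * C₃) * Y := by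
      have h6 : ∀ r ∈ Icc 2 (W * M), (b : ℝ) ^ r.primeFactors.card / (r.totient : ℝ) * ∑ χ ∈ prim r, ‖TT k Y χ‖ ≤
          (b : ℝ) ^ (W * M₁) * C₃ * Y := by
        intro r hr
        obtain ⟨hr1, hr2⟩ := mem_Icc.1 hr
        have hr3 : r ≤ W * M₁ := hr2.trans (Nat.mul_le_mul_left _ hMM₁)
        have hrt : (0 : ℝ) < r.totient := by exact_mod_cast Nat.totient_pos.2 (by omega)
        have h7 : ∑ χ ∈ prim r, ‖TT k Y χ‖ ≤ r.totient * (C₃ * Y) := by
          calc ∑ χ ∈ prim r, ‖TT k Y χ‖ ≤ ∑ χ ∈ prim r, (C₃ * Y) :=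
                Finset.sum_le_sum fun χ _ => (BV3_TT_le k Y (by linarith) r χ).trans (h3 Y (by linarith))
            _ = (prim r).card * (C₃ * Y) := by rw [Finset.sum_const, nsmul_eq_mul]
            _ ≤ r.totient * (C₃ * Y) :=
                mul_le_mul_of_nonneg_right (Pool.Agent.Wb58c63.card_prim_le r (by omega)) (by positivity)
        have h8 : r.primeFactors.card ≤ W * M₁ := by
          have h9 : r.primeFactors ⊆ Icc 1 r := by
            intro p hp
            exact mem_Icc.2 ⟨(Nat.prime_of_mem_primeFactors hp).one_le, Nat.le_of_mem_primeFactors hp⟩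
          have h10 := Finset.card_le_card h9
          rw [Nat.card_Icc] at h10
          omega
        calc (b : ℝ) ^ r.primeFactors.card / (r.totient : ℝ) * ∑ χ ∈ prim r, ‖TT k Y χ‖ ≤
            (b : ℝ) ^ r.primeFactors.card / (r.totient : ℝ) * (r.totient * (C₃ * Y)) :=
              mul_le_mul_of_nonneg_left h7 (by positivity)
          _ = (b : ℝ) ^ r.primeFactors.card * (C₃ * Y) := by field_simp
          _ ≤ (b : ℝ) ^ (W * M₁) * (C₃ * Y) :=
              mul_le_mul_of_nonneg_right (pow_le_pow_right₀ hb1 h8) (by positivity)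
          _ = _ := by ring
      calc ∑ r ∈ Icc 2 (W * M), (b : ℝ) ^ r.primeFactors.card / (r.totient : ℝ) * ∑ χ ∈ prim r, ‖TT k Y χ‖ ≤
          ∑ r ∈ Icc 2 (W * M), (b : ℝ) ^ (W * M₁) * C₃ * Y := Finset.sum_le_sum h6
        _ = ((Icc 2 (W * M)).card : ℝ) * ((b : ℝ) ^ (W * M₁) * C₃ * Y) := by
            rw [Finset.sum_const, nsmul_eq_mul]
        _ ≤ ((W * M₁ : ℕ) : ℝ) * ((b : ℝ) ^ (W * M₁) * C₃ * Y) := by
            apply mul_le_mul_of_nonneg_right _ (by positivity)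
            have h9 : (Icc 2 (W * M)).card ≤ W * M₁ := by
              rw [Nat.card_Icc]
              have := Nat.mul_le_mul_left W hMM₁
              omega
            exact_mod_cast h9
        _ = _ := by ring
    have hlog : Real.log Y ≤ Real.log Y₁ := Real.log_le_log hY0 hYY₁
    have h6 : ((W : ℝ) + 1) * (C₂ * Real.log Y ^ b) * ∑ r ∈ Icc 2 (W * M), (b : ℝ) ^ r.primeFactors.card / (r.totient : ℝ) * ∑ χ ∈ prim r, ‖TT k Y χ‖ ≤ K * Y := by
      calc ((W : ℝ) + 1) * (C₂ * Real.log Y ^ b) * ∑ r ∈ Icc 2 (W * M), (b : ℝ) ^ r.primeFactors.card / (r.totient : ℝ) * ∑ χ ∈ prim r, ‖TT k Y χ‖ ≤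
          ((W : ℝ) + 1) * (C₂ * Real.log Y₁ ^ b) * ((W * M₁ : ℕ) * ((b : ℝ) ^ (W * M₁) * C₃) * Y) := by
            apply mul_le_mul _ h5 hsum0 (by positivity)
            apply mul_le_mul_of_nonneg_left _ (by positivity)
            apply mul_le_mul_of_nonneg_left _ hC₂.le
            exact pow_le_pow_left₀ hlY.le hlog b
        _ = K * Y := by rw [hK]; ring
    refine (hex2.trans h6).trans ?_
    rw [le_div_iff₀ (by positivity)]
    calc K * Y * Real.log Y ^ A ≤ K * Y * Real.log Y₁ ^ A :=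
          mul_le_mul_of_nonneg_left (pow_le_pow_left₀ hlY.le hlog A) (by positivity)
      _ = K * Real.log Y₁ ^ A * Y := by ring
      _ ≤ (((W : ℝ) + 1) * C₂ * C₁ + K * Real.log Y₁ ^ A) * Y := by
          apply mul_le_mul_of_nonneg_right _ hY0.le
          have : 0 ≤ ((W : ℝ) + 1) * C₂ * C₁ := by positivity
          linarith

end Pool.Agent.Wd33b62
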