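import Pool.Agent.W_b58c63_h68.ArC

/-!
# Bombieri-Vinogradov with arbitrary savings and divisor weights (helper36, MP_d33b62_nt)
-/

set_option autoImplicit false

noncomputable section

open Finset

namespace Pool.Agent.Wd33b62

open Pool.Agent.Wb58c63 (TT prim Er Sd XM ap aw Pr)

open Pool.Agent.Wb58c63 (tp l0 vY) in
theorem BV4_facts {Y : ℝ} (hY : 1 ≤ Y) : 0 < l0 ∧ l0 ≤ 1 / 2 ∧ 0 < vY Y ∧ Real.log Y ≤ vY Y := by
  have h1 : 0 < Real.log 2 := Real.log_pos (by norm_num)
  have h2 : Real.log 2 ≤ 1 := by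
    have := Real.log_two_lt_d9
    linarith
  have h3 : 0 ≤ Real.log Y := Real.log_nonneg hY
  have h4 : l0 = Real.log 2 / 2 := rfl
  have h5 : vY Y = Real.log Y + l0 := rfl
  refine ⟨?_, ?_, ?_, ?_⟩ <;> linarith

open Pool.Agent.Wb58c63 (tp l0 vY) in
theorem BV4_tp (y : ℝ) : 0 ≤ tp y ∧ tp y ≤ 1 ∧ (l0 ≤ |y| → tp y = 0) := by
  have hl : 0 < l0 := (BV4_facts le_rfl).1
  unfold Wb58c63.tp
  refine ⟨le_max_left _ _, max_le zero_le_one ?_, fun h => max_eq_left ?_⟩
  · have : 0 ≤ |y| / l0 := by positivity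
    linarith
  · have : 1 ≤ |y| / l0 := (one_le_div hl).2 h
    linarith

/-- For large `Y` (depending on `k`) the weights are at most `2` on the window: `aw k Y n ≤ 2`. -/
theorem aw_le_two (k : ℕ) : ∃ Y₀ : ℝ, 1 ≤ Y₀ ∧ ∀ Y : ℝ, Y₀ ≤ Y → ∀ n : ℕ, aw k Y n ≤ 2 := by
  refine ⟨Real.exp k, Real.one_le_exp (Nat.cast_nonneg k), fun Y hY n => ?_⟩
  have hY1 : 1 ≤ Y := (Real.one_le_exp (Nat.cast_nonneg k)).trans hY
  obtain ⟨h1, h2, h3, h4⟩ := BV4_facts hY1
  have hlog : (k : ℝ) ≤ Real.log Y := (Real.le_log_iff_exp_le (by linarith)).2 hY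
  set v := Wb58c63.vY Y with hv
  obtain ⟨t0, t1, t2⟩ := BV4_tp (Real.log n - v)
  unfold Wb58c63.aw
  by_cases hc : Wb58c63.l0 ≤ |Real.log n - v|
  · rw [← hv, t2 hc, zero_mul]
    norm_num
  · rw [not_le, abs_lt] at hc
    have hn : 0 ≤ Real.log n := Real.log_natCast_nonneg n
    have h5 : Real.log n / v ≤ 1 + Wb58c63.l0 / v := by
      rw [div_le_iff₀ h3, add_mul, one_mul, div_mul_cancel₀ _ h3.ne']
      linarith [hc.2]
    have h6 : (Real.log n / v) ^ k ≤ 2 := by
      calc (Real.log n / v) ^ k ≤ (1 + Wb58c63.l0 / v) ^ k :=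
            pow_le_pow_left₀ (by positivity) h5 k
        _ ≤ Real.exp (Wb58c63.l0 / v) ^ k := by
            refine pow_le_pow_left₀ (by positivity) ?_ k
            rw [add_comm]
            exact Real.add_one_le_exp _
        _ = Real.exp (k * (Wb58c63.l0 / v)) := (Real.exp_nat_mul _ _).symm
        _ ≤ Real.exp (Real.log 2) := by
            refine Real.exp_le_exp.2 ?_
            have h7 : Wb58c63.l0 = Real.log 2 / 2 := rfl
            have h8 : 0 ≤ Real.log 2 := (Real.log_pos (by norm_num)).le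
            rw [mul_div_assoc', div_le_iff₀ h3, h7]
            have h9 := mul_le_mul_of_nonneg_right (hlog.trans h4) h8
            nlinarith
        _ = 2 := Real.exp_log two_pos
    rw [← hv]
    calc Wb58c63.tp (Real.log n - v) * (Real.log n / v) ^ k ≤ 1 * 2 :=
          mul_le_mul t1 h6 (by positivity) zero_le_one
      _ = 2 := one_mul 2

/-- **Lower bound for the total mass with a constant which does not depend on `k`**: `ap k Y p ≥ ap 0 Y p / 2` for large `Y`
(`(log p / vY Y) ^ k ≥ 1 / 2` for `p > Y`), and `XM_ge 0`. -/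
theorem XM_ge' : ∃ c : ℝ, 0 < c ∧ ∀ k : ℕ, ∃ Y₀ : ℝ, 1 ≤ Y₀ ∧ ∀ Y : ℝ, Y₀ ≤ Y → c * Y ≤ XM k Y := by
  obtain ⟨c, Y₀, hc, hY₀, H⟩ := Wb58c63.XM_ge 0
  refine ⟨c / 2, half_pos hc, fun k => ⟨max Y₀ (Real.exp k), hY₀.trans (le_max_left _ _),
    fun Y hY => ?_⟩⟩
  have hYa : Y₀ ≤ Y := (le_max_left _ _).trans hY
  have hYb : Real.exp k ≤ Y := (le_max_right _ _).trans hY
  have hY1 : 1 ≤ Y := hY₀.trans hYa
  obtain ⟨h1, h2, h3, h4⟩ := BV4_facts hY1
  have hlog : (k : ℝ) ≤ Real.log Y := (Real.le_log_iff_exp_le (by linarith)).2 hYb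
  have h5 := H Y hYa
  have h6 : XM 0 Y / 2 ≤ XM k Y := by
    unfold Wb58c63.XM
    rw [sum_div]
    refine sum_le_sum fun p _ => ?_
    unfold Wb58c63.ap Wb58c63.aw
    set v := Wb58c63.vY Y with hv
    obtain ⟨t0, t1, t2⟩ := BV4_tp (Real.log p - v)
    have hn : 0 ≤ Real.log p := Real.log_natCast_nonneg p
    by_cases hcc : Wb58c63.l0 ≤ |Real.log p - v|
    · rw [t2 hcc]
      simp
    · rw [not_le, abs_lt] at hcc
      have h7 : 1 - Wb58c63.l0 / v ≤ Real.log p / v := by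
        rw [le_div_iff₀ h3, sub_mul, one_mul, div_mul_cancel₀ _ h3.ne']
        linarith [hcc.1]
      have h8 : Wb58c63.l0 / v ≤ 1 := by
        rw [div_le_one h3]
        have h9 : v = Real.log Y + Wb58c63.l0 := rfl
        have h10 := Real.log_nonneg hY1
        linarith
      have h9 : 1 / 2 ≤ (Real.log p / v) ^ k := by
        have h11 : (k : ℝ) * (Wb58c63.l0 / v) ≤ 1 / 2 := by
          rw [mul_div_assoc', div_le_iff₀ h3]
          have h12 := mul_le_mul_of_nonneg_left h2 (Nat.cast_nonneg (α := ℝ) k)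
          linarith
        have h13 : 0 ≤ Wb58c63.l0 / v := by positivity
        have h14 := one_add_mul_le_pow (a := -(Wb58c63.l0 / v)) (by linarith) k
        have h15 : (1 + -(Wb58c63.l0 / v)) ^ k ≤ (Real.log p / v) ^ k :=
          pow_le_pow_left₀ (by linarith) (by linarith) k
        linarith
      rw [pow_zero, mul_one]
      have h10 : 0 ≤ Wb58c63.tp (Real.log p - v) * Real.log p := mul_nonneg t0 hn
      have h11 := mul_le_mul_of_nonneg_left h9 h10
      calc Wb58c63.tp (Real.log p - v) * Real.log p / 2 =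
          Wb58c63.tp (Real.log p - v) * Real.log p * (1 / 2) := by ring
        _ ≤ Wb58c63.tp (Real.log p - v) * Real.log p * (Real.log p / v) ^ k := h11
        _ = Wb58c63.tp (Real.log p - v) * (Real.log p / v) ^ k * Real.log p := by ring
  linarith

end Pool.Agent.Wd33b62
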