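import Pool.Agent.W_d33b62_h36.AR2b
import Pool.Agent.W_d33b62_h36.AR3a
import Pool.Agent.W_d33b62_h36.AR3c
import Pool.Agent.W_d33b62_h36.AR6c
import Pool.Agent.W_d33b62_h36.BV3
import Pool.Agent.W_d33b62_h36.BV4
import Pool.Agent.W_d33b62_h36.LA2

/-!
# The sum over the primes with the lower bound sieve (helper36, MP_d33b62_nt)
-/

set_option autoImplicit false

noncomputable section

open Finset Filter

namespace Pool.Agent.Wd33b62

open Pool.Agent.Wb58c63 (PI mem_PI VP ap Pr XM)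

private theorem AR6d_conv_van {ι V : Type} [Fintype ι] [DecidableEq ι] [Fintype V] [DecidableEq V]
    {α β : (ι → Option V) → ℝ} {p : ι} {w : V}
    (hα : ∀ τ : ι → Option V, τ p = some w → α τ = 0)
    (hβ : ∀ τ : ι → Option V, τ p = some w → β τ = 0)
    (σ : ι → Option V) (h : σ p = some w) : conv α β σ = 0 := by
  classical
  unfold conv
  refine Finset.sum_eq_zero fun σ₁ h₁ => Finset.sum_eq_zero fun σ₂ h₂ => ?_
  split_ifs with hu
  · have hp : p ∈ supp σ := by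
      unfold supp
      rw [mem_filter, h]
      exact ⟨mem_univ _, by simp⟩
    rw [← hu, Finset.mem_union] at hp
    have hs1 : Sub σ₁ σ := (mem_filter.1 h₁).2
    have hs2 : Sub σ₂ σ := (mem_filter.1 h₂).2
    rcases hp with hp | hp
    · have h3 : σ₁ p ≠ none := (mem_filter.1 hp).2
      have h4 := (hs1 p).resolve_left h3
      rw [hα σ₁ (h4.trans h), zero_mul]
    · have h3 : σ₂ p ≠ none := (mem_filter.1 hp).2
      have h4 := (hs2 p).resolve_left h3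
      rw [hβ σ₂ (h4.trans h), mul_zero]
  · rfl

private theorem AR6d_qwt {k : ℕ} (d : AData k) (z : ℝ) (i : Fin k) (σ : Pl d.D0 z → Option (VV k))
    (h : ∀ p, σ p ≠ some (Sum.inl i)) :
    qwt (qP d z i) σ = ∏ p ∈ supp σ, 1 / ((p.1 : ℝ) - 1) := by
  unfold qwt
  rw [← Finset.prod_subset (Finset.subset_univ (supp σ))]
  · refine Finset.prod_congr rfl fun p hp => ?_
    rcases hs : σ p with _ | v
    · exact absurd hs (mem_filter.1 hp).2
    · show qP d z i p v = _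
      unfold qP
      rw [if_neg]
      rintro rfl
      exact h p hs
  · intro p _ hp
    rcases hs : σ p with _ | v
    · rfl
    · exfalso
      apply hp
      unfold supp
      rw [mem_filter, hs]
      exact ⟨mem_univ _, by simp⟩

/-- **The sum over the primes.**

Proof. The function `G c = FF (era U c) ^ 2 * Lm c` has the expansion `α = conv (conv α₁ α₁) (aLm)`,
`α₁ σ = [no label in U] lam σ` (`FF_hasExp`, `HasExp.era`, `HasExp.mul`, `Lm_hasExp`); `Bd α (Y ^ (4 η) DD) ((log Y) ^ (4 K)) 10`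
(`Bd_lam`, `Bd.ite`, `conv_bd`, `Bd_aLm`), `Y ^ (4 η) DD = Y ^ (1 / 2 - 2 η)`; `α` vanishes on labelings with the label `inl i`. `tr_prime`:
main term `XM / φ(W) * ∑ α σ ∏ 1 / (p - 1) = XM / φ(W) * Ex (qP) G`; error at most `(log Y) ^ (4 K) C Y / (log Y) ^ A`, `A = 4 K + 2`
(`sum_EB_le`, `BVC` with `b = 10 K`, `ε = 2 η`). `Ex_S2_ge`, `XM_ge'`; the main term is at least `c Y / log Y` by `V0_weak` and
`A0, B0, G0 ≥ 1`, so the error is at most half of it for large `Y`. -/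
theorem S2_ge : ∃ c2 : ℝ, 0 < c2 ∧ ∀ (k : ℕ), 0 < k → ∀ (L : ℕ) (η τ : ℝ), 0 < η → η ≤ 1 / 200 → 0 < τ → τ ≤ 1 →
    ∃ θ : ℝ, 0 < θ ∧ ∃ D1 : ℕ, ∀ d : AData k, D1 ≤ d.D0 →
      (∀ᶠ Y : ℝ in atTop, (k - 1 : ℝ) * ∑ S : Finset (PY d η Y), Real.log (nmS S) / Real.log (RR η Y) *
        gS L (RR η Y) S ^ 2 * ∏ p ∈ S, xY d η Y p ≤ 1 / 16 * A0 d η L Y) →
      ∃ κ : ℕ, ∀ᶠ Y : ℝ in atTop, ∀ i j : Fin k,
        c2 * √η * (Y / (d.W.totient : ℝ)) * V0 d η Y *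
          (A0 d η L Y ^ (k - 1) * B0 d η L Y ^ 2 * G0 d η τ Y ^ (k ^ 2 + 1)) ≤
          ∑ p ∈ Pd d i Y, ap κ Y p * (FF (xY d η Y) (yY d η τ L Y)
            (era {Sum.inl i, Sum.inr (i, j)} (cY d η Y (p - d.h i))) ^ 2 *
              Lm θ (DD η Y) (Sum.inr (i, j)) (cY d η Y (p - d.h i))) := by
  obtain ⟨c, hc, hXM'⟩ := XM_ge'
  refine ⟨c / 8, by positivity, fun k hk L η τ hη hη1 hτ hτ1 => ?_⟩
  obtain ⟨θ, hθ, D1, hEx⟩ := Ex_S2_ge k hk L η τ hη hη1 hτ hτ1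
  obtain ⟨D2, hV0⟩ := V0_weak (k := k)
  refine ⟨θ, hθ, max D1 D2, fun d hd hmom => ?_⟩
  have hd1 : D1 ≤ d.D0 := (le_max_left _ _).trans hd
  have hd2 : D2 ≤ d.D0 := (le_max_right _ _).trans hd
  have hcard : 1 ≤ 10 * Fintype.card (VV k) := by
    have : 0 < Fintype.card (VV k) := Fintype.card_pos_iff.2 ⟨Sum.inl ⟨0, hk⟩⟩
    omega
  obtain ⟨κ, hκ⟩ := BVC (4 * (k + k ^ 2) + 2) (10 * Fintype.card (VV k)) hcard (2 * η) (by linarith)
    (by linarith) d.W d.W_pos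
  obtain ⟨C, hC, hBV⟩ := hκ κ le_rfl
  obtain ⟨Y₀, hY₀, hXM⟩ := hXM' κ
  have hφ : (0 : ℝ) < (d.W.totient : ℝ) := by exact_mod_cast Nat.totient_pos.2 d.W_pos
  have hsq : 0 < √η := Real.sqrt_pos.2 hη
  have hlogev : ∀ᶠ Y : ℝ in atTop, 8 * C * (d.W.totient : ℝ) / (c * √η) ≤ Real.log Y :=
    Real.tendsto_log_atTop.eventually_ge_atTop _
  refine ⟨κ, ?_⟩
  filter_upwards [hEx d hd1 hmom, hV0 d hd2 η hη hη1, Bd_lam hk L η τ hη hη1 hτ hτ1 d,
    eventually_ge_atTop Y₀, eventually_ge_atTop (3 : ℝ), eventually_ge_atTop (d.D0 : ℝ), hlogev]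
    with Y hE hV hB hYY hY3 hYD hlog i j
  have hY1 : 1 ≤ Y := by linarith
  have hY1' : 1 < Y := by linarith
  have hY0 : 0 < Y := by linarith
  have hlY : 0 < Real.log Y := Real.log_pos hY1'
  have hD1 : 1 ≤ d.D0 := le_trans (by norm_num) d.D0_ge
  obtain ⟨z, hz⟩ : ∃ z, z = ZZ η Y := ⟨_, rfl⟩
  have hzD : ZZ η Y ≤ DD η Y := by
    unfold ZZ DD
    refine Real.rpow_le_rpow_of_exponent_le hY1 ?_
    rw [div_le_iff₀ (by linarith)]
    nlinarith
  have hDY : DD η Y ≤ Y := by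
    unfold DD
    calc Y ^ (1 / 2 - 6 * η) ≤ Y ^ (1 : ℝ) := Real.rpow_le_rpow_of_exponent_le hY1 (by linarith)
      _ = Y := Real.rpow_one Y
  have hDD1 : 1 < DD η Y := by
    unfold DD
    exact Real.one_lt_rpow hY1' (by linarith)
  -- the expansion
  obtain ⟨a1, ha1, h1, hB1⟩ : ∃ a1 : (PY d η Y → Option (VV k)) → ℝ,
      (∀ τ' p v, τ' p = some v → v ∈ ({Sum.inl i, Sum.inr (i, j)} : Finset (VV k)) → a1 τ' = 0) ∧
      HasExp (fun c => FF (xY d η Y) (yY d η τ L Y) (era {Sum.inl i, Sum.inr (i, j)} c)) a1 ∧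
      Bd a1 (Y ^ (2 * η)) (Real.log Y ^ (2 * (k + k ^ 2))) 1 := by
    refine ⟨_, ?_, (FF_hasExp (xY d η Y) (yY d η τ L Y)).era {Sum.inl i, Sum.inr (i, j)}, ?_⟩
    · intro τ' p v hv hv'
      show (if _ then _ else _) = _
      rw [if_neg]
      intro h
      exact h p v hv hv'
    · convert Bd.ite hB (by positivity) zero_le_one (fun σ => ∀ (p : PY d η Y) (v : VV k),
        σ p = some v → v ∉ ({Sum.inl i, Sum.inr (i, j)} : Finset (VV k)))
  have h2 := (h1.mul h1).mul (Lm_hasExp (D0 := d.D0) (z := ZZ η Y) θ (DD η Y) (Sum.inr (i, j) : VV k))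
  have hB2 := conv_bd hB1 hB1 (by positivity) (by positivity) zero_le_one (by positivity) zero_le_one
  have hB3 := conv_bd hB2 (Bd_aLm (D0 := d.D0) (z := ZZ η Y) θ (DD η Y) hθ.le hDD1 hzD
    (Sum.inr (i, j) : VV k)) (by positivity) (by positivity) (by positivity) zero_le_one zero_le_one
  obtain ⟨α, hα⟩ : ∃ α, α = conv (conv a1 a1)
    (aLm (D0 := d.D0) (z := ZZ η Y) θ (DD η Y) (Sum.inr (i, j) : VV k)) := ⟨_, rfl⟩
  rw [← hα] at h2 hB3
  have hvan : ∀ σ, α σ ≠ 0 → ∀ p, σ p ≠ some (Sum.inl i) := by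
    intro σ hσ p hp
    apply hσ
    rw [hα]
    refine AR6d_conv_van (p := p) (w := Sum.inl i) ?_ ?_ σ hp
    · intro τ' hτ'
      exact AR6d_conv_van (p := p) (w := Sum.inl i) (fun τ'' hτ'' => ha1 τ'' p _ hτ'' (by simp))
        (fun τ'' hτ'' => ha1 τ'' p _ hτ'' (by simp)) τ' hτ'
    · intro τ' hτ'
      unfold aLm
      rw [if_neg]
      rintro ⟨h, -⟩
      have := h p _ hτ'
      simp at this
  have hBd : Bd α (Y ^ (1 / 2 - 2 * η)) (Real.log Y ^ (4 * (k + k ^ 2))) ((10 : ℕ) : ℝ) := by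
    have e1 : Y ^ (2 * η) * Y ^ (2 * η) * DD η Y = Y ^ (1 / 2 - 2 * η) := by
      unfold DD
      rw [← Real.rpow_add hY0, ← Real.rpow_add hY0]
      congr 1
      ring
    have e2 : Real.log Y ^ (2 * (k + k ^ 2)) * Real.log Y ^ (2 * (k + k ^ 2)) * 1 =
        Real.log Y ^ (4 * (k + k ^ 2)) := by
      rw [mul_one, ← pow_add]
      congr 1
      ring
    have e3 : ((1 + (1 + 1) * (1 + 1)) * (1 + 1) : ℝ) = ((10 : ℕ) : ℝ) := by norm_num
    rw [← e1, ← e2, ← e3]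
    exact hB3
  -- transfer
  have hT := tr_prime d (ZZ η Y) κ Y i hY1 (hzD.trans hDY) hYD α hvan
  have hmain : ∑ σ, α σ * ∏ p ∈ supp σ, 1 / ((p.1 : ℝ) - 1) =
      Ex (qP d (ZZ η Y) i) (fun c => FF (xY d η Y) (yY d η τ L Y) (era {Sum.inl i, Sum.inr (i, j)} c) ^ 2 *
            Lm θ (DD η Y) (Sum.inr (i, j)) c) := by
    have h3 := Ex_of_hasExp (qP d (ZZ η Y) i) h2
    have h4 : (fun c => FF (xY d η Y) (yY d η τ L Y) (era {Sum.inl i, Sum.inr (i, j)} c) ^ 2 *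
            Lm θ (DD η Y) (Sum.inr (i, j)) c) = (fun c => FF (xY d η Y) (yY d η τ L Y)
            (era {Sum.inl i, Sum.inr (i, j)} c) * FF (xY d η Y) (yY d η τ L Y)
            (era {Sum.inl i, Sum.inr (i, j)} c) * Lm θ (DD η Y) (Sum.inr (i, j)) c) := by
      funext c
      rw [pow_two]
    rw [h4, h3]
    refine sum_congr rfl fun σ _ => ?_
    by_cases hσ : α σ = 0
    · rw [hσ, zero_mul, zero_mul]
    · rw [AR6d_qwt d (ZZ η Y) i σ (hvan σ hσ)]
  have hsum : ∑ p ∈ Pd d i Y, ap κ Y p * ∑ σ ∈ dn (cc d (ZZ η Y) (p - d.h i)), α σ =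
      ∑ p ∈ Pd d i Y, ap κ Y p * (FF (xY d η Y) (yY d η τ L Y)
            (era {Sum.inl i, Sum.inr (i, j)} (cY d η Y (p - d.h i))) ^ 2 *
              Lm θ (DD η Y) (Sum.inr (i, j)) (cY d η Y (p - d.h i))) := by
    refine sum_congr rfl fun p _ => congrArg (fun t : ℝ => ap κ Y p * t) ?_
    rw [← h2 (cc d (ZZ η Y) (p - d.h i)), pow_two]
    rfl
  have hErr : ∑ σ, |α σ| * EB κ Y (d.W * nm σ) ≤ C * Y / Real.log Y ^ 2 := by
    have h3 := sum_EB_le α (Y ^ (1 / 2 - 2 * η)) (Real.log Y ^ (4 * (k + k ^ 2))) 10 (by norm_num)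
      (by positivity) hBd d.W (fun p hp h => (d.W_primes p hp).1 h) κ Y
    have h4 := hBV Y ⌊Y ^ (1 / 2 - 2 * η)⌋₊ hY3 (Nat.floor_le (by positivity))
    calc _ ≤ _ := h3
      _ ≤ Real.log Y ^ (4 * (k + k ^ 2)) * (C * Y / Real.log Y ^ (4 * (k + k ^ 2) + 2)) :=
        mul_le_mul_of_nonneg_left h4 (by positivity)
      _ = C * Y / Real.log Y ^ 2 := by
        rw [pow_add]
        field_simp
  rw [hsum, hmain] at hT
  have hE' := hE i (i, j)
  obtain ⟨PW, hPW⟩ : ∃ P, P = A0 d η L Y ^ (k - 1) * B0 d η L Y ^ 2 * G0 d η τ Y ^ (k ^ 2 + 1) := ⟨_, rfl⟩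
  rw [← hPW] at hE' ⊢
  have hRR : 1 ≤ RR η Y := Real.one_le_rpow hY1 hη.le
  have hEE : 1 ≤ EE η τ k Y := Real.one_le_rpow hY1 (by positivity)
  have hA0 : 1 ≤ A0 d η L Y := one_le_AA hD1 _ (by rw [gS_empty L _ hRR]; exact one_le_pow₀ (by norm_num))
  have hB0 : 1 ≤ B0 d η L Y := one_le_BB hD1 _ (gS_nonneg L _)
    (by rw [gS_empty L _ hRR]; exact one_le_pow₀ (by norm_num))
  have hG0 : 1 ≤ G0 d η τ Y := one_le_BB hD1 _ (gX_nonneg true _) (by rw [gX_empty true _ hEE])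
  have hPW1 : 1 ≤ PW := by
    rw [hPW]
    exact one_le_mul_of_one_le_of_one_le (one_le_mul_of_one_le_of_one_le (one_le_pow₀ hA0)
      (one_le_pow₀ hB0)) (one_le_pow₀ hG0)
  have hXMY := hXM Y hYY
  have hV1 : 0 < 1 / Real.log Y := by positivity
  have hVpos : 0 < V0 d η Y := lt_of_lt_of_le hV1 hV
  have hT1 := (abs_le.1 (hT.trans hErr)).1
  have hmain2 : c * Y / (d.W.totient : ℝ) * (√η / 4 * V0 d η Y * PW) ≤
      XM κ Y / (d.W.totient : ℝ) * Ex (qP d (ZZ η Y) i) (fun c => FF (xY d η Y) (yY d η τ L Y)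
        (era {Sum.inl i, Sum.inr (i, j)} c) ^ 2 * Lm θ (DD η Y) (Sum.inr (i, j)) c) := by
    refine mul_le_mul ?_ hE' (by positivity) ?_
    · exact div_le_div_of_nonneg_right hXMY hφ.le
    · exact div_nonneg (le_trans (by positivity) hXMY) hφ.le
  have hsmall : C * Y / Real.log Y ^ 2 ≤ c * Y / (d.W.totient : ℝ) * (√η / 8 * V0 d η Y * PW) := by
    have h5 : 1 / Real.log Y ≤ V0 d η Y * PW := by
      calc 1 / Real.log Y ≤ V0 d η Y := hV
        _ = V0 d η Y * 1 := (mul_one _).symm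
        _ ≤ V0 d η Y * PW := mul_le_mul_of_nonneg_left hPW1 hVpos.le
    have h6 : C * Y / Real.log Y ^ 2 ≤ c * Y / (d.W.totient : ℝ) * (√η / 8 * (1 / Real.log Y)) := by
      rw [div_le_iff₀ (by positivity)] at hlog
      rw [div_le_iff₀ (by positivity)]
      have h7 : c * Y / (d.W.totient : ℝ) * (√η / 8 * (1 / Real.log Y)) * Real.log Y ^ 2 =
          Y * (Real.log Y * (c * √η)) / (8 * (d.W.totient : ℝ)) := by
        field_simp
      rw [h7, le_div_iff₀ (by positivity)]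
      nlinarith
    calc C * Y / Real.log Y ^ 2 ≤ c * Y / (d.W.totient : ℝ) * (√η / 8 * (1 / Real.log Y)) := h6
      _ ≤ c * Y / (d.W.totient : ℝ) * (√η / 8 * (V0 d η Y * PW)) := by
        refine mul_le_mul_of_nonneg_left ?_ (by positivity)
        exact mul_le_mul_of_nonneg_left h5 (by positivity)
      _ = _ := by ring
  have hfin : c / 8 * √η * (Y / (d.W.totient : ℝ)) * V0 d η Y * PW =
      c * Y / (d.W.totient : ℝ) * (√η / 4 * V0 d η Y * PW) -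
        c * Y / (d.W.totient : ℝ) * (√η / 8 * V0 d η Y * PW) := by ring
  rw [hfin]
  linarith

end Pool.Agent.Wd33b62
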