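import Pool.Agent.W_d33b62_h36.LDefs

/-!
# Conditioning, tilting, and the sieve majorants (helper36, MP_d33b62_nt)
-/

set_option autoImplicit false

noncomputable section

open Finset

namespace Pool.Agent.Wd33b62

variable {ι V : Type} [Fintype ι] [DecidableEq ι] [Fintype V] [DecidableEq V]

omit [Fintype ι] [Fintype V] [DecidableEq V] in
theorem LH3_qB {x : ι → ℝ} (hx : ∀ i, 0 < x i) (B : Finset ι) (i : ι) (v : V) :
    0 ≤ qB V x B i v ∧ qB V x B i v ≤ x i := by
  unfold qB
  split_ifs
  · exact ⟨le_rfl, (hx i).le⟩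
  · exact ⟨(hx i).le, le_rfl⟩

theorem LH3_den {x : ι → ℝ} (hx : ∀ i, 0 < x i) (U : Finset V) (B : Finset ι) (i : ι) :
    0 ≤ ∑ u, q1 (qB V x B) U i u ∧ ∑ u, q1 (qB V x B) U i u ≤ Fintype.card V * x i := by
  have h : ∀ u, 0 ≤ q1 (qB V x B) U i u ∧ q1 (qB V x B) U i u ≤ x i := by
    intro u
    unfold q1
    split_ifs
    · exact ⟨le_rfl, (hx i).le⟩
    · exact LH3_qB hx B i u
  refine ⟨Finset.sum_nonneg fun u _ => (h u).1, ?_⟩
  calc ∑ u, q1 (qB V x B) U i u ≤ ∑ _u : V, x i := Finset.sum_le_sum fun u _ => (h u).2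
    _ = Fintype.card V * x i := by rw [Finset.sum_const, Finset.card_univ, nsmul_eq_mul]

/-- The conditional model of `qB` satisfies the standing assumptions: the possible labels are those of `U`, at the places
outside of `supp c ∪ B`, with probability `x / (1 - (K - |U|) x)`, `|x / (1 - a x) - x| = a x ^ 2 / (1 - a x) ≤ 2 K x ^ 2` for
`a ≤ K`, `K x ≤ 1 / 2`; the sum of the probabilities at one place is `|U| x / (1 - (K - |U|) x) ≤ 1` since `K x ≤ 1`. -/
theorem q2_QH {x : ι → ℝ} (hx : ∀ i, 0 < x i) (hs : ∀ i, Fintype.card V * x i ≤ 1 / 2) (U : Finset V) (B : Finset ι)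
    (c : ι → Option V) :
    QH x (q2 (qB V x B) U c) Uᶜ (supp c ∪ B) (2 * Fintype.card V) := by
  have hden := LH3_den hx U B
  have hS : ∀ i, 1 / 2 ≤ 1 - ∑ u, q1 (qB V x B) U i u := fun i => by
    have h1 := (hden i).2
    have h2 := hs i
    linarith
  have hSp : ∀ i, 0 < 1 - ∑ u, q1 (qB V x B) U i u := fun i => lt_of_lt_of_le (by norm_num) (hS i)
  refine ⟨?_, ?_, ?_, ?_⟩
  · intro i v
    unfold q2
    split_ifs
    · exact div_nonneg (LH3_qB hx B i v).1 (hSp i).le
    · exact le_rfl
  · intro i
    have h1 : ∀ v, q2 (qB V x B) U c i v ≤ x i / (1 - ∑ u, q1 (qB V x B) U i u) := by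
      intro v
      unfold q2
      split_ifs
      · exact div_le_div_of_nonneg_right (LH3_qB hx B i v).2 (hSp i).le
      · exact div_nonneg (hx i).le (hSp i).le
    refine (Finset.sum_le_sum fun v _ => h1 v).trans ?_
    rw [Finset.sum_const, Finset.card_univ, nsmul_eq_mul, ← mul_div_assoc, div_le_one (hSp i)]
    have h2 := hs i
    have h3 := hS i
    linarith
  · intro i v h
    unfold q2
    split_ifs with h1
    · rcases h with h | h
      · exact absurd h1.1 (Finset.mem_compl.1 h)
      · rw [Finset.mem_union] at h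
        rcases h with h | h
        · exact absurd h1.2 (by simpa [supp] using h)
        · have h2 : qB V x B i v = 0 := by
            unfold qB
            rw [if_pos h]
          rw [h2, zero_div]
    · rfl
  · intro i v hv hi
    rw [Finset.mem_union, not_or] at hi
    have hv' : v ∈ U := by
      by_contra h
      exact hv (Finset.mem_compl.2 h)
    have hc : c i = none := by
      by_contra h
      exact hi.1 (by simp [supp, h])
    have h2 : qB V x B i v = x i := by
      unfold qB
      rw [if_neg hi.2]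
    have h3 : q2 (qB V x B) U c i v = x i / (1 - ∑ u, q1 (qB V x B) U i u) := by
      unfold q2
      rw [if_pos ⟨hv', hc⟩, h2]
    rw [h3]
    generalize hSS : ∑ u, q1 (qB V x B) U i u = S at *
    have h4 := (hden i).1
    have h5 := (hden i).2
    have h6 := hS i
    have h7 := hSp i
    rw [hSS] at h4 h5 h6 h7
    have hxi := hx i
    have h8 : x i / (1 - S) - x i = x i * S / (1 - S) := by
      field_simp
      ring
    rw [h8, abs_of_nonneg (by positivity), div_le_iff₀ h7]
    have h9 : x i * S ≤ x i * (Fintype.card V * x i) := mul_le_mul_of_nonneg_left h5 hxi.le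
    have h10 : (0 : ℝ) ≤ Fintype.card V * x i ^ 2 := by positivity
    nlinarith

end Pool.Agent.Wd33b62
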