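import Pool.Agent.W_d33b62_h36.LG2
import Pool.Agent.W_d33b62_h36.LH3

/-!
# Conditioning, tilting, and the sieve majorants (helper36, MP_d33b62_nt)
-/

set_option autoImplicit false

noncomputable section

open Finset

namespace Pool.Agent.Wd33b62

variable {ι V : Type} [Fintype ι] [DecidableEq ι] [Fintype V] [DecidableEq V]

theorem LH4_Th {x : ι → ℝ} (hx : ∀ i, 0 < x i) (A B : Finset ι) :
    Th V x (A ∪ B) ≤ Th V x A * Th V x B := by
  unfold Th
  have h1 : ∀ i, (1 : ℝ) ≤ (1 + x i) ^ Fintype.card V := fun i =>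
    one_le_pow₀ (by linarith [hx i])
  rw [← Finset.prod_union_inter]
  refine le_mul_of_one_le_right (Finset.prod_nonneg fun i _ => ?_) ?_
  · linarith [h1 i]
  · exact Finset.one_le_prod fun i _ => h1 i

/-- **The conditional second moment of the majorant** (`GW_up` for `g2`, the model `q2`, the removed labels `Uᶜ` and the bad
places `supp c ∪ B`): `AA x (g2 u) = BB x (g2 u)` for `u ∈ U` since `(g2 u) ^ 2 = g2 u`; `BB x (g2 v) = 1` for `v ∉ U`;
`Th (supp c ∪ B) ≤ Th (supp c) Th B`. -/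
theorem maj_cond {x : ι → ℝ} {g2 : V → Finset ι → ℝ} (hG : GH x g2)
    (hs : ∀ i, Fintype.card V * x i ≤ 1 / 2) (U : Finset V) (B : Finset ι)
    (h1 : ∀ v ∉ U, ∀ S, g2 v S = if S = ∅ then 1 else 0) (h2 : ∀ v S, g2 v S ^ 2 = g2 v S) (c : ι → Option V) :
    Ex (q2 (qB V x B) U c) (fun c => FF x (fun κ => ∏ v, g2 v (fib κ v)) c ^ 2) ≤
      (Th V x (supp c) * Th V x B) ^ 2 * Real.exp (6 * Fintype.card V ^ 2 * SX x) * ∏ u ∈ U, BB x (g2 u) := by
  have hQ := q2_QH (V := V) hG.x_pos hs U B c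
  have h3 := GW_up hG (by positivity : (0 : ℝ) ≤ 2 * Fintype.card V) hQ
    (y := fun κ => ∏ v, g2 v (fib κ v)) (fun κ => Finset.prod_nonneg fun v _ => hG.g_nonneg v _)
    (fun κ => le_rfl)
  refine h3.trans ?_
  have h4 : ∏ v ∈ (Uᶜ)ᶜ, AA x (g2 v) = ∏ u ∈ U, BB x (g2 u) := by
    rw [compl_compl]
    refine Finset.prod_congr rfl fun v _ => ?_
    unfold AA BB
    refine Finset.sum_congr rfl fun S _ => ?_
    rw [h2]
  have h5 : ∏ u ∈ Uᶜ, BB x (g2 u) = 1 := by
    refine Finset.prod_eq_one fun u hu => ?_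
    unfold BB
    rw [Finset.sum_eq_single ∅]
    · rw [h1 u (Finset.mem_compl.1 hu), if_pos rfl, Finset.prod_empty, mul_one]
    · intro S _ hS
      rw [h1 u (Finset.mem_compl.1 hu), if_neg hS, zero_mul]
    · intro h
      exact absurd (Finset.mem_univ _) h
  rw [h4, h5, one_pow, mul_one]
  have e1 : 3 * (Fintype.card V : ℝ) * (2 * (Fintype.card V : ℝ)) * SX x =
      6 * (Fintype.card V : ℝ) ^ 2 * SX x := by ring
  rw [e1]
  have hBB : 0 ≤ ∏ u ∈ U, BB x (g2 u) := by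
    refine Finset.prod_nonneg fun u _ => ?_
    unfold BB
    exact Finset.sum_nonneg fun S _ => mul_nonneg (hG.g_nonneg u S)
      (Finset.prod_nonneg fun i _ => (hG.x_pos i).le)
  have hTh0 : 0 ≤ Th V x (supp c ∪ B) := by
    unfold Th
    exact Finset.prod_nonneg fun i _ => pow_nonneg (by linarith [hG.x_pos i]) _
  have hTh := LH4_Th (V := V) hG.x_pos (supp c) B
  refine mul_le_mul_of_nonneg_right ?_ hBB
  refine mul_le_mul_of_nonneg_right ?_ (Real.exp_pos _).le
  exact pow_le_pow_left₀ hTh0 hTh 2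

end Pool.Agent.Wd33b62
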