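import Pool.Agent.W_d33b62_h36.LDefs

/-!
# Conditioning, tilting, and the sieve majorants (helper36, MP_d33b62_nt)
-/

set_option autoImplicit false

noncomputable section

open Finset

namespace Pool.Agent.Wd33b62

variable {ι V : Type} [Fintype ι] [DecidableEq ι] [Fintype V] [DecidableEq V]

/-- **Tilting.** `prb q c * ∏_{i ∈ supp c} (1 + t i) = ∏_i (1 + t i ∑ q) * prb (qt q t) c`, place by place. -/
theorem tilt (q : ι → V → ℝ) (hq : QOK q) (t : ι → ℝ) (ht : ∀ i, 0 ≤ t i) (G : (ι → Option V) → ℝ) :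
    Ex q (fun c => G c * ∏ i ∈ supp c, (1 + t i)) = (∏ i, (1 + t i * ∑ v, q i v)) * Ex (qt q t) G := by
  have hD : ∀ i, 0 < 1 + t i * ∑ v, q i v := by
    intro i
    have h1 : 0 ≤ t i * ∑ v, q i v :=
      mul_nonneg (ht i) (Finset.sum_nonneg fun v _ => hq.1 i v)
    linarith
  have hpv : ∀ (i : ι) (o : Option V), pv q i o * (if o ≠ none then 1 + t i else 1) =
      (1 + t i * ∑ v, q i v) * pv (qt q t) i o := by
    intro i o
    have h0 := (hD i).ne'
    cases o with
    | none =>
      rw [if_neg (fun h => h rfl)]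
      show (1 - ∑ v, q i v) * 1 = (1 + t i * ∑ v, q i v) * (1 - ∑ v, qt q t i v)
      have h1 : ∑ v, qt q t i v = (∑ v, q i v) * (1 + t i) / (1 + t i * ∑ v, q i v) := by
        unfold qt
        rw [← Finset.sum_div, ← Finset.sum_mul]
      rw [h1]
      generalize (∑ v, q i v) = Q at h0 ⊢
      rw [mul_sub, mul_one, mul_one, mul_div_cancel₀ _ h0]
      ring
    | some v =>
      rw [if_pos (fun h => absurd h (by simp))]
      show q i v * (1 + t i) = (1 + t i * ∑ v, q i v) * qt q t i v
      unfold qt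
      field_simp
  unfold Ex
  rw [Finset.mul_sum]
  refine Finset.sum_congr rfl fun c _ => ?_
  have h2 : ∏ i ∈ supp c, (1 + t i) = ∏ i, if c i ≠ none then 1 + t i else 1 := by
    unfold supp
    rw [Finset.prod_filter]
  have h3 : prb q c * ∏ i ∈ supp c, (1 + t i) = (∏ i, (1 + t i * ∑ v, q i v)) * prb (qt q t) c := by
    rw [h2]
    unfold prb
    rw [← Finset.prod_mul_distrib, ← Finset.prod_mul_distrib]
    exact Finset.prod_congr rfl fun i _ => hpv i (c i)
  calc prb q c * (G c * ∏ i ∈ supp c, (1 + t i)) = (prb q c * ∏ i ∈ supp c, (1 + t i)) * G c := by ring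
    _ = _ := by
      rw [h3]
      ring

end Pool.Agent.Wd33b62
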