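import Pool.Agent.W_d33b62_h36.LG2
import Pool.Agent.W_d33b62_h36.LH2

/-!
# Conditioning, tilting, and the sieve majorants (helper36, MP_d33b62_nt)
-/

set_option autoImplicit false

noncomputable section

open Finset

namespace Pool.Agent.Wd33b62

variable {ι V : Type} [Fintype ι] [DecidableEq ι] [Fintype V] [DecidableEq V]

private theorem LH5_pow_le (K : ℕ) {z : ℝ} (hz : 0 ≤ z) (h : (K : ℝ) * z ≤ 1 / 2) :
    (1 + z) ^ (2 * K) - 1 ≤ 4 * K * z := by
  have h1 : (1 + z) ^ (2 * K) ≤ Real.exp (2 * K * z) := by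
    have h2 : 1 + z ≤ Real.exp z := by
      have := Real.add_one_le_exp z
      linarith
    calc (1 + z) ^ (2 * K) ≤ (Real.exp z) ^ (2 * K) := pow_le_pow_left₀ (by linarith) h2 _
      _ = Real.exp (2 * K * z) := by
        rw [← Real.exp_nat_mul]
        congr 1
        push_cast
        ring
  have h0 : 0 ≤ 2 * (K : ℝ) * z := by positivity
  have h3 : |Real.exp (2 * K * z) - 1 - 2 * K * z| ≤ (2 * K * z) ^ 2 :=
    Real.abs_exp_sub_one_sub_id_le (by rw [abs_of_nonneg h0]; linarith)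
  have h4 := (abs_le.1 h3).2
  nlinarith

private theorem LH5_exp (T s : ι → ℝ) (hT : ∀ i, 0 ≤ T i * s i) :
    ∏ i, (1 + T i * s i) ≤ Real.exp (∑ i, T i * s i) := by
  rw [Real.exp_sum]
  refine Finset.prod_le_prod (fun i _ => by linarith [hT i]) (fun i _ => ?_)
  have := Real.add_one_le_exp (T i * s i)
  linarith

/-- **The tilted second moment.** `Th V x (supp c) ^ 2 = ∏_{i ∈ supp c} (1 + t i)` with `t i = (1 + x i) ^ (2 K) - 1 ≤ 4 K x i`
(`2 K x i ≤ 1`); `tilt`; `∏ (1 + t i ∑ q) ≤ exp (4 K ^ 2 SX)`; the tilted model satisfies `QH` with `4 K`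
(`q (1 + t) / (1 + t ∑ q) - q = q t (1 - ∑ q) / (1 + t ∑ q) ∈ [0, q t]`, `q = x` for the possible labels), `GW_up`:
`exp (4 K ^ 2 SX + 12 K ^ 2 SX)`. -/
theorem tilt_up {x : ι → ℝ} {g : V → Finset ι → ℝ} (hG : GH x g)
    (hs : ∀ i, Fintype.card V * x i ≤ 1 / 2) (U : Finset V) (B : Finset ι)
    {y : (ι → Option V) → ℝ} (hy0 : ∀ κ, 0 ≤ y κ) (hy : ∀ κ, y κ ≤ ∏ v, g v (fib κ v)) :
    Ex (q1 (qB V x B) U) (fun c => FF x y c ^ 2 * Th V x (supp c) ^ 2) ≤
      Real.exp (16 * Fintype.card V ^ 2 * SX x) * Th V x B ^ 2 *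
        ((∏ v ∈ Uᶜ, AA x (g v)) * (∏ u ∈ U, BB x (g u)) ^ 2) := by
  classical
  set K : ℕ := Fintype.card V with hK
  set q : ι → V → ℝ := q1 (qB V x B) U with hq
  set t : ι → ℝ := fun i => (1 + x i) ^ (2 * K) - 1 with ht
  have hx : ∀ i, 0 < x i := hG.x_pos
  have ht0 : ∀ i, 0 ≤ t i := by
    intro i
    have h1 : 1 ≤ (1 + x i) ^ (2 * K) := one_le_pow₀ (by linarith [hx i])
    show 0 ≤ (1 + x i) ^ (2 * K) - 1
    linarith
  have ht1 : ∀ i, t i ≤ 4 * K * x i := fun i => LH5_pow_le K (hx i).le (hs i)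
  have hq0 : ∀ i v, 0 ≤ q i v := by
    intro i v
    show 0 ≤ if v ∈ U then 0 else (if i ∈ B then 0 else x i)
    split_ifs
    · exact le_refl 0
    · exact le_refl 0
    · exact (hx i).le
  have hqx : ∀ i v, q i v ≤ x i := by
    intro i v
    show (if v ∈ U then 0 else (if i ∈ B then 0 else x i)) ≤ x i
    split_ifs
    · exact (hx i).le
    · exact (hx i).le
    · exact le_refl _
  have hqs0 : ∀ i, 0 ≤ ∑ v, q i v := fun i => Finset.sum_nonneg (fun v _ => hq0 i v)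
  have hqs1 : ∀ i, ∑ v, q i v ≤ K * x i := by
    intro i
    refine le_trans (Finset.sum_le_sum (fun v _ => hqx i v)) ?_
    rw [Finset.sum_const, Finset.card_univ, nsmul_eq_mul]
  have hqs : ∀ i, ∑ v, q i v ≤ 1 := fun i => by
    have h1 := hqs1 i
    have h2 := hs i
    linarith
  have hden : ∀ i, 1 ≤ 1 + t i * ∑ v, q i v := fun i => by
    have := mul_nonneg (ht0 i) (hqs0 i)
    linarith
  have hQH : QH x (qt q t) U B (4 * K) := by
    refine ⟨?_, ?_, ?_, ?_⟩
    · intro i v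
      show 0 ≤ q i v * (1 + t i) / (1 + t i * ∑ u, q i u)
      exact div_nonneg (mul_nonneg (hq0 i v) (by linarith [ht0 i])) (by linarith [hden i])
    · intro i
      show ∑ v, q i v * (1 + t i) / (1 + t i * ∑ u, q i u) ≤ 1
      rw [← Finset.sum_div, ← Finset.sum_mul, div_le_one (by linarith [hden i])]
      have := hqs i
      nlinarith
    · intro i v h
      have h1 : q i v = 0 := by
        show (if v ∈ U then 0 else (if i ∈ B then 0 else x i)) = 0
        rcases h with h | h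
        · rw [if_pos h]
        · rw [if_pos h, ite_self]
      show q i v * (1 + t i) / (1 + t i * ∑ u, q i u) = 0
      rw [h1, zero_mul, zero_div]
    · intro i v h1 h2
      have h3 : q i v = x i := by
        show (if v ∈ U then 0 else (if i ∈ B then 0 else x i)) = x i
        rw [if_neg h1, if_neg h2]
      show |q i v * (1 + t i) / (1 + t i * ∑ u, q i u) - x i| ≤ 4 * K * x i ^ 2
      rw [h3]
      have h4 : 0 < 1 + t i * ∑ u, q i u := by linarith [hden i]
      have h5 : x i * (1 + t i) / (1 + t i * ∑ u, q i u) - x i =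
          x i * t i * (1 - ∑ u, q i u) / (1 + t i * ∑ u, q i u) := by
        field_simp
        ring
      have h6 : 0 ≤ x i * t i * (1 - ∑ u, q i u) :=
        mul_nonneg (mul_nonneg (hx i).le (ht0 i)) (by linarith [hqs i])
      rw [h5, abs_of_nonneg (div_nonneg h6 h4.le), div_le_iff₀ h4]
      have h7 : x i * t i * (1 - ∑ u, q i u) ≤ x i * t i := by
        have := mul_nonneg (mul_nonneg (hx i).le (ht0 i)) (hqs0 i)
        nlinarith
      have h8 : x i * t i ≤ 4 * K * x i ^ 2 := by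
        have := mul_le_mul_of_nonneg_left (ht1 i) (hx i).le
        nlinarith
      have h9 : 0 ≤ 4 * (K : ℝ) * x i ^ 2 := by positivity
      have h10 : 4 * (K : ℝ) * x i ^ 2 * 1 ≤ 4 * K * x i ^ 2 * (1 + t i * ∑ u, q i u) :=
        mul_le_mul_of_nonneg_left (hden i) h9
      linarith
  have hTh : ∀ c : ι → Option V, Th V x (supp c) ^ 2 = ∏ i ∈ supp c, (1 + t i) := by
    intro c
    unfold Th
    rw [← Finset.prod_pow]
    refine Finset.prod_congr rfl (fun i _ => ?_)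
    show ((1 + x i) ^ Fintype.card V) ^ 2 = 1 + ((1 + x i) ^ (2 * K) - 1)
    rw [← pow_mul, ← hK, mul_comm K 2]
    ring
  have h1 : Ex q (fun c => FF x y c ^ 2 * Th V x (supp c) ^ 2) =
      (∏ i, (1 + t i * ∑ v, q i v)) * Ex (qt q t) (fun c => FF x y c ^ 2) := by
    rw [← tilt q ⟨hq0, hqs⟩ t ht0]
    congr 1
    funext c
    rw [hTh c]
  rw [h1]
  have h2 := GW_up hG (by positivity : (0 : ℝ) ≤ 4 * (K : ℝ)) hQH hy0 hy
  have h3 : ∏ i, (1 + t i * ∑ v, q i v) ≤ Real.exp (4 * (K : ℝ) ^ 2 * SX x) := by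
    refine le_trans (LH5_exp t (fun i => ∑ v, q i v)
      (fun i => mul_nonneg (ht0 i) (hqs0 i))) (Real.exp_le_exp.2 ?_)
    unfold SX
    rw [Finset.mul_sum]
    refine Finset.sum_le_sum (fun i _ => ?_)
    have h4 : t i * ∑ v, q i v ≤ (4 * K * x i) * (K * x i) :=
      mul_le_mul (ht1 i) (hqs1 i) (hqs0 i) (by have := (hx i).le; positivity)
    calc t i * ∑ v, q i v ≤ (4 * K * x i) * (K * x i) := h4
      _ = 4 * (K : ℝ) ^ 2 * x i ^ 2 := by ring
  have hAB : 0 ≤ (∏ v ∈ Uᶜ, AA x (g v)) * (∏ u ∈ U, BB x (g u)) ^ 2 := by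
    refine mul_nonneg (Finset.prod_nonneg (fun v _ => ?_)) (sq_nonneg _)
    unfold AA
    exact Finset.sum_nonneg (fun S _ => mul_nonneg (sq_nonneg _)
      (Finset.prod_nonneg (fun i _ => (hx i).le)))
  have h4 : 0 ≤ Th V x B ^ 2 * Real.exp (3 * K * (4 * K) * SX x) *
      (∏ v ∈ Uᶜ, AA x (g v)) * (∏ u ∈ U, BB x (g u)) ^ 2 := by
    rw [mul_assoc]
    exact mul_nonneg (mul_nonneg (sq_nonneg _) (Real.exp_pos _).le) hAB
  calc (∏ i, (1 + t i * ∑ v, q i v)) * Ex (qt q t) (fun c => FF x y c ^ 2)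
      ≤ Real.exp (4 * (K : ℝ) ^ 2 * SX x) * (Th V x B ^ 2 * Real.exp (3 * K * (4 * K) * SX x) *
          (∏ v ∈ Uᶜ, AA x (g v)) * (∏ u ∈ U, BB x (g u)) ^ 2) := by
        refine le_trans (mul_le_mul_of_nonneg_left h2 ?_) (mul_le_mul_of_nonneg_right h3 h4)
        exact Finset.prod_nonneg (fun i _ => by linarith [hden i])
    _ = (Real.exp (4 * (K : ℝ) ^ 2 * SX x) * Real.exp (3 * K * (4 * K) * SX x)) * Th V x B ^ 2 *
          ((∏ v ∈ Uᶜ, AA x (g v)) * (∏ u ∈ U, BB x (g u)) ^ 2) := by ring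
    _ = Real.exp (16 * (K : ℝ) ^ 2 * SX x) * Th V x B ^ 2 *
          ((∏ v ∈ Uᶜ, AA x (g v)) * (∏ u ∈ U, BB x (g u)) ^ 2) := by
        rw [← Real.exp_add]
        congr 3
        ring


end Pool.Agent.Wd33b62
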