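import Pool.Agent.W_d33b62_h36.LA1
import Pool.Agent.W_d33b62_h36.LH1
import Pool.Agent.W_d33b62_h36.LH4
import Pool.Agent.W_d33b62_h36.LH5

/-!
# Conditioning, tilting, and the sieve majorants (helper36, MP_d33b62_nt)
-/

set_option autoImplicit false

noncomputable section

open Finset

namespace Pool.Agent.Wd33b62

variable {ι V : Type} [Fintype ι] [DecidableEq ι] [Fintype V] [DecidableEq V]

/-- **The abstract upper bound with a majorant**: `cond`, `maj_cond`, `tilt_up`; `exp (22 K ^ 2 SX) ≤ 4` by `hS`. -/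
theorem maj_up {x : ι → ℝ} {g g2 : V → Finset ι → ℝ} (hG : GH x g) (hG2 : GH x g2)
    (hs : ∀ i, Fintype.card V * x i ≤ 1 / 2) (hS : 22 * Fintype.card V ^ 2 * SX x ≤ 1) (U : Finset V) (B : Finset ι)
    (h1 : ∀ v ∉ U, ∀ S, g2 v S = if S = ∅ then 1 else 0) (h2 : ∀ v S, g2 v S ^ 2 = g2 v S)
    {y : (ι → Option V) → ℝ} (hy0 : ∀ κ, 0 ≤ y κ) (hy : ∀ κ, y κ ≤ ∏ v, g v (fib κ v)) :
    Ex (qB V x B) (fun c => FF x y (era U c) ^ 2 * FF x (fun κ => ∏ v, g2 v (fib κ v)) (kee U c) ^ 2) ≤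
      4 * Th V x B ^ 4 * ((∏ v ∈ Uᶜ, AA x (g v)) * (∏ u ∈ U, BB x (g u)) ^ 2) * ∏ u ∈ U, BB x (g2 u) := by
  classical
  set K : ℕ := Fintype.card V with hK
  have hx : ∀ i, 0 < x i := hG.x_pos
  have hq0 : ∀ i v, 0 ≤ q1 (qB V x B) U i v := by
    intro i v
    show 0 ≤ if v ∈ U then 0 else (if i ∈ B then 0 else x i)
    split_ifs
    · exact le_refl 0
    · exact le_refl 0
    · exact (hx i).le
  have hqx : ∀ i v, q1 (qB V x B) U i v ≤ x i := by
    intro i v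
    show (if v ∈ U then 0 else (if i ∈ B then 0 else x i)) ≤ x i
    split_ifs
    · exact (hx i).le
    · exact (hx i).le
    · exact le_refl _
  have hqs1 : ∀ i, ∑ v, q1 (qB V x B) U i v ≤ 1 / 2 := by
    intro i
    refine le_trans (Finset.sum_le_sum (fun v _ => hqx i v)) ?_
    rw [Finset.sum_const, Finset.card_univ, nsmul_eq_mul]
    exact hs i
  have hQ : QOK (q1 (qB V x B) U) := ⟨hq0, fun i => by linarith [hqs1 i]⟩
  have hc := cond (qB V x B) U (fun i => by linarith [hqs1 i]) (fun c => FF x y c ^ 2)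
    (fun c => FF x (fun κ => ∏ v, g2 v (fib κ v)) c ^ 2)
  rw [hc]
  have hBB : 0 ≤ ∏ u ∈ U, BB x (g2 u) := Finset.prod_nonneg fun u _ => by
    unfold BB
    exact Finset.sum_nonneg fun S _ => mul_nonneg (hG2.g_nonneg u S)
      (Finset.prod_nonneg fun i _ => (hx i).le)
  have hTh : ∀ S : Finset ι, 0 ≤ Th V x S := fun S => by
    unfold Th
    exact Finset.prod_nonneg fun i _ => pow_nonneg (by linarith [hx i]) _
  have hAB : 0 ≤ (∏ v ∈ Uᶜ, AA x (g v)) * (∏ u ∈ U, BB x (g u)) ^ 2 := by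
    refine mul_nonneg (Finset.prod_nonneg (fun v _ => ?_)) (sq_nonneg _)
    unfold AA
    exact Finset.sum_nonneg (fun S _ => mul_nonneg (sq_nonneg _)
      (Finset.prod_nonneg (fun i _ => (hx i).le)))
  set P : ℝ := Th V x B ^ 2 * Real.exp (6 * (K : ℝ) ^ 2 * SX x) * ∏ u ∈ U, BB x (g2 u) with hP
  have hP0 : 0 ≤ P := mul_nonneg (mul_nonneg (sq_nonneg _) (Real.exp_pos _).le) hBB
  have h3 : Ex (q1 (qB V x B) U) (fun c => FF x y c ^ 2 *
      Ex (q2 (qB V x B) U c) (fun c => FF x (fun κ => ∏ v, g2 v (fib κ v)) c ^ 2)) ≤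
      Ex (q1 (qB V x B) U) (fun c => (FF x y c ^ 2 * Th V x (supp c) ^ 2) * P) := by
    refine Ex_mono hQ fun c => ?_
    have h4 := maj_cond hG2 hs U B h1 h2 c
    have h5 := mul_le_mul_of_nonneg_left h4 (sq_nonneg (FF x y c))
    refine h5.trans (le_of_eq ?_)
    rw [hP]
    ring
  have h6 : Ex (q1 (qB V x B) U) (fun c => (FF x y c ^ 2 * Th V x (supp c) ^ 2) * P) =
      Ex (q1 (qB V x B) U) (fun c => FF x y c ^ 2 * Th V x (supp c) ^ 2) * P := by
    unfold Ex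
    rw [Finset.sum_mul]
    refine Finset.sum_congr rfl fun c _ => ?_
    ring
  rw [h6] at h3
  have h7 := mul_le_mul_of_nonneg_right (tilt_up hG hs U B hy0 hy) hP0
  refine h3.trans (h7.trans ?_)
  have h8 : Real.exp (16 * (K : ℝ) ^ 2 * SX x) * Real.exp (6 * (K : ℝ) ^ 2 * SX x) ≤ 4 := by
    rw [← Real.exp_add]
    have h9 : 16 * (K : ℝ) ^ 2 * SX x + 6 * (K : ℝ) ^ 2 * SX x ≤ 1 := by
      refine le_trans (le_of_eq ?_) hS
      ring
    refine (Real.exp_le_exp.2 h9).trans ?_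
    have := Real.exp_one_lt_d9
    linarith
  have h10 : Real.exp (16 * (K : ℝ) ^ 2 * SX x) * Th V x B ^ 2 *
        ((∏ v ∈ Uᶜ, AA x (g v)) * (∏ u ∈ U, BB x (g u)) ^ 2) * P =
      (Real.exp (16 * (K : ℝ) ^ 2 * SX x) * Real.exp (6 * (K : ℝ) ^ 2 * SX x)) *
        (Th V x B ^ 4 * ((∏ v ∈ Uᶜ, AA x (g v)) * (∏ u ∈ U, BB x (g u)) ^ 2) *
          ∏ u ∈ U, BB x (g2 u)) := by
    rw [hP]
    ring
  rw [h10]
  have h11 : 0 ≤ Th V x B ^ 4 * ((∏ v ∈ Uᶜ, AA x (g v)) * (∏ u ∈ U, BB x (g u)) ^ 2) *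
          ∏ u ∈ U, BB x (g2 u) :=
    mul_nonneg (mul_nonneg (pow_nonneg (hTh B) _) hAB) hBB
  refine (mul_le_mul_of_nonneg_right h8 h11).trans (le_of_eq ?_)
  ring

/-- **The normalisation of the majorant**: `FF x y nul = ∑_κ y κ x(κ)` and `disj_lower` with `T = ∅`; labelings with a label
outside of `U` have `y = 0`. -/
theorem maj_nul {x : ι → ℝ} {g2 : V → Finset ι → ℝ} (hG : GH x g2) (U : Finset V)
    (h1 : ∀ v ∉ U, ∀ S, g2 v S = if S = ∅ then 1 else 0) :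
    (1 - Fintype.card V ^ 2 * SX x) * ∏ u ∈ U, BB x (g2 u) ≤
      FF x (fun κ => ∏ v, g2 v (fib κ v)) nul := by
  classical
  have hx : ∀ i, 0 < x i := hG.x_pos
  have hd := disj_lower x (fun i => (hx i).le) g2 hG.g_nonneg hG.g_anti ∅ U
  rw [Finset.sum_empty, mul_zero, sub_zero] at hd
  refine hd.trans ?_
  unfold FF
  have h2 : ∀ κ : ι → Option V, (∏ v, g2 v (fib κ v)) *
      ∏ i ∈ supp κ, (x i - if (nul : ι → Option V) i = κ i then 1 else 0) =
      (∏ v, g2 v (fib κ v)) * xwt x κ := by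
    intro κ
    unfold xwt
    congr 1
    refine Finset.prod_congr rfl fun i hi => ?_
    unfold supp at hi
    rw [Finset.mem_filter] at hi
    rw [if_neg, sub_zero]
    intro h
    exact hi.2 h.symm
  simp only [h2]
  have h3 : ∀ κ : ι → Option V, 0 ≤ (∏ v, g2 v (fib κ v)) * xwt x κ := fun κ =>
    mul_nonneg (Finset.prod_nonneg fun v _ => hG.g_nonneg v _)
      (Finset.prod_nonneg fun i _ => (hx i).le)
  refine le_trans (le_of_eq ?_)
    (Finset.sum_le_sum_of_subset_of_nonneg (Finset.filter_subset (fun κ : ι → Option V =>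
      (∀ i ∈ (∅ : Finset ι), κ i = none) ∧ ∀ i v, κ i = some v → v ∈ U) univ) fun κ _ _ => h3 κ)
  refine Finset.sum_congr rfl fun κ hκ => ?_
  rw [Finset.mem_filter] at hκ
  congr 1
  rw [← Finset.prod_mul_prod_compl U]
  have h4 : ∏ v ∈ Uᶜ, g2 v (fib κ v) = 1 := by
    refine Finset.prod_eq_one fun v hv => ?_
    rw [Finset.mem_compl] at hv
    rw [h1 v hv, if_pos]
    unfold fib
    rw [Finset.filter_eq_empty_iff]
    intro i _ hi
    exact hv (hκ.2.2 i v hi)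
  rw [h4, mul_one]

end Pool.Agent.Wd33b62
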