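import Pool.Agent.W_d33b62_h36.AR2a
import Pool.Agent.W_d33b62_h36.AR3a
import Pool.Agent.W_d33b62_h36.AR3b
import Pool.Agent.W_d33b62_h36.AR3c
import Pool.Agent.W_d33b62_h36.LA2
import Pool.Agent.W_d33b62_h36.LH6

/-!
# Upper bounds with a majorant (helper36, MP_d33b62_nt)
-/

set_option autoImplicit false

noncomputable section

open Finset Filter

namespace Pool.Agent.Wd33b62

open Pool.Agent.Wb58c63 (PI mem_PI VP ap Pr XM)

/-- The majorant variables. -/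
def y2Y {k : ℕ} (d : AData k) (η Y : ℝ) (U : Finset (VV k)) (t : VV k → Bool) (κ : PY d η Y → Option (VV k)) : ℝ :=
  ∏ v, g2 U t (ES Y) v (fib κ v)

/-- The bad places of a modulus. -/
def BQ {k : ℕ} (d : AData k) (η Y : ℝ) (q : ℕ) : Finset (PY d η Y) := univ.filter fun p => p.1 ∣ q

/-- An expansion with bounded coefficients. -/
def AR7a_HB {D0 : ℕ} {z : ℝ} {V : Type} [Fintype V] [DecidableEq V] (G : (Pl D0 z → Option V) → ℝ)
    (L C b : ℝ) : Prop := ∃ α : (Pl D0 z → Option V) → ℝ, HasExp G α ∧ Bd α L C b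

section HB

variable {D0 : ℕ} {z : ℝ} {V : Type} [Fintype V] [DecidableEq V]

theorem AR7a_HB.mul {G H : (Pl D0 z → Option V) → ℝ} {L₁ C₁ b₁ L₂ C₂ b₂ : ℝ} (h₁ : AR7a_HB G L₁ C₁ b₁)
    (h₂ : AR7a_HB H L₂ C₂ b₂) (hL₁ : 0 ≤ L₁) (hC₁ : 0 ≤ C₁) (hb₁ : 0 ≤ b₁) (hC₂ : 0 ≤ C₂) (hb₂ : 0 ≤ b₂) :
    AR7a_HB (fun c => G c * H c) (L₁ * L₂) (C₁ * C₂) ((1 + b₁) * (1 + b₂)) := by
  obtain ⟨α, a1, a2⟩ := h₁
  obtain ⟨β, c1, c2⟩ := h₂
  exact ⟨_, a1.mul c1, conv_bd a2 c2 hL₁ hC₁ hb₁ hC₂ hb₂⟩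

theorem AR7a_HB.era {G : (Pl D0 z → Option V) → ℝ} {L C b : ℝ} (h : AR7a_HB G L C b) (hC : 0 ≤ C) (hb : 0 ≤ b)
    (U : Finset V) : AR7a_HB (fun c => G (Pool.Agent.Wd33b62.era U c)) L C b := by
  obtain ⟨α, a1, a2⟩ := h
  refine ⟨_, a1.era U, fun σ => ?_⟩
  have h3 := a2 σ
  have h4 : 0 ≤ C * b ^ (supp σ).card := mul_nonneg hC (pow_nonneg hb _)
  split_ifs with hP
  · exact h3
  · exact ⟨by rw [abs_zero]; exact h4, fun h => absurd rfl h⟩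

theorem AR7a_HB.kee {G : (Pl D0 z → Option V) → ℝ} {L C b : ℝ} (h : AR7a_HB G L C b) (hC : 0 ≤ C) (hb : 0 ≤ b)
    (U : Finset V) : AR7a_HB (fun c => G (Pool.Agent.Wd33b62.kee U c)) L C b := by
  obtain ⟨α, a1, a2⟩ := h
  refine ⟨_, a1.kee U, fun σ => ?_⟩
  have h3 := a2 σ
  have h4 : 0 ≤ C * b ^ (supp σ).card := mul_nonneg hC (pow_nonneg hb _)
  split_ifs with hP
  · exact h3
  · exact ⟨by rw [abs_zero]; exact h4, fun h => absurd rfl h⟩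

theorem AR7a_HB.off {G : (Pl D0 z → Option V) → ℝ} {L C b : ℝ} (h : AR7a_HB G L C b) (hC : 0 ≤ C) (hb : 0 ≤ b)
    (B : Finset (Pl D0 z)) : ∃ α : (Pl D0 z → Option V) → ℝ,
      HasExp (fun c => G (Pool.Agent.Wd33b62.off B c)) α ∧ (∀ σ, α σ ≠ 0 → ∀ i ∈ B, σ i = none) ∧
      Bd α L C b := by
  obtain ⟨α, a1, a2⟩ := h
  refine ⟨_, a1.off B, fun σ hσ => ?_, fun σ => ?_⟩
  · by_contra h'
    exact hσ (if_neg h')
  · have h3 := a2 σ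
    have h4 : 0 ≤ C * b ^ (supp σ).card := mul_nonneg hC (pow_nonneg hb _)
    dsimp only
    split_ifs with hP
    · exact h3
    · exact ⟨by rw [abs_zero]; exact h4, fun h => absurd rfl h⟩

/-- The function `FF (era U c) ^ 2 * FF2 (kee U c) ^ 2` has an expansion with bounded coefficients. -/
theorem AR7a_exp (x : Pl D0 z → ℝ) (y y2 : (Pl D0 z → Option V) → ℝ) (U : Finset V) (B : Finset (Pl D0 z))
    {L₁ C₁ L₂ C₂ : ℝ} (h₁ : Bd (lam x y) L₁ C₁ 1) (h₂ : Bd (lam x y2) L₂ C₂ 1)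
    (hL₁ : 0 ≤ L₁) (hL₂ : 0 ≤ L₂) (hC₁ : 0 ≤ C₁) (hC₂ : 0 ≤ C₂) :
    ∃ α : (Pl D0 z → Option V) → ℝ,
      HasExp (fun c => FF x y (era U (off B c)) ^ 2 * FF x y2 (kee U (off B c)) ^ 2) α ∧
      (∀ σ, α σ ≠ 0 → ∀ i ∈ B, σ i = none) ∧
      Bd α (L₁ * L₁ * (L₂ * L₂)) (C₁ * C₁ * (C₂ * C₂)) 25 := by
  have e1 : AR7a_HB (FF x y) L₁ C₁ 1 := ⟨_, FF_hasExp x y, h₁⟩
  have e2 : AR7a_HB (FF x y2) L₂ C₂ 1 := ⟨_, FF_hasExp x y2, h₂⟩
  have h0 : (0 : ℝ) ≤ (1 + 1) * (1 + 1) := by norm_num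
  have e3 := (e1.mul e1 hL₁ hC₁ zero_le_one hC₁ zero_le_one).era (mul_nonneg hC₁ hC₁) h0 U
  have e4 := (e2.mul e2 hL₂ hC₂ zero_le_one hC₂ zero_le_one).kee (mul_nonneg hC₂ hC₂) h0 U
  have e5 := e3.mul e4 (mul_nonneg hL₁ hL₁) (mul_nonneg hC₁ hC₁) h0 (mul_nonneg hC₂ hC₂) h0
  obtain ⟨α, a1, a2, a3⟩ := e5.off (mul_nonneg (mul_nonneg hC₁ hC₁) (mul_nonneg hC₂ hC₂)) (by norm_num) B
  refine ⟨α, fun c => ?_, a2, ?_⟩
  · have h4 := a1 c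
    simp only [pow_two]
    exact h4
  · have hb : (1 + (1 + 1) * (1 + 1)) * (1 + (1 + 1) * (1 + 1)) = (25 : ℝ) := by norm_num
    rw [hb] at a3
    exact a3

omit [Fintype V] [DecidableEq V] in
theorem AR7a_qwt (x : Pl D0 z → ℝ) (B : Finset (Pl D0 z)) (σ : Pl D0 z → Option V) (h : ∀ i ∈ B, σ i = none) :
    qwt (qB V x B) σ = xwt x σ := by
  unfold qwt xwt
  symm
  have h1 : ∀ i ∈ supp σ, x i = qv (qB V x B) i (σ i) := by
    intro i hi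
    have hi' : σ i ≠ none := (Finset.mem_filter.1 hi).2
    have hB : i ∉ B := fun hb => hi' (h i hb)
    cases hs : σ i with
    | none => exact absurd hs hi'
    | some v =>
      change x i = qB V x B i v
      unfold qB
      rw [if_neg hB]
  rw [Finset.prod_congr rfl h1]
  refine Finset.prod_subset (Finset.subset_univ _) fun i _ hi => ?_
  have h2 : σ i = none := by
    by_contra h3
    exact hi (Finset.mem_filter.2 ⟨Finset.mem_univ _, h3⟩)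
  rw [h2]
  rfl

end HB

theorem AR7a_cop {k : ℕ} (d : AData k) {z : ℝ} (q : ℕ) {V : Type} (σ : Pl d.D0 z → Option V)
    (h : ∀ p : Pl d.D0 z, p.1 ∣ q → σ p = none) : (d.W * q).Coprime (nm σ) := by
  unfold nm nmS
  refine Nat.Coprime.prod_right fun p hp => ?_
  have hs : σ p ≠ none := (Finset.mem_filter.1 hp).2
  obtain ⟨hp1, hp2, hp3⟩ := mem_PS.1 p.2
  refine Nat.Coprime.symm ((Nat.Prime.coprime_iff_not_dvd hp1).2 fun hd => ?_)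
  rcases hp1.dvd_mul.1 hd with h1 | h1
  · have := (d.W_primes p.1 hp1).1 h1
    omega
  · exact hs (h p h1)

/-- The error term. -/
theorem AR7a_err (C' : ℝ) (η : ℝ) (hη1 : η ≤ 1 / 200) (K : ℕ) : ∀ᶠ Y : ℝ in atTop,
    C' * (Real.log Y ^ (2 * K) * Real.log Y ^ (2 * K) * (Real.log Y ^ (2 * K) * Real.log Y ^ (2 * K))) *
      (Y ^ (2 * η) * Y ^ (2 * η) * (Y ^ (3 / 50 : ℝ) * Y ^ (3 / 50 : ℝ))) ^ 2 ≤ Y ^ (3 / 10 : ℝ) := by
  have h1 := (isLittleO_log_rpow_rpow_atTop ((8 * K : ℕ) : ℝ) (by norm_num : (0 : ℝ) < 1 / 50)).def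
    (by positivity : (0 : ℝ) < 1 / (|C'| + 1))
  filter_upwards [h1, eventually_ge_atTop 1] with Y hY hY1
  have hY0 : 0 < Y := by linarith
  have hlog : 0 ≤ Real.log Y := Real.log_nonneg hY1
  rw [Real.rpow_natCast, Real.norm_of_nonneg (pow_nonneg hlog _), Real.norm_of_nonneg (Real.rpow_nonneg hY0.le _)]
    at hY
  have h2 : Real.log Y ^ (2 * K) * Real.log Y ^ (2 * K) * (Real.log Y ^ (2 * K) * Real.log Y ^ (2 * K)) =
      Real.log Y ^ (8 * K) := by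
    rw [← pow_add, ← pow_add]
    congr 1
    ring
  have h3 : (Y ^ (2 * η) * Y ^ (2 * η) * (Y ^ (3 / 50 : ℝ) * Y ^ (3 / 50 : ℝ))) ^ 2 ≤ Y ^ (14 / 50 : ℝ) := by
    rw [← Real.rpow_add hY0, ← Real.rpow_add hY0, ← Real.rpow_add hY0, ← Real.rpow_natCast, ← Real.rpow_mul hY0.le]
    refine Real.rpow_le_rpow_of_exponent_le hY1 ?_
    push_cast
    linarith
  have hC : 0 < |C'| + 1 := by positivity
  have h4 : C' * Real.log Y ^ (8 * K) ≤ Y ^ (1 / 50 : ℝ) := by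
    have h5 : C' * Real.log Y ^ (8 * K) ≤ (|C'| + 1) * Real.log Y ^ (8 * K) :=
      mul_le_mul_of_nonneg_right (by linarith [le_abs_self C']) (pow_nonneg hlog _)
    have h6 : (|C'| + 1) * Real.log Y ^ (8 * K) ≤ (|C'| + 1) * (1 / (|C'| + 1) * Y ^ (1 / 50 : ℝ)) :=
      mul_le_mul_of_nonneg_left hY hC.le
    have h7 : (|C'| + 1) * (1 / (|C'| + 1) * Y ^ (1 / 50 : ℝ)) = Y ^ (1 / 50 : ℝ) := by
      field_simp
    linarith
  rw [h2]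
  calc C' * Real.log Y ^ (8 * K) * (Y ^ (2 * η) * Y ^ (2 * η) * (Y ^ (3 / 50 : ℝ) * Y ^ (3 / 50 : ℝ))) ^ 2 ≤
        Y ^ (1 / 50 : ℝ) * Y ^ (14 / 50 : ℝ) := mul_le_mul h4 h3 (by positivity) (by positivity)
    _ = Y ^ (3 / 10 : ℝ) := by
        rw [← Real.rpow_add hY0]
        norm_num

/-- The number of the integers in the window. -/
theorem AR7a_win (Y : ℝ) (hY : 4 ≤ Y) : ⌊Y / 2⌋₊ ≤ ⌈2 * Y⌉₊ ∧ (⌈2 * Y⌉₊ : ℝ) - ⌊Y / 2⌋₊ ≤ 2 * Y := by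
  have h1 := Nat.ceil_lt_add_one (a := 2 * Y) (by linarith)
  have h2 := Nat.lt_floor_add_one (Y / 2)
  have h3 := Nat.le_ceil (2 * Y)
  have h4 := Nat.floor_le (a := Y / 2) (by linarith)
  refine ⟨?_, by linarith⟩
  have h5 : (⌊Y / 2⌋₊ : ℝ) ≤ (⌈2 * Y⌉₊ : ℝ) := by linarith
  exact_mod_cast h5

/-- The main term. -/
theorem AR7a_main {k : ℕ} (L : ℕ) (η τ : ℝ) (d : AData k) (hD : 22 * (k + k ^ 2) ^ 2 + 2 * (k + k ^ 2) + 1 ≤ d.D0)
    (Y : ℝ) (U : Finset (VV k)) (t : VV k → Bool) (B : Finset (PY d η Y)) :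
    0 ≤ Ex (qB (VV k) (xY d η Y) B) (fun c => FF (xY d η Y) (yY d η τ L Y) (era U (off B c)) ^ 2 *
      FF (xY d η Y) (y2Y d η Y U t) (kee U (off B c)) ^ 2) ∧
    Ex (qB (VV k) (xY d η Y) B) (fun c => FF (xY d η Y) (yY d η τ L Y) (era U (off B c)) ^ 2 *
      FF (xY d η Y) (y2Y d η Y U t) (kee U (off B c)) ^ 2) ≤
      4 * Th (VV k) (xY d η Y) B ^ 4 *
        ((∏ v ∈ Uᶜ, AA (xY d η Y) (gY d η τ L Y v)) * (∏ u ∈ U, BB (xY d η Y) (gY d η τ L Y u)) ^ 2) *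
          ∏ u ∈ U, BB (xY d η Y) (gX (t u) (ES Y)) := by
  have hD1 : 1 ≤ d.D0 := by omega
  have hD0 : (0 : ℝ) < d.D0 := by exact_mod_cast hD1
  have hcard : (Fintype.card (VV k) : ℝ) = k + k ^ 2 := by
    have : Fintype.card (VV k) = k + k ^ 2 := by
      simp [VV, Fintype.card_sum, Fintype.card_prod, pow_two]
    rw [this]
    push_cast
    ring
  have hDr : 22 * ((k : ℝ) + k ^ 2) ^ 2 + 2 * (k + k ^ 2) + 1 ≤ d.D0 := by exact_mod_cast hD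
  have hK0 : (0 : ℝ) ≤ (k : ℝ) + k ^ 2 := by positivity
  have hs : ∀ i, (Fintype.card (VV k) : ℝ) * xY d η Y i ≤ 1 / 2 := by
    intro i
    have h1 : xY d η Y i ≤ 1 / (d.D0 : ℝ) := xr_le hD1 i
    rw [hcard]
    calc ((k : ℝ) + k ^ 2) * xY d η Y i ≤ ((k : ℝ) + k ^ 2) * (1 / (d.D0 : ℝ)) :=
          mul_le_mul_of_nonneg_left h1 hK0
      _ = ((k : ℝ) + k ^ 2) / d.D0 := by ring
      _ ≤ 1 / 2 := by
          rw [div_le_div_iff₀ hD0 (by norm_num)]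
          nlinarith
  have hS : 22 * (Fintype.card (VV k) : ℝ) ^ 2 * SX (xY d η Y) ≤ 1 := by
    have h1 : SX (xY d η Y) ≤ 1 / (d.D0 : ℝ) := SX_xr_le hD1
    rw [hcard]
    calc 22 * ((k : ℝ) + k ^ 2) ^ 2 * SX (xY d η Y) ≤ 22 * ((k : ℝ) + k ^ 2) ^ 2 * (1 / (d.D0 : ℝ)) :=
          mul_le_mul_of_nonneg_left h1 (by positivity)
      _ = 22 * ((k : ℝ) + k ^ 2) ^ 2 / d.D0 := by ring
      _ ≤ 1 := by
          rw [div_le_one hD0]
          linarith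
  have hG : GH (xY d η Y) (gY d η τ L Y) := GH_gw hD1 L _ _
  have hG2 : GH (xY d η Y) (g2 U t (ES Y)) := GH_g2 hD1 U t _
  have h1 : ∀ v ∉ U, ∀ S, g2 (D0 := d.D0) (z := ZZ η Y) U t (ES Y) v S = if S = ∅ then 1 else 0 := by
    intro v hv S
    unfold g2
    rw [if_neg hv]
  have h2 : ∀ v S, g2 (D0 := d.D0) (z := ZZ η Y) U t (ES Y) v S ^ 2 = g2 U t (ES Y) v S := by
    intro v S
    unfold g2
    split_ifs
    · exact gX_sq _ _ _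
    · norm_num
    · norm_num
  have hm := maj_up hG hG2 hs hS U B h1 h2 (y := yY d η τ L Y) (fun κ => yw_nonneg L _ _ κ)
    (fun κ => yw_le L _ _ κ)
  have he : Ex (qB (VV k) (xY d η Y) B) (fun c => FF (xY d η Y) (yY d η τ L Y) (era U (off B c)) ^ 2 *
      FF (xY d η Y) (y2Y d η Y U t) (kee U (off B c)) ^ 2) =
      Ex (qB (VV k) (xY d η Y) B) (fun c => FF (xY d η Y) (yY d η τ L Y) (era U c) ^ 2 *
        FF (xY d η Y) (fun κ => ∏ v, g2 U t (ES Y) v (fib κ v)) (kee U c) ^ 2) := by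
    refine Ex_congr fun c hc => ?_
    have h3 : off B c = c := by
      refine off_of_prb (fun i hi v => ?_) c hc
      unfold qB
      rw [if_pos hi]
    rw [h3]
    rfl
  have hQ : QOK (qB (VV k) (xY d η Y) B) := by
    have hq0 : ∀ i v, 0 ≤ qB (VV k) (xY d η Y) B i v ∧ qB (VV k) (xY d η Y) B i v ≤ xY d η Y i := by
      intro i v
      have := (hG.x_pos i).le
      unfold qB
      split_ifs
      · exact ⟨le_rfl, this⟩
      · exact ⟨this, le_rfl⟩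
    refine ⟨fun i v => (hq0 i v).1, fun i => ?_⟩
    calc ∑ v, qB (VV k) (xY d η Y) B i v ≤ ∑ _v : VV k, xY d η Y i := Finset.sum_le_sum fun v _ => (hq0 i v).2
      _ = Fintype.card (VV k) * xY d η Y i := by rw [Finset.sum_const, Finset.card_univ, nsmul_eq_mul]
      _ ≤ 1 := by linarith [hs i]
  refine ⟨?_, ?_⟩
  · have h0 : Ex (qB (VV k) (xY d η Y) B) (fun _ => (0 : ℝ)) = 0 := by
      unfold Ex
      simp
    rw [← h0]
    exact Ex_mono hQ fun c => by positivity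
  rw [he]
  refine hm.trans (le_of_eq ?_)
  have h4 : ∏ u ∈ U, BB (xY d η Y) (g2 U t (ES Y) u) = ∏ u ∈ U, BB (xY d η Y) (gX (t u) (ES Y)) := by
    refine Finset.prod_congr rfl fun u hu => ?_
    have h5 : g2 (D0 := d.D0) (z := ZZ η Y) U t (ES Y) u = gX (t u) (ES Y) := by
      funext S
      unfold g2
      rw [if_pos hu]
    rw [h5]
  rw [h4]

/-- **The sum over a progression with the majorant.**

Proof. `n ≡ b mod W` and `n ≡ r mod q` is one class modulo `W q`. The function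
`G c = FF (era U (off B c)) ^ 2 * FF2 (kee U (off B c)) ^ 2` has an expansion with coefficients which vanish on the
labelings meeting `B = BQ q` (`FF_hasExp`, `HasExp.mul`, `.era`, `.kee`, `.off`), bounded by `Bd (Y ^ (4 η) Y ^ (6 / 50)) ((log Y) ^ (8 K)) b`
(`Bd_lam`, `Bd_lam2`, `conv_bd`, `Bd.ite`); for the others `nm σ` is prime to `W q`. `tr_int` with the modulus `W q`: main term
`(N2 - N1) / (W q) * Ex (qB B) G` (`Ex_of_hasExp`; `qwt (qB) σ = xwt x σ` for `σ` outside of `B`), error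
`≤ C (log Y) ^ (8 K) Y ^ (8 η + 12 / 50) ≤ Y ^ (3 / 10)`. `maj_up` (under `qB B` the map `off B` does nothing, `off_of_prb`),
`N2 - N1 ≤ 2 Y`; conditions `K / p ≤ 1 / 2`, `22 K ^ 2 SX ≤ 1` hold for `D0 ≥ D1`. -/
theorem maj_sum (k : ℕ) (hk : 0 < k) (L : ℕ) (η τ : ℝ) (hη : 0 < η) (hη1 : η ≤ 1 / 200) (hτ : 0 < τ) (hτ1 : τ ≤ 1) :
    ∃ D1 : ℕ, ∀ d : AData k, D1 ≤ d.D0 → ∀ᶠ Y : ℝ in atTop,
      ∀ (U : Finset (VV k)) (t : VV k → Bool) (q r : ℕ), U.card ≤ 3 → 0 < q → q.Coprime d.W →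
        ∑ n ∈ (Wd d Y).filter (fun n => n ≡ r [MOD q]),
          FF (xY d η Y) (yY d η τ L Y) (era U (off (BQ d η Y q) (cY d η Y n))) ^ 2 *
            FF (xY d η Y) (y2Y d η Y U t) (kee U (off (BQ d η Y q) (cY d η Y n))) ^ 2 ≤
        2 * Y / (d.W * q) * (4 * Th (VV k) (xY d η Y) (BQ d η Y q) ^ 4 *
          ((∏ v ∈ Uᶜ, AA (xY d η Y) (gY d η τ L Y v)) * (∏ u ∈ U, BB (xY d η Y) (gY d η τ L Y u)) ^ 2) *
            ∏ u ∈ U, BB (xY d η Y) (gX (t u) (ES Y))) + Y ^ (3 / 10 : ℝ) := by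
  obtain ⟨C', hC', hsum⟩ := sum_abs_le (VV k) 25 (by norm_num)
  refine ⟨22 * (k + k ^ 2) ^ 2 + 2 * (k + k ^ 2) + 1, fun d hD => ?_⟩
  filter_upwards [Bd_lam hk L η τ hη hη1 hτ hτ1 d, Bd_lam2 η hη hη1 d, AR7a_err C' η hη1 (k + k ^ 2),
    eventually_ge_atTop 4] with Y hb1 hb2 herr hY4 U t q r hU hq hqW
  have hY0 : 0 < Y := by linarith
  have hY1 : 1 ≤ Y := by linarith
  have hlog : 0 ≤ Real.log Y := Real.log_nonneg hY1
  obtain ⟨B, hB⟩ : ∃ B, B = BQ d η Y q := ⟨_, rfl⟩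
  rw [← hB]
  obtain ⟨α, a1, a2, a3⟩ := AR7a_exp (xY d η Y) (yY d η τ L Y) (y2Y d η Y U t) U B hb1 (hb2 U t hU)
    (Real.rpow_nonneg hY0.le _) (Real.rpow_nonneg hY0.le _) (pow_nonneg hlog _) (pow_nonneg hlog _)
  have hL1 : 1 ≤ Y ^ (2 * η) * Y ^ (2 * η) * (Y ^ (3 / 50 : ℝ) * Y ^ (3 / 50 : ℝ)) := by
    have h1 : 1 ≤ Y ^ (2 * η) := Real.one_le_rpow hY1 (by linarith)
    have h2 : 1 ≤ Y ^ (3 / 50 : ℝ) := Real.one_le_rpow hY1 (by norm_num)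
    have h3 : 1 ≤ Y ^ (2 * η) * Y ^ (2 * η) := one_le_mul_of_one_le_of_one_le h1 h1
    have h4 : 1 ≤ Y ^ (3 / 50 : ℝ) * Y ^ (3 / 50 : ℝ) := one_le_mul_of_one_le_of_one_le h2 h2
    exact one_le_mul_of_one_le_of_one_le h3 h4
  have hsα := hsum d.D0 (ZZ η Y) α _ _ hL1 (by positivity) a3
  obtain ⟨hN, hN2⟩ := AR7a_win Y hY4
  obtain ⟨r', hr'⟩ := Nat.chineseRemainder hqW.symm d.b r
  have hWq : 0 < d.W * q := Nat.mul_pos d.W_pos hq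
  have htr := tr_int d (ZZ η Y) (d.W * q) r' ⌊Y / 2⌋₊ ⌈2 * Y⌉₊ hN hWq α (fun σ hσ => by
    refine AR7a_cop d q σ fun p hp => a2 σ hσ p ?_
    rw [hB]
    exact Finset.mem_filter.2 ⟨Finset.mem_univ _, hp⟩)
  have hfil : (Wd d Y).filter (fun n => n ≡ r [MOD q]) =
      (Ico ⌊Y / 2⌋₊ ⌈2 * Y⌉₊).filter (fun n => n ≡ r' [MOD d.W * q]) := by
    unfold Wd
    rw [Finset.filter_filter]
    refine Finset.filter_congr fun n _ => ?_
    rw [← Nat.modEq_and_modEq_iff_modEq_mul hqW.symm]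
    constructor
    · rintro ⟨h1, h2⟩
      exact ⟨h1.trans hr'.1.symm, h2.trans hr'.2.symm⟩
    · rintro ⟨h1, h2⟩
      exact ⟨h1.trans hr'.1, h2.trans hr'.2⟩
  rw [hfil]
  have hG : ∀ n, FF (xY d η Y) (yY d η τ L Y) (era U (off B (cY d η Y n))) ^ 2 *
      FF (xY d η Y) (y2Y d η Y U t) (kee U (off B (cY d η Y n))) ^ 2 = ∑ σ ∈ dn (cc d (ZZ η Y) n), α σ :=
    fun n => a1 (cY d η Y n)
  rw [Finset.sum_congr rfl fun n _ => hG n]
  have hEx : ∑ σ, α σ * xwt (xr d.D0 (ZZ η Y)) σ =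
      Ex (qB (VV k) (xY d η Y) B) (fun c => FF (xY d η Y) (yY d η τ L Y) (era U (off B c)) ^ 2 *
        FF (xY d η Y) (y2Y d η Y U t) (kee U (off B c)) ^ 2) := by
    rw [Ex_of_hasExp _ a1]
    refine Finset.sum_congr rfl fun σ _ => ?_
    by_cases hσ : α σ = 0
    · rw [hσ, zero_mul, zero_mul]
    · rw [AR7a_qwt _ _ _ (a2 σ hσ)]
      rfl
  rw [hEx] at htr
  obtain ⟨hEx0, hmain⟩ := AR7a_main L η τ d hD Y U t B
  have h5 := (abs_le.1 htr).2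
  have h6 : ((⌈2 * Y⌉₊ : ℝ) - ⌊Y / 2⌋₊) / ((d.W * q : ℕ) : ℝ) * Ex (qB (VV k) (xY d η Y) B)
      (fun c => FF (xY d η Y) (yY d η τ L Y) (era U (off B c)) ^ 2 *
        FF (xY d η Y) (y2Y d η Y U t) (kee U (off B c)) ^ 2) ≤ 2 * Y / (d.W * q) *
        (4 * Th (VV k) (xY d η Y) B ^ 4 *
        ((∏ v ∈ Uᶜ, AA (xY d η Y) (gY d η τ L Y v)) * (∏ u ∈ U, BB (xY d η Y) (gY d η τ L Y u)) ^ 2) *
          ∏ u ∈ U, BB (xY d η Y) (gX (t u) (ES Y))) := by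
    have h7 : ((d.W * q : ℕ) : ℝ) = d.W * q := by push_cast; ring
    rw [h7]
    have h8 : (0 : ℝ) < d.W * q := by rw [← h7]; exact_mod_cast hWq
    refine mul_le_mul ?_ hmain hEx0 (div_nonneg (by linarith) h8.le)
    exact div_le_div_of_nonneg_right hN2 h8.le
  linarith

end Pool.Agent.Wd33b62
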