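import Pool.Agent.W_d33b62_h36.AR7a

/-!
# Upper bounds with a majorant (helper36, MP_d33b62_nt)
-/

set_option autoImplicit false

noncomputable section

open Finset Filter

namespace Pool.Agent.Wd33b62

open Pool.Agent.Wb58c63 (PI mem_PI VP ap Pr XM)

/-- The normalisation: `maj_nul`, `K ^ 2 SX ≤ 1 / 2` for `D0 ≥ D1`. -/
theorem maj_norm (k : ℕ) : ∃ D1 : ℕ, ∀ d : AData k, D1 ≤ d.D0 → ∀ (η Y : ℝ) (U : Finset (VV k)) (t : VV k → Bool),
    1 / 2 * ∏ u ∈ U, BB (xY d η Y) (gX (t u) (ES Y)) ≤ FF (xY d η Y) (y2Y d η Y U t) nul := by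
  classical
  refine ⟨2 * Fintype.card (VV k) ^ 2 + 1, fun d hd η Y U t => ?_⟩
  have hD1 : 1 ≤ d.D0 := le_trans (Nat.succ_le_succ (Nat.zero_le _)) hd
  have hG : GH (xY d η Y) (g2 (V := VV k) U t (ES Y)) := GH_g2 hD1 U t (ES Y)
  have h1 : ∀ v ∉ U, ∀ S : Finset (PY d η Y), g2 U t (ES Y) v S = if S = ∅ then 1 else 0 := by
    intro v hv S
    unfold g2
    rw [if_neg hv]
  have h2 := maj_nul hG U h1
  have hSX : SX (xY d η Y) ≤ 1 / (d.D0 : ℝ) := SX_xr_le hD1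
  have hD0 : (0 : ℝ) < d.D0 := by exact_mod_cast hD1
  have hK : (Fintype.card (VV k) : ℝ) ^ 2 * SX (xY d η Y) ≤ 1 / 2 := by
    have h3 : (2 * (Fintype.card (VV k) : ℝ) ^ 2 + 1) ≤ d.D0 := by exact_mod_cast hd
    have h4 : (Fintype.card (VV k) : ℝ) ^ 2 * SX (xY d η Y) ≤
        (Fintype.card (VV k) : ℝ) ^ 2 * (1 / (d.D0 : ℝ)) :=
      mul_le_mul_of_nonneg_left hSX (sq_nonneg _)
    refine h4.trans ?_
    rw [mul_one_div, div_le_div_iff₀ hD0 (by norm_num)]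
    linarith
  have h5 : ∏ u ∈ U, BB (xY d η Y) (g2 U t (ES Y) u) = ∏ u ∈ U, BB (xY d η Y) (gX (t u) (ES Y)) := by
    refine Finset.prod_congr rfl fun u hu => ?_
    congr 1
    funext S
    unfold g2
    rw [if_pos hu]
  rw [h5] at h2
  have h6 : 0 ≤ ∏ u ∈ U, BB (xY d η Y) (gX (t u) (ES Y)) := by
    refine Finset.prod_nonneg fun u _ => ?_
    unfold BB
    exact Finset.sum_nonneg fun S _ => mul_nonneg (gX_nonneg _ _ _)
      (Finset.prod_nonneg fun i _ => (hG.x_pos i).le)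
  refine le_trans (mul_le_mul_of_nonneg_right ?_ h6) h2
  linarith

end Pool.Agent.Wd33b62
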