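import Pool.Agent.W_d33b62_h36.AR1d
import Pool.Agent.W_d33b62_h36.AR4e
import Pool.Agent.W_d33b62_h36.AR7b
import Pool.Agent.W_d33b62_h36.BV4

/-!
# Upper bounds with a majorant (helper36, MP_d33b62_nt)
-/

set_option autoImplicit false

noncomputable section

open Finset Filter

namespace Pool.Agent.Wd33b62

open Pool.Agent.Wb58c63 (PI mem_PI VP ap Pr XM)

/-- No place has the label `inl i` if `n + h i` is a large prime. -/
theorem AR7c_inl {k : ℕ} (d : AData k) (z : ℝ) (n : ℕ) (i : Fin k) (hp : (n + d.h i).Prime)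
    (hz : z ≤ ((n + d.h i : ℕ) : ℝ)) (q : Pl d.D0 z) : cc d z n q ≠ some (Sum.inl i) := by
  intro h
  have h1 : q.1 ∣ n + d.h i := (cc_iff d z n q (Sum.inl i)).1 h
  have h2 := mem_PS.1 q.2
  have h3 : q.1 = n + d.h i := (Nat.prime_dvd_prime_iff_eq h2.1 hp).1 h1
  have h4 := h2.2.2
  rw [h3] at h4
  linarith

/-- No place `≡ 3 mod 4` has the label `inr (i, j)` if `M i j n` is good. -/
theorem AR7c_inr {k : ℕ} (d : AData k) (z : ℝ) (n : ℕ) (i j : Fin k) (hn : n ≡ d.b [MOD d.W])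
    (hg : GoodP (d.M i j n)) (q : Pl d.D0 z) (h3 : q.1 % 4 = 3) : cc d z n q ≠ some (Sum.inr (i, j)) := by
  intro h
  have h1 : q.1 ∣ n + (d.h i + d.a i j) := (cc_iff d z n q (Sum.inr (i, j))).1 h
  have h2 := mem_PS.1 q.2
  obtain ⟨m, hm⟩ := d.dvd i j n hn
  have hD := d.D_pos i j
  have h5 : d.M i j n = m := by
    unfold AData.M
    rw [hm]
    exact Nat.mul_div_cancel_left m (by positivity)
  rw [hm] at h1
  rcases (Nat.Prime.dvd_mul h2.1).1 h1 with h6 | h6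
  · rcases (Nat.Prime.dvd_mul h2.1).1 h6 with h7 | h7
    · have h8 : q.1 ≤ 2 := Nat.le_of_dvd (by norm_num) h7
      have := d.D0_ge
      omega
    · have h8 : q.1 ≤ d.D0 := (d.W_primes q.1 h2.1).1 (h7.trans (d.D_dvd i j))
      omega
  · have h8 := hg q.1 h2.1 (by rw [h5]; exact h6)
    omega

/-- The labels of the three forms. -/
def AR7c_U {k : ℕ} (i j j' : Fin k) : Finset (VV k) := {Sum.inl i, Sum.inr (i, j), Sum.inr (i, j')}

def AR7c_t {k : ℕ} : VV k → Bool := Sum.elim (fun _ => false) (fun _ => true)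

theorem AR7c_lab {k : ℕ} (d : AData k) (z : ℝ) (n : ℕ) (i j j' : Fin k) (hn : n ≡ d.b [MOD d.W])
    (hp : (n + d.h i).Prime) (hz : z ≤ ((n + d.h i : ℕ) : ℝ)) (hg : GoodP (d.M i j n))
    (hg' : GoodP (d.M i j' n)) (q : Pl d.D0 z) (v : VV k) (hv : v ∈ AR7c_U i j j')
    (h3 : AR7c_t v = true → q.1 % 4 = 3) : cc d z n q ≠ some v := by
  unfold AR7c_U at hv
  simp only [Finset.mem_insert, Finset.mem_singleton] at hv
  rcases hv with rfl | rfl | rfl
  · exact AR7c_inl d z n i hp hz q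
  · exact AR7c_inr d z n i j hn hg q (h3 rfl)
  · exact AR7c_inr d z n i j' hn hg' q (h3 rfl)

theorem AR7c_kee {k : ℕ} (d : AData k) (η Y : ℝ) (n : ℕ) (i j j' : Fin k) (hn : n ≡ d.b [MOD d.W])
    (hp : (n + d.h i).Prime) (hz : ZZ η Y ≤ ((n + d.h i : ℕ) : ℝ)) (hg : GoodP (d.M i j n))
    (hg' : GoodP (d.M i j' n)) :
    FF (xY d η Y) (y2Y d η Y (AR7c_U i j j') AR7c_t) (kee (AR7c_U i j j') (cY d η Y n)) =
      FF (xY d η Y) (y2Y d η Y (AR7c_U i j j') AR7c_t) nul := by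
  classical
  refine FF_congr _ _ _ _ fun κ hκ q hq => ?_
  obtain ⟨v, hv⟩ := Option.ne_none_iff_exists'.1 hq
  have h1 : ∀ v, g2 (AR7c_U i j j') AR7c_t (ES Y) v (fib κ v) ≠ 0 := by
    intro v
    unfold y2Y at hκ
    exact (Finset.prod_ne_zero_iff.1 hκ) v (Finset.mem_univ v)
  have h2 := h1 v
  have hqf : q ∈ fib κ v := by
    unfold fib
    rw [Finset.mem_filter]
    exact ⟨Finset.mem_univ _, hv⟩
  unfold g2 at h2
  have hvU : v ∈ AR7c_U i j j' := by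
    by_contra hc
    rw [if_neg hc] at h2
    have h3 : fib κ v ≠ ∅ := Finset.ne_empty_of_mem hqf
    rw [if_neg h3] at h2
    exact h2 rfl
  rw [if_pos hvU] at h2
  have h3 : AR7c_t v = true → q.1 % 4 = 3 := by
    intro ht
    unfold gX at h2
    by_contra hc
    apply h2
    rw [if_neg]
    rintro ⟨_, h4⟩
    exact hc (h4 q hqf ht)
  have h4 := AR7c_lab d (ZZ η Y) n i j j' hn hp hz hg hg' q v hvU h3
  rw [hv]
  constructor
  · intro h
    exfalso
    apply h4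
    unfold kee at h
    have h5 : cY d η Y n q = some v := by
      rcases hc : cY d η Y n q with _ | w
      · rw [hc] at h
        simp at h
      · rw [hc] at h
        simp only [Option.filter_some] at h
        split_ifs at h with h6
        exact h
    exact h5
  · intro h
    exact absurd h (by unfold nul; simp)

theorem AR7c_era {k : ℕ} (d : AData k) (η τ : ℝ) (L : ℕ) (Y : ℝ) (n : ℕ) (i j j' : Fin k) (hn : n ≡ d.b [MOD d.W])
    (hp : (n + d.h i).Prime) (hz : ZZ η Y ≤ ((n + d.h i : ℕ) : ℝ)) (hg : GoodP (d.M i j n))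
    (hg' : GoodP (d.M i j' n)) :
    FF (xY d η Y) (yY d η τ L Y) (cY d η Y n) =
      FF (xY d η Y) (yY d η τ L Y) (era (AR7c_U i j j') (cY d η Y n)) := by
  classical
  refine FF_congr _ _ _ _ fun κ hκ q hq => ?_
  obtain ⟨v, hv⟩ := Option.ne_none_iff_exists'.1 hq
  rw [hv]
  by_cases hvU : v ∈ AR7c_U i j j'
  · have h3 : AR7c_t v = true → q.1 % 4 = 3 := by
      intro ht
      rcases v with v | x
      · exact absurd ht (by unfold AR7c_t; simp)
      · exact yw_inert L (RR η Y) (EE η τ k Y) κ hκ q x hv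
    have h4 := AR7c_lab d (ZZ η Y) n i j j' hn hp hz hg hg' q v hvU h3
    constructor
    · intro h
      exact absurd h h4
    · intro h
      exfalso
      unfold era at h
      rcases hc : cY d η Y n q with _ | w
      · rw [hc] at h
        simp at h
      · rw [hc] at h
        simp only [Option.filter_some] at h
        split_ifs at h with h6
        have h7 : w = v := by simpa using h
        rw [h7] at h6
        simp [hvU] at h6
  · unfold era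
    rcases hc : cY d η Y n q with _ | w
    · simp
    · simp only [Option.filter_some]
      split_ifs with h6
      · rfl
      · constructor
        · intro h
          have h7 : w = v := by simpa using h
          rw [h7] at h6
          simp [hvU] at h6
        · intro h
          simp at h

theorem AR7c_growth (φ : ℝ) : ∀ᶠ Y : ℝ in atTop, φ * (16 * (Real.log Y) ^ 3 * Y ^ (3 / 10 : ℝ)) ≤ Y := by
  have h1 := (isLittleO_log_rpow_atTop (r := (1 / 10 : ℝ)) (by norm_num)).bound (c := 1) one_pos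
  have h2 : ∀ᶠ Y : ℝ in atTop, 16 * |φ| ≤ Y ^ (1 / 10 : ℝ) :=
    (tendsto_rpow_atTop (by norm_num)).eventually_ge_atTop _
  filter_upwards [h1, h2, eventually_ge_atTop (1 : ℝ)] with Y a1 a2 a3
  have hY0 : 0 < Y := by linarith
  have hl : 0 ≤ Real.log Y := Real.log_nonneg a3
  have hp : 0 < Y ^ (1 / 10 : ℝ) := Real.rpow_pos_of_pos hY0 _
  rw [one_mul, Real.norm_of_nonneg hl, Real.norm_of_nonneg hp.le] at a1
  have b1 : (Real.log Y) ^ 3 ≤ (Y ^ (1 / 10 : ℝ)) ^ 3 := pow_le_pow_left₀ hl a1 3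
  have b2 : (Y ^ (1 / 10 : ℝ)) ^ 3 * Y ^ (3 / 10 : ℝ) * Y ^ (1 / 10 : ℝ) = Y ^ (7 / 10 : ℝ) := by
    rw [← Real.rpow_natCast, ← Real.rpow_mul hY0.le, ← Real.rpow_add hY0, ← Real.rpow_add hY0]
    norm_num
  have b3 : Y ^ (7 / 10 : ℝ) ≤ Y := by
    calc Y ^ (7 / 10 : ℝ) ≤ Y ^ (1 : ℝ) := Real.rpow_le_rpow_of_exponent_le a3 (by norm_num)
      _ = Y := Real.rpow_one Y
  have hq : 0 < Y ^ (3 / 10 : ℝ) := Real.rpow_pos_of_pos hY0 _
  calc φ * (16 * (Real.log Y) ^ 3 * Y ^ (3 / 10 : ℝ))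
      ≤ |φ| * (16 * (Real.log Y) ^ 3 * Y ^ (3 / 10 : ℝ)) :=
        mul_le_mul_of_nonneg_right (le_abs_self φ) (by positivity)
    _ = (Real.log Y) ^ 3 * Y ^ (3 / 10 : ℝ) * (16 * |φ|) := by ring
    _ ≤ (Y ^ (1 / 10 : ℝ)) ^ 3 * Y ^ (3 / 10 : ℝ) * Y ^ (1 / 10 : ℝ) := by
        refine mul_le_mul (mul_le_mul_of_nonneg_right b1 hq.le) a2 (by positivity) (by positivity)
    _ = Y ^ (7 / 10 : ℝ) := b2
    _ ≤ Y := b3

open Classical in
/-- The sum over the primes is at most the sum over the window. -/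
theorem AR7c_sum {k : ℕ} (d : AData k) (η τ : ℝ) (hη : 0 < η) (hη1 : η ≤ 1 / 200) (L κ : ℕ) {Y lm : ℝ} (hY1 : 1 ≤ Y)
    (hYD : 2 * (d.D0 : ℝ) ≤ Y) (haw : ∀ n : ℕ, Wb58c63.aw κ Y n ≤ 2) (i j j' : Fin k) (hlm : 0 < lm)
    (hl : lm ≤ FF (xY d η Y) (y2Y d η Y (AR7c_U i j j') AR7c_t) nul) :
    (∑ p ∈ Pd d i Y, if GoodP (d.M i j (p - d.h i)) ∧ GoodP (d.M i j' (p - d.h i)) then
          ap κ Y p * wY d η τ L Y (p - d.h i) else 0) ≤
      2 * Real.log (2 * Y) / lm ^ 2 * ∑ n ∈ Wd d Y, FF (xY d η Y) (yY d η τ L Y) (era (AR7c_U i j j') (cY d η Y n)) ^ 2 *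
        FF (xY d η Y) (y2Y d η Y (AR7c_U i j j') AR7c_t) (kee (AR7c_U i j j') (cY d η Y n)) ^ 2 := by
  have hlog : 0 ≤ Real.log (2 * Y) := Real.log_nonneg (by linarith)
  set G : ℕ → ℝ := fun n => 2 * Real.log (2 * Y) / lm ^ 2 *
    (FF (xY d η Y) (yY d η τ L Y) (era (AR7c_U i j j') (cY d η Y n)) ^ 2 *
        FF (xY d η Y) (y2Y d η Y (AR7c_U i j j') AR7c_t) (kee (AR7c_U i j j') (cY d η Y n)) ^ 2) with hG
  have hG0 : ∀ n, 0 ≤ G n := by
    intro n
    rw [hG]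
    positivity
  rw [Finset.mul_sum]
  have hhi : d.h i ≤ d.D0 := d.sh_le (Sum.inl i)
  have hhiR : (d.h i : ℝ) ≤ d.D0 := by exact_mod_cast hhi
  have hD0 : (0 : ℝ) ≤ d.D0 := Nat.cast_nonneg _
  have hzY : ZZ η Y ≤ Y := by
    unfold ZZ
    calc Y ^ ((1 / 2 - 6 * η) / (1 + η)) ≤ Y ^ (1 : ℝ) := by
          refine Real.rpow_le_rpow_of_exponent_le hY1 ?_
          rw [div_le_one (by linarith)]
          linarith
      _ = Y := Real.rpow_one Y
  set T : Finset ℕ := (Pd d i Y).filter fun p => Wb58c63.aw κ Y p ≠ 0 with hT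
  have hTm : ∀ p ∈ T, p.Prime ∧ Y < p ∧ (p : ℝ) < 2 * Y ∧ p ≡ d.b + d.h i [MOD d.W] := by
    intro p hp
    rw [hT, mem_filter] at hp
    have h1 := hp.1
    unfold Pd Pr at h1
    rw [mem_filter, mem_filter] at h1
    obtain ⟨h2, h3⟩ := Wb58c63.aw_support κ Y hY1 p hp.2
    exact ⟨h1.1.2, h2, h3, h1.2⟩
  have hTn : ∀ p ∈ T, d.h i ≤ p ∧ p - d.h i ≡ d.b [MOD d.W] ∧ p - d.h i ∈ Wd d Y := by
    intro p hp
    obtain ⟨hp1, hp2, hp3, hp4⟩ := hTm p hp
    have hle : d.h i ≤ p := by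
      have : (d.h i : ℝ) ≤ p := by linarith
      exact_mod_cast this
    have h5 : p - d.h i ≡ d.b [MOD d.W] := by
      have h5 : p - d.h i + d.h i ≡ d.b + d.h i [MOD d.W] := by
        rw [Nat.sub_add_cancel hle]
        exact hp4
      exact Nat.ModEq.add_right_cancel' (d.h i) h5
    refine ⟨hle, h5, ?_⟩
    unfold Wd
    rw [mem_filter, mem_Ico]
    refine ⟨⟨?_, ?_⟩, h5⟩
    · have h3 : (⌊Y / 2⌋₊ : ℝ) ≤ Y / 2 := Nat.floor_le (by linarith)
      have h4 : (⌊Y / 2⌋₊ : ℝ) ≤ ((p - d.h i : ℕ) : ℝ) := by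
        rw [Nat.cast_sub hle]
        linarith
      exact_mod_cast h4
    · rw [Nat.lt_ceil, Nat.cast_sub hle]
      have : (0 : ℝ) ≤ d.h i := Nat.cast_nonneg _
      linarith
  have h1 : (∑ p ∈ Pd d i Y, if GoodP (d.M i j (p - d.h i)) ∧ GoodP (d.M i j' (p - d.h i)) then
          ap κ Y p * wY d η τ L Y (p - d.h i) else 0) ≤ ∑ p ∈ T, G (p - d.h i) := by
    have e1 : (∑ p ∈ Pd d i Y, if GoodP (d.M i j (p - d.h i)) ∧ GoodP (d.M i j' (p - d.h i)) then
        ap κ Y p * wY d η τ L Y (p - d.h i) else 0) =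
        ∑ p ∈ T, if GoodP (d.M i j (p - d.h i)) ∧ GoodP (d.M i j' (p - d.h i)) then
        ap κ Y p * wY d η τ L Y (p - d.h i) else 0 := by
      rw [hT]
      refine (Finset.sum_filter_of_ne ?_).symm
      intro p _ hne h0
      apply hne
      unfold Wb58c63.ap
      rw [h0]
      simp
    rw [e1]
    refine Finset.sum_le_sum fun p hp => ?_
    obtain ⟨hp1, hp2, hp3, hp4⟩ := hTm p hp
    obtain ⟨hle, hpn, hpW⟩ := hTn p hp
    by_cases hj : GoodP (d.M i j (p - d.h i)) ∧ GoodP (d.M i j' (p - d.h i))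
    · rw [if_pos hj]
      have hpr : (p - d.h i + d.h i).Prime := by rw [Nat.sub_add_cancel hle]; exact hp1
      have hz : ZZ η Y ≤ ((p - d.h i + d.h i : ℕ) : ℝ) := by
        rw [Nat.sub_add_cancel hle]
        linarith
      have e2 := AR7c_kee d η Y (p - d.h i) i j j' hpn hpr hz hj.1 hj.2
      have e3 := AR7c_era d η τ L Y (p - d.h i) i j j' hpn hpr hz hj.1 hj.2
      rw [hG]
      dsimp only
      rw [e2, ← e3]
      unfold wY
      have hw : 0 ≤ FF (xY d η Y) (yY d η τ L Y) (cY d η Y (p - d.h i)) ^ 2 := sq_nonneg _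
      have hap : ap κ Y p ≤ 2 * Real.log (2 * Y) := by
        unfold Wb58c63.ap
        have hpp : (0 : ℝ) < p := by exact_mod_cast hp1.pos
        have hl1 : Real.log p ≤ Real.log (2 * Y) := Real.log_le_log hpp hp3.le
        have hl0 : 0 ≤ Real.log p := Real.log_natCast_nonneg p
        exact mul_le_mul (haw p) hl1 hl0 two_pos.le
      have h5 : 1 ≤ FF (xY d η Y) (y2Y d η Y (AR7c_U i j j') AR7c_t) nul ^ 2 / lm ^ 2 := by
        rw [one_le_div (by positivity)]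
        exact pow_le_pow_left₀ hlm.le hl 2
      calc ap κ Y p * FF (xY d η Y) (yY d η τ L Y) (cY d η Y (p - d.h i)) ^ 2
          ≤ 2 * Real.log (2 * Y) * FF (xY d η Y) (yY d η τ L Y) (cY d η Y (p - d.h i)) ^ 2 :=
            mul_le_mul_of_nonneg_right hap hw
        _ = 2 * Real.log (2 * Y) * FF (xY d η Y) (yY d η τ L Y) (cY d η Y (p - d.h i)) ^ 2 * 1 := (mul_one _).symm
        _ ≤ 2 * Real.log (2 * Y) * FF (xY d η Y) (yY d η τ L Y) (cY d η Y (p - d.h i)) ^ 2 *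
            (FF (xY d η Y) (y2Y d η Y (AR7c_U i j j') AR7c_t) nul ^ 2 / lm ^ 2) :=
            mul_le_mul_of_nonneg_left h5 (by positivity)
        _ = _ := by
            ring
    · rw [if_neg hj]
      exact hG0 _
  refine h1.trans ?_
  have hinj : Set.InjOn (fun p : ℕ => p - d.h i) (T : Set ℕ) := by
    intro p hp q hq hpq
    have h2 := (hTn p hp).1
    have h3 := (hTn q hq).1
    dsimp only at hpq
    omega
  have h2 : ∑ p ∈ T, G (p - d.h i) = ∑ n ∈ T.image (fun p => p - d.h i), G n :=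
    (Finset.sum_image hinj).symm
  rw [h2]
  refine Finset.sum_le_sum_of_subset_of_nonneg ?_ fun n _ _ => hG0 n
  intro n hn
  rw [mem_image] at hn
  obtain ⟨p, hp, rfl⟩ := hn
  exact (hTn p hp).2.2

/-- **The pairs.** Both `M i j (n)` and `M i j' (n)` are good, `n + h i = p` prime.

Proof. `U = {inl i, inr (i, j), inr (i, j')}`, `t = false` for `inl i`, `true` for the other labels, `q = 1`. For such `n = p - h i`,
`ap ≠ 0`: no place has the label `inl i` (`p > Y > ZZ` is prime); the places with labels `inr (i, j)`, `inr (i, j')` are not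
`≡ 3 mod 4` (they divide `M`, since they are prime to `2 D ∣ 2 W`). So `wY n = FF (era U c) ^ 2` and
`FF2 (kee U c) = FF2 nul =: λ` (`FF_congr`, `yw_inert`; `off ∅ c = c`), hence the sum is at most
`2 log (2 Y) / λ ^ 2` times the sum of `maj_sum` (`aw_le_two`, `p - h i ∈ Wd`). With `maj_norm` it is at most
`2 log (2 Y) (2 Y / W * 16 Π / (GA GI ^ 2) + 4 Y ^ (3 / 10))`, `Π` from `prodU3`, `GA ≥ c φ(W) / W log Y` (`GA_low`), `1 / GI ≤ C V0` (`GI_low`).
The error is absorbed (`V0_weak`, `A0, B0, G0 ≥ 1`). -/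
theorem PA_le : ∃ C4 : ℝ, 0 < C4 ∧ ∀ (k : ℕ), 0 < k → ∀ (L : ℕ) (η τ : ℝ), 0 < η → η ≤ 1 / 200 → 0 < τ → τ ≤ 1 →
    ∃ D1 : ℕ, ∀ d : AData k, D1 ≤ d.D0 → ∀ κ : ℕ, ∀ᶠ Y : ℝ in atTop, ∀ i j j' : Fin k, j ≠ j' →
      (∑ p ∈ Pd d i Y, open Classical in if GoodP (d.M i j (p - d.h i)) ∧ GoodP (d.M i j' (p - d.h i)) then
          ap κ Y p * wY d η τ L Y (p - d.h i) else 0) ≤
        C4 * (Y / (d.W.totient : ℝ)) * V0 d η Y ^ 2 *
          (A0 d η L Y ^ (k - 1) * B0 d η L Y ^ 2 * G0 d η τ Y ^ (k ^ 2 + 2)) := by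
  classical
  obtain ⟨cA, hcA, hA⟩ := GA_low
  obtain ⟨cI, hcI, hI⟩ := GI_low
  refine ⟨256 / (cA * cI ^ 2) + 1, by positivity, fun k hk L η τ hη hη1 hτ hτ1 => ?_⟩
  obtain ⟨D1, h1⟩ := maj_sum k hk L η τ hη hη1 hτ hτ1
  obtain ⟨D2, h2⟩ := maj_norm k
  obtain ⟨D3, h3⟩ := hI k
  obtain ⟨D4, h4⟩ := V0_weak (k := k)
  refine ⟨max (max D1 D2) (max D3 D4), fun d hd κ => ?_⟩
  have hd1 : D1 ≤ d.D0 := le_trans (le_trans (le_max_left _ _) (le_max_left _ _)) hd
  have hd2 : D2 ≤ d.D0 := le_trans (le_trans (le_max_right _ _) (le_max_left _ _)) hd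
  have hd3 : D3 ≤ d.D0 := le_trans (le_trans (le_max_left _ _) (le_max_right _ _)) hd
  have hd4 : D4 ≤ d.D0 := le_trans (le_trans (le_max_right _ _) (le_max_right _ _)) hd
  obtain ⟨Y₀, hY₀, haw⟩ := aw_le_two κ
  filter_upwards [h1 d hd1, hA k d η hη hη1, h3 d hd3 η hη hη1, h4 d hd4 η hη hη1, eventually_ge_atTop Y₀,
    eventually_ge_atTop (2 * (d.D0 : ℝ)), eventually_ge_atTop (3 : ℝ), AR7c_growth (d.W.totient : ℝ),
    (tendsto_rpow_atTop (y := η * τ ^ 2 / (k : ℝ) ^ 2) (by positivity)).eventually_ge_atTop 1,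
    (tendsto_rpow_atTop (y := (1 / 50 : ℝ)) (by norm_num)).eventually_ge_atTop 1,
    (tendsto_rpow_atTop hη).eventually_ge_atTop 1]
    with Y m1 m2 m3 m4 hY hYD hY3 hgr hE1 hES1 hR1 i j j' hjj
  have hY1 : 1 ≤ Y := by linarith
  have hY0 : 0 < Y := by linarith
  have hlY : 0 < Real.log Y := Real.log_pos (by linarith)
  have hl1 : 1 ≤ Real.log Y := by
    rw [Real.le_log_iff_exp_le hY0]
    have := Real.exp_one_lt_d9
    linarith
  have hl2 : Real.log (2 * Y) ≤ 2 * Real.log Y := by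
    have e : 2 * Real.log Y = Real.log (Y ^ 2) := by
      rw [Real.log_pow]
      norm_num
    rw [e]
    apply Real.log_le_log (by linarith)
    nlinarith
  have hl20 : 0 ≤ Real.log (2 * Y) := Real.log_nonneg (by linarith)
  have hφ : (0 : ℝ) < d.W.totient := by exact_mod_cast Nat.totient_pos.2 d.W_pos
  have hW : (0 : ℝ) < d.W := by exact_mod_cast d.W_pos
  have hD01 : 1 ≤ d.D0 := le_trans (by norm_num) d.D0_ge
  -- the quantities
  obtain ⟨GA, hGA⟩ : ∃ GA, GA = BB (xY d η Y) (gX false (ES Y)) := ⟨_, rfl⟩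
  obtain ⟨GI, hGI⟩ : ∃ GI, GI = BB (xY d η Y) (gX true (ES Y)) := ⟨_, rfl⟩
  obtain ⟨V, hV⟩ : ∃ V, V = V0 d η Y := ⟨_, rfl⟩
  have hGA1 : 1 ≤ GA := by
    rw [hGA]
    exact one_le_BB hD01 _ (gX_nonneg _ _) (gX_empty _ _ hES1).ge
  have hGI1 : 1 ≤ GI := by
    rw [hGI]
    exact one_le_BB hD01 _ (gX_nonneg _ _) (gX_empty _ _ hES1).ge
  have hA01 : 1 ≤ A0 d η L Y := one_le_AA hD01 _ ((one_le_pow₀ (by norm_num)).trans (gS_empty L (RR η Y) hR1).ge)
  have hB01 : 1 ≤ B0 d η L Y := one_le_BB hD01 _ (gS_nonneg _ _) ((one_le_pow₀ (by norm_num)).trans (gS_empty L (RR η Y) hR1).ge)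
  have hG01 : 1 ≤ G0 d η τ Y := one_le_BB hD01 _ (gX_nonneg _ _) (gX_empty _ _ hE1).ge
  obtain ⟨P, hP⟩ : ∃ P, P = A0 d η L Y ^ (k - 1) * B0 d η L Y ^ 2 * G0 d η τ Y ^ (k ^ 2 + 2) := ⟨_, rfl⟩
  have hP1 : 1 ≤ P := by
    rw [hP]
    have a1 := one_le_pow₀ hA01 (n := k - 1)
    have a2 := one_le_pow₀ hB01 (n := 2)
    have a3 := one_le_pow₀ hG01 (n := k ^ 2 + 2)
    exact one_le_mul_of_one_le_of_one_le (one_le_mul_of_one_le_of_one_le a1 a2) a3
  have hprod : ∏ u ∈ AR7c_U i j j', BB (xY d η Y) (gX (AR7c_t u) (ES Y)) = GA * GI ^ 2 := by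
    unfold AR7c_U
    rw [Finset.prod_insert, Finset.prod_insert, Finset.prod_singleton]
    · rw [hGA, hGI]
      unfold AR7c_t
      simp only [Sum.elim_inl, Sum.elim_inr]
      ring
    · simp [hjj]
    · simp
  have hQ : 0 < GA * GI ^ 2 := by positivity
  have hQ1 : 1 ≤ GA * GI ^ 2 := one_le_mul_of_one_le_of_one_le hGA1 (one_le_pow₀ hGI1)
  have n1 := h2 d hd2 η Y (AR7c_U i j j') AR7c_t
  rw [hprod] at n1
  have n2 := AR7c_sum d η τ hη hη1 L κ hY1 hYD (haw Y hY) i j j' (lm := 1 / 2 * (GA * GI ^ 2)) (by positivity) n1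
  have n3 := m1 (AR7c_U i j j') AR7c_t 1 0 Finset.card_le_three one_pos (Nat.coprime_one_left _)
  have hB : BQ d η Y 1 = ∅ := by
    unfold BQ
    rw [Finset.filter_eq_empty_iff]
    intro p _ hp
    have := (mem_PS.1 p.2).1
    exact this.one_lt.ne' (Nat.dvd_one.1 hp)
  have hoff : ∀ c : PY d η Y → Option (VV k), off (∅ : Finset (PY d η Y)) c = c := by
    intro c
    funext p
    unfold off
    simp
  have hfil : (Wd d Y).filter (fun n => n ≡ 0 [MOD 1]) = Wd d Y := by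
    rw [Finset.filter_true_of_mem]
    intro n _
    exact Nat.modEq_one
  have hTh : Th (VV k) (xY d η Y) (∅ : Finset (PY d η Y)) = 1 := by
    unfold Th
    simp
  rw [hfil, hB, hprod, hTh] at n3
  simp only [hoff] at n3
  have hpr3 := prodU3 d η τ L Y i j j' hjj
  have hpr3' : (∏ v ∈ (AR7c_U i j j')ᶜ, AA (xY d η Y) (gY d η τ L Y v)) *
      (∏ u ∈ AR7c_U i j j', BB (xY d η Y) (gY d η τ L Y u)) ^ 2 = P := by
    rw [hP]
    exact hpr3
  rw [hpr3'] at n3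
  have n4 := n2.trans (mul_le_mul_of_nonneg_left n3 (by positivity))
  rw [← hP]
  refine n4.trans ?_
  -- the final numerics
  rw [← hGA] at m2
  rw [← hGI, ← hV] at m3
  rw [← hV] at m4
  rw [← hV]
  have hV0 : 0 < V := lt_of_lt_of_le (by positivity) m4
  push_cast
  have s1 : 2 * Real.log (2 * Y) / (1 / 2 * (GA * GI ^ 2)) ^ 2 *
      (2 * Y / ((d.W : ℝ) * 1) * (4 * 1 ^ 4 * P * (GA * GI ^ 2)) + Y ^ (3 / 10 : ℝ)) =
      64 * Real.log (2 * Y) * Y / d.W * P / (GA * GI ^ 2) + 8 * Real.log (2 * Y) * Y ^ (3 / 10 : ℝ) / (GA * GI ^ 2) ^ 2 := by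
    field_simp
    ring
  rw [s1]
  have s2 : 64 * Real.log (2 * Y) * Y / d.W * P / (GA * GI ^ 2) ≤
      256 / (cA * cI ^ 2) * (Y / (d.W.totient : ℝ)) * V ^ 2 * P := by
    have t1 : cI ^ 2 ≤ V ^ 2 * GI ^ 2 := by
      rw [← mul_pow]
      exact pow_le_pow_left₀ hcI.le m3 2
    have t2 : cA * ((d.W.totient : ℝ) / d.W * Real.log Y) * cI ^ 2 ≤ GA * (V ^ 2 * GI ^ 2) :=
      mul_le_mul m2 t1 (by positivity) (by positivity)
    rw [div_le_iff₀ hQ]
    have t3 : 256 / (cA * cI ^ 2) * (Y / (d.W.totient : ℝ)) * V ^ 2 * P * (GA * GI ^ 2) =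
        256 / (cA * cI ^ 2) * (Y / (d.W.totient : ℝ)) * P * (GA * (V ^ 2 * GI ^ 2)) := by ring
    rw [t3]
    refine le_trans ?_ (mul_le_mul_of_nonneg_left t2 (by positivity))
    have t4 : 256 / (cA * cI ^ 2) * (Y / (d.W.totient : ℝ)) * P * (cA * ((d.W.totient : ℝ) / d.W * Real.log Y) * cI ^ 2) =
        256 * Real.log Y * Y / d.W * P := by
      field_simp
    rw [t4]
    refine mul_le_mul_of_nonneg_right ?_ (by linarith)
    refine div_le_div_of_nonneg_right ?_ hW.le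
    refine mul_le_mul_of_nonneg_right ?_ hY0.le
    linarith
  have s3 : 8 * Real.log (2 * Y) * Y ^ (3 / 10 : ℝ) / (GA * GI ^ 2) ^ 2 ≤ 1 * (Y / (d.W.totient : ℝ)) * V ^ 2 * P := by
    have u1 : 0 < Y ^ (3 / 10 : ℝ) := Real.rpow_pos_of_pos hY0 _
    have u2 : 8 * Real.log (2 * Y) * Y ^ (3 / 10 : ℝ) / (GA * GI ^ 2) ^ 2 ≤ 8 * Real.log (2 * Y) * Y ^ (3 / 10 : ℝ) :=
      div_le_self (by positivity) (one_le_pow₀ hQ1)
    refine u2.trans ?_
    have u3 : (1 / Real.log Y) ^ 2 ≤ V ^ 2 := pow_le_pow_left₀ (by positivity) m4 2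
    have u4 : 16 * (Real.log Y) ^ 3 * Y ^ (3 / 10 : ℝ) ≤ Y / (d.W.totient : ℝ) := by
      rw [le_div_iff₀ hφ]
      linarith
    calc 8 * Real.log (2 * Y) * Y ^ (3 / 10 : ℝ) ≤ 8 * (2 * Real.log Y) * Y ^ (3 / 10 : ℝ) := by
          refine mul_le_mul_of_nonneg_right ?_ u1.le
          linarith
      _ = 16 * (Real.log Y) ^ 3 * Y ^ (3 / 10 : ℝ) * (1 / Real.log Y) ^ 2 := by
          field_simp
          ring
      _ ≤ Y / (d.W.totient : ℝ) * V ^ 2 := mul_le_mul u4 u3 (by positivity) (by positivity)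
      _ = 1 * (Y / (d.W.totient : ℝ)) * V ^ 2 * 1 := by ring
      _ ≤ 1 * (Y / (d.W.totient : ℝ)) * V ^ 2 * P := mul_le_mul_of_nonneg_left hP1 (by positivity)
  have s4 := add_le_add s2 s3
  refine s4.trans (le_of_eq ?_)
  ring

end Pool.Agent.Wd33b62
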