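import Pool.Agent.W_d33b62_h36.AR4g

/-!
# Upper bounds with a majorant (helper36, MP_d33b62_nt)
-/

set_option autoImplicit false

noncomputable section

open Finset Filter

namespace Pool.Agent.Wd33b62

open Pool.Agent.Wb58c63 (PI mem_PI VP ap Pr XM)

/-- `m` has no prime factor `≡ 3 mod 4` below `ZZ`, but it has some. -/
def BadP (η Y : ℝ) (m : ℕ) : Prop :=
  (∀ p : ℕ, p.Prime → p ∣ m → p % 4 = 3 → ZZ η Y ≤ p) ∧ ∃ p : ℕ, p.Prime ∧ p ∣ m ∧ p % 4 = 3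

private theorem AR7d_mod : ∀ n : ℕ, n % 2 = 1 → (∀ p : ℕ, p.Prime → p ∣ n → p % 4 ≠ 3) → n % 4 = 1 := by
  intro n
  induction n using Nat.strong_induction_on with
  | _ n ih =>
    intro hn hp
    rcases eq_or_ne n 1 with h1 | h1
    · rw [h1]
    · have hpr := Nat.minFac_prime h1
      have hdv := Nat.minFac_dvd n
      obtain ⟨m, hm⟩ := hdv
      obtain ⟨q, hq⟩ : ∃ q, q = n.minFac := ⟨_, rfl⟩
      rw [← hq] at hpr hm
      have hq3 := hp q hpr ⟨m, hm⟩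
      have hm0 : 0 < m := by
        rcases Nat.eq_zero_or_pos m with h0 | h0
        · rw [h0, mul_zero] at hm
          omega
        · exact h0
      have hmn : m < n := by
        rw [hm]
        exact lt_mul_of_one_lt_left hm0 hpr.one_lt
      have hodd : q % 2 = 1 ∧ m % 2 = 1 := by
        have h2 : (q * m) % 2 = 1 := by rw [← hm]; exact hn
        have h3 : Odd (q * m) := Nat.odd_iff.2 h2
        rw [Nat.odd_mul] at h3
        exact ⟨Nat.odd_iff.1 h3.1, Nat.odd_iff.1 h3.2⟩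
      have hm1 := ih m hmn hodd.2 fun p hp1 hp2 => hp p hp1 (hm ▸ dvd_mul_of_dvd_right hp2 q)
      have hq1 : q % 4 = 1 := by omega
      rw [hm, Nat.mul_mod, hq1, hm1]

private theorem AR7d_three (n : ℕ) (hn : n % 4 = 3) : ∃ p : ℕ, p.Prime ∧ p ∣ n ∧ p % 4 = 3 := by
  by_contra hcon
  push Not at hcon
  have h1 := AR7d_mod n (by omega) hcon
  omega

private theorem AR7d_quot {a b n : ℕ} (ha : a % 4 = 3) (hn : n % 4 = 1) (h : n = a * b) : b % 4 = 3 := by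
  have h1 : (a * b) % 4 = 1 := by rw [← h]; exact hn
  rw [Nat.mul_mod, ha] at h1
  have h2 : b % 4 < 4 := Nat.mod_lt _ (by norm_num)
  interval_cases hb : b % 4 <;> omega

private theorem AR7d_quot1 {a b n : ℕ} (ha : a % 4 = 3) (hn : n % 4 = 3) (h : n = a * b) : b % 4 = 1 := by
  have h1 : (a * b) % 4 = 3 := by rw [← h]; exact hn
  rw [Nat.mul_mod, ha] at h1
  have h2 : b % 4 < 4 := Nat.mod_lt _ (by norm_num)
  interval_cases hb : b % 4 <;> omega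

/-- The pure factorisation. -/
private theorem AR7d_core {Z X : ℝ} (hZ : 0 < Z) (hX : X < Z ^ 4) (m : ℕ) (hm : (m : ℝ) ≤ X) (h4 : m % 4 = 1)
    (hb : ∀ p : ℕ, p.Prime → p ∣ m → p % 4 = 3 → Z ≤ p) (hex : ∃ p : ℕ, p.Prime ∧ p ∣ m ∧ p % 4 = 3) :
    ∃ e r₁ r₂ : ℕ, r₁.Prime ∧ r₂.Prime ∧ r₁ % 4 = 3 ∧ r₂ % 4 = 3 ∧ Z ≤ r₁ ∧ Z ≤ r₂ ∧ r₁ ≤ r₂ ∧ 0 < e ∧
      GoodP e ∧ m = e * r₁ * r₂ := by
  obtain ⟨p, hp, ⟨m₁, hm₁⟩, hp3⟩ := hex
  have h1 : m₁ % 4 = 3 := AR7d_quot hp3 h4 hm₁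
  obtain ⟨q, hq, ⟨e, he⟩, hq3⟩ := AR7d_three m₁ h1
  have h2 : e % 4 = 1 := AR7d_quot1 hq3 h1 he
  have hZp : Z ≤ p := hb p hp ⟨m₁, hm₁⟩ hp3
  have hZq : Z ≤ q := hb q hq (by rw [hm₁, he]; exact ⟨p * e, by ring⟩) hq3
  have hgood : GoodP e := by
    intro a ha hae
    have ha2 : a % 2 = 1 := by
      have h3 : Odd e := Nat.odd_iff.2 (by omega)
      exact Nat.odd_iff.1 (h3.of_dvd_nat hae)
    by_contra hcon
    have ha3 : a % 4 = 3 := by omega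
    obtain ⟨f, hf⟩ := hae
    have h3 : f % 4 = 3 := AR7d_quot ha3 h2 hf
    obtain ⟨c, hc, ⟨g, hg⟩, hc3⟩ := AR7d_three f h3
    have hmm : m = p * q * a * c * g := by
      rw [hm₁, he, hf, hg]
      ring
    have hZa : Z ≤ a := hb a ha (by rw [hmm]; exact ⟨p * q * c * g, by ring⟩) ha3
    have hZc : Z ≤ c := hb c hc (by rw [hmm]; exact ⟨p * q * a * g, by ring⟩) hc3
    have hg0 : 1 ≤ g := by
      rcases Nat.eq_zero_or_pos g with h0 | h0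
      · rw [h0, mul_zero] at hmm
        omega
      · exact h0
    have hg1 : (1 : ℝ) ≤ g := by exact_mod_cast hg0
    have h5 : Z ^ 4 ≤ (m : ℝ) := by
      rw [hmm]
      push_cast
      have e1 : Z * Z ≤ (p : ℝ) * q := mul_le_mul hZp hZq hZ.le (by positivity)
      have e2 : Z * Z * Z ≤ (p : ℝ) * q * a := mul_le_mul e1 hZa hZ.le (by positivity)
      have e3 : Z * Z * Z * Z ≤ (p : ℝ) * q * a * c := mul_le_mul e2 hZc hZ.le (by positivity)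
      have e4 : Z * Z * Z * Z * 1 ≤ (p : ℝ) * q * a * c * g := mul_le_mul e3 hg1 zero_le_one (by positivity)
      calc Z ^ 4 = Z * Z * Z * Z * 1 := by ring
        _ ≤ _ := e4
    linarith
  have he0 : 0 < e := by
    rcases Nat.eq_zero_or_pos e with h0 | h0
    · rw [h0] at h2
      omega
    · exact h0
  rcases le_total p q with h | h
  · exact ⟨e, p, q, hp, hq, hp3, hq3, hZp, hZq, h, he0, hgood, by rw [hm₁, he]; ring⟩
  · exact ⟨e, q, p, hq, hp, hq3, hp3, hZq, hZp, h, he0, hgood, by rw [hm₁, he]; ring⟩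

private theorem AR7d_exp {η : ℝ} (hη : 0 < η) (hη1 : η ≤ 1 / 200) :
    3 / 8 ≤ (1 / 2 - 6 * η) / (1 + η) ∧ 1 + η ≤ 14 * η + (1 / 2 - 6 * η) / (1 + η) * 2 := by
  have h1 : 0 < 1 + η := by linarith
  constructor
  · rw [le_div_iff₀ h1]
    linarith
  · have h2 : (1 - 13 * η) / 2 ≤ (1 / 2 - 6 * η) / (1 + η) := by
      rw [le_div_iff₀ h1]
      nlinarith
    linarith

/-- **The factorisation in the switching**: `m ≡ 1 mod 4`, prime to `W`, `m ≤ 2 Y`, `BadP`: `m = e r₁ r₂` with `e` good, prime to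
`W`, `e ≤ Y ^ (14 η)`, `r₁ ≤ r₂` primes `≡ 3 mod 4`, `r₁ ∈ RQ`, `ZZ ≤ r₂`.

Proof. The number of prime factors `≡ 3 mod 4` with multiplicity is even (`m ≡ 1 mod 4`), positive, and at most `3` as
`ZZ ^ 4 > 2 Y` for large `Y`; so it is `2`. `e = m / (r₁ r₂) ≤ 2 Y / ZZ ^ 2 ≤ 2 Y ^ (1 - 2 (1 / 2 - 13 η / 2)) ≤ Y ^ (14 η)`. -/
theorem bad_factor (k : ℕ) (η : ℝ) (hη : 0 < η) (hη1 : η ≤ 1 / 200) (d : AData k) : ∀ᶠ Y : ℝ in atTop, ∀ m : ℕ,
    (m : ℝ) ≤ 2 * Y → m % 4 = 1 → m.Coprime d.W → BadP η Y m →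
      ∃ e ∈ EQ d η Y, ∃ r₁ ∈ RQ η Y, ∃ r₂ : ℕ, r₂.Prime ∧ r₂ % 4 = 3 ∧ ZZ η Y ≤ r₂ ∧ m = e * r₁ * r₂ := by
  classical
  obtain ⟨hx1, hx2⟩ := AR7d_exp hη hη1
  have hev := (tendsto_rpow_atTop hη).eventually_ge_atTop 2
  filter_upwards [hev, eventually_gt_atTop 4] with Y hY1 hY4 m hm h4 hcop hbad
  have hY0 : 0 < Y := by linarith
  have hY1' : 1 ≤ Y := by linarith
  have hZ0 : 0 < ZZ η Y := Real.rpow_pos_of_pos hY0 _
  have hZ4 : 2 * Y < ZZ η Y ^ 4 := by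
    have h1 : ZZ η Y ^ 4 = Y ^ ((1 / 2 - 6 * η) / (1 + η) * 4) := by
      unfold ZZ
      rw [← Real.rpow_natCast, ← Real.rpow_mul hY0.le]
      norm_num
    have h2 : Y ^ (3 / 2 : ℝ) ≤ Y ^ ((1 / 2 - 6 * η) / (1 + η) * 4) :=
      Real.rpow_le_rpow_of_exponent_le hY1' (by linarith)
    have h3 : Y ^ (3 / 2 : ℝ) = Y ^ (1 / 2 : ℝ) * Y := by
      rw [← Real.rpow_add_one hY0.ne']
      norm_num
    have h5 : (2 : ℝ) < Y ^ (1 / 2 : ℝ) := by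
      rw [← Real.sqrt_eq_rpow]
      exact Real.lt_sqrt_of_sq_lt (by linarith)
    rw [h1]
    refine lt_of_lt_of_le ?_ h2
    rw [h3]
    exact mul_lt_mul_of_pos_right h5 hY0
  have hZ2 : 2 * Y ≤ Y ^ (14 * η) * ZZ η Y ^ 2 := by
    have h1 : ZZ η Y ^ 2 = Y ^ ((1 / 2 - 6 * η) / (1 + η) * 2) := by
      unfold ZZ
      rw [← Real.rpow_natCast, ← Real.rpow_mul hY0.le]
      norm_num
    rw [h1, ← Real.rpow_add hY0]
    have h2 : Y ^ (1 + η) ≤ Y ^ (14 * η + (1 / 2 - 6 * η) / (1 + η) * 2) :=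
      Real.rpow_le_rpow_of_exponent_le hY1' hx2
    refine le_trans ?_ h2
    rw [add_comm 1 η, Real.rpow_add_one hY0.ne']
    exact mul_le_mul_of_nonneg_right hY1 hY0.le
  obtain ⟨e, r₁, r₂, hr₁, hr₂, h1, h2, hZ₁, hZ₂, hle, he0, hgood, hmm⟩ :=
    AR7d_core hZ0 hZ4 m hm h4 hbad.1 hbad.2
  have hmr : (m : ℝ) = e * r₁ * r₂ := by
    rw [hmm]
    push_cast
    rfl
  have he1 : (1 : ℝ) ≤ e := by exact_mod_cast he0
  have hr₁0 : (0 : ℝ) ≤ r₁ := Nat.cast_nonneg _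
  refine ⟨e, ?_, r₁, ?_, r₂, hr₂, h2, hZ₂, hmm⟩
  · refine Finset.mem_filter.2 ⟨Finset.mem_Icc.2 ⟨he0, Nat.le_floor ?_⟩, hgood, ?_⟩
    · have h3 : (e : ℝ) * ZZ η Y ^ 2 ≤ Y ^ (14 * η) * ZZ η Y ^ 2 := by
        refine le_trans ?_ hZ2
        refine le_trans ?_ hm
        rw [hmr, pow_two, mul_assoc]
        exact mul_le_mul_of_nonneg_left (mul_le_mul hZ₁ hZ₂ hZ0.le hr₁0) (Nat.cast_nonneg _)
      exact le_of_mul_le_mul_right h3 (by positivity)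
    · exact Nat.Coprime.coprime_dvd_left ⟨r₁ * r₂, by rw [hmm]; ring⟩ hcop
  · refine Finset.mem_filter.2
      ⟨Finset.mem_range.2 (Nat.lt_succ_of_le (Nat.le_floor (Real.le_sqrt_of_sq_le ?_))), hr₁, h1, hZ₁⟩
    refine le_trans ?_ hm
    rw [hmr, pow_two]
    have h3 : (r₁ : ℝ) ≤ r₂ := by exact_mod_cast hle
    calc (r₁ : ℝ) * r₁ ≤ r₁ * r₂ := mul_le_mul_of_nonneg_left h3 hr₁0
      _ = 1 * (r₁ * r₂) := by ring
      _ ≤ e * (r₁ * r₂) := mul_le_mul_of_nonneg_right he1 (by positivity)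
      _ = e * r₁ * r₂ := by ring

end Pool.Agent.Wd33b62
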