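import Pool.Agent.W_d33b62_h36.AR7a
import Pool.Agent.W_d33b62_h36.AR7d

/-!
# Upper bounds with a majorant (helper36, MP_d33b62_nt)
-/

set_option autoImplicit false

noncomputable section

open Finset Filter

namespace Pool.Agent.Wd33b62

open Pool.Agent.Wb58c63 (PI mem_PI VP ap Pr XM)

private theorem AR7e_ZZ_le {η Y : ℝ} (hη : 0 < η) (hY : 1 ≤ Y) : ZZ η Y ≤ Y := by
  unfold ZZ
  have h1 : (1 / 2 - 6 * η) / (1 + η) ≤ 1 := by
    rw [div_le_one (by linarith)]
    linarith
  calc Y ^ ((1 / 2 - 6 * η) / (1 + η)) ≤ Y ^ (1 : ℝ) := Real.rpow_le_rpow_of_exponent_le hY h1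
    _ = Y := Real.rpow_one Y

/-- **The pointwise bound in the switching.** `U = {inl i, inr (i, j)}`, `t = false`. If `p > Y` is prime, `n = p - h i ≡ b`,
`M = M i j (n)` satisfies `BadP` then with `(e, r₁)` from `bad_factor`, `q = e r₁`, `B = BQ q` (the places dividing `e`):
`wY n = FF (era U (off B c)) ^ 2`, `FF2 (kee U (off B c)) = FF2 nul`, `q ∣ n + sh (inr (i, j))`.

Proof. No place has the label `inl i`. A place with the label `inr (i, j)` divides `M = e r₁ r₂` (it is prime to `2 D`), so it divides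
`e` (`r₁, r₂ ≥ ZZ` are primes): it is in `B` and not `≡ 3 mod 4`. Conversely the places of `B` divide `n + sh (inr (i, j))`, so
their label is `inr (i, j)`. So `era U (off B c) = era U c`, `kee U (off B c) = nul`, and `FF c = FF (era U c)` by `FF_congr` and
`yw_inert`. -/
theorem bad_point (k : ℕ) (L : ℕ) (η τ : ℝ) (hη : 0 < η) (hη1 : η ≤ 1 / 200) (d : AData k) :
    ∀ᶠ Y : ℝ in atTop, ∀ (i j : Fin k) (p : ℕ), p.Prime → Y < p → (p : ℝ) < 2 * Y → p ∈ Pd d i Y →
      BadP η Y (d.M i j (p - d.h i)) → ∃ e ∈ EQ d η Y, ∃ r₁ ∈ RQ η Y,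
        e * r₁ ∣ (p - d.h i) + d.sh (Sum.inr (i, j)) ∧
        wY d η τ L Y (p - d.h i) = FF (xY d η Y) (yY d η τ L Y)
          (era {Sum.inl i, Sum.inr (i, j)} (off (BQ d η Y (e * r₁)) (cY d η Y (p - d.h i)))) ^ 2 ∧
        kee {Sum.inl i, Sum.inr (i, j)} (off (BQ d η Y (e * r₁)) (cY d η Y (p - d.h i))) = nul := by
  filter_upwards [bad_factor k η hη hη1 d, eventually_ge_atTop (1 : ℝ),
    eventually_ge_atTop (d.D0 : ℝ)] with Y hbf hY1 hYD i j p hp hYp hp2 hpd hbad
  have hpd' : p ≡ d.b + d.h i [MOD d.W] := (mem_filter.1 hpd).2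
  have hshi : d.h i ≤ d.D0 := d.sh_le (Sum.inl i)
  have hshj : d.h i + d.a i j ≤ d.D0 := d.sh_le (Sum.inr (i, j))
  have hpD : d.D0 < p := by exact_mod_cast (hYD.trans_lt hYp)
  obtain ⟨n, hn⟩ : ∃ n, n = p - d.h i := ⟨_, rfl⟩
  rw [← hn] at hbad ⊢
  have hnp : n + d.h i = p := by omega
  have hnb : n ≡ d.b [MOD d.W] := by
    have h1 : n + d.h i ≡ d.b + d.h i [MOD d.W] := by rw [hnp]; exact hpd'
    exact Nat.ModEq.add_right_cancel' _ h1
  have hM : d.M i j n * (2 * d.D i j) = n + (d.h i + d.a i j) := Nat.div_mul_cancel (d.dvd i j n hnb)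
  have hDpos := d.D_pos i j
  have hM2 : d.M i j n * 2 ≤ p + d.D0 := by
    have h1 : d.M i j n * 2 ≤ d.M i j n * (2 * d.D i j) := Nat.mul_le_mul_left _ (by omega)
    omega
  have hM3 : (d.M i j n : ℝ) ≤ 2 * Y := by
    have h1 : (d.M i j n : ℝ) * 2 ≤ p + d.D0 := by exact_mod_cast hM2
    linarith
  obtain ⟨e, he, r₁, hr₁, r₂, hr₂p, hr₂4, hr₂Z, hme⟩ :=
    hbf (d.M i j n) hM3 (d.mod4 i j n hnb) (d.copM i j n hnb) hbad
  have he' : e ∈ (Icc 1 ⌊Y ^ (14 * η)⌋₊) ∧ GoodP e ∧ e.Coprime d.W := by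
    classical
    have h1 := he
    unfold EQ at h1
    exact mem_filter.1 h1
  have hr' : r₁ ∈ (range (⌊√(2 * Y)⌋₊ + 1)) ∧ r₁.Prime ∧ r₁ % 4 = 3 ∧ ZZ η Y ≤ r₁ := by
    classical
    have h1 := hr₁
    unfold RQ at h1
    exact mem_filter.1 h1
  have hMsh : d.M i j n ∣ n + d.sh (Sum.inr (i, j)) := by
    have h1 : n + d.sh (Sum.inr (i, j)) = d.M i j n * (2 * d.D i j) := hM.symm
    rw [h1]
    exact dvd_mul_right _ _
  have hqdvd : e * r₁ ∣ n + d.sh (Sum.inr (i, j)) := by
    refine dvd_trans ?_ hMsh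
    rw [hme]
    exact dvd_mul_right _ _
  have hZY : ZZ η Y ≤ Y := AR7e_ZZ_le hη hY1
  have hc : ∀ (s : PY d η Y) (v : VV k), cY d η Y n s = some v ↔ s.1 ∣ n + d.sh v :=
    fun s v => cc_iff d (ZZ η Y) n s v
  have hs : ∀ s : PY d η Y, s.1.Prime ∧ d.D0 < s.1 ∧ (s.1 : ℝ) < ZZ η Y := fun s => mem_PS.1 s.2
  have hA : ∀ s : PY d η Y, cY d η Y n s ≠ some (Sum.inl i) := by
    intro s h
    rw [hc] at h
    have h1 : s.1 ∣ p := by
      rw [← hnp]
      exact h
    have h2 : s.1 = p := (Nat.prime_dvd_prime_iff_eq (hs s).1 hp).1 h1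
    have h3 := (hs s).2.2
    rw [h2] at h3
    linarith
  have hB : ∀ s : PY d η Y, cY d η Y n s = some (Sum.inr (i, j)) → s ∈ BQ d η Y (e * r₁) ∧ s.1 % 4 = 1 := by
    intro s h
    rw [hc] at h
    have h0 : n + d.sh (Sum.inr (i, j)) = d.M i j n * (2 * d.D i j) := hM.symm
    rw [h0] at h
    obtain ⟨hsp, hsD, hsZ⟩ := hs s
    have h1 : ¬ s.1 ∣ 2 * d.D i j := by
      intro h2
      rcases (Nat.Prime.dvd_mul hsp).1 h2 with h3 | h3
      · have h4 := Nat.le_of_dvd (by norm_num) h3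
        have h5 := d.D0_ge
        omega
      · have h4 : s.1 ∣ d.W := dvd_trans h3 (d.D_dvd i j)
        have h5 := (d.W_primes s.1 hsp).1 h4
        omega
    have h2 : s.1 ∣ d.M i j n := ((Nat.Prime.dvd_mul hsp).1 h).resolve_right h1
    rw [hme] at h2
    have h3 : ¬ s.1 ∣ r₂ := by
      intro h4
      have h5 := (Nat.prime_dvd_prime_iff_eq hsp hr₂p).1 h4
      rw [← h5] at hr₂Z
      linarith
    have h4 : ¬ s.1 ∣ r₁ := by
      intro h4
      have h5 := (Nat.prime_dvd_prime_iff_eq hsp hr'.2.1).1 h4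
      have h6 := hr'.2.2.2
      rw [← h5] at h6
      linarith
    have h5 : s.1 ∣ e := by
      rcases (Nat.Prime.dvd_mul hsp).1 h2 with h6 | h6
      · exact ((Nat.Prime.dvd_mul hsp).1 h6).resolve_right h4
      · exact absurd h6 h3
    refine ⟨?_, he'.2.1 s.1 hsp h5⟩
    unfold BQ
    rw [mem_filter]
    exact ⟨mem_univ _, dvd_mul_of_dvd_left h5 _⟩
  have hC : ∀ s : PY d η Y, s ∈ BQ d η Y (e * r₁) → cY d η Y n s = some (Sum.inr (i, j)) := by
    intro s h
    unfold BQ at h
    rw [hc]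
    exact dvd_trans (mem_filter.1 h).2 hqdvd
  refine ⟨e, he, r₁, hr₁, hqdvd, ?_, ?_⟩
  · have h1 : era {Sum.inl i, Sum.inr (i, j)} (off (BQ d η Y (e * r₁)) (cY d η Y n)) =
        era {Sum.inl i, Sum.inr (i, j)} (cY d η Y n) := by
      funext s
      unfold era off
      by_cases h : s ∈ BQ d η Y (e * r₁)
      · rw [if_pos h, hC s h, Option.filter_some, if_neg (by simp)]
        rfl
      · rw [if_neg h]
    rw [h1]
    unfold wY
    refine congrArg (fun t : ℝ => t ^ 2) ?_
    refine FF_congr _ _ _ _ fun κ hκ s hs0 => ?_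
    unfold era
    rcases hcs : cY d η Y n s with _ | v
    · simp
    · by_cases hv : v ∈ ({Sum.inl i, Sum.inr (i, j)} : Finset (VV k))
      · rw [mem_insert, mem_singleton] at hv
        rcases hv with hv | hv
        · rw [hv] at hcs
          exact absurd hcs (hA s)
        · subst hv
          have h4 := (hB s hcs).2
          constructor
          · intro h5
            have h6 := yw_inert L (RR η Y) (EE η τ k Y) κ hκ s (i, j) h5.symm
            omega
          · intro h5
            have h6 : (some (Sum.inr (i, j)) : Option (VV k)).filter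
                (fun v => decide (v ∉ ({Sum.inl i, Sum.inr (i, j)} : Finset (VV k)))) = none := by
              simp
            rw [h6] at h5
            exact absurd h5.symm hs0
      · have h6 : (some v : Option (VV k)).filter
            (fun v => decide (v ∉ ({Sum.inl i, Sum.inr (i, j)} : Finset (VV k)))) = some v := by
          rw [Option.filter_some, if_pos]
          simpa using hv
        rw [h6]
  · funext s
    unfold kee off nul
    by_cases h : s ∈ BQ d η Y (e * r₁)
    · rw [if_pos h]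
      rfl
    · rw [if_neg h]
      rcases hcs : cY d η Y n s with _ | v
      · rfl
      · have hv : v ∉ ({Sum.inl i, Sum.inr (i, j)} : Finset (VV k)) := by
          intro hv
          rw [mem_insert, mem_singleton] at hv
          rcases hv with hv | hv
          · rw [hv] at hcs
            exact hA s hcs
          · rw [hv] at hcs
            exact h (hB s hcs).1
        rw [Option.filter_some, if_neg]
        simpa using hv

end Pool.Agent.Wd33b62
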