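import Pool.Agent.W_d33b62_h36.AR1d
import Pool.Agent.W_d33b62_h36.AR4e
import Pool.Agent.W_d33b62_h36.AR4h
import Pool.Agent.W_d33b62_h36.AR7b
import Pool.Agent.W_d33b62_h36.AR7e
import Pool.Agent.W_d33b62_h36.BV4

/-!
# Upper bounds with a majorant (helper36, MP_d33b62_nt)
-/

set_option autoImplicit false

noncomputable section

open Finset Filter

namespace Pool.Agent.Wd33b62

open Pool.Agent.Wb58c63 (PI mem_PI VP ap Pr XM)

/-- The labels of the switching. -/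
def AR7f_U {k : ℕ} (i j : Fin k) : Finset (VV k) := {Sum.inl i, Sum.inr (i, j)}

/-- The majorised weight. -/
def AR7f_F {k : ℕ} (d : AData k) (η τ : ℝ) (L : ℕ) (Y : ℝ) (i j : Fin k) (q n : ℕ) : ℝ :=
  FF (xY d η Y) (yY d η τ L Y) (era (AR7f_U i j) (off (BQ d η Y q) (cY d η Y n))) ^ 2 *
    FF (xY d η Y) (y2Y d η Y (AR7f_U i j) (fun _ => false))
      (kee (AR7f_U i j) (off (BQ d η Y q) (cY d η Y n))) ^ 2

/-- The normalising factor. -/
def AR7f_l {k : ℕ} (d : AData k) (η Y : ℝ) (i j : Fin k) : ℝ :=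
  FF (xY d η Y) (y2Y d η Y (AR7f_U i j) (fun _ => false)) nul

theorem AR7f_F_nonneg {k : ℕ} (d : AData k) (η τ : ℝ) (L : ℕ) (Y : ℝ) (i j : Fin k) (q n : ℕ) :
    0 ≤ AR7f_F d η τ L Y i j q n := by
  unfold AR7f_F
  positivity

theorem AR7f_sum {k : ℕ} (d : AData k) (η τ : ℝ) (L κ : ℕ) (Y : ℝ) (i j : Fin k)
    (hY : 2 * (d.D0 : ℝ) ≤ Y) (hY1 : 1 ≤ Y) (haw : ∀ n, Wb58c63.aw κ Y n ≤ 2)
    (hb : ∀ p : ℕ, p.Prime → Y < p → (p : ℝ) < 2 * Y → p ∈ Pd d i Y →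
      BadP η Y (d.M i j (p - d.h i)) → ∃ e ∈ EQ d η Y, ∃ r₁ ∈ RQ η Y,
        e * r₁ ∣ (p - d.h i) + d.sh (Sum.inr (i, j)) ∧
        wY d η τ L Y (p - d.h i) = FF (xY d η Y) (yY d η τ L Y)
          (era {Sum.inl i, Sum.inr (i, j)} (off (BQ d η Y (e * r₁)) (cY d η Y (p - d.h i)))) ^ 2 ∧
        kee {Sum.inl i, Sum.inr (i, j)} (off (BQ d η Y (e * r₁)) (cY d η Y (p - d.h i))) = nul)
    (hl : 0 < AR7f_l d η Y i j) :
    (∑ p ∈ Pd d i Y, open Classical in if BadP η Y (d.M i j (p - d.h i)) then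
          ap κ Y p * wY d η τ L Y (p - d.h i) else 0) ≤
      ∑ x ∈ EQ d η Y ×ˢ RQ η Y, 2 * Real.log (2 * Y) / AR7f_l d η Y i j ^ 2 *
        ∑ n ∈ (Wd d Y).filter (fun n => n ≡ (x.1 * x.2) * d.sh (Sum.inr (i, j)) -
          d.sh (Sum.inr (i, j)) [MOD x.1 * x.2]), AR7f_F d η τ L Y i j (x.1 * x.2) n := by
  classical
  have hlog : 0 ≤ Real.log (2 * Y) := Real.log_nonneg (by linarith)
  have hhi : (d.h i : ℝ) ≤ d.D0 := by
    have := d.sh_le (Sum.inl i)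
    simp only [Sum.elim_inl] at this
    exact_mod_cast this
  have hCp : 0 ≤ 2 * Real.log (2 * Y) / AR7f_l d η Y i j ^ 2 := by positivity
  set Cs := 2 * Real.log (2 * Y) / AR7f_l d η Y i j ^ 2 with hCs
  have h1 : ∀ p ∈ Pd d i Y, (if BadP η Y (d.M i j (p - d.h i)) then
      ap κ Y p * wY d η τ L Y (p - d.h i) else 0) ≤
      ∑ x ∈ EQ d η Y ×ˢ RQ η Y, if Y < p ∧ x.1 * x.2 ∣ (p - d.h i) + d.sh (Sum.inr (i, j)) then
        Cs * AR7f_F d η τ L Y i j (x.1 * x.2) (p - d.h i) else 0 := by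
    intro p hp
    have hnn : ∀ x ∈ EQ d η Y ×ˢ RQ η Y,
        0 ≤ (if Y < p ∧ x.1 * x.2 ∣ (p - d.h i) + d.sh (Sum.inr (i, j)) then
        Cs * AR7f_F d η τ L Y i j (x.1 * x.2) (p - d.h i) else 0) := by
      intro x _
      split_ifs
      · exact mul_nonneg hCp (AR7f_F_nonneg _ _ _ _ _ _ _ _ _)
      · exact le_rfl
    by_cases hB : BadP η Y (d.M i j (p - d.h i))
    · rw [if_pos hB]
      have hpp := Wb58c63.mem_Pr.1 (mem_filter.1 hp).1
      by_cases hYp : Y < p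
      · obtain ⟨e, he, r, hr, hd, hw, hk⟩ := hb p hpp.1 hYp hpp.2 hp hB
        refine le_trans ?_ (single_le_sum hnn (mem_product.2 ⟨he, hr⟩ : (e, r) ∈ EQ d η Y ×ˢ RQ η Y))
        rw [if_pos ⟨hYp, hd⟩]
        have h2 : AR7f_F d η τ L Y i j (e * r) (p - d.h i) =
            wY d η τ L Y (p - d.h i) * AR7f_l d η Y i j ^ 2 := by
          unfold AR7f_F AR7f_l AR7f_U
          rw [hw, hk]
        simp only
        rw [h2, hCs]
        have hwn : 0 ≤ wY d η τ L Y (p - d.h i) := by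
          unfold wY
          positivity
        have h3 : 2 * Real.log (2 * Y) / AR7f_l d η Y i j ^ 2 *
            (wY d η τ L Y (p - d.h i) * AR7f_l d η Y i j ^ 2) =
            2 * Real.log (2 * Y) * wY d η τ L Y (p - d.h i) := by
          field_simp
        rw [h3]
        refine mul_le_mul_of_nonneg_right ?_ hwn
        unfold Wb58c63.ap
        have hp0 : (0 : ℝ) < p := lt_trans (by linarith) hYp
        exact mul_le_mul (haw p) (Real.log_le_log hp0 hpp.2.le) (Real.log_natCast_nonneg p)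
          (by norm_num)
      · have h0 : Wb58c63.aw κ Y p = 0 := by
          by_contra h
          exact hYp (Wb58c63.aw_support κ Y hY1 p h).1
        have h0' : ap κ Y p = 0 := by
          unfold Wb58c63.ap
          rw [h0, zero_mul]
        rw [h0', zero_mul]
        exact sum_nonneg hnn
    · rw [if_neg hB]
      exact sum_nonneg hnn
  refine (sum_le_sum h1).trans ?_
  rw [sum_comm]
  refine sum_le_sum fun x hx => ?_
  rw [← sum_filter, ← mul_sum]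
  refine mul_le_mul_of_nonneg_left ?_ hCp
  have hinj : Set.InjOn (fun p : ℕ => p - d.h i) (↑((Pd d i Y).filter fun p : ℕ =>
      Y < (p : ℝ) ∧ x.1 * x.2 ∣ (p - d.h i) + d.sh (Sum.inr (i, j))) : Set ℕ) := by
    intro p hp p' hp' h
    rw [mem_coe, mem_filter] at hp hp'
    have h2 : d.h i ≤ p := by
      have : (d.h i : ℝ) ≤ p := by linarith [hp.2.1, (Nat.cast_nonneg d.D0 : (0 : ℝ) ≤ d.D0)]
      exact_mod_cast this
    have h3 : d.h i ≤ p' := by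
      have : (d.h i : ℝ) ≤ p' := by linarith [hp'.2.1, (Nat.cast_nonneg d.D0 : (0 : ℝ) ≤ d.D0)]
      exact_mod_cast this
    simp only at h
    omega
  rw [← sum_image (f := fun n => AR7f_F d η τ L Y i j (x.1 * x.2) n) hinj]
  refine sum_le_sum_of_subset_of_nonneg ?_ fun _ _ _ => AR7f_F_nonneg _ _ _ _ _ _ _ _ _
  intro n hn
  rw [mem_image] at hn
  obtain ⟨p, hp, rfl⟩ := hn
  rw [mem_filter] at hp
  obtain ⟨hp1, hp2, hp3⟩ := hp
  have hpd := mem_filter.1 hp1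
  have hpp := Wb58c63.mem_Pr.1 hpd.1
  have hD0 : (0 : ℝ) ≤ d.D0 := Nat.cast_nonneg _
  have h2 : d.h i ≤ p := by
    have : (d.h i : ℝ) ≤ p := by linarith
    exact_mod_cast this
  have hx1 : 1 ≤ x.1 := by
    have := (mem_product.1 hx).1
    unfold EQ at this
    exact (mem_Icc.1 (mem_filter.1 this).1).1
  have hx2 : 1 ≤ x.2 := by
    have := (mem_product.1 hx).2
    unfold RQ at this
    exact (mem_filter.1 this).2.1.one_lt.le
  have hx3 : 1 ≤ x.1 * x.2 := Nat.one_le_iff_ne_zero.2 (Nat.mul_ne_zero (by omega) (by omega))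
  rw [mem_filter]
  constructor
  · unfold Wd
    rw [mem_filter, mem_Ico]
    refine ⟨⟨?_, ?_⟩, ?_⟩
    · have h3 : (⌊Y / 2⌋₊ : ℝ) ≤ Y / 2 := Nat.floor_le (by linarith)
      have h4 : (⌊Y / 2⌋₊ : ℝ) + d.h i ≤ p := by linarith
      have h5 : ⌊Y / 2⌋₊ + d.h i ≤ p := by exact_mod_cast h4
      omega
    · rw [Nat.lt_ceil, Nat.cast_sub h2]
      have : (0 : ℝ) ≤ d.h i := Nat.cast_nonneg _
      linarith [hpp.2]
    · have h3 : (p - d.h i) + d.h i ≡ d.b + d.h i [MOD d.W] := by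
        rw [Nat.sub_add_cancel h2]
        exact hpd.2
      exact Nat.ModEq.add_right_cancel' _ h3
  · have h3 : (p - d.h i) + d.sh (Sum.inr (i, j)) ≡
        ((x.1 * x.2) * d.sh (Sum.inr (i, j)) - d.sh (Sum.inr (i, j))) + d.sh (Sum.inr (i, j))
          [MOD x.1 * x.2] := by
      rw [Nat.sub_add_cancel (Nat.le_mul_of_pos_left _ hx3)]
      exact ((Nat.modEq_zero_iff_dvd.2 hp3)).trans (Nat.modEq_zero_iff_dvd.2 (dvd_mul_right _ _)).symm
    exact Nat.ModEq.add_right_cancel' _ h3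

theorem AR7f_Th {k : ℕ} (d : AData k) (η Y : ℝ) (e r : ℕ) (he : e ≠ 0) (hr : r ∈ RQ η Y) :
    Th (VV k) (xY d η Y) (BQ d η Y (e * r)) ^ 4 ≤
      (∏ p ∈ e.primeFactors, (1 + 1 / (p : ℝ))) ^ (4 * (k + k ^ 2)) := by
  classical
  unfold RQ at hr
  obtain ⟨hrp, hr4, hrZ⟩ := (mem_filter.1 hr).2
  have hcard : Fintype.card (VV k) = k + k ^ 2 := by
    simp only [VV, Fintype.card_sum, Fintype.card_prod, Fintype.card_fin, sq]
  unfold Th
  rw [hcard, prod_pow, ← pow_mul, mul_comm (k + k ^ 2) 4]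
  refine pow_le_pow_left₀ (prod_nonneg fun p _ => ?_) ?_ _
  · have h1 : 0 < xY d η Y p := xr_pos p
    linarith
  · have h1 : ∏ p ∈ BQ d η Y (e * r), (1 + xY d η Y p) =
        ∏ p ∈ (BQ d η Y (e * r)).image Subtype.val, (1 + 1 / (p : ℝ)) := by
      rw [prod_image (fun a _ b _ h => Subtype.ext h)]
      rfl
    rw [h1]
    refine prod_le_prod_of_subset_of_one_le ?_ ?_ ?_
    · intro p hp
      obtain ⟨⟨p, hpS⟩, hp1, rfl⟩ := mem_image.1 hp
      have hp2 := mem_PS.1 hpS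
      have hp3 : p ∣ e * r := (mem_filter.1 hp1).2
      rw [Nat.mem_primeFactors]
      refine ⟨hp2.1, ?_, he⟩
      rcases (hp2.1.dvd_mul).1 hp3 with h | h
      · exact h
      · exfalso
        rw [Nat.prime_dvd_prime_iff_eq hp2.1 hrp] at h
        have h2 : (p : ℝ) < ZZ η Y := hp2.2.2
        rw [h] at h2
        linarith
    · intro p _
      positivity
    · intro p _ _
      have : 0 ≤ 1 / (p : ℝ) := by positivity
      linarith

theorem AR7f_real {S Ce Cr c η V G P Y W φ lY l2 lam E SE SR N : ℝ}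
    (hCe : 0 < Ce) (hCr : 0 < Cr) (hc : 0 < c) (hη : 0 < η) (hV : 1 / lY ≤ V) (hG1 : 1 ≤ G)
    (hG : c * (φ / W * lY) ≤ G) (hP : 1 ≤ P) (hY : 0 < Y) (hW : 0 < W) (hφ : 0 < φ) (hlY : 0 < lY)
    (_hl2 : 0 ≤ l2) (hl2' : l2 ≤ 2 * lY) (hlam : 1 / 2 * G ^ 2 ≤ lam) (hSE0 : 0 ≤ SE) (hSR0 : 0 ≤ SR)
    (hSE : SE ≤ Ce * √η * V * (φ / W * lY)) (hSR : SR ≤ Cr * η) (hN : 0 ≤ N) (hE : 0 ≤ E)
    (hNE : 16 * lY * (N * E) ≤ (η * √η) * (Y / φ) * (1 / lY))
    (hS : S ≤ 2 * l2 / lam ^ 2 * (8 * Y / W * P * G ^ 2 * (SE * SR) + N * E)) :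
    S ≤ (128 * Ce * Cr / c ^ 2 + 1) * (η * √η) * (Y / φ) * V * P := by
  have hV0 : 0 < V := lt_of_lt_of_le (by positivity) hV
  have hG0 : 0 < G := by linarith
  have hP0 : 0 < P := by linarith
  have hlam0 : 0 < lam := lt_of_lt_of_le (by positivity) hlam
  have h1 : 2 * l2 / lam ^ 2 ≤ 16 * lY / G ^ 4 := by
    rw [div_le_div_iff₀ (by positivity) (by positivity)]
    have h2 : G ^ 4 ≤ 4 * lam ^ 2 := by
      have h3 : (1 / 2 * G ^ 2) ^ 2 ≤ lam ^ 2 := pow_le_pow_left₀ (by positivity) hlam 2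
      nlinarith [h3]
    calc 2 * l2 * G ^ 4 ≤ 2 * (2 * lY) * (4 * lam ^ 2) := by gcongr
      _ = 16 * lY * lam ^ 2 := by ring
  have h3 : 0 ≤ 8 * Y / W * P * G ^ 2 * (SE * SR) + N * E := by positivity
  refine hS.trans ((mul_le_mul_of_nonneg_right h1 h3).trans ?_)
  rw [mul_add]
  have h4 : 16 * lY / G ^ 4 * (N * E) ≤ (η * √η) * (Y / φ) * V * P := by
    calc 16 * lY / G ^ 4 * (N * E) ≤ 16 * lY / 1 * (N * E) := by
          gcongr
          exact one_le_pow₀ hG1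
      _ = 16 * lY * (N * E) := by ring
      _ ≤ (η * √η) * (Y / φ) * (1 / lY) := hNE
      _ ≤ (η * √η) * (Y / φ) * V := by gcongr
      _ ≤ (η * √η) * (Y / φ) * V * P := le_mul_of_one_le_right (by positivity) hP
  have h5 : 16 * lY / G ^ 4 * (8 * Y / W * P * G ^ 2 * (SE * SR)) ≤
      128 * Ce * Cr / c ^ 2 * (η * √η) * (Y / φ) * V * P := by
    have h6 : SE * SR ≤ (Ce * √η * V * (φ / W * lY)) * (Cr * η) :=
      mul_le_mul hSE hSR hSR0 (by positivity)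
    have h7 : (c * (φ / W * lY)) ^ 2 ≤ G ^ 2 := pow_le_pow_left₀ (by positivity) hG 2
    calc 16 * lY / G ^ 4 * (8 * Y / W * P * G ^ 2 * (SE * SR)) =
          128 * lY * (Y / W) * P * (SE * SR) / G ^ 2 := by
          field_simp
          ring
      _ ≤ 128 * lY * (Y / W) * P * ((Ce * √η * V * (φ / W * lY)) * (Cr * η)) /
            (c * (φ / W * lY)) ^ 2 := by
          apply div_le_div₀ (by positivity) _ (by positivity) h7
          exact mul_le_mul_of_nonneg_left h6 (by positivity)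
      _ = 128 * Ce * Cr / c ^ 2 * (η * √η) * (Y / φ) * V * P := by
          field_simp
  calc _ ≤ 128 * Ce * Cr / c ^ 2 * (η * √η) * (Y / φ) * V * P + (η * √η) * (Y / φ) * V * P :=
        add_le_add h5 h4
    _ = _ := by ring

theorem AR7f_absorb (η : ℝ) (hη : 0 < η) (hη1 : η ≤ 1 / 200) (φ : ℝ) (hφ : 0 < φ) :
    ∀ᶠ Y : ℝ in atTop, 16 * Real.log Y * ((Y ^ (14 * η) * (√(2 * Y) + 1)) * Y ^ (3 / 10 : ℝ)) ≤
      (η * √η) * (Y / φ) * (1 / Real.log Y) := by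
  have h1 : Tendsto (fun Y : ℝ => Y ^ (3 / 100 : ℝ)) atTop atTop := tendsto_rpow_atTop (by norm_num)
  have h2 : ∀ᶠ Y : ℝ in atTop, Real.log Y ≤ Y ^ (5 / 100 : ℝ) := by
    have h := (isLittleO_log_rpow_atTop (show (0 : ℝ) < 5 / 100 by norm_num)).bound
      (show (0 : ℝ) < 1 by norm_num)
    filter_upwards [h, eventually_ge_atTop (1 : ℝ)] with Y hY hY1
    rw [Real.norm_of_nonneg (Real.log_nonneg hY1), Real.norm_of_nonneg (by positivity), one_mul] at hY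
    exact hY
  filter_upwards [h2, h1.eventually_ge_atTop (48 * φ / (η * √η)), eventually_ge_atTop (3 : ℝ)] with Y
    hl hY hY3
  have hY0 : 0 < Y := by linarith
  have hY1 : 1 ≤ Y := by linarith
  have hlog : 0 < Real.log Y := Real.log_pos (by linarith)
  have hηs : 0 < η * √η := by positivity
  have h3 : √(2 * Y) + 1 ≤ 3 * Y ^ (1 / 2 : ℝ) := by
    rw [Real.sqrt_eq_rpow]
    have h4 : (2 * Y) ^ (1 / 2 : ℝ) ≤ 2 * Y ^ (1 / 2 : ℝ) := by
      rw [Real.mul_rpow (by norm_num) hY0.le]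
      refine mul_le_mul_of_nonneg_right ?_ (by positivity)
      calc (2 : ℝ) ^ (1 / 2 : ℝ) ≤ 2 ^ (1 : ℝ) :=
            Real.rpow_le_rpow_of_exponent_le (by norm_num) (by norm_num)
        _ = 2 := Real.rpow_one 2
    have h5 : 1 ≤ Y ^ (1 / 2 : ℝ) := Real.one_le_rpow hY1 (by norm_num)
    linarith
  have h4 : Y ^ (14 * η) ≤ Y ^ (7 / 100 : ℝ) :=
    Real.rpow_le_rpow_of_exponent_le hY1 (by linarith)
  have h5 : 48 * φ ≤ Y ^ (3 / 100 : ℝ) * (η * √η) := (div_le_iff₀ hηs).1 hY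
  have h6 : Y = Y ^ (3 / 100 : ℝ) * (Y ^ (5 / 100 : ℝ) * Y ^ (5 / 100 : ℝ) *
      (Y ^ (7 / 100 : ℝ) * Y ^ (1 / 2 : ℝ) * Y ^ (3 / 10 : ℝ))) := by
    rw [← Real.rpow_add hY0, ← Real.rpow_add hY0, ← Real.rpow_add hY0, ← Real.rpow_add hY0,
      ← Real.rpow_add hY0]
    norm_num
  rw [mul_one_div, le_div_iff₀ hlog, mul_div_assoc', le_div_iff₀ hφ]
  calc 16 * Real.log Y * ((Y ^ (14 * η) * (√(2 * Y) + 1)) * Y ^ (3 / 10 : ℝ)) * Real.log Y * φ
      ≤ 16 * Y ^ (5 / 100 : ℝ) * ((Y ^ (7 / 100 : ℝ) * (3 * Y ^ (1 / 2 : ℝ))) * Y ^ (3 / 10 : ℝ)) *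
          Y ^ (5 / 100 : ℝ) * φ := by gcongr
    _ = (48 * φ) * (Y ^ (5 / 100 : ℝ) * Y ^ (5 / 100 : ℝ) *
      (Y ^ (7 / 100 : ℝ) * Y ^ (1 / 2 : ℝ) * Y ^ (3 / 10 : ℝ))) := by ring
    _ ≤ (Y ^ (3 / 100 : ℝ) * (η * √η)) * (Y ^ (5 / 100 : ℝ) * Y ^ (5 / 100 : ℝ) *
      (Y ^ (7 / 100 : ℝ) * Y ^ (1 / 2 : ℝ) * Y ^ (3 / 10 : ℝ))) := by gcongr
    _ = η * √η * (Y ^ (3 / 100 : ℝ) * (Y ^ (5 / 100 : ℝ) * Y ^ (5 / 100 : ℝ) *
      (Y ^ (7 / 100 : ℝ) * Y ^ (1 / 2 : ℝ) * Y ^ (3 / 10 : ℝ)))) := by ring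
    _ = η * √η * Y := by rw [← h6]

/-- **The switching bound.**

Proof. By `bad_point` the sum is at most `∑_{e, r₁} 2 log (2 Y) λ ^ (-2) ∑_{n ∈ Wd, e r₁ ∣ n + sh} FF (era U (off B c)) ^ 2 FF2 (kee U (off B c)) ^ 2`
(`aw_le_two`), `λ ≥ GA ^ 2 / 2` (`maj_norm`), and `maj_sum` with `q = e r₁` (prime to `W`: `r₁ ≥ ZZ > D0`):
`≤ 2 log (2 Y) ∑_{e, r₁} (2 Y / (W e r₁) * 16 Th ^ 4 Π / GA ^ 2 + 4 Y ^ (3 / 10))`, `Th ^ 4 = ∏_{p ∣ e} (1 + 1 / p) ^ (4 K)`. `sum_e`, `sum_r`, `GA_low`: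
`≤ C log Y (Y / W) Π (φ(W) / W log Y) ^ (-2) √η V0 (φ(W) / W log Y) η = C η ^ (3 / 2) (Y / φ(W)) V0 Π`; the number of pairs is at most
`Y ^ (14 η) (√(2 Y) + 1) ≤ Y ^ (3 / 5)`, so the error is at most `Y ^ (0.95)`, absorbed by `V0_weak` and `A0, B0, G0 ≥ 1`. -/
theorem SW_le : ∃ C3 : ℝ, 0 < C3 ∧ ∀ (k : ℕ), 0 < k → ∀ (L : ℕ) (η τ : ℝ), 0 < η → η ≤ 1 / 200 → 0 < τ → τ ≤ 1 →
    ∃ D1 : ℕ, ∀ d : AData k, D1 ≤ d.D0 → ∀ κ : ℕ, ∀ᶠ Y : ℝ in atTop, ∀ i j : Fin k,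
      (∑ p ∈ Pd d i Y, open Classical in if BadP η Y (d.M i j (p - d.h i)) then
          ap κ Y p * wY d η τ L Y (p - d.h i) else 0) ≤
        C3 * (η * √η) * (Y / (d.W.totient : ℝ)) * V0 d η Y *
          (A0 d η L Y ^ (k - 1) * B0 d η L Y ^ 2 * G0 d η τ Y ^ (k ^ 2 + 1)) := by
  classical
  obtain ⟨Ce, hCe, hSe⟩ := sum_e
  obtain ⟨Cr, hCr, hSr⟩ := sum_r
  obtain ⟨c, hc, hGA⟩ := GA_low
  refine ⟨128 * Ce * Cr / c ^ 2 + 1, by positivity, fun k hk L η τ hη hη1 hτ hτ1 => ?_⟩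
  obtain ⟨D1, hmaj⟩ := maj_sum k hk L η τ hη hη1 hτ hτ1
  obtain ⟨D2, hnorm⟩ := maj_norm k
  obtain ⟨D3, hse⟩ := hSe k
  obtain ⟨D4, hv⟩ := V0_weak (k := k)
  refine ⟨max (max D1 D2) (max D3 D4), fun d hd κ => ?_⟩
  have hd1 : D1 ≤ d.D0 := ((le_max_left _ _).trans (le_max_left _ _)).trans hd
  have hd2 : D2 ≤ d.D0 := ((le_max_right _ _).trans (le_max_left _ _)).trans hd
  have hd3 : D3 ≤ d.D0 := ((le_max_left _ _).trans (le_max_right _ _)).trans hd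
  have hd4 : D4 ≤ d.D0 := ((le_max_right _ _).trans (le_max_right _ _)).trans hd
  have hD : 1 ≤ d.D0 := le_trans (by norm_num) d.D0_ge
  obtain ⟨Y₀, hY₀, haw⟩ := aw_le_two κ
  have hZ : Tendsto (fun Y => ZZ η Y) atTop atTop := by
    unfold ZZ
    exact tendsto_rpow_atTop (div_pos (by linarith) (by linarith))
  have hφ : (0 : ℝ) < (d.W.totient : ℝ) := by exact_mod_cast Nat.totient_pos.2 d.W_pos
  have hW : (0 : ℝ) < (d.W : ℝ) := by exact_mod_cast d.W_pos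
  filter_upwards [hmaj d hd1, hse d hd3 η hη hη1, hSr η hη hη1, hGA k d η hη hη1,
    hv d hd4 η hη hη1, bad_point k L η τ hη hη1 d,
    eventually_ge_atTop (max (2 * (d.D0 : ℝ)) (max 2 Y₀)), hZ.eventually_gt_atTop (d.D0 : ℝ),
    AR7f_absorb η hη hη1 (d.W.totient : ℝ) hφ] with Y h1 h2 h3 h4 h5 h6 h7 h8 h9
  intro i j
  have hY1 : 2 * (d.D0 : ℝ) ≤ Y := (le_max_left _ _).trans h7
  have hY2 : 2 ≤ Y := ((le_max_left _ _).trans (le_max_right _ _)).trans h7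
  have hY3 : Y₀ ≤ Y := ((le_max_right _ _).trans (le_max_right _ _)).trans h7
  have hY0 : 0 < Y := by linarith
  have hYo : 1 ≤ Y := by linarith
  have hlY : 0 < Real.log Y := Real.log_pos (by linarith)
  have hES : 1 ≤ ES Y := by
    unfold ES
    exact Real.one_le_rpow hYo (by norm_num)
  have hRR : 1 ≤ RR η Y := by
    unfold RR
    exact Real.one_le_rpow hYo hη.le
  have hEE : 1 ≤ EE η τ k Y := by
    unfold EE
    exact Real.one_le_rpow hYo (by positivity)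
  have hA : 1 ≤ A0 d η L Y := by
    unfold A0
    refine one_le_AA hD _ ?_
    rw [gS_empty L _ hRR]
    exact one_le_pow₀ (by norm_num)
  have hB : 1 ≤ B0 d η L Y := by
    unfold B0
    refine one_le_BB hD _ (gS_nonneg L _) ?_
    rw [gS_empty L _ hRR]
    exact one_le_pow₀ (by norm_num)
  have hG : 1 ≤ G0 d η τ Y := by
    unfold G0
    refine one_le_BB hD _ (gX_nonneg true _) ?_
    rw [gX_empty true _ hEE]
  have hGA1 : 1 ≤ BB (xY d η Y) (gX false (ES Y)) := by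
    refine one_le_BB hD _ (gX_nonneg false _) ?_
    rw [gX_empty false _ hES]
  have hP : 1 ≤ A0 d η L Y ^ (k - 1) * B0 d η L Y ^ 2 * G0 d η τ Y ^ (k ^ 2 + 1) :=
    one_le_mul_of_one_le_of_one_le (one_le_mul_of_one_le_of_one_le (one_le_pow₀ hA) (one_le_pow₀ hB))
      (one_le_pow₀ hG)
  have hUc : (AR7f_U i j).card = 2 := by
    unfold AR7f_U
    exact card_pair (by simp)
  have hprod : ∏ u ∈ AR7f_U i j, BB (xY d η Y) (gX ((fun _ : VV k => false) u) (ES Y)) =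
      BB (xY d η Y) (gX false (ES Y)) ^ 2 := by
    rw [prod_const, hUc]
  have hlam : 1 / 2 * BB (xY d η Y) (gX false (ES Y)) ^ 2 ≤ AR7f_l d η Y i j := by
    have := hnorm d hd2 η Y (AR7f_U i j) (fun _ => false)
    rw [hprod] at this
    exact this
  have hl0 : 0 < AR7f_l d η Y i j := lt_of_lt_of_le (by positivity) hlam
  have hS := AR7f_sum d η τ L κ Y i j hY1 hYo (haw Y hY3) (fun p hp1 hp2 hp3 hp4 hp5 =>
    h6 i j p hp1 hp2 hp3 hp4 hp5) hl0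
  have hl2 : 0 ≤ Real.log (2 * Y) := Real.log_nonneg (by linarith)
  have hl2' : Real.log (2 * Y) ≤ 2 * Real.log Y := by
    rw [Real.log_mul (by norm_num) hY0.ne']
    have := Real.log_le_log (by norm_num : (0 : ℝ) < 2) hY2
    linarith
  have hsum : ∀ x ∈ EQ d η Y ×ˢ RQ η Y,
      ∑ n ∈ (Wd d Y).filter (fun n => n ≡ (x.1 * x.2) * d.sh (Sum.inr (i, j)) -
          d.sh (Sum.inr (i, j)) [MOD x.1 * x.2]), AR7f_F d η τ L Y i j (x.1 * x.2) n ≤
        8 * Y / d.W * (A0 d η L Y ^ (k - 1) * B0 d η L Y ^ 2 * G0 d η τ Y ^ (k ^ 2 + 1)) *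
          BB (xY d η Y) (gX false (ES Y)) ^ 2 *
          (((1 / (x.1 : ℝ)) * (∏ p ∈ x.1.primeFactors, (1 + 1 / (p : ℝ))) ^ (4 * (k + k ^ 2))) *
            (1 / (x.2 : ℝ))) + Y ^ (3 / 10 : ℝ) := by
    intro x hx
    obtain ⟨hx1, hx2⟩ := mem_product.1 hx
    have hx2' := hx2
    unfold EQ at hx1
    unfold RQ at hx2
    obtain ⟨hx3, hx4, hx5⟩ := mem_filter.1 hx1
    obtain ⟨hx6, hx7, hx8, hx9⟩ := mem_filter.1 hx2
    have he1 : 1 ≤ x.1 := (mem_Icc.1 hx3).1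
    have hr1 : 1 ≤ x.2 := hx7.one_lt.le
    have hcop : (x.1 * x.2).Coprime d.W := by
      refine Nat.Coprime.mul_left hx5 ?_
      rw [hx7.coprime_iff_not_dvd, d.W_primes _ hx7]
      intro h
      have : (x.2 : ℝ) ≤ d.D0 := by exact_mod_cast h
      linarith
    have h10 := h1 (AR7f_U i j) (fun _ => false) (x.1 * x.2) ((x.1 * x.2) * d.sh (Sum.inr (i, j)) -
          d.sh (Sum.inr (i, j))) (by rw [hUc]; norm_num) (Nat.mul_pos (by omega) (by omega)) hcop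
    have h11 := prodU2 d η τ L Y i j
    rw [hprod] at h10
    have h12 : (∏ v ∈ (AR7f_U i j)ᶜ, AA (xY d η Y) (gY d η τ L Y v)) *
        (∏ u ∈ AR7f_U i j, BB (xY d η Y) (gY d η τ L Y u)) ^ 2 =
        A0 d η L Y ^ (k - 1) * B0 d η L Y ^ 2 * G0 d η τ Y ^ (k ^ 2 + 1) := h11
    rw [h12] at h10
    refine le_trans h10 (add_le_add_left ?_ _)
    have h13 := AR7f_Th d η Y x.1 x.2 (by omega) hx2'
    have he1' : (0 : ℝ) < x.1 := by exact_mod_cast he1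
    have hr1' : (0 : ℝ) < x.2 := by exact_mod_cast hr1
    push_cast
    have hP0 : 0 < A0 d η L Y ^ (k - 1) * B0 d η L Y ^ 2 * G0 d η τ Y ^ (k ^ 2 + 1) := by linarith
    set P := A0 d η L Y ^ (k - 1) * B0 d η L Y ^ 2 * G0 d η τ Y ^ (k ^ 2 + 1) with hPdef
    set GAv := BB (xY d η Y) (gX false (ES Y)) with hGAv
    set T := (∏ p ∈ x.1.primeFactors, (1 + 1 / (p : ℝ))) ^ (4 * (k + k ^ 2)) with hT
    calc 2 * Y / (d.W * (x.1 * x.2)) * (4 * Th (VV k) (xY d η Y) (BQ d η Y (x.1 * x.2)) ^ 4 * P * GAv ^ 2)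
        ≤ 2 * Y / (d.W * (x.1 * x.2)) * (4 * T * P * GAv ^ 2) := by gcongr
      _ = 8 * Y / d.W * P * GAv ^ 2 * (((1 / (x.1 : ℝ)) * T) * (1 / (x.2 : ℝ))) := by
          field_simp
          ring
  refine AR7f_real (lY := Real.log Y) (l2 := Real.log (2 * Y)) (lam := AR7f_l d η Y i j)
    (G := BB (xY d η Y) (gX false (ES Y))) (E := Y ^ (3 / 10 : ℝ)) (W := (d.W : ℝ))
    (SE := ∑ e ∈ EQ d η Y, (1 / (e : ℝ)) * (∏ p ∈ e.primeFactors, (1 + 1 / (p : ℝ))) ^ (4 * (k + k ^ 2)))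
    (SR := ∑ r ∈ RQ η Y, 1 / (r : ℝ)) (N := Y ^ (14 * η) * (√(2 * Y) + 1))
    hCe hCr hc hη h5 hGA1 h4 hP hY0 hW hφ hlY hl2 hl2' hlam (sum_nonneg fun e _ => by positivity)
    (sum_nonneg fun e _ => by positivity) h2 h3 (by positivity) (by positivity) h9 ?_
  refine hS.trans ?_
  rw [← mul_sum]
  refine mul_le_mul_of_nonneg_left ?_ (by positivity)
  refine (sum_le_sum hsum).trans ?_
  rw [sum_add_distrib, ← mul_sum, sum_const, card_product, nsmul_eq_mul]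
  refine add_le_add (le_of_eq ?_) ?_
  · congr 1
    rw [sum_product, sum_mul_sum]
  · refine mul_le_mul_of_nonneg_right ?_ (by positivity)
    push_cast
    refine mul_le_mul ?_ ?_ (Nat.cast_nonneg _) (by positivity)
    · calc ((EQ d η Y).card : ℝ) ≤ ((Icc 1 ⌊Y ^ (14 * η)⌋₊).card : ℝ) := by
            unfold EQ
            exact_mod_cast card_filter_le _ _
        _ = (⌊Y ^ (14 * η)⌋₊ : ℝ) := by rw [Nat.card_Icc]; simp
        _ ≤ Y ^ (14 * η) := Nat.floor_le (by positivity)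
    · calc ((RQ η Y).card : ℝ) ≤ ((range (⌊√(2 * Y)⌋₊ + 1)).card : ℝ) := by
            unfold RQ
            exact_mod_cast card_filter_le _ _
        _ = (⌊√(2 * Y)⌋₊ : ℝ) + 1 := by rw [card_range]; push_cast; ring
        _ ≤ √(2 * Y) + 1 := by
            have := Nat.floor_le (Real.sqrt_nonneg (2 * Y))
            linarith

end Pool.Agent.Wd33b62
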