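import Pool.Agent.W_d33b62_h36.AR1c
import Pool.Agent.W_d33b62_h36.AR7d
import Pool.Agent.W_d33b62_h36.HD2
import Pool.Agent.W_d33b62_h36.LA3

/-!
# The final inequality (helper36, MP_d33b62_nt)
-/

set_option autoImplicit false

noncomputable section

open Finset Filter

namespace Pool.Agent.Wd33b62

open Pool.Agent.Wb58c63 (PI mem_PI VP ap Pr XM)

open Classical in
/-- The weighted number of primes `p = n + h i` such that some `M i j (n)` is good. -/
def NI {k : ℕ} (d : AData k) (η τ : ℝ) (L κ : ℕ) (i : Fin k) (Y : ℝ) : ℝ :=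
  ∑ p ∈ Pd d i Y, if ∃ j, GoodP (d.M i j (p - d.h i)) then ap κ Y p * wY d η τ L Y (p - d.h i) else 0

theorem AR8a_Lm_le {V : Type} [DecidableEq V] {D0 : ℕ} {z : ℝ} (θ Dl : ℝ) (v : V) (c : Pl D0 z → Option V)
    (h : ((fib c v).filter fun p => p.1 % 4 = 3) ≠ ∅) : Lm θ Dl v c ≤ 0 := by
  classical
  unfold Lm
  have hinj : Function.Injective (Subtype.val : Pl D0 z → ℕ) := Subtype.val_injective
  have h1 : ∑ S ∈ ((fib c v).filter fun p => p.1 % 4 = 3).powerset, lamHF θ false Dl (S.image Subtype.val) =
      ∑ S ∈ (((fib c v).filter fun p => p.1 % 4 = 3).image Subtype.val).powerset, lamHF θ false Dl S := by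
    refine Finset.sum_bij (fun S _ => S.image Subtype.val) ?_ ?_ ?_ ?_
    · intro S hS
      exact Finset.mem_powerset.2 (Finset.image_subset_image (Finset.mem_powerset.1 hS))
    · intro S _ T _ hST
      exact Finset.image_injective hinj hST
    · intro T hT
      obtain ⟨S, hS, hST⟩ := Finset.subset_image_iff.1 (Finset.mem_powerset.1 hT)
      exact ⟨S, Finset.mem_powerset.2 (by exact_mod_cast hS), hST⟩
    · intro S _
      rfl
  rw [h1]
  have h2 := (sieve_ineqH θ (((fib c v).filter fun p => p.1 % 4 = 3).image Subtype.val) Dl).2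
  rw [if_neg] at h2
  · exact h2
  · intro h3
    exact h (Finset.image_eq_empty.1 h3)

theorem AR8a_Lm_one {V : Type} [DecidableEq V] {D0 : ℕ} {z : ℝ} (θ Dl : ℝ) (v : V) (c : Pl D0 z → Option V)
    (h : ((fib c v).filter fun p => p.1 % 4 = 3) = ∅) : Lm θ Dl v c = 1 := by
  unfold Lm
  rw [h, Finset.powerset_empty, Finset.sum_singleton, Finset.image_empty, lamHF_empty]

theorem AR8a_ite (P : Prop) [Decidable P] {w : ℝ} (hw : 0 ≤ w) : 0 ≤ (if P then w else 0) := by
  split_ifs
  · exact hw
  · exact le_refl _

theorem AR8a_ZZ_le (η : ℝ) (hη : 0 < η) (Y : ℝ) (hY : 1 ≤ Y) : ZZ η Y ≤ Y := by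
  unfold ZZ
  calc Y ^ ((1 / 2 - 6 * η) / (1 + η)) ≤ Y ^ (1 : ℝ) := by
        apply Real.rpow_le_rpow_of_exponent_le hY
        rw [div_le_one (by linarith)]
        linarith
    _ = Y := Real.rpow_one Y

/-- **The pointwise inequality behind the lower bound.** `c = cY n`, `n = p - h i`, `Y < p < 2 Y` prime:
`w [M good] ≥ FF (era U c) ^ 2 * Lm c - w [BadP M]`.

Proof. `Lm c` is the sum of the weights `lamHF false` over the subsets of the set `P` of the inert places with label
`inr (i, j)`, i.e. (as `p ∣ n + sh` and `p ∤ 2 D` give `p ∣ M`) of the inert primes `< ZZ` dividing `M` (`M` is prime to `W`, so its prime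
factors are `> D0`). If `P ≠ ∅`: `Lm c ≤ 0` (`sieve_ineqH`, the map `S ↦ S.image val` is a bijection of the powersets). If `P = ∅`:
`Lm c = 1` (`lamHF_empty`), `w = FF (era U c) ^ 2` (no label `inl i` since `n + h i = p > ZZ` is prime; the label `inr (i, j)` only at places
`≢ 3 mod 4`; `FF_congr`, `yw_inert`), and `M` is good or satisfies `BadP` (`M` is odd). -/
theorem point_low {k : ℕ} (d : AData k) (η τ θ : ℝ) (L : ℕ) (hη : 0 < η) (hη1 : η ≤ 1 / 200) :
    ∀ᶠ Y : ℝ in atTop, ∀ (i j : Fin k) (p : ℕ), p.Prime → Y < p → (p : ℝ) < 2 * Y → p ∈ Pd d i Y →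
      FF (xY d η Y) (yY d η τ L Y) (era {Sum.inl i, Sum.inr (i, j)} (cY d η Y (p - d.h i))) ^ 2 *
          Lm θ (DD η Y) (Sum.inr (i, j)) (cY d η Y (p - d.h i)) ≤
        (open Classical in if GoodP (d.M i j (p - d.h i)) then wY d η τ L Y (p - d.h i) else 0) +
          (open Classical in if BadP η Y (d.M i j (p - d.h i)) then wY d η τ L Y (p - d.h i) else 0) := by
  classical
  filter_upwards [eventually_ge_atTop (1 : ℝ), eventually_ge_atTop (d.D0 : ℝ)] with Y hY1 hYD
  intro i j p hp hpY hp2 hpP
  have hZY := AR8a_ZZ_le η hη Y hY1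
  have hhi : d.h i ≤ d.D0 := d.sh_le (Sum.inl i)
  have hDp : d.D0 < p := by
    have : (d.D0 : ℝ) < p := lt_of_le_of_lt hYD hpY
    exact_mod_cast this
  have hhp : d.h i ≤ p := by omega
  set n := p - d.h i with hn
  have hnp : n + d.h i = p := Nat.sub_add_cancel hhp
  have hmod : n ≡ d.b [MOD d.W] := by
    have h1 : p ≡ d.b + d.h i [MOD d.W] := by
      unfold Pd at hpP
      exact (Finset.mem_filter.1 hpP).2
    rw [← hnp] at h1
    exact Nat.ModEq.add_right_cancel' _ h1
  set c := cY d η Y n with hc
  have hcc : ∀ (q : PY d η Y) (v : VV k), c q = some v ↔ q.1 ∣ n + d.sh v := fun q v => cc_iff d (ZZ η Y) n q v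
  have hw : wY d η τ L Y n = FF (xY d η Y) (yY d η τ L Y) c ^ 2 := rfl
  have hw0 : 0 ≤ wY d η τ L Y n := by rw [hw]; exact sq_nonneg _
  by_cases hP : ((fib c (Sum.inr (i, j))).filter fun p => p.1 % 4 = 3) = ∅
  · rw [AR8a_Lm_one _ _ _ _ hP, mul_one]
    have hFF : FF (xY d η Y) (yY d η τ L Y) (era {Sum.inl i, Sum.inr (i, j)} c) =
        FF (xY d η Y) (yY d η τ L Y) c := by
      refine FF_congr _ _ _ _ ?_
      intro κ hκ q hq
      rcases hcq : c q with _ | v
      · have : era {Sum.inl i, Sum.inr (i, j)} c q = none := by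
          unfold era
          rw [hcq]
          rfl
        rw [this]
      · by_cases hv : v ∈ ({Sum.inl i, Sum.inr (i, j)} : Finset (VV k))
        · have h1 : era {Sum.inl i, Sum.inr (i, j)} c q = none := by
            unfold era
            rw [hcq]
            simp only [Option.filter_some, hv, not_true_eq_false, decide_false]
            rfl
          rw [h1]
          constructor
          · intro h2
            exact absurd h2.symm hq
          · intro h2
            exfalso
            rw [Finset.mem_insert, Finset.mem_singleton] at hv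
            rcases hv with rfl | rfl
            · have h3 := (hcc q _).1 hcq
              have h4 : q.1 ∣ p := by
                rw [← hnp]
                exact h3
              have h5 := mem_PS.1 q.2
              have h6 : q.1 = p := (Nat.prime_dvd_prime_iff_eq h5.1 hp).1 h4
              have h7 := h5.2.2
              rw [h6] at h7
              linarith
            · have h3 : q.1 % 4 = 3 := yw_inert L (RR η Y) (EE η τ k Y) κ hκ q (i, j) h2.symm
              have h4 : q ∈ ((fib c (Sum.inr (i, j))).filter fun p => p.1 % 4 = 3) := by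
                unfold fib
                rw [Finset.mem_filter, Finset.mem_filter]
                exact ⟨⟨Finset.mem_univ _, hcq⟩, h3⟩
              rw [hP] at h4
              simp at h4
        · have h1 : era {Sum.inl i, Sum.inr (i, j)} c q = some v := by
            unfold era
            rw [hcq]
            simp only [Option.filter_some, hv, not_false_eq_true, decide_true, if_true]
          rw [h1]
    rw [hFF, ← hw]
    by_cases hG : GoodP (d.M i j n)
    · rw [if_pos hG]
      have h3 : 0 ≤ (if BadP η Y (d.M i j n) then wY d η τ L Y n else 0) := AR8a_ite _ hw0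
      linarith
    · have hB : BadP η Y (d.M i j n) := by
        have hodd : d.M i j n % 4 = 1 := d.mod4 i j n hmod
        constructor
        · intro q hq hqM hq4
          by_contra hlt
          push Not at hlt
          have hqW : ¬ q ∣ d.W := by
            intro hqW
            have h1 : q ∣ 1 := by
              have h2 := Nat.dvd_gcd hqM hqW
              have h3 : (d.M i j n).gcd d.W = 1 := d.copM i j n hmod
              rwa [h3] at h2
            exact hq.one_lt.ne' (Nat.dvd_one.1 h1)
          have hqD : d.D0 < q := by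
            by_contra h
            exact hqW ((d.W_primes q hq).2 (not_lt.1 h))
          have hmem : q ∈ PS d.D0 (ZZ η Y) := mem_PS.2 ⟨hq, hqD, hlt⟩
          have hdv : q ∣ n + d.sh (Sum.inr (i, j)) := by
            have h1 := d.dvd i j n hmod
            have h2 : d.M i j n ∣ n + (d.h i + d.a i j) := Nat.div_dvd_of_dvd h1
            exact hqM.trans h2
          have h4 : (⟨q, hmem⟩ : PY d η Y) ∈ ((fib c (Sum.inr (i, j))).filter fun p => p.1 % 4 = 3) := by
            unfold fib
            rw [Finset.mem_filter, Finset.mem_filter]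
            exact ⟨⟨Finset.mem_univ _, (hcc _ _).2 hdv⟩, hq4⟩
          rw [hP] at h4
          simp at h4
        · unfold GoodP at hG
          push Not at hG
          obtain ⟨q, hq, hqM, hq4⟩ := hG
          refine ⟨q, hq, hqM, ?_⟩
          have h2 : q ≠ 2 := by
            rintro rfl
            omega
          have h3 := hq.eq_two_or_odd
          omega
      rw [if_pos hB]
      have h3 : 0 ≤ (if GoodP (d.M i j n) then wY d η τ L Y n else 0) := AR8a_ite _ hw0
      linarith
  · have h1 := AR8a_Lm_le θ (DD η Y) (Sum.inr (i, j)) c hP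
    have h2 : FF (xY d η Y) (yY d η τ L Y) (era {Sum.inl i, Sum.inr (i, j)} c) ^ 2 *
        Lm θ (DD η Y) (Sum.inr (i, j)) c ≤ 0 := mul_nonpos_of_nonneg_of_nonpos (sq_nonneg _) h1
    have h3 : 0 ≤ (if GoodP (d.M i j n) then wY d η τ L Y n else 0) := AR8a_ite _ hw0
    have h4 : 0 ≤ (if BadP η Y (d.M i j n) then wY d η τ L Y n else 0) := AR8a_ite _ hw0
    linarith

end Pool.Agent.Wd33b62
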