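import Pool.Agent.W_b58c63_h68.ArB
import Pool.Agent.W_b58c63_h68.JLam

/-!
# The final inequality (helper36, MP_d33b62_nt)
-/

set_option autoImplicit false

noncomputable section

open Finset Filter

namespace Pool.Agent.Wd33b62

open Pool.Agent.Wb58c63 (PI mem_PI VP ap Pr XM)

/-- **Bonferroni**: `[∃ j, A j] ≥ ∑_j [A j] - ∑_{j < j'} [A j][A j']`. -/
theorem bonferroni {k : ℕ} (A : Fin k → Prop) [DecidablePred A] [Decidable (∃ j, A j)] :
    (∑ j, if A j then (1 : ℝ) else 0) - ∑ x ∈ (univ : Finset (Fin k × Fin k)).filter (fun x => x.1 < x.2),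
      (if A x.1 ∧ A x.2 then (1 : ℝ) else 0) ≤ if ∃ j, A j then 1 else 0 := by
  classical
  by_cases h : ∃ j, A j
  · rw [if_pos h]
    obtain ⟨j0, hj0, hmin⟩ : ∃ j0, A j0 ∧ ∀ j, A j → j0 ≤ j := by
      have hne : (univ.filter A).Nonempty := by
        obtain ⟨j, hj⟩ := h
        exact ⟨j, mem_filter.2 ⟨mem_univ _, hj⟩⟩
      exact ⟨(univ.filter A).min' hne, (mem_filter.1 (min'_mem _ hne)).2,
        fun j hj => min'_le _ _ (mem_filter.2 ⟨mem_univ _, hj⟩)⟩
    have h1 : ∑ j ∈ univ.erase j0, (if A j then (1 : ℝ) else 0) ≤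
        ∑ x ∈ (univ : Finset (Fin k × Fin k)).filter (fun x => x.1 < x.2),
          (if A x.1 ∧ A x.2 then (1 : ℝ) else 0) := by
      have e1 : ∑ j ∈ univ.erase j0, (if A j then (1 : ℝ) else 0) =
          ∑ x ∈ ((univ.erase j0).filter A).image (fun j => (j0, j)),
            (if A x.1 ∧ A x.2 then (1 : ℝ) else 0) := by
        rw [sum_image (fun a _ b _ hab => (Prod.mk.inj hab).2), ← sum_filter]
        refine sum_congr rfl fun j hj => ?_
        rw [mem_filter] at hj
        rw [if_pos ⟨hj0, hj.2⟩]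
      rw [e1]
      refine sum_le_sum_of_subset_of_nonneg ?_ fun x _ _ => by split_ifs <;> norm_num
      intro x hx
      rw [mem_image] at hx
      obtain ⟨j, hj, rfl⟩ := hx
      rw [mem_filter, mem_erase] at hj
      exact mem_filter.2 ⟨mem_univ _, lt_of_le_of_ne (hmin j hj.2) (Ne.symm hj.1.1)⟩
    have h2 := add_sum_erase univ (fun j => if A j then (1 : ℝ) else 0) (mem_univ j0)
    rw [if_pos hj0] at h2
    linarith
  · rw [if_neg h]
    push Not at h
    have h1 : ∑ j, (if A j then (1 : ℝ) else 0) = 0 :=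
      sum_eq_zero fun j _ => if_neg (h j)
    have h2 : 0 ≤ ∑ x ∈ (univ : Finset (Fin k × Fin k)).filter (fun x => x.1 < x.2),
          (if A x.1 ∧ A x.2 then (1 : ℝ) else 0) :=
      sum_nonneg fun x _ => by split_ifs <;> norm_num
    linarith

end Pool.Agent.Wd33b62
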