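import Pool.Agent.W_d33b62_h36.AR6d
import Pool.Agent.W_d33b62_h36.AR7c
import Pool.Agent.W_d33b62_h36.AR7f
import Pool.Agent.W_d33b62_h36.AR8a
import Pool.Agent.W_d33b62_h36.AR8b

/-!
# The final inequality (helper36, MP_d33b62_nt)
-/

set_option autoImplicit false

noncomputable section

open Finset Filter

namespace Pool.Agent.Wd33b62

open Pool.Agent.Wb58c63 (PI mem_PI VP ap Pr XM)

theorem AR8c_A0_nonneg {k : ℕ} (d : AData k) (η : ℝ) (L : ℕ) (Y : ℝ) : 0 ≤ A0 d η L Y := by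
  unfold A0 AA
  refine sum_nonneg fun S _ => mul_nonneg (sq_nonneg _) (prod_nonneg fun p _ => ?_)
  unfold xY xr
  positivity

theorem AR8c_G0_nonneg {k : ℕ} (d : AData k) (η τ : ℝ) (Y : ℝ) : 0 ≤ G0 d η τ Y := by
  unfold G0 BB
  refine sum_nonneg fun S _ => mul_nonneg ?_ (prod_nonneg fun p _ => ?_)
  · unfold gX
    split_ifs <;> norm_num
  · unfold xY xr
    positivity

theorem AR8c_ap_support {κ : ℕ} {Y : ℝ} (hY : 1 ≤ Y) {p : ℕ} (h : ap κ Y p ≠ 0) :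
    Y < p ∧ (p : ℝ) < 2 * Y := by
  refine Pool.Agent.Wb58c63.aw_support κ Y hY p fun h0 => h ?_
  unfold ap
  rw [h0, zero_mul]

/-- The combinatorial part: `NI ≥ ∑_j (S2 j - SW j) - ∑_{j < j'} PA j j'`. -/
theorem AR8c_NI_ge {k : ℕ} (d : AData k) (η τ θ : ℝ) (L κ : ℕ) (Y : ℝ) (hY : 1 ≤ Y) (i : Fin k)
    (hpl : ∀ (j : Fin k) (p : ℕ), p.Prime → Y < p → (p : ℝ) < 2 * Y → p ∈ Pd d i Y →
      FF (xY d η Y) (yY d η τ L Y) (era {Sum.inl i, Sum.inr (i, j)} (cY d η Y (p - d.h i))) ^ 2 *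
          Lm θ (DD η Y) (Sum.inr (i, j)) (cY d η Y (p - d.h i)) ≤
        (open Classical in if GoodP (d.M i j (p - d.h i)) then wY d η τ L Y (p - d.h i) else 0) +
          (open Classical in if BadP η Y (d.M i j (p - d.h i)) then wY d η τ L Y (p - d.h i) else 0)) :
    (∑ j, ((∑ p ∈ Pd d i Y, ap κ Y p * (FF (xY d η Y) (yY d η τ L Y)
            (era {Sum.inl i, Sum.inr (i, j)} (cY d η Y (p - d.h i))) ^ 2 *
              Lm θ (DD η Y) (Sum.inr (i, j)) (cY d η Y (p - d.h i)))) -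
        ∑ p ∈ Pd d i Y, open Classical in if BadP η Y (d.M i j (p - d.h i)) then
          ap κ Y p * wY d η τ L Y (p - d.h i) else 0)) -
      ∑ x ∈ (univ : Finset (Fin k × Fin k)).filter (fun x => x.1 < x.2),
        (∑ p ∈ Pd d i Y, open Classical in if GoodP (d.M i x.1 (p - d.h i)) ∧
          GoodP (d.M i x.2 (p - d.h i)) then ap κ Y p * wY d η τ L Y (p - d.h i) else 0) ≤
      NI d η τ L κ i Y := by
  classical
  have hap : ∀ p, 0 ≤ ap κ Y p := fun p => Pool.Agent.Wb58c63.ap_nonneg κ Y hY p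
  have hw : ∀ n, 0 ≤ wY d η τ L Y n := fun n => sq_nonneg _
  have h1 : (∑ p ∈ Pd d i Y, ((∑ j, if GoodP (d.M i j (p - d.h i)) then
        ap κ Y p * wY d η τ L Y (p - d.h i) else 0) -
      ∑ x ∈ (univ : Finset (Fin k × Fin k)).filter (fun x => x.1 < x.2),
        if GoodP (d.M i x.1 (p - d.h i)) ∧ GoodP (d.M i x.2 (p - d.h i)) then
          ap κ Y p * wY d η τ L Y (p - d.h i) else 0)) ≤ NI d η τ L κ i Y := by
    unfold NI
    refine sum_le_sum fun p _ => ?_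
    have hb := bonferroni fun j => GoodP (d.M i j (p - d.h i))
    have hb2 := mul_le_mul_of_nonneg_left hb (mul_nonneg (hap p) (hw (p - d.h i)))
    rw [mul_sub, mul_sum, mul_sum] at hb2
    simp only [mul_ite, mul_one, mul_zero] at hb2
    refine le_trans (le_of_eq ?_) (le_trans hb2 (le_of_eq ?_))
    · congr 1
    · congr 1
  refine le_trans ?_ h1
  refine le_trans (sub_le_sub ?_ ?_) (le_of_eq (sum_sub_distrib _ _).symm)
  · refine le_trans ?_ (le_of_eq sum_comm)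
    refine sum_le_sum fun j _ => ?_
    rw [← sum_sub_distrib]
    refine sum_le_sum fun p hp => ?_
    by_cases h0 : ap κ Y p = 0
    · simp [h0]
    · have hs := AR8c_ap_support hY h0
      have hpr : p.Prime := by
        have := hp
        unfold Pd at this
        rw [mem_filter] at this
        exact (Pool.Agent.Wb58c63.mem_Pr.1 this.1).1
      have h2 := mul_le_mul_of_nonneg_left (hpl j p hpr hs.1 hs.2 hp) (hap p)
      rw [mul_add] at h2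
      simp only [mul_ite, mul_zero] at h2
      linarith
  · exact le_of_eq sum_comm

/-- The numerical part. -/
theorem AR8c_num {c2 C3 C4 c5 C5 η τ K X Om : ℝ} (hc2 : 0 < c2) (hC4 : 0 < C4)
    (hη0 : 0 < η) (hη2 : C3 * η ≤ c2 / 2) (hτ0 : 0 < τ)
    (hτ2 : C4 * C5 ^ 2 * τ ≤ c2 * c5 / 4) (hK : 0 < K) (hOm : 0 ≤ Om)
    (hX0 : 0 ≤ X) (hX1 : c5 * (τ * √η / K) ≤ X) (hX2 : X ≤ C5 * (τ * √η / K)) :
    η * τ * c2 * c5 / 4 * Om ≤
      K * (c2 * √η * (X * Om) - C3 * (η * √η) * (X * Om)) - K ^ 2 * (C4 * (X ^ 2 * Om)) := by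
  have hs : √η * √η = η := Real.mul_self_sqrt hη0.le
  have hsp : 0 < √η := Real.sqrt_pos.2 hη0
  have e1 : c5 * (τ * √η) ≤ K * X := by
    have := mul_le_mul_of_nonneg_left hX1 hK.le
    calc c5 * (τ * √η) = K * (c5 * (τ * √η / K)) := by field_simp
      _ ≤ K * X := this
  have e2 : K * X ≤ C5 * (τ * √η) := by
    have := mul_le_mul_of_nonneg_left hX2 hK.le
    calc K * X ≤ K * (C5 * (τ * √η / K)) := this
      _ = C5 * (τ * √η) := by field_simp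
  have h1 : c2 / 2 * √η * (c5 * (τ * √η)) ≤ (c2 - C3 * η) * √η * (K * X) := by
    have h3 : c2 / 2 * √η ≤ (c2 - C3 * η) * √η := by
      apply mul_le_mul_of_nonneg_right _ hsp.le
      linarith
    calc c2 / 2 * √η * (c5 * (τ * √η)) ≤ c2 / 2 * √η * (K * X) :=
          mul_le_mul_of_nonneg_left e1 (by positivity)
      _ ≤ (c2 - C3 * η) * √η * (K * X) := mul_le_mul_of_nonneg_right h3 (by positivity)
  have h2 : C4 * (K * X) ^ 2 ≤ c2 * c5 / 4 * τ * η := by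
    calc C4 * (K * X) ^ 2 ≤ C4 * (C5 * (τ * √η)) ^ 2 := by
          apply mul_le_mul_of_nonneg_left _ hC4.le
          exact pow_le_pow_left₀ (by positivity) e2 2
      _ = C4 * C5 ^ 2 * τ * (τ * (√η * √η)) := by ring
      _ = C4 * C5 ^ 2 * τ * (τ * η) := by rw [hs]
      _ ≤ c2 * c5 / 4 * (τ * η) := mul_le_mul_of_nonneg_right hτ2 (by positivity)
      _ = c2 * c5 / 4 * τ * η := by ring
  have h3 : c2 / 2 * √η * (c5 * (τ * √η)) = c2 * c5 / 2 * τ * η := by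
    calc c2 / 2 * √η * (c5 * (τ * √η)) = c2 * c5 / 2 * τ * (√η * √η) := by ring
      _ = c2 * c5 / 2 * τ * η := by rw [hs]
  have h4 : η * τ * c2 * c5 / 4 ≤ (c2 - C3 * η) * √η * (K * X) - C4 * (K * X) ^ 2 := by
    rw [h3] at h1
    linarith
  have h5 := mul_le_mul_of_nonneg_right h4 hOm
  calc η * τ * c2 * c5 / 4 * Om ≤ ((c2 - C3 * η) * √η * (K * X) - C4 * (K * X) ^ 2) * Om := h5
    _ = K * (c2 * √η * (X * Om) - C3 * (η * √η) * (X * Om)) - K ^ 2 * (C4 * (X ^ 2 * Om)) := by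
        ring

/-- **Lower bound for `NI`.**

Proof. Let `Ω = Y / φ(W) A0 ^ (k - 1) B0 ^ 2 G0 ^ (k ^ 2)`, `X = V0 G0`. `bonferroni`, `point_low`, `S2_ge`, `SW_le`, `PA_le`:
`NI ≥ k (c2 √η - C3 η √η) X Ω - (k ^ 2 / 2) C4 X ^ 2 Ω`. Choose `η = min (1 / 200) (c2 / (2 C3))`; `X_bounds`:
`k X ∈ [c5 τ √η, C5 τ √η]`, so `NI ≥ Ω η (c2 c5 τ / 2 - C4 C5 ^ 2 τ ^ 2 / 2)`; choose `τ = min 1 (c2 c5 / (2 C4 C5 ^ 2))`:
`NI ≥ Ω η τ c2 c5 / 4`. -/
theorem N_ge : ∃ η τ c9 : ℝ, 0 < η ∧ η ≤ 1 / 200 ∧ 0 < τ ∧ τ ≤ 1 ∧ 0 < c9 ∧ ∀ (k : ℕ), 0 < k → ∀ L : ℕ, ∃ D1 : ℕ,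
    ∀ d : AData k, D1 ≤ d.D0 →
      (∀ᶠ Y : ℝ in atTop, (k - 1 : ℝ) * ∑ S : Finset (PY d η Y), Real.log (nmS S) / Real.log (RR η Y) *
        gS L (RR η Y) S ^ 2 * ∏ p ∈ S, xY d η Y p ≤ 1 / 16 * A0 d η L Y) →
      ∃ κ : ℕ, ∀ᶠ Y : ℝ in atTop, ∀ i : Fin k,
        c9 * (Y / (d.W.totient : ℝ)) * (A0 d η L Y ^ (k - 1) * B0 d η L Y ^ 2 * G0 d η τ Y ^ (k ^ 2)) ≤
          NI d η τ L κ i Y := by
  obtain ⟨c2, hc2, hS2⟩ := S2_ge
  obtain ⟨C3, hC3, hSW⟩ := SW_le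
  obtain ⟨C4, hC4, hPA⟩ := PA_le
  obtain ⟨c5, C5, hc5, hC5, hX⟩ := X_bounds
  obtain ⟨η, hη0, hη1, hη2⟩ : ∃ η : ℝ, 0 < η ∧ η ≤ 1 / 200 ∧ C3 * η ≤ c2 / 2 := by
    refine ⟨min (1 / 200) (c2 / (2 * C3)), lt_min (by norm_num) (by positivity),
      min_le_left _ _, ?_⟩
    calc C3 * min (1 / 200) (c2 / (2 * C3)) ≤ C3 * (c2 / (2 * C3)) :=
          mul_le_mul_of_nonneg_left (min_le_right _ _) hC3.le
      _ = c2 / 2 := by field_simp
  obtain ⟨τ, hτ0, hτ1, hτ2⟩ : ∃ τ : ℝ, 0 < τ ∧ τ ≤ 1 ∧ C4 * C5 ^ 2 * τ ≤ c2 * c5 / 4 := by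
    refine ⟨min 1 (c2 * c5 / (4 * (C4 * C5 ^ 2))), lt_min one_pos (by positivity),
      min_le_left _ _, ?_⟩
    calc C4 * C5 ^ 2 * min 1 (c2 * c5 / (4 * (C4 * C5 ^ 2))) ≤
          C4 * C5 ^ 2 * (c2 * c5 / (4 * (C4 * C5 ^ 2))) :=
          mul_le_mul_of_nonneg_left (min_le_right _ _) (by positivity)
      _ = c2 * c5 / 4 := by field_simp
  refine ⟨η, τ, η * τ * c2 * c5 / 4, hη0, hη1, hτ0, hτ1, by positivity, ?_⟩
  intro k hk L
  obtain ⟨θ, hθ, D1, hD1⟩ := hS2 k hk L η τ hη0 hη1 hτ0 hτ1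
  obtain ⟨D2, hD2⟩ := hSW k hk L η τ hη0 hη1 hτ0 hτ1
  obtain ⟨D3, hD3⟩ := hPA k hk L η τ hη0 hη1 hτ0 hτ1
  obtain ⟨D4, hD4⟩ := hX k hk
  refine ⟨max (max D1 D2) (max D3 D4), fun d hd hM => ?_⟩
  have hd1 : D1 ≤ d.D0 := le_trans (le_trans (le_max_left _ _) (le_max_left _ _)) hd
  have hd2 : D2 ≤ d.D0 := le_trans (le_trans (le_max_right _ _) (le_max_left _ _)) hd
  have hd3 : D3 ≤ d.D0 := le_trans (le_trans (le_max_left _ _) (le_max_right _ _)) hd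
  have hd4 : D4 ≤ d.D0 := le_trans (le_trans (le_max_right _ _) (le_max_right _ _)) hd
  obtain ⟨κ, hκ⟩ := hD1 d hd1 hM
  refine ⟨κ, ?_⟩
  filter_upwards [hκ, hD2 d hd2 κ, hD3 d hd3 κ, hD4 d hd4 η τ hη0 hη1 hτ0 hτ1,
    point_low d η τ θ L hη0 hη1, eventually_ge_atTop 1] with Y h2 hsw hpa hx hpl hY i
  have hkR : (0 : ℝ) < k := by exact_mod_cast hk
  set Om : ℝ := (Y / (d.W.totient : ℝ)) *
    (A0 d η L Y ^ (k - 1) * B0 d η L Y ^ 2 * G0 d η τ Y ^ (k ^ 2)) with hOmd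
  set X : ℝ := V0 d η Y * G0 d η τ Y with hXd
  have hOm : 0 ≤ Om := by
    have := AR8c_A0_nonneg d η L Y
    have := AR8c_G0_nonneg d η τ Y
    have hY0 : 0 ≤ Y := by linarith
    rw [hOmd]
    positivity
  have hX0 : 0 ≤ X := le_trans (by positivity) hx.1
  have hfin := AR8c_NI_ge d η τ θ L κ Y hY i fun j p hp h1 h3 h4 => hpl i j p hp h1 h3 h4
  have hA : ∀ j : Fin k, c2 * √η * (X * Om) - C3 * (η * √η) * (X * Om) ≤
      (∑ p ∈ Pd d i Y, ap κ Y p * (FF (xY d η Y) (yY d η τ L Y)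
            (era {Sum.inl i, Sum.inr (i, j)} (cY d η Y (p - d.h i))) ^ 2 *
              Lm θ (DD η Y) (Sum.inr (i, j)) (cY d η Y (p - d.h i)))) -
        ∑ p ∈ Pd d i Y, open Classical in if BadP η Y (d.M i j (p - d.h i)) then
          ap κ Y p * wY d η τ L Y (p - d.h i) else 0 := by
    intro j
    have ha := h2 i j
    have hb := hsw i j
    have e1 : c2 * √η * (Y / (d.W.totient : ℝ)) * V0 d η Y *
          (A0 d η L Y ^ (k - 1) * B0 d η L Y ^ 2 * G0 d η τ Y ^ (k ^ 2 + 1)) =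
        c2 * √η * (X * Om) := by
      rw [hXd, hOmd]
      ring
    have e2 : C3 * (η * √η) * (Y / (d.W.totient : ℝ)) * V0 d η Y *
          (A0 d η L Y ^ (k - 1) * B0 d η L Y ^ 2 * G0 d η τ Y ^ (k ^ 2 + 1)) =
        C3 * (η * √η) * (X * Om) := by
      rw [hXd, hOmd]
      ring
    rw [e1] at ha
    rw [e2] at hb
    exact sub_le_sub ha hb
  have hB : ∀ x ∈ (univ : Finset (Fin k × Fin k)).filter (fun x => x.1 < x.2),
      (∑ p ∈ Pd d i Y, open Classical in if GoodP (d.M i x.1 (p - d.h i)) ∧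
          GoodP (d.M i x.2 (p - d.h i)) then ap κ Y p * wY d η τ L Y (p - d.h i) else 0) ≤
        C4 * (X ^ 2 * Om) := by
    intro x hx2
    have ha := hpa i x.1 x.2 (ne_of_lt (mem_filter.1 hx2).2)
    have e1 : C4 * (Y / (d.W.totient : ℝ)) * V0 d η Y ^ 2 *
          (A0 d η L Y ^ (k - 1) * B0 d η L Y ^ 2 * G0 d η τ Y ^ (k ^ 2 + 2)) =
        C4 * (X ^ 2 * Om) := by
      rw [hXd, hOmd]
      ring
    rw [e1] at ha
    exact ha
  have hA2 : (k : ℝ) * (c2 * √η * (X * Om) - C3 * (η * √η) * (X * Om)) ≤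
      ∑ j, ((∑ p ∈ Pd d i Y, ap κ Y p * (FF (xY d η Y) (yY d η τ L Y)
            (era {Sum.inl i, Sum.inr (i, j)} (cY d η Y (p - d.h i))) ^ 2 *
              Lm θ (DD η Y) (Sum.inr (i, j)) (cY d η Y (p - d.h i)))) -
        ∑ p ∈ Pd d i Y, open Classical in if BadP η Y (d.M i j (p - d.h i)) then
          ap κ Y p * wY d η τ L Y (p - d.h i) else 0) := by
    have := sum_le_sum fun (j : Fin k) (_ : j ∈ univ) => hA j
    rw [sum_const, card_univ, Fintype.card_fin, nsmul_eq_mul] at this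
    exact this
  have hB2 : ∑ x ∈ (univ : Finset (Fin k × Fin k)).filter (fun x => x.1 < x.2),
        (∑ p ∈ Pd d i Y, open Classical in if GoodP (d.M i x.1 (p - d.h i)) ∧
          GoodP (d.M i x.2 (p - d.h i)) then ap κ Y p * wY d η τ L Y (p - d.h i) else 0) ≤
      (k : ℝ) ^ 2 * (C4 * (X ^ 2 * Om)) := by
    have h1 := sum_le_sum hB
    rw [sum_const, nsmul_eq_mul] at h1
    refine le_trans h1 (mul_le_mul_of_nonneg_right ?_ (by positivity))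
    have h3 : ((univ : Finset (Fin k × Fin k)).filter (fun x => x.1 < x.2)).card ≤ k ^ 2 := by
      refine le_trans (card_filter_le _ _) (le_of_eq ?_)
      rw [card_univ, Fintype.card_prod, Fintype.card_fin, sq]
    exact_mod_cast h3
  have hnum := AR8c_num hc2 hC4 hη0 hη2 hτ0 hτ2 hkR hOm hX0 hx.1 hx.2
  have e0 : η * τ * c2 * c5 / 4 * (Y / (d.W.totient : ℝ)) *
      (A0 d η L Y ^ (k - 1) * B0 d η L Y ^ 2 * G0 d η τ Y ^ (k ^ 2)) =
      η * τ * c2 * c5 / 4 * Om := by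
    rw [hOmd]
    ring
  rw [e0]
  linarith

end Pool.Agent.Wd33b62
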