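import Pool.Agent.W_d33b62_h36.AR8a
import Pool.Agent.W_d33b62_h36.BV4

/-!
# The final inequality (helper36, MP_d33b62_nt)
-/

set_option autoImplicit false

noncomputable section

open Finset Filter

namespace Pool.Agent.Wd33b62

open Pool.Agent.Wb58c63 (PI mem_PI VP ap Pr XM)

open Classical in
/-- One shift: the sum `NI` is at most the corresponding sum over the window. -/
private theorem AR8d_one {k : ℕ} (d : AData k) (η τ : ℝ) (L κ : ℕ) {Y : ℝ} (hY1 : 1 ≤ Y)
    (hYD : 2 * (d.D0 : ℝ) ≤ Y) (haw : ∀ n : ℕ, Wb58c63.aw κ Y n ≤ 2) (i : Fin k) :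
    NI d η τ L κ i Y ≤ ∑ n ∈ Wd d Y, if (n + d.h i).Prime ∧ ∃ j, GoodP (d.M i j n) then
      2 * Real.log (2 * Y) * wY d η τ L Y n else 0 := by
  have hw : ∀ n, 0 ≤ wY d η τ L Y n := fun n => by
    unfold wY
    positivity
  have hlog : 0 ≤ Real.log (2 * Y) := Real.log_nonneg (by linarith)
  set G : ℕ → ℝ := fun n => if (n + d.h i).Prime ∧ ∃ j, GoodP (d.M i j n) then
      2 * Real.log (2 * Y) * wY d η τ L Y n else 0 with hG
  have hG0 : ∀ n, 0 ≤ G n := by
    intro n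
    rw [hG]
    dsimp only
    split_ifs
    · exact mul_nonneg (mul_nonneg two_pos.le hlog) (hw n)
    · exact le_rfl
  have hhi : d.h i ≤ d.D0 := d.sh_le (Sum.inl i)
  have hhiR : (d.h i : ℝ) ≤ d.D0 := by exact_mod_cast hhi
  -- the primes in the support
  set T : Finset ℕ := (Pd d i Y).filter fun p => Wb58c63.aw κ Y p ≠ 0 with hT
  have hTm : ∀ p ∈ T, p.Prime ∧ Y < p ∧ (p : ℝ) < 2 * Y ∧ p ≡ d.b + d.h i [MOD d.W] := by
    intro p hp
    rw [hT, mem_filter] at hp
    have h1 := hp.1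
    unfold Pd Pr at h1
    rw [mem_filter, mem_filter] at h1
    obtain ⟨h2, h3⟩ := Wb58c63.aw_support κ Y hY1 p hp.2
    exact ⟨h1.1.2, h2, h3, h1.2⟩
  have h1 : NI d η τ L κ i Y ≤ ∑ p ∈ T, G (p - d.h i) := by
    unfold NI
    have e1 : (∑ p ∈ Pd d i Y, if ∃ j, GoodP (d.M i j (p - d.h i)) then
        ap κ Y p * wY d η τ L Y (p - d.h i) else 0) =
        ∑ p ∈ T, if ∃ j, GoodP (d.M i j (p - d.h i)) then
        ap κ Y p * wY d η τ L Y (p - d.h i) else 0 := by
      rw [hT]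
      refine (Finset.sum_filter_of_ne ?_).symm
      intro p _ hne h0
      apply hne
      unfold Wb58c63.ap
      rw [h0]
      simp
    rw [e1]
    refine Finset.sum_le_sum fun p hp => ?_
    obtain ⟨hp1, hp2, hp3, hp4⟩ := hTm p hp
    have hle : d.h i ≤ p := by
      have : (d.h i : ℝ) ≤ p := by
        have : (0 : ℝ) ≤ d.D0 := Nat.cast_nonneg _
        linarith
      exact_mod_cast this
    rw [hG]
    dsimp only
    rw [Nat.sub_add_cancel hle]
    by_cases hj : ∃ j, GoodP (d.M i j (p - d.h i))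
    · rw [if_pos hj, if_pos ⟨hp1, hj⟩]
      refine mul_le_mul_of_nonneg_right ?_ (hw _)
      unfold Wb58c63.ap
      have hpp : (0 : ℝ) < p := by exact_mod_cast hp1.pos
      have hl1 : Real.log p ≤ Real.log (2 * Y) := Real.log_le_log hpp hp3.le
      have hl0 : 0 ≤ Real.log p := Real.log_natCast_nonneg p
      exact mul_le_mul (haw p) hl1 hl0 two_pos.le
    · rw [if_neg hj, if_neg (fun h => hj h.2)]
  refine h1.trans ?_
  have hinj : Set.InjOn (fun p : ℕ => p - d.h i) (T : Set ℕ) := by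
    intro p hp q hq hpq
    obtain ⟨-, hp2, -, -⟩ := hTm p hp
    obtain ⟨-, hq2, -, -⟩ := hTm q hq
    have : (0 : ℝ) ≤ d.D0 := Nat.cast_nonneg _
    have hle : d.h i ≤ p := by
      have : (d.h i : ℝ) ≤ p := by linarith
      exact_mod_cast this
    have hle' : d.h i ≤ q := by
      have : (d.h i : ℝ) ≤ q := by linarith
      exact_mod_cast this
    dsimp only at hpq
    omega
  have h2 : ∑ p ∈ T, G (p - d.h i) = ∑ n ∈ T.image (fun p => p - d.h i), G n :=
    (Finset.sum_image hinj).symm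
  rw [h2]
  refine Finset.sum_le_sum_of_subset_of_nonneg ?_ fun n _ _ => hG0 n
  intro n hn
  rw [mem_image] at hn
  obtain ⟨p, hp, rfl⟩ := hn
  obtain ⟨hp1, hp2, hp3, hp4⟩ := hTm p hp
  have hD0 : (0 : ℝ) ≤ d.D0 := Nat.cast_nonneg _
  have hle : d.h i ≤ p := by
    have : (d.h i : ℝ) ≤ p := by linarith
    exact_mod_cast this
  unfold Wd
  rw [mem_filter, mem_Ico]
  refine ⟨⟨?_, ?_⟩, ?_⟩
  · have h3 : (⌊Y / 2⌋₊ : ℝ) ≤ Y / 2 := Nat.floor_le (by linarith)
    have h4 : (⌊Y / 2⌋₊ : ℝ) ≤ ((p - d.h i : ℕ) : ℝ) := by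
      rw [Nat.cast_sub hle]
      linarith
    exact_mod_cast h4
  · rw [Nat.lt_ceil, Nat.cast_sub hle]
    have : (0 : ℝ) ≤ d.h i := Nat.cast_nonneg _
    linarith
  · have h5 : p - d.h i + d.h i ≡ d.b + d.h i [MOD d.W] := by
      rw [Nat.sub_add_cancel hle]
      exact hp4
    exact Nat.ModEq.add_right_cancel' (d.h i) h5

/-- **Upper bound for the sum of the `NI`** if at most `m` of the `i` succeed for every `n ≥ N`: `p = n + h i`, `n ∈ Wd` (for `Y ≥ 2 D0`),
`ap κ Y p ≤ 2 log (2 Y)` (`aw_le_two`), exchange the sums over `i` and `n`. -/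
theorem sum_NI_le {k : ℕ} (d : AData k) (η τ : ℝ) (L κ m N : ℕ)
    (hN : ∀ n ≥ N, n ≡ d.b [MOD d.W] → (open Classical in
      (univ.filter fun i : Fin k => (n + d.h i).Prime ∧ ∃ j, GoodP (d.M i j n)).card ≤ m)) :
    ∀ᶠ Y : ℝ in atTop, ∑ i, NI d η τ L κ i Y ≤ m * (2 * Real.log (2 * Y)) * ∑ n ∈ Wd d Y, wY d η τ L Y n := by
  classical
  obtain ⟨Y₀, hY₀, haw⟩ := aw_le_two κ
  filter_upwards [eventually_ge_atTop Y₀, eventually_ge_atTop (2 * (d.D0 : ℝ)),
    eventually_ge_atTop (2 * ((N : ℝ) + 1))] with Y hY hYD hYN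
  have hY1 : 1 ≤ Y := hY₀.trans hY
  have hlog : 0 ≤ Real.log (2 * Y) := Real.log_nonneg (by linarith)
  have hw : ∀ n, 0 ≤ wY d η τ L Y n := fun n => by
    unfold wY
    positivity
  calc ∑ i, NI d η τ L κ i Y
      ≤ ∑ i, ∑ n ∈ Wd d Y, (if (n + d.h i).Prime ∧ ∃ j, GoodP (d.M i j n) then
          2 * Real.log (2 * Y) * wY d η τ L Y n else 0) :=
        Finset.sum_le_sum fun i _ => by
          have := AR8d_one d η τ L κ hY1 hYD (haw Y hY) i
          convert this using 3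
    _ = ∑ n ∈ Wd d Y, ∑ i, (if (n + d.h i).Prime ∧ ∃ j, GoodP (d.M i j n) then
          2 * Real.log (2 * Y) * wY d η τ L Y n else 0) := Finset.sum_comm
    _ ≤ ∑ n ∈ Wd d Y, m * (2 * Real.log (2 * Y)) * wY d η τ L Y n := by
        refine Finset.sum_le_sum fun n hn => ?_
        unfold Wd at hn
        rw [mem_filter, mem_Ico] at hn
        have hnN : N ≤ n := by
          refine le_trans ?_ hn.1.1
          refine Nat.le_floor ?_
          linarith
        have hc := hN n hnN hn.2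
        rw [← Finset.sum_filter, Finset.sum_const, nsmul_eq_mul, mul_assoc (m : ℝ)]
        refine mul_le_mul_of_nonneg_right ?_ (mul_nonneg (mul_nonneg two_pos.le hlog) (hw n))
        have hc' : ((univ.filter fun i : Fin k => (n + d.h i).Prime ∧ ∃ j, GoodP (d.M i j n)).card : ℝ) ≤ m := by
          convert (Nat.cast_le (α := ℝ)).2 hc
        convert hc'
    _ = m * (2 * Real.log (2 * Y)) * ∑ n ∈ Wd d Y, wY d η τ L Y n := by
        rw [Finset.mul_sum]

end Pool.Agent.Wd33b62
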