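import Pool.Agent.W_d33b62_h36.AR4f
import Pool.Agent.W_d33b62_h36.AR5
import Pool.Agent.W_d33b62_h36.AR8c
import Pool.Agent.W_d33b62_h36.AR8d

/-!
# The final inequality (helper36, MP_d33b62_nt)
-/

set_option autoImplicit false

noncomputable section

open Finset Filter

namespace Pool.Agent.Wd33b62

open Pool.Agent.Wb58c63 (PI mem_PI VP ap Pr XM)

theorem AR8e_arith (k m W φ : ℕ) (hk : 0 < k) (hW : 0 < W) (hφ : 0 < φ) (A B G' Y lg lg2 c9 c8 C7 η l P : ℝ)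
    (hA : 0 < A) (hG : 0 < G') (hY : 0 < Y) (hlg : 0 < lg) (hlg2 : lg2 ≤ 2 * lg) (hc9 : 0 < c9) (hC7 : 1 ≤ C7)
    (hP : 0 < P) (hl : 0 < l)
    (h1 : (k : ℝ) * (c9 * (Y / (φ : ℝ)) * (A ^ (k - 1) * B ^ 2 * G')) ≤
      m * (2 * lg2) * (2 * Y / W * (A ^ k * G')))
    (h2 : c8 * l ^ 2 / P * η * ((φ : ℝ) / W * lg) ≤ B ^ 2 / A)
    (h4 : P / (16 * C7 * l) ≤ k)
    (h5 : 128 * C7 * m < c9 * c8 * η * l) (hc8 : 0 < c8) (hη : 0 < η) : False := by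
  have hW' : (0 : ℝ) < W := by exact_mod_cast hW
  have hφ' : (0 : ℝ) < φ := by exact_mod_cast hφ
  have hk' : (0 : ℝ) < k := by exact_mod_cast hk
  set q : ℝ := B ^ 2 / A with hq
  have hB : B ^ 2 = q * A := by rw [hq]; field_simp
  have hAk : A ^ (k - 1) * A = A ^ k := by
    rw [← pow_succ, Nat.sub_add_cancel hk]
  have hM : (0 : ℝ) < Y * (A ^ k * G') := by positivity
  have e1 : (k : ℝ) * (c9 * (Y / (φ : ℝ)) * (A ^ (k - 1) * B ^ 2 * G')) =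
      Y * (A ^ k * G') * (k * c9 * q / φ) := by
    rw [hB, ← hAk]; ring
  have e2 : m * (2 * lg2) * (2 * Y / W * (A ^ k * G')) = Y * (A ^ k * G') * (4 * m * lg2 / W) := by
    ring
  rw [e1, e2] at h1
  have h6 : (k : ℝ) * c9 * q / φ ≤ 4 * m * lg2 / W := le_of_mul_le_mul_left h1 hM
  have h7 : (4 : ℝ) * m * lg2 / W ≤ 8 * m * lg / W := by
    have : (4 : ℝ) * m * lg2 ≤ 8 * m * lg := by
      have hm : (0 : ℝ) ≤ 4 * m := by positivity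
      nlinarith [mul_le_mul_of_nonneg_left hlg2 hm]
    gcongr
  have h8 : (k : ℝ) * c9 * q ≤ 8 * m * (φ / W * lg) := by
    have := h6.trans h7
    rw [div_le_iff₀ hφ'] at this
    calc (k : ℝ) * c9 * q ≤ 8 * m * lg / W * φ := this
      _ = 8 * m * (φ / W * lg) := by ring
  have ht : (0 : ℝ) < φ / W * lg := by positivity
  have h9 : P / (16 * C7 * l) * c9 * (c8 * l ^ 2 / P * η * ((φ : ℝ) / W * lg)) ≤ k * c9 * q := by
    have hx : 0 ≤ c8 * l ^ 2 / P * η * ((φ : ℝ) / W * lg) := by positivity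
    gcongr
  have e3 : P / (16 * C7 * l) * c9 * (c8 * l ^ 2 / P * η * ((φ : ℝ) / W * lg)) =
      c9 * c8 * η * l / (16 * C7) * ((φ : ℝ) / W * lg) := by
    have : (0 : ℝ) < C7 := by linarith
    field_simp
  rw [e3] at h9
  have h10 := le_of_mul_le_mul_right (h9.trans h8) ht
  have hC : (0 : ℝ) < 16 * C7 := by linarith
  rw [div_le_iff₀ hC] at h10
  linarith

theorem AR8e_log (Y : ℝ) (hY : 2 ≤ Y) : 0 < Real.log Y ∧ Real.log (2 * Y) ≤ 2 * Real.log Y := by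
  have h0 : (0 : ℝ) < Y := by linarith
  refine ⟨Real.log_pos (by linarith), ?_⟩
  have : 2 * Real.log Y = Real.log (Y * Y) := by
    rw [Real.log_mul h0.ne' h0.ne']; ring
  rw [this]
  exact Real.log_le_log (by positivity) (by nlinarith)

/-- **The analytic main theorem.**

Proof. `N_ge`, `sums_AB`: constants `η, τ, c9, C7, c8`. Let `L` be large, `k = ⌊2 ^ L / (16 C7 (L + 2))⌋₊ + 1`; then the
moment hypothesis holds (`(k - 1) C7 (L + 2) / 2 ^ L ≤ 1 / 16`) and `k ≥ 2 ^ L / (16 C7 (L + 2))`. If the claim fails for some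
`N` then `sum_NI_le` and `S1_le`: for large `Y`, with `Π = A0 ^ (k - 1) G0 ^ (k ^ 2)`,
`k c9 (Y / φ(W)) Π B0 ^ 2 ≤ ∑ NI ≤ 2 m log (2 Y) (2 Y / W) Π A0`, so `k c9 B0 ^ 2 / A0 ≤ 4 m log (2 Y) φ(W) / W ≤ 8 m (φ(W) / W) log Y`. But
`k B0 ^ 2 / A0 ≥ (2 ^ L / (16 C7 (L + 2))) c8 (L + 2) ^ 2 / 2 ^ L η (φ(W) / W) log Y = c8 η (L + 2) / (16 C7) (φ(W) / W) log Y`, a contradiction if
`c9 c8 η (L + 2) > 128 C7 m`. -/
theorem AN (m : ℕ) : ∃ k : ℕ, 0 < k ∧ ∃ D1 : ℕ, ∀ d : AData k, D1 ≤ d.D0 → ∀ N : ℕ, ∃ n ≥ N, n ≡ d.b [MOD d.W] ∧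
    (open Classical in
      m + 1 ≤ (univ.filter fun i : Fin k => (n + d.h i).Prime ∧ ∃ j, GoodP (d.M i j n)).card) := by
  classical
  obtain ⟨η, τ, c9, hη, hη1, hτ, hτ1, hc9, hN⟩ := N_ge
  obtain ⟨C7, c8, hC7, hc8, hAB⟩ := sums_AB
  have hC70 : 0 < C7 := by linarith
  obtain ⟨L, hL⟩ := exists_nat_gt (128 * C7 * m / (c9 * c8 * η))
  have hp : 0 < c9 * c8 * η := by positivity
  have h5 : 128 * C7 * m < c9 * c8 * η * ((L : ℝ) + 2) := by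
    rw [div_lt_iff₀ hp] at hL
    nlinarith
  have hl : (0 : ℝ) < (L : ℝ) + 2 := by positivity
  have hP : (0 : ℝ) < 2 ^ L := by positivity
  set r : ℝ := 2 ^ L / (16 * C7 * ((L : ℝ) + 2)) with hr
  have hr0 : 0 ≤ r := by positivity
  set k : ℕ := ⌊r⌋₊ + 1 with hkd
  have hk : 0 < k := Nat.succ_pos _
  have hk1 : ((k : ℝ) - 1) ≤ r := by
    rw [hkd]; push_cast
    have := Nat.floor_le hr0
    linarith
  have hk2 : r ≤ k := by
    rw [hkd]; push_cast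
    exact (Nat.lt_floor_add_one r).le
  have hk0 : (0 : ℝ) ≤ (k : ℝ) - 1 := by
    have : (1 : ℝ) ≤ k := by exact_mod_cast hk
    linarith
  obtain ⟨D1, hD1⟩ := hN k hk L
  obtain ⟨D2, hD2⟩ := S1_le k hk L η τ hη hη1 hτ hτ1
  refine ⟨k, hk, max D1 D2, fun d hd N => ?_⟩
  by_contra hcon
  push Not at hcon
  have hφ : 0 < d.W.totient := Nat.totient_pos.2 d.W_pos
  have hW' : (0 : ℝ) < d.W := by exact_mod_cast d.W_pos
  have hφ' : (0 : ℝ) < d.W.totient := by exact_mod_cast hφ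
  have hABd := hAB k L d η hη hη1
  have hbig : ∀ᶠ Y : ℝ in atTop, 2 ≤ Y := eventually_ge_atTop 2
  have hApos : ∀ Y : ℝ, 2 ≤ Y → c8 * ((L : ℝ) + 2) ^ 2 / 2 ^ L * η * ((d.W.totient : ℝ) / d.W * Real.log Y) ≤
      B0 d η L Y ^ 2 / A0 d η L Y → 0 < A0 d η L Y := by
    intro Y hY h
    have hlg := (AR8e_log Y hY).1
    by_contra hA
    push Not at hA
    have h1 : B0 d η L Y ^ 2 / A0 d η L Y ≤ 0 := div_nonpos_of_nonneg_of_nonpos (sq_nonneg _) hA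
    have h2 : 0 < c8 * ((L : ℝ) + 2) ^ 2 / 2 ^ L * η * ((d.W.totient : ℝ) / d.W * Real.log Y) := by positivity
    linarith
  have hmom : ∀ᶠ Y : ℝ in atTop, (k - 1 : ℝ) * ∑ S : Finset (PY d η Y), Real.log (nmS S) / Real.log (RR η Y) *
        gS L (RR η Y) S ^ 2 * ∏ p ∈ S, xY d η Y p ≤ 1 / 16 * A0 d η L Y := by
    filter_upwards [hABd, hbig] with Y hY1 hY2
    have hA := hApos Y hY2 hY1.2
    have e : r * (C7 * ((L : ℝ) + 2) / 2 ^ L * A0 d η L Y) = 1 / 16 * A0 d η L Y := by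
      rw [hr]; field_simp
    have hx : 0 ≤ C7 * ((L : ℝ) + 2) / 2 ^ L * A0 d η L Y := by positivity
    calc _ ≤ (k - 1 : ℝ) * (C7 * ((L : ℝ) + 2) / 2 ^ L * A0 d η L Y) :=
          mul_le_mul_of_nonneg_left hY1.1 hk0
      _ ≤ r * (C7 * ((L : ℝ) + 2) / 2 ^ L * A0 d η L Y) := mul_le_mul_of_nonneg_right hk1 hx
      _ = _ := e
  obtain ⟨κ, hκ⟩ := hD1 d ((le_max_left _ _).trans hd) hmom
  have hS1 := hD2 d ((le_max_right _ _).trans hd)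
  have hup := sum_NI_le d η τ L κ m N (fun n hn hnb => by
    have := hcon n hn hnb
    exact Nat.lt_succ_iff.1 this)
  obtain ⟨Y, ⟨⟨⟨⟨hYκ, hYS⟩, hYup⟩, hYAB⟩, hY2⟩⟩ :=
    ((((hκ.and hS1).and hup).and hABd).and hbig).exists
  have hY0 : (0 : ℝ) < Y := by linarith
  have hA := hApos Y hY2 hYAB.2
  have hlg := AR8e_log Y hY2
  have hE : 1 ≤ EE η τ k Y := by
    unfold EE
    exact Real.one_le_rpow (by linarith) (by positivity)
  have hG1 : 1 ≤ G0 d η τ Y := by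
    unfold G0 xY
    exact one_le_BB (le_trans (by norm_num) d.D0_ge) _ (fun S => gX_nonneg _ _ _) (gX_empty _ _ hE).ge
  have hG : 0 < G0 d η τ Y ^ (k ^ 2) := pow_pos (by linarith) _
  have hlg0 : 0 ≤ Real.log (2 * Y) := Real.log_nonneg (by linarith)
  have h1 : (k : ℝ) * (c9 * (Y / (d.W.totient : ℝ)) *
      (A0 d η L Y ^ (k - 1) * B0 d η L Y ^ 2 * G0 d η τ Y ^ (k ^ 2))) ≤
      m * (2 * Real.log (2 * Y)) * (2 * Y / d.W * (A0 d η L Y ^ k * G0 d η τ Y ^ (k ^ 2))) := by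
    calc _ = ∑ i : Fin k, c9 * (Y / (d.W.totient : ℝ)) *
          (A0 d η L Y ^ (k - 1) * B0 d η L Y ^ 2 * G0 d η τ Y ^ (k ^ 2)) := by
          rw [sum_const, card_univ, Fintype.card_fin, nsmul_eq_mul]
      _ ≤ ∑ i, NI d η τ L κ i Y := sum_le_sum fun i _ => hYκ i
      _ ≤ _ := hYup
      _ ≤ _ := mul_le_mul_of_nonneg_left hYS (by positivity)
  exact AR8e_arith k m d.W d.W.totient hk d.W_pos hφ _ _ _ Y (Real.log Y) (Real.log (2 * Y)) c9 c8 C7 η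
    ((L : ℝ) + 2) (2 ^ L) hA hG hY0 hlg.1 hlg.2 hc9 hC7 hP hl h1 hYAB.2 hk2 h5 hc8 hη

end Pool.Agent.Wd33b62
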