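import Pool.Agent.W_d33b62_h36.AR8c

/-!
# The final inequality (helper36, MP_d33b62_nt)
-/

set_option autoImplicit false

noncomputable section

open Finset Filter

namespace Pool.Agent.Wd33b62

open Pool.Agent.Wb58c63 (PI mem_PI VP ap Pr XM)

/-- **The case `k = 1`**: `N_ge` with `k = 1`, `L = 0` (the moment hypothesis is trivial) gives `NI > 0` for large `Y`
(`A0, B0, G0 ≥ 1`), so there is a prime `p = n + h 0 > Y` with `M` good. -/
theorem AN1 : ∃ D1 : ℕ, ∀ d : AData 1, D1 ≤ d.D0 → ∀ N : ℕ, ∃ n ≥ N, n ≡ d.b [MOD d.W] ∧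
    (n + d.h 0).Prime ∧ GoodP (d.M 0 0 n) := by
  obtain ⟨η, τ, c9, hη, hη1, hτ, hτ1, hc9, H⟩ := N_ge
  obtain ⟨D1, hD1⟩ := H 1 one_pos 0
  refine ⟨D1, fun d hd N => ?_⟩
  have hmom : ∀ᶠ Y : ℝ in atTop, ((1 : ℕ) - 1 : ℝ) * ∑ S : Finset (PY d η Y), Real.log (nmS S) / Real.log (RR η Y) *
        gS 0 (RR η Y) S ^ 2 * ∏ p ∈ S, xY d η Y p ≤ 1 / 16 * A0 d η 0 Y := by
    refine Eventually.of_forall fun Y => ?_
    have h1 : ((1 : ℕ) - 1 : ℝ) = 0 := by norm_num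
    rw [h1, zero_mul]
    have h2 : 0 ≤ A0 d η 0 Y := by
      unfold A0 AA
      refine sum_nonneg fun S _ => mul_nonneg (sq_nonneg _) (prod_nonneg fun p _ => ?_)
      exact (xr_pos p).le
    linarith
  obtain ⟨κ, hκ⟩ := hD1 d hd hmom
  obtain ⟨Y, hY, hY1, hYN⟩ := (hκ.and ((eventually_ge_atTop (1 : ℝ)).and
    (eventually_ge_atTop ((N : ℝ) + d.D0)))).exists
  have hφ : (0 : ℝ) < (d.W.totient : ℝ) := by exact_mod_cast Nat.totient_pos.2 d.W_pos
  have hDD : 1 ≤ d.D0 := le_trans (by norm_num) d.D0_ge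
  have hRR : 1 ≤ RR η Y := Real.one_le_rpow hY1 hη.le
  have hEE : 1 ≤ EE η τ 1 Y := Real.one_le_rpow hY1 (by positivity)
  have hA0 : 1 ≤ A0 d η 0 Y := one_le_AA hDD _ (by rw [gS_empty 0 _ hRR]; exact one_le_pow₀ (by norm_num))
  have hB0 : 1 ≤ B0 d η 0 Y := one_le_BB hDD _ (gS_nonneg 0 _)
    (by rw [gS_empty 0 _ hRR]; exact one_le_pow₀ (by norm_num))
  have hG0 : 1 ≤ G0 d η τ Y := one_le_BB hDD _ (gX_nonneg true _) (by rw [gX_empty true _ hEE])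
  have hpos : 0 < NI d η τ 0 κ 0 Y := by
    refine lt_of_lt_of_le ?_ (hY 0)
    have h1 : 0 < A0 d η 0 Y := by linarith
    have h2 : 0 < B0 d η 0 Y := by linarith
    have h3 : 0 < G0 d η τ Y := by linarith
    positivity
  classical
  unfold NI at hpos
  obtain ⟨p, hp, hp0⟩ := exists_ne_zero_of_sum_ne_zero hpos.ne'
  rw [ne_eq, ite_eq_right_iff, Classical.not_imp] at hp0
  obtain ⟨⟨j, hj⟩, hap⟩ := hp0
  have hj0 : j = 0 := Subsingleton.elim _ _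
  subst hj0
  have hap' : Wb58c63.aw κ Y p ≠ 0 := by
    intro h
    apply hap
    unfold Wb58c63.ap
    rw [h, zero_mul, zero_mul]
  have hYp := (Wb58c63.aw_support κ Y hY1 p hap').1
  have hpP : p.Prime := (mem_filter.1 (mem_filter.1 hp).1).2
  have hpb : p ≡ d.b + d.h 0 [MOD d.W] := (mem_filter.1 hp).2
  have hh : d.h 0 ≤ d.D0 := d.sh_le (Sum.inl 0)
  have h5 : N + d.D0 < p := by
    have : ((N + d.D0 : ℕ) : ℝ) < p := by
      push_cast
      linarith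
    exact_mod_cast this
  have hnp : (p - d.h 0) + d.h 0 = p := by omega
  refine ⟨p - d.h 0, by omega, ?_, ?_, hj⟩
  · have h1 : (p - d.h 0) + d.h 0 ≡ d.b + d.h 0 [MOD d.W] := by rw [hnp]; exact hpb
    exact Nat.ModEq.add_right_cancel' _ h1
  · rw [hnp]
    exact hpP

end Pool.Agent.Wd33b62
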