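import Pool.Agent.W_d33b62_h36.Main

/-!
# Bounded gaps between primes in a prime component, with absolute constants
-/

set_option autoImplicit false

open Pool.Agent.Wd33b62

/-- For every `m` there is an absolute `H` such that the set `S(K)` of the primes of every prime component `K` of every
primitive integral Apollonian packing contains, infinitely often, `m + 1` elements in an interval of length `H`. -/
theorem Pool.Agent.Results.MP_d33b62_nt.AbsoluteGaps.result (m : ℕ) :
    ∃ H : ℕ, ∀ v : Fin 4 → GC, IsDescartes v → IsIntegral v → IsPrimitive v →
      ∀ C ∈ packing v, OddPrimeCurv C →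
        ∀ N : ℕ, ∃ n ≥ N, m + 1 ≤ (curvs v C ∩ Set.Icc n (n + H)).ncard :=
  main m
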