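import Pool.Agent.W_b58c63_h68.BV
import Pool.Agent.W_d33b62_h36.BV1

/-!
# Bombieri-Vinogradov with arbitrary savings and divisor weights (helper36, MP_d33b62_nt)
-/

set_option autoImplicit false

noncomputable section

open Finset

namespace Pool.Agent.Wd33b62

open Pool.Agent.Wb58c63 (TT prim Er Sd XM ap aw Pr)

private theorem BV2_rho : (√(2 : ℝ))⁻¹ < 1 := by
  have h1 : (1 : ℝ) < √2 := by
    rw [← Real.sqrt_one]
    exact Real.sqrt_lt_sqrt (by norm_num) (by norm_num)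
  exact inv_lt_one_of_one_lt₀ h1

/-- the bound for the powers of the logarithm -/
private theorem BV2_log (A : ℕ) {δ Y : ℝ} (hδ : 0 < δ) (hY : 1 ≤ Y) :
    Real.log Y ^ (A + 1) ≤ (2 * ((A : ℝ) + 1) / δ) ^ (A + 1) * Y ^ (δ / 2) := by
  have hY0 : 0 < Y := by linarith
  have hA : (0 : ℝ) < (A : ℝ) + 1 := by positivity
  obtain ⟨η, hη⟩ : ∃ η : ℝ, η = δ / (2 * ((A : ℝ) + 1)) := ⟨_, rfl⟩
  have hη0 : 0 < η := by rw [hη]; positivity
  have h1 : Real.log Y ≤ Y ^ η / η := Real.log_le_rpow_div hY0.le hη0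
  have h2 : Y ^ η / η = 2 * ((A : ℝ) + 1) / δ * Y ^ η := by
    rw [hη]
    field_simp
  rw [h2] at h1
  have h0 : 0 ≤ Real.log Y := Real.log_nonneg hY
  calc Real.log Y ^ (A + 1) ≤ (2 * ((A : ℝ) + 1) / δ * Y ^ η) ^ (A + 1) := by gcongr
    _ = (2 * ((A : ℝ) + 1) / δ) ^ (A + 1) * Y ^ (δ / 2) := by
      rw [mul_pow, ← Real.rpow_natCast (Y ^ η) (A + 1), ← Real.rpow_mul hY0.le]
      congr 2
      rw [hη]
      push_cast
      field_simp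

/-- the bound for one dyadic interval -/
private theorem BV2_one {δ Y l : ℝ} (hδ : 0 < δ) (hδ1 : δ ≤ 1) (hY : 1 ≤ Y) (hl : 0 ≤ l) (i L : ℕ)
    (hL : 1 ≤ L) (hR : ((2 ^ i * L : ℕ) : ℝ) ≤ Y) :
    ((2 ^ i * L : ℕ) : ℝ) ^ (δ / 4) * (Y * l ^ 3 / ((2 ^ i * L : ℕ) : ℝ) + Y ^ (1 - δ)) ≤
      Y * l ^ 3 / √L * (√(2 : ℝ))⁻¹ ^ i + Y ^ (1 - δ / 2) := by
  have hY0 : 0 < Y := by linarith
  obtain ⟨R, hRd⟩ : ∃ R : ℝ, R = ((2 ^ i * L : ℕ) : ℝ) := ⟨_, rfl⟩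
  rw [← hRd] at hR ⊢
  have hR1 : 1 ≤ R := by
    rw [hRd]
    exact_mod_cast Nat.one_le_iff_ne_zero.2 (by positivity)
  have hR0 : 0 < R := by linarith
  have hs : √R = √(2 : ℝ) ^ i * √L := by
    rw [hRd]
    push_cast
    rw [Real.sqrt_mul (by positivity)]
    congr 1
    rw [Real.sqrt_eq_rpow, Real.sqrt_eq_rpow, ← Real.rpow_natCast, ← Real.rpow_natCast,
      ← Real.rpow_mul (by norm_num), ← Real.rpow_mul (by norm_num), mul_comm]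
  have hs0 : 0 < √R := Real.sqrt_pos.2 hR0
  have hsL : 0 < √(L : ℝ) := Real.sqrt_pos.2 (by exact_mod_cast hL)
  have h1 : R ^ (δ / 4) ≤ √R := by
    rw [Real.sqrt_eq_rpow]
    exact Real.rpow_le_rpow_of_exponent_le hR1 (by linarith)
  have h2 : R ^ (δ / 4) * (Y * l ^ 3 / R) ≤ Y * l ^ 3 / √L * (√(2 : ℝ))⁻¹ ^ i := by
    have e1 : Y * l ^ 3 / √L * (√(2 : ℝ))⁻¹ ^ i = Y * l ^ 3 / √R := by
      rw [hs, inv_pow]
      field_simp
    have e2 : √R * (Y * l ^ 3 / R) = Y * l ^ 3 / √R := by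
      have e3 : √R * √R = R := Real.mul_self_sqrt hR0.le
      rw [← mul_div_assoc, div_eq_div_iff hR0.ne' hs0.ne']
      calc √R * (Y * l ^ 3) * √R = Y * l ^ 3 * (√R * √R) := by ring
        _ = Y * l ^ 3 * R := by rw [e3]
    rw [e1, ← e2]
    exact mul_le_mul_of_nonneg_right h1 (by positivity)
  have h3 : R ^ (δ / 4) * Y ^ (1 - δ) ≤ Y ^ (1 - δ / 2) := by
    have e1 : R ^ (δ / 4) ≤ Y ^ (δ / 4) := Real.rpow_le_rpow hR0.le hR (by linarith)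
    calc R ^ (δ / 4) * Y ^ (1 - δ) ≤ Y ^ (δ / 4) * Y ^ (1 - δ) := by gcongr
      _ = Y ^ (δ / 4 + (1 - δ)) := (Real.rpow_add hY0 _ _).symm
      _ ≤ Y ^ (1 - δ / 2) := Real.rpow_le_rpow_of_exponent_le hY (by linarith)
  rw [mul_add]
  exact add_le_add h2 h3

/-- **Bombieri-Vinogradov for the primitive characters with divisor weights and arbitrary savings** (compare
`Pool.Agent.W_b58c63_h68.BV`).

Proof. `G = 2 (A + 4)`, `k ≥ 4 G + 2 A + 8`, `L = ⌊(log Y) ^ G⌋₊`. For `2 ≤ r ≤ L`: `siegel_walfisz G k`: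
`∑_χ ‖TT‖ ≤ φ(r) C Y (log Y) ^ (-k / 2)` and `b ^ ω(r) ≤ C r`: total `≤ C L ^ 2 Y (log Y) ^ (-k / 2) ≤ C Y (log Y) ^ (2 G - k / 2)`.
For `r > L`: `medium k ε` gives `C, δ` (we may decrease `δ` to at most `1`); `b ^ ω(r) ≤ C r ^ (δ / 4)`; the dyadic
interval `(R, 2 R]`, `R = 2 ^ i L`, contributes `C R ^ (δ / 4) (Y (log Y) ^ 3 / R + Y ^ (1 - δ))`; sum over `i` (`BV_dyadic`):
`C Y (log Y) ^ 3 L ^ (-1 / 2) + C log Y Y ^ (1 - δ / 2)`, and `L ^ (1 / 2) ≥ c (log Y) ^ (A + 4)`. -/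
theorem bv_strong (A b : ℕ) (ε : ℝ) (hε : 0 < ε) (hε1 : ε < 1 / 2) : ∃ k₀ : ℕ, ∀ k ≥ k₀, ∃ C : ℝ, 0 < C ∧
    ∀ (Y : ℝ) (Q : ℕ), 3 ≤ Y → (Q : ℝ) ≤ Y ^ (1 / 2 - ε) →
      ∑ r ∈ Icc 2 Q, (b : ℝ) ^ r.primeFactors.card / (r.totient : ℝ) * ∑ χ ∈ prim r, ‖TT k Y χ‖ ≤
        C * Y / Real.log Y ^ A := by
  obtain ⟨C₃, hC₃, hω1⟩ := pow_omega_le b 1 one_pos
  refine ⟨8 * (A + 4) + 2 * A + 8, fun k hk => ?_⟩
  obtain ⟨G, hG⟩ : ∃ G : ℕ, G = 2 * (A + 4) := ⟨_, rfl⟩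
  obtain ⟨C₁, hC₁, hsw⟩ := Pool.Agent.Wb58c63.siegel_walfisz G k (by omega)
  obtain ⟨C₂, δ₀, hC₂, hδ₀, hmed⟩ := Pool.Agent.Wb58c63.medium k ε hε hε1
  obtain ⟨δ, hδd⟩ : ∃ δ : ℝ, δ = min δ₀ 1 := ⟨_, rfl⟩
  have hδ : 0 < δ := by rw [hδd]; exact lt_min hδ₀ one_pos
  have hδ1 : δ ≤ 1 := by rw [hδd]; exact min_le_right _ _
  have hδδ : δ ≤ δ₀ := by rw [hδd]; exact min_le_left _ _
  obtain ⟨C₄, hC₄, hω2⟩ := pow_omega_le b (δ / 4) (by positivity)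
  obtain ⟨Cρ, hCρ⟩ : ∃ Cρ : ℝ, Cρ = (1 - (√(2 : ℝ))⁻¹)⁻¹ := ⟨_, rfl⟩
  have hCρ0 : 0 < Cρ := by
    rw [hCρ]
    exact inv_pos.2 (by linarith [BV2_rho])
  obtain ⟨C₅, hC₅⟩ : ∃ C₅ : ℝ, C₅ = (2 * ((A : ℝ) + 1) / δ) ^ (A + 1) := ⟨_, rfl⟩
  have hC₅0 : 0 < C₅ := by rw [hC₅]; positivity
  refine ⟨C₁ * C₃ + 2 * C₄ * C₂ * (2 * Cρ + 3 * C₅), by positivity, ?_⟩
  intro Y Q hY hQ
  have hY0 : 0 < Y := by linarith
  have hY1 : 1 ≤ Y := by linarith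
  have hlog1 : 1 < Real.log Y := by
    have h1 : Real.exp 1 < Y := lt_of_lt_of_le (by linarith [Real.exp_one_lt_d9]) hY
    have h2 := Real.log_lt_log (Real.exp_pos 1) h1
    rwa [Real.log_exp] at h2
  have hlogA := BV2_log A hδ hY1
  rw [← hC₅] at hlogA
  obtain ⟨l, hl⟩ : ∃ l : ℝ, l = Real.log Y := ⟨_, rfl⟩
  rw [← hl] at hlog1 hlogA ⊢
  have hl0 : 0 < l := by linarith
  obtain ⟨L, hL⟩ : ∃ L : ℕ, L = ⌊l ^ G⌋₊ := ⟨_, rfl⟩
  have hlG : 1 ≤ l ^ G := one_le_pow₀ hlog1.le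
  have hL1 : 1 ≤ L := by
    rw [hL]
    exact Nat.le_floor (by exact_mod_cast hlG)
  have hLle : (L : ℝ) ≤ l ^ G := by rw [hL]; exact Nat.floor_le (by positivity)
  have hLge : l ^ G ≤ 2 * L := by
    have h1 : l ^ G < L + 1 := by rw [hL]; exact Nat.lt_floor_add_one _
    have h2 : (1 : ℝ) ≤ L := by exact_mod_cast hL1
    linarith
  have hL0 : (0 : ℝ) < L := by exact_mod_cast hL1
  obtain ⟨g, hg⟩ : ∃ g : ℕ → ℝ, g = fun r => 1 / (r.totient : ℝ) * ∑ χ ∈ prim r, ‖TT k Y χ‖ :=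
    ⟨_, rfl⟩
  have hg0 : ∀ r, 0 ≤ g r := by
    intro r
    rw [hg]
    exact mul_nonneg (by positivity) (Finset.sum_nonneg fun χ _ => norm_nonneg _)
  obtain ⟨f, hf⟩ : ∃ f : ℕ → ℝ, f = fun r => (b : ℝ) ^ r.primeFactors.card * g r := ⟨_, rfl⟩
  have hf0 : ∀ r, 0 ≤ f r := by
    intro r
    rw [hf]
    exact mul_nonneg (by positivity) (hg0 r)
  have hdy := Pool.Agent.Wb58c63.BV_dyadic Q L hL1 f hf0
  have hgr : ∀ r, g r = 1 / (r.totient : ℝ) * ∑ χ ∈ prim r, ‖TT k Y χ‖ := fun r => by rw [hg]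
  have hfr : ∀ r, f r = (b : ℝ) ^ r.primeFactors.card * g r := fun r => by rw [hf]
  have hgoal : ∑ r ∈ Icc 2 Q, (b : ℝ) ^ r.primeFactors.card / (r.totient : ℝ) *
      ∑ χ ∈ prim r, ‖TT k Y χ‖ = ∑ r ∈ Icc 2 Q, f r := by
    refine Finset.sum_congr rfl fun r _ => ?_
    rw [hfr, hgr]
    ring
  rw [hgoal]
  refine hdy.trans ?_
  have hsmall : ∑ r ∈ Icc 2 L, f r ≤ C₁ * C₃ * Y / l ^ A := by
    have h1 : ∀ r ∈ Icc 2 L, f r ≤ C₃ * L * (C₁ * Y * (l ^ (2 * G + A))⁻¹) := by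
      intro r hr
      rw [Finset.mem_Icc] at hr
      have hφ : 0 < r.totient := Nat.totient_pos.2 (by omega)
      have hφ' : (0 : ℝ) < r.totient := by exact_mod_cast hφ
      have h2 : ∑ χ ∈ prim r, ‖TT k Y χ‖ ≤ r.totient * (C₁ * Y * (l ^ (2 * G + A))⁻¹) := by
        calc ∑ χ ∈ prim r, ‖TT k Y χ‖ ≤ ∑ _χ ∈ prim r, C₁ * Y * (l ^ (2 * G + A))⁻¹ := by
              refine Finset.sum_le_sum fun χ hχ => ?_
              refine (hsw Y r hY (by omega) ?_ χ hχ).trans ?_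
              · rw [← hl]
                exact le_trans (by exact_mod_cast hr.2) hLle
              · rw [← hl]
                refine mul_le_mul_of_nonneg_left ?_ (by positivity)
                rw [← Real.rpow_natCast l (2 * G + A), ← Real.rpow_neg hl0.le]
                refine Real.rpow_le_rpow_of_exponent_le hlog1.le ?_
                have h3 : 2 * (2 * G + A) ≤ k := by omega
                have h4 : (2 : ℝ) * ((2 * G + A : ℕ) : ℝ) ≤ k := by exact_mod_cast h3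
                linarith
          _ = (prim r).card * (C₁ * Y * (l ^ (2 * G + A))⁻¹) := by
              rw [Finset.sum_const, nsmul_eq_mul]
          _ ≤ r.totient * (C₁ * Y * (l ^ (2 * G + A))⁻¹) := by
              refine mul_le_mul_of_nonneg_right (Pool.Agent.Wb58c63.card_prim_le r (by omega))
                (by positivity)
      have h3 : g r ≤ C₁ * Y * (l ^ (2 * G + A))⁻¹ := by
        rw [hgr, one_div, inv_mul_le_iff₀ hφ']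
        exact h2
      have h4 : (b : ℝ) ^ r.primeFactors.card ≤ C₃ * L := by
        refine (hω1 r (by omega)).trans ?_
        rw [Real.rpow_one]
        have : (r : ℝ) ≤ L := by exact_mod_cast hr.2
        gcongr
      rw [hfr]
      exact mul_le_mul h4 h3 (hg0 r) (by positivity)
    calc ∑ r ∈ Icc 2 L, f r ≤ ∑ _r ∈ Icc 2 L, C₃ * L * (C₁ * Y * (l ^ (2 * G + A))⁻¹) :=
          Finset.sum_le_sum h1
      _ = (Icc 2 L).card * (C₃ * L * (C₁ * Y * (l ^ (2 * G + A))⁻¹)) := by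
          rw [Finset.sum_const, nsmul_eq_mul]
      _ ≤ l ^ G * (C₃ * l ^ G * (C₁ * Y * (l ^ (2 * G + A))⁻¹)) := by
          have h5 : ((Icc 2 L).card : ℝ) ≤ l ^ G := by
            refine le_trans ?_ hLle
            rw [Nat.card_Icc]
            exact_mod_cast (by omega : L + 1 - 2 ≤ L)
          gcongr
      _ = C₁ * C₃ * Y / l ^ A := by
          rw [pow_add, pow_mul', mul_inv]
          field_simp
  obtain ⟨J, hJ⟩ : ∃ J : Finset ℕ, J = (range (Q + 1)).filter (fun i => 2 ^ i * L ≤ Q) := ⟨_, rfl⟩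
  rw [← hJ]
  have hJmem : ∀ i ∈ J, 2 ^ i * L ≤ Q := by
    intro i hi
    rw [hJ] at hi
    exact (Finset.mem_filter.1 hi).2
  have hQY : (Q : ℝ) ≤ Y := by
    refine hQ.trans ?_
    calc Y ^ (1 / 2 - ε) ≤ Y ^ (1 : ℝ) :=
          Real.rpow_le_rpow_of_exponent_le (by linarith) (by linarith)
      _ = Y := Real.rpow_one Y
  have hJcard : (J.card : ℝ) ≤ 3 * l := by
    have h1 : J ⊆ range (⌊2 * l⌋₊ + 1) := by
      intro i hi
      have h2 := hJmem i hi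
      rw [Finset.mem_range, Nat.lt_add_one_iff]
      apply Nat.le_floor
      have h3 : (2 : ℝ) ^ i ≤ Y := by
        have h4 : 2 ^ i * 1 ≤ 2 ^ i * L := Nat.mul_le_mul_left _ hL1
        have h5 : 2 ^ i ≤ Q := by omega
        exact le_trans (by exact_mod_cast h5) hQY
      have h6 := Real.log_le_log (by positivity) h3
      rw [Real.log_pow, ← hl] at h6
      have h7 := Real.log_two_gt_d9
      have h8 : (i : ℝ) * (1 / 2) ≤ i * Real.log 2 := by gcongr; linarith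
      linarith
    have h2 := Finset.card_le_card h1
    rw [Finset.card_range] at h2
    have h3 : ((⌊2 * l⌋₊ : ℕ) : ℝ) ≤ 2 * l := Nat.floor_le (by positivity)
    have h4 : (J.card : ℝ) ≤ (⌊2 * l⌋₊ : ℝ) + 1 := by exact_mod_cast h2
    linarith
  have hmain : ∑ i ∈ J, ∑ r ∈ Ioc (2 ^ i * L) (2 * (2 ^ i * L)), f r ≤
      ∑ i ∈ J, 2 * C₄ * C₂ * (Y * l ^ 3 / √L * (√(2 : ℝ))⁻¹ ^ i + Y ^ (1 - δ / 2)) := by
    refine Finset.sum_le_sum fun i hi => ?_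
    have h1 := hJmem i hi
    have h2 := hmed Y (2 ^ i * L) hY (Nat.mul_pos (by positivity) hL1)
      (le_trans (by exact_mod_cast h1) hQ)
    rw [← hl] at h2
    have hRY : ((2 ^ i * L : ℕ) : ℝ) ≤ Y := le_trans (by exact_mod_cast h1) hQY
    have hR1 : (1 : ℝ) ≤ ((2 ^ i * L : ℕ) : ℝ) := by
      exact_mod_cast Nat.one_le_iff_ne_zero.2 (by positivity)
    have h3 : ∀ r ∈ Ioc (2 ^ i * L) (2 * (2 ^ i * L)), f r ≤
        2 * C₄ * ((2 ^ i * L : ℕ) : ℝ) ^ (δ / 4) * g r := by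
      intro r hr
      rw [Finset.mem_Ioc] at hr
      have h4 : (b : ℝ) ^ r.primeFactors.card ≤ C₄ * (r : ℝ) ^ (δ / 4) := hω2 r (by omega)
      have h5 : (r : ℝ) ^ (δ / 4) ≤ 2 * ((2 ^ i * L : ℕ) : ℝ) ^ (δ / 4) := by
        have h6 : (r : ℝ) ≤ 2 * ((2 ^ i * L : ℕ) : ℝ) := by exact_mod_cast hr.2
        calc (r : ℝ) ^ (δ / 4) ≤ (2 * ((2 ^ i * L : ℕ) : ℝ)) ^ (δ / 4) :=
              Real.rpow_le_rpow (by positivity) h6 (by linarith)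
          _ = 2 ^ (δ / 4) * ((2 ^ i * L : ℕ) : ℝ) ^ (δ / 4) :=
              Real.mul_rpow (by norm_num) (by positivity)
          _ ≤ 2 * ((2 ^ i * L : ℕ) : ℝ) ^ (δ / 4) := by
              refine mul_le_mul_of_nonneg_right ?_ (by positivity)
              calc (2 : ℝ) ^ (δ / 4) ≤ 2 ^ (1 : ℝ) :=
                    Real.rpow_le_rpow_of_exponent_le (by norm_num) (by linarith)
                _ = 2 := Real.rpow_one 2
      rw [hfr]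
      refine mul_le_mul_of_nonneg_right ?_ (hg0 r)
      calc (b : ℝ) ^ r.primeFactors.card ≤ C₄ * (r : ℝ) ^ (δ / 4) := h4
        _ ≤ C₄ * (2 * ((2 ^ i * L : ℕ) : ℝ) ^ (δ / 4)) := by gcongr
        _ = 2 * C₄ * ((2 ^ i * L : ℕ) : ℝ) ^ (δ / 4) := by ring
    have h4 : ∑ r ∈ Ioc (2 ^ i * L) (2 * (2 ^ i * L)), g r =
        ∑ r ∈ Ioc (2 ^ i * L) (2 * (2 ^ i * L)),
          1 / (r.totient : ℝ) * ∑ χ ∈ prim r, ‖TT k Y χ‖ :=
      Finset.sum_congr rfl fun r _ => hgr r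
    have h5 : Y ^ (1 - δ₀) ≤ Y ^ (1 - δ) :=
      Real.rpow_le_rpow_of_exponent_le hY1 (by linarith)
    calc ∑ r ∈ Ioc (2 ^ i * L) (2 * (2 ^ i * L)), f r
        ≤ ∑ r ∈ Ioc (2 ^ i * L) (2 * (2 ^ i * L)),
          2 * C₄ * ((2 ^ i * L : ℕ) : ℝ) ^ (δ / 4) * g r := Finset.sum_le_sum h3
      _ = 2 * C₄ * ((2 ^ i * L : ℕ) : ℝ) ^ (δ / 4) *
          ∑ r ∈ Ioc (2 ^ i * L) (2 * (2 ^ i * L)), g r := by rw [Finset.mul_sum]
      _ ≤ 2 * C₄ * ((2 ^ i * L : ℕ) : ℝ) ^ (δ / 4) *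
          (C₂ * (Y * l ^ 3 / ((2 ^ i * L : ℕ) : ℝ) + Y ^ (1 - δ))) := by
          refine mul_le_mul_of_nonneg_left ?_ (by positivity)
          rw [h4]
          refine h2.trans ?_
          refine mul_le_mul_of_nonneg_left ?_ hC₂.le
          linarith
      _ = 2 * C₄ * C₂ * (((2 ^ i * L : ℕ) : ℝ) ^ (δ / 4) *
          (Y * l ^ 3 / ((2 ^ i * L : ℕ) : ℝ) + Y ^ (1 - δ))) := by ring
      _ ≤ 2 * C₄ * C₂ * (Y * l ^ 3 / √L * (√(2 : ℝ))⁻¹ ^ i + Y ^ (1 - δ / 2)) := by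
          refine mul_le_mul_of_nonneg_left ?_ (by positivity)
          exact BV2_one hδ hδ1 hY1 hl0.le i L hL1 hRY
  have hgeo : ∑ i ∈ J, (√(2 : ℝ))⁻¹ ^ i ≤ Cρ := by
    have h0 : 0 ≤ (√(2 : ℝ))⁻¹ := by positivity
    have h1 : ∑ i ∈ J, (√(2 : ℝ))⁻¹ ^ i ≤ ∑' i : ℕ, (√(2 : ℝ))⁻¹ ^ i :=
      (summable_geometric_of_lt_one h0 BV2_rho).sum_le_tsum J (fun i _ => by positivity)
    rwa [tsum_geometric_of_lt_one h0 BV2_rho, ← hCρ] at h1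
  have hlast : 3 * l * Y ^ (1 - δ / 2) ≤ 3 * C₅ * Y / l ^ A := by
    rw [le_div_iff₀ (by positivity)]
    calc 3 * l * Y ^ (1 - δ / 2) * l ^ A = 3 * l ^ (A + 1) * Y ^ (1 - δ / 2) := by ring
      _ ≤ 3 * (C₅ * Y ^ (δ / 2)) * Y ^ (1 - δ / 2) := by gcongr
      _ = 3 * C₅ * (Y ^ (δ / 2) * Y ^ (1 - δ / 2)) := by ring
      _ = 3 * C₅ * Y := by
          rw [← Real.rpow_add hY0]
          congr 1
          rw [add_sub_cancel, Real.rpow_one]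
  have hsqL : l ^ (A + 4) ≤ 2 * √L := by
    have h1 : (l ^ (A + 4)) ^ 2 ≤ (2 * √L) ^ 2 := by
      rw [mul_pow, Real.sq_sqrt hL0.le, ← pow_mul]
      have h2 : (A + 4) * 2 = G := by omega
      rw [h2]
      linarith
    exact le_of_sq_le_sq h1 (by positivity)
  have hsL0 : 0 < √(L : ℝ) := Real.sqrt_pos.2 hL0
  have hmid : Y * l ^ 3 / √L * Cρ ≤ 2 * Cρ * Y / l ^ A := by
    rw [div_mul_eq_mul_div, div_le_div_iff₀ hsL0 (by positivity)]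
    have h1 : l ^ (A + 3) ≤ l ^ (A + 4) := pow_le_pow_right₀ hlog1.le (by omega)
    calc Y * l ^ 3 * Cρ * l ^ A = Cρ * Y * l ^ (A + 3) := by ring
      _ ≤ Cρ * Y * (2 * √L) := by gcongr; linarith
      _ = 2 * Cρ * Y * √L := by ring
  have hfin : ∑ i ∈ J, 2 * C₄ * C₂ * (Y * l ^ 3 / √L * (√(2 : ℝ))⁻¹ ^ i + Y ^ (1 - δ / 2)) ≤
      2 * C₄ * C₂ * (2 * Cρ * Y / l ^ A + 3 * C₅ * Y / l ^ A) := by
    rw [← Finset.mul_sum, Finset.sum_add_distrib, ← Finset.mul_sum, Finset.sum_const, nsmul_eq_mul]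
    refine mul_le_mul_of_nonneg_left ?_ (by positivity)
    have h1 : Y * l ^ 3 / √L * ∑ i ∈ J, (√(2 : ℝ))⁻¹ ^ i ≤ Y * l ^ 3 / √L * Cρ := by gcongr
    have h2 : (J.card : ℝ) * Y ^ (1 - δ / 2) ≤ 3 * l * Y ^ (1 - δ / 2) := by gcongr
    linarith
  calc ∑ r ∈ Icc 2 L, f r + ∑ i ∈ J, ∑ r ∈ Ioc (2 ^ i * L) (2 * (2 ^ i * L)), f r
      ≤ C₁ * C₃ * Y / l ^ A + 2 * C₄ * C₂ * (2 * Cρ * Y / l ^ A + 3 * C₅ * Y / l ^ A) :=
        add_le_add hsmall (hmain.trans hfin)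
    _ = (C₁ * C₃ + 2 * C₄ * C₂ * (2 * Cρ + 3 * C₅)) * Y / l ^ A := by ring

end Pool.Agent.Wd33b62
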