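import Pool.Agent.W_d33b62_h36.GD

/-!
# The converse: circles with product `-1` are tangent (helper36, MP_d33b62_nt)
-/

set_option autoImplicit false

noncomputable section

open Relation

namespace Pool.Agent.Wd33b62

/-- The sum of the two equations. -/
theorem GG2_sum (c d : GC) (h : c.prod d = -1) :
    (c.m.re + d.m.re) ^ 2 + (c.m.im + d.m.im) ^ 2 = (c.k + d.k) * (c.l + d.l) ∧
    c.m.re * (c.m.re + d.m.re) + c.m.im * (c.m.im + d.m.im) =
      (c.k * (c.l + d.l) + c.l * (c.k + d.k)) / 2 ∧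
    d.m.re * (c.m.re + d.m.re) + d.m.im * (c.m.im + d.m.im) =
      (d.k * (c.l + d.l) + d.l * (c.k + d.k)) / 2 := by
  have h1 := c.norm
  have h2 := d.norm
  unfold GC.prod at h
  rw [Complex.normSq_apply] at h1 h2
  refine ⟨?_, ?_, ?_⟩ <;> nlinarith

/-- **Circles with inversive product `-1` and nonnegative sum are tangent with disjoint interiors.**

Proof. `K = k + k'`, `M = m + m'`, `L = l + l'`: `|M| ^ 2 = K L` (norms `1`, product `-1`). `c.val z + d.val z
= K |z| ^ 2 - 2 M·z + L`. Case `K > 0`: `z₀ = M / K`, the sum is `K |z - z₀| ^ 2 ≥ 0` (interiors disjoint) and vanishes only at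
`z₀`; `c.val z₀ = 0`, since `prod c d + prod c c = 0` says `m·M - (k L + l K) / 2 = 0`, i.e. `-(K / 2) c.val z₀ = 0`, same for `d`;
`∞` is not a common point as `K ≠ 0`. Case `K = 0`: `M = 0`, `m·M - (k L + l K) / 2 = -k L / 2 = 0` and `L ≠ 0`, so `k = 0`, `k' = 0`, `∞` is
a common point, there is no finite one and the interiors are disjoint since the sum of the values is `L > 0`. -/
theorem tang_of_prod (c d : GC) (h : c.prod d = -1) (hk : 0 ≤ c.k + d.k) (hl : 0 ≤ c.l + d.l)
    (hn : c.k + d.k ≠ 0 ∨ c.l + d.l ≠ 0) : Tang c d ∧ Disjoint c.int d.int := by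
  obtain ⟨h1, h2, h3⟩ := GG2_sum c d h
  obtain ⟨K, hK⟩ : ∃ K : ℝ, K = c.k + d.k := ⟨_, rfl⟩
  obtain ⟨L, hL⟩ : ∃ L : ℝ, L = c.l + d.l := ⟨_, rfl⟩
  obtain ⟨X, hX⟩ : ∃ X : ℝ, X = c.m.re + d.m.re := ⟨_, rfl⟩
  obtain ⟨Y, hY⟩ : ∃ Y : ℝ, Y = c.m.im + d.m.im := ⟨_, rfl⟩
  rw [← hK, ← hL, ← hX, ← hY] at h1 h2 h3
  rw [← hK] at hk hn
  rw [← hL] at hl hn
  have hsum : ∀ z : ℂ, c.val z + d.val z = K * Complex.normSq z - 2 * (X * z.re + Y * z.im) + L := by
    intro z
    unfold GC.val
    rw [hK, hL, hX, hY]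
    ring
  rcases hk.lt_or_eq with hK0 | hK0
  · -- finite point of contact
    have hKne : K ≠ 0 := hK0.ne'
    obtain ⟨z₀, hz₀⟩ : ∃ z₀ : ℂ, z₀ = ⟨X / K, Y / K⟩ := ⟨_, rfl⟩
    have hsq : ∀ z : ℂ, c.val z + d.val z =
        K * ((z.re - X / K) ^ 2 + (z.im - Y / K) ^ 2) := by
      intro z
      have hL' : L = (X ^ 2 + Y ^ 2) / K := by
        rw [h1]
        field_simp
      rw [hsum, Complex.normSq_apply, hL']
      field_simp
      ring
    have hc0 : c.val z₀ = 0 := by
      have e1 : c.val z₀ * K ^ 2 = c.k * (X ^ 2 + Y ^ 2) -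
          2 * K * (c.m.re * X + c.m.im * Y) + c.l * K ^ 2 := by
        unfold GC.val
        rw [hz₀, Complex.normSq_apply]
        simp only
        field_simp
      rw [h1, h2] at e1
      have e2 : c.val z₀ * K ^ 2 = 0 := by
        rw [e1]
        ring
      rcases mul_eq_zero.1 e2 with e3 | e3
      · exact e3
      · exact absurd e3 (pow_ne_zero 2 hKne)
    have hd0 : d.val z₀ = 0 := by
      have e1 : d.val z₀ * K ^ 2 = d.k * (X ^ 2 + Y ^ 2) -
          2 * K * (d.m.re * X + d.m.im * Y) + d.l * K ^ 2 := by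
        unfold GC.val
        rw [hz₀, Complex.normSq_apply]
        simp only
        field_simp
      rw [h1, h3] at e1
      have e2 : d.val z₀ * K ^ 2 = 0 := by
        rw [e1]
        ring
      rcases mul_eq_zero.1 e2 with e3 | e3
      · exact e3
      · exact absurd e3 (pow_ne_zero 2 hKne)
    refine ⟨⟨(z₀ : OnePoint ℂ), ⟨Or.inl ⟨z₀, rfl, hc0⟩, Or.inl ⟨z₀, rfl, hd0⟩⟩, ?_⟩, ?_⟩
    · rintro P ⟨hP1, hP2⟩
      rcases hP1 with ⟨z, hz, hcz⟩ | ⟨hP, hck⟩
      · rcases hP2 with ⟨w, hw, hdw⟩ | ⟨hP, hdk⟩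
        · have hzw : z = w := OnePoint.coe_injective (hz.symm.trans hw)
          rw [← hzw] at hdw
          have e1 := hsq z
          rw [hcz, hdw, add_zero] at e1
          rcases mul_eq_zero.1 e1.symm with e2 | e2
          · exact absurd e2 hKne
          · have e3 : (z.re - X / K) ^ 2 = 0 := by
              nlinarith [sq_nonneg (z.re - X / K), sq_nonneg (z.im - Y / K)]
            have e4 : (z.im - Y / K) ^ 2 = 0 := by
              nlinarith [sq_nonneg (z.re - X / K), sq_nonneg (z.im - Y / K)]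
            have e5 : z = z₀ := by
              rw [hz₀]
              refine Complex.ext ?_ ?_
              · exact sub_eq_zero.1 (pow_eq_zero_iff (two_ne_zero) |>.1 e3)
              · exact sub_eq_zero.1 (pow_eq_zero_iff (two_ne_zero) |>.1 e4)
            rw [hz, e5]
        · exact absurd (hz.symm.trans hP) (OnePoint.coe_ne_infty z)
      · rcases hP2 with ⟨w, hw, hdw⟩ | ⟨_, hdk⟩
        · exact absurd (hw.symm.trans hP) (OnePoint.coe_ne_infty w)
        · exact absurd (by rw [hK, hck, hdk, add_zero]) hKne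
    · refine Set.disjoint_left.2 fun z hz hz' => ?_
      have e1 : c.val z < 0 := hz
      have e2 : d.val z < 0 := hz'
      have e3 := hsq z
      have e4 : 0 ≤ K * ((z.re - X / K) ^ 2 + (z.im - Y / K) ^ 2) := by positivity
      linarith
  · -- two parallel lines
    rw [← hK0] at h1 h2 h3 hn
    have hLne : L ≠ 0 := by
      rcases hn with hn | hn
      · exact absurd rfl hn
      · exact hn
    rw [zero_mul] at h1
    have hX0 : X = 0 := by
      have : X ^ 2 = 0 := by nlinarith [sq_nonneg X, sq_nonneg Y]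
      exact pow_eq_zero_iff (two_ne_zero) |>.1 this
    have hY0 : Y = 0 := by
      have : Y ^ 2 = 0 := by nlinarith [sq_nonneg X, sq_nonneg Y]
      exact pow_eq_zero_iff (two_ne_zero) |>.1 this
    rw [hX0, hY0, mul_zero, mul_zero, mul_zero, add_zero, add_zero] at h2 h3
    have hck : c.k = 0 := by
      have : c.k * L = 0 := by linarith
      rcases mul_eq_zero.1 this with e | e
      · exact e
      · exact absurd e hLne
    have hdk : d.k = 0 := by
      have : d.k * L = 0 := by linarith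
      rcases mul_eq_zero.1 this with e | e
      · exact e
      · exact absurd e hLne
    have hs : ∀ z : ℂ, c.val z + d.val z = L := by
      intro z
      rw [hsum, ← hK0, hX0, hY0]
      ring
    refine ⟨⟨OnePoint.infty, ⟨Or.inr ⟨rfl, hck⟩, Or.inr ⟨rfl, hdk⟩⟩, ?_⟩, ?_⟩
    · rintro P ⟨hP1, hP2⟩
      rcases hP1 with ⟨z, hz, hcz⟩ | ⟨hP, _⟩
      · rcases hP2 with ⟨w, hw, hdw⟩ | ⟨hP, _⟩
        · have hzw : z = w := OnePoint.coe_injective (hz.symm.trans hw)
          rw [← hzw] at hdw
          have e1 := hs z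
          rw [hcz, hdw, add_zero] at e1
          exact absurd e1.symm hLne
        · exact hP
      · exact hP
    · refine Set.disjoint_left.2 fun z hz hz' => ?_
      have e1 : c.val z < 0 := hz
      have e2 : d.val z < 0 := hz'
      have e3 := hs z
      linarith

end Pool.Agent.Wd33b62
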