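import Pool.Agent.W_d33b62_h36.GG1
import Pool.Agent.W_d33b62_h36.GG2
import Pool.Agent.W_d33b62_h49.IntForm

/-!
# The data of a circle of odd prime curvature (helper36, MP_d33b62_nt)

The geometry is proved in `Pool.Agent.W_d33b62_h49` for tangency defined by the inversive product;
here it is translated with `prod_of_tang` and `tang_of_prod`.
-/

set_option autoImplicit false

noncomputable section

open Relation

namespace Pool.Agent.Wd33b62

/-- Translation of the circles. -/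
def GG4d_to (c : GC) : Pool.Agent.Wd33b62g.Circ where
  curv := c.k
  cocurv := c.l
  x := c.m.re
  y := c.m.im
  norm_eq := by
    have := c.norm
    rw [Complex.normSq_apply] at this
    linarith

/-- The inverse translation. -/
def GG4d_of (C : Pool.Agent.Wd33b62g.Circ) : GC where
  k := C.curv
  m := ⟨C.x, C.y⟩
  l := C.cocurv
  norm := by
    have := C.norm_eq
    rw [Complex.normSq_apply]
    simp only
    linarith

theorem GG4d_to_of (C : Pool.Agent.Wd33b62g.Circ) : GG4d_to (GG4d_of C) = C := rfl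

theorem GG4d_of_to (c : GC) : GG4d_of (GG4d_to c) = c := rfl

theorem GG4d_inj : Function.Injective GG4d_to := fun a b h => by
  rw [← GG4d_of_to a, ← GG4d_of_to b, h]

theorem GG4d_ip (c d : GC) : Pool.Agent.Wd33b62g.ip (GG4d_to c) (GG4d_to d) = c.prod d := by
  unfold Pool.Agent.Wd33b62g.ip GC.prod GG4d_to
  simp only

theorem GG4d_disj (c d : GC) :
    Disjoint (GG4d_to c).interior (GG4d_to d).interior ↔ Disjoint c.int d.int := by
  have hval : ∀ (c : GC) (z : ℂ), ((z.re, z.im) : ℝ × ℝ) ∈ (GG4d_to c).interior ↔ z ∈ c.int := by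
    intro c z
    simp only [Pool.Agent.Wd33b62g.Circ.interior, GC.int, Set.mem_setOf_eq, GG4d_to, GC.val,
      Complex.normSq_apply]
    constructor <;> intro h <;> nlinarith
  rw [Set.disjoint_left, Set.disjoint_left]
  constructor
  · intro h z hz hz'
    exact h ((hval c z).2 hz) ((hval d z).2 hz')
  · intro h z hz hz'
    have e : z = (((⟨z.1, z.2⟩ : ℂ).re, (⟨z.1, z.2⟩ : ℂ).im) : ℝ × ℝ) := rfl
    rw [e] at hz hz'
    exact h ((hval c _).1 hz) ((hval d _).1 hz')

/-- Non-degeneracy. -/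
theorem GG4d_nondeg {D : Fin 4 → Pool.Agent.Wd33b62g.Circ} (h : Pool.Agent.Wd33b62g.Tan4 D)
    {i j : Fin 4} (hij : i ≠ j) :
    (D i).curv + (D j).curv ≠ 0 ∨ (D i).cocurv + (D j).cocurv ≠ 0 := by
  by_contra hc
  push Not at hc
  obtain ⟨hk, hl⟩ := hc
  have ei := (D i).norm_eq
  have ej := (D j).norm_eq
  have et := h i j hij
  unfold Pool.Agent.Wd33b62g.Tangent Pool.Agent.Wd33b62g.ip at et
  have h2 : ((D i).curv + (D j).curv) * ((D i).cocurv + (D j).cocurv) =
      ((D i).x + (D j).x) ^ 2 + ((D i).y + (D j).y) ^ 2 := by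
    linear_combination (-1) * ei - ej - 2 * et
  rw [hk, zero_mul] at h2
  have hx : (D i).x + (D j).x = 0 := by
    nlinarith [sq_nonneg ((D i).x + (D j).x), sq_nonneg ((D i).y + (D j).y)]
  have hy : (D i).y + (D j).y = 0 := by
    nlinarith [sq_nonneg ((D i).x + (D j).x), sq_nonneg ((D i).y + (D j).y)]
  have hex : ∀ i j : Fin 4, ∃ k : Fin 4, k ≠ i ∧ k ≠ j := by decide
  obtain ⟨k, hki, hkj⟩ := hex i j
  have t1 := h k i hki
  have t2 := h k j hkj
  unfold Pool.Agent.Wd33b62g.Tangent Pool.Agent.Wd33b62g.ip at t1 t2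
  have e1 : (D j).curv = -(D i).curv := by linarith
  have e2 : (D j).cocurv = -(D i).cocurv := by linarith
  have e3 : (D j).x = -(D i).x := by linarith
  have e4 : (D j).y = -(D i).y := by linarith
  rw [e1, e2, e3, e4] at t2
  linarith

theorem GG4d_desc (v : Fin 4 → GC) :
    Pool.Agent.Wd33b62g.IsDescartes (fun i => GG4d_to (v i)) ↔ IsDescartes v := by
  constructor
  · intro h i j hij
    have ht := h.tan4
    have hp := Pool.Agent.Wd33b62g.swap_pos_of_disjoint h
    obtain ⟨h1, h2⟩ := Pool.Agent.Wd33b62g.swap_pair_nonneg ht hp hij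
    have h3 := GG4d_nondeg ht hij
    have h4 : (v i).prod (v j) = -1 := by
      rw [← GG4d_ip]; exact ht i j hij
    exact tang_of_prod (v i) (v j) h4 h1 h2 h3
  · intro h i j hij
    obtain ⟨h1, h2⟩ := h i j hij
    refine ⟨?_, (GG4d_disj _ _).2 h2⟩
    show Pool.Agent.Wd33b62g.ip _ _ = -1
    rw [GG4d_ip]
    exact (prod_of_tang _ _ h1 h2).1

theorem GG4d_gen {v v' : Fin 4 → GC} (h : ReflTransGen Step v v') :
    Pool.Agent.Wd33b62g.Gen (fun i => GG4d_to (v i)) (fun i => GG4d_to (v' i)) := by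
  induction h with
  | refl => exact Pool.Agent.Wd33b62g.Gen.base
  | tail _ hs ih =>
    obtain ⟨hd, i, hj, hne⟩ := hs
    refine Pool.Agent.Wd33b62g.Gen.step i ih ((GG4d_desc _).2 hd) ?_ ?_
    · intro j hji
      rw [hj j hji]
    · intro he
      exact hne (GG4d_inj he)

theorem GG4d_gen' {v : Fin 4 → GC} {D : Fin 4 → Pool.Agent.Wd33b62g.Circ}
    (h : Pool.Agent.Wd33b62g.Gen (fun i => GG4d_to (v i)) D) :
    ReflTransGen Step v (fun i => GG4d_of (D i)) := by
  induction h with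
  | base => exact ReflTransGen.refl
  | @step D D' i _ hd hj hne ih =>
    refine ih.tail ⟨?_, i, ?_, ?_⟩
    · rw [← GG4d_desc]; exact hd
    · intro j hji
      show GG4d_of (D' j) = GG4d_of (D j)
      rw [hj j hji]
    · intro he
      apply hne
      have := congrArg GG4d_to he
      exact this

theorem GG4d_mem {v : Fin 4 → GC} {c : GC} :
    GG4d_to c ∈ Pool.Agent.Wd33b62g.packing (fun i => GG4d_to (v i)) ↔ c ∈ packing v := by
  constructor
  · rintro ⟨D, hg, i, hi⟩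
    exact ⟨_, GG4d_gen' hg, i, by rw [hi]; rfl⟩
  · rintro ⟨v', hg, i, rfl⟩
    exact ⟨_, GG4d_gen hg, i, rfl⟩

/-- **The data of a circle of odd prime curvature.**

Proof. `Pool.Agent.Wd33b62g.intForm_exists`. If `A` and `C'` are even then `B ^ 2 + a ^ 2 = A C'` is divisible by `4`, which is
impossible for odd `a`. -/
theorem circ_data {v : Fin 4 → GC} (hv : IsDescartes v) (hI : IsIntegral v) (hP : IsPrimitive v) {C : GC}
    (hC : C ∈ packing v) (a : ℕ) (ha : a.Prime) (ha2 : a ≠ 2) (hCa : C.k = a) :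
    ∃ A B C' : ℤ, 0 < A ∧ 0 < C' ∧ A * C' - B ^ 2 = (a : ℤ) ^ 2 ∧ ¬ (2 ∣ A ∧ 2 ∣ C') ∧
      ¬ ((a : ℤ) ∣ A ∧ (a : ℤ) ∣ B ∧ (a : ℤ) ∣ C') ∧
      ∀ x y : ℤ, IsCoprime x y → ∃ c ∈ packing v, Tang C c ∧
        c.k = A * x ^ 2 + 2 * B * x * y + C' * y ^ 2 - a := by
  have hv' := (GG4d_desc v).2 hv
  have hI' : Pool.Agent.Wd33b62g.IsIntegral
      (Pool.Agent.Wd33b62g.packing (fun i => GG4d_to (v i))) := by
    intro c hc
    exact hI (GG4d_of c) (GG4d_mem.1 hc)
  have hP' : Pool.Agent.Wd33b62g.IsPrimitive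
      (Pool.Agent.Wd33b62g.packing (fun i => GG4d_to (v i))) := by
    intro d hd
    apply hP d
    intro c hc
    exact hd (GG4d_to c) (GG4d_mem.2 hc)
  obtain ⟨A, B, E, hA, hE, hdet, hnd, hform⟩ := Pool.Agent.Wd33b62g.intForm_exists hv' hI' hP'
    (GG4d_mem.2 hC) a ha ha2 hCa
  refine ⟨A, B, E, hA, hE, hdet, ?_, fun h => hnd ⟨h.1, h.2.2⟩, ?_⟩
  · rintro ⟨⟨A', rfl⟩, ⟨E', rfl⟩⟩
    have h1 : B ^ 2 + (a : ℤ) ^ 2 = 4 * (A' * E') := by linarith
    have hodd : a % 2 = 1 := ha.eq_two_or_odd.resolve_left ha2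
    obtain ⟨k, hk⟩ : ∃ k : ℤ, (a : ℤ) = 2 * k + 1 := ⟨(a : ℤ) / 2, by omega⟩
    rw [hk] at h1
    rcases Int.even_or_odd' B with ⟨l, rfl | rfl⟩
    · have : 4 * (l ^ 2 + k ^ 2 + k - A' * E') = -1 := by linarith
      omega
    · have : 4 * (l ^ 2 + l + k ^ 2 + k - A' * E') = -2 := by linarith
      omega
  · intro x y hxy
    obtain ⟨c, hN, hc⟩ := hform x y hxy
    obtain ⟨D, hg, i, j, hij, h1, h2⟩ := hN
    have hd := hg.isDescartes hv'
    have hd' : IsDescartes (fun i => GG4d_of (D i)) := by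
      rw [← GG4d_desc]; exact hd
    refine ⟨GG4d_of c, ⟨_, GG4d_gen' hg, j, by rw [h2]⟩, ?_, ?_⟩
    · have h3 := (hd' i j hij).1
      simp only at h3
      rw [h1, h2, GG4d_of_to] at h3
      exact h3
    · show c.curv = _
      rw [hc]
      push_cast
      ring

end Pool.Agent.Wd33b62
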