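import Pool.Agent.W_d33b62_h49.GaussD

/-!
# Primitive representations by forms of determinant `a ^ 2` (helper36, MP_d33b62_nt)
-/

set_option autoImplicit false

noncomputable section

namespace Pool.Agent.Wd33b62


lemma GaF_mod4 (D : ℕ) (hD : D ≠ 0) (h : ∀ p : ℕ, p.Prime → p ∣ D → p % 4 = 1) : D % 4 = 1 := by
  induction D using induction_on_primes with
  | zero => exact absurd rfl hD
  | one => rfl
  | prime_mul p a hp ih =>
    have ha : a ≠ 0 := by rintro rfl; exact hD (mul_zero _)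
    have h1 := ih ha (fun q hq hd => h q hq (hd.mul_left p))
    have h2 := h p hp (dvd_mul_right p a)
    rw [Nat.mul_mod, h1, h2]

lemma GaF_leg (a : ℕ) [Fact a.Prime] (X A₀ : ℤ) (hA : ¬ (a : ℤ) ∣ A₀)
    (h : ∃ s : ℤ, ¬ (a : ℤ) ∣ s ∧ (a : ℤ) ∣ X * A₀ - s ^ 2) :
    legendreSym a X = legendreSym a A₀ := by
  obtain ⟨s, hs, hd⟩ := h
  have hA0 : ((A₀ : ℤ) : ZMod a) ≠ 0 := by
    intro h
    exact hA ((ZMod.intCast_zmod_eq_zero_iff_dvd A₀ a).1 h)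
  have hs0 : ((s : ℤ) : ZMod a) ≠ 0 := by
    intro h
    exact hs ((ZMod.intCast_zmod_eq_zero_iff_dvd s a).1 h)
  have he : ((X * A₀ : ℤ) : ZMod a) = ((s ^ 2 : ℤ) : ZMod a) := by
    rw [← sub_eq_zero, ← Int.cast_sub]
    exact (ZMod.intCast_zmod_eq_zero_iff_dvd _ a).2 hd
  have h1 : legendreSym a (X * A₀) = 1 := by
    have : legendreSym a (X * A₀) = legendreSym a (s ^ 2) := by
      unfold legendreSym
      rw [he]
    rw [this]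
    exact legendreSym.sq_one' a hs0
  rw [legendreSym.mul] at h1
  have h2 := legendreSym.sq_one a hA0
  have h3 : legendreSym a X * legendreSym a A₀ = legendreSym a A₀ * legendreSym a A₀ := by
    rw [h1, ← sq, h2]
  have h4 : legendreSym a A₀ ≠ 0 := by
    intro h0
    rw [h0] at h2
    norm_num at h2
  exact mul_right_cancel₀ h4 h3

/-- **The representation theorem.**

Proof. `Pool.Agent.Wd33b62g.gaussD_main0` applied to the form or to the form with `A` and `C'` exchanged. -/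
theorem gauss (a : ℕ) (ha : a.Prime) (ha2 : a ≠ 2) (A B C' : ℤ) (hA : 0 < A) (hC : 0 < C')
    (hdet : A * C' - B ^ 2 = (a : ℤ) ^ 2) (hpar : ¬ (2 ∣ A ∧ 2 ∣ C'))
    (hprim : ¬ ((a : ℤ) ∣ A ∧ (a : ℤ) ∣ B ∧ (a : ℤ) ∣ C')) :
    ∃ A₀ : ℤ, ¬ (a : ℤ) ∣ A₀ ∧ ∀ Z : ℕ, 0 < Z → a.Coprime Z →
      ∃ D : ℕ, 0 < D ∧ D.Coprime (2 * a * Z) ∧ D % 4 = 1 ∧ ∀ M : ℕ, 0 < M →
        (∀ p : ℕ, p.Prime → p ∣ M → p % 4 = 1) → M.Coprime D →
        (∃ s : ℤ, ¬ (a : ℤ) ∣ s ∧ (a : ℤ) ∣ 2 * D * M * A₀ - s ^ 2) →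
        ∃ x y : ℤ, IsCoprime x y ∧ A * x ^ 2 + 2 * B * x * y + C' * y ^ 2 = 2 * D * M := by
  haveI := Fact.mk ha
  have hai : Prime (a : ℤ) := Nat.prime_iff_prime_int.1 ha
  have key : ∀ A B E : ℤ, 0 < A → A * E - B ^ 2 = (a : ℤ) ^ 2 → ¬ (a : ℤ) ∣ A →
      ∀ Z : ℕ, 0 < Z → a.Coprime Z →
      ∃ D : ℕ, 0 < D ∧ D.Coprime (2 * a * Z) ∧ D % 4 = 1 ∧ ∀ M : ℕ, 0 < M →
        (∀ p : ℕ, p.Prime → p ∣ M → p % 4 = 1) → M.Coprime D →
        (∃ s : ℤ, ¬ (a : ℤ) ∣ s ∧ (a : ℤ) ∣ 2 * D * M * A - s ^ 2) →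
        ∃ x y : ℤ, IsCoprime x y ∧ A * x ^ 2 + 2 * B * x * y + E * y ^ 2 = 2 * D * M := by
    intro A B E hA hdet hnA Z hZ _
    obtain ⟨D, h1, h2, h3, h4, h5⟩ := Pool.Agent.Wd33b62g.gaussD_main0 a ha2 A B E hA hdet hnA Z
      hZ.ne'
    refine ⟨D, Nat.pos_of_ne_zero h1, h3.mul_right h2, GaF_mod4 D h1 h4, ?_⟩
    intro M hM hM4 hMD hs
    exact h5 M hM.ne' hM4 hMD (GaF_leg a _ A hnA hs)
  by_cases hnA : (a : ℤ) ∣ A
  · have hnC : ¬ (a : ℤ) ∣ C' := by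
      intro hC'
      apply hprim
      refine ⟨hnA, ?_, hC'⟩
      have hB2 : (a : ℤ) ∣ B ^ 2 := by
        have : B ^ 2 = A * C' - (a : ℤ) ^ 2 := by linarith
        rw [this]
        exact dvd_sub (dvd_mul_of_dvd_left hnA _) (dvd_pow_self _ (by norm_num))
      exact hai.dvd_of_dvd_pow hB2
    refine ⟨C', hnC, ?_⟩
    intro Z hZ haZ
    obtain ⟨D, h1, h2, h3, h4⟩ := key C' B A hC (by linarith) hnC Z hZ haZ
    refine ⟨D, h1, h2, h3, ?_⟩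
    intro M hM hM4 hMD hs
    obtain ⟨x, y, hxy, hf⟩ := h4 M hM hM4 hMD hs
    exact ⟨y, x, hxy.symm, by linarith⟩
  · exact ⟨A, hnA, key A B C' hA hdet hnA⟩

end Pool.Agent.Wd33b62
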