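import Pool.Agent.W_d33b62_h36.AD
import Pool.Agent.W_d33b62_h36.GG4d
import Pool.Agent.W_d33b62_h36.GaF

/-!
# Prime components are closed sets (helper36, MP_d33b62_nt)
-/

set_option autoImplicit false

noncomputable section

namespace Pool.Agent.Wd33b62

/-- The component consists of circles of the packing of odd prime curvature if `C` is one. -/
theorem component_mem {v : Fin 4 → GC} {C : GC} (hC : C ∈ packing v) (hC2 : OddPrimeCurv C) {c : GC}
    (hc : c ∈ component v C) : c ∈ packing v ∧ OddPrimeCurv c := by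
  unfold component at hc
  rw [Set.mem_ofPred_eq] at hc
  induction hc with
  | refl => exact ⟨hC, hC2⟩
  | tail _ h _ => exact ⟨h.1, h.2.1⟩

/-- **The set of the curvatures of a prime component is closed**: `circ_data` and `gauss`; the circle of curvature
`q = f(x, y) - a` is tangent to the circle of curvature `a` of the component, so it is in the component. -/
theorem clos_curvs {v : Fin 4 → GC} (hv : IsDescartes v) (hI : IsIntegral v) (hP : IsPrimitive v) {C : GC}
    (hC : C ∈ packing v) (hC2 : OddPrimeCurv C) : Clos (curvs v C) ∧ (curvs v C).Nonempty := by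
  refine ⟨⟨?_, ?_⟩, ?_⟩
  · rintro a ⟨c, hc, hca⟩
    obtain ⟨p, hp, hp2, hcp⟩ := (component_mem hC hC2 hc).2
    have h1 : (a : ℝ) = p := hca.symm.trans hcp
    have h2 : a = p := by exact_mod_cast h1
    rw [h2]
    exact ⟨hp, hp2⟩
  · rintro a ⟨c, hc, hca⟩
    obtain ⟨hcP, p, hp, hp2, hcp⟩ := component_mem hC hC2 hc
    have h1 : (a : ℝ) = p := hca.symm.trans hcp
    have h2 : a = p := by exact_mod_cast h1
    subst h2
    obtain ⟨A, B, C', hA, hC', hdet, hpar, hprim, hrep⟩ := circ_data hv hI hP hcP a hp hp2 hca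
    obtain ⟨A₀, hA₀, hg⟩ := gauss a hp hp2 A B C' hA hC' hdet hpar hprim
    refine ⟨A₀, hA₀, fun Z hZ haZ => ?_⟩
    obtain ⟨D, hD, hDc, hD4, hM⟩ := hg Z hZ haZ
    refine ⟨D, hD, hDc, hD4, fun M hM0 hMg hMD hs q hq hq2 hqa => ?_⟩
    obtain ⟨x, y, hxy, he⟩ := hM M hM0 hMg hMD hs
    obtain ⟨c', hc'P, hT, hk⟩ := hrep x y hxy
    have h3 : c'.k = q := by
      have h4 : ((A * x ^ 2 + 2 * B * x * y + C' * y ^ 2 : ℤ) : ℝ) = ((2 * D * M : ℤ) : ℝ) := by
        rw [he]
      have h5 : ((q + a : ℕ) : ℝ) = ((2 * D * M : ℕ) : ℝ) := by rw [hqa]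
      push_cast at h4 h5
      rw [hk, h4]
      linarith
    refine ⟨c', ?_, h3⟩
    exact Relation.ReflTransGen.tail hc ⟨hc'P, ⟨q, hq, hq2, h3⟩, hT⟩
  · obtain ⟨p, _, _, hcp⟩ := hC2
    exact ⟨p, C, Relation.ReflTransGen.refl, hcp⟩

end Pool.Agent.Wd33b62
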