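import Mathlib

/-!
# Construction of the data by the Chinese remainder theorem (helper36, MP_d33b62_nt)
-/

set_option autoImplicit false

noncomputable section

open Finset

namespace Pool.Agent.Wd33b62

/-- **Chinese remainder theorem for the primes `≤ D0`**, with a common exponent `E`:
`Nat.chineseRemainderOfFinset` or induction. -/
theorem crt_primes (D0 E : ℕ) (c : ℕ → ℕ) :
    ∃ b : ℕ, ∀ r : ℕ, r.Prime → r ≤ D0 → b ≡ c r [MOD r ^ E] := by
  have hs : ∀ r ∈ (range (D0 + 1)).filter Nat.Prime, r ^ E ≠ 0 := by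
    intro r hr
    exact pow_ne_zero _ (Finset.mem_filter.mp hr).2.ne_zero
  have hp : Set.Pairwise (((range (D0 + 1)).filter Nat.Prime : Finset ℕ) : Set ℕ)
      (Function.onFun Nat.Coprime fun r => r ^ E) := by
    intro r hr r' hr' hne
    have h1 := (Finset.mem_filter.mp (Finset.mem_coe.mp hr)).2
    have h2 := (Finset.mem_filter.mp (Finset.mem_coe.mp hr')).2
    exact Nat.Coprime.pow _ _ ((Nat.coprime_primes h1 h2).mpr hne)
  obtain ⟨b, hb⟩ := Nat.chineseRemainderOfFinset c (fun r => r ^ E) ((range (D0 + 1)).filter Nat.Prime) hs hp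
  refine ⟨b, fun r hr hrD => hb r ?_⟩
  rw [Finset.mem_filter, Finset.mem_range]
  exact ⟨by omega, hr⟩

/-- Avoiding residues: if fewer than `r` residues are forbidden there is an allowed one: there is `c` with
`¬ r ∣ c + s v` for all `v` in a finite type with fewer than `r` elements. -/
theorem avoid {V : Type} [Fintype V] (s : V → ℕ) (r : ℕ) (h : Fintype.card V < r) :
    ∃ c : ℕ, ∀ v, ¬ r ∣ c + s v := by
  classical
  have hr : 0 < r := by omega
  haveI : NeZero r := ⟨hr.ne'⟩
  obtain ⟨c, hc⟩ : ∃ c : ZMod r, c ∉ Finset.univ.image (fun v : V => -(s v : ZMod r)) := by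
    by_contra hcon
    push Not at hcon
    have h1 : (Finset.univ : Finset (ZMod r)) ⊆ Finset.univ.image (fun v : V => -(s v : ZMod r)) :=
      fun c _ => hcon c
    have h2 := Finset.card_le_card h1
    have h3 : (Finset.univ.image (fun v : V => -(s v : ZMod r))).card ≤ Fintype.card V := Finset.card_image_le
    rw [Finset.card_univ, ZMod.card] at h2
    omega
  refine ⟨c.val, fun v hv => hc ?_⟩
  rw [Finset.mem_image]
  refine ⟨v, Finset.mem_univ _, ?_⟩
  rw [← ZMod.natCast_eq_zero_iff] at hv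
  push_cast at hv
  rw [ZMod.natCast_zmod_val] at hv
  linear_combination -hv

/-- **The class at a prime `a`** with a square condition: there are `(a - 1) / 2` nonzero squares `c A₀`; at most `|V|` of the
classes `c` are excluded by `a ∣ c + s v` for some `v`. -/
theorem avoid_sq {V : Type} [Fintype V] (s : V → ℕ) (a : ℕ) (ha : a.Prime) (ha2 : a ≠ 2) (A₀ : ℤ) (hA : ¬ (a : ℤ) ∣ A₀)
    (h : 2 * Fintype.card V + 1 < a) :
    ∃ c : ℕ, (∀ v, ¬ a ∣ c + s v) ∧ ∃ t : ℤ, ¬ (a : ℤ) ∣ t ∧ (a : ℤ) ∣ c * A₀ - t ^ 2 := by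
  classical
  haveI : Fact a.Prime := ⟨ha⟩
  obtain ⟨t, ht⟩ : ∃ t : ZMod a, t ∉ insert (0 : ZMod a) (Finset.univ.biUnion fun v : V =>
      (Polynomial.nthRoots 2 (-(s v : ZMod a) * (A₀ : ZMod a))).toFinset) := by
    by_contra hcon
    push Not at hcon
    have h1 : (Finset.univ : Finset (ZMod a)) ⊆ insert (0 : ZMod a) (Finset.univ.biUnion fun v : V =>
        (Polynomial.nthRoots 2 (-(s v : ZMod a) * (A₀ : ZMod a))).toFinset) := fun c _ => hcon c
    have h2 := Finset.card_le_card h1
    rw [Finset.card_univ, ZMod.card] at h2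
    have h3 := Finset.card_insert_le (0 : ZMod a) (Finset.univ.biUnion fun v : V =>
      (Polynomial.nthRoots 2 (-(s v : ZMod a) * (A₀ : ZMod a))).toFinset)
    have h4 : (Finset.univ.biUnion fun v : V =>
        (Polynomial.nthRoots 2 (-(s v : ZMod a) * (A₀ : ZMod a))).toFinset).card ≤ Fintype.card V * 2 := by
      refine Finset.card_biUnion_le_card_mul _ _ _ fun v _ => ?_
      exact (Multiset.toFinset_card_le _).trans (Polynomial.card_nthRoots 2 _)
    omega
  rw [Finset.mem_insert, not_or] at ht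
  obtain ⟨ht0, ht1⟩ := ht
  have hA' : (A₀ : ZMod a) ≠ 0 := by
    intro h0
    exact hA ((ZMod.intCast_zmod_eq_zero_iff_dvd A₀ a).mp h0)
  refine ⟨(t ^ 2 / (A₀ : ZMod a)).val, fun v hv => ?_, (t.val : ℤ), ?_, ?_⟩
  · refine ht1 (Finset.mem_biUnion.mpr ⟨v, Finset.mem_univ _, ?_⟩)
    rw [Multiset.mem_toFinset, Polynomial.mem_nthRoots two_pos]
    rw [← ZMod.natCast_eq_zero_iff] at hv
    push_cast at hv
    rw [ZMod.natCast_zmod_val] at hv
    have h5 : t ^ 2 / (A₀ : ZMod a) = -(s v : ZMod a) := by linear_combination hv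
    rw [← h5]
    field_simp
  · intro h6
    refine ht0 ?_
    rw [← ZMod.intCast_zmod_eq_zero_iff_dvd] at h6
    push_cast at h6
    rwa [ZMod.natCast_zmod_val] at h6
  · rw [← ZMod.intCast_zmod_eq_zero_iff_dvd]
    push_cast
    rw [ZMod.natCast_zmod_val, ZMod.natCast_zmod_val]
    field_simp
    ring

end Pool.Agent.Wd33b62
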