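import Pool.Agent.W_d33b62_h36.AD

/-!
# Construction of the data by the Chinese remainder theorem (helper36, MP_d33b62_nt)
-/

set_option autoImplicit false

noncomputable section

open Finset

namespace Pool.Agent.Wd33b62

/-- **Choice of the `D i j`**, one after the other: `D i j` belongs to `a i j` and to a number `Z i j` which is a multiple of the part of
`P` prime to `a i j` and of all previous `D`'s. Since `D i j` is prime to `a i j` it is prime to `P`, and the `D i j` are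
pairwise coprime. (`P / a ^ v_a(P)` is `ordCompl[a] P`; the previous `D`'s are prime to `P`, and `a i j ∣ P`.) Induction over a
finite set of pairs `(i, j)`. -/
theorem exists_D {S : Set ℕ} (hS : Clos S) {k : ℕ} (a : Fin k × Fin k → ℕ) (ha : ∀ x, a x ∈ S) (P : ℕ) (hP : 0 < P)
    (haP : ∀ x, a x ∣ P) :
    ∃ (D : Fin k × Fin k → ℕ) (A₀ : Fin k × Fin k → ℤ), (∀ x, 0 < D x ∧ (D x).Coprime (2 * P) ∧ D x % 4 = 1 ∧
        ¬ (a x : ℤ) ∣ A₀ x) ∧ (∀ x y, x ≠ y → (D x).Coprime (D y)) ∧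
      ∀ x, ∀ M : ℕ, 0 < M → GoodP M → M.Coprime (D x) →
        (∃ s : ℤ, ¬ (a x : ℤ) ∣ s ∧ (a x : ℤ) ∣ 2 * D x * M * A₀ x - s ^ 2) →
        ∀ q : ℕ, q.Prime → q ≠ 2 → q + a x = 2 * D x * M → q ∈ S := by
  classical
  obtain ⟨A₀, hA₀⟩ : ∃ A₀ : Fin k × Fin k → ℤ, ∀ x, ¬ (a x : ℤ) ∣ A₀ x ∧ ∀ Z : ℕ, 0 < Z →
      (a x).Coprime Z → ∃ D : ℕ, 0 < D ∧ D.Coprime (2 * a x * Z) ∧ D % 4 = 1 ∧
        ∀ M : ℕ, 0 < M → GoodP M → M.Coprime D →
      (∃ s : ℤ, ¬ (a x : ℤ) ∣ s ∧ (a x : ℤ) ∣ 2 * D * M * A₀ x - s ^ 2) →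
      ∀ q : ℕ, q.Prime → q ≠ 2 → q + a x = 2 * D * M → q ∈ S := by
    choose A₀ h using fun x => hS.2 (a x) (ha x)
    exact ⟨A₀, h⟩
  have key : ∀ T : Finset (Fin k × Fin k), ∃ D : Fin k × Fin k → ℕ,
      (∀ x ∈ T, 0 < D x ∧ (D x).Coprime (2 * P) ∧ D x % 4 = 1 ∧
        ∀ M : ℕ, 0 < M → GoodP M → M.Coprime (D x) →
        (∃ s : ℤ, ¬ (a x : ℤ) ∣ s ∧ (a x : ℤ) ∣ 2 * D x * M * A₀ x - s ^ 2) →
        ∀ q : ℕ, q.Prime → q ≠ 2 → q + a x = 2 * D x * M → q ∈ S) ∧
      ∀ x ∈ T, ∀ y ∈ T, x ≠ y → (D x).Coprime (D y) := by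
    intro T
    induction T using Finset.induction_on with
    | empty => exact ⟨fun _ => 1, fun x hx => absurd hx (Finset.notMem_empty x),
        fun x hx => absurd hx (Finset.notMem_empty x)⟩
    | insert x T hx ih =>
      obtain ⟨D, hD1, hD2⟩ := ih
      have hap : (a x).Prime := (hS.1 (a x) (ha x)).1
      have hDpos : 0 < ∏ y ∈ T, D y := Finset.prod_pos fun y hy => (hD1 y hy).1
      have hord : 0 < ordCompl[a x] P := Nat.ordCompl_pos (a x) hP.ne'
      have hcopD : (a x).Coprime (∏ y ∈ T, D y) := by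
        refine Nat.Coprime.prod_right fun y hy => ?_
        have h1 := (hD1 y hy).2.1
        exact (h1.coprime_dvd_right ((haP x).trans (Dvd.intro_left 2 rfl))).symm
      have hcop : (a x).Coprime (ordCompl[a x] P * ∏ y ∈ T, D y) :=
        Nat.Coprime.mul_right (Nat.coprime_ordCompl hap hP.ne') hcopD
      obtain ⟨D', h1, h2, h3, h4⟩ := (hA₀ x).2 _ (Nat.mul_pos hord hDpos) hcop
      have h2a : D'.Coprime 2 := h2.coprime_dvd_right ⟨a x * (ordCompl[a x] P * ∏ y ∈ T, D y), by ring⟩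
      have h2b : D'.Coprime (a x) :=
        h2.coprime_dvd_right ⟨2 * (ordCompl[a x] P * ∏ y ∈ T, D y), by ring⟩
      have h2c : D'.Coprime (ordCompl[a x] P) :=
        h2.coprime_dvd_right ⟨2 * a x * ∏ y ∈ T, D y, by ring⟩
      have h2d : D'.Coprime (∏ y ∈ T, D y) :=
        h2.coprime_dvd_right ⟨2 * a x * ordCompl[a x] P, by ring⟩
      have h2P : D'.Coprime (2 * P) := by
        refine Nat.Coprime.mul_right h2a ?_
        rw [← Nat.ordProj_mul_ordCompl_eq_self P (a x)]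
        exact Nat.Coprime.mul_right (Nat.Coprime.pow_right _ h2b) h2c
      have hDy : ∀ y ∈ T, D'.Coprime (D y) := fun y hy =>
        h2d.coprime_dvd_right (Finset.dvd_prod_of_mem D hy)
      have hne : ∀ y ∈ T, y ≠ x := by
        rintro y hy rfl
        exact hx hy
      refine ⟨Function.update D x D', fun y hy => ?_, fun y hy z hz hyz => ?_⟩
      · rcases Finset.mem_insert.1 hy with rfl | hy
        · rw [Function.update_self]
          exact ⟨h1, h2P, h3, h4⟩
        · rw [Function.update_of_ne (hne y hy)]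
          exact hD1 y hy
      · rcases Finset.mem_insert.1 hy with rfl | hy'
        · rcases Finset.mem_insert.1 hz with rfl | hz'
          · exact absurd rfl hyz
          · rw [Function.update_self, Function.update_of_ne (hne z hz')]
            exact hDy z hz'
        · rcases Finset.mem_insert.1 hz with rfl | hz'
          · rw [Function.update_self, Function.update_of_ne (hne y hy')]
            exact (hDy y hy').symm
          · rw [Function.update_of_ne (hne y hy'), Function.update_of_ne (hne z hz')]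
            exact hD2 y hy' z hz' hyz
  obtain ⟨D, hD1, hD2⟩ := key univ
  refine ⟨D, A₀, fun x => ?_, fun x y hxy => hD2 x (Finset.mem_univ x) y (Finset.mem_univ y) hxy,
    fun x => (hD1 x (Finset.mem_univ x)).2.2.2⟩
  obtain ⟨h1, h2, h3, -⟩ := hD1 x (Finset.mem_univ x)
  exact ⟨h1, h2, h3, (hA₀ x).1⟩

end Pool.Agent.Wd33b62
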