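import Pool.Agent.W_d33b62_h36.AD
import Pool.Agent.W_d33b62_h36.CRa

/-!
# Construction of the data by the Chinese remainder theorem (helper36, MP_d33b62_nt)
-/

set_option autoImplicit false

noncomputable section

open Finset

namespace Pool.Agent.Wd33b62

theorem CRc_triv {r A B : ℕ} (hA : ¬ r ∣ A) (hB : ¬ r ∣ B) (e : ℕ) : r ^ e ∣ A ↔ r ^ e ∣ B := by
  rcases Nat.eq_zero_or_pos e with rfl | he
  · simp
  · exact ⟨fun h => absurd ((dvd_pow_self r he.ne').trans h) hA,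
      fun h => absurd ((dvd_pow_self r he.ne').trans h) hB⟩

theorem CRc_two {A B : ℕ} (hA : A % 4 = 2) (hB : B % 4 = 2) (e : ℕ) : 2 ^ e ∣ A ↔ 2 ^ e ∣ B := by
  rcases e with _ | _ | e
  · simp
  · simp only [zero_add, pow_one]
    constructor <;> intro _ <;> omega
  · have h4 : (4 : ℕ) ∣ 2 ^ (e + 1 + 1) := ⟨2 ^ e, by ring⟩
    constructor
    · intro h
      have := h4.trans h
      omega
    · intro h
      have := h4.trans h
      omega

/-- The case that no shift is to be divisible by `r`. -/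
theorem CRc_good {k : ℕ} (sh : VV k → ℕ) (D : Fin k × Fin k → ℕ) (E : ℕ) (hE : 1 ≤ E) (r c n : ℕ)
    (hc : ∀ v, ¬ r ∣ c + sh v) (hD : ∀ x, ¬ r ∣ 2 * D x) (hn : n ≡ c [MOD r ^ E]) :
    (∀ i : Fin k, ¬ r ∣ n + sh (Sum.inl i)) ∧
      (∀ x, ∀ e : ℕ, r ^ e ∣ 2 * D x ↔ r ^ e ∣ n + sh (Sum.inr x)) := by
  have hn' : n ≡ c [MOD r] := hn.of_dvd (dvd_pow_self r (by omega))
  have h : ∀ v, ¬ r ∣ n + sh v := fun v hv =>
    hc v (((hn'.add_right (sh v)).dvd_iff dvd_rfl).1 hv)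
  exact ⟨fun i => h _, fun x e => CRc_triv (hD x) (h _) e⟩

/-- **The local conditions.** For every prime `r` there is a residue `c` such that every `n ≡ c mod r ^ E` has the required
local properties (`E ≥ 3` and `E > v_r (D x)` for all `x`).

Proof. `sh (inl i) = h i`, `sh (inr (i, j)) = h i + a (i, j)`; `h i = i * QQ k`, all `a x` are congruent modulo `QQ k`.
* `r = 2`: all `h i` are `≡ 0` and all `a x ≡ a*` modulo `8`, `a*` odd (or no condition if `k = 0`); `c ≡ 2 - a* mod 8`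
(`c = 10 - a* mod 8`): `n` is odd, `n + h i + a x ≡ 2 mod 8`, so `(n + sh) / 2 = D M ≡ 1 mod 4`.
* `r` odd, `r ≤ k + k ^ 2`, `r ≠ a x` for all `x`: `r ∣ QQ k`, so the shifts are `≡ 0` or `≡ a*`; `avoid` for the two
residues, `r ≥ 3`. `r ∤ D x` (`D x` is prime to `P`, `QQ k ∣ P`).
* `r > k + k ^ 2`, `r ∤ D x`, `r ≠ a x` for all `x`: `avoid`, `k + k ^ 2` shifts.
* `r = a x₀`, `x₀ = (i₀, j₀)` (unique, `r ∤ D x` since `a x₀ ∣ P`): `n ≡ c' - h i₀` with `c'` from `avoid_sq` for the shifts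
`sh v - h i₀` (use `sh v + (r - 1) h i₀`) of the labels `v ≠ inl i₀, inr x₀` (`k + k ^ 2 - 2` of them, `ha_big`); for `v = inl i₀` and
`v = inr x₀` (`n + sh v ≡ c'` and `c' + a x₀ ≡ c'`) the nondivisibility holds since `c' A₀` is a nonzero square. The
square condition: `n + h i₀ ≡ c'`.
* `r ∣ D x₀` (unique): `e = v_r (D x₀)`, `n ≡ - sh (inr x₀) + r ^ e mod r ^ (e + 1)`; the other shifts differ from
`sh (inr x₀)` by numbers prime to `r` since all differences of shifts divide `P`, and `r ∤ P`. -/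
theorem local_ok {k : ℕ} (a : Fin k × Fin k → ℕ) (hap : ∀ x, (a x).Prime ∧ a x ≠ 2)
    (ha_inj : Function.Injective a) (ha_mod : ∀ x y, a x ≡ a y [MOD QQ k]) (ha_big : ∀ x, 2 * (k + k ^ 2 - 2) + 1 < a x)
    (P : ℕ) (hP : 0 < P) (hPQ : QQ k ∣ P) (haP : ∀ x, a x ∣ P)
    (sh : VV k → ℕ) (hsh : sh = Sum.elim (fun i : Fin k => (i : ℕ) * QQ k) fun x => (x.1 : ℕ) * QQ k + a x)
    (hdiff : ∀ u v, u ≠ v → ∀ r : ℕ, r.Prime → ((r : ℤ) ∣ (sh u : ℤ) - sh v) → r ∣ P)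
    (D : Fin k × Fin k → ℕ) (A₀ : Fin k × Fin k → ℤ) (hD : ∀ x, 0 < D x ∧ (D x).Coprime (2 * P) ∧ D x % 4 = 1)
    (hA : ∀ x, ¬ (a x : ℤ) ∣ A₀ x)
    (hDD : ∀ x y, x ≠ y → (D x).Coprime (D y)) (E : ℕ) (hE : 3 ≤ E) (hE' : ∀ x, D x < E) (r : ℕ) (hr : r.Prime) :
    ∃ c : ℕ, ∀ n : ℕ, n ≡ c [MOD r ^ E] →
      (∀ i : Fin k, ¬ r ∣ n + sh (Sum.inl i)) ∧
      (∀ x, ∀ e : ℕ, r ^ e ∣ 2 * D x ↔ r ^ e ∣ n + sh (Sum.inr x)) ∧
      (∀ x, r = 2 → (n + sh (Sum.inr x)) % 8 = 2) ∧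
      (∀ x, r = a x → ∃ s : ℤ, ¬ (a x : ℤ) ∣ s ∧ (a x : ℤ) ∣ ((n + sh (Sum.inl x.1) : ℕ) : ℤ) * A₀ x - s ^ 2) := by
  have hshl : ∀ i : Fin k, sh (Sum.inl i) = (i : ℕ) * QQ k := fun i => by rw [hsh]; rfl
  have hshr : ∀ x : Fin k × Fin k, sh (Sum.inr x) = (x.1 : ℕ) * QQ k + a x := fun x => by
    rw [hsh]; rfl
  have h8Q : 8 ∣ QQ k := ⟨_, rfl⟩
  by_cases hr2 : r = 2
  · -- the prime `2`
    subst hr2
    by_cases hne : Nonempty (Fin k × Fin k)
    · obtain ⟨z⟩ := hne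
      have hzodd : a z % 2 = 1 := (hap z).1.eq_two_or_odd.resolve_left (hap z).2
      refine ⟨10 - a z % 8, fun n hn => ?_⟩
      have hn8 : n % 8 = (10 - a z % 8) % 8 :=
        hn.of_dvd (show 8 ∣ 2 ^ E from by
          have : (8 : ℕ) = 2 ^ 3 := by norm_num
          rw [this]
          exact pow_dvd_pow 2 hE)
      have hr8 : ∀ x, (n + sh (Sum.inr x)) % 8 = 2 := by
        intro x
        obtain ⟨u, hu⟩ : 8 ∣ (x.1 : ℕ) * QQ k := h8Q.mul_left _
        have hax : a x % 8 = a z % 8 := (ha_mod x z).of_dvd h8Q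
        rw [hshr, hu]
        omega
      refine ⟨fun i => ?_, fun x e => ?_, fun x _ => hr8 x, fun x hx => ?_⟩
      · obtain ⟨u, hu⟩ : 8 ∣ (i : ℕ) * QQ k := h8Q.mul_left _
        rw [hshl, hu]
        omega
      · have h1 := hr8 x
        have h2 := (hD x).2.2
        exact CRc_two (by omega) (by omega) e
      · exact absurd hx.symm (hap x).2
    · rw [not_nonempty_iff] at hne
      refine ⟨0, fun n _ => ⟨fun i => (hne.false (i, i)).elim, fun x => (hne.false x).elim,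
        fun x => (hne.false x).elim, fun x => (hne.false x).elim⟩⟩
  have hr3 : 3 ≤ r := by
    have := hr.two_le
    omega
  have hr2' : ¬ r ∣ 2 := fun h => by
    have := Nat.le_of_dvd (by norm_num) h
    omega
  by_cases hB : ∃ x₀, r = a x₀
  · -- `r = a x₀`
    obtain ⟨x₀, hx₀⟩ := hB
    have hrP : r ∣ P := hx₀ ▸ haP x₀
    have hrD : ∀ x, ¬ r ∣ 2 * D x := by
      intro x h
      rcases (hr.dvd_mul).1 h with h | h
      · exact hr2' h
      · have h1 : r ∣ Nat.gcd (D x) (2 * P) := Nat.dvd_gcd h (hrP.mul_left 2)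
        rw [(hD x).2.1] at h1
        exact hr.one_lt.ne' (Nat.dvd_one.1 h1)
    obtain ⟨h₀, hh₀⟩ : ∃ h₀ : ℕ, h₀ = sh (Sum.inl x₀.1) := ⟨_, rfl⟩
    have hcard : Fintype.card {v : VV k // v ≠ Sum.inl x₀.1 ∧ v ≠ Sum.inr x₀} = k + k ^ 2 - 2 := by
      classical
      rw [Fintype.card_subtype]
      have h1 : univ.filter (fun v : VV k => v ≠ Sum.inl x₀.1 ∧ v ≠ Sum.inr x₀) =
          univ \ {Sum.inl x₀.1, Sum.inr x₀} := by
        ext v
        simp [not_or]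
      rw [h1, Finset.card_sdiff_of_subset (Finset.subset_univ _), Finset.card_univ,
        Finset.card_pair (by simp)]
      congr 1
      rw [Fintype.card_sum, Fintype.card_prod, Fintype.card_fin, sq]
    obtain ⟨c', hc', t, ht, htc⟩ := avoid_sq
      (fun v : {v : VV k // v ≠ Sum.inl x₀.1 ∧ v ≠ Sum.inr x₀} => sh v.1 + (r - 1) * h₀)
      (a x₀) (hap x₀).1 (hap x₀).2 (A₀ x₀) (hA x₀) (by rw [hcard]; exact ha_big x₀)
    have hc0 : ¬ r ∣ c' := by
      intro h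
      apply ht
      have h1 : (a x₀ : ℤ) ∣ (c' : ℤ) * A₀ x₀ := by
        have : (a x₀ : ℤ) ∣ (c' : ℤ) := by rw [← hx₀]; exact_mod_cast h
        exact this.mul_right _
      have h2 : (a x₀ : ℤ) ∣ t ^ 2 := by
        have := dvd_sub h1 htc
        rwa [sub_sub_cancel] at this
      exact (Nat.prime_iff_prime_int.1 (hap x₀).1).dvd_of_dvd_pow h2
    have hrr : (r - 1) * h₀ + h₀ = r * h₀ := by
      obtain ⟨m, rfl⟩ : ∃ m, r = m + 1 := ⟨r - 1, by omega⟩
      rw [Nat.add_sub_cancel]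
      ring
    have hall : ∀ v, ¬ r ∣ (c' + (r - 1) * h₀) + sh v := by
      intro v
      by_cases h1 : v = Sum.inl x₀.1
      · rw [h1, ← hh₀, add_assoc, hrr]
        intro h
        exact hc0 ((Nat.dvd_add_left (dvd_mul_right r h₀)).1 h)
      · by_cases h2 : v = Sum.inr x₀
        · have h3 : sh v = h₀ + r := by rw [h2, hh₀, hshr, hshl, ← hx₀]
          have h4 : (c' + (r - 1) * h₀) + sh v = c' + r * (h₀ + 1) := by
            rw [h3]
            have : c' + (r - 1) * h₀ + (h₀ + r) = c' + ((r - 1) * h₀ + h₀) + r := by ring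
            rw [this, hrr]
            ring
          rw [h4]
          intro h
          exact hc0 ((Nat.dvd_add_left (dvd_mul_right r _)).1 h)
        · have h3 := hc' ⟨v, h1, h2⟩
          rw [← hx₀] at h3
          have h4 : (c' + (r - 1) * h₀) + sh v = c' + (sh v + (r - 1) * h₀) := by ring
          rw [h4]
          exact h3
    refine ⟨c' + (r - 1) * h₀, fun n hn => ?_⟩
    obtain ⟨g1, g2⟩ := CRc_good sh D E (by omega) r _ n hall hrD hn
    refine ⟨g1, g2, fun x h => absurd h hr2, fun x hx => ?_⟩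
    have hxx : x = x₀ := ha_inj (hx.symm.trans hx₀)
    subst hxx
    refine ⟨t, ht, ?_⟩
    have hn' : n ≡ c' + (r - 1) * h₀ [MOD r] := hn.of_dvd (dvd_pow_self r (by omega))
    have h5 : n + h₀ ≡ c' + (r - 1) * h₀ + h₀ [MOD r] := hn'.add_right h₀
    rw [add_assoc, hrr] at h5
    have h6 : (r : ℤ) ∣ ((c' + r * h₀ : ℕ) : ℤ) - ((n + h₀ : ℕ) : ℤ) := h5.dvd
    have h7 : (a x : ℤ) ∣ ((n + h₀ : ℕ) : ℤ) - c' := by
      rw [← hx]
      have h8 : ((n + h₀ : ℕ) : ℤ) - c' = (r : ℤ) * h₀ -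
          (((c' + r * h₀ : ℕ) : ℤ) - ((n + h₀ : ℕ) : ℤ)) := by
        push_cast
        ring
      rw [h8]
      exact dvd_sub (dvd_mul_right _ _) h6
    rw [← hh₀]
    have h9 : ((n + h₀ : ℕ) : ℤ) * A₀ x - t ^ 2 =
        (((n + h₀ : ℕ) : ℤ) - c') * A₀ x + ((c' : ℤ) * A₀ x - t ^ 2) := by ring
    rw [h9]
    exact dvd_add (h7.mul_right _) htc
  push Not at hB
  by_cases hC : ∃ x₀, r ∣ D x₀
  · -- `r ∣ D x₀`
    obtain ⟨x₀, hx₀⟩ := hC
    have hrP : ¬ r ∣ P := by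
      intro h
      have h1 : r ∣ Nat.gcd (D x₀) (2 * P) := Nat.dvd_gcd hx₀ (h.mul_left 2)
      rw [(hD x₀).2.1] at h1
      exact hr.one_lt.ne' (Nat.dvd_one.1 h1)
    have hother : ∀ x, x ≠ x₀ → ¬ r ∣ 2 * D x := by
      intro x hx h
      rcases (hr.dvd_mul).1 h with h | h
      · exact hr2' h
      · have h1 : r ∣ Nat.gcd (D x) (D x₀) := Nat.dvd_gcd h hx₀
        rw [hDD x x₀ hx] at h1
        exact hr.one_lt.ne' (Nat.dvd_one.1 h1)
    obtain ⟨e₀, he₀⟩ : ∃ e₀, e₀ = (D x₀).factorization r := ⟨_, rfl⟩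
    have hD0 : D x₀ ≠ 0 := (hD x₀).1.ne'
    have hiff : ∀ e, r ^ e ∣ D x₀ ↔ e ≤ e₀ := fun e => by
      rw [he₀]
      exact hr.pow_dvd_iff_le_factorization hD0
    have he1 : 1 ≤ e₀ := (hiff 1).1 (by rwa [pow_one])
    have heE : e₀ + 1 ≤ E := by
      have h1 : r ^ e₀ ≤ D x₀ := Nat.le_of_dvd (hD x₀).1 ((hiff e₀).2 le_rfl)
      have h2 : e₀ < r ^ e₀ := Nat.lt_pow_self hr.one_lt
      have h3 := hE' x₀
      omega
    obtain ⟨S, hS⟩ : ∃ S, S = sh (Sum.inr x₀) := ⟨_, rfl⟩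
    refine ⟨r ^ e₀ + (r ^ (e₀ + 1) - 1) * S, fun n hn => ?_⟩
    have hpos : 0 < r ^ (e₀ + 1) := pow_pos hr.pos _
    have hmod : n + S ≡ r ^ e₀ [MOD r ^ (e₀ + 1)] := by
      have h1 : n ≡ r ^ e₀ + (r ^ (e₀ + 1) - 1) * S [MOD r ^ (e₀ + 1)] :=
        hn.of_dvd (pow_dvd_pow r heE)
      have h2 := h1.add_right S
      have h3 : r ^ e₀ + (r ^ (e₀ + 1) - 1) * S + S = r ^ e₀ + r ^ (e₀ + 1) * S := by
        obtain ⟨m, hm⟩ : ∃ m, r ^ (e₀ + 1) = m + 1 := ⟨r ^ (e₀ + 1) - 1, by omega⟩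
        rw [hm, Nat.add_sub_cancel]
        ring
      rw [h3] at h2
      refine h2.trans ?_
      have h4 : r ^ e₀ + r ^ (e₀ + 1) * S ≡ r ^ e₀ + 0 [MOD r ^ (e₀ + 1)] :=
        Nat.ModEq.add_left _ ((Nat.modEq_zero_iff_dvd).2 (dvd_mul_right _ _))
      rwa [add_zero] at h4
    have hval : ∀ e, r ^ e ∣ n + S ↔ e ≤ e₀ := by
      intro e
      constructor
      · intro h
        by_contra hlt
        rw [not_le] at hlt
        have h1 : r ^ (e₀ + 1) ∣ n + S := (pow_dvd_pow r hlt).trans h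
        have h2 : r ^ (e₀ + 1) ∣ r ^ e₀ := (hmod.dvd_iff dvd_rfl).1 h1
        have h3 := (Nat.pow_dvd_pow_iff_le_right hr.one_lt).1 h2
        omega
      · intro h
        have h1 : r ^ e ∣ r ^ (e₀ + 1) := pow_dvd_pow r (by omega)
        exact (hmod.dvd_iff h1).2 (pow_dvd_pow r h)
    have hrS : r ∣ n + S := by
      have := (hval 1).2 he1
      rwa [pow_one] at this
    have hv : ∀ v, v ≠ Sum.inr x₀ → ¬ r ∣ n + sh v := by
      intro v hv h
      apply hrP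
      refine hdiff v (Sum.inr x₀) hv r hr ?_
      rw [← hS]
      have h1 : (r : ℤ) ∣ ((n + sh v : ℕ) : ℤ) := by exact_mod_cast h
      have h2 : (r : ℤ) ∣ ((n + S : ℕ) : ℤ) := by exact_mod_cast hrS
      have h3 : (sh v : ℤ) - S = ((n + sh v : ℕ) : ℤ) - ((n + S : ℕ) : ℤ) := by
        push_cast
        ring
      rw [h3]
      exact dvd_sub h1 h2
    refine ⟨fun i => hv _ (by simp), fun x e => ?_, fun x h => absurd h hr2,
      fun x h => absurd h (hB x)⟩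
    by_cases hx : x = x₀
    · rw [hx, ← hS, hval, ← hiff]
      constructor
      · intro h
        have h1 : Nat.Coprime (r ^ e) 2 :=
          Nat.Coprime.pow_left e ((Nat.Prime.coprime_iff_not_dvd hr).2 hr2')
        exact h1.dvd_of_dvd_mul_left h
      · intro h
        exact h.mul_left 2
    · exact CRc_triv (hother x hx) (hv _ (fun h => hx (Sum.inr_injective h))) e
  push Not at hC
  have hrD : ∀ x, ¬ r ∣ 2 * D x := by
    intro x h
    rcases (hr.dvd_mul).1 h with h | h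
    · exact hr2' h
    · exact hC x h
  have key : (∃ c, ∀ v, ¬ r ∣ c + sh v) → ∃ c : ℕ, ∀ n : ℕ, n ≡ c [MOD r ^ E] →
      (∀ i : Fin k, ¬ r ∣ n + sh (Sum.inl i)) ∧
      (∀ x, ∀ e : ℕ, r ^ e ∣ 2 * D x ↔ r ^ e ∣ n + sh (Sum.inr x)) ∧
      (∀ x, r = 2 → (n + sh (Sum.inr x)) % 8 = 2) ∧
      (∀ x, r = a x → ∃ s : ℤ, ¬ (a x : ℤ) ∣ s ∧
        (a x : ℤ) ∣ ((n + sh (Sum.inl x.1) : ℕ) : ℤ) * A₀ x - s ^ 2) := by
    rintro ⟨c, hc⟩
    refine ⟨c, fun n hn => ?_⟩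
    obtain ⟨g1, g2⟩ := CRc_good sh D E (by omega) r c n hc hrD hn
    exact ⟨g1, g2, fun x h => absurd h hr2, fun x h => absurd h (hB x)⟩
  apply key
  rcases Nat.lt_or_ge (k + k ^ 2) r with hlt | hge
  · refine avoid sh r ?_
    rw [Fintype.card_sum, Fintype.card_prod, Fintype.card_fin, ← sq]
    exact hlt
  · have hrQ : r ∣ QQ k := (Nat.dvd_factorial hr.pos hge).mul_left 8
    by_cases hne : Nonempty (Fin k × Fin k)
    · obtain ⟨z⟩ := hne
      obtain ⟨c, hc⟩ := avoid (fun b : Bool => if b then a z else 0) r (by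
        rw [Fintype.card_bool]
        omega)
      have hct := hc true
      have hcf := hc false
      rw [if_pos rfl] at hct
      simp only [Bool.false_eq_true, if_false, add_zero] at hcf
      refine ⟨c, fun v => ?_⟩
      rcases v with i | x
      · rw [hshl]
        intro h
        exact hcf ((Nat.dvd_add_left (hrQ.mul_left _)).1 h)
      · rw [hshr]
        intro h
        apply hct
        have h1 : a x ≡ a z [MOD r] := (ha_mod x z).of_dvd hrQ
        have h2 : c + ((x.1 : ℕ) * QQ k + a x) = (x.1 : ℕ) * QQ k + (c + a x) := by ring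
        rw [h2] at h
        have h3 := (Nat.dvd_add_right (hrQ.mul_left _)).1 h
        exact ((h1.add_left c).dvd_iff dvd_rfl).1 h3
    · rw [not_nonempty_iff] at hne
      refine ⟨0, fun v => ?_⟩
      rcases v with i | x
      · exact (hne.false (i, i)).elim
      · exact (hne.false x).elim

end Pool.Agent.Wd33b62
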