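import Pool.Agent.W_d33b62_h36.CRb
import Pool.Agent.W_d33b62_h36.CRc

/-!
# Construction of the data by the Chinese remainder theorem (helper36, MP_d33b62_nt)
-/

set_option autoImplicit false

noncomputable section

open Finset

namespace Pool.Agent.Wd33b62

/-- **The data.**

Proof. `P = QQ k * ∏ a x * ∏ |differences of shifts|` (nonzero: the shifts are pairwise different, `hinj`). `exists_D`,
`E = 3 + ∑ D x`, `D0 = max` of `D1`, `2`, all shifts, all prime divisors of `P` and of the `D x` (e.g. `D0 = D1 + 2 + P + ∑ sh + ∏ D x`),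
`W = ∏_{r ≤ D0 prime} r ^ E`, `b` from `crt_primes` and `local_ok`. The local equivalences `r ^ e ∣ 2 D x ↔ r ^ e ∣ n + sh` for
all primes `r ≤ D0` give `2 D x ∣ n + sh` and that the quotient is prime to `W`. The last claim: if `n ≡ b mod W`, `q = n + h i` is prime
and `M = (n + h i + a x) / (2 D x)` is good, then `q + a x = 2 D x M`, `M` is prime to `D x`, `q ≠ 2` (`q` is prime to `W`, `2 ∣ W`),
and `2 D x M A₀ = (q + a x) A₀ ≡ q A₀ ≡ s ^ 2 mod a x`. -/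
theorem exists_data {S : Set ℕ} (hS : Clos S) {k : ℕ} (a : Fin k × Fin k → ℕ) (haS : ∀ x, a x ∈ S)
    (ha_inj : Function.Injective a) (ha_mod : ∀ x y, a x ≡ a y [MOD QQ k]) (ha_big : ∀ x, 2 * (k + k ^ 2 - 2) + 1 < a x)
    (hinj : Function.Injective (Sum.elim (fun i : Fin k => (i : ℕ) * QQ k) fun x => (x.1 : ℕ) * QQ k + a x : VV k → ℕ))
    (D1 : ℕ) :
    ∃ d : AData k, D1 ≤ d.D0 ∧ (∀ i, d.h i = (i : ℕ) * QQ k) ∧
      ∀ i j n, n ≡ d.b [MOD d.W] → (n + d.h i).Prime → GoodP (d.M i j n) → n + d.h i ∈ S := by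
  classical
  obtain ⟨sh, hsh⟩ : ∃ sh : VV k → ℕ, sh = Sum.elim (fun i : Fin k => (i : ℕ) * QQ k)
    fun x => (x.1 : ℕ) * QQ k + a x := ⟨_, rfl⟩
  have hshinj : Function.Injective sh := by rw [hsh]; exact hinj
  have hap : ∀ x, (a x).Prime ∧ a x ≠ 2 := fun x => hS.1 _ (haS x)
  have hQ0 : 0 < QQ k := by
    unfold QQ
    exact Nat.mul_pos (by norm_num) (Nat.factorial_pos _)
  -- the number `P`
  obtain ⟨F, hF⟩ : ∃ F : Finset (VV k × VV k),
    F = (univ : Finset (VV k × VV k)).filter (fun p => p.1 ≠ p.2) := ⟨_, rfl⟩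
  obtain ⟨P1, hP1⟩ : ∃ P1 : ℕ, P1 = ∏ p ∈ F, ((sh p.1 : ℤ) - sh p.2).natAbs := ⟨_, rfl⟩
  have hP1pos : 0 < P1 := by
    rw [hP1]
    refine Finset.prod_pos fun p hp => ?_
    rw [hF, Finset.mem_filter] at hp
    rw [Int.natAbs_pos, sub_ne_zero]
    intro h
    exact hp.2 (hshinj (by exact_mod_cast h))
  obtain ⟨P, hPdef⟩ : ∃ P : ℕ, P = QQ k * (∏ x, a x) * P1 := ⟨_, rfl⟩
  have hP : 0 < P := by
    rw [hPdef]
    exact Nat.mul_pos (Nat.mul_pos hQ0 (Finset.prod_pos fun x _ => (hap x).1.pos)) hP1pos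
  have hPQ : QQ k ∣ P := by
    rw [hPdef, mul_assoc]
    exact dvd_mul_right _ _
  have haP : ∀ x, a x ∣ P := by
    intro x
    rw [hPdef]
    exact ((Finset.dvd_prod_of_mem a (Finset.mem_univ x)).mul_left (QQ k)).mul_right P1
  have hdiff : ∀ u v, u ≠ v → ∀ r : ℕ, r.Prime → ((r : ℤ) ∣ (sh u : ℤ) - sh v) → r ∣ P := by
    intro u v huv r _ hd
    rw [hPdef]
    refine Dvd.dvd.mul_left ?_ _
    rw [hP1]
    have h1 : r ∣ ((sh u : ℤ) - sh v).natAbs := Int.natCast_dvd.1 hd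
    refine h1.trans ?_
    exact Finset.dvd_prod_of_mem (fun p : VV k × VV k => ((sh p.1 : ℤ) - sh p.2).natAbs)
      (show (u, v) ∈ F by rw [hF, Finset.mem_filter]; exact ⟨Finset.mem_univ _, huv⟩)
  obtain ⟨D, A₀, hD1, hDD, hrep⟩ := exists_D hS a haS P hP haP
  obtain ⟨E, hE⟩ : ∃ E : ℕ, E = 3 + ∑ x, D x := ⟨_, rfl⟩
  have hDsum : ∀ x, D x ≤ ∑ x, D x := fun x =>
    Finset.single_le_sum (f := D) (fun _ _ => Nat.zero_le _) (Finset.mem_univ x)
  have hE3 : 3 ≤ E := by omega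
  have hE' : ∀ x, D x < E := fun x => by
    have := hDsum x
    omega
  obtain ⟨D0, hD0⟩ : ∃ D0 : ℕ, D0 = D1 + 2 + P + ∑ v, sh v + ∑ x, D x := ⟨_, rfl⟩
  have hshD0 : ∀ v, sh v ≤ D0 := by
    intro v
    have := Finset.single_le_sum (f := sh) (fun _ _ => Nat.zero_le _) (Finset.mem_univ v)
    omega
  have hDD0 : ∀ x, D x ≤ D0 := by
    intro x
    have := hDsum x
    omega
  have hPD0 : P ≤ D0 := by omega
  obtain ⟨W, hW⟩ : ∃ W : ℕ, W = ∏ r ∈ (range (D0 + 1)).filter Nat.Prime, r ^ E := ⟨_, rfl⟩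
  have hWpos : 0 < W := by
    rw [hW]
    refine Finset.prod_pos fun r hr => ?_
    exact Nat.pow_pos (Finset.mem_filter.1 hr).2.pos
  have hrW : ∀ r : ℕ, r.Prime → r ≤ D0 → r ^ E ∣ W := by
    intro r hr hrD
    rw [hW]
    exact Finset.dvd_prod_of_mem (fun r => r ^ E) (Finset.mem_filter.2
      ⟨Finset.mem_range.2 (by omega), hr⟩)
  have hWpr : ∀ p : ℕ, p.Prime → (p ∣ W ↔ p ≤ D0) := by
    intro p hp
    constructor
    · intro h
      rw [hW] at h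
      obtain ⟨r, hr, hpr⟩ := (Prime.dvd_finsetProd_iff hp.prime _).1 h
      rw [Finset.mem_filter, Finset.mem_range] at hr
      have h1 : p ∣ r := hp.dvd_of_dvd_pow hpr
      have h2 : p = r := (Nat.prime_dvd_prime_iff_eq hp hr.2).1 h1
      omega
    · intro h
      exact (dvd_pow_self p (by omega)).trans (hrW p hp h)
  -- the residues
  have hloc : ∀ r : ℕ, ∃ c : ℕ, r.Prime → ∀ n : ℕ, n ≡ c [MOD r ^ E] →
      (∀ i : Fin k, ¬ r ∣ n + sh (Sum.inl i)) ∧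
      (∀ x, ∀ e : ℕ, r ^ e ∣ 2 * D x ↔ r ^ e ∣ n + sh (Sum.inr x)) ∧
      (∀ x, r = 2 → (n + sh (Sum.inr x)) % 8 = 2) ∧
      (∀ x, r = a x → ∃ s : ℤ, ¬ (a x : ℤ) ∣ s ∧
        (a x : ℤ) ∣ ((n + sh (Sum.inl x.1) : ℕ) : ℤ) * A₀ x - s ^ 2) := by
    intro r
    by_cases hr : r.Prime
    · obtain ⟨c, hc⟩ := local_ok a hap ha_inj ha_mod ha_big P hP hPQ haP sh hsh hdiff D A₀
        (fun x => ⟨(hD1 x).1, (hD1 x).2.1, (hD1 x).2.2.1⟩) (fun x => (hD1 x).2.2.2) hDD E hE3 hE' r hr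
      exact ⟨c, fun _ => hc⟩
    · exact ⟨0, fun h => absurd h hr⟩
  choose c hc using hloc
  obtain ⟨b, hb⟩ := crt_primes D0 E c
  have hmain : ∀ n : ℕ, n ≡ b [MOD W] → ∀ r : ℕ, r.Prime → r ≤ D0 →
      (∀ i : Fin k, ¬ r ∣ n + sh (Sum.inl i)) ∧
      (∀ x, ∀ e : ℕ, r ^ e ∣ 2 * D x ↔ r ^ e ∣ n + sh (Sum.inr x)) ∧
      (∀ x, r = 2 → (n + sh (Sum.inr x)) % 8 = 2) ∧
      (∀ x, r = a x → ∃ s : ℤ, ¬ (a x : ℤ) ∣ s ∧
        (a x : ℤ) ∣ ((n + sh (Sum.inl x.1) : ℕ) : ℤ) * A₀ x - s ^ 2) := by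
    intro n hn r hr hrD
    exact hc r hr n ((hn.of_dvd (hrW r hr hrD)).trans (hb r hr hrD))
  have hDpos : ∀ x, 0 < D x := fun x => (hD1 x).1
  have hprD : ∀ x, ∀ r : ℕ, r.Prime → r ∣ 2 * D x → r ≤ D0 := by
    intro x r hr h
    rcases (Nat.Prime.dvd_mul hr).1 h with h1 | h1
    · have := Nat.le_of_dvd (by norm_num) h1
      omega
    · exact (Nat.le_of_dvd (hDpos x) h1).trans (hDD0 x)
  have hDW : ∀ x, D x ∣ W := by
    intro x
    rw [Nat.dvd_iff_prime_pow_dvd_dvd]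
    intro r e hr hre
    rcases Nat.eq_zero_or_pos e with h0 | h0
    · rw [h0, pow_zero]
      exact one_dvd _
    · have h1 : r ∣ D x := (dvd_pow_self r (by omega)).trans hre
      have h2 : r ≤ D0 := (Nat.le_of_dvd (hDpos x) h1).trans (hDD0 x)
      have h3 : e < r ^ e := Nat.lt_pow_self hr.one_lt
      have h4 : r ^ e ≤ D x := Nat.le_of_dvd (hDpos x) hre
      have h5 := hE' x
      exact (pow_dvd_pow r (by omega)).trans (hrW r hr h2)
  have hdvd : ∀ x n, n ≡ b [MOD W] → 2 * D x ∣ n + sh (Sum.inr x) := by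
    intro x n hn
    rw [Nat.dvd_iff_prime_pow_dvd_dvd]
    intro r e hr hre
    rcases Nat.eq_zero_or_pos e with h0 | h0
    · rw [h0, pow_zero]
      exact one_dvd _
    · have h1 : r ∣ 2 * D x := (dvd_pow_self r (by omega)).trans hre
      exact ((hmain n hn r hr (hprD x r hr h1)).2.1 x e).1 hre
  have hcopM : ∀ x n, n ≡ b [MOD W] → ((n + sh (Sum.inr x)) / (2 * D x)).Coprime W := by
    intro x n hn
    apply Nat.Coprime.symm
    refine Nat.coprime_of_dvd fun r hr hrW' hrM => ?_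
    have h2 : r ≤ D0 := (hWpr r hr).1 hrW'
    obtain ⟨M, hM⟩ := hdvd x n hn
    have h2D : 0 < 2 * D x := Nat.mul_pos (by norm_num) (hDpos x)
    rw [hM, Nat.mul_div_cancel_left _ h2D] at hrM
    have h3 : r ^ ((2 * D x).factorization r + 1) ∣ n + sh (Sum.inr x) := by
      rw [hM, pow_succ]
      exact mul_dvd_mul (Nat.ordProj_dvd _ _) hrM
    have h4 := ((hmain n hn r hr h2).2.1 x _).2 h3
    exact Nat.pow_succ_factorization_not_dvd h2D.ne' hr h4
  have hmod4 : ∀ x n, n ≡ b [MOD W] → ((n + sh (Sum.inr x)) / (2 * D x)) % 4 = 1 := by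
    intro x n hn
    obtain ⟨M, hM⟩ := hdvd x n hn
    have h2D : 0 < 2 * D x := Nat.mul_pos (by norm_num) (hDpos x)
    have h1 := (hmain n hn 2 Nat.prime_two (by omega)).2.2.1 x rfl
    rw [hM, Nat.mul_div_cancel_left _ h2D]
    rw [hM] at h1
    have h2 := (hD1 x).2.2.1
    obtain ⟨y, hy⟩ : ∃ y, D x = 4 * y + 1 := ⟨D x / 4, by omega⟩
    rw [hy] at h1
    have h3 : 2 * (4 * y + 1) * M = 8 * (y * M) + 2 * M := by ring
    rw [h3] at h1
    omega
  refine ⟨⟨fun i => (i : ℕ) * QQ k, fun i j => a (i, j), fun i j => D (i, j), D0, W, b, by omega,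
    hWpos, hWpr, hinj, ?_, fun i j => hDpos (i, j), fun i j => hDW (i, j), ?_, ?_, ?_, ?_⟩, ?_, ?_, ?_⟩
  · intro v
    have := hshD0 v
    rw [hsh] at this
    exact this
  · intro i
    refine Nat.coprime_of_dvd fun r hr hrb hrW' => ?_
    have h1 := (hmain b (Nat.ModEq.refl b) r hr ((hWpr r hr).1 hrW')).1 i
    rw [hsh] at h1
    exact h1 hrb
  · intro i j n hn
    have h1 := hdvd (i, j) n hn
    rw [hsh] at h1
    exact h1
  · intro i j n hn
    have h1 := hcopM (i, j) n hn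
    rw [hsh] at h1
    exact h1
  · intro i j n hn
    have h1 := hmod4 (i, j) n hn
    rw [hsh] at h1
    exact h1
  · show D1 ≤ D0
    omega
  · intro i
    rfl
  · intro i j n hn hq hgood
    change n ≡ b [MOD W] at hn
    change (n + (i : ℕ) * QQ k).Prime at hq
    change n + (i : ℕ) * QQ k ∈ S
    change GoodP ((n + ((i : ℕ) * QQ k + a (i, j))) / (2 * D (i, j))) at hgood
    obtain ⟨M, hM⟩ := hdvd (i, j) n hn
    have h2D : 0 < 2 * D (i, j) := Nat.mul_pos (by norm_num) (hDpos (i, j))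
    have hcop := hcopM (i, j) n hn
    have hm4 := hmod4 (i, j) n hn
    rw [hM, Nat.mul_div_cancel_left _ h2D] at hcop hm4
    have hMeq : n + ((i : ℕ) * QQ k + a (i, j)) = 2 * D (i, j) * M := by
      rw [← hM, hsh]
      rfl
    rw [hMeq, Nat.mul_div_cancel_left _ h2D] at hgood
    have hax : (a (i, j)).Prime := (hap (i, j)).1
    have haxD0 : a (i, j) ≤ D0 := (Nat.le_of_dvd hP (haP (i, j))).trans hPD0
    obtain ⟨s, hs1, hs2⟩ := (hmain n hn (a (i, j)) hax haxD0).2.2.2 (i, j) rfl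
    have hqsh : n + sh (Sum.inl i) = n + (i : ℕ) * QQ k := by rw [hsh]; rfl
    have hs2' : (a (i, j) : ℤ) ∣ ((n + (i : ℕ) * QQ k : ℕ) : ℤ) * A₀ (i, j) - s ^ 2 := by
      have h1 : ((i, j) : Fin k × Fin k).1 = i := rfl
      rw [h1, hqsh] at hs2
      exact hs2
    have hq2 : n + (i : ℕ) * QQ k ≠ 2 := by
      intro h
      have h1 := (hmain n hn 2 Nat.prime_two (by omega)).1 i
      rw [hqsh, h] at h1
      exact h1 (dvd_refl 2)
    have hqa : n + (i : ℕ) * QQ k + a (i, j) = 2 * D (i, j) * M := by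
      rw [← hMeq]
      ring
    refine hrep (i, j) M (by omega) hgood (Nat.Coprime.coprime_dvd_right (hDW (i, j)) hcop)
      ⟨s, hs1, ?_⟩ _ hq hq2 hqa
    have h3 : (2 * (D (i, j) : ℤ) * M * A₀ (i, j) - s ^ 2) =
        (((n + (i : ℕ) * QQ k : ℕ) : ℤ) * A₀ (i, j) - s ^ 2) + (a (i, j) : ℤ) * A₀ (i, j) := by
      have h4 : (2 * (D (i, j) : ℤ) * M) = ((n + (i : ℕ) * QQ k : ℕ) : ℤ) + (a (i, j) : ℤ) := by
        exact_mod_cast hqa.symm
      rw [h4]
      ring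
    rw [h3]
    exact dvd_add hs2' (dvd_mul_right _ _)

end Pool.Agent.Wd33b62
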