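import Pool.Agent.W_d33b62_h36.AD

/-!
# Construction of the data by the Chinese remainder theorem (helper36, MP_d33b62_nt)
-/

set_option autoImplicit false

noncomputable section

open Finset

namespace Pool.Agent.Wd33b62

theorem CRe_seq {T : Set ℕ} (hT : T.Infinite) (L M : ℕ) :
    ∃ b : ℕ → ℕ, (∀ n, b n ∈ T) ∧ (∀ n, L < b n) ∧ ∀ m n, m < n → b m + M < b n := by
  have h1 : ∀ N : ℕ, ∃ n, n ∈ T ∧ N < n := fun N => by
    obtain ⟨n, hn, hN⟩ := hT.exists_gt N
    exact ⟨n, hn, hN⟩
  choose f hf using h1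
  obtain ⟨b, hb0, hbs⟩ : ∃ b : ℕ → ℕ, b 0 = f L ∧ ∀ n, b (n + 1) = f (b n + M) :=
    ⟨fun n => Nat.rec (f L) (fun _ x => f (x + M)) n, rfl, fun _ => rfl⟩
  have hstep : ∀ n, b n + M < b (n + 1) := fun n => by
    rw [hbs]
    exact (hf _).2
  refine ⟨b, ?_, ?_, ?_⟩
  · intro n
    cases n with
    | zero =>
      rw [hb0]
      exact (hf _).1
    | succ n =>
      rw [hbs]
      exact (hf _).1
  · intro n
    induction n with
    | zero =>
      rw [hb0]
      exact (hf _).2
    | succ n ih =>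
      have := hstep n
      omega
  · intro m n hmn
    induction n with
    | zero => omega
    | succ n ih =>
      have h2 := hstep n
      rcases Nat.lt_succ_iff_lt_or_eq.1 hmn with h | h
      · have := ih h
        omega
      · rw [h]
        exact h2

/-- **Choice of the curvatures.** `S` infinite: some residue class modulo `QQ k` contains infinitely many elements of `S`
(pigeonhole); choose `a x` in it one after the other, larger than twice the previous ones plus `k QQ k` and than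
`2 (k + k ^ 2) + 1`; then the shifts are pairwise different. -/
theorem exists_a {S : Set ℕ} (hS : S.Infinite) (k : ℕ) :
    ∃ a : Fin k × Fin k → ℕ, (∀ x, a x ∈ S) ∧ Function.Injective a ∧ (∀ x y, a x ≡ a y [MOD QQ k]) ∧
      (∀ x, 2 * (k + k ^ 2 - 2) + 1 < a x) ∧
      Function.Injective (Sum.elim (fun i : Fin k => (i : ℕ) * QQ k) fun x => (x.1 : ℕ) * QQ k + a x : VV k → ℕ) := by
  have hQ : 0 < QQ k := Nat.mul_pos (by norm_num) (Nat.factorial_pos _)
  obtain ⟨c, hc⟩ : ∃ c, ({n | n ∈ S ∧ n % QQ k = c} : Set ℕ).Infinite := by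
    by_contra hcon
    push Not at hcon
    apply hS
    have h1 : S ⊆ ⋃ c ∈ Finset.range (QQ k), {n | n ∈ S ∧ n % QQ k = c} := by
      intro n hn
      simp only [Set.mem_iUnion]
      exact ⟨n % QQ k, Finset.mem_range.2 (Nat.mod_lt _ hQ), hn, rfl⟩
    refine Set.Finite.subset (Set.Finite.biUnion (Finset.finite_toSet _) fun c _ => ?_) h1
    exact hcon c
  obtain ⟨b, hb1, hb2, hb3⟩ := CRe_seq hc (k * QQ k + 2 * (k + k ^ 2 - 2) + 1) (k * QQ k)
  obtain ⟨e, he⟩ : ∃ e : Fin k × Fin k → ℕ, Function.Injective e :=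
    ⟨fun x => (finProdFinEquiv x : ℕ), fun x y h => finProdFinEquiv.injective (Fin.ext h)⟩
  have hlt : ∀ x : Fin k × Fin k, (x.1 : ℕ) * QQ k ≤ k * QQ k := fun x =>
    Nat.mul_le_mul_right _ x.1.2.le
  have hbig : ∀ x, k * QQ k < b (e x) := fun x => lt_of_le_of_lt (by omega) (hb2 (e x))
  refine ⟨fun x => b (e x), fun x => (hb1 (e x)).1, ?_, ?_, ?_, ?_⟩
  · intro x y hxy
    have hxy : b (e x) = b (e y) := hxy
    rcases lt_trichotomy (e x) (e y) with h | h | h
    · have := hb3 _ _ h
      omega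
    · exact he h
    · have := hb3 _ _ h
      omega
  · intro x y
    exact (hb1 (e x)).2.trans (hb1 (e y)).2.symm
  · intro x
    have := hb2 (e x)
    show 2 * (k + k ^ 2 - 2) + 1 < b (e x)
    omega
  · rintro (i | x) (j | y) h
    · have h1 : (i : ℕ) * QQ k = (j : ℕ) * QQ k := h
      rw [Fin.ext (Nat.eq_of_mul_eq_mul_right hQ h1)]
    · have h1 : (i : ℕ) * QQ k = (y.1 : ℕ) * QQ k + b (e y) := h
      have h2 := hbig y
      have h3 : (i : ℕ) * QQ k ≤ k * QQ k := Nat.mul_le_mul_right _ i.2.le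
      omega
    · have h1 : (x.1 : ℕ) * QQ k + b (e x) = (j : ℕ) * QQ k := h
      have h2 := hbig x
      have h3 : (j : ℕ) * QQ k ≤ k * QQ k := Nat.mul_le_mul_right _ j.2.le
      omega
    · have h1 : (x.1 : ℕ) * QQ k + b (e x) = (y.1 : ℕ) * QQ k + b (e y) := h
      have h2 := hlt x
      have h3 := hlt y
      rcases lt_trichotomy (e x) (e y) with h | h | h
      · have := hb3 _ _ h
        omega
      · rw [he h]
      · have := hb3 _ _ h
        omega

end Pool.Agent.Wd33b62
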