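import Mathlib

/-!
# Apollonian circle packings and prime components (helper36, MP_d33b62_nt): definitions
-/

set_option autoImplicit false

noncomputable section

open Relation

namespace Pool.Agent.Wd33b62

/-- An oriented circle or line of the plane, given by its normalised equation
`k |z| ^ 2 - 2 (m.re z.re + m.im z.im) + l = 0`, `|m| ^ 2 - k l = 1`. For `k ≠ 0` it is the circle with centre `m / k` and
radius `1 / |k|`; for `k = 0` it is a line (`m` is a unit normal vector). `k` is the signed curvature. -/
structure GC where
  k : ℝ
  m : ℂ
  l : ℝ
  norm : Complex.normSq m - k * l = 1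

/-- The left side of the equation. -/
def GC.val (c : GC) (z : ℂ) : ℝ := c.k * Complex.normSq z - 2 * (c.m.re * z.re + c.m.im * z.im) + c.l

/-- The interior of an oriented circle: the open disc for `k > 0`, the exterior of the closed disc for `k < 0`, an open
half plane for `k = 0`. -/
def GC.int (c : GC) : Set ℂ := {z | c.val z < 0}

/-- The circle as a set of points of the Riemann sphere; a line contains the point at infinity. -/
def GC.circ (c : GC) : Set (OnePoint ℂ) :=
  {P | (∃ z : ℂ, P = (z : OnePoint ℂ) ∧ c.val z = 0) ∨ (P = OnePoint.infty ∧ c.k = 0)}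

/-- Two circles are tangent: they have exactly one common point (in the Riemann sphere). -/
def Tang (c d : GC) : Prop := ∃! P : OnePoint ℂ, P ∈ c.circ ∧ P ∈ d.circ

/-- A Descartes configuration: four mutually tangent circles with disjoint interiors. -/
def IsDescartes (v : Fin 4 → GC) : Prop := ∀ i j, i ≠ j → Tang (v i) (v j) ∧ Disjoint (v i).int (v j).int

/-- One circle of the Descartes configuration `v` is replaced by another circle such that the result is again a Descartes
configuration: the new circle is inscribed in the other gap of the three remaining circles. -/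
def Step (v v' : Fin 4 → GC) : Prop := IsDescartes v' ∧ ∃ i, (∀ j, j ≠ i → v' j = v j) ∧ v' i ≠ v i

/-- The Apollonian packing generated by the Descartes configuration `v`. -/
def packing (v : Fin 4 → GC) : Set GC := {c | ∃ v', ReflTransGen Step v v' ∧ ∃ i, c = v' i}

/-- All curvatures are integers. -/
def IsIntegral (v : Fin 4 → GC) : Prop := ∀ c ∈ packing v, ∃ n : ℤ, c.k = n

/-- The curvatures have greatest common divisor `1`. -/
def IsPrimitive (v : Fin 4 → GC) : Prop := ∀ d : ℕ, (∀ c ∈ packing v, ∃ n : ℤ, c.k = d * n) → d = 1

/-- The curvature is an odd prime. -/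
def OddPrimeCurv (c : GC) : Prop := ∃ p : ℕ, p.Prime ∧ p ≠ 2 ∧ c.k = p

/-- The prime component of `C`: the circles which can be reached from `C` through circles of the packing of odd prime
curvature, consecutive ones being tangent. -/
def component (v : Fin 4 → GC) (C : GC) : Set GC :=
  {c | ReflTransGen (fun a b => b ∈ packing v ∧ OddPrimeCurv b ∧ Tang a b) C c}

/-- The set of the curvatures of the component. -/
def curvs (v : Fin 4 → GC) (C : GC) : Set ℕ := {p | ∃ c ∈ component v C, c.k = p}

/-! ### Auxiliary notions (not used in the statement of the result) -/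

/-- The inversive product. -/
def GC.prod (c d : GC) : ℝ := c.m.re * d.m.re + c.m.im * d.m.im - (c.k * d.l + c.l * d.k) / 2

open Classical in
/-- The coordinates of the second circle tangent to three circles of a Descartes configuration. -/
def swk (v : Fin 4 → GC) (i : Fin 4) : ℝ := 2 * (∑ j, (v j).k) - 3 * (v i).k

def swm (v : Fin 4 → GC) (i : Fin 4) : ℂ := 2 * (∑ j, (v j).m) - 3 * (v i).m

def swl (v : Fin 4 → GC) (i : Fin 4) : ℝ := 2 * (∑ j, (v j).l) - 3 * (v i).l

/-- A Descartes configuration of the packing, in any order. -/
def Quad (v w : Fin 4 → GC) : Prop := ∃ v', ReflTransGen Step v v' ∧ ∃ σ : Equiv.Perm (Fin 4), w = v' ∘ σ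

end Pool.Agent.Wd33b62
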