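import Pool.Agent.W_d33b62_h36.GD

/-!
# Tangency and the inversive product (helper36, MP_d33b62_nt)
-/

set_option autoImplicit false

noncomputable section

open Relation

namespace Pool.Agent.Wd33b62

private theorem GG1_val (c : GC) (x y : ℝ) :
    c.val ⟨x, y⟩ = c.k * (x ^ 2 + y ^ 2) - 2 * (c.m.re * x + c.m.im * y) + c.l := by
  simp only [GC.val, Complex.normSq_mk]
  ring

private theorem GG1_norm (c : GC) : c.m.re ^ 2 + c.m.im ^ 2 - c.k * c.l = 1 := by
  have := c.norm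
  rw [Complex.normSq_apply] at this
  linarith [this, sq c.m.re, sq c.m.im]

private theorem GG1_uniq (c d : GC) (P : OnePoint ℂ) (hP : ∀ Q, (Q ∈ c.circ ∧ Q ∈ d.circ) → Q = P) (x y : ℝ)
    (h1 : c.val ⟨x, y⟩ = 0) (h2 : d.val ⟨x, y⟩ = 0) : ((⟨x, y⟩ : ℂ) : OnePoint ℂ) = P :=
  hP _ ⟨Or.inl ⟨_, rfl, h1⟩, Or.inl ⟨_, rfl, h2⟩⟩

private theorem GG1_disj (c d : GC) (hd : Disjoint c.int d.int) (x y : ℝ) (h1 : c.val ⟨x, y⟩ < 0)
    (h2 : d.val ⟨x, y⟩ < 0) : False :=
  Set.disjoint_left.1 hd (show (⟨x, y⟩ : ℂ) ∈ c.int from h1) (show (⟨x, y⟩ : ℂ) ∈ d.int from h2)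

private theorem GG1_sq0 (x y : ℝ) (h : x ^ 2 + y ^ 2 = 0) : x = 0 ∧ y = 0 := by
  have h1 := sq_nonneg x
  have h2 := sq_nonneg y
  exact ⟨(pow_eq_zero_iff two_ne_zero).1 (by linarith), (pow_eq_zero_iff two_ne_zero).1 (by linarith)⟩

private theorem GG1_inf (c d : GC) (hk : c.k = 0) (hk' : d.k = 0) 
    (hP : ∀ Q, (Q ∈ c.circ ∧ Q ∈ d.circ) → Q = OnePoint.infty) (hd : Disjoint c.int d.int) :
    c.prod d = -1 ∧ 0 ≤ c.l + d.l := by
  have n1 := GG1_norm c
  have n2 := GG1_norm d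
  rw [hk] at n1
  rw [hk'] at n2
  obtain ⟨a, ha⟩ : ∃ a, a = c.m.re := ⟨_, rfl⟩
  obtain ⟨b, hb⟩ : ∃ b, b = c.m.im := ⟨_, rfl⟩
  obtain ⟨a', ha'⟩ : ∃ a, a = d.m.re := ⟨_, rfl⟩
  obtain ⟨b', hb'⟩ : ∃ b, b = d.m.im := ⟨_, rfl⟩
  obtain ⟨l, hl⟩ : ∃ l, l = c.l := ⟨_, rfl⟩
  obtain ⟨l', hl'⟩ : ∃ l, l = d.l := ⟨_, rfl⟩
  have v1 : ∀ x y : ℝ, c.val ⟨x, y⟩ = - 2 * (a * x + b * y) + l := fun x y => by
    rw [GG1_val, hk, ha, hb, hl]; ring
  have v2 : ∀ x y : ℝ, d.val ⟨x, y⟩ = - 2 * (a' * x + b' * y) + l' := fun x y => by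
    rw [GG1_val, hk', ha', hb', hl']; ring
  rw [← ha, ← hb] at n1
  rw [← ha', ← hb'] at n2
  have hD : a * b' - a' * b = 0 := by
    by_contra hD
    obtain ⟨D, hDD⟩ : ∃ D, D = a * b' - a' * b := ⟨_, rfl⟩
    rw [← hDD] at hD
    have hD : D ≠ 0 := hD
    have h := GG1_uniq c d _ hP ((l * b' - l' * b) / (2 * D)) ((a * l' - a' * l) / (2 * D))
      (by rw [v1]; field_simp; rw [hDD]; ring) (by rw [v2]; field_simp; rw [hDD]; ring)
    exact OnePoint.coe_ne_infty _ h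
  have hS : (a * a' + b * b') ^ 2 = 1 := by
    have : (a * a' + b * b') ^ 2 + (a * b' - a' * b) ^ 2 = (a ^ 2 + b ^ 2) * (a' ^ 2 + b' ^ 2) := by ring
    have e1 : a ^ 2 + b ^ 2 = 1 := by linarith
    have e2 : a' ^ 2 + b' ^ 2 = 1 := by linarith
    rw [hD, e1, e2] at this
    linarith
  have hS' : a * a' + b * b' = 1 ∨ a * a' + b * b' = -1 := by
    rcases mul_eq_zero.1 (show (a * a' + b * b' - 1) * (a * a' + b * b' + 1) = 0 by linarith [hS]) with h | h
    · left; linarith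
    · right; linarith
  rcases hS' with hS' | hS'
  · exfalso
    have h0 : (a - a') ^ 2 + (b - b') ^ 2 = 0 := by linear_combination n1 + n2 - 2 * hS'
    have e1 : a' = a := by linarith [(GG1_sq0 _ _ h0).1]
    have e2 : b' = b := by linarith [(GG1_sq0 _ _ h0).2]
    have e3 : a ^ 2 + b ^ 2 = 1 := by linarith
    refine GG1_disj c d hd ((|l| + |l'| + 1) * a) ((|l| + |l'| + 1) * b) ?_ ?_
    · rw [v1]
      have : -2 * (a * ((|l| + |l'| + 1) * a) + b * ((|l| + |l'| + 1) * b)) + l =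
        -2 * (|l| + |l'| + 1) * (a ^ 2 + b ^ 2) + l := by ring
      rw [this, e3]
      have := le_abs_self l
      have := abs_nonneg l
      have := abs_nonneg l'
      linarith
    · rw [v2, e1, e2]
      have : -2 * (a * ((|l| + |l'| + 1) * a) + b * ((|l| + |l'| + 1) * b)) + l' =
        -2 * (|l| + |l'| + 1) * (a ^ 2 + b ^ 2) + l' := by ring
      rw [this, e3]
      have := le_abs_self l'
      have := abs_nonneg l
      have := abs_nonneg l'
      linarith
  · refine ⟨?_, ?_⟩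
    · rw [GC.prod, hk, hk', ← ha, ← hb, ← ha', ← hb', hS']; ring
    · rw [← hl, ← hl']
      by_contra hneg
      have hneg : l + l' < 0 := by linarith [not_le.1 hneg]
      have h0 : (a + a') ^ 2 + (b + b') ^ 2 = 0 := by linear_combination n1 + n2 + 2 * hS'
      have e1 : a' = -a := by linarith [(GG1_sq0 _ _ h0).1]
      have e2 : b' = -b := by linarith [(GG1_sq0 _ _ h0).2]
      have e3 : a ^ 2 + b ^ 2 = 1 := by linarith
      refine GG1_disj c d hd ((l - l') / 4 * a) ((l - l') / 4 * b) ?_ ?_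
      · rw [v1]
        have : -2 * (a * ((l - l') / 4 * a) + b * ((l - l') / 4 * b)) + l =
          -(l - l') / 2 * (a ^ 2 + b ^ 2) + l := by ring
        rw [this, e3]
        linarith
      · rw [v2, e1, e2]
        have : -2 * (-a * ((l - l') / 4 * a) + -b * ((l - l') / 4 * b)) + l' =
          (l - l') / 2 * (a ^ 2 + b ^ 2) + l' := by ring
        rw [this, e3]
        linarith

private theorem GG1_fin (c d : GC) (x₀ y₀ : ℝ) (h1 : c.val ⟨x₀, y₀⟩ = 0) (h2 : d.val ⟨x₀, y₀⟩ = 0)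
    (hP : ∀ Q, (Q ∈ c.circ ∧ Q ∈ d.circ) → Q = ((⟨x₀, y₀⟩ : ℂ) : OnePoint ℂ)) (hd : Disjoint c.int d.int) :
    c.prod d = -1 ∧ 0 ≤ c.k + d.k ∧ 0 ≤ c.l + d.l := by
  have n1 := GG1_norm c
  have n2 := GG1_norm d
  rw [GG1_val] at h1 h2
  have hline : ¬ (c.k = 0 ∧ d.k = 0) := by
    rintro ⟨e1, e2⟩
    have := hP OnePoint.infty ⟨Or.inr ⟨rfl, e1⟩, Or.inr ⟨rfl, e2⟩⟩
    exact OnePoint.coe_ne_infty _ this.symm
  obtain ⟨k, hk⟩ : ∃ k, k = c.k := ⟨_, rfl⟩
  obtain ⟨k', hk'⟩ : ∃ k, k = d.k := ⟨_, rfl⟩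
  obtain ⟨l, hl⟩ : ∃ k, k = c.l := ⟨_, rfl⟩
  obtain ⟨l', hl'⟩ : ∃ k, k = d.l := ⟨_, rfl⟩
  obtain ⟨p, hp⟩ : ∃ p, p = c.m.re - c.k * x₀ := ⟨_, rfl⟩
  obtain ⟨q, hq⟩ : ∃ p, p = c.m.im - c.k * y₀ := ⟨_, rfl⟩
  obtain ⟨p', hp'⟩ : ∃ p, p = d.m.re - d.k * x₀ := ⟨_, rfl⟩
  obtain ⟨q', hq'⟩ : ∃ p, p = d.m.im - d.k * y₀ := ⟨_, rfl⟩
  have ea : c.m.re = p + k * x₀ := by rw [hp, hk]; ring
  have eb : c.m.im = q + k * y₀ := by rw [hq, hk]; ring
  have ea' : d.m.re = p' + k' * x₀ := by rw [hp', hk']; ring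
  have eb' : d.m.im = q' + k' * y₀ := by rw [hq', hk']; ring
  have hpr : c.prod d = c.m.re * d.m.re + c.m.im * d.m.im - (c.k * d.l + c.l * d.k) / 2 := rfl
  rw [← hk, ← hk'] at hline
  have v1 : ∀ s t : ℝ, c.val ⟨x₀ + s, y₀ + t⟩ = k * (s ^ 2 + t ^ 2) - 2 * (p * s + q * t) := fun s t => by
    rw [GG1_val, ea, eb, ← hk]
    rw [ea, eb, ← hk] at h1
    linear_combination h1
  have v2 : ∀ s t : ℝ, d.val ⟨x₀ + s, y₀ + t⟩ = k' * (s ^ 2 + t ^ 2) - 2 * (p' * s + q' * t) := fun s t => by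
    rw [GG1_val, ea', eb', ← hk']
    rw [ea', eb', ← hk'] at h2
    linear_combination h2
  rw [ea, eb, ← hk, ← hl] at h1 n1
  rw [ea', eb', ← hk', ← hl'] at h2 n2
  rw [ea, ea', eb, eb', ← hk, ← hk', ← hl, ← hl'] at hpr
  have m1 : p ^ 2 + q ^ 2 = 1 := by linear_combination n1 + k * h1
  have m2 : p' ^ 2 + q' ^ 2 = 1 := by linear_combination n2 + k' * h2
  have hpr' : c.prod d = p * p' + q * q' := by
    rw [hpr]; linear_combination (-(k' / 2)) * h1 + (-(k / 2)) * h2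
  have hD : p * q' - q * p' = 0 := by
    by_contra hD
    obtain ⟨D, hDD⟩ : ∃ D, D = p * q' - q * p' := ⟨_, rfl⟩
    obtain ⟨s, hs⟩ : ∃ s, s = (k * q' - k' * q) / (2 * D) := ⟨_, rfl⟩
    obtain ⟨t, ht⟩ : ∃ t, t = (p * k' - p' * k) / (2 * D) := ⟨_, rfl⟩
    rw [← hDD] at hD
    have e1 : 2 * (p * s + q * t) = k := by
      rw [hs, ht]; field_simp; rw [hDD]; ring
    have e2 : 2 * (p' * s + q' * t) = k' := by
      rw [hs, ht]; field_simp; rw [hDD]; ring
    have hst : s ^ 2 + t ^ 2 ≠ 0 := by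
      intro h0
      have hs0 : s = 0 := (GG1_sq0 _ _ h0).1
      have ht0 : t = 0 := (GG1_sq0 _ _ h0).2
      rw [hs0, ht0] at e1 e2
      exact hline ⟨by linarith, by linarith⟩
    have h := GG1_uniq c d _ hP (x₀ + s / (s ^ 2 + t ^ 2)) (y₀ + t / (s ^ 2 + t ^ 2))
      (by rw [v1, ← e1]; field_simp; ring) (by rw [v2, ← e2]; field_simp; ring)
    have h' := OnePoint.coe_injective h
    have hr := congrArg Complex.re h'
    have hi := congrArg Complex.im h'
    simp only at hr hi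
    have hs0 : s / (s ^ 2 + t ^ 2) = 0 := by linarith
    have ht0 : t / (s ^ 2 + t ^ 2) = 0 := by linarith
    rw [div_eq_zero_iff] at hs0 ht0
    rcases hs0 with hs0 | hs0
    · rcases ht0 with ht0 | ht0
      · rw [hs0, ht0] at hst; simp at hst
      · exact hst ht0
    · exact hst hs0
  have hS : (p * p' + q * q') ^ 2 = 1 := by
    have : (p * p' + q * q') ^ 2 + (p * q' - q * p') ^ 2 = (p ^ 2 + q ^ 2) * (p' ^ 2 + q' ^ 2) := by ring
    rw [hD, m1, m2] at this
    linarith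
  have hS' : p * p' + q * q' = 1 ∨ p * p' + q * q' = -1 := by
    rcases mul_eq_zero.1 (show (p * p' + q * q' - 1) * (p * p' + q * q' + 1) = 0 by linarith [hS]) with h | h
    · left; linarith
    · right; linarith
  rcases hS' with hS' | hS'
  · exfalso
    have h0 : (p - p') ^ 2 + (q - q') ^ 2 = 0 := by linear_combination m1 + m2 - 2 * hS'
    have e1 : p' = p := by linarith [(GG1_sq0 _ _ h0).1]
    have e2 : q' = q := by linarith [(GG1_sq0 _ _ h0).2]
    obtain ⟨ε, hε⟩ : ∃ ε : ℝ, ε = 1 / (|k| + |k'| + 1) := ⟨_, rfl⟩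
    have hk0 := abs_nonneg k
    have hk0' := abs_nonneg k'
    have hεpos : 0 < ε := by rw [hε]; positivity
    have hε1 : (|k| + |k'| + 1) * ε = 1 := by rw [hε]; field_simp
    have f1 : k * ε ≤ 1 := by
      calc k * ε ≤ (|k| + |k'| + 1) * ε := by
            refine mul_le_mul_of_nonneg_right ?_ hεpos.le
            have := le_abs_self k; linarith
        _ = 1 := hε1
    have f2 : k' * ε ≤ 1 := by
      calc k' * ε ≤ (|k| + |k'| + 1) * ε := by
            refine mul_le_mul_of_nonneg_right ?_ hεpos.le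
            have := le_abs_self k'; linarith
        _ = 1 := hε1
    refine GG1_disj c d hd (x₀ + ε * p) (y₀ + ε * q) ?_ ?_
    · rw [v1]
      have : k * ((ε * p) ^ 2 + (ε * q) ^ 2) - 2 * (p * (ε * p) + q * (ε * q)) =
        ε * (k * ε - 2) * (p ^ 2 + q ^ 2) := by ring
      rw [this, m1, mul_one]
      exact mul_neg_of_pos_of_neg hεpos (by linarith)
    · rw [v2, e1, e2]
      have : k' * ((ε * p) ^ 2 + (ε * q) ^ 2) - 2 * (p * (ε * p) + q * (ε * q)) =
        ε * (k' * ε - 2) * (p ^ 2 + q ^ 2) := by ring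
      rw [this, m1, mul_one]
      exact mul_neg_of_pos_of_neg hεpos (by linarith)
  · have h0 : (p + p') ^ 2 + (q + q') ^ 2 = 0 := by linear_combination m1 + m2 + 2 * hS'
    have e1 : p' = -p := by linarith [(GG1_sq0 _ _ h0).1]
    have e2 : q' = -q := by linarith [(GG1_sq0 _ _ h0).2]
    have hK : 0 ≤ k + k' := by
      by_contra hneg
      have hneg : k + k' < 0 := not_le.1 hneg
      by_cases hkk : k = k'
      · refine GG1_disj c d hd (x₀ + -q) (y₀ + p) ?_ ?_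
        · rw [v1]
          have : k * ((-q) ^ 2 + p ^ 2) - 2 * (p * -q + q * p) = k * (p ^ 2 + q ^ 2) := by ring
          rw [this, m1]; linarith
        · rw [v2, e1, e2]
          have : k' * ((-q) ^ 2 + p ^ 2) - 2 * (-p * -q + -q * p) = k' * (p ^ 2 + q ^ 2) := by ring
          rw [this, m1]; linarith
      · have hne : k - k' ≠ 0 := sub_ne_zero.2 hkk
        obtain ⟨τ, hτ⟩ : ∃ τ : ℝ, τ = 4 / (k - k') := ⟨_, rfl⟩
        have hτ0 : τ ≠ 0 := by rw [hτ]; positivity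
        have hτ1 : (k - k') * τ = 4 := by rw [hτ]; field_simp
        have hτ2 : 0 < τ ^ 2 := by positivity
        refine GG1_disj c d hd (x₀ + τ * p) (y₀ + τ * q) ?_ ?_
        · rw [v1]
          have : k * ((τ * p) ^ 2 + (τ * q) ^ 2) - 2 * (p * (τ * p) + q * (τ * q)) =
            (k * τ ^ 2 - 2 * τ) * (p ^ 2 + q ^ 2) := by ring
          rw [this, m1]
          have : k * τ ^ 2 - 2 * τ = (k + k') / 2 * τ ^ 2 := by linear_combination (τ / 2) * hτ1
          rw [this, mul_one]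
          exact mul_neg_of_neg_of_pos (by linarith) hτ2
        · rw [v2, e1, e2]
          have : k' * ((τ * p) ^ 2 + (τ * q) ^ 2) - 2 * (-p * (τ * p) + -q * (τ * q)) =
            (k' * τ ^ 2 + 2 * τ) * (p ^ 2 + q ^ 2) := by ring
          rw [this, m1]
          have : k' * τ ^ 2 + 2 * τ = (k + k') / 2 * τ ^ 2 := by linear_combination (-(τ / 2)) * hτ1
          rw [this, mul_one]
          exact mul_neg_of_neg_of_pos (by linarith) hτ2
    refine ⟨by rw [hpr', hS'], by rw [← hk, ← hk']; exact hK, ?_⟩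
    rw [← hl, ← hl']
    have : l + l' = (k + k') * (x₀ ^ 2 + y₀ ^ 2) := by
      rw [e1, e2] at h2
      linear_combination h1 + h2
    rw [this]
    positivity

/-- **Tangent circles with disjoint interiors have inversive product `-1` and curvatures with sum `≥ 0`.**

Proof. Let `P` be the common point. If `P = ∞`: both are lines, `val z = -2 m·z + l`; they have no finite common point, so `m' = ± m`
(otherwise solve the linear system); for `m' = m` the two half planes intersect; so `m' = -m`, product `-|m| ^ 2 = -1`, sum of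
the curvatures `0`. If `P = z₀` is finite: `n := m - k z₀` is a unit vector (`|n| ^ 2 = 1 + k val z₀ = 1`),
`val (z₀ + t) = k |t| ^ 2 - 2 n·t`, similarly `n'` for `d`, and `prod c d = n·n'` (expand, using `val z₀ = 0` for both). If `n, n'`
were linearly independent let `s` be the solution of `2 n·s = k`, `2 n'·s = k'`: for `s ≠ 0` the point `z₀ + s / |s| ^ 2` is a
second common point, for `s = 0` both are lines and `∞` is a second common point. So `n' = ± n`. For `n' = n` the point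
`z₀ + ε n`, `ε > 0` small, is in both interiors. So `n' = -n` and `prod c d = -1`. If `k + k' < 0`: put `t = 4 n / (k - k')` for `k ≠ k'`
and `t ⊥ n`, `t ≠ 0` for `k = k'`; then `val = val' = (k + k') |t| ^ 2 / 2 < 0` at `z₀ + t`, contradiction. The sum of the `l`: `|M| ^ 2 = K L`
with `K = k + k'`, `M = m + m'`, `L = l + l'`, so `L ≥ 0` if `K > 0`. If `K = 0` then `M = 0`; for `k ≠ 0` (or a finite common
point) `d.val = -c.val` up to the constant `L`, and a finite common point gives `L = 0` (and then infinitely many common points);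
for two lines `d.val = L - c.val`, and `L < 0` would give intersecting half planes. -/
theorem prod_of_tang (c d : GC) (h : Tang c d) (hd : Disjoint c.int d.int) : c.prod d = -1 ∧ 0 ≤ c.k + d.k ∧
    0 ≤ c.l + d.l := by
  obtain ⟨P, ⟨hPc, hPd⟩, hP⟩ := h
  rcases hPc with ⟨z, rfl, hz⟩ | ⟨rfl, hk⟩
  · rcases hPd with ⟨w, hw, hw'⟩ | ⟨hw, -⟩
    · have := OnePoint.coe_injective hw
      subst this
      exact GG1_fin c d z.re z.im hz hw' hP hd
    · exact absurd hw (OnePoint.coe_ne_infty _)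
  · rcases hPd with ⟨w, hw, -⟩ | ⟨-, hk'⟩
    · exact absurd hw.symm (OnePoint.coe_ne_infty _)
    · obtain ⟨e1, e2⟩ := GG1_inf c d hk hk' hP hd
      exact ⟨e1, by rw [hk, hk']; norm_num, e2⟩

end Pool.Agent.Wd33b62
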