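import Pool.Agent.W_d33b62_h36.HD0

/-!
# The half-dimensional sieve: weights (helper36, MP_d33b62_nt)

Rosser's weights with exponent `1 + θ`. Compare `Pool.Agent.W_b58c63_h68.JLam` (linear sieve); the proofs are the same.
-/

set_option autoImplicit false

noncomputable section

open Finset MeasureTheory

namespace Pool.Agent.Wd33b62

open Pool.Agent.Wb58c63 (VP below VP_expand JLam_expand VP_pos)

theorem abs_lamH_le (θ : ℝ) (b : Bool) (D : ℝ) (L : List ℕ) : |lamH θ b D L| ≤ 1 := by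
  induction L generalizing b D with
  | nil => cases b <;> simp [lamH]
  | cons p L ih =>
    cases b
    · rw [lamH, abs_neg]
      exact ih _ _
    · rw [lamH]
      split_ifs
      · rw [abs_neg]
        exact ih _ _
      · simp

theorem abs_lamHF_le (θ : ℝ) (b : Bool) (D : ℝ) (S : Finset ℕ) : |lamHF θ b D S| ≤ 1 :=
  abs_lamH_le θ b D _

theorem lamHF_empty (θ : ℝ) (b : Bool) (D : ℝ) : lamHF θ b D ∅ = 1 := by
  unfold lamHF
  rw [Finset.sort_empty]
  cases b <;> simp [lamH]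

theorem HD1_insert (θ : ℝ) (b : Bool) (D : ℝ) (p : ℕ) (S : Finset ℕ) (h : ∀ q ∈ S, q < p) :
    lamHF θ b D (insert p S) = lamH θ b D (p :: S.sort (· ≥ ·)) := by
  unfold lamHF
  rw [Finset.sort_insert (· ≥ ·) (fun b hb => (h b hb).le) fun hp => lt_irrefl _ (h p hp)]

theorem HD1_mem {P S : Finset ℕ} {p : ℕ} (hS : S ∈ (P.filter fun q => q < p).powerset) :
    ∀ q ∈ S, q < p := fun _ hq => (Finset.mem_filter.1 (Finset.mem_powerset.1 hS hq)).2

/-- Expansion along the largest element (compare `Wb58c63.GG_false`). -/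
theorem GGh_false (g : ℕ → ℝ) (θ D : ℝ) (P : Finset ℕ) :
    GGh g θ false D P = 1 - ∑ p ∈ P, g p * GGh g θ true (D / p) (P.filter fun q => q < p) := by
  unfold GGh
  rw [JLam_expand, lamHF_empty, Finset.prod_empty, mul_one, sub_eq_add_neg,
    ← Finset.sum_neg_distrib]
  congr 1
  refine Finset.sum_congr rfl fun p hp => ?_
  rw [Finset.mul_sum, ← Finset.sum_neg_distrib]
  refine Finset.sum_congr rfl fun S hS => ?_
  have h1 := HD1_mem hS
  rw [HD1_insert _ _ _ _ _ h1, lamH, Finset.prod_insert fun hp => lt_irrefl _ (h1 p hp)]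
  unfold lamHF
  ring

open Classical in
/-- Compare `Wb58c63.GG_true`. -/
theorem GGh_true (g : ℕ → ℝ) (θ D : ℝ) (P : Finset ℕ) :
    GGh g θ true D P =
      1 - ∑ p ∈ P.filter (fun p : ℕ => (p : ℝ) ^ (2 + θ) < D),
        g p * GGh g θ false (D / p) (P.filter fun q => q < p) := by
  unfold GGh
  rw [JLam_expand, lamHF_empty, Finset.prod_empty, mul_one, sub_eq_add_neg,
    ← Finset.sum_neg_distrib, Finset.sum_filter]
  congr 1
  refine Finset.sum_congr rfl fun p hp => ?_
  split_ifs with hpD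
  · rw [Finset.mul_sum, ← Finset.sum_neg_distrib]
    refine Finset.sum_congr rfl fun S hS => ?_
    have h1 := HD1_mem hS
    rw [HD1_insert _ _ _ _ _ h1, lamH, if_pos hpD,
      Finset.prod_insert fun hp => lt_irrefl _ (h1 p hp)]
    unfold lamHF
    ring
  · refine Finset.sum_eq_zero fun S hS => ?_
    have h1 := HD1_mem hS
    rw [HD1_insert _ _ _ _ _ h1, lamH, if_neg hpD, zero_mul]

open Classical in
/-- Compare `Wb58c63.GG_true_filter` (`2 + θ ≥ 0`). -/
theorem GGh_true_filter (g : ℕ → ℝ) (θ : ℝ) (hθ : 0 ≤ θ) (D : ℝ) (P : Finset ℕ) :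
    GGh g θ true D P = GGh g θ true D (P.filter fun p : ℕ => (p : ℝ) ^ (2 + θ) < D) := by
  rw [GGh_true g θ D P, GGh_true g θ D (P.filter fun p : ℕ => (p : ℝ) ^ (2 + θ) < D),
    Finset.filter_filter]
  congr 1
  simp only [and_self]
  refine Finset.sum_congr rfl fun p hp => ?_
  have hpD := (Finset.mem_filter.1 hp).2
  congr 2
  ext q
  simp only [Finset.mem_filter]
  constructor
  · rintro ⟨h1, h2⟩
    refine ⟨⟨h1, lt_of_le_of_lt ?_ hpD⟩, h2⟩
    have h3 : (q : ℝ) ≤ p := by exact_mod_cast h2.le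
    exact Real.rpow_le_rpow (Nat.cast_nonneg _) h3 (by linarith)
  · rintro ⟨⟨h1, -⟩, h2⟩
    exact ⟨h1, h2⟩

end Pool.Agent.Wd33b62
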