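import Pool.Agent.W_d33b62_h36.HD0

/-!
# The half-dimensional sieve: weights (helper36, MP_d33b62_nt)

Rosser's weights with exponent `1 + θ`. Compare `Pool.Agent.W_b58c63_h68.JLam` (linear sieve); the proofs are the same.
-/

set_option autoImplicit false

noncomputable section

open Finset MeasureTheory

namespace Pool.Agent.Wd33b62

open Pool.Agent.Wb58c63 (VP below VP_expand JLam_expand VP_pos)

/-- Compare `Wb58c63.Reg.sub`. -/
theorem RegH.sub {g : ℕ → ℝ} {P : Finset ℕ} {K u₀ : ℝ} (h : RegH g P K u₀) (hu : 1 < u₀) (hK : 1 ≤ K)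
    (hg : ∀ p ∈ P, 0 ≤ g p ∧ g p < 1) (a : ℝ) (ha : u₀ ≤ a) : RegH g (below P a) K u₀ := by
  intro u z huu huz
  rw [Pool.Agent.Wb58c63.JPS_below_below, Pool.Agent.Wb58c63.JPS_below_below]
  have hV : ∀ x : ℝ, 0 < VP g (below P x) := by
    intro x
    refine Pool.Agent.Wb58c63.JPS_VP_pos fun p hp => hg p ?_
    unfold below at hp
    exact (Finset.mem_filter.1 hp).1
  have hlu : 0 ≤ √(Real.log u) := Real.sqrt_nonneg _
  have hluz : √(Real.log u) ≤ √(Real.log z) := Real.sqrt_le_sqrt (Real.log_le_log (by linarith) huz)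
  rcases le_or_gt z a with hza | hza
  · rw [min_eq_right hza, min_eq_right (huz.trans hza)]
    exact h u z huu huz
  · rw [min_eq_left hza.le]
    have h1 : √(Real.log a) ≤ √(Real.log z) :=
      Real.sqrt_le_sqrt (Real.log_le_log (by linarith) hza.le)
    have h2 := hV a
    rcases le_or_gt u a with hua | hua
    · rw [min_eq_right hua]
      refine (h u a huu hua).trans ?_
      exact mul_le_mul_of_nonneg_left h1 (by positivity)
    · rw [min_eq_left hua.le]
      have h3 : VP g (below P a) * √(Real.log u) ≤ VP g (below P a) * √(Real.log z) :=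
        mul_le_mul_of_nonneg_left hluz h2.le
      have h4 : 0 ≤ VP g (below P a) * √(Real.log z) := mul_nonneg h2.le (Real.sqrt_nonneg _)
      nlinarith

theorem HD3_int (Φ : ℝ → ℝ) (hΦ : AntitoneOn Φ (Set.Ioi 0)) (a b : ℝ) (ha : 1 < a) (hab : a ≤ b)
    (hi : IntegrableOn (fun t => Φ (t - 1) * (1 / (2 * √t))) (Set.Ioi a)) :
    (√b - √a) * Φ (b - 1) + ∫ t in Set.Ioi b, Φ (t - 1) * (1 / (2 * √t)) ≤
      ∫ t in Set.Ioi a, Φ (t - 1) * (1 / (2 * √t)) := by
  have h1 : IntegrableOn (fun t => Φ (t - 1) * (1 / (2 * √t))) (Set.Ioc a b) :=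
    hi.mono_set Set.Ioc_subset_Ioi_self
  rw [← Set.Ioc_union_Ioi_eq_Ioi hab, setIntegral_union Set.Ioc_disjoint_Ioi_same
    measurableSet_Ioi h1 (hi.mono_set (Set.Ioi_subset_Ioi hab))]
  have hcont : ContinuousOn (fun t : ℝ => 1 / (2 * √t)) (Set.Icc a b) := by
    refine ContinuousOn.div continuousOn_const (by fun_prop) fun t ht => ?_
    have : 0 < √t := Real.sqrt_pos.2 (by linarith [ht.1])
    positivity
  have h0 : IntegrableOn (fun t : ℝ => 1 / (2 * √t)) (Set.Ioc a b) :=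
    hcont.integrableOn_Icc.mono_set Set.Ioc_subset_Icc_self
  have h2 : ∫ t in Set.Ioc a b, Φ (b - 1) * (1 / (2 * √t)) ≤
      ∫ t in Set.Ioc a b, Φ (t - 1) * (1 / (2 * √t)) := by
    refine setIntegral_mono_on (h0.const_mul _) h1 measurableSet_Ioc fun t ht => ?_
    refine mul_le_mul_of_nonneg_right ?_ (by positivity)
    exact hΦ (Set.mem_Ioi.2 (by linarith [ht.1])) (Set.mem_Ioi.2 (by linarith [ht.1, ht.2]))
      (by linarith [ht.2])
  have h3 : ∫ t in Set.Ioc a b, Φ (b - 1) * (1 / (2 * √t)) = Φ (b - 1) * (√b - √a) := by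
    rw [integral_const_mul]
    congr 1
    rw [← intervalIntegral.integral_of_le hab]
    refine intervalIntegral.integral_eq_sub_of_hasDerivAt (f := fun t => √t) (fun t ht => ?_) ?_
    · rw [Set.uIcc_of_le hab] at ht
      exact Real.hasDerivAt_sqrt (by linarith [ht.1])
    · rw [intervalIntegrable_iff_integrableOn_Ioc_of_le hab]
      exact h0
  rw [h3] at h2
  linarith

/-- **Partial summation** (compare `Wb58c63.PS`). `s = log D / log z > 1`. With `t_i = log D / log p_i`: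
`V_i ≤ K V √t_i / √s`, `∑_i (√t_i - √t_(i+1)) Φ(t_i - 1) ≤ ∫ Φ(t - 1) d√t`. Use `JPS_core` with `t p := √(log D / log p)`,
`I p := ∫_{t_p}^∞ Φ(t - 1) / (2 √t) dt` and `(√b - √a) Φ(b - 1) ≤ ∫_a^b Φ(t - 1) / (2 √t) dt` for `1 < a ≤ b`. -/
theorem PSH (g : ℕ → ℝ) (P : Finset ℕ) (D z K u₀ : ℝ) (Φ : ℝ → ℝ)
    (hg : ∀ p ∈ P, 0 ≤ g p ∧ g p < 1) (hP : ∀ p ∈ P, u₀ ≤ (p : ℝ) ∧ (p : ℝ) < z) (hu : 1 < u₀)
    (hz : u₀ ≤ z) (hK : 1 ≤ K) (h : RegH g P K u₀)
    (hΦ : AntitoneOn Φ (Set.Ioi 0)) (hΦ0 : ∀ t, 0 ≤ Φ t) (hs : 1 < Real.log D / Real.log z)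
    (hi : IntegrableOn (fun t => Φ (t - 1) * (1 / (2 * √t))) (Set.Ioi (Real.log D / Real.log z))) :
    ∑ p ∈ P, g p * VP g (P.filter fun q => q < p) * Φ (Real.log D / Real.log p - 1) ≤
      VP g P * (K / √(Real.log D / Real.log z) *
        (∫ t in Set.Ioi (Real.log D / Real.log z), Φ (t - 1) * (1 / (2 * √t))) +
          (K - 1) * Φ (Real.log D / Real.log z - 1)) := by
  have hlz : 0 < Real.log z := Real.log_pos (by linarith)
  have hlD : 0 < Real.log D := by
    rw [lt_div_iff₀ hlz] at hs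
    linarith
  set s : ℝ := Real.log D / Real.log z with hsdef
  have hs0 : 0 < s := by positivity
  have hss : 0 < √s := Real.sqrt_pos.2 hs0
  have hVP := VP_pos hg
  have hI0 : ∀ b : ℝ, 0 ≤ ∫ t in Set.Ioi b, Φ (t - 1) * (1 / (2 * √t)) := fun b =>
    setIntegral_nonneg measurableSet_Ioi fun t _ => mul_nonneg (hΦ0 _) (by positivity)
  rcases P.eq_empty_or_nonempty with rfl | hne
  · rw [Finset.sum_empty]
    have h1 := hI0 s
    have h2 := hΦ0 (s - 1)
    have h3 : 0 ≤ K - 1 := by linarith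
    positivity
  have hlp : ∀ p ∈ P, 0 < Real.log p := fun p hp => Real.log_pos (by linarith [(hP p hp).1])
  have htp : ∀ p ∈ P, s ≤ Real.log D / Real.log p := fun p hp => by
    rw [hsdef]
    refine div_le_div_of_nonneg_left hlD.le (hlp p hp) ?_
    exact Real.log_le_log (by linarith [(hP p hp).1]) (hP p hp).2.le
  have hanti : ∀ p ∈ P, ∀ p' ∈ P, p < p' →
      Real.log D / Real.log p' ≤ Real.log D / Real.log p := fun p hp p' hp' hpp => by
    refine div_le_div_of_nonneg_left hlD.le (hlp p hp) ?_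
    refine Real.log_le_log (by linarith [(hP p hp).1]) ?_
    exact_mod_cast hpp.le
  have hbz : below P z = P := by
    unfold below
    exact Finset.filter_true_of_mem fun p hp => (hP p hp).2
  have hbp : ∀ p : ℕ, below P (p : ℝ) = P.filter fun q => q < p := by
    intro p
    unfold below
    ext q
    simp only [Finset.mem_filter, Nat.cast_lt]
  set c : ℝ := K * VP g P / √s with hc
  have hc0 : 0 ≤ c := by positivity
  have h1 : ∀ p ∈ P, VP g (P.filter fun q => q < p) ≤ c * √(Real.log D / Real.log p) := by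
    intro p hp
    have h2 := h p z (hP p hp).1 (hP p hp).2.le
    rw [hbz, hbp] at h2
    have hsp : 0 < √(Real.log p) := Real.sqrt_pos.2 (hlp p hp)
    have hsz : 0 < √(Real.log z) := Real.sqrt_pos.2 hlz
    have hsD : 0 < √(Real.log D) := Real.sqrt_pos.2 hlD
    have h3 : c * √(Real.log D / Real.log p) = K * VP g P * √(Real.log z) / √(Real.log p) := by
      rw [hc, hsdef, Real.sqrt_div hlD.le, Real.sqrt_div hlD.le]
      field_simp
    rw [h3, le_div_iff₀ hsp]
    exact h2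
  have hmem : ∀ p ∈ P, Real.log D / Real.log p - 1 ∈ Set.Ioi (0 : ℝ) := fun p hp =>
    Set.mem_Ioi.2 (by linarith [htp p hp])
  have hcore := Pool.Agent.Wb58c63.JPS_core g (fun p => Φ (Real.log D / Real.log p - 1))
    (fun p => √(Real.log D / Real.log p))
    (fun p => ∫ t in Set.Ioi (Real.log D / Real.log p), Φ (t - 1) * (1 / (2 * √t))) c hc0 P h1
    (fun p hp p' hp' hpp => hΦ (hmem p' hp') (hmem p hp) (by linarith [hanti p hp p' hp' hpp]))
    (fun p => hΦ0 _)
    (fun p hp p' hp' hpp => HD3_int Φ hΦ _ _ (by linarith [htp p' hp']) (hanti p hp p' hp' hpp)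
      (hi.mono_set (Set.Ioi_subset_Ioi (htp p' hp')))) (fun p => hI0 _)
    (P.max' hne) (P.max'_mem hne) fun q hq => P.le_max' q hq
  set m := P.max' hne with hm
  have hmP : m ∈ P := P.max'_mem hne
  have h4 := HD3_int Φ hΦ s _ hs (htp m hmP) hi
  have h5 : Φ (Real.log D / Real.log m - 1) ≤ Φ (s - 1) :=
    hΦ (Set.mem_Ioi.2 (by linarith)) (hmem m hmP) (by linarith [htp m hmP])
  have h6 : c * √s = K * VP g P := by
    rw [hc]
    field_simp
  have h7 := mul_le_mul_of_nonneg_left h4 hc0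
  have h8 : VP g P * (K - 1) * Φ (Real.log D / Real.log m - 1) ≤
      VP g P * (K - 1) * Φ (s - 1) :=
    mul_le_mul_of_nonneg_left h5 (mul_nonneg hVP.le (by linarith))
  have h9 : VP g P * (K / √s * (∫ t in Set.Ioi s, Φ (t - 1) * (1 / (2 * √t))) +
      (K - 1) * Φ (s - 1)) =
      c * (∫ t in Set.Ioi s, Φ (t - 1) * (1 / (2 * √t))) + VP g P * (K - 1) * Φ (s - 1) := by
    rw [hc]
    ring
  rw [h9]
  refine le_trans ?_ (add_le_add h7 h8)
  have h10 : c * ((√(Real.log D / Real.log m) - √s) * Φ (Real.log D / Real.log m - 1) +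
      ∫ t in Set.Ioi (Real.log D / Real.log m), Φ (t - 1) * (1 / (2 * √t))) =
      c * ((∫ t in Set.Ioi (Real.log D / Real.log m), Φ (t - 1) * (1 / (2 * √t))) +
        √(Real.log D / Real.log m) * Φ (Real.log D / Real.log m - 1)) -
        (c * √s) * Φ (Real.log D / Real.log m - 1) := by ring
  rw [h10, h6]
  linarith

end Pool.Agent.Wd33b62
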