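import Pool.Agent.W_d33b62_h36.HD1
import Pool.Agent.W_d33b62_h36.HD3
import Pool.Agent.W_d33b62_h36.HU2
import Pool.Agent.W_d33b62_h36.HU4

/-!
# The half-dimensional sieve: the induction (helper36, MP_d33b62_nt)

Compare `Pool.Agent.W_b58c63_h68.JStA`, `JStB`, `JMain`.
-/

set_option autoImplicit false

noncomputable section

open Finset MeasureTheory

namespace Pool.Agent.Wd33b62

open Pool.Agent.Wb58c63 (VP below VP_expand JLam_expand VP_pos)

variable {u w : ℝ → ℝ} {C : ℝ}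

/-- `hF (s - 1) ≤ (3 / √θ) hf s` for `s ≥ 1 + θ`, `θ ≤ 1 / 10`: with `r = s - 1`: `r ≥ 2`: `(4 / 5) e`; `θ ≤ r ≤ 2`:
`(4 / 5) √2 exp (r - 1) / √r ≤ 3 / √θ`. -/
theorem hF_shift (θ s : ℝ) (hθ : 0 < θ) (hθ1 : θ ≤ 1 / 10) (hs : 1 + θ ≤ s) : hF (s - 1) ≤ 3 / √θ * hf s := by
  have hsθ : 0 < √θ := Real.sqrt_pos.2 hθ
  have h3 : √θ ≤ 1 / 3 := by
    rw [show (1 : ℝ) / 3 = √(1 / 9) by
      rw [show (1 : ℝ) / 9 = (1 / 3) ^ 2 by norm_num, Real.sqrt_sq (by norm_num)]]
    exact Real.sqrt_le_sqrt (by linarith)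
  have h9 : 9 ≤ 3 / √θ := by
    rw [le_div_iff₀ hsθ]
    linarith
  have he1 : Real.exp 1 < 2.72 := Real.exp_one_lt_d9.trans (by norm_num)
  have he0 : 0 < Real.exp 1 := Real.exp_pos 1
  obtain ⟨r, hr⟩ : ∃ r, r = s - 1 := ⟨_, rfl⟩
  have hrθ : θ ≤ r := by linarith
  have hr0 : 0 < r := by linarith
  have hs' : s = r + 1 := by linarith
  have hexp : Real.exp (-s) * Real.exp 1 = Real.exp (-r) := by
    rw [← Real.exp_add]
    congr 1
    linarith
  have hes : 0 < Real.exp (-s) := Real.exp_pos _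
  have hs2 : √2 ≤ 3 / 2 := by
    rw [show (3 : ℝ) / 2 = √(9 / 4) by
      rw [show (9 : ℝ) / 4 = (3 / 2) ^ 2 by norm_num, Real.sqrt_sq (by norm_num)]]
    exact Real.sqrt_le_sqrt (by norm_num)
  rw [← hr]
  unfold hF hf
  rcases le_total 2 r with h2 | h2
  · rw [max_eq_left h2, min_eq_right h2]
    rw [show (2 : ℝ) / 2 = 1 by norm_num, Real.sqrt_one, mul_one, ← hexp]
    nlinarith
  · rw [max_eq_right h2, min_eq_left h2]
    rcases le_total 1 r with h1 | h1
    · have e1 : Real.exp (-2) ≤ Real.exp (-r) := Real.exp_le_exp.2 (by linarith)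
      have e2 : √(2 / r) ≤ 3 / 2 := by
        refine le_trans (Real.sqrt_le_sqrt ?_) hs2
        exact div_le_self (by norm_num) h1
      calc 4 / 5 * Real.exp (-2) * √(2 / r) ≤ 4 / 5 * Real.exp (-r) * (3 / 2) :=
            mul_le_mul (mul_le_mul_of_nonneg_left e1 (by norm_num)) e2 (Real.sqrt_nonneg _)
              (by positivity)
        _ = (6 / 5 * Real.exp 1) * Real.exp (-s) := by
            rw [← hexp]
            ring
        _ ≤ 3 / √θ * Real.exp (-s) :=
            mul_le_mul_of_nonneg_right (by linarith) hes.le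
    · have e1 : Real.exp (-2) ≤ Real.exp (-s) := Real.exp_le_exp.2 (by linarith)
      have e2 : √(2 / r) ≤ √2 / √θ := by
        rw [← Real.sqrt_div (by norm_num)]
        exact Real.sqrt_le_sqrt (div_le_div_of_nonneg_left (by norm_num) hθ hrθ)
      have e3 : √2 / √θ ≤ 3 / 2 / √θ := div_le_div_of_nonneg_right hs2 hsθ.le
      calc 4 / 5 * Real.exp (-2) * √(2 / r) ≤ 4 / 5 * Real.exp (-s) * (3 / 2 / √θ) :=
            mul_le_mul (mul_le_mul_of_nonneg_left e1 (by norm_num)) (e2.trans e3)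
              (Real.sqrt_nonneg _) (by positivity)
        _ = 2 / 5 * (3 / √θ * Real.exp (-s)) := by ring
        _ ≤ 3 / √θ * Real.exp (-s) := by
            have : 0 ≤ 3 / √θ * Real.exp (-s) := by positivity
            linarith

/-- **Lower bound sieve, one step.** `s = log D / log z ≥ 1 + θ`, `Φ = u + e hF`.

Proof. `GGh_false`, the hypothesis and `VP_expand`: `GGh false D P ≥ VP g P - ∑ g(p) V(p) Φ(log D / log p - 1)`. `PSH`:
the sum is at most `VP g P (K (w s + (9 / 10) e hf s) + (K - 1) Φ(s - 1))` (`w_eq`, `hF_super`). `Φ(s - 1) ≤ (C + 1) hF(s - 1)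
≤ (C + 1) (3 / √θ) hf s` (`hF_shift`), `w s ≤ C hf s`, and
`(K - 1) (C + 9 / 10 e + 3 (C + 1) / √θ) ≤ 5 (K - 1) (C + 1) / √θ ≤ e / 10` by `hK`. -/
theorem H_false_step (h : UWH u w C) (θ e K : ℝ) (hθ : 0 < θ) (hθ1 : θ ≤ 1 / 100) (he : 0 < e) (he1 : e ≤ 1)
    (hK1 : 1 ≤ K) (hK : 50 * (K - 1) * (C + 1) ≤ e * √θ)
    (g : ℕ → ℝ) (P : Finset ℕ) (u₀ z D : ℝ) (hu : 2 ≤ u₀) (hz : u₀ ≤ z)
    (hg : ∀ p ∈ P, 0 ≤ g p ∧ g p < 1) (hP : ∀ p ∈ P, u₀ ≤ (p : ℝ) ∧ (p : ℝ) < z) (hR : RegH g P K u₀)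
    (hs : 1 + θ ≤ Real.log D / Real.log z)
    (hind : ∀ p ∈ P, GGh g θ true (D / p) (P.filter fun q => q < p) ≤ VP g (P.filter fun q => q < p) *
      (1 + u (Real.log D / Real.log p - 1) + e * hF (Real.log D / Real.log p - 1))) :
    VP g P * (1 - w (Real.log D / Real.log z) - e * hf (Real.log D / Real.log z)) ≤ GGh g θ false D P := by
  have hlz : 0 < Real.log z := Real.log_pos (by linarith)
  obtain ⟨s, hsdef⟩ : ∃ s, s = Real.log D / Real.log z := ⟨_, rfl⟩
  have hC := h.C_pos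
  have hsθ : 0 < √θ := Real.sqrt_pos.2 hθ
  have hsθ1 : √θ ≤ 1 := Real.sqrt_le_one.2 (by linarith)
  have hV : 0 ≤ VP g P := (VP_pos hg).le
  have hF0 : ∀ t, 0 ≤ hF t := fun t => by
    unfold hF
    positivity
  have hs1 : 1 + θ ≤ s := by rw [hsdef]; exact hs
  have hs0 : 0 < √s := Real.sqrt_pos.2 (by linarith)
  have hanti : AntitoneOn (fun t => u t + e * hF t) (Set.Ioi 0) := by
    intro a ha b hb hab
    exact add_le_add (h.u_anti ha hb hab) (mul_le_mul_of_nonneg_left (hF_anti ha hb hab) he.le)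
  have hint : IntegrableOn (fun t => (u (t - 1) + e * hF (t - 1)) * (1 / (2 * √t))) (Set.Ioi s) := by
    have h1 := (h.u_int s (by linarith)).add ((hF_int s (by linarith)).const_mul e)
    refine h1.congr_fun (fun t _ => ?_) measurableSet_Ioi
    simp only [Pi.add_apply]
    ring
  have hB := PSH g P D z K u₀ (fun t => u t + e * hF t) hg hP (by linarith) hz hK1 hR hanti
    (fun t => add_nonneg (h.u_nonneg t) (mul_nonneg he.le (hF0 t))) (by rw [← hsdef]; linarith)
    (by rw [← hsdef]; exact hint)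
  simp only [← hsdef] at hB
  have hI : ∫ t in Set.Ioi s, (u (t - 1) + e * hF (t - 1)) * (1 / (2 * √t)) ≤
      √s * (w s + 9 / 10 * e * hf s) := by
    have h1 : ∫ t in Set.Ioi s, (u (t - 1) + e * hF (t - 1)) * (1 / (2 * √t)) =
        (∫ t in Set.Ioi s, u (t - 1) * (1 / (2 * √t))) +
          e * ∫ t in Set.Ioi s, hF (t - 1) * (1 / (2 * √t)) := by
      rw [← integral_const_mul, ← integral_add (h.u_int s (by linarith))
        ((hF_int s (by linarith)).const_mul e)]
      refine setIntegral_congr_fun measurableSet_Ioi fun t _ => ?_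
      ring
    rw [h1, ← h.w_eq s (by linarith)]
    have h2 := mul_le_mul_of_nonneg_left (hF_super s (by linarith)) he.le
    calc √s * w s + e * ∫ t in Set.Ioi s, hF (t - 1) * (1 / (2 * √t)) ≤
          √s * w s + e * (9 / 10 * (√s * hf s)) := by linarith
      _ = √s * (w s + 9 / 10 * e * hf s) := by ring
  have hfs : 0 < hf s := hf_pos s
  have hA1 : K / √s * ∫ t in Set.Ioi s, (u (t - 1) + e * hF (t - 1)) * (1 / (2 * √t)) ≤
      K * (w s + 9 / 10 * e * hf s) := by
    calc K / √s * ∫ t in Set.Ioi s, (u (t - 1) + e * hF (t - 1)) * (1 / (2 * √t)) ≤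
          K / √s * (√s * (w s + 9 / 10 * e * hf s)) :=
          mul_le_mul_of_nonneg_left hI (by positivity)
      _ = K * (w s + 9 / 10 * e * hf s) := by field_simp
  have hshift := hF_shift θ s hθ (by linarith) hs1
  have hA2 : u (s - 1) + e * hF (s - 1) ≤ (C + 1) * (3 / √θ * hf s) := by
    have h1 := h.u_le (s - 1) (by linarith)
    have h2 : e * hF (s - 1) ≤ 1 * hF (s - 1) := mul_le_mul_of_nonneg_right he1 (hF0 _)
    calc u (s - 1) + e * hF (s - 1) ≤ (C + 1) * hF (s - 1) := by linarith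
      _ ≤ (C + 1) * (3 / √θ * hf s) := mul_le_mul_of_nonneg_left hshift (by linarith)
  have hK0 : 0 ≤ K - 1 := by linarith
  have hKq : (K - 1) * ((C + 1) / √θ) ≤ e / 50 := by
    rw [← mul_div_assoc, div_le_iff₀ hsθ]
    linarith
  have hCq : C + 1 ≤ (C + 1) / √θ := by
    rw [le_div_iff₀ hsθ]
    nlinarith
  have hA3 : K * (w s + 9 / 10 * e * hf s) + (K - 1) * (u (s - 1) + e * hF (s - 1)) ≤
      w s + e * hf s := by
    have h1 : (K - 1) * (u (s - 1) + e * hF (s - 1)) ≤ (K - 1) * ((C + 1) * (3 / √θ * hf s)) :=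
      mul_le_mul_of_nonneg_left hA2 hK0
    have h2 : (K - 1) * w s ≤ (K - 1) * (C * hf s) :=
      mul_le_mul_of_nonneg_left (h.w_le s (by linarith)) hK0
    have h3 : (K - 1) * (9 / 10 * e * hf s) ≤ (K - 1) * (1 * hf s) :=
      mul_le_mul_of_nonneg_left (mul_le_mul_of_nonneg_right (by linarith) hfs.le) hK0
    have h4 : (K - 1) * ((C + 1) * hf s) ≤ (K - 1) * ((C + 1) / √θ * hf s) :=
      mul_le_mul_of_nonneg_left (mul_le_mul_of_nonneg_right hCq hfs.le) hK0
    have h5 : (K - 1) * ((C + 1) / √θ) * hf s ≤ e / 50 * hf s :=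
      mul_le_mul_of_nonneg_right hKq hfs.le
    have h6 : (K - 1) * ((C + 1) * (3 / √θ * hf s)) = 3 * ((K - 1) * ((C + 1) / √θ) * hf s) := by
      ring
    have h7 : 0 ≤ e * hf s := by positivity
    nlinarith
  have h1 : ∑ p ∈ P, g p * GGh g θ true (D / p) (P.filter fun q => q < p) ≤
      ∑ p ∈ P, (g p * VP g (P.filter fun q => q < p) + g p * VP g (P.filter fun q => q < p) *
        (u (Real.log D / Real.log p - 1) + e * hF (Real.log D / Real.log p - 1))) := by
    refine Finset.sum_le_sum (fun p hp => ?_)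
    calc g p * GGh g θ true (D / p) (P.filter fun q => q < p) ≤
          g p * (VP g (P.filter fun q => q < p) *
          (1 + u (Real.log D / Real.log p - 1) + e * hF (Real.log D / Real.log p - 1))) :=
          mul_le_mul_of_nonneg_left (hind p hp) (hg p hp).1
      _ = _ := by ring
  rw [Finset.sum_add_distrib] at h1
  have h2 := VP_expand g P
  have h3 : VP g P * (K / √s * (∫ t in Set.Ioi s, (u (t - 1) + e * hF (t - 1)) * (1 / (2 * √t))) +
      (K - 1) * (u (s - 1) + e * hF (s - 1))) ≤ VP g P * (w s + e * hf s) :=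
    mul_le_mul_of_nonneg_left (by linarith) hV
  rw [GGh_false, ← hsdef]
  have h4 : VP g P * (1 - w s - e * hf s) = VP g P - VP g P * (w s + e * hf s) := by ring
  rw [h4]
  linarith

end Pool.Agent.Wd33b62
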