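import Pool.Agent.W_d33b62_h36.HD1
import Pool.Agent.W_d33b62_h36.HD3
import Pool.Agent.W_d33b62_h36.HU2
import Pool.Agent.W_d33b62_h36.HU4

/-!
# The half-dimensional sieve: the induction (helper36, MP_d33b62_nt)

Compare `Pool.Agent.W_b58c63_h68.JStA`, `JStB`, `JMain`.
-/

set_option autoImplicit false

noncomputable section

open Finset MeasureTheory

namespace Pool.Agent.Wd33b62

open Pool.Agent.Wb58c63 (VP below VP_expand JLam_expand VP_pos)

variable {u w : ℝ → ℝ} {C : ℝ}

/-- **Upper bound sieve, one step, middle form, `s = log D / log z ≥ 2 + θ`.** All `p ∈ P` satisfy `p ^ (2 + θ) < D`. -/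
theorem H_true_mid (h : UWH u w C) (θ e K : ℝ) (hθ : 0 < θ) (hθ1 : θ ≤ 1 / 100) (he : 0 < e) (he1 : e ≤ 1)
    (hK1 : 1 ≤ K)
    (g : ℕ → ℝ) (P : Finset ℕ) (u₀ z D : ℝ) (hu : 2 ≤ u₀) (hz : u₀ ≤ z) (hD : 1 < D)
    (hg : ∀ p ∈ P, 0 ≤ g p ∧ g p < 1) (hP : ∀ p ∈ P, u₀ ≤ (p : ℝ) ∧ (p : ℝ) < z) (hR : RegH g P K u₀)
    (hs : 2 + θ ≤ Real.log D / Real.log z)
    (hind : ∀ p ∈ P, VP g (P.filter fun q => q < p) *
      (1 - w (Real.log D / Real.log p - 1) - e * hf (Real.log D / Real.log p - 1)) ≤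
        GGh g θ false (D / p) (P.filter fun q => q < p)) :
    GGh g θ true D P ≤ VP g P * (1 + K / √(Real.log D / Real.log z) *
      (∫ t in Set.Ioi (Real.log D / Real.log z), (w (t - 1) + e * hf (t - 1)) * (1 / (2 * √t))) +
        (K - 1) * (w (Real.log D / Real.log z - 1) + e * hf (Real.log D / Real.log z - 1))) := by
  have hz0 : 0 < z := by linarith
  have hlz : 0 < Real.log z := Real.log_pos (by linarith)
  have hs2 : 2 ≤ Real.log D / Real.log z := by linarith
  have hint : IntegrableOn (fun t => (w (t - 1) + e * hf (t - 1)) * (1 / (2 * √t)))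
      (Set.Ioi (Real.log D / Real.log z)) := by
    have h1 := (h.w_int _ hs2).add ((hf_int _ (by linarith)).const_mul e)
    refine h1.congr (Filter.Eventually.of_forall fun t => ?_)
    simp only [Pi.add_apply]
    ring
  have hB := PSH g P D z K u₀ (fun t => w t + e * hf t) hg hP (by linarith) hz hK1 hR
    (fun x _ y _ hxy => add_le_add (h.w_anti hxy) (mul_le_mul_of_nonneg_left
      (Real.exp_le_exp.2 (neg_le_neg hxy)) he.le))
    (fun t => add_nonneg (h.w_nonneg t) (mul_nonneg he.le (hf_pos t).le)) (by linarith) hint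
  have hzD : z ^ (2 + θ) ≤ D := by
    have h1 : Real.log (z ^ (2 + θ)) ≤ Real.log D := by
      rw [Real.log_rpow hz0]
      rwa [le_div_iff₀ hlz] at hs
    exact (Real.log_le_log_iff (by positivity) (by linarith)).1 h1
  have h1 : ∑ p ∈ P, (g p * VP g (P.filter fun q => q < p) - g p * VP g (P.filter fun q => q < p) *
        (w (Real.log D / Real.log p - 1) + e * hf (Real.log D / Real.log p - 1))) ≤
      ∑ p ∈ P, g p * GGh g θ false (D / p) (P.filter fun q => q < p) := by
    refine Finset.sum_le_sum (fun p hp => ?_)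
    calc _ = g p * (VP g (P.filter fun q => q < p) *
          (1 - w (Real.log D / Real.log p - 1) - e * hf (Real.log D / Real.log p - 1))) := by
          ring
      _ ≤ _ := mul_le_mul_of_nonneg_left (hind p hp) (hg p hp).1
  rw [Finset.sum_sub_distrib] at h1
  have h2 := VP_expand g P
  rw [GGh_true, Finset.filter_true_of_mem]
  · have h4 : ∀ x y : ℝ, VP g P * (1 + x + y) = VP g P + VP g P * (x + y) := fun x y => by ring
    rw [h4]
    linarith
  · intro p hp
    have hp1 : (p : ℝ) < z := (hP p hp).2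
    have hp0 : (0 : ℝ) ≤ p := Nat.cast_nonneg p
    exact lt_of_lt_of_le (Real.rpow_lt_rpow hp0 hp1 (by linarith)) hzD

/-- The middle form is at most `1 + u s + e hF s` for `s ≥ 2 + θ` (`u_eq`, `hf_super`,
`hf (s - 1) = e ^ (1 - s) ≤ 3.4 hF s`, `hK`). -/
theorem H_true_const_big (h : UWH u w C) (θ e K : ℝ) (hθ : 0 < θ) (hθ1 : θ ≤ 1 / 100) (he : 0 < e) (he1 : e ≤ 1)
    (hK1 : 1 ≤ K) (hK : 50 * (K - 1) * (C + 1) ≤ e * √θ) (s : ℝ) (hs : 2 + θ ≤ s) :
    1 + K / √s * (∫ t in Set.Ioi s, (w (t - 1) + e * hf (t - 1)) * (1 / (2 * √t))) +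
        (K - 1) * (w (s - 1) + e * hf (s - 1)) ≤ 1 + u s + e * hF s := by
  have hC := h.C_pos
  have hs2 : 2 ≤ s := by linarith
  have hs0 : 0 < s := by linarith
  have hr : 0 < √s := Real.sqrt_pos.2 hs0
  have hint : ∫ t in Set.Ioi s, (w (t - 1) + e * hf (t - 1)) * (1 / (2 * √t)) =
      (∫ t in Set.Ioi s, w (t - 1) * (1 / (2 * √t))) +
        e * ∫ t in Set.Ioi s, hf (t - 1) * (1 / (2 * √t)) := by
    rw [← integral_const_mul, ← integral_add (h.w_int s hs2)
      ((hf_int s (by linarith)).const_mul e)]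
    apply integral_congr_ae
    exact Filter.Eventually.of_forall fun t => by simp only; ring
  have hueq : √s * u s = ∫ t in Set.Ioi s, w (t - 1) * (1 / (2 * √t)) := by
    have e1 := h.u_eq s hs0
    have h3 : max (√2 - √s) 0 = 0 := by
      apply max_eq_right
      have := Real.sqrt_le_sqrt hs2
      linarith
    have h4 : max s 2 = s := max_eq_left hs2
    rw [h3, h4, zero_add] at e1
    exact e1
  have hH := hf_super s hs2
  have hFv : hF s = 4 / 5 * Real.exp (-s) := by
    unfold hF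
    rw [max_eq_left hs2, min_eq_right hs2]
    norm_num
  have hshift : hf (s - 1) ≤ 34 / 10 * hF s := by
    rw [hFv]
    unfold hf
    have h1 : Real.exp (-(s - 1)) = Real.exp 1 * Real.exp (-s) := by
      rw [← Real.exp_add]
      congr 1
      ring
    rw [h1]
    have h2 := Real.exp_one_lt_d9
    have h3 := Real.exp_pos (-s)
    nlinarith
  have hF0 : 0 < hF s := hF_pos s hs0
  have hw1 : w (s - 1) ≤ C * hf (s - 1) := h.w_le _ (by linarith)
  have hu1 : u s ≤ C * hF s := h.u_le s hs0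
  have hfpos := hf_pos (s - 1)
  have hlast : w (s - 1) + e * hf (s - 1) ≤ 34 / 10 * ((C + 1) * hF s) := by
    have h1 : w (s - 1) + e * hf (s - 1) ≤ (C + 1) * hf (s - 1) := by nlinarith
    refine h1.trans ?_
    have := mul_le_mul_of_nonneg_left hshift (show 0 ≤ C + 1 by linarith)
    linarith
  have hK0 : 0 ≤ K - 1 := by linarith
  have h500 : 500 * ((K - 1) * (C + 1)) ≤ e := by
    have h1 : √θ ≤ 1 / 10 := by
      rw [Real.sqrt_le_left (by norm_num)]
      norm_num
      linarith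
    have : e * √θ ≤ e * (1 / 10) := mul_le_mul_of_nonneg_left h1 he.le
    nlinarith
  rw [hint, ← hueq]
  have e1 : K / √s * (√s * u s + e * ∫ t in Set.Ioi s, hf (t - 1) * (1 / (2 * √t))) ≤
      K * u s + K * (9 / 10 * (e * hF s)) := by
    have h1 : e * ∫ t in Set.Ioi s, hf (t - 1) * (1 / (2 * √t)) ≤ e * (9 / 10 * (√s * hF s)) :=
      mul_le_mul_of_nonneg_left hH he.le
    calc K / √s * (√s * u s + e * ∫ t in Set.Ioi s, hf (t - 1) * (1 / (2 * √t))) ≤
          K / √s * (√s * u s + e * (9 / 10 * (√s * hF s))) :=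
          mul_le_mul_of_nonneg_left (by linarith) (by positivity)
      _ = K * u s + K * (9 / 10 * (e * hF s)) := by
          field_simp
  have e2 : (K - 1) * (w (s - 1) + e * hf (s - 1)) ≤ 34 / 10 * ((K - 1) * (C + 1)) * hF s := by
    have := mul_le_mul_of_nonneg_left hlast hK0
    linarith
  have e3 : (K - 1) * u s ≤ (K - 1) * (C + 1) * hF s := by
    have h1 := mul_le_mul_of_nonneg_left hu1 hK0
    have h2 : 0 ≤ (K - 1) * hF s := mul_nonneg hK0 hF0.le
    nlinarith
  have e4 : 500 * ((K - 1) * (C + 1)) * hF s ≤ e * hF s := mul_le_mul_of_nonneg_right h500 hF0.le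
  have e5 : (K - 1) * (e * hF s) ≤ (K - 1) * (C + 1) * hF s := by
    have h1 : (K - 1) * (e * hF s) ≤ (K - 1) * (1 * hF s) :=
      mul_le_mul_of_nonneg_left (mul_le_mul_of_nonneg_right he1 hF0.le) hK0
    have h2 : 0 ≤ (K - 1) * C * hF s := by positivity
    nlinarith
  have e6 : 0 ≤ e * hF s := by positivity
  nlinarith

end Pool.Agent.Wd33b62
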