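import Mathlib

/-!
# The functions of the half-dimensional sieve (helper36, MP_d33b62_nt)

`u = F - 1`, `w = 1 - f` in the usual notation (dimension `1 / 2`, sieving limit `1`).
-/

set_option autoImplicit false

noncomputable section

open MeasureTheory

namespace Pool.Agent.Wd33b62

variable {u w : ℝ → ℝ} {C : ℝ}

/-- The majorant for the lower bound sieve. -/
def hf (s : ℝ) : ℝ := Real.exp (-s)

/-- The majorant for the upper bound sieve: `(4 / 5) exp (-s)` for `s ≥ 2`, `(4 / 5) exp (-2) √(2 / s)` for `0 < s ≤ 2`. -/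
def hF (s : ℝ) : ℝ := 4 / 5 * Real.exp (-max s 2) * √(2 / min s 2)

theorem hf_pos (s : ℝ) : 0 < hf s := Real.exp_pos _

/-- The integral equations of the half-dimensional sieve. -/
structure UWH (u w : ℝ → ℝ) (C : ℝ) : Prop where
  C_pos : 0 < C
  u_meas : Measurable u
  u_anti : AntitoneOn u (Set.Ioi 0)
  w_anti : Antitone w
  u_nonneg : ∀ s, 0 ≤ u s
  w_nonneg : ∀ s, 0 ≤ w s
  u_le : ∀ s, 0 < s → u s ≤ C * hF s
  w_le : ∀ s, 1 ≤ s → w s ≤ C * hf s
  w_eq : ∀ s, 1 ≤ s → √s * w s = ∫ t in Set.Ioi s, u (t - 1) * (1 / (2 * √t))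
  u_eq : ∀ s, 0 < s → √s * u s = max (√2 - √s) 0 + ∫ t in Set.Ioi (max s 2), w (t - 1) * (1 / (2 * √t))

end Pool.Agent.Wd33b62
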