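import Pool.Agent.W_d33b62_h36.HU0

/-!
# The functions of the half-dimensional sieve (helper36, MP_d33b62_nt)

`u = F - 1`, `w = 1 - f` in the usual notation (dimension `1 / 2`, sieving limit `1`).
-/

set_option autoImplicit false

noncomputable section

open MeasureTheory

namespace Pool.Agent.Wd33b62

variable {u w : ℝ → ℝ} {C : ℝ}

theorem HU1_shift (a : ℝ) (ha : 0 < a) :
    IntegrableOn (fun t : ℝ => Real.exp (-(t - 1)) * (t - 1) ^ (a - 1)) (Set.Ioi 1) := by
  have h1 := Real.GammaIntegral_convergent ha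
  have h2 := (measurePreserving_sub_right (volume : Measure ℝ) 1).integrableOn_comp_preimage
    (MeasurableEquiv.subRight (1 : ℝ)).measurableEmbedding (s := Set.Ioi 0)
    (f := fun x : ℝ => Real.exp (-x) * x ^ (a - 1))
  have h3 : (fun t : ℝ => t - 1) ⁻¹' Set.Ioi 0 = Set.Ioi 1 := by
    ext t
    simp
  rw [h3] at h2
  exact h2.2 h1

theorem HU1_exp : IntegrableOn (fun t : ℝ => Real.exp (-(t - 1))) (Set.Ioi 1) := by
  have h := HU1_shift 1 one_pos
  refine h.congr_fun (fun t _ => ?_) measurableSet_Ioi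
  show Real.exp (-(t - 1)) * (t - 1) ^ ((1 : ℝ) - 1) = _
  rw [sub_self, Real.rpow_zero, mul_one]

theorem HU1_inv_le (t : ℝ) (ht : 1 ≤ t) : 1 / (2 * √t) ≤ 1 := by
  have h1 : 1 ≤ √t := Real.one_le_sqrt.2 ht
  rw [div_le_one (by linarith)]
  linarith

theorem HU1_le (x : ℝ) (hx : 0 < x) :
    hF x ≤ 2 * (Real.exp (-x) * x ^ ((1 / 2 : ℝ) - 1) + Real.exp (-x)) := by
  unfold hF
  have hp : 0 < x ^ ((1 / 2 : ℝ) - 1) := Real.rpow_pos_of_pos hx _
  rcases le_total x 2 with h | h
  · rw [max_eq_right h, min_eq_left h]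
    have h1 : Real.exp (-2) ≤ Real.exp (-x) := Real.exp_le_exp.2 (by linarith)
    have h2 : √(2 / x) = √2 * x ^ ((1 / 2 : ℝ) - 1) := by
      rw [Real.sqrt_div (by norm_num), Real.sqrt_eq_rpow x, div_eq_mul_inv, ← Real.rpow_neg hx.le]
      norm_num
    have h3 : √2 ≤ 2 := by
      rw [Real.sqrt_le_left (by norm_num)]
      norm_num
    have h4 : 0 < Real.exp (-x) := Real.exp_pos _
    rw [h2]
    calc 4 / 5 * Real.exp (-2) * (√2 * x ^ ((1 / 2 : ℝ) - 1))
        ≤ 1 * Real.exp (-x) * (2 * x ^ ((1 / 2 : ℝ) - 1)) := by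
          gcongr
          norm_num
      _ ≤ 2 * (Real.exp (-x) * x ^ ((1 / 2 : ℝ) - 1) + Real.exp (-x)) := by
          nlinarith
  · rw [max_eq_left h, min_eq_right h]
    have h4 : 0 < Real.exp (-x) := Real.exp_pos _
    have h5 : √(2 / 2 : ℝ) = 1 := by norm_num
    have h6 : 0 < Real.exp (-x) * x ^ ((1 / 2 : ℝ) - 1) := mul_pos h4 hp
    rw [h5]
    nlinarith

theorem HU1_meas : Measurable hF := by
  unfold hF
  fun_prop

theorem HU1_sqrt (s : ℝ) (hs : 0 < s) :
    √s * hF s = 4 / 5 * (Real.exp (-max s 2) * √(max s 2)) := by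
  unfold hF
  have h1 : √s * √(2 / min s 2) = √(max s 2) := by
    rw [← Real.sqrt_mul hs.le]
    congr 1
    rcases le_total s 2 with h | h
    · rw [max_eq_right h, min_eq_left h]
      field_simp
    · rw [max_eq_left h, min_eq_right h]
      ring
  rw [← h1]
  ring

theorem HU1_exp_sqrt (m n : ℝ) (hm : 1 ≤ m) (hmn : m ≤ n) :
    Real.exp (-n) * √n ≤ Real.exp (-m) * √m := by
  have h1 : √n ≤ Real.exp (n - m) * √m := by
    rw [Real.sqrt_le_left (by positivity), mul_pow, Real.sq_sqrt (by linarith)]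
    have h2 : 1 + (n - m) ≤ Real.exp (n - m) := by
      have := Real.add_one_le_exp (n - m)
      linarith
    have h3 : 1 ≤ Real.exp (n - m) := by linarith
    have h4 : 1 + (n - m) ≤ Real.exp (n - m) ^ 2 := by nlinarith
    nlinarith
  calc Real.exp (-n) * √n ≤ Real.exp (-n) * (Real.exp (n - m) * √m) :=
        mul_le_mul_of_nonneg_left h1 (Real.exp_pos _).le
    _ = Real.exp (-m) * √m := by
        rw [← mul_assoc, ← Real.exp_add]
        congr 2
        ring

theorem hF_pos (s : ℝ) (hs : 0 < s) : 0 < hF s := by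
  unfold hF
  have h1 : 0 < min s 2 := lt_min hs (by norm_num)
  have h2 : 0 < √(2 / min s 2) := Real.sqrt_pos.2 (by positivity)
  positivity

theorem hF_anti : AntitoneOn hF (Set.Ioi 0) := by
  intro s hs t ht hst
  have h1 : 0 < min s 2 := lt_min hs (by norm_num)
  have h2 : min s 2 ≤ min t 2 := min_le_min_right 2 hst
  have h3 : max s 2 ≤ max t 2 := max_le_max_right 2 hst
  unfold hF
  refine mul_le_mul ?_ ?_ (Real.sqrt_nonneg _) (by positivity)
  · refine mul_le_mul_of_nonneg_left (Real.exp_le_exp.2 (by linarith)) (by norm_num)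
  · exact Real.sqrt_le_sqrt (div_le_div_of_nonneg_left (by norm_num) h1 h2)

/-- `√s hF s` is antitone on `(0, ∞)`: constant on `(0, 2]`, `(4 / 5) √s exp (-s)` for `s ≥ 2`. -/
theorem sqrt_hF_anti : AntitoneOn (fun s => √s * hF s) (Set.Ioi 0) := by
  intro s hs t ht hst
  show √t * hF t ≤ √s * hF s
  rw [HU1_sqrt s hs, HU1_sqrt t ht]
  refine mul_le_mul_of_nonneg_left ?_ (by norm_num)
  refine HU1_exp_sqrt _ _ ?_ (max_le_max_right 2 hst)
  exact le_trans (by norm_num) (le_max_right s 2)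

theorem hF_int (s : ℝ) (hs : 1 ≤ s) : IntegrableOn (fun t => hF (t - 1) * (1 / (2 * √t))) (Set.Ioi s) := by
  have h1 : IntegrableOn (fun t : ℝ => 2 * (Real.exp (-(t - 1)) * (t - 1) ^ ((1 / 2 : ℝ) - 1) +
      Real.exp (-(t - 1)))) (Set.Ioi 1) :=
    ((HU1_shift (1 / 2) (by norm_num)).add HU1_exp).const_mul 2
  have h2 : IntegrableOn (fun t => hF (t - 1) * (1 / (2 * √t))) (Set.Ioi 1) := by
    refine h1.mono' ?_ ?_
    · refine Measurable.aestronglyMeasurable ?_
      have := HU1_meas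
      fun_prop
    · rw [ae_restrict_iff' measurableSet_Ioi]
      refine Filter.Eventually.of_forall fun t ht => ?_
      have ht1 : (1 : ℝ) < t := ht
      have h3 : 0 < hF (t - 1) := by
        unfold hF
        have h1 : 0 < min (t - 1) 2 := lt_min (by linarith) (by norm_num)
        have h2 : 0 < √(2 / min (t - 1) 2) := Real.sqrt_pos.2 (by positivity)
        positivity
      have h4 := HU1_inv_le t ht1.le
      have h5 : 0 ≤ 1 / (2 * √t) := by positivity
      rw [Real.norm_eq_abs, abs_of_nonneg (mul_nonneg h3.le h5)]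
      calc hF (t - 1) * (1 / (2 * √t)) ≤ hF (t - 1) * 1 := mul_le_mul_of_nonneg_left h4 h3.le
        _ ≤ _ := by
          rw [mul_one]
          exact HU1_le (t - 1) (by linarith)
  exact h2.mono_set (Set.Ioi_subset_Ioi hs)

theorem hf_int (s : ℝ) (hs : 1 ≤ s) : IntegrableOn (fun t => hf (t - 1) * (1 / (2 * √t))) (Set.Ioi s) := by
  have h2 : IntegrableOn (fun t => hf (t - 1) * (1 / (2 * √t))) (Set.Ioi 1) := by
    refine HU1_exp.mono' ?_ ?_
    · refine Measurable.aestronglyMeasurable ?_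
      unfold hf
      fun_prop
    · rw [ae_restrict_iff' measurableSet_Ioi]
      refine Filter.Eventually.of_forall fun t ht => ?_
      have ht1 : (1 : ℝ) < t := ht
      have h4 := HU1_inv_le t ht1.le
      have h5 : 0 ≤ 1 / (2 * √t) := by positivity
      have h3 := hf_pos (t - 1)
      rw [Real.norm_eq_abs, abs_of_nonneg (mul_nonneg h3.le h5)]
      calc hf (t - 1) * (1 / (2 * √t)) ≤ hf (t - 1) * 1 := mul_le_mul_of_nonneg_left h4 h3.le
        _ = _ := by
          rw [mul_one]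
          rfl
  exact h2.mono_set (Set.Ioi_subset_Ioi hs)

end Pool.Agent.Wd33b62
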