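import Pool.Agent.W_d33b62_h36.HU4

/-!
# The functions of the half-dimensional sieve (helper36, MP_d33b62_nt)

`u = F - 1`, `w = 1 - f` in the usual notation (dimension `1 / 2`, sieving limit `1`).
-/

set_option autoImplicit false

noncomputable section

open MeasureTheory

namespace Pool.Agent.Wd33b62

variable {u w : ℝ → ℝ} {C : ℝ}

open scoped ENNReal

lemma hu5_inner {t : ℝ} (ht : 2 < t) :
    ∫⁻ s in Set.Ioo 2 t, ENNReal.ofReal (1 / √s) = ENNReal.ofReal (2 * √t - 2 * √2) := by
  have hc : ContinuousOn (fun s : ℝ => 1 / √s) (Set.Icc 2 t) := by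
    apply ContinuousOn.div continuousOn_const Real.continuous_sqrt.continuousOn
    intro s hs
    exact (Real.sqrt_pos.2 (by linarith [hs.1])).ne'
  have hi : IntegrableOn (fun s : ℝ => 1 / √s) (Set.Ioo 2 t) :=
    (hc.integrableOn_Icc).mono_set Set.Ioo_subset_Icc_self
  have e : ∫ s in (2 : ℝ)..t, 1 / √s = 2 * √t - 2 * √2 := by
    apply intervalIntegral.integral_eq_sub_of_hasDerivAt (f := fun s => 2 * √s)
    · intro s hs
      rw [Set.uIcc_of_le ht.le] at hs
      have h0 : (0 : ℝ) < s := by linarith [hs.1]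
      have := (Real.hasDerivAt_sqrt h0.ne').const_mul 2
      have hs0 : √s ≠ 0 := (Real.sqrt_pos.2 h0).ne'
      have e : 2 * (1 / (2 * √s)) = 1 / √s := by field_simp
      rw [e] at this
      exact this
    · apply ContinuousOn.intervalIntegrable
      rw [Set.uIcc_of_le ht.le]; exact hc
  rw [← ofReal_integral_eq_lintegral_ofReal hi (Filter.Eventually.of_forall fun s => by positivity),
    ← integral_Ioc_eq_integral_Ioo, ← intervalIntegral.integral_of_le ht.le, e]

lemma hu5_tonelli (g : ℝ → ℝ≥0∞) (hg : Measurable g) :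
    ∫⁻ s in Set.Ioi (2 : ℝ), ENNReal.ofReal (1 / √s) * ∫⁻ t in Set.Ioi s, g t =
      ∫⁻ t in Set.Ioi (2 : ℝ), g t * ENNReal.ofReal (2 * √t - 2 * √2) := by
  have hms : Measurable fun s : ℝ => ENNReal.ofReal (1 / √s) := by fun_prop
  have h1 : ∀ s, ENNReal.ofReal (1 / √s) * ∫⁻ t in Set.Ioi s, g t =
      ∫⁻ t, ENNReal.ofReal (1 / √s) * (Set.Ioi s).indicator g t := fun s => by
    rw [lintegral_const_mul _ (hg.indicator measurableSet_Ioi),
      lintegral_indicator measurableSet_Ioi]
  simp_rw [h1]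
  rw [lintegral_lintegral_swap]
  · rw [← lintegral_indicator measurableSet_Ioi]
    apply lintegral_congr
    intro t
    by_cases hb : 2 < t
    · rw [Set.indicator_of_mem (Set.mem_Ioi.2 hb)]
      have h2 : ∀ s, ENNReal.ofReal (1 / √s) * (Set.Ioi s).indicator g t =
          (Set.Iio t).indicator (fun s => ENNReal.ofReal (1 / √s) * g t) s := by
        intro s
        by_cases hs : s < t
        · rw [Set.indicator_of_mem (Set.mem_Ioi.2 hs), Set.indicator_of_mem (Set.mem_Iio.2 hs)]
        · rw [Set.indicator_of_notMem (by simpa using hs),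
            Set.indicator_of_notMem (by simpa using hs), mul_zero]
      simp_rw [h2]
      rw [lintegral_indicator measurableSet_Iio, Measure.restrict_restrict measurableSet_Iio]
      have h3 : Set.Iio t ∩ Set.Ioi 2 = Set.Ioo 2 t := by
        ext x; simp [and_comm]
      rw [h3, lintegral_mul_const _ hms, hu5_inner hb, mul_comm]
    · rw [Set.indicator_of_notMem (by simpa using hb)]
      have h2 : ∀ s ∈ Set.Ioi (2 : ℝ), ENNReal.ofReal (1 / √s) * (Set.Ioi s).indicator g t = 0 := by
        intro s hs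
        have hs' : 2 < s := hs
        rw [Set.indicator_of_notMem, mul_zero]
        rw [Set.mem_Ioi, not_lt]
        linarith
      rw [setLIntegral_congr_fun measurableSet_Ioi h2]
      simp
  · apply Measurable.aemeasurable
    have h3 : Function.uncurry (fun s t => ENNReal.ofReal (1 / √s) * (Set.Ioi s).indicator g t) =
        fun p : ℝ × ℝ => ENNReal.ofReal (1 / √p.1) *
          Set.indicator {p : ℝ × ℝ | p.1 < p.2} (fun p => g p.2) p := by
      ext ⟨s, t⟩
      by_cases hs : s < t
      · show _ * (Set.Ioi s).indicator g t = _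
        rw [Set.indicator_of_mem (show (s, t) ∈ {p : ℝ × ℝ | p.1 < p.2} from hs),
          Set.indicator_of_mem (Set.mem_Ioi.2 hs)]
      · show _ * (Set.Ioi s).indicator g t = _
        rw [Set.indicator_of_notMem (show (s, t) ∉ {p : ℝ × ℝ | p.1 < p.2} from hs),
          Set.indicator_of_notMem (show t ∉ Set.Ioi s from hs)]
    rw [h3]
    exact (hms.comp measurable_fst).mul ((hg.comp measurable_snd).indicator
      (measurableSet_lt measurable_fst measurable_snd))

lemma hu5_hF_le {s : ℝ} (hs : 1 ≤ s) : hF s ≤ 2 * Real.exp (-s) := by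
  unfold hF
  rcases le_total 2 s with h | h
  · rw [max_eq_left h, min_eq_right h, div_self (by norm_num), Real.sqrt_one]
    have := Real.exp_pos (-s)
    linarith
  · rw [max_eq_right h, min_eq_left h]
    have h1 : √(2 / s) ≤ 2 := by
      rw [Real.sqrt_le_left (by norm_num)]
      rw [div_le_iff₀ (by linarith)]
      nlinarith
    have h2 : Real.exp (-2) ≤ Real.exp (-s) := Real.exp_le_exp.2 (by linarith)
    have h3 := Real.exp_pos (-2)
    have h4 : 0 ≤ √(2 / s) := Real.sqrt_nonneg _
    calc 4 / 5 * Real.exp (-2) * √(2 / s) ≤ 4 / 5 * Real.exp (-2) * 2 :=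
          mul_le_mul_of_nonneg_left h1 (by positivity)
      _ ≤ 2 * Real.exp (-s) := by linarith

lemma hu5_shift (f : ℝ → ℝ) (a : ℝ) :
    ∫ t in Set.Ioi a, f (t - 1) = ∫ t in Set.Ioi (a - 1), f t := by
  have h := (measurePreserving_sub_right volume (1 : ℝ)).setIntegral_preimage_emb
    (measurableEmbedding_subRight 1) f (Set.Ioi (a - 1))
  have h2 : (fun x : ℝ => x - 1) ⁻¹' Set.Ioi (a - 1) = Set.Ioi a := by
    ext x
    simp
  rwa [h2] at h

lemma hu5_shift_int (f : ℝ → ℝ) (a : ℝ) :
    IntegrableOn (fun t => f (t - 1)) (Set.Ioi a) ↔ IntegrableOn f (Set.Ioi (a - 1)) := by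
  have h := (measurePreserving_sub_right volume (1 : ℝ)).integrableOn_comp_preimage
    (measurableEmbedding_subRight 1) (f := f) (s := Set.Ioi (a - 1))
  have h2 : (fun x : ℝ => x - 1) ⁻¹' Set.Ioi (a - 1) = Set.Ioi a := by
    ext x
    simp
  rwa [h2] at h

/-- **The adjoint identity** `∫_1^2 (u + w) = 4 (u 2 + w 2)`.

Proof. `R = u + w`. For `s ≥ 2`: `√s R(s) = ∫_s^∞ R(t - 1) / (2 √t) dt` (`w_eq`, `u_eq`). Divide by `√s`, integrate over
`s ∈ (2, ∞)` and exchange the integrals (Tonelli, everything is nonnegative and decays exponentially):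
`∫_2^∞ R = ∫_2^∞ R(t - 1) / (2 √t) * (2 √t - 2 √2) dt = ∫_1^∞ R - √2 ∫_2^∞ R(t - 1) / √t dt = ∫_1^∞ R - 4 R(2)`
(compare `juw_ton` in `Pool.Agent.W_b58c63_h68.JUw`). -/
theorem UWH.adjoint (h : UWH u w C) : ∫ s in (1 : ℝ)..2, (u s + w s) = 4 * (u 2 + w 2) := by
  set R : ℝ → ℝ := fun s => u s + w s with hR
  have mR : Measurable R := h.u_meas.add h.w_anti.measurable
  have R0 : ∀ s, 0 ≤ R s := fun s => add_nonneg (h.u_nonneg s) (h.w_nonneg s)
  have hRle : ∀ s, 1 ≤ s → R s ≤ 3 * C * Real.exp (-s) := by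
    intro s hs
    have h1 := h.u_le s (by linarith)
    have h2 := h.w_le s hs
    have h3 := hu5_hF_le hs
    have h4 := mul_le_mul_of_nonneg_left h3 h.C_pos.le
    unfold hf at h2
    show u s + w s ≤ _
    linarith
  have hRint : ∀ a : ℝ, 1 ≤ a → IntegrableOn R (Set.Ioi a) := by
    intro a ha
    have h1 : IntegrableOn (fun x : ℝ => (3 * C) * Real.exp (-x)) (Set.Ioi a) :=
      (integrableOn_exp_neg_Ioi a).const_mul _
    refine Integrable.mono' h1 mR.aestronglyMeasurable ?_
    refine (ae_restrict_iff' measurableSet_Ioi).2 (Filter.Eventually.of_forall fun x hx => ?_)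
    have hx' : a < x := hx
    rw [Real.norm_eq_abs, abs_of_nonneg (R0 x)]
    exact hRle x (by linarith)
  set G : ℝ → ℝ := fun t => R (t - 1) * (1 / (2 * √t)) with hG
  have mG : Measurable G := (mR.comp (measurable_id.sub_const 1)).mul (by fun_prop)
  have G0 : ∀ t, 0 ≤ G t := fun t => mul_nonneg (R0 _) (by positivity)
  have hGint : ∀ s : ℝ, 2 ≤ s → IntegrableOn G (Set.Ioi s) := by
    intro s hs
    refine ((h.u_int s (by linarith)).add (h.w_int s hs)).congr
      (Filter.Eventually.of_forall fun t => ?_)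
    simp only [Pi.add_apply, hG, hR]
    ring
  have hkey : ∀ s : ℝ, 2 ≤ s → √s * R s = ∫ t in Set.Ioi s, G t := by
    intro s hs
    have h1 := h.w_eq s (by linarith)
    have h2 := h.u_eq s (by linarith)
    rw [max_eq_left hs, max_eq_right (by have := Real.sqrt_le_sqrt hs; linarith), zero_add] at h2
    have h3 : ∫ t in Set.Ioi s, G t = (∫ t in Set.Ioi s, u (t - 1) * (1 / (2 * √t))) +
        ∫ t in Set.Ioi s, w (t - 1) * (1 / (2 * √t)) := by
      rw [← integral_add (h.u_int s (by linarith)) (h.w_int s hs)]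
      apply integral_congr_ae
      refine Filter.Eventually.of_forall fun t => ?_
      simp only [hG, hR]
      ring
    rw [h3, ← h1, ← h2]
    simp only [hR]
    ring
  -- Tonelli
  have hRG : ∀ t : ℝ, 2 < t → G t * (2 * √t - 2 * √2) = R (t - 1) - 2 * √2 * G t := by
    intro t ht
    have : √t ≠ 0 := (Real.sqrt_pos.2 (by linarith)).ne'
    simp only [hG]
    field_simp
  have hshint : IntegrableOn (fun t => R (t - 1)) (Set.Ioi 2) := by
    rw [hu5_shift_int]
    exact hRint _ (by norm_num)
  have hprodint : IntegrableOn (fun t => G t * (2 * √t - 2 * √2)) (Set.Ioi 2) := by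
    have h1 : IntegrableOn (fun t => R (t - 1) - 2 * √2 * G t) (Set.Ioi 2) :=
      hshint.sub ((hGint 2 le_rfl).const_mul _)
    exact h1.congr_fun (fun t ht => (hRG t ht).symm) measurableSet_Ioi
  have hT : ∫ s in Set.Ioi (2 : ℝ), R s = ∫ t in Set.Ioi (2 : ℝ), G t * (2 * √t - 2 * √2) := by
    have hl : ENNReal.ofReal (∫ s in Set.Ioi (2 : ℝ), R s) =
        ENNReal.ofReal (∫ t in Set.Ioi (2 : ℝ), G t * (2 * √t - 2 * √2)) := by
      rw [ofReal_integral_eq_lintegral_ofReal (hRint 2 (by norm_num))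
          (Filter.Eventually.of_forall fun s => R0 s),
        ofReal_integral_eq_lintegral_ofReal hprodint]
      · have e1 : ∫⁻ s in Set.Ioi (2 : ℝ), ENNReal.ofReal (R s) =
            ∫⁻ s in Set.Ioi (2 : ℝ), ENNReal.ofReal (1 / √s) *
              ∫⁻ t in Set.Ioi s, ENNReal.ofReal (G t) := by
          refine setLIntegral_congr_fun measurableSet_Ioi fun s hs => ?_
          have hs' : 2 < s := hs
          have hsq : 0 < √s := Real.sqrt_pos.2 (by linarith)
          show ENNReal.ofReal (R s) = _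
          rw [← ofReal_integral_eq_lintegral_ofReal (hGint s hs'.le)
            (Filter.Eventually.of_forall fun t => G0 t), ← hkey s hs'.le,
            ← ENNReal.ofReal_mul (by positivity)]
          congr 1
          field_simp
        rw [e1, hu5_tonelli (fun t => ENNReal.ofReal (G t)) (ENNReal.measurable_ofReal.comp mG)]
        refine setLIntegral_congr_fun measurableSet_Ioi fun t ht => ?_
        show ENNReal.ofReal (G t) * _ = _
        rw [← ENNReal.ofReal_mul (G0 t)]
      · refine (ae_restrict_iff' measurableSet_Ioi).2 (Filter.Eventually.of_forall fun t ht => ?_)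
        have ht' : 2 < t := ht
        have := Real.sqrt_le_sqrt ht'.le
        exact mul_nonneg (G0 t) (by linarith)
    have n1 : 0 ≤ ∫ s in Set.Ioi (2 : ℝ), R s := integral_nonneg fun s => R0 s
    have n2 : 0 ≤ ∫ t in Set.Ioi (2 : ℝ), G t * (2 * √t - 2 * √2) := by
      apply setIntegral_nonneg measurableSet_Ioi
      intro t ht
      have ht' : 2 < t := ht
      have := Real.sqrt_le_sqrt ht'.le
      exact mul_nonneg (G0 t) (by linarith)
    exact (ENNReal.ofReal_eq_ofReal_iff n1 n2).1 hl
  have hT2 : ∫ t in Set.Ioi (2 : ℝ), G t * (2 * √t - 2 * √2) =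
      (∫ s in Set.Ioi (1 : ℝ), R s) - 4 * R 2 := by
    rw [setIntegral_congr_fun measurableSet_Ioi (fun t ht => hRG t ht),
      integral_sub hshint ((hGint 2 le_rfl).const_mul _), integral_const_mul, ← hkey 2 le_rfl,
      hu5_shift]
    have e1 : (2 : ℝ) - 1 = 1 := by norm_num
    have e2 : √(2 : ℝ) * √2 = 2 := Real.mul_self_sqrt (by norm_num)
    rw [e1]
    linear_combination (-2 * R 2) * e2
  have hsplit : ∫ s in Set.Ioi (1 : ℝ), R s =
      (∫ s in (1 : ℝ)..2, R s) + ∫ s in Set.Ioi (2 : ℝ), R s := by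
    rw [intervalIntegral.integral_of_le (by norm_num), ← setIntegral_union]
    · rw [Set.Ioc_union_Ioi_eq_Ioi (by norm_num)]
    · exact Set.Ioc_disjoint_Ioi le_rfl
    · exact measurableSet_Ioi
    · exact (hRint 1 le_rfl).mono_set Set.Ioc_subset_Ioi_self
    · exact hRint 2 (by norm_num)
  have : ∫ s in (1 : ℝ)..2, R s = 4 * R 2 := by linarith
  simpa only [hR] using this

end Pool.Agent.Wd33b62
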