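import Pool.Agent.W_d33b62_h36.LDefs

/-!
# The Gram inequalities (helper36, MP_d33b62_nt)
-/

set_option autoImplicit false

noncomputable section

open Finset

namespace Pool.Agent.Wd33b62

variable {ι V : Type} [Fintype ι] [DecidableEq ι] [Fintype V] [DecidableEq V]

/-- The kernel of the inner products at one place. -/
def gk (q : ι → V → ℝ) (i : ι) : Option V → Option V → ℝ
  | none, none => 1
  | none, some _ => 0
  | some _, none => 0
  | some v, some w => (if v = w then q i v else 0) - q i v * q i w

/-- The factor of a basis function at one place. -/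
def LB2_h (q : ι → V → ℝ) (i : ι) : Option V → Option V → ℝ
  | none, _ => 1
  | some v, a => (if a = some v then 1 else 0) - q i v

omit [DecidableEq ι] [Fintype V] in
theorem LB2_phi (q : ι → V → ℝ) (τ c : ι → Option V) :
    phi q τ c = ∏ i, LB2_h q i (τ i) (c i) := by
  unfold phi supp
  rw [Finset.prod_filter]
  refine Finset.prod_congr rfl fun i _ => ?_
  rcases hi : τ i with _ | v
  · rw [if_neg (by simp)]
    rfl
  · rw [if_pos (by simp)]
    rfl

omit [Fintype ι] [DecidableEq ι] in
theorem LB2_loc (q : ι → V → ℝ) (i : ι) (s t : Option V) :
    ∑ a : Option V, pv q i a * (LB2_h q i s a * LB2_h q i t a) = gk q i s t := by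
  rw [Fintype.sum_option]
  have e0 : ∀ w : V, ∑ v : V, q i v * (if (some v : Option V) = some w then (1 : ℝ) else 0) = q i w := by
    intro w
    simp
  have h1 : ∀ (w : V), ∑ v : V, q i v * ((if (some v : Option V) = some w then (1 : ℝ) else 0) - q i w) =
      q i w - (∑ v, q i v) * q i w := by
    intro w
    rw [Finset.sum_mul, ← e0 w, ← Finset.sum_sub_distrib]
    refine Finset.sum_congr rfl fun v _ => ?_
    rw [e0 w]
    ring
  rcases s with _ | v <;> rcases t with _ | w
  · show (1 - ∑ v, q i v) * (1 * 1) + ∑ v, q i v * (1 * 1) = 1
    simp
  · show (1 - ∑ v, q i v) * (1 * ((if (none : Option V) = some w then 1 else 0) - q i w)) +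
      ∑ v, q i v * (1 * ((if (some v : Option V) = some w then 1 else 0) - q i w)) = 0
    simp only [one_mul]
    rw [h1 w, if_neg (by simp)]
    ring
  · show (1 - ∑ v, q i v) * (((if (none : Option V) = some v then 1 else 0) - q i v) * 1) +
      ∑ u, q i u * (((if (some u : Option V) = some v then 1 else 0) - q i v) * 1) = 0
    simp only [mul_one]
    rw [h1 v, if_neg (by simp)]
    ring
  · show (1 - ∑ v, q i v) * (((if (none : Option V) = some v then 1 else 0) - q i v) *
        ((if (none : Option V) = some w then 1 else 0) - q i w)) +
      ∑ u, q i u * (((if (some u : Option V) = some v then 1 else 0) - q i v) *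
        ((if (some u : Option V) = some w then 1 else 0) - q i w)) =
      (if v = w then q i v else 0) - q i v * q i w
    have h2 : ∑ u, q i u * (((if (some u : Option V) = some v then 1 else 0) - q i v) *
        ((if (some u : Option V) = some w then 1 else 0) - q i w)) =
        ∑ u, q i u * ((if (some u : Option V) = some v then 1 else 0) *
          (if (some u : Option V) = some w then (1 : ℝ) else 0)) -
        q i v * (∑ u, q i u * (if (some u : Option V) = some w then (1 : ℝ) else 0)) -
        q i w * (∑ u, q i u * (if (some u : Option V) = some v then (1 : ℝ) else 0)) +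
        (∑ u, q i u) * (q i v * q i w) := by
      rw [Finset.mul_sum, Finset.mul_sum, Finset.sum_mul, ← Finset.sum_sub_distrib,
        ← Finset.sum_sub_distrib, ← Finset.sum_add_distrib]
      refine Finset.sum_congr rfl fun u _ => ?_
      ring
    have h3 : ∑ u, q i u * ((if (some u : Option V) = some v then 1 else 0) *
          (if (some u : Option V) = some w then (1 : ℝ) else 0)) = if v = w then q i v else 0 := by
      by_cases hvw : v = w
      · subst hvw
        rw [if_pos rfl, ← e0 v]
        refine Finset.sum_congr rfl fun u _ => ?_
        split_ifs <;> ring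
      · rw [if_neg hvw]
        refine Finset.sum_eq_zero fun u _ => ?_
        by_cases hu : u = v
        · subst hu
          rw [if_neg (c := (some u : Option V) = some w) (by simpa using hvw)]
          ring
        · rw [if_neg (c := (some u : Option V) = some v) (by simpa using hu)]
          ring
    rw [h2, h3, e0, e0, if_neg (by simp), if_neg (by simp)]
    ring

/-- **Inner products of the basis functions.** `sum_prod`: the expectation factorises over the places; at one place
`∑_a pv q i a * f_a * f'_a` with `f_a = 1` for `τ i = none` and `f_a = [a = τ i] - q i (τ i)` else. -/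
theorem Ex_phi (q : ι → V → ℝ) (τ τ' : ι → Option V) :
    Ex q (fun c => phi q τ c * phi q τ' c) = ∏ i, gk q i (τ i) (τ' i) := by
  unfold Ex
  have h1 : ∀ c : ι → Option V, prb q c * (phi q τ c * phi q τ' c) =
      ∏ i, (pv q i (c i) * (LB2_h q i (τ i) (c i) * LB2_h q i (τ' i) (c i))) := by
    intro c
    rw [LB2_phi, LB2_phi, ← Finset.prod_mul_distrib]
    unfold prb
    rw [← Finset.prod_mul_distrib]
  simp only [h1]
  have h2 := Finset.prod_univ_sum (fun _ : ι => (Finset.univ : Finset (Option V)))
    (fun i a => pv q i a * (LB2_h q i (τ i) a * LB2_h q i (τ' i) a))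
  rw [Fintype.piFinset_univ] at h2
  rw [← h2]
  refine Finset.prod_congr rfl fun i _ => ?_
  exact LB2_loc q i (τ i) (τ' i)

end Pool.Agent.Wd33b62
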