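import Pool.Agent.W_d33b62_h36.LA3
import Pool.Agent.W_d33b62_h36.LB2

/-!
# The Gram inequalities (helper36, MP_d33b62_nt)
-/

set_option autoImplicit false

noncomputable section

open Finset

namespace Pool.Agent.Wd33b62

variable {ι V : Type} [Fintype ι] [DecidableEq ι] [Fintype V] [DecidableEq V]

/-- **Products of Gram kernels are positive semidefinite.** If `M i a b = ∑_x m i x a * m i x b` (`x` over a finite type)
then `∑_{τ, τ'} z τ z τ' ∏ M i (τ i) (τ' i) = ∑_X (∑_τ z τ ∏ m i (X i) (τ i)) ^ 2 ≥ 0`. -/
theorem prod_gram {X : Type} [Fintype X] (m : ι → X → Option V → ℝ) (z : (ι → Option V) → ℝ) :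
    0 ≤ ∑ τ : ι → Option V, ∑ τ' : ι → Option V, z τ * z τ' * ∏ i, ∑ x, m i x (τ i) * m i x (τ' i) := by
  classical
  have h1 : ∀ τ τ' : ι → Option V, ∏ i, ∑ x, m i x (τ i) * m i x (τ' i) =
      ∑ c : ι → X, (∏ i, m i (c i) (τ i)) * ∏ i, m i (c i) (τ' i) := by
    intro τ τ'
    have h := Finset.prod_univ_sum (fun _ : ι => (univ : Finset X))
      (fun i x => m i x (τ i) * m i x (τ' i))
    rw [Fintype.piFinset_univ] at h
    rw [h]
    exact Finset.sum_congr rfl fun c _ => Finset.prod_mul_distrib
  have h2 : ∑ τ : ι → Option V, ∑ τ' : ι → Option V, z τ * z τ' *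
      ∏ i, ∑ x, m i x (τ i) * m i x (τ' i) =
      ∑ c : ι → X, (∑ τ : ι → Option V, z τ * ∏ i, m i (c i) (τ i)) ^ 2 := by
    have h3 : ∀ c : ι → X, (∑ τ : ι → Option V, z τ * ∏ i, m i (c i) (τ i)) ^ 2 =
        ∑ τ : ι → Option V, ∑ τ' : ι → Option V, z τ * z τ' *
          ((∏ i, m i (c i) (τ i)) * ∏ i, m i (c i) (τ' i)) := by
      intro c
      rw [sq, Finset.sum_mul_sum]
      refine Finset.sum_congr rfl fun τ _ => Finset.sum_congr rfl fun τ' _ => ?_
      ring
    simp only [h1, h3, Finset.mul_sum]
    rw [Finset.sum_comm (s := (univ : Finset (ι → X)))]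
    refine Finset.sum_congr rfl fun τ _ => ?_
    rw [Finset.sum_comm]
  rw [h2]
  exact Finset.sum_nonneg fun c _ => sq_nonneg _

/-- The quadratic form of a product kernel. -/
def LB3_Q (K : ι → Option V → Option V → ℝ) (z : (ι → Option V) → ℝ) : ℝ :=
  ∑ τ : ι → Option V, ∑ τ' : ι → Option V, z τ * z τ' * ∏ i, K i (τ i) (τ' i)

/-- Gram kernels. -/
def LB3_G (k : Option V → Option V → ℝ) : Prop :=
  ∃ m : (Option V ⊕ V × V) → Option V → ℝ, ∀ a b, k a b = ∑ x, m x a * m x b

theorem LB3_pos {K : ι → Option V → Option V → ℝ} (hK : ∀ i, LB3_G (K i))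
    (z : (ι → Option V) → ℝ) : 0 ≤ LB3_Q K z := by
  choose m hm using hK
  unfold LB3_Q
  simp only [hm]
  exact prod_gram m z

theorem LB3_mono {K D : ι → Option V → Option V → ℝ} (hK : ∀ i, LB3_G (K i))
    (hD : ∀ i, LB3_G (D i)) (z : (ι → Option V) → ℝ) :
    LB3_Q K z ≤ LB3_Q (fun i a b => D i a b + K i a b) z := by
  have h1 : ∀ τ τ' : ι → Option V, ∏ i, (D i (τ i) (τ' i) + K i (τ i) (τ' i)) =
      ∑ t ∈ (univ : Finset ι).powerset, ∏ i, (if i ∈ t then D i else K i) (τ i) (τ' i) := by
    intro τ τ'
    rw [Finset.prod_add]
    refine Finset.sum_congr rfl fun t _ => ?_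
    rw [← Finset.prod_mul_prod_compl t (fun i => (if i ∈ t then D i else K i) (τ i) (τ' i)),
      ← Finset.compl_eq_univ_sdiff]
    refine congrArg₂ (· * ·) (Finset.prod_congr rfl fun i hi => ?_)
      (Finset.prod_congr rfl fun i hi => ?_)
    · rw [if_pos hi]
    · rw [if_neg (Finset.mem_compl.1 hi)]
  have h2 : LB3_Q (fun i a b => D i a b + K i a b) z =
      ∑ t ∈ (univ : Finset ι).powerset, LB3_Q (fun i => if i ∈ t then D i else K i) z := by
    unfold LB3_Q
    simp only [h1, Finset.mul_sum]
    rw [Finset.sum_comm (s := (univ : Finset ι).powerset)]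
    refine Finset.sum_congr rfl fun τ _ => ?_
    rw [Finset.sum_comm]
  have h3 : LB3_Q K z = LB3_Q (fun i => if i ∈ (∅ : Finset ι) then D i else K i) z := by
    simp only [Finset.notMem_empty, if_false]
  rw [h2, h3]
  refine Finset.single_le_sum (f := fun t : Finset ι =>
    LB3_Q (fun i => if i ∈ t then D i else K i) z) (fun t _ => ?_) (Finset.empty_mem_powerset _)
  refine LB3_pos (fun i => ?_) z
  show LB3_G (if i ∈ t then D i else K i)
  split_ifs
  · exact hD i
  · exact hK i

theorem LB3_Ex (q : ι → V → ℝ) (z : (ι → Option V) → ℝ) :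
    Ex q (fun c => (∑ τ : ι → Option V, z τ * phi q τ c) ^ 2) = LB3_Q (gk q) z := by
  unfold LB3_Q
  simp only [← Ex_phi]
  unfold Ex
  have h3 : ∀ c : ι → Option V, prb q c * (∑ τ : ι → Option V, z τ * phi q τ c) ^ 2 =
      ∑ τ : ι → Option V, ∑ τ' : ι → Option V, z τ * z τ' *
        (prb q c * (phi q τ c * phi q τ' c)) := by
    intro c
    rw [sq, Finset.sum_mul_sum, Finset.mul_sum]
    refine Finset.sum_congr rfl fun τ _ => ?_
    rw [Finset.mul_sum]
    refine Finset.sum_congr rfl fun τ' _ => ?_
    ring
  simp only [h3, Finset.mul_sum]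
  rw [Finset.sum_comm]
  refine Finset.sum_congr rfl fun τ _ => ?_
  rw [Finset.sum_comm]

theorem LB3_diag (e : ι → Option V → ℝ) (z : (ι → Option V) → ℝ) :
    LB3_Q (fun i a b => if a = b then e i a else 0) z =
      ∑ τ : ι → Option V, z τ ^ 2 * ∏ i, e i (τ i) := by
  unfold LB3_Q
  refine Finset.sum_congr rfl fun τ _ => ?_
  rw [Finset.sum_eq_single τ]
  · simp only [if_true]
    ring
  · intro τ' _ hne
    have h1 : ∃ i, τ i ≠ τ' i := by
      by_contra h
      push Not at h
      exact hne (funext fun i => (h i).symm)
    obtain ⟨i, hi⟩ := h1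
    rw [Finset.prod_eq_zero (Finset.mem_univ i) (if_neg hi), mul_zero]
  · intro h
    exact absurd (Finset.mem_univ τ) h

theorem LB3_gk {q : ι → V → ℝ} (hq : QOK q) (i : ι) : LB3_G (gk q i) := by
  have hp : ∀ a, 0 ≤ pv q i a := by
    intro a
    cases a with
    | none => exact sub_nonneg.mpr (hq.2 i)
    | some v => exact hq.1 i v
  have hs : ∑ v, q i v = 1 - pv q i none := by
    unfold pv
    ring
  refine ⟨fun x a => match x with
    | Sum.inl x => Real.sqrt (pv q i x) * (match a with
      | none => 1
      | some v => (if x = some v then 1 else 0) - q i v)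
    | Sum.inr _ => 0, fun a b => ?_⟩
  have hss : ∀ a, Real.sqrt (pv q i a) * Real.sqrt (pv q i a) = pv q i a :=
    fun a => Real.mul_self_sqrt (hp a)
  have hsum1 : pv q i none + ∑ v, pv q i (some v) = 1 := by
    simp [pv]
  have key : ∀ f g : Option V → ℝ, ∑ x : Option V ⊕ V × V, (match x with
      | Sum.inl x => Real.sqrt (pv q i x) * f x
      | Sum.inr _ => 0) * (match x with
      | Sum.inl x => Real.sqrt (pv q i x) * g x
      | Sum.inr _ => 0) = pv q i none * (f none * g none) +
        ∑ v, q i v * (f (some v) * g (some v)) := by
    intro f g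
    rw [Fintype.sum_sum_type, Fintype.sum_option]
    simp only [mul_zero, Finset.sum_const_zero, add_zero]
    have e1 : ∀ x, Real.sqrt (pv q i x) * f x * (Real.sqrt (pv q i x) * g x) =
        pv q i x * (f x * g x) := by
      intro x
      calc Real.sqrt (pv q i x) * f x * (Real.sqrt (pv q i x) * g x) =
          (Real.sqrt (pv q i x) * Real.sqrt (pv q i x)) * (f x * g x) := by ring
        _ = _ := by rw [hss x]
    simp only [e1]
    rfl
  cases a with
  | none =>
    cases b with
    | none =>
      have h := key (fun _ => 1) (fun _ => 1)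
      refine Eq.trans ?_ h.symm
      simp only [mul_one]
      rw [hs]
      show (1 : ℝ) = _
      ring
    | some w =>
      have h := key (fun _ => 1) (fun x => (if x = some w then 1 else 0) - q i w)
      refine Eq.trans ?_ h.symm
      simp only [one_mul, reduceCtorEq, if_false, Option.some.injEq, mul_sub, Finset.sum_sub_distrib,
        mul_ite, mul_one, mul_zero, Finset.sum_ite_eq', Finset.mem_univ, if_true, zero_sub]
      rw [← Finset.sum_mul, hs]
      show (0 : ℝ) = _
      ring
  | some v =>
    cases b with
    | none =>
      have h := key (fun x => (if x = some v then 1 else 0) - q i v) (fun _ => 1)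
      refine Eq.trans ?_ h.symm
      simp only [mul_one, reduceCtorEq, if_false, Option.some.injEq, mul_sub, Finset.sum_sub_distrib,
        mul_ite, mul_zero, Finset.sum_ite_eq', Finset.mem_univ, if_true, zero_sub]
      rw [← Finset.sum_mul, hs]
      show (0 : ℝ) = _
      ring
    | some w =>
      have h := key (fun x => (if x = some v then 1 else 0) - q i v)
        (fun x => (if x = some w then 1 else 0) - q i w)
      refine Eq.trans ?_ h.symm
      have e2 : ∀ u, q i u * (((if (some u : Option V) = some v then 1 else 0) - q i v) *
          ((if (some u : Option V) = some w then 1 else 0) - q i w)) =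
          (if u = v then (if v = w then q i v else 0) else 0) - (if u = v then q i v * q i w else 0) -
            (if u = w then q i w * q i v else 0) + q i u * (q i v * q i w) := by
        intro u
        simp only [Option.some.injEq]
        by_cases h1 : u = v
        · subst h1
          by_cases h2 : u = w
          · subst h2
            simp only [if_true]
            ring
          · simp only [h2, if_true, if_false]
            ring
        · by_cases h2 : u = w
          · subst h2
            simp only [h1, if_true, if_false]
            ring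
          · simp only [h1, h2, if_false]
            ring
      simp only [e2, Finset.sum_add_distrib, Finset.sum_sub_distrib, Finset.sum_ite_eq',
        Finset.mem_univ, if_true, reduceCtorEq, if_false, zero_sub]
      rw [← Finset.sum_mul, hs]
      show (if v = w then q i v else 0) - q i v * q i w = _
      ring

theorem LB3_diagG (e : Option V → ℝ) (he : ∀ a, 0 ≤ e a) :
    LB3_G (fun a b : Option V => if a = b then e a else 0) := by
  refine ⟨fun x a => match x with
    | Sum.inl x => if x = a then Real.sqrt (e a) else 0
    | Sum.inr _ => 0, fun a b => ?_⟩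
  rw [Fintype.sum_sum_type]
  simp only [mul_zero, Finset.sum_const_zero, add_zero]
  rw [Finset.sum_eq_single a]
  · rw [if_pos rfl]
    by_cases h : a = b
    · subst h
      rw [if_pos rfl, if_pos rfl, Real.mul_self_sqrt (he a)]
    · rw [if_neg h, if_neg h, mul_zero]
  · intro x _ hx
    rw [if_neg hx, zero_mul]
  · intro h
    exact absurd (Finset.mem_univ a) h

/-- The kernel `q v q w` on the labels. -/
def LB3_r (q : ι → V → ℝ) (i : ι) : Option V → Option V → ℝ
  | none, _ => 0
  | some _, none => 0
  | some v, some w => q i v * q i w

theorem LB3_rG (q : ι → V → ℝ) (i : ι) : LB3_G (LB3_r q i) := by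
  refine ⟨fun x a => match x with
    | Sum.inl x => if x = none then (match a with
      | none => 0
      | some v => q i v) else 0
    | Sum.inr _ => 0, fun a b => ?_⟩
  rw [Fintype.sum_sum_type, Fintype.sum_option]
  simp only [mul_zero, Finset.sum_const_zero, add_zero, if_true, reduceCtorEq, if_false]
  cases a with
  | none =>
    show (0 : ℝ) = 0 * _
    rw [zero_mul]
  | some v =>
    cases b with
    | none =>
      show (0 : ℝ) = _ * 0
      rw [mul_zero]
    | some w => rfl

/-- The kernel `[v = w] q v ∑ q - q v q w` on the labels. -/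
def LB3_s (q : ι → V → ℝ) (i : ι) : Option V → Option V → ℝ
  | none, _ => 0
  | some _, none => 0
  | some v, some w => (if v = w then q i v * ∑ u, q i u else 0) - q i v * q i w

theorem LB3_sG {q : ι → V → ℝ} (hq : QOK q) (i : ι) : LB3_G (LB3_s q i) := by
  refine ⟨fun x a => match x with
    | Sum.inl _ => 0
    | Sum.inr p => (match a with
      | none => 0
      | some v => Real.sqrt (q i p.1 * q i p.2 / 2) *
        ((if p.1 = v then 1 else 0) - (if p.2 = v then 1 else 0))), fun a b => ?_⟩
  rw [Fintype.sum_sum_type]
  simp only [mul_zero, Finset.sum_const_zero, zero_add]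
  cases a with
  | none =>
    simp only [zero_mul, Finset.sum_const_zero]
    rfl
  | some v =>
    cases b with
    | none =>
      simp only [mul_zero, Finset.sum_const_zero]
      rfl
    | some w =>
      have e1 : ∀ p : V × V, Real.sqrt (q i p.1 * q i p.2 / 2) *
          ((if p.1 = v then 1 else 0) - (if p.2 = v then 1 else 0)) *
          (Real.sqrt (q i p.1 * q i p.2 / 2) *
            ((if p.1 = w then 1 else 0) - (if p.2 = w then 1 else 0))) =
          q i p.1 * q i p.2 / 2 * (((if p.1 = v then 1 else 0) - (if p.2 = v then 1 else 0)) *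
            ((if p.1 = w then 1 else 0) - (if p.2 = w then 1 else 0))) := by
        intro p
        have h1 : 0 ≤ q i p.1 * q i p.2 / 2 :=
          div_nonneg (mul_nonneg (hq.1 i _) (hq.1 i _)) (by norm_num)
        have h2 := Real.mul_self_sqrt h1
        calc _ = (Real.sqrt (q i p.1 * q i p.2 / 2) * Real.sqrt (q i p.1 * q i p.2 / 2)) *
            (((if p.1 = v then 1 else 0) - (if p.2 = v then 1 else 0)) *
            ((if p.1 = w then 1 else 0) - (if p.2 = w then 1 else 0))) := by ring
          _ = _ := by rw [h2]
      simp only [e1]
      rw [Fintype.sum_prod_type]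
      have e2 : ∀ u u' : V, q i u * q i u' / 2 * (((if u = v then 1 else 0) -
          (if u' = v then 1 else 0)) * ((if u = w then 1 else 0) - (if u' = w then 1 else 0))) =
          (if u = v then (if v = w then q i v * q i u' / 2 else 0) else 0) -
          (if u = v then (if u' = w then q i v * q i w / 2 else 0) else 0) -
          (if u = w then (if u' = v then q i v * q i w / 2 else 0) else 0) +
          (if u' = v then (if v = w then q i u * q i v / 2 else 0) else 0) := by
        intro u u'
        by_cases h1 : u = v
        · subst h1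
          by_cases h2 : u' = u
          · subst h2
            by_cases h3 : u' = w
            · subst h3
              simp only [if_true]
              ring
            · simp only [h3, if_true, if_false]
              ring
          · by_cases h3 : u = w
            · subst h3
              simp only [h2, if_true, if_false]
              ring
            · by_cases h4 : u' = w
              · subst h4
                simp only [h2, h3, if_true, if_false]
                ring
              · simp only [h2, h3, h4, if_true, if_false]
                ring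
        · by_cases h2 : u' = v
          · subst h2
            by_cases h3 : u = w
            · subst h3
              have h4 : ¬ u' = u := fun h => h1 h.symm
              simp only [h1, h4, if_true, if_false]
              ring
            · by_cases h4 : u' = w
              · subst h4
                simp only [h1, if_true, if_false]
                ring
              · simp only [h1, h3, h4, if_true, if_false]
                ring
          · simp only [h1, h2, if_false, sub_self, zero_mul, mul_zero, ite_self, add_zero]
      simp only [e2, Finset.sum_add_distrib, Finset.sum_sub_distrib]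
      have s1 : ∑ u : V, ∑ u' : V, (if u = v then (if v = w then q i v * q i u' / 2 else 0) else 0) =
          if v = w then q i v * (∑ u, q i u) / 2 else 0 := by
        rw [Finset.sum_comm]
        simp only [Finset.sum_ite_eq', Finset.mem_univ, if_true]
        split_ifs
        · rw [← Finset.sum_div, ← Finset.mul_sum]
        · exact Finset.sum_const_zero
      have s2 : ∑ u : V, ∑ u' : V, (if u = v then (if u' = w then q i v * q i w / 2 else 0) else 0) =
          q i v * q i w / 2 := by
        rw [Finset.sum_comm]
        simp only [Finset.sum_ite_eq', Finset.mem_univ, if_true]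
      have s3 : ∑ u : V, ∑ u' : V, (if u = w then (if u' = v then q i v * q i w / 2 else 0) else 0) =
          q i v * q i w / 2 := by
        rw [Finset.sum_comm]
        simp only [Finset.sum_ite_eq', Finset.mem_univ, if_true]
      have s4 : ∑ u : V, ∑ u' : V, (if u' = v then (if v = w then q i u * q i v / 2 else 0) else 0) =
          if v = w then q i v * (∑ u, q i u) / 2 else 0 := by
        simp only [Finset.sum_ite_eq', Finset.mem_univ, if_true]
        split_ifs
        · rw [← Finset.sum_div, ← Finset.sum_mul, mul_comm]
        · exact Finset.sum_const_zero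
      rw [s1, s2, s3, s4]
      show (if v = w then q i v * ∑ u, q i u else 0) - q i v * q i w = _
      split_ifs
      · ring
      · ring

/-- **Gram upper bound.** The left side is `∑_{τ, τ'} z τ z τ' ∏ gk q i (τ i) (τ' i)` (`Ex_phi`). At every place the
kernel `gk` is at most the diagonal kernel `dk a b = [a = b] qv q i a`: `dk - gk = q i v q i w` on the labels (a Gram kernel of
rank one), `gk` itself is a Gram kernel (`gk a b = ∑_x pv q i x f_a(x) f_b(x)`, with `√(pv)`), and so is `dk`. Replace the
kernels one place after the other (induction over a set `S` of places at which `gk` has been replaced by `dk`); every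
step is nonnegative by `prod_gram` (with `X = Option V` for all places, pad by zeros). -/
theorem gram_upper (q : ι → V → ℝ) (hq : QOK q) (z : (ι → Option V) → ℝ) :
    Ex q (fun c => (∑ τ : ι → Option V, z τ * phi q τ c) ^ 2) ≤ ∑ τ : ι → Option V, z τ ^ 2 * qwt q τ := by
  rw [LB3_Ex]
  refine (LB3_mono (D := LB3_r q) (fun i => LB3_gk hq i) (fun i => LB3_rG q i) z).trans
    (le_of_eq ?_)
  have h1 : (fun i a b => LB3_r q i a b + gk q i a b) =
      fun (i : ι) (a b : Option V) => if a = b then qv q i a else 0 := by
    funext i a b
    cases a with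
    | none =>
      cases b with
      | none => simp [LB3_r, gk, qv]
      | some w => simp [LB3_r, gk]
    | some v =>
      cases b with
      | none => simp [LB3_r, gk]
      | some w => simp [LB3_r, gk, qv]
  rw [h1, LB3_diag]
  rfl

/-- **Gram lower bound.** As `gram_upper`, with the diagonal kernel `ek none none = 1`,
`ek (some v) (some v) = q i v (1 - ∑ q)`: `gk - ek` is a Gram kernel since by Cauchy-Schwarz
`(∑ q i v a v) ^ 2 ≤ (∑ q i v) ∑ q i v (a v) ^ 2`. Explicitly, on the labels
`q_v [v = w] ∑_u q_u - q_v q_w = ½ ∑_{u, u'} q_u q_u' (δ_uv - δ_u'v) (δ_uw - δ_u'w)`. -/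
theorem gram_lower (q : ι → V → ℝ) (hq : QOK q) (z : (ι → Option V) → ℝ) :
    ∑ τ : ι → Option V, z τ ^ 2 * (qwt q τ * ∏ i ∈ supp τ, (1 - ∑ v, q i v)) ≤
      Ex q (fun c => (∑ τ : ι → Option V, z τ * phi q τ c) ^ 2) := by
  rw [LB3_Ex]
  obtain ⟨e, he⟩ : ∃ e : ι → Option V → ℝ, e = fun i a => match a with
    | none => 1
    | some v => q i v * (1 - ∑ u, q i u) := ⟨_, rfl⟩
  have he0 : ∀ i, e i none = 1 := by
    intro i
    rw [he]
  have he1 : ∀ i v, e i (some v) = q i v * (1 - ∑ u, q i u) := by
    intro i v
    rw [he]
  have hpos : ∀ i a, 0 ≤ e i a := by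
    intro i a
    cases a with
    | none =>
      rw [he0]
      exact zero_le_one
    | some v =>
      rw [he1]
      exact mul_nonneg (hq.1 i v) (sub_nonneg.2 (hq.2 i))
  have h2 := LB3_mono (K := fun i a b => if a = b then e i a else 0) (D := LB3_s q)
    (fun i => LB3_diagG (e i) (hpos i)) (fun i => LB3_sG hq i) z
  have h1 : (fun (i : ι) (a b : Option V) => LB3_s q i a b + if a = b then e i a else 0) = gk q := by
    funext i a b
    cases a with
    | none =>
      cases b with
      | none => simp [LB3_s, gk, he0]
      | some w => simp [LB3_s, gk]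
    | some v =>
      cases b with
      | none => simp [LB3_s, gk]
      | some w =>
        by_cases h : v = w
        · subst h
          simp only [LB3_s, gk, he1, if_true]
          ring
        · have h' : ¬ (some v = some w) := fun h3 => h (Option.some.inj h3)
          simp only [LB3_s, gk, h, h', if_false]
          ring
  rw [h1, LB3_diag] at h2
  refine le_trans (le_of_eq ?_) h2
  refine Finset.sum_congr rfl fun τ _ => ?_
  congr 1
  unfold qwt
  rw [supp, Finset.prod_filter, ← Finset.prod_mul_distrib]
  refine Finset.prod_congr rfl fun i _ => ?_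
  cases hi : τ i with
  | none => simp [qv, he0]
  | some v => simp [qv, he1]

end Pool.Agent.Wd33b62
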