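import Pool.Agent.W_d33b62_h36.LB1
import Pool.Agent.W_d33b62_h36.LB3

/-!
# The Gram inequalities (helper36, MP_d33b62_nt)
-/

set_option autoImplicit false

noncomputable section

open Finset

namespace Pool.Agent.Wd33b62

variable {ι V : Type} [Fintype ι] [DecidableEq ι] [Fintype V] [DecidableEq V]

/-- The square of the sign. -/
private theorem LB4_sq (x : ι → ℝ) (y : (ι → Option V) → ℝ) (q : ι → V → ℝ) (τ : ι → Option V) :
    ((-1) ^ (supp τ).card * zz x y q τ) ^ 2 = zz x y q τ ^ 2 := by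
  rw [mul_pow, ← pow_mul, mul_comm (supp τ).card 2, pow_mul]
  norm_num

/-- The square of the Selberg form in the centred basis. -/
private theorem LB4_exp (x : ι → ℝ) (y : (ι → Option V) → ℝ) (q : ι → V → ℝ) :
    (fun c => FF x y c ^ 2) = fun c => (∑ τ : ι → Option V,
      ((-1) ^ (supp τ).card * zz x y q τ) * phi q τ c) ^ 2 := by
  funext c
  rw [FF_expand x y q c]

/-- `FF_expand` and `gram_upper`. -/
theorem Ex_FF_le (x : ι → ℝ) (y : (ι → Option V) → ℝ) (q : ι → V → ℝ) (hq : QOK q) :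
    Ex q (fun c => FF x y c ^ 2) ≤ ∑ τ : ι → Option V, zz x y q τ ^ 2 * qwt q τ := by
  rw [LB4_exp x y q]
  refine (gram_upper q hq fun τ => (-1) ^ (supp τ).card * zz x y q τ).trans_eq ?_
  exact sum_congr rfl fun τ _ => by rw [LB4_sq]

/-- `FF_expand` and `gram_lower`. -/
theorem Ex_FF_ge (x : ι → ℝ) (y : (ι → Option V) → ℝ) (q : ι → V → ℝ) (hq : QOK q) :
    ∑ τ : ι → Option V, zz x y q τ ^ 2 * (qwt q τ * ∏ i ∈ supp τ, (1 - ∑ v, q i v)) ≤
      Ex q (fun c => FF x y c ^ 2) := by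
  rw [LB4_exp x y q]
  refine le_of_eq_of_le ?_ (gram_lower q hq fun τ => (-1) ^ (supp τ).card * zz x y q τ)
  exact sum_congr rfl fun τ _ => by rw [LB4_sq]

end Pool.Agent.Wd33b62
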