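import Pool.Agent.W_d33b62_h36.LDefs

/-!
# Sums over labelings and products of one-variable sums (helper36, MP_d33b62_nt)
-/

set_option autoImplicit false

noncomputable section

open Finset

namespace Pool.Agent.Wd33b62

variable {ι V : Type} [Fintype ι] [DecidableEq ι] [Fintype V] [DecidableEq V]

theorem LC1_qwt (w : ι → V → ℝ) (κ : ι → Option V) : qwt w κ = ∏ v, ∏ i ∈ fib κ v, w i v := by
  unfold qwt fib
  simp_rw [Finset.prod_filter]
  rw [Finset.prod_comm]
  refine Finset.prod_congr rfl fun i _ => ?_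
  cases hi : κ i with
  | none => simp [qv]
  | some u => simp [qv, Finset.prod_ite_eq]

theorem LC1_inj : Function.Injective (fun (κ : ι → Option V) (v : V) => fib κ v) := by
  intro κ κ' h
  funext i
  refine Option.ext fun v => ?_
  have h1 : fib κ v = fib κ' v := congrFun h v
  have h2 : ∀ c : ι → Option V, c i = some v ↔ i ∈ fib c v := by
    intro c
    simp [fib]
  rw [h2 κ, h2 κ', h1]

/-- The term of a tuple of sets. -/
def LC1_P (w : ι → V → ℝ) (h : V → Finset ι → ℝ) (S : V → Finset ι) : ℝ :=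
  ∏ v, (h v (S v) * ∏ i ∈ S v, w i v)

theorem LC1_nonneg (w : ι → V → ℝ) (hw : ∀ i v, 0 ≤ w i v) (h : V → Finset ι → ℝ) (hh : ∀ v S, 0 ≤ h v S)
    (S : V → Finset ι) : 0 ≤ LC1_P w h S :=
  Finset.prod_nonneg fun v _ => mul_nonneg (hh v _) (Finset.prod_nonneg fun i _ => hw i v)

theorem LC1_term (w : ι → V → ℝ) (h : V → Finset ι → ℝ) (κ : ι → Option V) :
    (∏ v, h v (fib κ v)) * qwt w κ = LC1_P w h (fun v => fib κ v) := by
  unfold LC1_P
  rw [LC1_qwt, Finset.prod_mul_distrib]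

theorem LC1_sum (w : ι → V → ℝ) (hw : ∀ i v, 0 ≤ w i v) (h : V → Finset ι → ℝ) (hh : ∀ v S, 0 ≤ h v S)
    (s : Finset (ι → Option V)) (t : Finset (V → Finset ι)) (hst : ∀ κ ∈ s, (fun v => fib κ v) ∈ t) :
    ∑ κ ∈ s, (∏ v, h v (fib κ v)) * qwt w κ ≤ ∑ S ∈ t, LC1_P w h S := by
  simp_rw [LC1_term]
  rw [← Finset.sum_image (f := LC1_P w h) (g := fun (κ : ι → Option V) (v : V) => fib κ v)
    (fun a _ b _ hab => LC1_inj hab)]
  refine Finset.sum_le_sum_of_subset_of_nonneg ?_ fun S _ _ => LC1_nonneg w hw h hh S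
  intro S hS
  obtain ⟨κ, hκ, rfl⟩ := Finset.mem_image.mp hS
  exact hst κ hκ

theorem LC1_pi (w : ι → V → ℝ) (h : V → Finset ι → ℝ) (t : V → Finset (Finset ι)) :
    ∑ S ∈ Fintype.piFinset t, LC1_P w h S = ∏ v, ∑ S ∈ t v, h v S * ∏ i ∈ S, w i v := by
  rw [Finset.prod_univ_sum]
  rfl

/-- **Decoupling.** `κ ↦ (fib κ v)_v` is injective, `qwt w κ = ∏_v ∏_{i ∈ fib κ v} w i v`, and the right side is the sum
over all tuples of subsets (`Finset.prod_univ_sum`). -/
theorem prod_upper (w : ι → V → ℝ) (hw : ∀ i v, 0 ≤ w i v) (h : V → Finset ι → ℝ) (hh : ∀ v S, 0 ≤ h v S) :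
    ∑ κ : ι → Option V, (∏ v, h v (fib κ v)) * qwt w κ ≤ ∏ v, ∑ S : Finset ι, h v S * ∏ i ∈ S, w i v := by
  have h1 := LC1_sum w hw h hh univ univ (fun _ _ => Finset.mem_univ _)
  refine h1.trans (le_of_eq ?_)
  rw [← Fintype.piFinset_univ, LC1_pi]

/-- The same sum without the labelings all of whose labels are in `U`: at least one `fib κ v` with `v ∉ U` is nonempty, so
the tuple is not of the form `S v = ∅` for all `v ∉ U`; the sum over the tuples of this form is the product over `U` times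
`∏_{v ∉ U} h v ∅`. -/
theorem prod_upper' (w : ι → V → ℝ) (hw : ∀ i v, 0 ≤ w i v) (h : V → Finset ι → ℝ) (hh : ∀ v S, 0 ≤ h v S)
    (U : Finset V) :
    ∑ κ ∈ univ.filter (fun κ : ι → Option V => ¬ ∀ i v, κ i = some v → v ∈ U), (∏ v, h v (fib κ v)) * qwt w κ ≤
      (∏ v ∈ U, ∑ S : Finset ι, h v S * ∏ i ∈ S, w i v) *
        ((∏ v ∈ Uᶜ, ∑ S : Finset ι, h v S * ∏ i ∈ S, w i v) - ∏ v ∈ Uᶜ, h v ∅) := by
  have h1 := LC1_sum w hw h hh (univ.filter (fun κ : ι → Option V => ¬ ∀ i v, κ i = some v → v ∈ U))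
    (univ \ Fintype.piFinset (fun v => if v ∈ U then univ else {∅})) (by
      intro κ hκ
      rw [Finset.mem_sdiff]
      refine ⟨Finset.mem_univ _, fun hc => (Finset.mem_filter.mp hκ).2 fun i v hiv => ?_⟩
      by_contra hv
      have h2 := Fintype.mem_piFinset.mp hc v
      rw [if_neg hv, Finset.mem_singleton] at h2
      have h3 : i ∈ fib κ v := by simp [fib, hiv]
      rw [h2] at h3
      exact Finset.notMem_empty i h3)
  refine h1.trans (le_of_eq ?_)
  rw [Finset.sum_sdiff_eq_sub (Finset.subset_univ _), ← Fintype.piFinset_univ, LC1_pi, LC1_pi, mul_sub,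
    Finset.prod_mul_prod_compl]
  congr 1
  rw [← Finset.prod_mul_prod_compl U]
  congr 1
  · refine Finset.prod_congr rfl fun v hv => ?_
    rw [if_pos hv]
  · refine Finset.prod_congr rfl fun v hv => ?_
    rw [if_neg (Finset.mem_compl.mp hv), Finset.sum_singleton, Finset.prod_empty, mul_one]

end Pool.Agent.Wd33b62
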