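import Pool.Agent.W_b58c63_h68.ArB
import Pool.Agent.W_b58c63_h68.JPS

/-!
# Mertens estimates for the residue classes modulo 4 (helper36, MP_d33b62_nt)
-/

set_option autoImplicit false

noncomputable section

open Finset

namespace Pool.Agent.Wd33b62

open Pool.Agent.Wb58c63 (PI mem_PI VP below)

/-- The nontrivial character modulo `4`. -/
def ch4 (n : ℕ) : ℝ := if n % 4 = 1 then 1 else if n % 4 = 3 then -1 else 0

theorem MM1_re (f : ℕ → ℝ) (N : ℕ) :
    ∑ m ∈ Icc 1 N, ch4 m * f m = ∑ k ∈ range ((N + 1) / 2), (-1) ^ k * f (2 * k + 1) := by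
  induction N with
  | zero => simp
  | succ N ih =>
    rw [Finset.sum_Icc_succ_top (by omega), ih]
    rcases Nat.even_or_odd' N with ⟨j, hj | hj⟩
    · have e1 : (N + 1) / 2 = j := by omega
      have e2 : (N + 1 + 1) / 2 = j + 1 := by omega
      rw [e1, e2, Finset.sum_range_succ, hj]
      congr 1
      congr 1
      unfold ch4
      rcases Nat.even_or_odd' j with ⟨i, hi | hi⟩
      · rw [if_pos (by omega), hi, pow_mul]
        norm_num
      · rw [if_neg (by omega), if_pos (by omega), hi, pow_succ, pow_mul]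
        norm_num
    · have e1 : (N + 1) / 2 = j + 1 := by omega
      have e2 : (N + 1 + 1) / 2 = j + 1 := by omega
      rw [e1, e2]
      unfold ch4
      rw [if_neg (by omega), if_neg (by omega)]
      ring

theorem MM1_alt (K : ℕ) : ∀ b : ℕ → ℝ, Antitone b → (∀ k, 0 ≤ b k) →
    0 ≤ ∑ k ∈ range K, (-1) ^ k * b k ∧ ∑ k ∈ range K, (-1) ^ k * b k ≤ b 0 := by
  induction K with
  | zero =>
    intro b _ h0
    simpa using h0 0
  | succ K ih =>
    intro b hb h0
    obtain ⟨h1, h2⟩ := ih (fun k => b (k + 1)) (fun i j hij => hb (by omega)) (fun k => h0 _)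
    have h3 : b (0 + 1) ≤ b 0 := hb (by omega)
    have h4 : ∑ k ∈ range (K + 1), (-1) ^ k * b k = b 0 - ∑ k ∈ range K, (-1) ^ k * b (k + 1) := by
      rw [Finset.sum_range_succ', sub_eq_add_neg, ← Finset.sum_neg_distrib, add_comm]
      congr 1
      · simp
      · refine Finset.sum_congr rfl fun k _ => ?_
        rw [pow_succ]
        ring
    rw [h4]
    constructor <;> linarith

/-- `∑_{m ≤ x} ch4 m / m` is near to `L(1) = π / 4`; alternating series: there is `L ≥ 2 / 3` with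
`|∑_{m ≤ N} ch4 m / m - L| ≤ 2 / (N + 1)`. -/
theorem ch4_one : ∃ L : ℝ, 2 / 3 ≤ L ∧ ∀ N : ℕ, |∑ m ∈ Icc 1 N, ch4 m / m - L| ≤ 2 / ((N : ℝ) + 1) := by
  refine ⟨Real.pi / 4, by linarith [Real.pi_gt_three], fun N => ?_⟩
  have hlim : Filter.Tendsto (fun n => ∑ i ∈ range n, (-1) ^ i * (1 / (2 * (i : ℝ) + 1))) Filter.atTop
      (nhds (Real.pi / 4)) := by
    have := Real.tendsto_sum_pi_div_four
    refine this.congr fun n => ?_
    refine Finset.sum_congr rfl fun i _ => ?_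
    ring
  have ha : Antitone (fun i : ℕ => 1 / (2 * (i : ℝ) + 1)) := by
    intro i j hij
    have : (i : ℝ) ≤ j := by exact_mod_cast hij
    have h0 : (0 : ℝ) ≤ i := Nat.cast_nonneg i
    change 1 / (2 * (j : ℝ) + 1) ≤ 1 / (2 * (i : ℝ) + 1)
    exact one_div_le_one_div_of_le (by linarith) (by linarith)
  have h1 : ∑ m ∈ Icc 1 N, ch4 m / m = ∑ k ∈ range ((N + 1) / 2), (-1) ^ k * (1 / (2 * (k : ℝ) + 1)) := by
    have := MM1_re (fun m => 1 / (m : ℝ)) N
    push_cast at this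
    rw [← this]
    refine Finset.sum_congr rfl fun m _ => ?_
    ring
  rw [h1]
  have key : ∀ K : ℕ, |∑ k ∈ range K, (-1) ^ k * (1 / (2 * (k : ℝ) + 1)) - Real.pi / 4| ≤
      1 / (2 * (K : ℝ) + 1) := by
    intro K
    rcases Nat.even_or_odd' K with ⟨j, hj | hj⟩
    · have h2 := ha.alternating_series_le_tendsto hlim j
      have h3 := ha.tendsto_le_alternating_series hlim j
      rw [Finset.sum_range_succ, pow_mul] at h3
      rw [hj, abs_le]
      norm_num at h2 h3 ⊢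
      have h4 : (0 : ℝ) ≤ (2 * (2 * (j : ℝ)) + 1)⁻¹ := by positivity
      constructor <;> linarith
    · have h2 := ha.alternating_series_le_tendsto hlim (j + 1)
      have h3 := ha.tendsto_le_alternating_series hlim j
      have e1 : 2 * (j + 1) = 2 * j + 1 + 1 := by ring
      rw [e1, Finset.sum_range_succ, pow_succ, pow_mul] at h2
      rw [hj, abs_le]
      norm_num at h2 h3 ⊢
      have h4 : (0 : ℝ) ≤ (2 * (2 * (j : ℝ) + 1) + 1)⁻¹ := by positivity
      constructor <;> linarith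
  refine (key _).trans ?_
  have hN : (N : ℝ) + 1 ≤ 2 * (((N + 1) / 2 : ℕ) : ℝ) + 1 := by
    have : N + 1 ≤ 2 * ((N + 1) / 2) + 1 := by omega
    exact_mod_cast this
  have hN0 : (0 : ℝ) < (N : ℝ) + 1 := by positivity
  calc 1 / (2 * (((N + 1) / 2 : ℕ) : ℝ) + 1) ≤ 1 / ((N : ℝ) + 1) := one_div_le_one_div_of_le hN0 hN
    _ ≤ 2 / ((N : ℝ) + 1) := by
        gcongr
        norm_num

/-- `∑_{m ≤ N} ch4 m log m / m` is bounded (alternating signs on the odd numbers, `log t / t` decreases for `t ≥ 3`). -/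
theorem ch4_log : ∃ C : ℝ, 0 < C ∧ ∀ N : ℕ, |∑ m ∈ Icc 1 N, ch4 m * Real.log m / m| ≤ C := by
  refine ⟨1, one_pos, fun N => ?_⟩
  have h1 : ∑ m ∈ Icc 1 N, ch4 m * Real.log m / m =
      ∑ k ∈ range ((N + 1) / 2), (-1) ^ k * (Real.log ((2 * k + 1 : ℕ) : ℝ) / ((2 * k + 1 : ℕ) : ℝ)) := by
    rw [← MM1_re (fun m => Real.log m / m) N]
    refine Finset.sum_congr rfl fun m _ => ?_
    ring
  rw [h1]
  rcases Nat.eq_zero_or_pos ((N + 1) / 2) with h0 | h0
  · rw [h0]
    simp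
  obtain ⟨K, hK⟩ : ∃ K, (N + 1) / 2 = K + 1 := ⟨(N + 1) / 2 - 1, by omega⟩
  rw [hK, Finset.sum_range_succ']
  obtain ⟨b, hb⟩ : ∃ b : ℕ → ℝ, b = fun k => Real.log ((2 * (k + 1) + 1 : ℕ) : ℝ) / ((2 * (k + 1) + 1 : ℕ) : ℝ) :=
    ⟨_, rfl⟩
  have hb0 : ∀ k, 0 ≤ b k := by
    intro k
    rw [hb]
    exact div_nonneg (Real.log_natCast_nonneg _) (Nat.cast_nonneg _)
  have hba : Antitone b := by
    intro i j hij
    rw [hb]
    have h3 : ∀ k : ℕ, ((2 * (k + 1) + 1 : ℕ) : ℝ) ∈ {x : ℝ | Real.exp 1 ≤ x} := by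
      intro k
      have h4 := Real.exp_one_lt_d9
      have h5 : (3 : ℝ) ≤ ((2 * (k + 1) + 1 : ℕ) : ℝ) := by exact_mod_cast (by omega : 3 ≤ 2 * (k + 1) + 1)
      change Real.exp 1 ≤ ((2 * (k + 1) + 1 : ℕ) : ℝ)
      linarith
    exact Real.log_div_self_antitoneOn (h3 i) (h3 j) (by exact_mod_cast (by omega : 2 * (i + 1) + 1 ≤ 2 * (j + 1) + 1))
  obtain ⟨h2, h3⟩ := MM1_alt K b hba hb0
  have h4 : ∑ k ∈ range K, (-1 : ℝ) ^ (k + 1) * (Real.log ((2 * (k + 1) + 1 : ℕ) : ℝ) / ((2 * (k + 1) + 1 : ℕ) : ℝ)) =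
      -∑ k ∈ range K, (-1) ^ k * b k := by
    rw [← Finset.sum_neg_distrib, hb]
    refine Finset.sum_congr rfl fun k _ => ?_
    rw [pow_succ]
    ring
  have h5 : b 0 ≤ 1 := by
    rw [hb]
    have := Real.log_le_sub_one_of_pos (by norm_num : (0 : ℝ) < 3)
    have h6 : ((2 * (0 + 1) + 1 : ℕ) : ℝ) = 3 := by norm_num
    simp only [h6]
    linarith
  rw [h4, abs_le]
  have h7 : Real.log ((2 * 0 + 1 : ℕ) : ℝ) = 0 := by simp
  rw [h7]
  constructor
  · simp only [zero_div, mul_zero, add_zero]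
    linarith
  · simp only [zero_div, mul_zero, add_zero]
    linarith

end Pool.Agent.Wd33b62
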