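import Pool.Agent.W_b58c63_h68.ArB
import Pool.Agent.W_d33b62_h36.MM1

/-!
# Mertens estimates for the residue classes modulo 4 (helper36, MP_d33b62_nt)
-/

set_option autoImplicit false

noncomputable section

open Finset

namespace Pool.Agent.Wd33b62

open Pool.Agent.Wb58c63 (PI mem_PI VP below)

theorem MM2_mul (a b : ℕ) : ch4 (a * b) = ch4 a * ch4 b := by
  unfold ch4
  have ha : a % 4 = 0 ∨ a % 4 = 1 ∨ a % 4 = 2 ∨ a % 4 = 3 := by omega
  have hb : b % 4 = 0 ∨ b % 4 = 1 ∨ b % 4 = 2 ∨ b % 4 = 3 := by omega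
  rcases ha with ha | ha | ha | ha <;> rcases hb with hb | hb | hb | hb <;>
    simp [Nat.mul_mod, ha, hb]

theorem MM2_abs (n : ℕ) : |ch4 n| ≤ 1 := by
  unfold ch4
  split_ifs <;> simp

/-- The two factors. -/
def MM2_F : ArithmeticFunction ℝ :=
  ⟨fun n => ch4 n * ArithmeticFunction.vonMangoldt n / n, by simp⟩

/-- The two factors. -/
def MM2_G : ArithmeticFunction ℝ := ⟨fun n => ch4 n / n, by simp⟩

theorem MM2_FG (n : ℕ) : (MM2_F * MM2_G) n = ch4 n * Real.log n / n := by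
  rw [ArithmeticFunction.mul_apply]
  have h1 : ∀ x ∈ n.divisorsAntidiagonal, MM2_F x.1 * MM2_G x.2 =
      ch4 n / n * ArithmeticFunction.vonMangoldt x.1 := by
    intro x hx
    have h2 := (Nat.mem_divisorsAntidiagonal.1 hx).1
    show ch4 x.1 * ArithmeticFunction.vonMangoldt x.1 / x.1 * (ch4 x.2 / x.2) = _
    rw [← h2, MM2_mul, div_mul_div_comm]
    push_cast
    ring
  rw [Finset.sum_congr rfl h1, ← Finset.mul_sum,
    Nat.sum_divisorsAntidiagonal (fun d _ => ArithmeticFunction.vonMangoldt d),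
    ArithmeticFunction.vonMangoldt_sum]
  ring

theorem MM2_Icc (N : ℕ) : Icc 1 N = Ioc 0 N := by
  ext
  simp [Nat.succ_le_iff]

theorem MM2_S : ∃ C : ℝ, 0 < C ∧ ∀ N : ℕ,
    |∑ n ∈ Ioc 0 N, ch4 n * ArithmeticFunction.vonMangoldt n / n| ≤ C := by
  obtain ⟨L, hL, h1⟩ := ch4_one
  obtain ⟨C, hC, h2⟩ := ch4_log
  have hlog4 : 0 < Real.log 4 := Real.log_pos (by norm_num)
  refine ⟨(C + 2 * (Real.log 4 + 4)) * (3 / 2), by positivity, fun N => ?_⟩
  have hL0 : 0 < L := by linarith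
  rcases Nat.eq_zero_or_pos N with h0 | h0
  · subst h0
    simp only [Ioc_self, sum_empty, abs_zero]
    positivity
  have hN0 : (0 : ℝ) < N := by exact_mod_cast h0
  set S := ∑ n ∈ Ioc 0 N, ch4 n * ArithmeticFunction.vonMangoldt n / n with hS
  have h3 := ArithmeticFunction.sum_Ioc_mul_eq_sum_sum MM2_F MM2_G N
  have h4 : ∑ n ∈ Ioc 0 N, (MM2_F * MM2_G) n = ∑ m ∈ Icc 1 N, ch4 m * Real.log m / m := by
    rw [MM2_Icc]
    exact Finset.sum_congr rfl fun n _ => MM2_FG n
  have h5 : ∑ n ∈ Ioc 0 N, MM2_F n * ∑ m ∈ Ioc 0 (N / n), MM2_G m - L * S =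
      ∑ n ∈ Ioc 0 N, MM2_F n * (∑ m ∈ Ioc 0 (N / n), MM2_G m - L) := by
    rw [hS, Finset.mul_sum, ← Finset.sum_sub_distrib]
    refine Finset.sum_congr rfl fun n _ => ?_
    have : MM2_F n = ch4 n * ArithmeticFunction.vonMangoldt n / n := rfl
    rw [this]
    ring
  have h6 : |∑ n ∈ Ioc 0 N, MM2_F n * (∑ m ∈ Ioc 0 (N / n), MM2_G m - L)| ≤
      2 * (Real.log 4 + 4) := by
    calc |∑ n ∈ Ioc 0 N, MM2_F n * (∑ m ∈ Ioc 0 (N / n), MM2_G m - L)|
        ≤ ∑ n ∈ Ioc 0 N, |MM2_F n * (∑ m ∈ Ioc 0 (N / n), MM2_G m - L)| :=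
          Finset.abs_sum_le_sum_abs _ _
      _ ≤ ∑ n ∈ Ioc 0 N, ArithmeticFunction.vonMangoldt n * (2 / N) := by
          refine Finset.sum_le_sum fun n hn => ?_
          have hn1 : 0 < n := (Finset.mem_Ioc.1 hn).1
          have hn0 : (0 : ℝ) < n := by exact_mod_cast hn1
          have hv : 0 ≤ ArithmeticFunction.vonMangoldt n := ArithmeticFunction.vonMangoldt_nonneg
          have h7 : |MM2_F n| ≤ ArithmeticFunction.vonMangoldt n / n := by
            show |ch4 n * ArithmeticFunction.vonMangoldt n / n| ≤ _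
            rw [abs_div, abs_mul, abs_of_nonneg hv, abs_of_pos hn0]
            refine div_le_div_of_nonneg_right ?_ hn0.le
            have := mul_le_mul_of_nonneg_right (MM2_abs n) hv
            linarith
          have h8 : |∑ m ∈ Ioc 0 (N / n), MM2_G m - L| ≤ 2 * n / N := by
            have h9 := h1 (N / n)
            rw [MM2_Icc] at h9
            refine h9.trans ?_
            have h10 : (N : ℝ) < ((N / n : ℕ) + 1) * n := by
              have h11 : N < (N / n + 1) * n := by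
                have h12 := Nat.div_add_mod N n
                have h13 := Nat.mod_lt N hn1
                calc N = n * (N / n) + N % n := h12.symm
                  _ < n * (N / n) + n := by omega
                  _ = (N / n + 1) * n := by ring
              exact_mod_cast h11
            rw [div_le_div_iff₀ (by positivity) hN0]
            nlinarith
          rw [abs_mul]
          calc |MM2_F n| * |∑ m ∈ Ioc 0 (N / n), MM2_G m - L|
              ≤ ArithmeticFunction.vonMangoldt n / n * (2 * n / N) :=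
                mul_le_mul h7 h8 (abs_nonneg _) (by positivity)
            _ = _ := by
              field_simp
      _ = 2 / N * Chebyshev.psi N := by
          unfold Chebyshev.psi
          rw [Nat.floor_natCast, ← Finset.sum_mul]
          ring
      _ ≤ 2 / N * ((Real.log 4 + 4) * N) :=
          mul_le_mul_of_nonneg_left (Chebyshev.psi_le_const_mul_self hN0.le) (by positivity)
      _ = 2 * (Real.log 4 + 4) := by
          field_simp
  rw [← h5, ← h3, h4] at h6
  have h7 := h2 N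
  have h8 : |L * S| ≤ C + 2 * (Real.log 4 + 4) := by
    rw [abs_le] at h6 h7 ⊢
    constructor <;> linarith [h6.1, h6.2, h7.1, h7.2]
  rw [abs_mul, abs_of_pos hL0] at h8
  have h9 : 2 / 3 * |S| ≤ L * |S| := mul_le_mul_of_nonneg_right hL (abs_nonneg _)
  linarith

/-- Abel's inequality. -/
theorem MM2_abel (a b : ℕ → ℝ) (C : ℝ) (hC : ∀ N : ℕ, |∑ n ∈ Icc 1 N, a n| ≤ C) (U : ℕ) (hU : 1 ≤ U)
    (hb : ∀ n, U ≤ n → 0 ≤ b n) (hba : ∀ n, U ≤ n → b (n + 1) ≤ b n) (N : ℕ) (hN : U ≤ N) :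
    |∑ n ∈ Icc U N, a n * b n| ≤ 2 * C * b U := by
  have key : ∀ N : ℕ, U ≤ N → |∑ n ∈ Icc U N, a n * b n - (∑ n ∈ Icc 1 N, a n) * b N +
      (∑ n ∈ Icc 1 (U - 1), a n) * b U| ≤ C * (b U - b N) := by
    intro N hN
    induction N, hN using Nat.le_induction with
    | base =>
      have h1 : ∑ n ∈ Icc 1 U, a n = ∑ n ∈ Icc 1 (U - 1), a n + a U := by
        obtain ⟨V, rfl⟩ : ∃ V, U = V + 1 := ⟨U - 1, by omega⟩
        rw [Finset.sum_Icc_succ_top (by omega)]
        simp
      rw [Finset.Icc_self, Finset.sum_singleton, h1]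
      have h2 : a U * b U - (∑ n ∈ Icc 1 (U - 1), a n + a U) * b U +
          (∑ n ∈ Icc 1 (U - 1), a n) * b U = 0 := by ring
      rw [h2]
      simp
    | succ N hN ih =>
      rw [Finset.sum_Icc_succ_top (by omega), Finset.sum_Icc_succ_top (a := 1) (by omega)]
      set A := ∑ n ∈ Icc 1 N, a n with hA
      have h1 := hC N
      rw [← hA] at h1
      have h2 : 0 ≤ b N - b (N + 1) := by linarith [hba N hN]
      have h3 : |A * (b N - b (N + 1))| ≤ C * (b N - b (N + 1)) := by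
        rw [abs_mul, abs_of_nonneg h2]
        exact mul_le_mul_of_nonneg_right h1 h2
      have h4 : ∑ n ∈ Icc U N, a n * b n + a (N + 1) * b (N + 1) - (A + a (N + 1)) * b (N + 1) +
          (∑ n ∈ Icc 1 (U - 1), a n) * b U =
          (∑ n ∈ Icc U N, a n * b n - A * b N + (∑ n ∈ Icc 1 (U - 1), a n) * b U) +
            A * (b N - b (N + 1)) := by ring
      rw [h4]
      calc _ ≤ C * (b U - b N) + C * (b N - b (N + 1)) := (abs_add_le _ _).trans (add_le_add ih h3)
        _ = _ := by ring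
  have h1 := key N hN
  have h2 : |(∑ n ∈ Icc 1 N, a n) * b N| ≤ C * b N := by
    rw [abs_mul, abs_of_nonneg (hb N hN)]
    exact mul_le_mul_of_nonneg_right (hC N) (hb N hN)
  have h3 : |(∑ n ∈ Icc 1 (U - 1), a n) * b U| ≤ C * b U := by
    rw [abs_mul, abs_of_nonneg (hb U le_rfl)]
    exact mul_le_mul_of_nonneg_right (hC _) (hb U le_rfl)
  rw [abs_le] at h1 h2 h3 ⊢
  constructor <;> linarith [h1.1, h1.2, h2.1, h2.2, h3.1, h3.2]

/-- **Mertens for the character.** `log = Λ * 1`: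
`∑_{m ≤ N} ch4 m log m / m = ∑_{d ≤ N} ch4 d Λ(d) / d ∑_{m ≤ N / d} ch4 m / m = L ∑_{d ≤ N} ch4 d Λ(d) / d + O(∑_{d ≤ N} Λ(d) / N)`
(`ch4` is completely multiplicative; `2 / (⌊N / d⌋ + 1) ≤ 2 d / N`), so `∑_{d ≤ N} ch4 d Λ(d) / d` is bounded by `ch4_one`,
`ch4_log` and Chebyshev; the prime powers contribute `O(1)` (`arb_S`). -/
theorem ch4_mertens : ∃ C : ℝ, 0 < C ∧ ∀ N : ℕ, |∑ p ∈ (Icc 1 N).filter Nat.Prime, ch4 p * Real.log p / p| ≤ C := by
  obtain ⟨C, hC, h1⟩ := MM2_S
  obtain ⟨C1, hC1, h2⟩ := Pool.Agent.Wb58c63.arb_S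
  refine ⟨C + C1, by linarith, fun N => ?_⟩
  have h3 : ∑ n ∈ Ioc 0 N, ch4 n * ArithmeticFunction.vonMangoldt n / n =
      ∑ p ∈ (Icc 1 N).filter Nat.Prime, ch4 p * Real.log p / p +
        ∑ n ∈ Icc 1 N, ch4 n * (Pool.Agent.Wb58c63.arb_cc n / n) := by
    rw [← MM2_Icc, Finset.sum_filter, ← Finset.sum_add_distrib]
    refine Finset.sum_congr rfl fun n _ => ?_
    unfold Pool.Agent.Wb58c63.arb_cc
    by_cases hp : n.Prime
    · rw [if_pos hp, if_pos hp, ArithmeticFunction.vonMangoldt_apply_prime hp]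
      simp
    · rw [if_neg hp, if_neg hp]
      ring
  have h4 : |∑ n ∈ Icc 1 N, ch4 n * (Pool.Agent.Wb58c63.arb_cc n / n)| ≤ C1 := by
    refine (Finset.abs_sum_le_sum_abs _ _).trans (le_trans ?_ (h2 N))
    refine Finset.sum_le_sum fun n _ => ?_
    have h5 : 0 ≤ Pool.Agent.Wb58c63.arb_cc n / n :=
      div_nonneg (Pool.Agent.Wb58c63.arb_cc_nonneg n) (Nat.cast_nonneg n)
    rw [abs_mul, abs_of_nonneg h5]
    have := mul_le_mul_of_nonneg_right (MM2_abs n) h5
    linarith
  have h5 := h1 N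
  rw [h3] at h5
  rw [abs_le] at h4 h5 ⊢
  constructor <;> linarith [h4.1, h4.2, h5.1, h5.2]

/-- Partial summation with `1 / log`. -/
theorem ch4_sum : ∃ C : ℝ, 0 < C ∧ ∀ u z : ℝ, 2 ≤ u → u ≤ z →
    |∑ p ∈ PI u z, ch4 p / p| ≤ C / Real.log u := by
  obtain ⟨C, hC, h⟩ := ch4_mertens
  refine ⟨2 * C, by linarith, fun u z hu huz => ?_⟩
  have hz : 2 ≤ z := hu.trans huz
  obtain ⟨N, hN, hc, hNz, hzN⟩ := Pool.Agent.Wb58c63.arb_ceil hz
  set U := ⌈u⌉₊ with hUdef
  have hU2 : 2 ≤ U := by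
    have : (1 : ℝ) < u := by linarith
    exact Nat.lt_ceil.2 (by exact_mod_cast this)
  have huU : u ≤ U := Nat.le_ceil u
  have hlu : 0 < Real.log u := Real.log_pos (by linarith)
  have hP : PI u z = (Icc U N).filter Nat.Prime := by
    ext p
    unfold PI
    rw [mem_filter, mem_filter, mem_range, mem_Icc, hc, hUdef, Nat.ceil_le]
    constructor
    · rintro ⟨h1, h2, h3⟩
      exact ⟨⟨h3, by omega⟩, h2⟩
    · rintro ⟨⟨h3, h1⟩, h2⟩
      exact ⟨by omega, h2, h3⟩
  have h1 : ∑ p ∈ PI u z, ch4 p / p =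
      ∑ n ∈ Icc U N, (if n.Prime then ch4 n * Real.log n / n else 0) * (1 / Real.log n) := by
    rw [hP, Finset.sum_filter]
    refine Finset.sum_congr rfl fun n hn => ?_
    have hn2 : 2 ≤ n := hU2.trans (mem_Icc.1 hn).1
    have hln : 0 < Real.log n := Real.log_pos (by exact_mod_cast hn2)
    split_ifs
    · field_simp
    · ring
  rcases Nat.lt_or_ge N U with hNU | hNU
  · rw [h1, Finset.Icc_eq_empty (by omega), Finset.sum_empty, abs_zero]
    positivity
  have h2 : |∑ n ∈ Icc U N, (if n.Prime then ch4 n * Real.log n / n else 0) * (1 / Real.log n)| ≤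
      2 * C * (1 / Real.log U) := by
    refine MM2_abel (fun n => if n.Prime then ch4 n * Real.log n / n else 0)
      (fun n => 1 / Real.log n) C ?_ U (by omega) ?_ ?_ N hNU
    · intro M
      have h3 := h M
      rw [Finset.sum_filter] at h3
      exact h3
    · intro n hn
      have hn2 : 2 ≤ n := hU2.trans hn
      have hln : 0 < Real.log n := Real.log_pos (by exact_mod_cast hn2)
      positivity
    · intro n hn
      have hn2 : 2 ≤ n := hU2.trans hn
      have hn2' : (2 : ℝ) ≤ n := by exact_mod_cast hn2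
      have hln : 0 < Real.log n := Real.log_pos (by linarith)
      show 1 / Real.log ((n + 1 : ℕ) : ℝ) ≤ 1 / Real.log n
      refine one_div_le_one_div_of_le hln (Real.log_le_log (by linarith) ?_)
      push_cast
      linarith
  rw [h1]
  refine h2.trans ?_
  have h3 : 1 / Real.log U ≤ 1 / Real.log u :=
    one_div_le_one_div_of_le hlu (Real.log_le_log (by linarith) huU)
  calc 2 * C * (1 / Real.log U) ≤ 2 * C * (1 / Real.log u) :=
        mul_le_mul_of_nonneg_left h3 (by linarith)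
    _ = 2 * C / Real.log u := by ring

end Pool.Agent.Wd33b62
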