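import Pool.Agent.W_d33b62_h36.AR8e
import Pool.Agent.W_d33b62_h36.AR8f
import Pool.Agent.W_d33b62_h36.CG
import Pool.Agent.W_d33b62_h36.CRd
import Pool.Agent.W_d33b62_h36.CRe

/-!
# Bounded gaps in prime components (helper36, MP_d33b62_nt)
-/

set_option autoImplicit false

noncomputable section

open Finset

namespace Pool.Agent.Wd33b62

/-- A nonempty closed set is infinite (the case `k = 1`). -/
theorem Clos.infinite {S : Set ℕ} (hS : Clos S) (hne : S.Nonempty) : S.Infinite := by
  obtain ⟨a, ha⟩ := hne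
  obtain ⟨D1, hD1⟩ := AN1
  have ha2 := hS.1 a ha
  have ha3 : 2 < a := by
    have h1 := ha2.1.two_le
    have h2 := ha2.2
    omega
  obtain ⟨d, hd, hh, hq⟩ := exists_data hS (k := 1) (fun _ => a) (fun _ => ha)
    (fun x y _ => Subsingleton.elim x y) (fun _ _ => rfl) (fun _ => by omega) (by
      intro u v huv
      rcases u with i | x <;> rcases v with j | y
      · rw [Subsingleton.elim i j]
      · exfalso
        have hi : (i : ℕ) = 0 := by omega
        have hy : (y.1 : ℕ) = 0 := by omega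
        simp only [Sum.elim_inl, Sum.elim_inr, hi, hy] at huv
        omega
      · exfalso
        have hi : (j : ℕ) = 0 := by omega
        have hy : (x.1 : ℕ) = 0 := by omega
        simp only [Sum.elim_inl, Sum.elim_inr, hi, hy] at huv
        omega
      · rw [Subsingleton.elim x y]) D1
  rw [Set.infinite_iff_exists_gt]
  intro N
  obtain ⟨n, hn, hb, hp, hg⟩ := hD1 d hd (N + 1)
  exact ⟨n + d.h 0, hq 0 0 n hb hp hg, by omega⟩

/-- **The combinatorial core**: for every `m` there is `H` such that every nonempty closed set contains infinitely often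
`m + 1` elements in an interval of length `H`. -/
theorem closed_gaps (m : ℕ) : ∃ H : ℕ, ∀ S : Set ℕ, Clos S → S.Nonempty → ∀ N : ℕ, ∃ n ≥ N,
    m + 1 ≤ (S ∩ Set.Icc n (n + H)).ncard := by
  classical
  obtain ⟨k, hk, D1, hAN⟩ := AN m
  refine ⟨k * QQ k, fun S hS hne N => ?_⟩
  obtain ⟨a, haS, hinj, hmod, hbig, hsh⟩ := exists_a (hS.infinite hne) k
  obtain ⟨d, hd, hh, hq⟩ := exists_data hS a haS hinj hmod hbig hsh D1
  obtain ⟨n, hn, hb, hcard⟩ := hAN d hd N
  refine ⟨n, hn, hcard.trans ?_⟩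
  have hfin : (S ∩ Set.Icc n (n + k * QQ k)).Finite := (Set.finite_Icc _ _).inter_of_right _
  have hinj2 : Function.Injective (fun i : Fin k => n + d.h i) := by
    intro i j hij
    have h1 : d.h i = d.h j := by
      simpa using hij
    rw [hh, hh] at h1
    have hQ : 0 < QQ k := by
      unfold QQ
      have := Nat.factorial_pos (k + k ^ 2)
      omega
    exact Fin.ext (Nat.eq_of_mul_eq_mul_right hQ h1)
  rw [← Finset.card_image_of_injective _ hinj2, ← Set.ncard_coe_finset]
  refine Set.ncard_le_ncard ?_ hfin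
  intro p hp
  rw [Finset.mem_coe, Finset.mem_image] at hp
  obtain ⟨i, hi, rfl⟩ := hp
  obtain ⟨-, hpr, j, hj⟩ := Finset.mem_filter.1 hi
  refine ⟨hq i j n hb hpr hj, ?_⟩
  rw [Set.mem_Icc, hh]
  have h1 : (i : ℕ) * QQ k ≤ k * QQ k := Nat.mul_le_mul_right _ i.2.le
  omega

/-- **Bounded gaps in prime components, with absolute constants.** -/
theorem main (m : ℕ) : ∃ H : ℕ, ∀ v : Fin 4 → GC, IsDescartes v → IsIntegral v → IsPrimitive v →
    ∀ C ∈ packing v, OddPrimeCurv C → ∀ N : ℕ, ∃ n ≥ N, m + 1 ≤ (curvs v C ∩ Set.Icc n (n + H)).ncard := by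
  obtain ⟨H, hH⟩ := closed_gaps m
  refine ⟨H, fun v hv hI hP C hC hC2 N => ?_⟩
  obtain ⟨h1, h2⟩ := clos_curvs hv hI hP hC hC2
  exact hH _ h1 h2 N

end Pool.Agent.Wd33b62
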